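import Pool.Agent.Helper26.WD.AlgP

/-!
# Intermediate states of the computation for the Whitehead double
-/

namespace Pool.Agent.Helper26.WD

/-- State number 0. -/
def wst0 : L ℕ 7 := (
[[[[[[]],[],[[]],[[]],[[],[],[[49152]]]],[],[],[],[[],[],[[],[],[[427520]]]]],[],[[[[]],[],[[]],
[[]],[[],[],[[4608]]]],[],[],[[],[],[[],[],[[45248]]]],[]],[],[],[[]],[[[],[],[[],[],[[704]]]],[],
[],[],[[[],[],[[6656]]]]]],[[[]],[],[],[],[],[[]]],[[[[[]],[],[[]],[[]],[[],[],[[427520]]]],[],[],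
[],[[],[],[[],[],[[2375936]]]]],[[[[]],[],[[]],[[]],[[],[],[[45248]]]],[],[],[],[[],[],[[],[],
[[330784]]]]],[],[],[],[[],[[],[],[[],[],[[6656]]]],[],[],[[[],[],[[704]]]]],[]],[[],[[]],[],[],
[],[[],[]]],[[[[[]],[],[[]],[[]],[[],[],[[704]]]],[],[],[[],[],[[],[],[[330784]]]],[]],[],[[[[]],
[],[[]],[[]],[[],[],[[6656]]]],[],[],[],[[],[],[[],[],[[36993]]]]],[],[],[[[],[],[[],[],[[704]]]],
[],[],[],[[[],[],[[427552]]]]],[]],[],[],[[[]],[],[[],[]],[]],[[[[],[],[[],[],[[6656]]]],[],[],[],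
[[[],[],[[3686464]]]]],[],[[[],[],[[],[],[[3686464]]]],[[],[],[[],[],[[427552]]]],[],[],[]],[],[],
[],[[[[],[],[[330240]]]],[],[[[],[],[[2384128]]]]]]] : List (List (List (List (List (List (List (ℕ))))))))

/-- State number 1. -/
def wst1 : L ℕ 7 := (
[[[[[[],[],[]],[],[[[1]],[[1]],[]],[[]],[[],[],[[1]]]],[],[[[],[],[[1]]],[[[1]],[],[]],[[],[],[]],
[[],[[1]],[[1]]],[[],[]]],[[]],[[[],[],[]],[[],[],[]],[[],[],[[27361280]]],[[],[],[[2908160]]],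
[]],[[[],[]],[[],[]],[[]]],[[[[3149824]],[],[[1]]],[[],[]],[[],[[2908160]]],[[]],[[[49152]],[],
[[427520]]]]],[[[]],[],[],[[]]],[[[[]],[],[[]],[[]],[[],[],[[294912]]]],[[[]],[],[[]],[[]],[[],[],
[[40960]]]],[],[[],[[]],[[],[],[[2895872]]],[[],[]],[[],[[461824]]]],[]],[[],[[]],[],[[],[]]],
[[[[],[],[]],[[],[],[]],[[],[],[]],[[],[],[[40960]]],[]],[],[[[]],[],[[]],[[]],[[],[],[[4608]]]],
[[[]],[],[[[]],[[461824]],[]],[[]],[[[295424]],[],[[45248]]]],[[],[],[[]],[[]],[[]]],[[],[],[[]],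
[[]],[[[53248]]]],[]],[[[]],[],[[],[]]],[[[[[1]],[[1]],[]],[[],[],[]],[[[1]],[],[[45056]]],[[[1]],
[],[[7168]]],[[]]],[[],[[],[],[]],[],[],[[]]],[[[[1]],[[1]],[]],[[[1]],[[1]],[]],[],[[]],[[],
[[6656]],[[704]]]],[[],[],[[]],[[]],[[]]],[[[],[],[[21037056]]],[],[[[1]],[[3162112]],[]],[[]],
[[[49152]],[],[[6656]]]],[[],[],[[[1]]],[[]],[[[4608]]]],[[],[],[[]]]],[[[[],[]],[],[[]],[[]]],
[[],[[],[]],[],[[]]],[[[],[]],[[],[]]],[],[[[],[]],[],[[]],[[]]],[[],[],[[]]]],[[[[],[],[[1]]],[],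
[[]],[[]],[[[458752]]]],[[],[[],[]],[],[[]]],[[[],[],[[458752]]],[[],[],[[53248]]]],[],[[[],
[[3162112]]],[],[[[2895872]],[],[[328704]]],[[]]],[[],[],[[]]],[[],[],[[[294912]]]]]],[[[],[]],[],
[],[],[],[[],[],[]]],[[[[[],[],[]],[],[[[27361280]],[[2908160]],[]],[[]],[[],[],[[1]]]],[],[[[],
[],[[49152]]],[[[2908160]],[],[]],[[],[],[]],[[],[[427520]],[[1]]],[[],[]]],[[[],[]]],[[[],[[1]],
[]],[[],[],[]],[[],[],[[152059904]]],[[],[],[[21004800]]],[]],[[[],[]],[[],[]],[[]]],[[[[427520]],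
[],[[1]]],[[],[]],[[],[[21004800]]],[[]],[[[427520]],[],[[2375936]]]]],[[[[]],[],[[]],[[]],[[],[],
[[2895872]]]],[],[[[],[],[]],[[],[],[]],[[],[],[]],[[],[],[[461824]]],[]],[[]],[[[[1]],[[1]],[]],
[[],[],[]],[[[2895872]],[],[[21170176]]],[[[461824]],[],[[3166272]]],[[]]],[[[]],[],[[]]],[[[],[],
[[1]]],[],[[]],[[]],[[[3162112]]]]],[],[[],[[[]],[],[[]],[[]],[[],[],[[428544]]]],[[[]],[],[[]],
[[]],[[],[],[[45248]]]],[[],[]],[[[[2895872]],[[461824]],[]],[[[461824]],[[53568]],[]],[],[[]],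
[[],[[2371712]],[[330784]]]],[[[]],[[]]],[[[],[],[[3162112]]],[[],[],[[295424]]]]],[[[]],[],[],[],
[[],[],[[]],[[]],[[]]],[],[]],[[[]],[[],[[]],[[],[],[[425984]]],[[],[]],[[],[[45056]]]],[[],[]],
[[[]],[],[[[]],[[45056]],[]],[[]],[[[49152]],[],[[6656]]]],[[[],[],[[3145728]]],[],[[[3162112]],
[[294912]],[]],[[]],[[[27297280]],[],[[704]]]],[[[],[]],[],[[]],[[]]],[[[],[[294912]]],[],
[[[458752]],[],[[49152]]],[[]]]],[[[]],[],[],[[],[],[[]],[[]],[[]]],[],[],[[],[],[[]]]],[[[]],[],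
[],[[],[],[[]],[[]],[[[328704]]]],[],[[],[],[[[328704]]],[[]],[[[3686720]]]],[[],[],
[[[2895872]]]]],[[[]],[],[],[],[],[[],[],[[]]]]],[[[[]],[],[],[[]]],[[],[],[]],[],[],[],[[[]],[],
[],[],[]]],[[[[[]],[],[[]],[[]],[[],[],[[45056]]]],[[[]],[],[[]],[[]],[[],[],[[7168]]]],[],[[],
[[]],[[],[],[[21170176]]],[[],[]],[[],[[3166272]]]],[]],[],[[[[]],[],[[]],[[]],[[],[],
[[425984]]]],[],[],[],[[],[],[[],[],[[2367552]]]]],[[[[]],[],[[]],[[]],[[],[],[[45056]]]],[],[],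
[],[[],[],[[],[],[[329744]]]]],[],[[[],[[]],[[],[],[[45056]]],[[],[]],[[],[[7168]]]],[],[],[],
[[[],[],[[27363328]]],[[],[],[[2908224]]]]],[]],[[[],[[]],[],[[],[]]],[[],[],[]],[],[],[],[[[],
[]],[],[],[],[]]],[[[[[[]],[],[]],[[],[],[]],[[],[],[]],[[],[],[[7168]]],[]],[],[[[]],[],[[]],
[[]],[[],[],[[704]]]],[[[]],[],[[[]],[[3166272]],[]],[[]],[[[45248]],[],[[330784]]]],[[],[],[[]],
[[]],[[]]],[[],[],[[]],[[]],[[[4608]]]],[]],[[[]],[],[],[],[]],[[[[],[],[]],[[],[],[]],[[],[],[]],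
[[],[],[[45056]]],[]],[],[],[],[[],[],[[[]],[[329744]],[]]]],[],[[[[]],[],[[]],[[]],[[],[],
[[6656]]]],[],[],[],[[],[],[[],[],[[36993]]]]],[[[[]],[],[[[]],[[7168]],[]],[[]],[[[4608]],[],
[[704]]]],[],[],[],[[[[]],[[2908224]],[]],[],[[],[],[[427552]]],[[],[],[[640]]],[]]],[[[],[],[[]],
[[]],[[]]]],[[[],[],[[]],[[]],[[[49152]]]],[],[],[],[],[[[]],[],[],[[],[],[[427560]]]]],[[],[],[],
[],[],[[[]],[],[],[]]]],[[[[]],[],[[],[]]],[],[[[]],[],[],[],[]],[],[[[],[]],[],[],[],[]],[]],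
[[[[[[1]],[[1]],[]],[[],[],[]],[[[3145728]],[],[[425984]]],[[[294912]],[],[[45056]]],[[]]],[],
[[[[3145728]],[[294912]],[]],[[[294912]],[[40960]],[]],[],[[]],[[],[[57344]],[[6656]]]],[[],[],
[[]],[[]],[[]]],[[[],[],[[235950080]]],[],[[[2883584]],[[27297280]],[]],[[]],[[[327680]],[],
[[3686464]]]],[[],[],[[[458752]]],[[]],[[[49152]]]],[[],[],[[]]]],[[[]],[],[],[],[],[],[[],[],
[[]]]],[[[[[1]],[[1]],[]],[[],[],[]],[[[21037056]],[],[[235933696]]],[[[3162112]],[],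
[[27296768]]],[[]]],[[],[],[[],[],[[27363328]]]],[],[[],[],[[[]],[[2908224]],[]]],[],[[[]],[],[],
[[]]],[[[]],[],[[]],[[[1]],[],[[5120]]]]],[],[[[[[21037056]],[[3162112]],[]],[[[3162112]],
[[295424]],[]],[],[[]],[[],[[23136256]],[[3686464]]]],[],[[],[],[[],[],[[3690624]]]],[[],[],[[],
[],[[427552]]]],[],[[],[[]],[],[[],[]]],[[],[[]],[],[[[5120]],[[768]]]]],[[[],[],[[]],[[]],[[]]],
[],[],[],[],[],[[[]],[],[],[]]],[[[[],[],[[327680]]],[],[[[27426816]],[[49152]],[]],[[]],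
[[[151805952]],[],[[330240]]]],[],[[[],[],[[152584192]]],[[],[],[[21135872]]]],[],[[[[]],
[[21135872]],[]],[],[[],[],[[2384128]]],[[],[],[[459776]]],[]],[[[]],[],[[],[]]],[[[[1]],[],
[[2887680]]],[],[[[2887680]],[[459776]]],[],[[],[],[[3153920]]]]],[[[],[],[[[2895872]]],[[]],
[[[21170688]]]],[],[],[],[[[]],[],[],[[],[],[[3150208]]]],[],[[[]],[],[],[],[[],[],[[7168]]]]],
[[[],[],[[]]],[],[],[],[[[]],[],[],[]]]],[[[[[]],[],[[]]],[],[[[]],[[]]],[],[[[],[]],[],[[]],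
[[]]],[]],[[[]],[],[],[],[],[[],[],[[]]]],[[[[]],[],[[]]],[],[],[],[],[[[]],[],[[]],[[]]]],[],
[[[[]],[[]]],[],[],[],[],[[],[[]],[],[[],[]]]],[[],[],[],[],[],[]],[[[[],[]],[],[[]],[[]]],[],[],
[],[],[[[]],[],[[],[]]]],[]],[[[[[],[],[[1]]],[],[[]],[[]],[[[49152]]]],[],[[[],[],[[49152]]],[[],
[],[[4608]]]],[[],[],[[]],[[]]],[[[],[[27297280]]],[],[[[328704]],[],[[3686720]]],[[[1]]],[[]]],
[[],[],[[]]],[[],[],[[[45056]]],[[]],[[[1]]]]],[[[]],[],[],[],[],[[],[],[[]]]],[[[[],[],[[1]]],[],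
[[]],[[]],[[[327680]]]],[],[],[],[],[[[]],[],[[]],[[[1]],[],[[3690880]]]]],[],[[[[],[],
[[327680]]],[[],[],[[49152]]]],[],[],[],[],[[],[[]],[],[[[3690880]],[[427560]]]]],[[],[],[],[],[],
[[[]],[],[],[]]],[[[[],[[49152]]],[],[[[45056]],[],[[5120]]],[[]]],[],[],[],[],[[[[1]],[],
[[21104128]]],[],[[[21104128]],[[3150208]]],[],[[],[],[[7168]]]]],[[[],[],[[]]]],[[[],[],
[[[425984]]]],[],[],[],[],[],[[[]],[],[],[],[[],[],[[2367552]]]]]]] : List (List (List (List (List (List (List (ℕ))))))))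

end Pool.Agent.Helper26.WD
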