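import Pool.Agent.Helper26.WD.AlgP

/-!
# Intermediate states of the computation for the Whitehead double
-/

namespace Pool.Agent.Helper26.WD

/-- State number 2. -/
def wst2 : L ℕ 7 := (
[[[[[[],[],[]],[],[[[1]],[[1]],[]],[[]],[[],[],[[2883584]]]],[],[[[]],[[]],[],[]],[],[[[[1]],
[[1]],[]],[],[[],[],[[21037056]]],[]],[],[[[],[],[[458752]]],[],[[],[[3162112]]],[],[]]],[[[]],
[[],[]],[],[[]]],[[[[[2883584]],[],[[1]]],[[],[],[]],[[[21037056]],[[1]],[]],[[],[]],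
[[[185335808]],[],[[18874368]]]],[[[],[],[]],[],[[[1]],[[1]],[]],[],[[[29556736]],[],
[[2621440]]]],[[],[],[[],[],[]],[],[]],[[],[[],[],[]],[[[1]],[],[[45056]]],[],[[[1]],[[1]]]],[[],
[[],[],[]],[],[],[[],[]]],[[],[[],[],[[49152]]],[],[[[1]],[],[[21039616]]],[[[458752]],[],
[[3162112]]]],[[],[],[],[[],[]]]],[[[],[],[],[],[]],[[],[],[],[],[]],[[]],[[]]],[[[[[458752]],[],
[[1]]],[[[3162112]],[],[[29556736]]],[[],[],[]],[[],[[1]],[[2621440]]],[[],[]]],[[],[],[],[],[]],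
[[[],[],[[1]]],[],[[[1]],[[1]]],[],[[[2895872]],[],[[294912]]]],[[[[1]],[],[]],[],[[[1]]],[],
[[[18907136]]]],[[[],[],[]],[],[],[],[[],[]]],[[[],[[1]],[[458752]]],[],[],[[[1]],[[3162112]]],
[[[3428352]],[[295424]]]],[[[],[]],[],[],[[],[]]]],[[[],[[]],[[]],[[],[]]],[[],[],[]],[[],[[],[]],
[[],[]]],[[],[],[]],[[],[],[]],[[],[],[[]],[[]]]],[[[[[1]],[[1]],[]],[[],[],[]],[[[1]],[],[[1]]],
[[[1]]],[[]]],[[],[],[],[],[]],[[[[1]],[[1]],[]],[[[1]],[[1]]],[],[],[[],[]]],[[[],[],[]],[],[],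
[],[]],[[[[1]],[],[[1]]],[],[[[1]]],[],[[]]],[[[[1]],[],[[186134528]]],[],[[[1]],[[29527040]]]],
[[[],[]],[],[[],[]]]],[[[[],[]],[[],[]],[[],[]],[[]]],[[],[],[],[]],[[[],[]],[[]],[],[[],[]]],
[[[],[]],[],[],[[]]],[[[],[]],[],[[]],[[]]],[]],[[[[],[],[[1]]],[[],[]],[[[201605120]],
[[294912]]],[[]],[[[29556736]],[],[[49152]]]],[[],[],[],[]],[[[[201592832]],[],[[29556736]]],
[[[18940416]],[],[[3428352]]],[],[[],[[49152]],[[4608]]]],[[[],[]],[],[],[[],[]]],[[[[1]],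
[[45056]]],[],[[[186134528]]],[[[461824]],[]]],[[[],[]],[],[[],[]]],[[[[3162112]],[],
[[27362816]]],[],[[[18940416]],[[2908352]]],[],[[[45248]],[],[[6656]]]]]],[[],[[[]],[[],[]],[],
[[]]],[[]],[[]],[[]],[[],[],[[]]]],[[[[[]],[],[[]],[[]],[[],[],[[425984]]]],[],[],[],[[],[],[[],
[],[[2367552]]]]],[[[[]],[],[[]],[[]],[[],[],[[45056]]]],[[],[]],[[[]],[[]]],[[]],[[[]],[],[[],[],
[[328704]]]],[[[]],[],[[],[]]],[[[],[],[[7168]]],[],[[],[[3166272]]]]],[],[[],[[],[],[[]]],[[[]],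
[],[[]]],[[],[],[]],[[[]],[[]],[]],[[[]],[],[],[[],[]]],[[[],[],[[45056]]],[],[],[[],
[[329744]]]]],[[],[[],[],[]],[],[],[[]]],[[],[[],[],[[],[],[[6656]]]],[[],[],[]],[[[]],[],[[]]],
[[[],[],[[1]]],[],[[]]],[[[],[]],[],[],[[]]],[[[],[[7168]]],[],[],[[[2908224]]]]],[]],[[[[]],[[],
[]],[],[[]]],[],[[],[],[]],[],[],[[],[[]],[],[],[]]],[[[[[[1]],[],[[1]]],[],[[[1]],[[1]],[]],[[],
[]],[[],[],[[1]]]],[[[],[],[]],[],[[[1]],[[1]],[]],[],[[],[],[[1]]]],[[],[],[[],[],[]],[],[]],[[],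
[[],[],[]],[[[2895872]],[],[[328704]]],[],[[]]],[[],[[],[],[]],[],[],[[]]],[[],[[],[],[[428544]]],
[],[[[428544]],[],[[2371712]]],[[[3162112]]]],[[],[],[],[[]]]],[],[[[[],[],[]],[],[[[27361280]],
[[2908160]],[]],[[]],[[],[],[[21102592]]]],[[],[]],[[[],[],[[49152]]],[[[2908160]],[],[]],[[],[],
[]],[[],[[427520]],[[3162112]]],[[],[]]],[[[],[]]],[[[[1]],[[1]],[]],[[],[],[]],[[[21037056]],[],
[[36864]]],[[[3162112]],[],[[329728]]],[[]]],[[[],[]],[[],[]],[[],[]]],[[[[427520]],[],[[49152]]],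
[[],[]],[[],[[329728]]],[[]],[[[27362816]],[],[[2375936]]]]],[[[[]],[],[[[2895872]],[[461824]],
[]],[],[[],[],[[3162112]]]],[],[[[[1]],[],[[1]]],[[[461824]],[],[]],[[],[],[]],[[],[[45248]],
[[295424]]],[[],[]]],[[]],[[[[1]],[[1]],[]],[],[[[3162112]]],[[[295424]]],[[]]],[[[],[]],[[],[]],
[[],[]],[]],[[[],[],[[1]]],[[],[]],[[],[[49408]]],[[]],[[[2908352]],[],[[330784]]]]],[[[],[],[]],
[[]],[[]],[[[]],[[]],[]],[[]],[[[],[]],[[],[]]],[[[],[]],[[],[]]]],[[[],[[]],[[],[],[[3162112]]],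
[],[[],[[294912]]]],[[]],[[]],[[[[21102592]],[],[[2883584]]],[[[3162112]],[],[[458752]]],[[],[],
[]],[[],[[327680]],[[49152]]],[[],[]]],[[[[185335808]],[],[[425984]]],[[[29556736]],[],[]],[],[[],
[[2895872]]],[[],[]]],[[[],[]],[[],[]],[]],[[[[18907136]],[[2887680]]],[[[2629632]],[[460288]]],
[[],[]],[[],[]],[[],[[428544]],[[704]]]]],[[[],[],[],[],[]],[[]],[[]],[[[],[],[]],[[],[],[]]],
[[[]],[[]],[]],[[[]],[[]],[]],[[[]],[[]],[]]],[[[],[],[],[],[]],[[]],[[]],[[[],[[2363392]],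
[[27426816]]],[[],[[328704]],[[2895872]]]],[[[],[]],[[],[]],[]],[[[[27426816]]],[[[2895872]]],[]],
[[[[201605120]],[],[[27297280]]],[[[18940416]],[],[[2892160]]],[]]],[[[],[],[],[]],[[]],[[]],[[[],
[]],[[],[]]],[[]],[[[]],[[]],[]]]],[[[]],[],[[[],[]],[[],[]],[[]],[]],[[],[]],[],[[[]],[],[[]],
[[]],[[]],[[]],[[]]]],[[[[[[]]],[[[]]],[]],[[],[],[]],[[[],[],[]],[],[[[]]]],[[[],[],[]],[],
[[[]]]],[[[],[],[]]],[[[],[],[[45056]]],[],[],[[],[[329744]]]],[[],[],[],[[],[]]]],[[],[[],[],[]],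
[],[],[[]]],[[[[]],[[]],[],[]],[[[[]],[],[]],[[],[],[]],[[],[],[]],[[],[],[[7168]]],[]],[[]],[[],
[[],[]],[],[[]]],[[],[[[]],[]],[[[]]],[[],[[49408]]],[[],[]]],[[],[[]],[[]]],[[],[[[57728]],[],
[[5120]]],[[[328704]]],[[],[]],[[[45248]],[[330784]]]]],[[[],[],[]],[[]],[[]],[[]],[[]]],[[[[]],
[],[[]]],[],[[[]],[[]],[]],[[]],[[[]],[],[[]]],[[[],[]],[[],[]],[[]]],[[[],[]],[[],[]],[[],[]],
[[]],[[[6656]],[],[[36993]]]]],[[[[]],[],[[],[]]],[],[[[[]]],[[[]]],[],[[],[[704]]],[[],[]]],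
[[[]],[[]],[]],[[[],[]],[],[[[]]],[[[1]]],[[]]],[[[],[]],[[],[]],[[]]],[[[],[],[[4608]]],[[],[]],
[[[4608]],[[640]]],[[]],[[[704]],[],[[427040]]]]],[[[]],[],[[]],[[]],[[],[],[[]]],[[],[],[[]]],
[[],[],[[]]]],[[[],[],[],[[],[]]],[],[[[],[]],[[],[]],[[],[]],[]],[[[],[]],[[],[]]],[[],[],[[]]],
[[[],[]],[],[[]],[[]]],[[[[1]],[[2908352]],[]],[[],[],[]],[[[49152]],[],[[427560]]],[[],[],
[[3150080]]],[]]],[[],[],[[[],[]],[[],[]]],[],[],[[],[],[[]]]]],[[[],[],[[]]],[],[[[]],[[]],[],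
[[]],[]],[],[[[]],[],[[]],[[]],[[]],[[]],[[]]],[]],[[[[[[1]],[[1]],[]],[[],[],[]],[[[49152]],[],
[[6656]]],[[[1]],[],[[1]]],[[]]],[[],[],[],[],[[]]],[[[[1]],[[1]],[]],[[[]]],[],[],[[],[[1]]]],
[[[],[],[]],[],[],[],[[],[]]],[[[[21037056]],[],[[3694592]]],[],[[[]]],[],[[[1]],[]]],
[[[[3162112]],[],[[27296768]]],[],[[],[[2908224]]],[],[[],[],[[4608]]]],[[[]],[],[[],[]]]],[[],
[[],[],[],[],[[]]],[],[[]],[],[],[[[]]]],[[[[[3145728]],[[294912]],[]],[],[[],[],[[3682304]]],[]],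
[[[[29360128]],[[3407872]],[]],[[],[],[]],[[[3145728]],[],[[425984]]],[[[294912]],[],[[2887680]]],
[[],[]]],[[]],[[],[[[2883584]],[[458752]]],[[[18907136]]],[[[2629632]],[[460288]]],[[],[]]],[[],
[[],[]],[],[[]]],[[[]],[[],[]],[[]],[[]]],[[[]],[[],[[393216]],[[36864]]],[[],[]],[[[3694592]],
[]],[[[428544]],[],[[3670080]]]]],[[[],[],[],[],[[]]],[[]],[[]],[[[],[],[]],[[],[],[]]],[[]],[[]],
[[[]],[[]],[]]],[[[[[21037056]],[[3162112]],[]],[[]],[],[],[[],[[5120]]]],[],[[[[49152]],[[1]],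
[]],[[],[],[]],[[],[],[[1]]],[[],[],[[4608]]],[]],[[[[4608]],[[1]],[]],[[],[],[]],[[[3162112]],[],
[]],[[[295424]],[],[[640]]],[[]]],[[]],[[[],[]],[[]],[[]],[[]]],[[[],[[896]]],[[]],[[]],
[[[361984]],[]],[[[3670080]],[[427040]]]]],[[[]],[],[[[],[],[]],[[],[],[]]],[[]],[[],[],[[]]],[[],
[],[[]]],[[],[],[[]]]],[[[[],[],[[27459584]]],[],[[],[]],[],[[[2887680]],[],[]]],[],
[[[[27459584]],[],[[202129408]]],[[[]],[],[[19005440]]],[[],[],[]],[[],[[329216]],[[2904064]]],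
[[],[]]],[[[],[],[]],[[],[],[]],[]],[[[[2887680]],[[19005440]],[]],[[],[],[]],[[[27426816]],[],
[[3153920]]],[[[2904064]],[],[[29426688]]],[[]]],[[[],[]],[[],[]],[[]]],[[[[329216]],[],
[[184815616]]],[[],[]],[[[185081856]],[[29426688]]],[[]],[[[21072384]],[],[[202391808]]]]],[[[],
[],[[],[]],[],[[],[],[]]],[],[[[[1]],[],[[458752]]],[[],[],[[53248]]],[[],[],[]],[[],[],[[1]]],
[]],[[[],[],[]],[[],[],[]],[]],[[[[1]],[[53248]],[]],[[],[],[]],[[[2895872]],[],[[7168]]],[[],[],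
[[40960]]],[]],[[],[],[[]]],[[[],[],[[21136896]]],[[],[]],[[[20974080]],[[3158400]]],[[]],[[[1]],
[],[[27330560]]]]],[[[]],[],[[[]],[[]],[]],[[]],[[],[],[[]]]]],[[[[[],[]],[[],[]],[[],[]],[[]]],
[[],[],[],[[]]],[[[]],[],[],[[],[]]],[[],[],[],[]],[[[]],[],[],[[]]],[]],[[],[[],[],[],[[]]],[],
[[]],[],[[[]]]],[[[[]],[],[[],[]]],[[[]],[],[[],[]],[]],[[]],[[],[[]],[[]]],[],[[[]],[[],[]],[],
[[]]]],[[[],[],[],[[]]],[[]],[[]],[[[],[]],[[],[]]],[[]],[[[]],[[]],[]]],[[[[]],[],[],[[],[]]],[],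
[[[],[]],[[],[]],[[],[]],[]],[[[],[]],[[],[]],[[]]],[[]],[[[],[]],[[]],[[]],[[]]]],[[[]],[],[[[],
[]],[[],[]]],[],[],[[],[],[[]]]],[[[[],[]],[],[],[[]]],[],[[[],[]],[[],[]]],[[]],[[[],[]],[[],[]],
[[]]],[[[],[]],[[],[]],[[]]]],[]],[[[[[],[],[[1]]],[[],[]],[[],[[1]]],[[]]],[[],[],[],[[]]],[[[],
[],[[1]]],[],[],[[],[[1]]]],[[],[],[],[[],[]]],[[[]],[],[],[[[1]],[]]],[[[]]],[[[[327680]]],[],[],
[],[[],[],[[3690880]]]]],[[],[[],[],[],[[]]],[],[[]],[],[[[]]]],[[[[],[],[[49152]]],[],[[],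
[[27297280]]],[],[]],[[[[3162112]],[],[[458752]]],[],[[[1]],[[1]]],[[],[]],[[[49152]],[],
[[27297280]]]],[[]],[[],[[[328704]],[],[[45056]]],[[[2895872]]],[[],[]],[[[295424]],[[2892160]]]],
[[],[[],[],[]],[],[],[[]]],[[[]],[[],[[1]],[[1]]],[[],[]],[[[1]],[]],[[[1]],[],[[21103616]]]],[[],
[[],[]],[],[[]]]],[[[],[],[],[[]]],[[]],[[]],[[[],[]],[[],[]]],[[]],[[[]],[[]],[]]],[[[[],[],
[[327680]]],[],[],[[],[[3690880]]]],[],[[[],[],[[1]]],[[],[]],[[],[[1]]],[],[[],[],[[3690880]]]],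
[[[],[]],[[],[]],[[],[]],[[]],[[[49152]],[],[[427560]]]],[[]],[[[],[[1]]],[[]],[[]],[[[1]],[]],
[[[21103616]],[[3150080]]]]],[[[]],[],[[[],[]],[[],[]]],[],[],[[],[],[[]]]],[[[[],[[49152]]],[],
[],[[[21104128]],[],[]]],[],[[[],[[458752]]],[[],[[53248]]],[[],[]],[],[[],[],[[5120]]]],[[[],[]],
[[],[]]],[[[],[],[[45056]]],[[],[]],[[[45056]],[[7168]]],[[]],[[[5120]],[],[[2384192]]]],[[[[1]],
[],[[294912]]],[[],[]],[[[294912]],[[40960]]],[[]],[[[45056]],[],[[27330560]]]],[[]]],[[[]],[],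
[[]],[[]],[[],[],[[]]]],[[[],[],[],[],[[],[],[]]],[],[[[[1]],[],[[151523328]]],[[],[],
[[21103616]]],[[],[],[]],[[],[],[[1]]],[]],[[[],[],[]],[[],[],[]]],[[[[1]],[[21103616]],[]],[[],
[],[]],[[[425984]],[],[[2367552]]],[[],[],[[27363840]]],[]],[[]],[[[],[],[[236216320]]],[[],[]],
[[[236216320]],[[27363840]]],[[]],[[[1]],[],[[151523328]]]]]]] : List (List (List (List (List (List (List (ℕ))))))))

/-- State number 3. -/
def wst3 : L ℕ 7 := (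
[[[[[[[18874368]],[],[[1]]],[],[[[12952010752]],[[294912]],[]],[[]],[[[1210056704]],[],
[[152043520]]]],[],[[[[2621440]],[],[[458752]]],[[[1210056704]],[],[[168296448]]],[[],[],[]],[[],
[[49152]],[[21004288]]],[[],[]]],[[]],[[[[1]],[[1]],[]],[[],[],[]],[[[1]],[],[[1350631424]]],
[[[1]],[],[[201605120]]],[[]]],[[[],[]],[[],[]],[[]]],[[[[185335808]],[],[[1]]],[[],[]],[[],
[[202375168]]],[[]],[[[2883584]],[],[[21037056]]]]],[[[],[],[],[],[]],[[]],[[]],[[]],[[[]],[],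
[[]]],[[[]],[],[[]]]],[[[[[151257088]],[],[[1]]],[[],[],[]],[[[1350631424]],[[1]],[]],[[],[]],
[[[11845251072]],[],[[1212186624]]]],[[[[21037056]],[],[[1]]],[[],[],[]],[[[201605120]],[[1]],[]],
[[],[]],[[[1889730560]],[],[[168296448]]]],[[],[[]],[[],[],[]],[[],[]],[[],[]]],[[],
[[[202391552]],[],[[18907136]]],[[[1]],[],[[2883584]]],[[],[]],[[],[[458752]]]],[[],[[],[],[]],
[[],[],[]],[[]],[[],[]]],[[],[[],[[5120]],[[2375680]]],[[],[],[]],[[[1]],[],[[1354892288]]],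
[[[1]],[],[[201588736]]]],[[],[[],[]],[[],[]],[[],[]]]],[[[]],[[]],[[]],[[],[]],[[[]],[[]]],[[[]],
[[]]]],[[[[[1]],[],[[1]]],[[[202375168]],[],[[1889730560]]],[[],[],[]],[[],[[1]],[[168296448]]],
[[],[]]],[[],[[]],[[],[],[]],[[],[]],[[],[]]],[[[[2883584]],[],[[1]]],[[],[],[]],[[[21037056]],
[[1]],[]],[[],[]],[[[185335808]],[],[[18874368]]]],[[[[1]],[],[[1]]],[],[[[185335808]],[[458752]],
[]],[[]],[[[1210089472]],[],[[45056]]]],[[[],[],[]],[],[[]],[[]],[[]]],[[[],[[1]],[[1]]],[],[[]],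
[[[1]],[[201588736]],[]],[[[218112000]],[[18910208]],[]]],[[[],[]],[],[[]],[[]]]],[[[[],[],[]],
[[]],[[]],[[]],[[]]],[[]],[[[],[],[]],[[],[],[]],[[]],[]],[[],[],[[]]],[[[]],[],[[]]],[[[],[],[]],
[],[[]],[[]],[[]]],[[],[],[[]]]],[[[[[1]],[[1]],[]],[[],[],[]],[[[20971520]],[],[[1]]],[[[1]],[],
[[1]]],[[]]],[[],[[],[],[]],[[]],[[]],[[]]],[[[[20971520]],[[1]],[]],[[[3145728]],[[1]],[]],[],
[[]],[[],[[1]],[[1]]]],[[],[],[[]],[[]],[[]]],[[[[11912609792]],[],[[20971520]]],[],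
[[[1885536256]],[[3145728]],[]],[[]],[[[1]],[],[[1]]]],[[[[1]],[],[[11846299648]]],[],[[[1]],
[[1889533952]],[]],[[]],[[[29527040]],[],[[186134528]]]],[[[],[]],[],[[]],[[]]]],[[[[],[]],[[],
[]],[[]],[[]]],[[],[[],[]],[[]],[[]]],[[[],[]],[[],[]],[],[[]]],[[],[],[[]],[[]]],[[[],[]],[],
[[]],[[]]],[[],[],[[]]]],[[[[[18907648]],[],[[3428352]]],[[],[]],[[[12969316352]],[[18940416]]],
[[]],[[[1889730560]],[],[[3162112]]]],[[],[[],[]],[[]],[[]]],[[[[12969328640]],[],[[1889730560]]],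
[[[1212219392]],[],[[219414528]]],[[]],[[],[[3162112]],[[294912]]],[]],[[],[],[[]],[[]]],
[[[[1889730560]],[[3411968]]],[],[[[11879333888]],[],[[460800]]],[[[29556736]],[],[[45056]]]],
[[[],[]],[],[[]],[[]]],[[[[235405312]],[],[[1747094016]]],[],[[[1220643840]],[[186138880]],[]],
[[]],[[[3694784]],[],[[27362816]]]]]],[[[],[],[[]]],[[[]],[[]],[[]],[[]]],[[],[]],[[[]],[[]],[[]],
[[],[]]],[[[]],[],[]],[[[]],[],[[],[]],[]],[],[[[]],[],[[],[]]]],[[[[[[185335808]],[],[[1]]],[],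
[[[1350631424]],[[2895872]],[]],[[]],[[[1]],[],[[1]]]],[],[[[[458752]],[],[[2637824]]],
[[[201605120]],[],[[1]]],[[],[],[]],[[],[[428544]],[[1]]],[[],[]]],[[[],[]]],[[[],[[1]],[]],[[],
[],[]],[[],[],[[151523328]]],[[],[],[[21103616]]],[]],[[[],[]],[[],[]],[[]]],[[[[428544]],[],
[[1]]],[[],[]],[[],[[21103616]]],[[]],[[[425984]],[],[[2367552]]]]],[[[[[29360128]],[],
[[3407872]]],[],[[]],[[]],[[],[],[[2883584]]]],[[]],[[[],[],[]],[[],[],[]],[[],[],[]],[[],[],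
[[458752]]],[]],[[]],[[[[1]],[[1]],[]],[[],[],[]],[[[202375168]],[],[[21037056]]],[[[458752]],[],
[[3162112]]],[[]]],[[[],[]],[[],[]],[[]]],[[[[2908352]],[],[[1]]],[[],[]],[[[18939904]],
[[201859328]]],[[]],[[[3407872]],[],[[21004816]]]]],[[[]],[[]],[[]],[],[[]]],[[[]],[[[[2883584]],
[],[[458752]]],[],[[]],[[]],[[],[],[[425984]]]],[[[]],[],[[]],[[]],[[],[],[[45056]]]],[[],[]],
[[[[202375168]],[[458752]],[]],[[[18907136]],[[53248]],[]],[],[[]],[[],[[2363392]],[[328704]]]],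
[[[]],[[]],[],[[]]],[[[[18939904]],[],[[3424256]]],[[[2637824]],[],[[360960]]],[],[[],
[[21170176]],[[3166272]]]]],[[[]],[],[],[],[[],[],[[]],[[]],[[]]],[],[[],[],[[]],[[]]]],[[[]],[[],
[[[425984]],[],[[3145728]]],[[],[],[[425984]]],[[],[]],[[],[[45056]]]],[[],[]],[[[]],[],[[[]],
[[45056]],[]],[[]],[[[49152]],[],[[6656]]]],[[[[1]],[],[[3145728]]],[],[[[185335808]],[[294912]],
[]],[[]],[[[27426816]],[],[[1]]]],[[[],[]],[],[[]],[[]]],[[[[219414528]],[[361472]]],[],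
[[[21137920]],[],[[53312]]],[[[185098240]],[],[[7168]]]]],[[[]],[],[],[[],[],[[]],[[]],[[]]],[],
[],[[],[],[[]]]],[[[]],[[],[[],[[3694592]],[[21037056]]],[],[[]],[[]]],[[],[]],[[],[],[[]],[[]],
[[[327680]]]],[],[[[[202375168]]],[],[[[18972672]]],[[]],[[[3694592]]]],[[[[1889730560]],[],
[[202641408]]],[],[[[219418624]],[[18973696]],[]],[[]],[[[27297280]]]]],[[[]],[],[],[],[],[[],[],
[[]]]]],[[[[]],[[]],[[]],[[]],[[]],[[]]],[[],[],[[]]],[[],[],[]],[[[]],[[],[]],[[],[]],[]],[[[]],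
[],[]],[[[]],[[],[],[[]],[[]]],[],[[],[]],[[[]],[],[],[[]]],[[],[]],[[[]],[],[],[[]],[[]]]],[],
[[[]],[],[],[],[],[],[]]],[[[[[[1]],[],[[1]]],[],[[[1]],[[1]],[]],[[],[]],[[],[],[[1]]]],[[[[1]],
[],[[1]]],[],[[[1]],[[1]],[]],[[],[]],[[],[],[[1]]]],[[],[[]],[[],[],[]],[[],[]],[[],[]]],[[],
[[[1]],[],[]],[[],[],[[21037056]]],[[],[]],[[],[[3162112]]]],[[],[[],[],[]],[[]],[[]],[[]]],[[],
[[],[[3690880]],[[1]]],[[],[]],[[],[],[[152059968]]],[[[2908160]],[],[[21004816]]]],[[],[[],[]],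
[],[[]]]],[[[]],[[]],[[]],[],[[]]],[[[[[2883584]],[],[[1]]],[],[[[1747091456]],[[185085952]],[]],
[[]],[[],[],[[1354825728]]]],[[],[]],[[[[1]],[],[[3145728]]],[[[185085952]],[],[]],[[],[],[]],[[],
[[27298304]],[[201588736]]],[[],[]]],[[[],[]],[],[[]],[[]]],[[[[1]],[[1]],[]],[[],[],[]],
[[[1354825728]],[],[[2359296]]],[[[201588736]],[],[[21169152]]],[[]]],[[[],[]],[[],[]],[[],[]],
[]],[[[[27298304]],[],[[3162112]]],[[],[]],[[[3162112]],[[21169152]]],[[]],[[[1747094016]],[],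
[[152584577]]]]],[[[[[458752]],[],[[1]]],[],[[[186122240]],[[29523968]],[]],[[]],[[],[],
[[201588736]]]],[[],[]],[[[[]],[],[[294912]]],[[[29523968]],[],[]],[[],[],[]],[[],[[2908160]],
[[18910208]]],[[],[]]],[[[],[]],[],[[]],[[]]],[[[[1]],[[1]],[]],[[],[],[]],[[[201588736]],[],
[[327680]]],[[[18910208]],[],[[3166464]]],[[]]],[[[],[]],[[],[]],[[],[]]],[[[[2891968]],[],
[[295424]]],[[],[]],[[[295424]],[[3149824]]],[[]],[[[186138880]],[],[[21069856]]]]],[[[]],[[]],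
[[]],[[[]],[[]],[]],[[],[]],[[[],[]],[[],[]]],[[[],[]],[[],[]]]],[[[],[[[45056]],[],[[1]]],[[],[],
[[201588736]]],[[],[]],[[],[[18907136]]]],[[[]],[[]],[[]],[[]]],[[],[],[[]],[[]]],
[[[[1354825728]],[],[[185335808]]],[[[201588736]],[],[[29360128]]],[[]],[[],[[21039616]],
[[3145920]]],[[]]],[[[[11845500928]],[],[[27262976]]],[[[1889533952]],[],[[2883584]]],[],[[],
[[185352192]],[[29556736]]],[[]]],[[[],[]],[[],[]],[[]]],[[[[1210089984]],[[185598080]],[]],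
[[[167772160]],[[29427712]],[]],[[]],[[]],[[],[[27428896]],[[2896064]]]]],[[[]],[[]],[[]],[[[],[],
[]],[[],[],[]]],[[[]],[[]],[]],[[[]],[[]],[]],[[[]],[[]],[]]],[[[],[[],[]],[],[[]]],[[[],[]],[[],
[]],[[]]],[[],[],[[]]],[[[],[[151523328]],[[1751285760]]],[[],[[21037056]],[[185335808]]],[[]],
[]],[[[],[]],[[],[]],[]],[[[[1751285760]]],[[[185335808]]],[],[[]]],[[[[12969332736]],[],
[[1753385000]]],[[[1212219904]],[],[[185880768]]],[[]],[[],[[3150080]],[[]]],[]]],[[[],[[],[]],[],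
[[]]],[[]],[[]],[[[],[]],[[],[]]],[[[]],[[]]],[[[]],[[]],[]]]],[[[[]],[[]],[[]],[[],[]],[[],[]],
[[],[]]],[],[],[[],[],[]],[[],[],[]],[[[],[]],[],[[],[],[[]],[[]]],[[]],[[],[[]],[],[[],[]]],[],
[[],[[]],[],[[],[]],[[],[]]]],[],[[[],[]],[],[],[],[],[],[]]],[[[[[[1]],[],[[458752]]],[[[1]],[],
[]],[[],[],[]],[[],[[1]],[[1]]],[[],[]]],[[],[[]],[[],[],[]],[[],[]],[[],[]]],[[[[1]],[],[[1]]],
[],[[[1]],[[1]],[]],[[],[]],[[],[],[[1]]]],[[[[2895872]],[],[]],[],[[[18939904]],[[3162112]],[]],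
[[]],[[[45056]],[],[[328704]]]],[[[],[],[]],[],[[]],[[]],[[]]],[[[],[[428544]],[[1]]],[],[[]],
[[[3149824]],[[21170176]],[]],[[[29527040]],[[3166272]],[]]],[[[],[]],[],[[]],[[]]]],[[[]],[],[],
[],[[],[],[[]],[[]],[[]]],[],[[],[],[[]],[[]]]],[[[[],[],[[3162112]]],[[[185085952]],[],[]],[[],
[],[]],[[],[[27298304]],[[202653696]]],[[],[]]],[[[[1]],[],[[294912]]],[[[29494272]],[],[]],[[],
[],[]],[[],[[2891968]],[[18940416]]],[[],[]]],[[],[]],[[],[[],[]],[[]],[[]]],[[[],[],[]],[[[1]],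
[[1]],[]],[[[3162112]],[[327680]],[]],[[[295424]],[[3149824]],[]],[[]]],[[[],[]],[[],[]],[[]],
[[]]],[[[],[]],[[[3690496]],[],[[327680]]],[[[21039616]],[],[[2371648]]],[[]],[[[3694784]],
[[21069856]],[]]]],[[[]],[[]],[[]],[[[]],[[]],[]],[[],[]],[[[],[]],[[],[]]],[[[],[]],[[],[]]]],
[[[[],[],[]],[],[[[27361280]],[[2908160]],[]],[[]],[[],[],[[21102592]]]],[[],[]],[[[],[],
[[49152]]],[[[2908160]],[],[]],[[],[],[]],[[],[[427520]],[[3162112]]],[[],[]]],[[[],[]]],[[[[1]],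
[[1]],[]],[[],[],[]],[[[21037056]],[],[[36864]]],[[[3162112]],[],[[329728]]],[[]]],[[[],[]],[[],
[]],[[],[]]],[[[[427520]],[],[[49152]]],[[],[]],[[],[[329728]]],[[]],[[[27362816]],[],
[[2375936]]]]],[[[[],[],[]],[],[[[201588736]],[[18939904]],[]],[[]],[[[29556736]],[],
[[3162112]]]],[[],[]],[[[[202653696]],[],[[29556736]]],[[[18939904]],[],[[3407872]]],[[]],[[],
[[3162112]],[[294912]]],[[]]],[[]],[[[[29556736]],[[2883584]],[]],[],[[[185335808]],[],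
[[425984]]],[[[29556736]],[],[[2375680]]],[[],[]]],[[[]],[],[[],[]]],[[[[2904064]],[],
[[27331584]]],[[]],[[[18907136]],[[2887680]]],[[],[]],[[[2896064]],[],[[27396608]]]]],[[[],[],
[[]],[[]],[[]]],[[],[]],[[[],[],[]],[[],[],[]]],[[]],[[[]],[],[[]]],[[[]],[],[[]]],[[[]],[],[[]],
[],[]]],[[[],[],[[]],[[[21102592]]],[[[186122240]]]],[[],[]],[[[],[[21103616]],[[186134528]]],[[],
[[3162112]],[[29556736]]]],[[]],[[[]],[],[[],[]]],[[[[2895872]]],[],[[[27426816]]],[[],[],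
[[425984]]],[]],[[[[18907648]],[[185864576]],[]],[],[[[201605120]],[],[[27297280]]],[[],[],
[[201588736]]],[]]],[[[],[],[[]],[[]]],[[],[]],[[[],[]],[[],[]]],[[]],[[],[],[]],[[[]],[],[[]],[],
[]]]],[[[[[]]],[],[[],[]],[[],[],[[]]],[[],[],[[]]],[[[],[]],[],[[]],[[]]],[]],[[[]],[],[],[],[[],
[],[[]]],[],[[],[],[[]]]],[[[]],[[],[],[[]],[[]]],[],[[],[]],[[[]],[],[[]],[[]]],[[],[]],[[[]],[],
[[]],[[]],[[]]]],[],[[[],[]],[],[[],[],[[]],[[]]],[[]],[[],[[]],[],[[],[]]],[],[[],[[]],[],[[],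
[]],[[],[]]]],[[],[],[],[],[],[],[]],[[],[],[],[],[],[],[]],[[],[],[[[]],[[]]],[],[],[[[]]],[[[]],
[],[[],[]]]],[]],[[[[[[18874368]],[[2621440]],[]],[[],[],[]],[[[3145728]],[],[[425984]]],
[[[294912]],[],[[45056]]],[[]]],[[],[[],[],[]],[[]],[[]],[[]]],[[[[3162112]],[[294912]],[]],
[[[294912]],[[40960]],[]],[[]],[[]],[[],[[57344]],[[6656]]]],[[[],[],[]],[],[[]],[[]],[[]]],
[[[[21037056]],[],[[236453888]]],[],[[[150994944]],[[27426816]],[]],[[]],[[[327680]],[],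
[[3694592]]]],[[[[202649600]],[],[[1757612544]]],[],[[[21137920]],[[185098240]],[]],[[]],
[[[53312]],[],[[27296768]]]],[[[]],[],[[]],[[]]]],[[[]],[[],[[],[],[]],[],[],[[]]],[[],[]],[[[],
[],[]],[],[[]],[[]],[[]]],[],[],[[[]],[],[[]]]],[[[[[1]],[[1]],[]],[[],[],[]],[[[1218510848]],[],
[[235683840]]],[[[235421696]],[],[[27460096]]],[[]]],[[[[1891664384]],[[219414528]],[]],[[],[],
[]],[[[234897408]],[],[[27262976]]],[[[29491712]],[],[[185598080]]],[[],[]]],[[],[]],[[[],[],[]],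
[[[184565760]],[[29360128]],[]],[[[1208156160]],[[2883584]],[]],[[[167772160]],[[29427712]],[]],
[[]]],[[[]],[[]],[[]],[[]]],[[[]],[[]],[[]],[[]]],[[[]],[[],[[25298432]],[[2359680]]],[[]],
[[[236457984]],[],[[18875904]]],[[[27428896]],[],[[235167808]]]]],[[[],[[],[],[]],[],[],[[]]],
[[]],[[]],[[[],[],[]],[[],[],[]]],[[[]],[[]],[]],[[[]],[[]],[]],[[[]],[[]],[]]],[[[[[1214251008]],
[[236191744]],[]],[[[169345024]],[[27361280]],[]],[],[[]],[[],[[23232512]],[[3682304]]]],[[],[]],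
[[[[185335808]],[[29556736]],[]],[[],[],[]],[[[23232512]],[],[[3670016]]],[[[2904064]],[],
[[27331584]]],[[],[]]],[[[[29360128]],[[3407872]],[]],[[],[],[]],[[[3145728]],[],[[425984]]],
[[[294912]],[],[[2887680]]],[[],[]]],[[[]],[[]],[],[[],[]]],[[[]],[[]],[[]],[[],[]]],[[[],
[[2363392]],[[327680]]],[[]],[[]],[[[19005440]],[[2625536]]],[[[235167808]],[[27396608]],[]]]],
[[[[],[],[]],[],[[]],[[]],[[]]],[[],[]],[[[],[],[]],[[],[],[]]],[[]],[[],[],[]],[[],[],[]],[[[]],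
[],[[]],[],[]]],[[[[[202899456]],[],[[1621164032]]],[],[[[1889697792]],[[151797760]],[]],[[]],
[[[152043520]],[],[[27459584]]]],[[[],[],[]],[[]],[[]],[[]]],[[[[1616904192]],[],[[12953329664]]],
[[[151797760]],[],[[1208123392]]],[[]],[[],[[25166848]],[[49152]]],[[]]],[[],[[]],[],[[],[]]],
[[[[201326592]],[[1208123392]],[]],[[]],[[[27459584]],[],[[202129408]]],[[[49152]],[],
[[1889634816]]],[[],[]]],[[[]],[[]],[[],[]],[[],[]]],[[[[25166848]],[],[[11844718592]]],[[]],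
[[[11846287360]],[[1889634816]],[]],[[],[]],[[[1486982144]],[],[[12986884224]]]]],[[[[[1]],[],
[[2621440]]],[],[[[151519232]],[[393216]],[]],[[]],[[[21004288]]]],[[[],[],[]],[[]],[[]],[[]]],
[[[[184823808]],[],[[29527040]]],[[[29458432]],[],[[3428352]]],[[]],[[],[[40960]],[[]]],[]],[[],
[[]],[],[[],[]]],[[[[18874368]],[[3428352]],[]],[[]],[[[1]],[],[[458752]]],[[[1]],[],[[3670016]]],
[]],[[[]],[],[[],[]],[]],[[[[45440]],[],[[1346505216]]],[[]],[[[1346438656]],[[201330688]],[]],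
[[],[]],[[[185602048]],[],[[1749091328]]]]],[[[[]],[],[[]]],[[],[]],[[[]],[[]],[]],[],[[[]],[],
[[]],[],[]]]],[[[[[],[]],[[],[]],[[]],[[]]],[[],[[],[]],[],[[]]],[[[],[]],[[],[]],[],[[]]],[[[],
[]],[],[[]],[[]]],[[[],[]],[],[[]],[[]]],[[],[],[[]]]],[[[]],[[],[[],[]],[],[[]]],[[],[]],[[[],
[]],[],[],[[]]],[],[[[]],[],[[]]]],[[[[],[]],[[],[]],[[]]],[[[],[]],[[],[]],[[],[]],[]],[[],[]],
[[[],[]],[[],[]],[[]],[[]]],[[],[]],[[[]],[[]],[[]],[[]]],[]],[[[],[[],[]],[],[[]]],[[]],[[]],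
[[[],[]],[[],[]]],[[[]],[[]]],[[[]],[[]],[]]],[[[[]],[[]],[],[[]]],[[],[]],[[[]],[],[[],[]],[]],
[[[]],[],[[],[]],[]],[],[[[]],[[]],[[]],[[],[]]],[]],[[[[],[]],[],[[]],[[]]],[[],[]],[[[],[]],[[],
[]]],[[]],[[],[],[]],[[[]],[],[[]]]],[[[[],[]],[],[[]],[[]]],[[],[]],[[[],[]],[[],[]],[[]]],[],
[[[]],[],[[],[]]],[[[]],[[]],[[],[]],[[],[]]],[]],[]],[[[[[[2895872]],[],[[294912]]],[[],[]],[[],
[[1]]],[[]],[[[1]],[],[[1]]]],[[],[[],[]],[],[[]]],[[[],[],[[1]]],[[],[],[[1]]],[],[[],[[1]],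
[[1]]]],[[[],[]],[],[[]],[[]]],[[[],[[27426816]]],[],[[[18972672]],[],[[3694592]]],[[[1]]],[[]]],
[[[]],[],[[]],[[]]],[[[[21102592]],[],[[235680128]]],[],[[[2363392]],[[27297280]],[]],[[]],
[[[21170176]]]]],[[[]],[[],[[],[]],[],[[]]],[[],[]],[[[],[]],[],[],[[]]],[],[[[]],[],[[]]]],
[[[[[21103616]],[],[[1]]],[[],[]],[[[185335808]],[[1757612544]]],[[]],[[[23068672]],[],
[[235680128]]]],[[[[201605120]],[],[[29556736]]],[[],[]],[[[29556736]],[[1]]],[[],[]],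
[[[2883584]],[],[[1753385000]]]],[[],[]],[[[],[]],[[[21037056]],[],[[2883584]]],[[[185335808]],[],
[[1]]],[[]],[[[18874368]],[[185880768]],[]]],[[[]],[[]],[[]],[[]],[[]]],[[[]],[[],[[1]],[[1]]],
[[]],[[[1]],[],[[3670016]]],[[[3150080]],[],[[1354892288]]]],[[],[[]],[[]],[[]]]],[[[],[[],[]],[],
[[]]],[[]],[[]],[[[],[]],[[],[]]],[[[]],[[]]],[[[]],[[]],[]]],[[[[[185335808]],[],[[23232512]]],
[[[29556736]],[],[[3682304]]],[],[[],[[235950080]],[[27297280]]]],[[],[]],[[[[21103616]],[],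
[[2895872]]],[],[[[2895872]],[[1]]],[[],[]],[[[428544]],[],[[235675968]]]],[[[[3162112]],[],
[[458752]]],[],[[[1]],[[1]]],[[],[]],[[[49152]],[],[[27297280]]]],[[[]],[[]],[],[[],[]],[[],[]]],
[[[],[[1]],[[1]]],[[]],[[]],[[[3670016]],[[425984]]],[[[1354892288]],[[201588736]],[]]],[[[]],[],
[],[[],[]]]],[[[[],[]],[],[[]],[[]]],[[],[]],[[[],[]],[[],[]]],[[]],[[],[],[]],[[[]],[],[[]],[],
[]]],[[[[],[[3694592]]],[],[[[202641408]],[],[[361984]]],[[[1354891264]],[],[[49152]]]],[[[],[]],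
[[]],[[]],[[]],[[]]],[[[[201338880]],[[29527040]],[]],[[[18874368]],[[3428352]],[]],[[]],[[]],[[],
[[57664]],[[5120]]]],[[],[[]],[],[[],[]],[[],[]]],[[[[27459584]],[],[[2895872]]],[[]],[[],
[[458752]]],[],[[[5120]],[],[[151003136]]]],[[[[40960]],[],[[23101440]]],[[]],[[[23101440]],
[[3670016]],[]],[[],[]],[[[2375680]],[],[[1749091328]]]],[[],[],[]]],[[[],[],[[]]],[[],[]],[[[]],
[],[]],[],[[[]],[],[],[],[]]],[[[[[1]],[],[[1751285760]]],[],[[[25231360]],[[186134528]],[]],[[]],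
[[[151789568]]]],[[[],[],[]],[[]],[[]],[[]]],[[[[27361280]],[],[[9732374592]]],[[[2895872]],[],
[[1354957824]]],[[]],[[],[[27363840]],[[]]],[]],[[],[[]],[],[[],[]]],[[[[3145728]],[[1354957824]],
[]],[[]],[[[1]],[],[[151523328]]],[[[1]],[],[[1751285760]]],[]],[[[]],[],[[],[]]],[[[[27363840]],
[],[[15100567552]]],[[]],[[[15100567552]],[[1751285760]],[]],[[],[]],[[[1350631424]],[],
[[9765142528]]]]]]] : List (List (List (List (List (List (List (ℕ))))))))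

end Pool.Agent.Helper26.WD
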