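import Pool.Agent.Helper26.WD.AlgP

/-!
# Intermediate states of the computation for the Whitehead double
-/

namespace Pool.Agent.Helper26.WD

/-- State number 4. -/
def wst4 : L ℕ 7 := (
[[[[[[[18874368]],[],[[1]]],[[],[],[]],[[[184549376]],[[294912]],[]],[[],[]],[[[29556736]],[],
[[186122240]]]],[[],[],[],[]],[[[[151519232]],[],[[1]]],[[[327680]],[],[[1]]],[[],[],[]],[[],
[[49152]],[[29392896]]],[[],[]]],[[[],[],[]],[],[],[[],[],[]]],[[[[1478590464]],[[1]],[]],[[],[],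
[]],[[[1]],[],[[1]]],[[[1]],[],[[1]]],[[],[]]],[[[],[]],[[],[]],[[],[]]],[[[[184823808]],[],
[[21037056]]],[[],[]],[[[294912]],[[185098240]]],[[],[]],[[[202375168]],[],[[23135744]]]]],[[[],
[],[],[],[]],[[],[],[],[[]]],[[],[],[],[]],[[],[],[],[[]]],[],[[],[],[]]],[[[[[1]],[],[[1]]],[[],
[],[]],[[[29556736]],[[1]],[]],[[],[]],[[[3428352]],[],[[393216]]]],[[[[360448]],[],[[1]]],[],
[[[168828928]],[[1]],[]],[],[[[27462144]],[],[[3694592]]]],[[],[],[[],[],[]],[],[[],[]]],[[],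
[[[185352192]],[],[[29556736]]],[[[1212186624]],[],[[1]]],[],[[[168837120]],[[29427200]]]],[[],
[[],[],[]],[],[],[[],[]]],[[],[[],[[1]],[[2621440]]],[],[[[1]],[],[[1]]],[[[23199744]],[],
[[2887872]]]],[[],[[],[]],[],[[],[]]]],[[[],[],[],[],[]],[[],[],[],[],[]],[]],[[[[[21037056]],[],
[[1]]],[[[168304640]],[],[[25296896]]],[[],[],[]],[[],[[4608]],[[3153920]]],[[],[]]],[[],[],[],[],
[]],[[[[2621440]],[],[[458752]]],[],[[[1889730560]],[[1]],[]],[],[[[218644480]],[],[[27397120]]]],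
[[[[1210056704]],[],[[168296448]]],[],[[[201588736]],[[1]],[]],[],[[[18939904]],[],[[3150080]]]],
[[[],[],[]],[],[],[],[[],[],[]]],[[[],[[49152]],[[21004288]]],[],[],[[[1]],[[1]],[]],[[[3407872]],
[[328704]],[]]],[[[],[]],[],[],[[],[],[]]]],[[[[],[],[]],[[]],[[]],[[],[],[]],[]],[[],[],[],[],
[]],[[],[[],[],[]],[[],[]],[],[[],[],[]]],[[],[],[],[],[[]]],[[],[],[[]],[],[]],[[],[],[[]],[[]],
[[]]],[[],[],[[]]]],[[[[[3162112]],[[1]],[]],[[],[],[]],[[[1]],[],[[1]]],[[[1]],[],[[18940416]]],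
[[]]],[[],[],[],[],[]],[[[[1]],[[1]],[]],[[[1]],[[1]],[]],[],[],[[],[[1]],[[185082048]]]],[[[],[],
[]],[],[],[],[[],[],[]]],[[[[1]],[],[[1350631424]]],[],[[[21037056]],[[202375168]],[]],[],
[[[3162112]],[],[[1747125760]]]],[[[[1]],[],[[201605120]]],[],[[[1]],[[458752]],[]],[],
[[[294912]],[],[[45056]]]],[[[]],[],[[],[],[]]]],[[[[],[]],[[],[]],[[],[]],[],[]],[[],[],[],[],
[]],[[[],[]],[[],[]],[],[[],[]]],[[[],[]],[],[],[[]]],[[[]],[],[[]],[[]]],[[],[],[[]]]],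
[[[[[29556736]],[],[[2621440]]],[[],[]],[[[3145728]],[[1]],[]],[[]],[[[1]],[],[[3162112]]]],[[],
[],[],[]],[[[[185335808]],[],[[1]]],[[[294912]],[],[[40960]]],[],[[],[[1]],[[29527040]]]],[[[],
[]],[],[],[[],[],[]]],[[[],[[202375168]]],[],[[[185335808]],[],[[20974080]]],[[[1]],[],
[[186134528]]]],[[[]],[],[[],[],[]]],[[[[2883584]],[],[[21037056]]],[],[[[18874368]],[[45056]],
[]],[],[[[1]],[],[[1]]]]]],[[[],[],[[]]],[[[]],[[],[],[],[]],[[]],[[]],[],[[]]],[[[]],[[]],[]],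
[[[],[],[],[]],[[]],[[]],[[]]],[[[]],[],[[]]],[[[[]],[[]],[[]],[[],[]],[]],[[],[],[[]],[],[[]]],
[[],[],[[],[]],[],[[],[],[]]],[[],[],[],[],[]],[[],[],[],[],[]],[[],[],[],[[]],[[]]],[]],[[]],
[[[],[]],[[],[]],[[]]]],[[[[[[3145728]],[],[[29360128]]],[[],[]],[[[1218578944]],[[236204032]],
[]],[[],[]],[[[1]],[],[[1350631424]]]],[[],[],[],[]],[[[[29360128]],[],[[168034304]]],
[[[12953595904]],[],[[1]]],[[],[],[]],[[],[[18941440]],[[202375168]]],[[],[]]],[[[],[]],[],[[]],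
[[],[]]],[[[[1]],[[1]],[]],[[],[],[]],[[[1612775424]],[],[[9731833856]]],[[[202375168]],[],
[[1614940160]]],[[]]],[[[],[]],[[],[]],[[],[]],[]],[[[[18941440]],[],[[3162112]]],[[],[]],
[[[202653696]],[[1614940160]]],[[]],[[[1751157248]],[],[[201875521]]]]],[[[[[18939904]],[],[[1]]],
[[],[]],[[[235163840]],[[29556736]],[]],[[],[]],[[[1]],[],[[1]]]],[[],[],[],[]],[[[[3407872]],[],
[[25198592]]],[[[1212186624]],[],[[1]]],[[],[],[]],[[],[[3678400]],[[1]]],[[],[]]],[[[],[]],[],[],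
[[],[]]],[[[[1]],[[1]],[]],[[],[],[]],[[],[],[[1354891264]]],[[],[],[[151806208]]],[]],[[[],[]],
[[],[]],[[],[]]],[[[[2895872]],[],[[1]]],[[],[]],[[],[[202641408]]],[[]],[[[3694592]],[],
[[25331216]]]]],[[[]],[[],[],[]],[[]],[],[[]]],[[[],[]],[[[[3162112]],[],[[294912]]],[],
[[[23104000]],[[2883584]],[]],[[]],[[[2891968]],[],[[27394560]]]],[[[[29556736]],[],[[3407872]]],
[[],[]],[[[202375168]],[[429056]],[]],[[]],[[[18973184]],[],[[3162368]]]],[[],[[],[]],[[],[]],[],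
[[],[],[]]],[[[[186122240]],[[29523968]],[]],[[[29523968]],[[3420160]]],[],[[],[]],[[],
[[169361408]],[[18975776]]]],[[[]],[[]],[],[[],[]],[]],[[[],[],[[202375168]]],[[],[],
[[18877440]]],[],[[],[[21102592]],[[2367744]]],[]]],[[[]],[[],[],[],[],[[],[]]],[[],[],[],[],[]],
[[],[],[[]],[],[[]]],[[],[],[],[[]],[[]]],[[],[],[],[[]]],[[],[],[],[[]]]],[[[[]],[[]],[[]],[[]]],
[[],[[[328704]],[],[[2883584]]],[[[1]],[],[[1]]],[[],[]],[[[18907648]],[[2904192]],[]]],[[],[[],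
[]],[[],[]],[],[[],[],[]]],[[[[2895872]],[],[[18874368]]],[],[[[1755316224]],[[1]],[]],[[]],
[[[151805952]],[],[[330784]]]],[[[],[],[[202375168]]],[],[[[201588736]],[[18877440]],[]],[[]],
[[[1480589824]],[],[[186147008]]]],[[[],[]],[],[[]],[[]],[[]]],[[[],[[18874368]]],[],
[[[29392896]],[],[[3158208]]],[[[186122240]],[],[[29556736]]],[]]],[[[]],[[],[[],[],[]],[],[],
[[]]],[[],[],[],[],[]],[[],[],[[]],[[]],[[]]],[[],[],[[]]],[[],[],[[]]],[[],[],[[]]]],[[[[],[]],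
[[],[]],[[]]],[[],[[],[[2363392]],[[27426816]]],[],[[[27426816]],[]],[[[201592832]],[],
[[27462696]]]],[[],[[]],[],[[],[]],[[],[]]],[[[],[[27426816]],[[202375168]]],[],[[]],
[[[202637312]]],[[[1885373440]],[[201859328]],[]]],[[],[],[[]],[[]],[[]]],[[[]],[],[[[21037056]]],
[],[[[202903936]],[],[[]]]],[[[]],[],[[[184549376]]],[],[[[27426816]]]]],[[[]],[[],[[],[]],[],
[[]]],[[],[],[],[]],[[[],[]],[],[[]],[[]]],[[],[],[[]]],[[[]],[],[[]]]]],[[[[]],[[],[]],[[]],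
[[]]],[[],[],[[]]],[[],[],[[]]],[[[],[]],[[],[]],[[]],[]],[[[]],[[]]],[[[]],[[]],[],[[]]],[[],[]],
[[[]],[[]],[],[[]]]],[[[[[[29360128]],[],[[2621440]]],[[],[]],[[[1]],[[1]],[]],[[]],[[[27426816]],
[],[[1]]]],[[[[3407872]],[],[[25198592]]],[],[[[1]],[[1]],[]],[],[[[3678400]],[],[[1]]]],[[],[],
[[],[],[]],[],[[],[]]],[[],[[[1350631424]],[],[[1]]],[[[202375168]],[],[[1354891264]]],[],
[[[18939904]],[[151806208]]]],[[],[[],[],[]],[],[],[[]]],[[],[[],[[3694592]],[[425984]]],[],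
[[[425984]],[],[[151789568]]],[[[2359296]],[],[[25331216]]]],[[],[[],[]],[],[[]]]],[[[]],[[],[],
[]],[[]],[],[[]]],[[[[[185335808]],[],[[1]]],[],[[[1350631424]],[[2895872]],[]],[[]],[[[1]],[],
[[1]]]],[],[[[[458752]],[],[[2637824]]],[[[201605120]],[],[[1]]],[[],[],[]],[[],[[428544]],[[1]]],
[[],[]]],[[[],[]]],[[[],[[1]],[]],[[],[],[]],[[],[],[[151523328]]],[[],[],[[21103616]]],[]],[[[],
[]],[[],[]],[[]]],[[[[428544]],[],[[1]]],[[],[]],[[],[[21103616]]],[[]],[[[425984]],[],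
[[2367552]]]]],[[[[[29360128]],[],[[3407872]]],[],[[[202375168]],[[458752]],[]],[[]],
[[[18939904]],[],[[2375680]]]],[[]],[[[[1]],[],[[23166976]]],[[[18907136]],[],[[2637824]]],[[],[],
[]],[[],[[45056]],[[328192]]],[[],[]]],[[]],[[[],[[1]],[]],[[],[],[]],[[],[],[[25200640]]],[[],[],
[[2367552]]],[]],[[[],[]],[[],[]],[[]]],[[[[1]],[],[[1]]],[[],[]],[[],[[3162112]]],[[]],
[[[45056]],[],[[328704]]]]],[[[],[],[],[],[]],[[]],[[]],[[[],[],[]],[[],[],[]],[]],[[[],[],[]],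
[[],[],[]]],[[[],[]],[[],[]]],[[[],[]],[[],[]]]],[[[],[[[2883584]],[],[[18874368]]],[[[1]],[],
[[1]]],[[],[]],[[[219414528]],[[328704]]]],[[]],[[]],[[[[1751252992]],[],[[2621440]]],
[[[185335808]],[],[[21170688]]],[[],[],[]],[[],[[1]],[[36928]]],[[],[]]],[[[],[],[[1751285760]]],
[[[]],[],[[236216320]]],[[],[],[]],[[],[[45056]],[[7168]]],[[],[]]],[[[],[]],[[],[]],[]],
[[[[294912]],[[186134528]],[]],[[[40960]],[[29556736]]],[[],[]],[[],[]],[[],[[6656]],[[1]]]]],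
[[[],[],[],[],[]],[[]],[[]],[[[],[],[]],[[],[],[]]],[[[]],[[]],[]],[[[]],[[]],[]],[[[]],[[]],[]]],
[[[],[[],[[27426816]],[[202375168]]],[],[[[202375168]]],[[[1889730560]],[],[[202641408]]]],[[]],
[[]],[[[],[[3162112]],[[18907136]]],[[],[[18972672]],[[218632192]]],[[],[],[[18973696]]],[[],[],
[]],[]],[[[],[],[]],[[],[],[]],[]],[[[],[],[[236216320]]],[[],[],[[23266816]]],[]],[[[[3145728]],
[],[[27363840]]],[[[294912]],[],[[2895872]]],[]]],[[[],[],[],[]],[[]],[[]],[[[],[]],[[],[]]],[[]],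
[[]]]],[[[[],[],[],[]],[[]],[[]],[[]],[[]],[[]]],[[]],[[[],[],[],[]],[[],[],[],[]],[[]],[]],[[],
[],[[]]],[[],[],[[]]],[[[[],[]],[[],[]],[[],[]],[],[[],[],[]]],[],[[[],[],[]],[[],[],[]],[[],[],
[]],[[],[],[]],[]],[[[],[],[]],[[],[],[]],[]],[[]],[[]],[[]]],[[],[],[[]]],[[[],[],[],[],[]],[],
[[]],[[]],[],[[]],[[]]]],[[[[[[1]],[],[[294912]]],[[[29494272]],[],[[2883584]]],[[],[],[]],[[],
[[2891968]],[[18940416]]],[[],[]]],[[],[],[[],[],[]],[],[[],[]]],[[[[18907136]],[],[[218644480]]],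
[],[[[202653696]],[[18973184]],[]],[],[[[363008]],[],[[185082048]]]],[[[[11828731904]],[],[[1]]],
[],[[[1]],[[151789568]],[]],[],[[[2908160]],[],[[18975776]]]],[[[],[],[]],[],[],[],[[],[],[]]],
[[[],[[27298304]],[[202653696]]],[],[],[[[1]],[[21102592]],[]],[[[294912]],[[2367744]],[]]],[[[],
[]],[],[],[[],[],[]]]],[[[]],[[],[],[],[],[[],[]]],[[],[],[],[],[]],[[],[],[[]],[],[[]]],[[],[],
[],[[]],[[]]],[[],[],[],[[]]],[[],[],[],[[]]]],[[[[[18907136]],[],[[219414528]]],[[[11896102912]],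
[],[[1]]],[[],[],[]],[[],[[428544]],[[1]]],[[],[]]],[[[[2629632]],[],[[23166976]]],
[[[1885407744]],[],[[1]]],[[],[],[]],[[],[[1]],[[1]]],[[],[]]],[[]],[[],[[],[]],[],[[]]],[[],
[[[21102592]],[[3149824]],[]],[[[1]],[[25200640]],[]],[[[1]],[[3162112]],[]],[[],[],[]]],[[],[[],
[]],[[]],[[]]],[[],[[[57344]],[],[[27363840]]],[[],[],[[2637952]]],[[],[],[]],[[[1]],[[328704]],
[]]]],[[[],[],[],[],[]],[[]],[[]],[[[],[],[]],[[],[],[]],[]],[[[],[],[]],[[],[],[]]],[[[],[]],[[],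
[]]],[[[],[]],[[],[]]]],[[[[[202375168]],[],[[18907136]]],[[],[]],[[[1746960384]],[[45056]],[]],
[[]],[[[185098240]],[],[[18875904]]]],[[]],[[[[1]],[],[[168828928]]],[[[185098240]],[],
[[29493760]]],[[],[],[]],[[],[[1]],[[2637824]]],[[],[]]],[[[],[],[]],[[],[],[]],[]],
[[[[185098240]],[[29493760]],[]],[[],[],[]],[[[27361280]],[],[[3150080]]],[[[2908160]],[],
[[395264]]],[[]]],[[[],[]],[[],[]],[[]]],[[[[1]],[],[[202641408]]],[[],[]],[[],[[395264]]],[[]],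
[[[21102592]],[],[[36864]]]]],[[[[[18907136]],[],[[219414528]]],[[],[]],[[[12970098688]],[[1]],
[]],[[]],[[[1745027072]],[],[[2621632]]]],[[]],[[[[12918730752]],[],[[23166976]]],[[[1214316544]],
[],[[184561664]]],[[],[],[]],[[],[[1]],[[393728]]],[[],[]]],[[[],[],[]],[[],[],[]],[]],
[[[[18939904]],[[234885120]],[]],[[],[],[]],[[[201588736]],[],[[27363840]]],[[[18939904]],[],
[[3674112]]],[[]]],[[[],[]],[[],[]],[[]]],[[[[2621440]],[],[[23070208]]],[[],[]],[[[29556736]],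
[[3162112]]],[[]],[[[3162112]],[],[[425984]]]]],[[[[],[],[]],[],[[]],[[]],[[]]],[[]],[[[],[],[]],
[[],[],[]]],[[]],[[[]],[],[[]]],[[[]],[],[[]]],[[[],[],[]],[],[[]]]],[[[[],[[201605120]],
[[1889730560]]],[],[[]],[[[1889730560]],[[1]],[]],[[[10806124544]],[[1885407744]],[]]],[[]],[[[],
[[18940416]],[[218910720]]],[[],[[218910720]],[[1612843008]]],[[],[[1]],[[219693248]]],[[],[],[]],
[[],[],[]]],[[[],[],[]],[[],[],[]]],[[[],[],[]],[[],[],[]],[[]]],[[[[3162112]],[[27426816]],[]],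
[[],[],[]],[[[21102592]],[],[[3428352]]],[[],[],[[27297280]]],[]],[[[[29556736]],[[2895872]],[]],
[[],[],[]],[[[186122240]],[],[[425984]]],[[],[],[[]]],[]]],[[[[],[]],[],[[]],[[]]],[[]],[[[],[]],
[[],[]]],[[]],[[[]],[],[[]]],[[[],[],[]],[],[[]]]]],[[[[[],[]],[[]],[[]],[[],[]],[]],[[],[],[[]],
[],[[]]],[[[],[]],[[],[]],[[],[]],[],[[],[],[]]],[[],[],[],[],[]],[[],[],[],[],[]],[[],[],[[]],
[[]],[[]]],[]],[[[]],[[],[],[],[],[]],[[],[],[],[],[]],[[],[],[[]],[],[[]]],[[],[],[]],[],[[],[],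
[]]],[[[[],[]],[],[],[[],[]]],[[[],[]],[],[],[]],[[]],[[],[[],[]],[],[[]]],[[],[[],[]],[],[[]]],
[]],[[[],[],[],[],[]],[[]],[[]],[[[],[],[]],[[],[],[]],[]],[[]],[],[[]]],[[[[],[]],[[],[]],[[],
[]],[],[[],[],[]]],[],[[[],[],[]],[[],[],[]],[[],[],[]],[[],[],[]],[]],[[[],[],[]],[[],[],[]],[]],
[[[],[]]],[[]],[[]]],[[],[],[[]],[[]],[[]]],[[],[],[[]],[[]],[[]]],[[[[]],[],[[]],[[]],[[]]],[],
[[[],[],[]],[[],[],[]],[]],[[]],[[[],[],[]],[[],[],[]]],[[[]]],[[]]],[]],[[[[[[29360640]],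
[[3407872]],[]],[[],[],[]],[[[234897408]],[],[[1]]],[[[29491712]],[],[[2904192]]],[[],[]]],[[],
[[],[],[]],[],[],[[]]],[[[[169369600]],[[25165824]],[]],[[[1344274432]],[[202649600]],[]],[],[],
[[],[[1]],[[330784]]]],[[[],[],[]],[],[],[],[[],[],[]]],[[[[1757413376]],[],[[15100035072]]],[],
[[[185614336]],[[1480589824]],[]],[],[[[20974080]],[],[[235954240]]]],[[[[186138624]],[],
[[1747059200]]],[],[[[29392896]],[[186122240]],[]],[],[[[3158208]],[],[[21137920]]]],[[[]],[],[[],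
[],[]]]],[[[]],[[],[[],[],[]],[],[],[[]]],[[],[],[],[],[]],[[[],[],[]],[],[[]],[[]],[[]]],[[],[],
[[]]],[[],[],[[]]],[[[]],[],[[]]]],[[[[[168570880]],[[25198592]],[]],[[],[],[]],[[[1616904192]],
[],[[15100805120]]],[[[151531520]],[],[[1480722944]]],[[]]],[[[[25332224]],[[2359296]],[]],[[],[],
[]],[[[151531520]],[],[[1751285760]]],[[[18907136]],[],[[186134528]]],[[]]],[[]],[[],
[[[152043520]],[[21170688]],[]],[[[294912]],[[236216320]],[]],[[[40960]],[[29556736]],[]],[[],[],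
[]]],[[],[[],[]],[[]],[[]]],[[],[[],[]],[[]],[[]]],[[],[[],[[1]],[[41088]]],[[],[],[]],[[[57344]],
[],[[29526016]]],[[[6656]],[],[[3694592]]]]],[[[],[[],[],[]],[],[],[[]]],[[]],[[]],[[[],[],[]],
[[],[],[]]],[[[]],[[]],[]],[[[]],[[]],[]],[[[]],[[]],[]]],[[[[[1610645504]],[[151781376]],[]],
[[[219676672]],[[23199744]],[]],[[],[]],[[],[]],[[],[[1887600640]],[[185073728]]]],[[]],
[[[[218902528]],[[23166976]],[]],[[],[],[]],[[[23166976]],[],[[218112000]]],[[[2621440]],[],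
[[23070208]]],[[]]],[[[[1753415680]],[[184561664]],[]],[[],[],[]],[[[169345024]],[],[[27363840]]],
[[[27361280]],[],[[3162112]]],[[]]],[[[],[],[]],[[],[],[]],[]],[[[],[]],[[]],[[]]],[[[],[[1]],
[[295936]]],[[]],[[]],[[[23232512]],[[3416064]]],[[[3682304]],[[425984]]]]],[[[[],[],[]],[],[[]],
[[]],[[]]],[[]],[[[],[],[]],[[],[],[]]],[[]],[[[]],[],[[]]],[[[]],[],[[]]],[[[],[],[]],[],[[]]]],
[[[[[3407872]],[],[[1755512832]]],[[],[]],[[[1220640768]],[[185864192]],[]],[[]],[[[10737434624]],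
[],[[1346505728]]]],[[[],[],[]],[[],[]],[[]],[[]]],[[[[1486880768]],[],[[9698021376]]],
[[[152584192]],[],[[1617035776]]],[[],[],[]],[[],[[19070976]],[[218386432]]],[[],[]]],[[[],[],[]],
[[],[],[]],[]],[[[[152584192]],[[1617035776]],[]],[[],[],[]],[[[1889697792]],[],[[3408000]]],
[[[151797760]],[],[[25299456]]],[[]]],[[[],[],[]],[[],[],[]],[[]]],[[[[19070976]],[],
[[168833024]]],[[],[]],[[[152043520]],[[25299456]]],[[]],[[[27459584]],[],[[202129408]]]]],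
[[[[[29556736]],[],[[53248]]],[[],[]],[[[152305664]],[[1]],[]],[[]],[[[1883374080]],[],
[[3162112]]]],[[[],[],[]],[[],[]],[[]],[[]]],[[[[184832000]],[],[[1350632960]]],[[[23068672]],[],
[[151544000]]],[[],[],[]],[[],[[53248]],[[18877440]]],[[],[]]],[[[],[],[]],[[],[],[]],[]],
[[[[29425664]],[[202379264]],[]],[[],[],[]],[[[151519232]],[],[[25363456]]],[[[393216]],[],
[[202641408]]],[[]]],[[[],[],[]],[[],[],[]],[[]]],[[[[40960]],[],[[21037056]]],[[],[]],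
[[[21004288]],[[3145728]]],[],[[],[],[[458752]]]]],[[[[]],[],[[]]],[[]],[[[]],[[]],[]],[[]],[[[],
[],[]],[],[[]]]]],[[[[[],[]],[[],[]],[[],[]],[[]]],[[],[[],[]],[],[[]]],[[[],[]],[[],[]],[],[[],
[]]],[[[],[]],[],[],[[]]],[[[],[]],[],[[]],[[]]],[[[]],[],[[]]]],[[[]],[[],[[],[]],[],[[]]],[[],
[],[],[]],[[[],[]],[],[[]],[[]]],[[],[],[[]]],[[[]],[],[[]]]],[[[[],[]],[[],[]],[[],[]],[[]]],
[[[],[]],[[],[]],[[],[]],[[]]],[[]],[[],[[],[]],[[]],[[]]],[[]],[[],[[],[]],[[]],[[]]]],[[[],[[],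
[]],[],[[]]],[[]],[[]],[[[],[]],[[],[]]],[[]],[[[]],[[]],[]]],[[[[]],[[]],[],[[],[]]],[[]],[[[],
[]],[[],[]],[[],[]],[]],[[[],[]],[[],[]],[[]]],[[]],[[[],[]],[[]],[[]]]],[[[[],[]],[],[[]],[[]]],
[[]],[[[],[]],[[],[]]],[[]],[[[]],[],[[]]],[[[]],[],[[]]]],[[[[],[]],[],[[]],[[]]],[[]],[[[],[]],
[[],[]],[]],[[]],[[[],[]],[[],[]],[[]]],[[[],[]],[[],[]],[[]]]],[[],[],[[[]]],[[]],[[[]]]]],
[[[[[[3162112]],[],[[458752]]],[[],[]],[[[19070976]],[[1]],[]],[[],[]],[[[2883584]],[],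
[[27462696]]]],[[],[[],[]],[],[[]]],[[[[23233536]],[],[[2621440]]],[[[169345024]],[],
[[21037056]]],[],[[],[[1]],[[201859328]]]],[[[],[]],[],[],[[],[],[]]],[[[[185335808]],
[[1480722944]]],[],[[[21037056]],[],[[202903936]]],[[[1]],[],[[1350697984]]]],[[[]],[],[[],[],
[]]],[[[[27262976]],[],[[218374528]]],[],[[[2883584]],[[27426816]],[]],[],[[[1]],[],
[[3670016]]]]],[[[]],[[],[[],[]],[],[[]]],[[],[],[],[]],[[[],[]],[],[[]],[[]]],[[],[],[[]]],[[[]],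
[],[[]]]],[[[[[18907136]],[],[[2621440]]],[[],[]],[[],[[1747025920]]],[[]],[[[25296896]],[],
[[218374528]]]],[[[[2629632]],[],[[393216]]],[[],[]],[[],[[186134528]]],[[]],[[[3145728]],[],
[[27363840]]]],[[]],[[],[[[18972672]],[],[[2363392]]],[[],[],[[23266816]]],[[],[],[]],[[[1]],
[[2895872]],[]]],[[],[[],[],[]],[],[],[[]]],[[],[[],[[1]],[[21170176]]],[[]],[[[1]]],[[[1]]]],[[],
[[],[]],[],[[]]]],[[[],[[],[]],[],[[]]],[[]],[[]],[[[],[]],[[],[]]],[[]],[[[]],[[]],[]]],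
[[[[[3162112]],[],[[25296896]]],[[[1]],[],[[3407872]]],[[],[],[]],[[],[[236191744]],[[23267840]]],
[]],[[]],[[[[18940416]],[],[[3428352]]],[[],[]],[[[3162112]],[[27426816]]],[[]],[[[294912]],[],
[[3694592]]]],[[[[218910720]],[],[[27397120]]],[[],[]],[[[29556736]],[[3694592]]],[[]],
[[[3682304]],[],[[425984]]]],[[[],[],[]],[[],[]],[]],[[[],[[1]],[[185864576]]],[[]],[[]],
[[[235950080]],[[27297280]]],[[[27297280]],[[1]]]],[[]]],[[[[],[]],[],[[]],[[]]],[[]],[[[],[]],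
[[],[]]],[[]],[[[]],[],[[]]],[[[]],[],[[]]]],[[[[[458752]],[[2375680]],[]],[[],[],[]],
[[[2359296]],[],[[461312]]],[[[1350696960]],[],[[2887680]]],[[]]],[[[],[]],[[],[],[]],[[]],[],
[[]]],[[[[2904064]],[[1350632960]],[]],[[[29425664]],[[202379264]]],[[],[]],[[],[]],[[],[[49152]],
[[294912]]]],[[[],[],[]],[[],[]],[]],[[[[29360128]],[],[[168841600]]],[[],[]],[[[202641408]],
[[25363456]]],[[]],[[[361984]],[],[[2359296]]]],[[[[53248]],[],[[4608]]],[[],[]],[[[1354891264]],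
[[202641408]]],[[]],[[[49152]],[],[[458752]]]],[[[],[],[]],[[],[],[]]]],[[[[]],[],[[]]],[[]],
[[[]],[[]],[]],[[]],[[[],[],[]],[],[[]]]],[[[[[2883584]],[],[[21103616]]],[[],[]],[[[25329664]],
[[1]],[]],[[]],[[[201338880]],[],[[1]]]],[[[],[],[]],[[],[]],[[]],[[]]],[[[[27459584]],[],
[[152576256]]],[[[3407872]],[],[[18877440]]],[[],[],[]],[[],[[21103616]],[[186134528]]],[[],[]]],
[[[],[],[]],[[],[],[]],[]],[[[[2895872]],[[18877440]],[]],[[],[],[]],[[[25231360]],[],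
[[201867264]]],[[[186134528]],[],[[1]]],[[]]],[[[],[],[]],[[],[],[]],[[]]],[[[[21103616]],[],
[[1]]],[[],[]],[[[151789568]],[[1]]],[],[[],[],[[151523328]]]]]]] : List (List (List (List (List (List (List (ℕ))))))))

/-- State number 5. -/
def wst5 : L ℕ 7 := (
[[[[[[[1344274432]],[],[[186122240]]],[[]],[[[13958905856]],[[29556736]],[]],[[]],[[[1350631424]],
[],[[201326592]]]],[[],[[]],[[]],[[]]],[[[[1]],[],[[1]]],[[[1478590464]],[],[[1]]],[[]],[[],[[1]],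
[[1]]],[[]]],[[[]],[],[],[[],[],[]]],[[[[1747058688]],[[1]],[]],[[]],[[[10805313536]],[],[[1]]],
[[[29392896]],[],[[184827904]]],[[],[]]],[[[]],[],[[],[]],[[],[]]],[[[[13958664192]],[],
[[1354924032]]],[[]],[[[1344471040]],[[184823808]],[]],[[],[]],[[[9698549760]],[],
[[120663966208]]]]],[[[],[],[[]],[[]],[[]]],[[],[],[[]],[[]]],[],[[],[[]],[[]],[[],[]]],[[[]],[],
[],[]],[[[]],[],[[],[]],[]]],[[[[[12901679104]],[],[[393216]]],[[]],[[[103754530816]],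
[[218910720]],[]],[[]],[[[219152384]],[],[[1212186624]]]],[[[[1212186624]],[],[[1]]],[],
[[[9698820096]],[[23166976]],[]],[[]],[[[1489046528]],[],[[235692032]]]],[[],[[]],[[]],[],[[]]],
[[],[[[201605120]],[],[[1]]],[[[29392896]],[],[[168296448]]],[[],[]],[[[202641408]],[[27462144]],
[]]],[[[]],[[]],[[]],[],[[],[]]],[[[]],[[],[[1]],[[1]]],[[],[]],[[[2621440]],[],[[1887436800]]],
[[[1344308224]],[],[[13976482176]]]],[[[]],[[]],[[],[]],[[],[]]]],[[[[]],[[]],[[]],[[]],[[]]],[[],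
[],[[]],[[]],[[]]],[[],[],[[]],[],[]],[[],[[],[]],[[],[],[]],[],[[],[],[]]],[[[]],[[]],[],[],[[],
[]]],[[[]],[[]],[],[[],[]],[[],[]]],[[],[],[],[[],[]]]],[[[[[1]],[],[[1]]],[[[201605120]],[],
[[1]]],[[]],[[],[[1350697984]],[[11913408512]]],[[]]],[[],[[]],[],[],[]],[[[[1]],[],
[[1350631424]]],[],[[[21037056]],[[202375168]],[]],[],[[[3162112]],[],[[1747125760]]]],[[[[1]],[],
[[11912609792]]],[],[[[185335808]],[[1891631104]],[]],[],[[[29556736]],[],[[185082048]]]],[[[]],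
[],[],[],[[],[],[]]],[[[],[[9714798592]],[[111805628416]]],[],[],[[[425984]],[[3145728]],[]],
[[[45056]],[[18939904]],[]]],[[[]],[],[],[[],[],[]]]],[[[[]],[[]],[[]],[[],[],[]],[]],[[],[],[],
[],[]],[[],[[],[]],[[],[],[]],[],[[],[],[]]],[[],[],[[]],[],[]],[[],[],[[]],[],[[]]],[[],[],[[]],
[[]],[[]]],[[],[],[],[[]]]],[[[[[15117074432]],[[25296896]],[]],[[]],[[[1619197952]],[],
[[219414528]]],[[[11912630272]],[],[[1757479424]]],[[],[]]],[[[]],[],[[]],[],[]],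
[[[[95032442880]],[[11829248000]],[]],[[[3145728]],[[1891631104]],[]],[],[],[[],[[327680]],
[[236458048]]]],[[[]],[],[],[],[[],[],[]]],[[[[11862016000]],[],[[86304292864]]],[],
[[[1885536256]],[[12952010752]],[]],[],[[[219430912]],[],[[1346571264]]]],[[[[111809855488]],[],
[[15133327360]]],[],[[[3145728]],[[29360128]],[]],[],[[[21170176]],[],[[185360384]]]],[[[],[]],[],
[[],[],[]],[]]],[[[[]],[],[[],[]],[[],[]],[]],[[[]],[],[[],[]],[],[]],[[[]],[[]],[],[[],[]],[]],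
[[],[],[],[[],[]]],[[[],[]],[],[[],[]],[[],[]]],[[[],[]],[],[[],[]],[]]],[[[[[1]],[],[[3145728]]],
[[]],[[[2621440]],[[1889730560]],[]],[[],[]],[[[1755316224]],[],[[9681518592]]]],[[[]],[],[[],[]],
[],[]],[[[[9698541568]],[],[[1755316224]]],[[[1]],[],[[186134528]]],[],[[],[[185335808]],
[[1342310912]]],[]],[[[]],[],[],[[],[],[]]],[[[[1755316224]],[[185335808]],[]],[],[[[1]],[],
[[27363840]]],[[[1210089472]],[],[[2371584]]]],[[[],[]],[],[[],[],[]],[]],[[[[15116795904]],[],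
[[103750500352]]],[],[[[1]],[[1]],[]],[],[[[3432448]],[],[[18939904]]]]]],[[[[],[],[[]]],[],[[],
[[]]],[],[[],[],[[]]],[[],[],[[],[]]],[[],[],[[],[]]]],[[[[]],[],[[]]],[[],[],[[]],[[]]],[[],
[[]]],[[],[[]],[[]],[[],[]],[[],[]]],[[[]],[],[[]]],[[[]],[],[[],[]],[],[]]],[[[[]],[],[[]]],[],
[],[[],[[]],[[]],[[],[]],[[],[]]],[],[[],[],[[],[]],[],[]]],[[[[]],[[]],[[]],[[]],[[]]],[[[]],[],
[[]],[[]],[[]]],[[],[],[],[],[]],[[],[[],[]],[[],[]],[],[[],[],[]]],[[[]],[],[],[],[]],[[[]],[[]],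
[],[[],[]],[[],[]]],[]],[[[],[[]]],[],[],[]],[[[[]],[[]],[[]],[[],[]],[]],[[],[[]],[[]],[],[[],
[]]],[[],[[],[]],[[],[]],[],[[],[],[]]],[[],[],[],[],[]],[[],[],[],[],[]],[[],[],[[]],[[]],[[]]],
[]],[[[],[],[[]]],[],[],[],[[]]],[[[[]],[],[[],[]],[],[]],[[[]],[],[],[],[]],[[[]]],[],[[]],
[[]]]],[[[[[[11828465664]],[],[[1350631424]]],[[]],[[[1207993856]],[[11861491712]],[]],[[]],
[[[15050760192]],[],[[86704717824]]]],[[[]],[[]],[[]],[[]]],[[[[1612775424]],[],[[9731833856]]],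
[[[11861491712]],[],[[112487038976]]],[[]],[[],[[103494484480]],[[963247624192]]],[[]]],[[[]],
[[]],[[]],[[],[]]],[[[[623894618112]],[[112487038976]],[]],[[]],[[[23134208]],[],
[[622871183360]]],[[[963247624192]],[],[[103079413248]]],[[],[]]],[[[]],[],[[],[]],[[],[]]],
[[[[103494484480]],[],[[14009769984]]],[[]],[[[14059839488]],[[103079413248]],[]],[[],[]],
[[[121077139480]],[],[[689409360258]]]]],[[[[[1616970752]],[],[[1]]],[[]],[[[12919001472]],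
[[23068672]],[]],[[]],[[[1744994304]],[],[[235929600]]]],[[],[[]],[[]],[[]]],[[[],[],
[[1354891264]]],[[[1212153856]],[],[[11846287360]]],[[]],[[],[[9697497152]],[[112082455040]]],[]],
[[[]],[],[],[[],[]]],[[[[86033629184]],[[11846287360]],[]],[[]],[[[15116533760]],[],
[[86706782208]]],[[[112082455040]],[],[[9765671104]]],[[],[]]],[[[]],[],[[],[]],[[],[]]],
[[[[9732104192]],[],[[1747025920]]],[[]],[[[1747025920]],[[12986888192]],[]],[[],[]],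
[[[15116816768]],[],[[103351880224]]]]],[[[],[],[[]]],[],[[],[[]],[],[],[]],[[],[],[]],[[],[],
[[]],[],[]],[],[[],[],[[],[]],[]]],[[[[]],[[]],[[]],[[]]],[[[[1]],[],[[1]]],[],[[[1476592640]],
[[3407872]],[]],[[]],[[[235159808]],[],[[23134208]]]],[[[],[],[[202375168]]],[],[[[201588736]],
[[18877440]],[]],[[]],[[[1480589824]],[],[[186147008]]]],[[],[[],[]],[[],[]],[],[[],[],[]]],
[[[[11812483072]],[[1885339648]],[]],[[[1753219072]],[[218112000]],[]],[],[[],[]],[[],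
[[10738212864]],[[23135776]]]],[[[]],[[]],[],[[],[]],[[],[]]],[[[[1344274432]],[],[[184549376]]],
[[[186122240]],[],[[29556736]]],[],[[],[[1348501504]],[[219422912]]],[]]],[[[],[]],[[],[[]],[[]],
[],[[]]],[[],[],[[]]],[[],[],[[]],[],[]],[[],[[]],[[]],[[],[]],[[],[]]],[[],[],[],[[],[]]],[[],[],
[],[[],[]]]],[[[[]],[[]],[[]],[[],[]]],[[],[[[29427200]],[],[[3670016]]],[[[168562688]],[],
[[23101440]]],[[],[]],[[[425984]],[[2891968]],[]]],[[],[[],[]],[[],[]],[],[[],[],[]]],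
[[[[236191744]],[],[[1751220224]]],[],[[[1747025920]],[[185348096]],[]],[[],[]],[[[10755768320]],
[],[[1218480648]]]],[[[[1350565888]],[],[[12987138048]]],[[],[]],[[[9765650432]],[[1210256384]],
[]],[[],[]],[[[94900486656]],[],[[14027075648]]]],[[[],[]],[],[[],[]],[[],[]],[[]]],[[[[3145728]],
[[1]],[]],[],[[[1354891264]],[],[[152059968]]],[[[11879317504]],[],[[1757415936]]],[]]],[[[[]],[],
[]],[[[]],[[]],[[]],[],[[],[]]],[[[]],[[]],[],[],[[],[]]],[[],[[]],[[]],[[],[]],[[],[]]],[[],[],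
[[]],[],[[]]],[[],[],[[],[]],[]],[[],[],[[],[]],[]]],[[[[]],[],[[],[]],[[],[]]],[[[]],[[],[[1]],
[[27426816]]],[[],[]],[[[27426816]],[],[[202903552]]],[[[235409472]],[],[[1889635352]]]],[[[]],
[[]],[],[[],[]],[[],[]]],[[[],[[1619001344]],[[15133048832]]],[],[],[[],[[21037056]]],[[[]],
[[14044123520]],[]]],[[],[],[[],[]],[[],[]],[[],[],[]]],[[[[15083765760]],[],[[1489141760]]],[[],
[]],[[],[[218628096]]],[[]],[[[184569920]],[],[[77993117696]]]],[[[[1744830464]],[],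
[[9731571712]]],[],[[],[[1747091456]]],[],[[[20971520]],[],[[9764601856]]]]],[[[],[],[]],[[[]],
[[]],[[],[]],[[],[]]],[[[]],[],[],[[],[]]],[[[]],[],[],[[],[]]],[[],[],[],[[]]],[[[],[]],[[],[]],
[[],[]],[[]]]]],[[[[],[]],[[],[]],[],[[],[],[]],[[],[],[]],[]],[[],[],[],[],[[],[],[]]],[[],[],[],
[],[[],[],[]]],[[[],[],[[]],[[]]],[[],[],[[]],[[]]],[],[],[[[]],[],[],[]],[],[[[]],[],[],[],[]]],
[[],[]],[[[],[],[]],[[],[],[]],[],[],[[]]],[[[],[],[]],[[],[],[]]],[[[[]],[],[],[]],[[[]],[],[]],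
[],[],[],[[],[]],[[],[]]]],[[[[[[1]],[],[[1]]],[[]],[[[12970360832]],[[1744994304]],[]],[[]],
[[[29360128]],[],[[9664462848]]]],[[[[202375168]],[],[[1354891264]]],[],[[[85901508608]],
[[11846287360]],[]],[[]],[[[9697497152]],[],[[1482885632]]]],[[],[[]],[[]],[],[[]]],[[],
[[[1755316224]],[],[[15100805120]]],[[[184811520]],[],[[86706782208]]],[[],[]],[[[1480722944]],
[[9765671104]],[]]],[[[]],[[]],[[]],[],[[],[]]],[[[]],[[],[[10754998272]],[[95162597376]]],[[],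
[]],[[[95162597376]],[],[[9748373504]]],[[[14060093824]],[],[[103351880224]]]],[[[]],[[]],[[],[]],
[[],[]]]],[[[],[],[[]]],[],[[],[[]],[],[],[]],[[],[],[]],[[],[],[[]],[],[]],[],[[],[],[[],[]],
[]]],[[[[[15116795904]],[],[[1]]],[],[[[103356235776]],[[167772160]],[]],[[]],[[[235429888]],[],
[[1883308032]]]],[[],[[]],[[]],[[]]],[[[],[],[[151523328]]],[[[]],[],[[1751285760]]],[[]],[[],
[[1621198848]],[[15099781120]]],[]],[[[]]],[[[[9714012160]],[[1751285760]],[]],[[]],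
[[[1751252992]],[],[[9698033664]]],[[[15099781120]],[],[[1346570752]]],[[],[]]],[[[]],[],[[],[]],
[[],[]]],[[[[1621198848]],[],[[236216320]]],[[]],[[[236216320]],[[1346570752]],[]],[[],[]],
[[[1480656384]],[],[[15099519104]]]]],[[[[[1]],[],[[1]]],[],[[[151257088]],[[25165824]],[]],[[]],
[[[20973568]],[],[[219176960]]]],[[],[],[[]],[[]]],[[[],[],[[1751285760]]],[[[]],[],
[[236216320]]],[[],[],[]],[[],[[45056]],[[7168]]],[[],[]]],[[]],[[[[111809789952]],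
[[12902989824]],[]],[[],[],[]],[[[185335808]],[],[[1617005056]]],[[[294912]],[],[[151273536]]],
[[],[]]],[[[]],[],[[],[]],[]],[[[[15133597696]],[],[[1350664192]]],[[],[]],[[[27426816]],
[[202383360]]],[[],[]],[[[1]],[],[[1220741632]]]]],[[[],[[]],[],[],[]],[[],[]],[[[]],[[]],[]],
[[[]],[[]],[]],[[[]],[],[[],[],[]]],[[[]],[],[[],[]],[]],[[[]],[],[[],[]],[],[]]],[[[],
[[[151257088]],[],[[425984]]],[[[1755316224]],[],[[218628096]]],[[],[]],[[[45056]],[[18939904]],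
[]]],[[],[],[]],[[]],[[[[]],[],[[9697492992]]],[[[]],[],[[1621264384]]],[[],[],[]],[[],[[327680]],
[[169369728]]],[[],[]]],[[[[12903251968]],[],[[112080289792]]],[[[1212186624]],[],
[[15032647680]]],[[],[],[]],[[],[[2895872]],[[1480655872]]],[[],[]]],[[[],[]],[[],[]],[],[[],[]]],
[[[[1350631424]],[[11912085504]],[]],[[[201605120]],[[1889599488]]],[[],[]],[[],[]],[[],
[[25200640]],[[236216320]]]]],[[[[]],[],[[]],[],[]],[[],[],[]],[[[]],[],[[],[],[]]],[[[]],[],[[],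
[],[]]],[[[],[],[]],[[],[],[]],[]],[[[],[]],[],[],[[],[]]],[[[],[]],[],[],[[],[]],[]]],[[[[]],[[],
[[1]],[[202375168]]],[[],[]],[[[202375168]],[],[[1751285760]]],[[[1614970880]],[],
[[9731571712]]]],[[],[],[]],[[[]],[],[[],[],[]],[]],[[[],[[13975703552]],[[103760920576]]],[],[[],
[],[[1480656384]]],[],[]],[[[],[],[]],[[],[],[]],[],[]],[[[[103763050496]],[],[[15066742784]]],
[[],[],[[1344374784]]],[[],[],[]],[[],[[18972672]],[[10738212864]]],[]],[[[[9714012160]],[],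
[[95298979328]]],[[],[],[[3407872]]],[],[[],[[236216320]],[[1350664192]]],[]]],[[[],[],[[],[]],
[]],[[],[],[]],[[]],[[],[],[],[],[]],[[]],[[[],[]],[],[],[[],[]],[]]]],[[[[[]],[[]],[[]],[[]],[]],
[[[]],[],[[]],[],[[]]],[[],[],[],[],[]],[[[]],[[],[]],[[],[]],[],[[],[],[]]],[[],[],[],[],[]],
[[[]],[[]],[],[[],[]],[[],[]]],[]],[[[],[]],[[],[],[],[],[]],[[],[],[]],[[],[],[],[],[]],[[[]],
[[]],[],[],[[],[]]],[],[[],[],[],[]]],[[[],[[]],[[]],[[]]],[[],[[]],[[]],[[]]],[[],[[],[]],[],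
[[]]],[[]],[[[]],[],[[],[]],[[],[]]],[],[[[]],[],[],[],[]]],[[[],[],[],[],[]],[[],[]],[[]],[[]],
[[[]],[],[[],[],[]]],[],[[]]],[[],[],[[]],[[]],[[]]],[[[[]],[[],[]],[[],[]],[],[[],[],[]]],[],
[[[]],[[],[],[]],[[],[],[]],[[],[],[]],[]],[[[],[]]],[[[],[],[]],[[],[],[]],[]],[[]],[[]]],[[],[],
[[]],[[]],[[]]],[[[[]],[[]],[],[[],[]],[[],[]]],[],[[[]],[],[[],[],[]],[]],[[[]]],[[]],[[[],[],
[]],[[],[],[]]],[[]]],[]],[[[[[[234897408]],[],[[1]]],[[[1218511360]],[],[[3407872]]],[[]],[[],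
[[235159808]],[[1350664192]]],[[]]],[[],[[]],[[]],[],[[]]],[[[[1757413376]],[],[[15100035072]]],
[],[[[185614336]],[[1480589824]],[]],[],[[[20974080]],[],[[235954240]]]],[[[[15101091840]],[],
[[86704848896]]],[],[[[1476591616]],[[9664991232]],[]],[],[[[184565760]],[],[[23135776]]]],[[[]],
[],[],[],[[],[],[]]],[[[],[[94892098560]],[[619600150528]]],[],[],[[[236191744]],[[1348501504]],
[]],[[[21137920]],[[219422912]],[]]],[[[]],[],[],[[],[],[]]]],[[[],[]],[[],[[]],[[]],[],[[]]],[[],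
[],[[]]],[[],[],[[]],[],[]],[[[]],[[]],[[]],[[],[]],[[],[]]],[[],[],[],[[],[]]],[[[]],[],[],[[],
[]]]],[[[[[1616904192]],[],[[15100805120]]],[[[10737954816]],[],[[86706782208]]],[[]],[[],
[[95298946560]],[[620691472384]]],[[]]],[[[[151531520]],[],[[1751285760]]],[[[1346570752]],[],
[[12902989824]]],[[]],[[],[[15133597696]],[[86176268288]]],[[]]],[[],[[],[]],[[]],[[]]],[[],[[],
[]],[[]],[[]]],[[],[[[327680]],[[218910720]],[]],[[[150994944]],[[1617005056]],[]],[[[27426816]],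
[[202383360]],[]],[[],[],[]]],[[],[[]],[[],[]],[[],[]]],[[],[[[57344]],[],[[29526016]]],
[[[327680]],[],[[168300672]]],[[],[],[]],[[[3694592]],[[1220741632]],[]]]],[[[],[[]],[[]],[],
[[]]],[[],[]],[[[]],[[]],[]],[[[]],[[]],[]],[[[]],[],[[],[],[]]],[[[]],[],[[],[]],[]],[[[]],[],
[[],[]],[],[]]],[[[[[3407872]],[],[[1755512832]]],[[],[]],[[[1220640768]],[[185864192]],[]],[[]],
[[[10737434624]],[],[[1346505728]]]],[[[],[],[]],[[],[]],[[]],[[]]],[[[[1486880768]],[],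
[[9698021376]]],[[[152584192]],[],[[1617035776]]],[[],[],[]],[[],[[19070976]],[[218386432]]],[[],
[]]],[[[],[],[]],[[],[],[]],[]],[[[[152584192]],[[1617035776]],[]],[[],[],[]],[[[1889697792]],[],
[[3408000]]],[[[151797760]],[],[[25299456]]],[[]]],[[[],[],[]],[[],[],[]],[[]]],[[[[19070976]],[],
[[168833024]]],[[],[]],[[[152043520]],[[25299456]]],[[]],[[[27459584]],[],[[202129408]]]]],
[[[[[1610645504]],[],[[12970098688]]],[[],[]],[[[13958643712]],[[1208025088]],[]],[[],[]],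
[[[94896291840]],[],[[14027063360]]]],[[[],[],[]],[[],[]],[[]],[[]]],[[[[15117594624]],[],
[[112080224256]]],[[[1744961536]],[],[[15033982976]]],[[],[],[]],[[],[[219152384]],
[[1482819072]]],[[],[]]],[[[],[],[]],[[],[],[]],[]],[[[[1489141760]],[[15101071360]],[]],[[],[],
[]],[[[10838867968]],[],[[21070336]]],[[[1757478912]],[],[[235671552]]],[[]]],[[[],[],[]],[[],[],
[]],[[]],[[]]],[[[[218628096]],[],[[1488978944]]],[[],[]],[[[1753415680]],[[236212224]]],[[]],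
[[[235417600]],[],[[1881276416]]]]],[[[[]],[[]],[[]],[[],[]],[[],[]]],[[]],[[[]],[],[[],[],[]]],
[[[]],[],[[]]],[[[]],[],[[]]],[[[],[]],[],[],[[]]],[[[],[],[]],[],[],[[]]]],[[[[],[[15133847552]],
[[86167781376]]],[[]],[[],[]],[[[1]],[[152305664]],[]],[[[3162112]],[[103888880128]],[]]],[[[]],
[[]],[[],[]],[[],[]]],[[[],[[103762889728]],[[966451789824]]],[[],[[53248]],[[18877440]]],[[],
[[23199744]],[[9664467136]]],[[],[],[]],[[],[],[]]],[[[],[],[]],[[],[],[]],[[]]],[[[],[],[]],[[],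
[],[]],[[]],[]],[[[[151265280]],[[1753382912]],[]],[[],[],[]],[[[294912]],[],[[151789568]]],
[[[150994944]],[],[[1755382784]]],[[]]],[[[[21037056]],[[168566784]],[]],[[],[],[]],[[],[],
[[458752]]],[[[1348501504]],[],[[3670016]]],[]]],[[[[]],[],[],[[],[]]],[[]],[[[]],[],[[],[]],[],
[]],[],[[]],[[[],[],[]],[],[],[[]]]]],[[[[[]],[[]],[[]],[[],[]],[[],[]]],[[],[[]],[[]],[[],[]],
[[],[]]],[[[]],[[],[]],[[],[]],[],[[],[],[]]],[[[]],[],[],[],[]],[[[]],[],[],[],[]],[[[],[]],[],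
[[]],[[]],[[]]],[]],[[[]],[[],[[]],[[]],[[],[]],[[],[]]],[[],[],[],[],[]],[[],[],[]],[[],[],[[]],
[],[[]]],[],[[],[],[],[]]],[[[[]],[[]],[[]],[[],[]],[[],[]]],[[[]],[[]],[[]],[[],[]],[[],[]]],
[[]],[[],[[],[]],[],[[]]],[[],[[],[]],[],[[]]],[]],[[[],[[]],[[]],[[],[]],[[],[]]],[[]],[[]],[[]],
[[[],[],[]],[[],[],[]],[]],[],[[]]],[[[[]],[[],[]],[[],[]],[],[[],[],[]]],[],[[[]],[[],[],[]],[[],
[],[]],[[],[],[]],[]],[[[],[]]],[[[],[],[]],[[],[],[]],[]],[[]],[[]]],[[[[]]],[],[[[]]],[[]],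
[[]]],[[[[]]],[],[[[]]],[[]],[[]]],[[[[],[]],[],[[]],[[]],[[]]],[],[[[],[],[]],[[],[],[]],[],[]],
[[]],[[[]]],[[[],[],[]],[[],[],[]]],[[]]],[[],[],[[[],[]]]]],[[[[[[23104000]],[[2883584]],[]],
[[]],[[[11896094720]],[],[[23101440]]],[[[1354792960]],[],[[2891968]]],[[],[]]],[[[]],[[]],[[]],
[],[[],[]]],[[[[967509819392]],[[86711140352]],[]],[[[1220739072]],[[9731571712]],[]],[],[],[[],
[[236478464]],[[1218480648]]]],[[[]],[],[],[],[[],[],[]]],[[[[120393433088]],[],[[966453116928]]],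
[],[[[10805067776]],[[94900486656]],[]],[],[[[1346537984]],[],[[151785856]]]],[[[[619616665600]],
[],[[111937620480]]],[],[[[1354891264]],[[11879317504]],[]],[],[[[152059968]],[],[[1216544768]]]],
[[[],[]],[],[[],[],[]],[]]],[[[[]],[],[]],[[[]],[[]],[[]],[],[[],[]]],[[[]],[[]],[],[],[[],[]]],
[[[]],[[]],[[]],[[],[]],[[],[]]],[[],[],[[]],[],[[]]],[[],[],[[],[]],[]],[[[],[]],[],[[],[]],[]]],
[[[[[963215114240]],[[86713040896]],[]],[[]],[[[77454180352]],[],[[966384680960]]],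
[[[620674158592]],[],[[94497835520]]],[[],[]]],[[[[112210216448]],[[12902727680]],[]],[[]],
[[[11829264384]],[],[[112080289792]]],[[[86174138368]],[],[[11912085504]]],[[],[]]],[[[]],[[]],
[[],[]],[[],[]]],[[],[[[2883584]],[[1621264384]],[]],[[[1746993152]],[[15032647680]],[]],
[[[201605120]],[[1889599488]],[]],[[],[],[]]],[[],[[],[]],[[]],[[]]],[[],[[],[]],[[],[]],[[],[]]],
[[],[[],[[393216]],[[202658048]]],[[],[],[]],[[[3694592]],[],[[1885472256]]],[[[25200640]],[],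
[[11879055360]]]]],[[[[]],[[]],[[]],[],[[],[]]],[[],[],[]],[[[]],[],[[],[],[]]],[[[]],[],[[],[],
[]]],[[[],[],[]],[[],[],[]],[]],[[[],[]],[],[],[[],[]]],[[[],[]],[],[],[[],[]],[]]],
[[[[[120271732736]],[[12918456320]],[]],[[[10738991104]],[[1216512000]],[]],[[],[]],[[],[]],[[],
[[120661835776]],[[151536000]]]],[[[]],[[]],[[],[]],[[],[]]],[[[[623945998336]],[[112080224256]],
[]],[[],[],[]],[[[1751187456]],[],[[13976739840]]],[[[218628096]],[],[[1488978944]]],[[],[]]],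
[[[[1751154688]],[[15033982976]],[]],[[],[],[]],[[[10755506176]],[],[[21070336]]],[[[1749057536]],
[],[[236212224]]],[[]]],[[[],[],[]],[[],[],[]],[]],[[[],[],[]],[[],[],[]],[],[[]]],[[[],
[[184811520]],[[1891666944]]],[[],[]],[[]],[[[1482850304]],[[219684864]]],[[[11896360960]],
[[1881276416]],[]]]],[[[[]],[[]],[[]],[[],[]],[[],[]]],[[]],[[[]],[],[[],[],[]]],[[[]],[],[[]]],
[[[]],[],[[]]],[[[],[]],[],[],[[]]],[[[],[],[]],[],[],[[]]]],[[[[[13959430144]],[],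
[[111943909376]]],[[],[]],[[[121068617728]],[[11812745216]],[]],[[],[]],[[[690449571840]],[],
[[77982597632]]]],[[[],[],[]],[[],[]],[[]],[[]]],[[[[85907865600]],[],[[620656861184]]],
[[[12970385408]],[],[[103354042880]]],[[],[],[]],[[],[[1218445312]],[[10772291584]]],[[],[]]],
[[[],[],[]],[[],[],[]],[]],[[[[10788298752]],[[103354042880]],[]],[[],[],[]],[[[120533909504]],[],
[[2380032]]],[[[9663963136]],[],[[1623296000]]],[[]]],[[[],[],[]],[[],[],[]],[[]],[[]]],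
[[[[1218445312]],[],[[10789068800]]],[[],[]],[[[9697492992]],[[1623296000]]],[[]],[[[1623326720]],
[],[[12936810496]]]]],[[[[[86046146560]],[],[[11911839744]]],[[],[]],[[[1]],[[1214349312]],[]],
[[],[]],[[[1214416384]],[],[[896659894272]]]],[[[],[]],[[],[]],[[],[]],[[],[]]],
[[[[966368428032]],[],[[86583116288]]],[[[393216]],[],[[11829510528]]],[[],[],[]],[[],[[2379776]],
[[95160533504]]],[[],[],[]]],[[[],[],[]],[[],[],[]],[],[[]]],[[[[1751154688]],[[12936028160]],[]],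
[[],[],[]],[[[3407872]],[],[[1757545984]]],[[[1746993152]],[],[[12901691392]]],[[]]],[[[],[],[]],
[[],[],[]],[[]],[]],[[[[236216320]],[],[[1885339648]]],[[],[],[]],[[[18874368]],[[2621440]],[]],
[],[[[15116795904]],[],[[25329664]]]]],[[[[],[]],[[],[]],[[],[]],[[]]],[[]],[[[],[]],[],[],[[],
[]],[]],[[[],[]],[],[],[[]]],[[[],[],[]],[],[],[[]]],[[[]],[],[[]]]]],[[[[[]],[[]],[[],[]],[[],
[]]],[[[]],[[]],[[],[]],[[],[]]],[[[]],[[]],[],[[],[]],[]],[[[]],[],[],[[],[]]],[[[],[]],[],[[],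
[]],[[],[]]],[[[],[]],[],[[],[]],[]]],[[[],[],[]],[[[]],[[]],[],[[],[]]],[[[]],[],[],[[],[]]],
[[[]],[],[],[[],[]]],[[],[],[],[[]]],[[[],[]],[[],[]],[[],[]],[[]]]],[[[[]],[[]],[[],[]],[[],[]]],
[[[]],[[]],[[],[]],[[],[]]],[[]],[[],[[]],[[],[]],[[],[]]],[[]],[[],[[],[]],[[],[]],[[],[]]],[[],
[]]],[[[[]],[[]],[[],[]],[[],[]]],[[],[],[]],[[[]]],[[[]],[],[[],[]],[]],[[]],[[[],[]],[],[],[[],
[]]]],[[[[]],[[]],[],[[],[]],[]],[[]],[[[]],[],[[],[]],[]],[[[],[]],[[],[]],[[]]],[[]],[[[],[]],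
[[],[]],[],[[]]],[[]]],[[],[],[[[]]],[],[[]],[[[],[]]]],[[[[],[]],[],[[],[]],[[],[]]],[[]],[[[],
[]],[[],[]],[],[[],[]]],[[]],[[[],[]],[[],[]],[[]],[[]]],[[[],[]],[[],[]],[[]],[[]]]],[[[[],[]],
[[],[]],[[],[]],[[]]],[[]],[[[],[]],[],[],[[],[]]],[[[],[]],[],[],[[]]],[[[],[]],[],[],[[]]],
[[[]],[],[[]]]]],[[[[[[1]],[],[[19070976]]],[[]],[[[458752]],[[168574976]],[]],[[],[]],
[[[9747849280]],[],[[1889635352]]]],[[[]],[[]],[[],[]],[[],[]]],[[[[94634083840]],[],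
[[10771238912]]],[[[1]],[],[[1350697984]]],[],[[],[[21037056]],[[14044123520]]],[]],[[[]],[],[],
[[],[],[]]],[[[[10838085632]],[[95294587904]],[]],[],[[[1]],[],[[184569920]]],[[[218628096]],[],
[[25296896]]],[]],[[[],[]],[],[[],[],[]],[]],[[[[77852575744]],[],[[894527607104]]],[],
[[[3670016]],[[20971520]],[]],[],[[[1480687616]],[],[[3145728]]]]],[[[],[],[]],[[[]],[[]],[[],[]],
[[],[]]],[[[]],[],[],[[],[]]],[[[]],[],[],[[],[]]],[[],[],[],[[]]],[[[],[]],[[],[]],[[],[]],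
[[]]]],[[[[[95162662912]],[],[[9714532352]]],[[]],[[[9715056640]],[[112084418560]],[]],[[],[]],
[[[103888881664]],[],[[895535558976]]]],[[[[15100567552]],[],[[1350631424]]],[[]],[[[1350762496]],
[[11829256192]],[]],[[],[]],[[[9715322880]],[],[[95298979328]]]],[[],[],[[],[],[]],[],[[],[]]],
[[],[[[1]]],[[[1]],[],[[1344374784]]],[[],[]],[[],[[3407872]]]],[[],[[],[],[]],[],[],[[]]],[[],
[[],[[1]],[[1887570944]]],[[],[],[]],[[[18972672]],[],[[15116275712]]],[[[236216320]],[],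
[[23134208]]]],[[],[[],[]],[],[[],[],[]],[]]],[[[[]],[[]],[[],[]],[[],[]]],[[],[],[]],[[[]]],
[[[]],[],[[],[]],[],[]],[[]],[[[],[]],[],[],[[],[]],[]]],[[[[[9731313664]],[],[[23199744]]],
[[[1350696960]],[],[[2887680]]],[[],[],[]],[[],[[15117844480]],[[27265536]]],[[],[]]],[[[]],[],
[[],[],[]],[[],[]],[[],[]]],[[[[103762889728]],[],[[15116795904]]],[[],[]],[[[151265280]],
[[1753382912]]],[[],[]],[[[294912]],[],[[202915840]]]],[[[[53248]],[],[[4608]]],[[],[]],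
[[[1354891264]],[[202641408]]],[[]],[[[49152]],[],[[458752]]]],[[[],[],[]],[[],[]],[],[]],[[[],
[[29392896]],[[10738999680]]],[[],[]],[[]],[[[15049953280]],[[1755382784]]],[[[1612875264]],
[[3670016]],[]]],[[[],[],[]],[[],[],[]]]],[[[[]],[],[],[[],[]]],[[]],[[[]],[],[[],[]],[],[]],[],
[[]],[[[],[],[]],[],[],[[]]]],[[[[[327680]],[[3162112]],[]],[[],[],[]],[[[15100280832]],[],
[[1487046144]]],[[[86717235200]],[],[[9731854336]]],[[]]],[[[],[]],[[],[],[]],[],[[]],[[]]],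
[[[[15117320192]],[[86583116288]],[]],[[[1751154688]],[[12936028160]]],[[],[]],[[],[]],[[],
[[218910720]],[[1612840960]]]],[[[],[],[]],[[],[]],[],[]],[[[[294912]],[],[[15067251008]]],[[],
[]],[[[15083261952]],[[1757545984]]],[[]],[[[1486916608]],[],[[3145728]]]],[[[[2379776]],[],
[[86706784768]]],[[],[]],[[[85911961600]],[[12901691392]]],[[]],[[[9732120576]],[],[[25329664]]]],
[[[],[],[]],[[],[],[]]]],[[[[],[]],[[],[]],[[],[]],[[]]],[[]],[[[],[]],[],[],[[],[]],[]],[[[],[]],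
[],[],[[]]],[[[],[],[]],[],[],[[]]],[[[]],[],[[]]]],[[[[[201351168]],[],[[103219791872]]],[[],[]],
[[[1]],[[9764876288]],[]],[[],[],[]],[[[1]],[],[[95032442880]]]],[[[],[]],[[],[]],[],[[],[],[]],
[[],[],[]]],[[[[94491511296]],[],[[689443196992]]],[[[186134528]],[],[[1354925056]]],[[],[],[]],
[[],[[1623230976]],[[15116795904]]],[[],[],[]]],[[[],[],[]],[[],[],[]],[],[[]]],[[[[1]],
[[1354925056]],[]],[[],[],[]],[[],[],[[151523328]]],[[[9732104192]],[],[[1751285760]]],[]],[[[],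
[],[]],[[],[],[]],[[]],[],[]],[[[[1623230976]],[],[[15033458688]]],[[],[],[]],[[[15099781120]],
[[1751285760]],[]],[[]],[[[94493573120]],[],[[9765142528]]]]]]] : List (List (List (List (List (List (List (ℕ))))))))

end Pool.Agent.Helper26.WD
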