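import Pool.Agent.Helper26.WD.AlgP

/-!
# Intermediate states of the computation for the Whitehead double
-/

namespace Pool.Agent.Helper26.WD

/-- State number 6. -/
def wst6 : L ℕ 7 := (
[[[[[[[111803367424]],[],[[11896356864]]],[[],[],[]],[[[689443438592]],[[103626735616]],[]],[[],
[],[]],[[[29556736]],[],[[13958905856]]]],[[],[[],[],[]],[[],[]],[[],[],[]],[[],[],[]]],
[[[[10804527104]],[],[[86442508288]]],[[[111679635456]],[],[[1]]],[[],[]],[[],[[15033958400]],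
[[1478590464]]],[[],[],[]]],[[[],[],[]],[],[[],[]],[[],[],[]],[[],[],[]]],[[[[6064493854720]],
[[966418522112]],[]],[[],[]],[[[826882400256]],[],[[121068716544]]],[[[77582041088]],[],
[[184823808]]],[[],[],[]]],[[[],[],[]],[],[[],[],[]],[],[]],[[[[1]],[],[[1747058688]]],[[],[],[]],
[[[29392896]],[[184827904]],[]],[[],[],[]],[[[10805313536]],[],[[1]]]]],[[[],[[],[]],[[],[]],[],
[[],[],[]]],[[],[[],[]],[[],[]],[],[[],[],[]]],[[],[],[],[]],[[[],[]],[[],[],[]],[[]],[[],[],[]],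
[[]]],[[[],[]],[],[],[]],[[],[[],[],[]],[[],[],[]],[[]],[[]]],[[[],[],[]],[],[],[],[]]],
[[[[[964305354752]],[],[[7190188490752]]],[[],[],[]],[[[103763050496]],[[9715331072]],[]],[[],[],
[]],[[[14025777152]],[],[[103754530816]]]],[[[[111941812224]],[],[[760210784256]]],[[],[]],
[[[831160324096]],[[77984696320]],[]],[],[[[1489076224]],[],[[9698820096]]]],[[],[[],[],[]],[[],
[]],[[],[],[]],[[],[],[]]],[[[],[]],[[[623911632896]],[],[[1]]],[[[103221855232]],[],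
[[14008983936]]],[[],[],[]],[[[2359296]],[[29360128]],[]]],[[[],[]],[[],[]],[[],[],[]],[[],[],[]],
[[],[],[]]],[[],[[],[[103888748544]],[[201605120]]],[[],[],[]],[[[10788536320]],[],
[[1216513536]]],[[[29392896]],[],[[168296448]]]],[[[],[],[]],[[],[],[]],[[]],[[],[],[]],[[]]]],
[[[[],[]],[[],[],[]],[[],[]],[[],[],[]],[[],[],[]]],[[],[[],[]],[[],[]],[],[[],[],[]]],[[],[],[[],
[]],[],[[],[],[]]],[[[],[]],[[],[],[]],[[],[],[]],[],[[],[],[]]],[[[],[]],[[],[]],[],[],[[],[],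
[]]],[[],[[],[],[]],[],[[],[],[]],[[],[],[]]],[[[],[],[]],[[],[],[]],[],[[],[],[]],[]]],
[[[[[86167781376]],[],[[687278915584]]],[[[762441105408]],[],[[77722715136]]],[[],[]],[[],
[[112084418560]],[[201605120]]],[[],[],[]]],[[],[[],[],[]],[],[[],[],[]],[]],[[[[619617189888]],
[],[[5532331048960]]],[],[[[103622477312]],[[9680457728]],[]],[],[[[12902727680]],[],
[[21037056]]]],[[[[7190586851328]],[],[[12970115072]]],[],[[[692580265984]],[[120942955520]],[]],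
[],[[[29556736]],[],[[11862540288]]]],[[[],[]],[],[],[],[[],[],[]]],[[[],[[968566767616]],[[1]]],
[],[],[[[78123171840]],[[11912356032]],[]],[[[185335808]],[[1891631104]],[]]],[[[],[],[]],[],[],
[[],[],[]],[]]],[[[[],[],[]],[[],[],[]],[[],[]],[[],[],[]],[[],[],[]]],[[[],[]],[],[],[[],[],[]],
[]],[[[],[]],[[],[],[]],[[],[],[]],[],[[],[],[]]],[[],[],[[],[]],[],[[],[],[]]],[[[],[]],[],[[],
[]],[],[[]]],[[[],[],[]],[],[[],[],[]],[[],[]],[[],[]]],[[[],[],[]],[],[[],[],[]],[[]],[]]],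
[[[[[11896619008]],[[1891631104]],[]],[[],[]],[[[4965397626880]],[],[[9680719872]]],
[[[688337190912]],[],[[1344471040]]],[[],[],[]]],[[[],[]],[],[[],[],[]],[[],[],[]],[]],
[[[[4956662857728]],[[693637496832]],[]],[[[689427460096]],[[103760953344]],[]],[],[],[[],
[[1751285760]],[[184549376]]]],[[[],[]],[],[],[],[[],[],[]]],[[[[962173861888]],[],
[[5523330072576]]],[],[[[7731754827776]],[[829030936576]],[]],[],[[[10788278272]],[],
[[85903605760]]]],[[[[1220575232]],[],[[831160320000]]],[],[[[894511874048]],[[77456378880]],[]],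
[],[[[1619066880]],[],[[12953587712]]]],[[[],[],[]],[],[[],[],[]],[],[]]],[[[[],[],[]],[[],[],[]],
[[],[],[]],[[]],[[]]],[[],[],[],[],[]],[[],[[],[],[]],[],[[],[],[]],[[],[],[]]],[[],[],[],[[]],
[[]]],[[],[],[[]],[[]],[[]]],[[],[],[[]],[],[[]]],[[],[],[[]],[],[[]]]],[[[[[1218543616]],[],
[[15117074432]]],[[],[],[]],[[[758096592896]],[[1212219904]],[]],[[],[],[]],[[[1619197952]],[],
[[219414528]]]],[[[],[],[]],[],[[]],[],[[]]],[[[[760309874688]],[],[[95032442880]]],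
[[[120942755840]],[],[[3145728]]],[],[[],[[235671616]],[[294912]]],[]],[[[],[],[]],[],[],[[],[],
[]],[]],[[[[111809855488]],[[830020796416]],[]],[],[[[202375168]],[],[[86178267136]]],
[[[1486882816]],[],[[12885180416]]],[]],[[[],[],[]],[],[[],[],[]],[],[]],[[[[11862016000]],[],
[[86304292864]]],[],[[[1885536256]],[[12952010752]],[]],[],[[[219430912]],[],[[1346571264]]]]]],
[[[[],[],[[],[]],[],[[],[],[]]],[[],[],[],[]],[[],[[],[],[]],[],[[],[],[]]],[[],[],[],[[],[],[]]],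
[[],[],[[],[],[]],[[],[],[]]],[],[[],[],[[]],[],[[]]]],[[[[],[]],[],[[],[]],[],[[],[],[]]],[[],
[[],[]],[[],[]],[],[[],[],[]]],[[],[[],[],[]],[],[[],[],[]]],[[[],[]],[[],[],[]],[[],[],[]],[[],
[],[]],[[]]],[[[],[]],[],[[]],[[]]],[[],[[],[],[]],[[],[],[]],[[],[],[]],[[]]],[[[],[],[]],[],
[[]],[],[[]]]],[[[[],[]],[],[[],[]],[],[[],[],[]]],[[],[],[],[],[]],[],[[],[[],[],[]],[[],[],[]],
[[],[],[]],[[]]],[],[[],[[],[],[]],[[],[],[]],[[],[],[]],[[]]],[]],[[[[],[]],[[],[],[]],[[],[]],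
[[],[],[]],[[],[],[]]],[[[],[]],[[],[]],[[],[]],[],[[],[],[]]],[[],[],[],[],[]],[[[],[]],[[],[],
[]],[[],[],[]],[],[[],[],[]]],[[[],[]],[],[],[],[]],[[],[[],[],[]],[],[[],[],[]],[[],[]]],[[[],[],
[]],[],[],[],[]]],[[[],[[],[],[]],[],[[],[],[]]],[],[],[],[],[]],[[[[],[],[]],[[],[],[]],[[]],[[],
[],[]],[[]]],[[[],[]],[[],[],[]],[[],[],[]],[],[[]]],[[[],[]],[[],[],[]],[[],[],[]],[],[[],[],
[]]],[[],[],[],[],[]],[[],[],[],[],[]],[[],[],[[]],[[]],[[]]],[[],[],[],[],[]]],[[[],[],[[]],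
[[]]],[],[],[],[[]],[[]]],[[[[],[],[]],[[],[],[]],[[],[],[]],[[]],[[]]],[[],[[],[],[]],[],[[],[],
[]],[[]]],[[],[[],[],[]],[],[[],[],[]],[[],[]]],[[],[],[],[],[]],[[],[],[[]],[[]],[[]]],[[],[],[],
[],[]],[[],[],[],[],[]]],[[[],[],[[]],[],[[]]],[],[],[],[[]],[],[[]]]],[[[[[[688352661504]],[],
[[103351975936]]],[[],[],[]],[[[6065307713536]],[[966435016704]],[]],[[],[],[]],[[[761384943616]],
[],[[1207993856]]]],[[[],[]],[[],[],[]],[[],[]],[[],[],[]],[[],[],[]]],[[[[7198644174848]],[],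
[[44121143377920]]],[[[53193254371328]],[],[[112206187008]]],[[],[]],[[],[[5523604963328]],
[[11861491712]]],[[],[],[]]],[[[],[],[]],[[],[],[]],[[],[]],[[],[],[]],[[],[],[]]],
[[[[896675614720]],[[112206187008]],[]],[[],[]],[[[7722896459800]],[],[[39789736243586]]],
[[[962140069888]],[],[[5541183292928]]],[[],[],[]]],[[[],[],[]],[[],[],[]],[[],[],[]],[[]],[[]]],
[[[[5523604963328]],[],[[623894618112]]],[[],[],[]],[[[620657135616]],[[5541183292928]],[]],[[],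
[],[]],[[[23134208]],[],[[622871183360]]]]],[[[[[85905769472]],[],[[759185825792]]],[[],[],[]],
[[[964287807488]],[[112206119424]],[]],[[],[],[]],[[[1342276096]],[],[[12919001472]]]],[[],[[],[],
[]],[[],[]],[[],[],[]],[[],[],[]]],[[[[758096068608]],[],[[6597340364800]]],[[[4982174646272]],[],
[[14043865280]]],[[],[]],[[],[[826781990912]],[[1212153856]]],[[],[],[]]],[[[],[],[]],[],[[],[]],
[[],[],[]],[[],[],[]]],[[[[94501896192]],[[11845775360]],[]],[[],[]],[[[896675365248]],[],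
[[5515008706080]]],[[[112348626944]],[],[[826797993984]]],[[],[],[]]],[[[],[],[]],[],[[],[],[]],
[],[]],[[[[831177117696]],[],[[86033629184]]],[[],[],[]],[[[77449922048]],[[831092969664]],[]],
[[],[],[]],[[[15116533760]],[],[[86706782208]]]]],[[[],[],[[],[]],[],[[],[],[]]],[],[[],[[],[],
[]],[],[[],[],[]],[]],[[],[],[],[],[]],[[],[],[[],[],[]],[[],[],[]],[]],[[],[],[],[],[]],[[],[],
[[]],[],[[]]]],[[[[],[]],[[],[],[]],[[],[]],[[],[],[]],[[],[],[]]],[[[[15033171968]],[],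
[[112080355328]]],[[],[]],[[[86035826688]],[[12919791680]],[]],[],[[[151781376]],[],
[[1476592640]]]],[[[[86169911296]],[],[[830019739648]]],[[],[]],[[[965328781504]],
[[112483010560]],[]],[],[[[1212189696]],[],[[201588736]]]],[[[],[]],[[],[],[]],[[],[],[]],[],[[],
[],[]]],[[[[688369451008]],[[103488225792]],[]],[[[112212312064]],[[11861753856]],[]],[[],[]],[],
[[],[[688302858304]],[[103352008704]]]],[[],[[],[],[]],[],[[],[],[]],[[],[]]],[[[[120403787776]],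
[],[[11812483072]]],[[[14009516032]],[],[[1753219072]]],[[],[],[]],[[],[[103083607584]],
[[9664991232]]],[]]],[[[],[],[],[]],[[],[[],[],[]],[[],[]],[[],[],[]],[[],[],[]]],[[],[],[[],[]],
[],[[],[],[]]],[[],[],[[],[]],[],[[],[],[]]],[[],[[],[]],[[],[]],[[]],[[],[],[]]],[[],[],[],[[]],
[[]]],[[],[[],[],[]],[[],[],[]],[[],[],[]],[[]]]],[[[[],[],[]],[[],[],[]],[[],[]],[[],[],[]],[[],
[],[]]],[[[],[]],[[[103624474624]],[],[[1]]],[[[9714286656]],[],[[1480787992]]],[[],[],[]],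
[[[29556736]],[[152322048]],[]]],[[[],[]],[[],[],[]],[[],[],[]],[],[[],[],[]]],[[[[967542046720]],
[],[[1346371584]]],[],[[[6631968505856]],[[11828203584]],[]],[[],[],[]],[[[185335808]],[],
[[1744830464]]]],[[[[111937650688]],[],[[831094521856]]],[[],[]],[[[622871707648]],
[[77856932864]],[]],[[],[]],[[[6056579302400]],[],[[219680768]]]],[[[],[],[]],[],[[],[],[]],[[],
[],[]],[[],[]]],[[[[11895570432]],[[77714358272]],[]],[[],[],[]],[[[1616904192]],[],
[[12919779328]]],[[[968616579328]],[],[[29460480]]],[[],[]]]],[[[[],[]],[],[],[]],[[[],[]],[[],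
[]],[[],[],[]],[[],[],[]],[[],[],[]]],[[[],[]],[[],[]],[],[],[[],[],[]]],[[[],[]],[[],[]],[[],[]],
[[]],[[],[],[]]],[[],[],[[],[]],[],[[]]],[[],[],[[]],[],[[]]],[[[],[],[]],[[],[],[]],[[],[],[]],
[[]],[[]]]],[[[[],[],[]],[[],[],[]],[[],[],[]],[[]],[[]]],[[],[[],[[10771763200]],[[29427200]]],
[[],[],[]],[[[1619167744]],[],[[218907008]]],[[[168562688]],[],[[23101440]]]],[[],[[],[],[]],[],
[[],[],[]],[[],[]]],[[[],[[95300878336]],[[236191744]]],[],[[],[],[]],[[[689376870400]],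
[[1885538824]],[]],[[[1747025920]],[[185348096]],[]]],[[[],[],[]],[],[[],[],[]],[[],[]],[[],[]]],
[[[[235671552]],[],[[86308290560]]],[[],[]],[[[103354105856]],[[12968788032]],[]],[[],[]],
[[[897698512896]],[],[[120938725376]]]],[[[[1350565888]],[],[[12987138048]]],[[],[]],
[[[9765650432]],[[1210256384]],[]],[[],[]],[[[94900486656]],[],[[14027075648]]]]],[[[[],[],[]],[],
[],[],[]],[[[],[],[]],[[],[],[]],[[]],[[],[],[]],[[]]],[[[],[],[]],[[],[],[]],[],[[],[],[]],[]],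
[[],[[],[],[]],[[],[],[]],[[],[],[]],[[]]],[[],[],[[],[],[]],[[]],[]],[[],[],[[],[],[]],[],[]],
[[],[],[[]],[],[[]]]]],[[[[],[],[],[]],[[],[],[],[]],[],[[],[],[],[],[]],[[],[],[],[]],[[],[],[],
[],[]],[[],[],[],[],[]]],[[],[],[],[],[[],[],[],[]],[],[[],[],[],[],[]]],[[],[],[],[],[[],[],[],
[]],[],[[],[],[],[],[]]],[[[],[[],[]],[[],[]],[],[[],[],[]]],[[],[[],[]],[[],[]],[],[[],[],[]]],
[[],[],[],[]],[],[[[],[]],[],[],[],[]],[],[[[],[],[]],[],[],[],[]]],[[],[]],[[[[],[]],[],[],[],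
[]],[[[],[]],[],[],[],[]],[],[[],[]],[[],[]],[],[[],[]]],[[[],[],[],[]],[[],[],[],[]]],[[[],[],[],
[],[]],[[],[],[],[],[]],[],[[],[]],[],[[],[]],[[]]],[[[],[],[],[],[]],[[],[],[],[],[]]]],
[[[[[[1210056704]],[],[[897649487872]]],[[],[],[]],[[[9663692800]],[[1342276096]],[]],[[],[],[]],
[[[94623695872]],[],[[12970360832]]]],[[[[761284263936]],[],[[6597340364800]]],[[],[]],
[[[103492421120]],[[14043865280]],[]],[],[[[826781990912]],[],[[85901508608]]]],[[],[[],[],[]],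
[[],[]],[[],[],[]],[[],[],[]]],[[[],[]],[[[5523739115520]],[],[[15099781120]]],[[[897682522496]],
[],[[5515008706080]]],[[],[],[]],[[[86715203584]],[[826797993984]],[]]],[[[],[]],[[],[]],[[],[],
[]],[[],[],[]],[[],[],[]]],[[],[[],[[623928422400]],[[1755316224]]],[[],[],[]],[[[95168857088]],
[],[[623877566848]]],[[[184811520]],[],[[86706782208]]]],[[[],[],[]],[[],[],[]],[[]],[[],[],[]],
[[]]]],[[[],[],[[],[]],[],[[],[],[]]],[],[[],[[],[],[]],[],[[],[],[]],[]],[[],[],[],[],[]],[[],[],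
[[],[],[]],[[],[],[]],[]],[[],[],[],[],[]],[[],[],[[]],[],[[]]]],[[[[[10754719744]],[],
[[5515285364736]]],[[],[]],[[[5549771063296]],[[830054088704]],[]],[],[[[10789322752]],[],
[[103356235776]]]],[[],[[],[],[]],[[],[]],[[],[],[]],[[],[],[]]],[[[[111805628416]],[],
[[687262941184]]],[[[826781466624]],[],[[1744833024]]],[[],[]],[[],[[86033694720]],[[]]],[[],[],
[]]],[[[],[],[]],[],[[],[]],[[],[],[]],[[],[],[]]],[[[[14026821632]],[[1744833024]],[]],[[],[]],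
[[[112073901568]],[],[[621730873472]]],[[[12936298496]],[],[[86706752000]]],[[],[],[]]],[[[],[],
[]]],[[[[86033694720]],[],[[9714012160]]],[[],[],[]],[[[9664745472]],[[86706752000]],[]],[[],[],
[]],[[[1751252992]],[],[[9698033664]]]]],[[[[[86304096256]],[],[[830019207168]]],[[],[]],
[[[962091036672]],[[111673475584]],[]],[],[[[1610612736]],[],[[151257088]]]],[[],[[],[]],[[],[]],
[],[[],[],[]]],[[[[826815807488]],[],[[6073889161216]]],[[[112474491904]],[],[[3428352]]],[[],[],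
[]],[[],[[15082721280]],[[]]],[[],[],[]]],[[[],[]],[],[],[[],[],[]],[]],[[[[77315866624]],
[[13992214528]],[]],[[],[],[]],[[[12936282112]],[],[[103483966464]]],[[[1220542464]],[],
[[9714814976]]],[[],[],[]]],[[]],[[[[760242782208]],[],[[111809789952]]],[[],[],[]],[[[18939904]],
[[9663676480]],[]],[[],[],[]],[[[185335808]],[],[[1617005056]]]]],[[[],[[],[],[]],[],[[],[],[]],
[]],[[],[],[],[]],[[[],[]],[[],[],[]],[],[[],[],[]],[]],[[[],[],[]],[[],[],[]],[],[[],[],[]],[]],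
[[[],[]],[],[[],[],[]],[[],[],[]],[]],[[[],[],[]],[[],[],[]],[],[],[]],[[[],[],[]],[],[[],[],[]],
[],[[],[],[]]]],[[[[],[]],[[[967441645568]],[],[[1]]],[[[86040018944]],[],[[10770972672]]],[[],[],
[]],[[[168296448]],[[1346568192]],[]]],[[],[],[],[],[]],[[[],[]],[],[],[[],[],[]],[]],
[[[[7181728546816]],[],[[9714798592]]],[[[619633991680]],[],[[1]]],[[],[],[]],[[],[[20971520]],
[[3145728]]],[[],[],[]]],[[[[828963819520]],[],[[7164410201600]]],[[[120263475200]],[],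
[[962107543552]]],[[],[],[]],[[],[[218628096]],[[1344274432]]],[[],[]]],[[[],[],[]],[[],[],[]],[],
[[],[]],[[],[]]],[[[[111950233600]],[[758096338944]],[]],[[[235929600]],[[111816115200]],[]],[[],
[],[]],[[],[]],[[],[[29392896]],[[152055808]]]]],[[[[],[]],[],[[],[],[]],[[],[],[]],[]],[[],[],[],
[]],[[[],[]],[],[[],[],[]],[[],[],[]]],[[[],[]],[],[[],[],[]],[[],[],[]],[]],[[[],[],[]],[[],[],
[]],[],[[],[]]],[[[],[],[]],[[],[],[]],[]],[[[],[],[]],[],[],[[],[]],[[],[]]]],[[[],[[],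
[[95305138176]],[[151257088]]],[[],[],[]],[[[9747562496]],[],[[1885470720]]],[[[1755316224]],[],
[[218628096]]]],[[],[],[],[],[]],[[]],[[[],[[964255027200]],[[]]],[[],[[103628736000]],[[]]],[[],
[[168583296]],[[294912]]],[[],[],[]],[[],[],[]]],[[[],[],[]],[[],[],[]],[],[[],[]],[[],[]]],
[[[[111677702144]],[],[[966367641600]]],[[[11811434496]],[],[[95160500224]]],[[],[],[]],[[],
[[21170176]],[[13960216576]]],[[],[]]],[[[[12903251968]],[],[[112080289792]]],[[[1212186624]],[],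
[[15032647680]]],[[],[],[]],[[],[[2895872]],[[1480655872]]],[[],[]]]],[[[[],[],[]],[],[[]],[],
[[]]],[[],[],[],[],[]],[[[],[],[]],[],[[],[],[]],[],[[],[],[]]],[[[],[],[]],[],[[],[],[]],[],[[],
[],[]]],[[[],[],[]],[[],[],[]],[],[],[[],[]]],[[[],[],[]],[],[],[[],[]],[[],[]]],[[[],[],[]],[[],
[],[]],[]]]],[[[[[],[]],[[],[],[]],[[],[]],[[],[],[]],[[],[],[]]],[[[],[]],[],[[],[]],[],[[],[],
[]]],[[],[],[],[],[]],[[[],[],[]],[[],[],[]],[[],[],[]],[],[[],[],[]]],[[],[],[],[],[]],[[[],[],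
[]],[[],[],[]],[],[[],[],[]],[[],[]]],[[],[],[],[],[]]],[[[],[],[],[]],[[],[],[],[],[]],[[],[],[],
[],[]],[[],[],[],[],[]],[[[],[]],[[],[]],[],[],[[],[],[]]],[[],[],[],[],[]],[[[],[],[]],[[],[],
[]],[],[[],[],[]],[]]],[[[],[[],[],[]],[[],[]],[[],[],[]],[[],[],[]]],[[],[[],[],[]],[[],[]],[[],
[],[]],[[],[],[]]],[[],[[],[],[]],[],[[],[],[]],[]],[[]],[[[],[]],[],[[],[]],[[],[]],[]],[[]],
[[[],[],[]],[],[[],[],[]],[],[[],[]]]],[[[],[],[],[],[]],[[],[],[],[]],[[]],[[]],[[[],[]],[],[[],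
[],[]],[[],[],[]]],[[]],[[[],[],[]],[],[[],[],[]],[],[[],[],[]]]],[[[]],[],[[]],[[]],[[]],[[]],
[[]]],[[[[],[],[]],[[],[],[]],[[],[],[]],[],[[],[],[]]],[],[[[],[],[]],[[],[],[]],[[],[],[]],[[],
[],[]],[[],[],[]]],[[[],[],[]]],[[[],[],[]],[[],[],[]],[]],[[]],[[[],[],[]],[[],[],[]],[]]],[[],
[],[[]],[[]],[[]],[[]]],[[[[],[],[]],[[],[],[]],[],[[],[],[]],[[],[]]],[],[[[],[],[]],[[],[],[]],
[[],[],[]],[[],[],[]],[[],[],[]]],[[[],[],[]]],[[]],[[[],[],[]],[[],[],[]],[]],[[[],[],[]],[[],[],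
[]],[]]],[[],[],[[]],[[]],[[]],[],[[]]]],[[[[[[184565760]],[],[[112080355328]]],[[[1352794624]],
[],[[12919791680]]],[[],[]],[[],[[151781376]],[[1218511360]]],[[],[],[]]],[[],[[],[],[]],[[],[]],
[[],[],[]],[[],[],[]]],[[[[5541321506816]],[],[[57519309848576]]],[],[[[10754482240]],
[[1212189696]],[]],[],[[[95162565120]],[],[[185614336]]]],[[[[48378596311040]],[],
[[77854802432]]],[],[[[120674322944]],[[622788350208]],[]],[],[[[15133573120]],[],
[[103352008704]]]],[[[],[]],[],[],[],[[],[],[]]],[[[],[[7146827743232]],[[15101091840]]],[],[],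
[[[11912876032]],[[103083607584]],[]],[[[1476591616]],[[9664991232]],[]]],[[[],[],[]],[],[],[[],
[],[]],[]]],[[[],[],[],[]],[[],[[],[],[]],[[],[]],[[],[],[]],[[],[],[]]],[[],[],[[],[]],[],[[],[],
[]]],[[],[],[[],[]],[],[[],[],[]]],[[[],[]],[[],[]],[[],[]],[[]],[[],[],[]]],[[],[],[],[[]],[[]]],
[[[],[],[]],[[],[],[]],[[],[],[]],[[],[],[]],[[]]]],[[[[[5524141637632]],[],[[57522515083264]]],
[[[48658826932224]],[],[[77584336384]]],[[],[]],[[],[[7164821307392]],[[10737954816]]],[[],[],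
[]]],[[[[831092961280]],[],[[6073889161216]]],[[[7705710362624]],[],[[13992214528]]],[[],[]],[[],
[[760242782208]],[[1346570752]]],[[],[],[]]],[[],[[],[],[]],[[],[]],[[],[],[]],[[],[],[]]],[[],
[[],[],[]],[[],[]],[[],[],[]],[[],[],[]]],[[],[[[1883310080]],[[2895872]],[]],[[[186146816]],
[[103483966464]],[]],[[[18939904]],[[9663676480]],[]],[[],[],[]]],[[],[[],[],[]],[[]],[[]],[[]]],
[[],[[[14059315200]],[],[[327680]]],[[[1352663040]],[],[[10839666688]]],[[],[],[]],[[[150994944]],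
[[1617005056]],[]]]],[[[],[[],[],[]],[[],[]],[[],[],[]],[[],[],[]]],[[],[],[],[]],[[[],[]],[[],[],
[]],[],[[],[],[]],[]],[[[],[],[]],[[],[],[]],[],[[],[],[]],[]],[[[],[]],[],[[],[],[]],[[],[],[]],
[]],[[[],[],[]],[[],[],[]],[],[],[]],[[[],[],[]],[],[[],[],[]],[],[[],[],[]]]],
[[[[[962157871104]],[],[[7181327925248]]],[[],[],[]],[[[6631710526464]],[[619616948224]],[]],[[],
[],[]],[[[11862544384]],[],[[1220640768]]]],[[[],[]],[[],[],[]],[[],[]],[[],[],[]],[[],[],[]]],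
[[[[7164412329984]],[],[[44259639562240]]],[[[619549319168]],[],[[1617002496]]],[[],[],[]],[[],
[[103616120832]],[[152584192]]],[[],[],[]]],[[[],[],[]],[[],[],[]],[],[[]],[]],[[[[12969836544]],
[[1617002496]],[]],[[],[],[]],[[[111948169216]],[],[[234897408]]],[[[11862556672]],[],[[394240]]],
[[]]],[[[],[],[]],[[],[],[]],[],[],[]],[[[[103616120832]],[],[[152584192]]],[[],[],[]],
[[[9748103168]],[[394240]],[]],[[]],[[[1889697792]],[],[[3408000]]]]],[[[[[5506964062208]],[],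
[[11862822912]]],[[],[],[]],[[[61714386141184]],[[77584303616]],[]],[[],[],[]],[[[1753219072]],[],
[[12903251968]]]],[[[],[],[]],[[],[],[]],[[],[]],[[],[],[]],[[],[],[]]],[[[[52776609533952]],[],
[[112074000896]]],[[[7181455920128]],[],[[152592384]]],[[],[],[]],[[],[[13959430528]],
[[1484914688]]],[[],[],[]]],[[[],[],[]],[[],[],[]],[],[[]],[]],[[[[95296880640]],[[968515149824]],
[]],[[],[],[]],[[[825792135168]],[],[[18972672]]],[[[111807561728]],[],[[152322048]]],[[]]],[[[],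
[],[]],[[],[],[]],[[]],[[]],[[]]],[[[[9664741376]],[],[[94489346048]]],[[],[],[]],[[[1744961536]],
[[152055808]],[]],[[]],[[[15099756544]],[],[[1214448640]]]]],[[[[],[]],[[],[]],[[],[]],[[]],[[],
[],[]]],[[],[],[],[]],[[[],[]],[],[[],[],[]],[[],[],[]],[]],[[[],[]],[],[[]],[[]]],[[[],[]],[],
[[]],[[]]],[[[]],[],[[]]],[[[],[],[]],[],[],[[]],[[]]]],[[[[],[[622821376000]],[[1610645504]]],
[[],[],[]],[[],[],[]],[[[6056172322816]],[[10806100032]],[]],[[[13958643712]],[[1208025088]],[]]],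
[[[],[],[]],[[],[],[]],[[]],[[]],[[]]],[[[],[[5497558302720]],[[15117594624]]],[[],
[[964236947456]],[[1744961536]]],[[],[[1887569408]],[[235405312]]],[[],[],[]],[[],[],[]]],[[[],[],
[]],[[],[],[]],[],[],[]],[[[],[],[]],[[],[],[]],[[]],[[]],[[]]],[[[[13992722432]],[[95164695552]],
[]],[[],[],[]],[[[86448930816]],[],[[235143168]]],[[[15066738688]],[],[[1354792960]]],[[]]],
[[[[1489141760]],[[15101071360]],[]],[[],[],[]],[[[10838867968]],[],[[21070336]]],[[[1757478912]],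
[],[[235671552]]],[[]]]],[[[[],[],[]],[[],[],[]],[[],[],[]],[[],[],[]],[[]]],[[]],[[[],[],[]],[],
[[],[],[]],[],[[],[],[]]],[[[],[],[]],[],[[]],[],[[]]],[[[],[],[]],[],[[]],[],[[]]],[[[],[],[]],
[],[],[[]],[[]]],[[[]],[],[[]]]]],[[[[[],[],[]],[[],[],[]],[[],[],[]],[[],[],[]],[[],[],[]]],[[[],
[]],[[],[],[]],[[],[],[]],[[],[],[]],[[],[],[]]],[[[],[],[]],[[],[],[]],[[],[],[]],[],[[],[],[]]],
[[[],[],[]],[],[[],[]],[],[[],[],[]]],[[[],[]],[],[[],[]],[],[]],[[[],[],[]],[],[[],[],[]],[[],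
[]],[[],[]]],[[[],[],[]],[],[[],[],[]],[],[]]],[[[],[],[],[]],[[[],[]],[[],[],[]],[[],[],[]],[[],
[],[]],[[],[],[]]],[[[],[]],[],[[],[]],[],[[],[],[]]],[[[],[]],[],[[],[]],[],[[],[],[]]],[[[],[]],
[[],[]],[[],[]],[[]],[[]]],[[],[],[],[[]],[[]]],[[[],[],[]],[[],[],[]],[[],[],[]],[[]],[[]]]],
[[[[],[],[]],[[],[],[]],[[],[],[]],[[],[],[]],[[],[],[]]],[[[],[],[]],[[],[],[]],[[],[],[]],[[],
[],[]],[[],[],[]]],[[]],[[],[[],[],[]],[[],[]],[[],[],[]],[[],[],[]]],[[],[[],[]],[[],[]],[[],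
[]]],[[]],[[],[[],[],[]],[[],[],[]],[],[[],[]]]],[[[[],[]],[[],[],[]],[[],[],[]],[[],[],[]],[[],
[],[]]],[[],[],[],[]],[[[],[]]],[[[],[]],[],[],[[],[],[]],[]],[[[],[],[]],[[],[],[]],[],[[],[]]],
[[]],[[[],[],[]],[[],[],[]],[],[],[[],[]]]],[[[[],[],[]],[[],[],[]],[[],[],[]],[],[[],[],[]]],
[[]],[[[],[],[]],[[],[],[]],[[],[],[]],[[],[],[]],[[],[],[]]],[[[],[],[]],[[],[],[]],[],[[]]],
[[[],[],[]],[[],[],[]],[],[[]]],[[]],[[[],[],[]],[[],[],[]],[],[],[[]]]],[[[[],[],[]]],[],[[[],[],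
[]]],[[]],[[[],[]]],[[]],[[[],[],[]]]],[[[[],[]],[[],[]],[[],[]],[[]]],[[]],[[[],[],[]],[],[],[[],
[]]],[[[],[]],[],[],[[]]],[[[],[]],[],[],[[]]],[[[]],[],[[]]]],[[[[],[],[]],[],[[],[],[]],[[],[]],
[[],[]]],[[]],[[[],[],[]],[[],[],[]],[],[[],[]],[[],[]]],[[]],[[[],[],[]],[[],[],[]],[[]],[[]],
[[]]],[[[],[],[]],[[],[],[]],[[]],[[]]],[[[],[],[]],[[],[],[]],[[]],[[]]]],[[[[],[],[]],[[],[],
[]],[[],[],[]],[],[[]]],[[]],[[[],[],[]],[],[],[],[[],[]]],[[[],[],[]],[],[],[],[[]]],[[[],[],[]],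
[],[],[],[[]]],[],[[[]],[],[[]]]]],[[[[[[29556736]],[[1]],[]],[[],[]],[[[219701312]],[],
[[1480787992]]],[[[1478557696]],[],[[152322048]]],[[],[],[]]],[[[],[]],[[],[]],[[],[],[]],[[],[],
[]],[[],[],[]]],[[[[692564791296]],[[85899411456]],[]],[[[103484097536]],[[219414528]],[]],[],[],
[[],[[15066472576]],[[1744830464]]]],[[[],[]],[],[],[],[[],[],[]]],[[[[4973572130816]],[],
[[61988273393984]]],[],[[[11828199424]],[[6056579302400]],[]],[],[[[86039955456]],[],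
[[13959454720]]]],[[[[621731643392]],[],[[7181464273920]]],[],[[[1616904192]],[[968616579328]],
[]],[],[[[12919779328]],[],[[1348667904]]]],[[[],[],[]],[],[[],[],[]],[],[]]],[[[[],[]],[],[],[]],
[[[],[]],[[],[]],[[],[],[]],[[],[],[]],[[],[],[]]],[[[],[]],[[],[]],[],[],[[],[],[]]],[[[],[]],
[[],[]],[[],[]],[[]],[[],[],[]]],[[],[],[[],[]],[],[[]]],[[],[],[[]],[],[[]]],[[[],[],[]],[[],[],
[]],[[],[],[]],[[]],[[]]]],[[[[[692597817344]],[[86169944064]],[]],[[],[]],[[[4956526544896]],[],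
[[61986058805568]]],[[[624936091648]],[],[[7199038406656]]],[[],[],[]]],[[[[103760920576]],
[[12970115072]],[]],[[],[]],[[[693705641984]],[],[[7164410201600]]],[[[86046310400]],[],
[[758096338944]]],[[],[],[]]],[[[],[]],[[],[]],[[],[],[]],[[],[],[]],[]],[[],[[[10839662592]],
[[1]],[]],[[[1757478912]],[[962107543552]],[]],[[[235929600]],[[111816115200]],[]],[[],[],[]]],
[[],[[],[],[]],[[],[]],[[],[],[]],[]],[[],[[],[],[]],[[]],[[]],[]],[[],[[],[[25165824]],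
[[2359296]]],[[],[],[]],[[[185597952]],[],[[1612840960]]],[[[29392896]],[],[[12952272896]]]]],
[[[[],[]],[[],[]],[[],[],[]],[[],[],[]],[[],[],[]]],[[],[],[],[]],[[[],[]],[],[[],[],[]],[[],[],
[]]],[[[],[]],[],[[],[],[]],[[],[],[]],[]],[[[],[],[]],[[],[],[]],[],[[],[]]],[[[],[],[]],[[],[],
[]],[]],[[[],[],[]],[],[],[[],[]],[[],[]]]],[[[[[6615055106048]],[[618525892608]],[]],
[[[624986427392]],[[86444638208]],[]],[[],[],[]],[[],[],[]],[[],[[7748530015232]],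
[[898807103488]]]],[[[],[]],[[],[]],[[],[],[]],[[],[],[]],[[],[],[]]],[[[[895568863232]],
[[112074000896]],[]],[[],[],[]],[[[103890911232]],[],[[898721927168]]],[[[9664741376]],[],
[[94489346048]]],[[],[],[]]],[[[[95038931456]],[[152592384]],[]],[[],[],[]],[[[13959708672]],[],
[[18972672]]],[[[1755316224]],[],[[152055808]]],[[]]],[[[],[],[]],[[],[],[]],[],[[]],[]],[[[],[],
[]],[[],[],[]],[],[],[]],[[[],[[11812733248]],[[1881178112]]],[[],[],[]],[[]],[[[103087737856]],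
[[168562688]],[]],[[[13960220672]],[[1214448640]]]]],[[[[],[]],[[],[]],[[],[]],[[]],[[],[],[]]],
[[],[],[],[]],[[[],[]],[],[[],[],[]],[[],[],[]],[]],[[[],[]],[],[[]],[[]]],[[[],[]],[],[[]],[[]]],
[[[]],[],[[]]],[[[],[],[]],[],[],[[]],[[]]]],[[[[[965311488000]],[],[[7181198100480]]],[[],[],[]],
[[[6065171202048]],[[760311455744]],[]],[[],[],[]],[[[44257508610048]],[],[[95296847872]]]],[[[],
[],[]],[[],[],[]],[[],[]],[[],[],[]],[[],[],[]]],[[[[7748530113024]],[],[[39996884541504]]],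
[[[968617111552]],[],[[6614256060928]]],[[],[],[]],[[],[[77984795136]],[[9748627456]]],[[],[],
[]]],[[[],[],[]],[[],[],[]],[],[[]],[]],[[[[15099756544]],[[6614256060928]],[]],[[],[],[]],
[[[103219724288]],[],[[13976473600]]],[[[625001627648]],[],[[120393302016]]],[[]]],[[[],[],[]],
[[],[],[]],[[]],[[]],[]],[[[[77984795136]],[],[[756988792832]]],[[],[],[]],[[[688353730560]],
[[120393302016]],[]],[[]],[[[29556736]],[],[[828962783232]]]]],[[[[[95164760064]],[],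
[[760311463936]]],[[],[],[]],[[[966419546112]],[[120938727936]],[]],[[],[]],[[[6606075101184]],[],
[[691591446528]]]],[[[],[],[]],[[],[],[]],[[]],[[]],[[]]],[[[[964321091584]],[],
[[5549372473856]]],[[[112352854016]],[],[[619583131648]]],[[],[],[]],[[],[[10772307968]],
[[103884718080]]],[[],[]]],[[[],[],[]],[[],[],[]],[],[],[]],[[[[27295744]],[[618476614016]],[]],
[[],[],[]],[[[9697492992]],[],[[1746929664]]],[[[86572598784]],[],[[9747828736]]],[[]]],[[[],[],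
[]],[[],[],[]],[[]],[[]]],[[[[10788032512]],[],[[120938727936]]],[[],[]],[[[103618215936]],
[[14060896256]]],[[]],[[[10772570112]],[],[[78118912000]]]]],[[[[],[],[]],[[],[],[]],[[],[],[]],
[[]],[[]]],[[]],[[[],[],[]],[],[],[[],[]],[[],[]]],[[[],[],[]],[],[],[[]],[[]]],[[[],[],[]],[],[],
[[]],[[]]],[[[]],[],[[]]],[[[]],[],[[]]]]],[[[[[],[],[]],[[],[],[]],[[],[],[]],[[],[],[]],[[]]],
[[],[[],[],[]],[[],[],[]],[[],[],[]],[[]]],[[[],[],[]],[[],[],[]],[],[[],[],[]],[[],[]]],[[[],[],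
[]],[],[],[],[]],[[[],[],[]],[],[[]],[[]],[[]]],[[[]],[],[],[],[]],[[[]],[],[],[],[]]],[[[]],[[],
[[],[],[]],[[],[],[]],[[],[],[]],[[]]],[[],[],[],[],[]],[[],[],[],[],[]],[],[[],[],[[]],[],[[]]],
[[],[],[[]],[],[[]]]],[[[[],[],[]],[[],[],[]],[[],[],[]],[[],[],[]],[[]]],[[[],[],[]],[[],[],[]],
[[],[],[]],[[],[],[]],[[]]],[[]],[[],[[],[],[]],[[]],[],[]],[],[[],[[],[]],[],[[]]],[[],[[],[]],
[],[[]]]],[[[],[[],[],[]],[[],[],[]],[[],[],[]],[[]]],[[]],[[]],[[]],[],[[[],[],[]],[[],[],[]],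
[]],[[[],[],[]],[[],[],[]],[]]],[[[[],[],[]],[[],[],[]],[],[[],[],[]],[[],[]]],[],[[[],[],[]],[[],
[],[]],[[],[],[]],[[],[],[]],[[],[],[]]],[[[],[],[]]],[[]],[[[],[],[]],[[],[],[]],[]],[[[],[],[]],
[[],[],[]],[]]],[[[[],[],[]]],[],[[[],[],[]]],[[]],[],[[]],[[]]],[[[[],[],[]],[],[[]],[[]],[[]]],
[],[[[],[],[]],[[],[],[]],[],[],[]],[[]],[[[]]],[[[],[],[]],[[],[],[]]],[[[],[],[]],[[],[],[]]]],
[[[[]]],[],[[[],[],[]]],[[]],[[]]],[[[[]]],[],[[[]]],[[]],[[]]]],[[[[[[9681780736]],[],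
[[23104000]]],[[],[],[]],[[[111809758208]],[[236200128]],[]],[[],[],[]],[[[11896094720]],[],
[[23101440]]]],[[[],[],[]],[[],[],[]],[[]],[[],[],[]],[[]]],[[[[7181587972096]],[],
[[967509819392]]],[[[619566342144]],[],[[1220739072]]],[],[[],[[1885538824]],[[185348096]]],[]],
[[[],[],[]],[],[],[[],[],[]],[]],[[[[758061727744]],[[7199046830592]],[]],[],[[[103354105856]],[],
[[897698512896]]],[[[12968788032]],[],[[1482721792]]],[]],[[[],[],[]],[],[[],[],[]],[],[]],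
[[[[120393433088]],[],[[966453116928]]],[],[[[10805067776]],[[94900486656]],[]],[],
[[[1346537984]],[],[[151785856]]]]],[[[[],[],[]],[],[],[],[]],[[[],[],[]],[[],[],[]],[[]],[[],[],
[]],[[]]],[[[],[],[]],[[],[],[]],[],[[],[],[]],[]],[[[],[],[]],[[],[],[]],[[],[],[]],[[],[],[]],
[[]]],[[],[],[[],[],[]],[[]],[]],[[[],[],[]],[],[[],[],[]],[],[]],[[],[],[[]],[],[[]]]],
[[[[[7164009709568]],[],[[963215114240]]],[[],[],[]],[[[762390536192]],[[7181466503680]],[]],[[],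
[],[]],[[[77454180352]],[],[[966384680960]]]],[[[[757006352384]],[],[[112210216448]]],[[],[],[]],
[[[78114881536]],[[758061727744]],[]],[[],[],[]],[[[11829264384]],[],[[112080289792]]]],[[[],[],
[]],[[],[],[]],[[],[],[]],[],[[],[]]],[[],[[[103628736000]],[],[[2883584]]],[[[11811434496]],[],
[[95160500224]]],[[],[],[]],[[[1746993152]],[[15032647680]],[]]],[[],[[],[],[]],[[],[],[]],[],[[],
[]]],[[],[[],[[202920192]],[[327680]]],[[],[],[]],[[[21170176]],[],[[9715081216]]],[[[2895872]],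
[],[[1486948864]]]],[[],[[],[]],[[]],[[]]]],[[[[],[],[]],[[],[],[]],[[]],[[],[],[]],[[]]],[[],[],
[],[],[]],[[[],[],[]],[],[[],[],[]],[],[[],[],[]]],[[[],[],[]],[],[[],[],[]],[],[[],[],[]]],[[[],
[],[]],[[],[],[]],[],[],[[],[]]],[[[],[],[]],[],[],[[],[]],[[],[]]],[[[],[],[]],[[],[],[]],[]]],
[[[[[824685363200]],[],[[120271732736]]],[[[77456408576]],[],[[10738991104]]],[[],[],[]],[[],
[[899812704640]],[[95160532992]]],[[],[]]],[[[],[],[]],[[],[],[]],[[],[],[]],[],[[],[]]],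
[[[[5497558302720]],[],[[623945998336]]],[[],[],[]],[[[13992722432]],[[95164695552]],[]],[[],[],
[]],[[[1751187456]],[],[[13976739840]]]],[[[[964236947456]],[],[[1751154688]]],[[],[],[]],
[[[112340336640]],[[185597952]],[]],[[]],[[[10755506176]],[],[[21070336]]]],[[[],[],[]],[[],[],
[]],[],[],[[]]],[[[],[[1746963456]],[[219152384]]],[[],[],[]],[[]],[[[10804793344]],
[[1354792960]],[]],[[[1755512832]],[[235671552]]]],[[[],[],[]],[[],[],[]],[]]],[[[[],[],[]],[[],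
[],[]],[[],[],[]],[[],[],[]],[[]]],[[]],[[[],[],[]],[],[[],[],[]],[],[[],[],[]]],[[[],[],[]],[],
[[]],[],[[]]],[[[],[],[]],[],[[]],[],[[]]],[[[],[],[]],[],[],[[]],[[]]],[[[]],[],[[]]]],
[[[[[86046146560]],[[755998670848]],[]],[[],[],[]],[[[11845238784]],[],[[111941910528]]],
[[[6649286854144]],[],[[15033978880]]],[[],[]]],[[[],[],[]],[[],[],[]],[[],[],[]],[],[[],[]]],
[[[[623946248192]],[[5549372473856]],[]],[[[27295744]],[[618476614016]],[]],[[],[],[]],[[],[],[]],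
[[],[[12986101760]],[[1623327744]]]],[[[],[],[]],[[],[],[]],[],[],[[]]],[[[[94902484992]],[],
[[689410420736]]],[[],[],[]],[[[9715056640]],[[1746929664]],[]],[[]],[[[103494451200]],[],
[[11896360960]]]],[[[[10772307968]],[],[[103763017728]]],[[],[],[]],[[[86442508288]],
[[9747828736]],[]],[[]],[[[185335808]],[],[[78118912000]]]],[[[],[],[]],[[],[],[]],[[]],[[]]]],
[[[[],[],[]],[[],[],[]],[[],[],[]],[[]],[[]]],[[]],[[[],[],[]],[],[],[[],[]],[[],[]]],[[[],[],[]],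
[],[],[[]],[[]]],[[[],[],[]],[],[],[[]],[[]]],[[[]],[],[[]]],[[[]],[],[[]]]],[[[[[13959430144]],
[],[[111943909376]]],[[],[]],[[[121068617728]],[[11812745216]],[]],[[],[]],[[[690449571840]],[],
[[77982597632]]]],[[[],[],[]],[[],[]],[[]],[[]]],[[[[85907865600]],[],[[620656861184]]],
[[[12970385408]],[],[[103354042880]]],[[],[],[]],[[],[[1218445312]],[[10772291584]]],[[],[]]],
[[[],[],[]],[[],[],[]],[]],[[[[10788298752]],[[103354042880]],[]],[[],[],[]],[[[120533909504]],[],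
[[2380032]]],[[[9663963136]],[],[[1623296000]]],[[]]],[[[],[],[]],[[],[],[]],[[]],[[]]],
[[[[1218445312]],[],[[10789068800]]],[[],[]],[[[9697492992]],[[1623296000]]],[[]],[[[1623326720]],
[],[[12936810496]]]]]]] : List (List (List (List (List (List (List (ℕ))))))))

/-- State number 7. -/
def wst7 : L ℕ 7 := (
[[[[[[[111937585152]],[],[[693654781952]]],[[]],[[[167772160]],[[1753415680]],[]],[[]],
[[[103626735616]],[],[[11896356864]]]],[[[],[]],[[]],[[]],[[]],[[]]],[[[[761333555200]],[],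
[[7189781545472]]],[[[1885503488]],[],[[761317056512]]],[[]],[[],[[169353216]],[[120527519744]]],
[[]]],[[[]],[[]],[],[[],[]],[[],[]]],[[[[111679635456]],[[825808125952]],[]],[[]],
[[[10804527104]],[],[[86442508288]]],[[[112084484096]],[],[[758079291392]]],[[],[]]],[[[]],[],[[],
[]],[],[]],[[[[184827904]],[],[[7182001143808]]],[[]],[[[7181722320896]],[[757073182720]],[]],[[],
[]],[[[623878340608]],[],[[5540516200448]]]]],[[[[],[],[]],[[]],[[]],[],[[]]],[[[],[],[]],[[]],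
[[]],[[]],[[]]],[[[]],[[]],[],[]],[[[]],[[]],[],[[],[]],[[],[]]],[[[]],[],[],[]],[[[]],[[]],[[],
[]],[[],[]],[[],[]]],[[[]],[],[[],[]],[],[]]],[[[[[964220157952]],[],[[5532599582720]]],[[]],
[[[1484881920]],[[831143555072]],[]],[[]],[[[758096596992]],[],[[7190188490752]]]],
[[[[5498365608960]],[],[[48451576414592]]],[[]],[[[831109988352]],[[7705181814784]],[]],[[]],
[[[29360128]],[],[[52778806542336]]]],[[[],[],[]],[[]],[[]],[[]],[[]]],[[[]],[[[167788544]],[],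
[[7181587972608]]],[[[111941812224]],[],[[760210784256]]],[[],[]],[[[52779797725184]],
[[4948349681664]],[]]],[[[]],[[]],[],[[],[]],[[],[]]],[[[]],[[],[[95170987008]],[[618476601344]]],
[[],[]],[[[623861579776]],[],[[5497971408896]]],[[[7164009676800]],[],[[48586835886080]]]],[[[]],
[[]],[[],[]],[[],[]],[[],[]]]],[[[[],[],[]],[[]],[[]],[[]],[[]]],[[[]],[[]],[[]],[[]],[[]]],[[[],
[]],[],[[],[]],[],[[],[],[]]],[[[]],[[],[],[]],[[],[],[]],[],[[],[],[]]],[[[]],[[],[]],[],[],[[],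
[],[]]],[[[]],[[],[],[]],[],[[],[],[]],[[],[],[]]],[[[]],[[],[],[]],[],[[],[],[]],[]]],
[[[[[7723169284096]],[],[[44255410135040]]],[[[11829248000]],[],[[6597340299264]]],[[]],[[],
[[77445758976]],[[893387014144]]],[[]]],[[[],[],[]],[[]],[],[[]],[]],[[[[61849711673344]],[],
[[351878628147200]]],[],[[[7156099383296]],[[759152795648]],[]],[],[[[831109992448]],[],
[[5514738073600]]]],[[[[112346562560]],[],[[52988136407040]]],[],[[[759203635200]],
[[120269570048]],[]],[],[[[77456408576]],[],[[828997369856]]]],[[[]],[],[],[],[[],[],[]]],[[[],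
[[623861317632]],[[7189779480576]]],[],[],[[[94629922304]],[[15133310976]],[]],[[[619566338048]],
[[86172172288]],[]]],[[[]],[],[],[[],[],[]],[]]],[[[[]],[[],[]],[[],[]],[[],[]],[[],[]]],[[[]],
[[]],[],[[],[]],[[],[]]],[[[]],[[],[],[]],[[],[],[]],[],[[],[],[]]],[[[]],[],[[],[]],[],[[],[],
[]]],[[],[],[[],[]],[],[[],[],[]]],[[[],[]],[],[[],[],[]],[[],[],[]],[[],[],[]]],[[[],[]],[],[[],
[],[]],[[],[],[]],[]]],[[[[[692664930304]],[[6606465172480]],[]],[[]],[[[86167781376]],[],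
[[687278915584]]],[[[762391052288]],[],[[6081675853824]]],[[],[]]],[[[]],[],[],[[],[]],[]],
[[[[7190586851328]],[[52848515629056]],[]],[[[762358276096]],[[77322030080]],[]],[],[],[[],
[[86436380672]],[[758112321536]]]],[[[]],[],[],[],[[],[],[]]],[[[[619617189888]],[],
[[5532331048960]]],[],[[[103622477312]],[[9680457728]],[]],[],[[[12902727680]],[],[[21037056]]]],
[[[[7190586851328]],[],[[48520280145920]]],[],[[[688270090432]],[[103486095360]],[]],[],
[[[120806440960]],[],[[185335808]]]],[[[],[]],[],[[],[],[]],[],[]]],[[[[]],[[]],[[],[]],[[],[]],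
[[],[]]],[[[]],[],[[],[]],[],[]],[[[]],[[],[],[]],[],[[],[],[]],[[],[],[]]],[[],[],[],[[],[]],[[],
[]]],[[[],[]],[],[[],[],[]],[[],[],[]],[[],[],[]]],[[],[],[[],[]],[],[[],[],[]]],[[],[],[[],[]],
[],[[],[],[]]]],[[[[[1482689536]],[],[[57246614028288]]],[[]],[[[57518203092992]],
[[6073360646144]],[]],[[],[]],[[[5549511081984]],[],[[43986924339200]]]],[[[]],[],[[],[]],[],[[],
[]]],[[[[830020796416]],[],[[457981632380928]]],[[[7739675839488]],[],[[762441121792]]],[],[[],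
[[762357743616]],[[4973716832256]]],[]],[[[]],[],[],[[],[],[]],[]],[[[[457963915444224]],
[[48521336586240]],[]],[],[[[762391040064]],[],[[95296815104]]],[[[120942755840]],[],[[3145728]]],
[]],[[[],[]],[],[[],[],[]],[],[]],[[[[39725326925824]],[],[[352436436959232]]],[],
[[[7714306558976]],[[893354262528]],[]],[],[[[830019207168]],[],[[1885536256]]]]]],[[[[[],[],[]],
[],[[]],[[]],[[]]],[[[]],[],[[]],[[]]],[[[],[],[]],[],[],[[]]],[[],[[]],[],[[],[]]],[[[]],[],[],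
[[],[]]],[[[]]],[[[]],[],[],[],[[],[]]]],[[[[],[],[]],[],[[]],[[]],[[]]],[[[],[],[]],[[]],[[]],
[[]],[[]]],[[[],[],[]],[[]],[],[[]]],[[[]],[[]],[],[[],[]],[[],[]]],[[[]],[],[],[[],[]]],[[[]],
[[]],[[],[]],[[],[]],[[],[]]],[[[]],[],[[],[]],[],[[],[]]]],[[[[],[],[]],[],[[]],[[]],[[]]],[[[],
[],[]],[],[[]],[[]],[[]]],[],[[],[],[],[],[]],[],[[[]],[[]],[[],[]],[[],[]],[[],[]]],[]],[[[[],[],
[]],[[]],[[]],[[]],[[]]],[[[],[],[]],[[]],[[]],[[]],[[]]],[[[]],[],[],[],[]],[[[]],[[],[],[]],[[],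
[],[]],[],[[],[],[]]],[[[]],[],[],[],[]],[[[]],[[],[],[]],[],[[],[],[]],[[],[],[]]],[[[]],[],[],
[],[]]],[[[[],[],[]],[],[],[[]]],[],[[]],[],[],[[]]],[[[[]],[[],[]],[[],[]],[[],[]],[[],[]]],
[[[]],[[],[]],[[],[]],[[],[]],[[],[]]],[[[]],[[],[],[]],[[],[],[]],[],[[],[],[]]],[[[]],[],[],[],
[]],[[],[],[],[],[]],[[[],[]],[],[[],[],[]],[[],[],[]],[[],[],[]]],[[[],[]],[],[],[],[]]],[[[[]],
[],[],[[],[]]],[],[[[]]],[],[],[]],[[[[]],[[]],[[],[]],[[],[]],[[],[]]],[[[]],[[]],[[],[]],[[],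
[]],[[],[]]],[[[]],[[],[],[]],[],[[],[],[]],[[],[],[]]],[[],[],[],[],[]],[[[],[]],[],[[],[],[]],
[[],[],[]],[[],[],[]]],[[],[],[],[],[]],[[],[],[],[],[]]],[[[[]],[],[],[],[[],[]]],[],[[]],[],[],
[],[[]]]],[[[[[[689376071680]],[],[[6082221049344]]],[[]],[[[86713237504]],[[12918996992]],[]],
[[]],[[[12901953536]],[],[[103351975936]]]],[[[],[],[]],[[]],[[]],[[]],[[]]],
[[[[354060192581656]],[],[[2828225278382466]]],[[[825792401408]],[],[[424446659824128]]],[[]],[[],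
[[7172735959552]],[[53124535967744]]],[[]]],[[[]],[[],[]],[[],[]],[[],[]],[[],[]]],
[[[[57449517432832]],[[424446659824128]],[]],[[]],[[[7198644174848]],[],[[44121143377920]]],
[[[53188943413248]],[],[[390344353185792]]],[[],[]]],[[[]],[[]],[[],[]],[[],[]],[[],[]]],
[[[[7172735959552]],[],[[3672510639394816]]],[[]],[[[3672506360684544]],[[390344353185792]],[]],
[[],[]],[[[458531515990016]],[],[[2841419366793216]]]]],[[[[[85905769472]],[],[[759203369344]]],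
[[]],[[[202657792]],[[77452216832]],[]],[[]],[[[103087770624]],[],[[759185825792]]]],[[[],[]],
[[]],[[]],[[]],[[]]],[[[[53052509798784]],[],[[423320977867296]]],[[[77718519808]],[],
[[39582485983232]]],[[]],[[],[[759236157440]],[[4965659574272]]],[[]]],[[[]],[[]],[],[[],[]],[[],
[]]],[[[[6090672767488]],[[39584566632640]],[]],[[]],[[[758096068608]],[],[[6597340364800]]],
[[[4982298378240]],[],[[61991478910976]]],[[],[]]],[[[]],[],[[],[]],[],[]],[[[[762424352896]],[],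
[[388712527660544]]],[[]],[[[388721126047744]],[[61991461609472]],[]],[[],[]],[[[48448322928640]],
[],[[422788403855360]]]]],[[[[],[],[]],[],[[]],[],[[]]],[[],[],[],[],[]],[[[],[],[]],[],[],[[]],
[]],[],[[[]],[],[],[[],[]],[]],[[],[],[],[],[]],[[[]],[],[],[],[[],[]]]],[[[[],[],[]],[[]],[[]],
[[]],[[]]],[[[[620674420800]],[],[[7189922120216]]],[[]],[[[86171975680]],[[762374258688]],[]],
[[]],[[[152322048]],[],[[5549104037888]]]],[[[[7199042633728]],[],[[53053667950592]]],[[],[]],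
[[[826848849920]],[[7181323864064]],[]],[[],[],[]],[[[103483967488]],[],[[39997974777856]]]],
[[[]],[[],[],[]],[[],[],[]],[],[[],[],[]]],[[[[762407026688]],[[4973985398784]],[]],
[[[78114884608]],[[759219376384]],[]],[[],[]],[[],[],[]],[[],[[12952023040]],[[120930205696]]]],
[[[]],[[],[],[]],[],[[],[],[]],[[],[],[]]],[[[[77714358272]],[],[[48724307083264]]],
[[[896642842944]],[],[[5531928561664]]],[[],[],[]],[[],[[120535973888]],[[692564021248]]],[[],[],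
[]]]],[[[[]],[[]],[],[]],[[[],[],[]],[[]],[[]],[[]],[[]]],[[[]],[],[[],[]],[],[[],[],[]]],[[[]],
[],[[],[]],[],[[],[],[]]],[[[]],[[],[]],[[],[]],[[],[]],[[],[],[]]],[[],[],[],[[],[]],[[],[]]],
[[[]],[[],[],[]],[[],[],[]],[[],[],[]],[[],[]]]],[[[[]],[[],[]],[[],[]],[[],[]],[[],[]]],[[[]],
[[[23135232]],[],[[968616333440]]],[[[15033171968]],[],[[112080355328]]],[[],[]],
[[[5549508789248]],[[830002700288]],[]]],[[[]],[[],[],[]],[[],[],[]],[],[[],[],[]]],
[[[[15134359552]],[],[[5497960956928]]],[[],[]],[[[6056182876672]],[[964237205504]],[]],[],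
[[[692613828672]],[],[[6622850154496]]]],[[[[86169911296]],[],[[830019739648]]],[[],[]],
[[[965328781504]],[[112483010560]],[]],[],[[[1212189696]],[],[[201588736]]]],[[[],[]],[],[[],[],
[]],[[],[],[]],[[],[],[]]],[[[[48724341436416]],[[7723028742144]],[]],[[],[],[]],[[[95166694944]],
[],[[623929204736]]],[[[14009516032]],[],[[1753219072]]],[]]],[[[],[],[],[]],[[[]],[[]],[],[[],
[]],[[],[]]],[[],[[],[]],[],[],[[],[],[]]],[[],[[],[]],[[],[]],[[],[]],[[],[],[]]],[[],[],[[],[]],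
[],[[],[],[]]],[[],[],[[],[]],[],[[],[],[]]],[[],[[],[],[]],[[],[],[]],[[],[],[]],[[],[],[]]]],
[[[[]],[[]],[[],[]],[[],[]],[[],[]]],[[[]],[[],[[14009770112]],[[103219726848]]],[[],[]],
[[[103626704384]],[],[[621798768640]]],[[[967493029888]],[],[[7198778425344]]]],[[[]],[[],[],[]],
[],[[],[],[]],[[],[],[]]],[[[],[[103492421120]],[[967526060032]]],[[],[],[]],[[],[]],
[[[44255394947456]],[[6606473592832]],[]],[[[388136735735808]],[[61851857592320]],[]]],[[[],[]],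
[],[[],[],[]],[[],[],[]],[[],[],[]]],[[[[967526580224]],[],[[7199179079680]]],[[],[],[]],
[[[6631840549384]],[[619566342144]],[]],[],[[[11846287360]],[],[[1747025920]]]],
[[[[5549368311808]],[],[[53195351531520]]],[[],[],[]],[[[61920628969536]],[[7173134452736]],[]],
[[],[],[]],[[[77712198656]],[],[[9765650432]]]]],[[[[]],[],[[],[]],[],[]],[[[]],[[]],[[],[]],[[],
[]],[[],[]]],[[[]],[[],[],[]],[],[[],[],[]],[]],[[],[[],[],[]],[[],[],[]],[[],[],[]],[[],[]]],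
[[[],[]],[],[[],[],[]],[[],[],[]],[]],[[],[[],[],[]],[[],[],[]],[[],[],[]],[[],[],[]]],[[],[],[[],
[]],[],[[],[],[]]]]],[[[[],[],[[]]],[[],[],[[]],[[]],[]],[[],[],[],[]],[[],[],[],[]],[[[]]],[[[]],
[],[],[],[]],[[[]],[],[],[],[]]],[[[],[],[[]]],[],[[],[],[],[]],[],[],[],[[[]],[],[],[],[]]],[[[],
[],[[]]],[],[[],[],[],[]],[],[],[],[[],[],[],[],[]]],[[[[]],[[]],[[]],[[]],[[]]],[[[]],[[]],[[]],
[[]],[[]]],[[[]],[],[],[],[]],[],[[],[],[],[]],[],[[[]],[],[],[],[]]],[[[],[],[],[]],[[],[],[],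
[]]],[[[[]],[[]],[],[[],[]],[[],[]]],[[[]],[[]],[],[[],[]],[[],[]]],[],[[[]],[],[],[],[]],[[],[],
[],[]],[],[[[],[]],[],[],[],[]]],[[[[]]],[[[]]]],[[[[]],[],[[],[]],[],[]],[[[]],[],[[],[]],[],[]],
[],[[],[],[]],[],[[],[],[],[]],[[],[],[],[]]],[[[],[],[],[],[]],[[],[],[],[],[]]]],
[[[[[[1344471040]],[],[[692564262912]]],[[]],[[[9714294784]],[[103087770624]],[]],[[]],
[[[86170043904]],[],[[897649487872]]]],[[[[52849674301824]],[],[[423320977867296]]],[[]],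
[[[6091069030400]],[[39582485983232]],[]],[[]],[[[759236157440]],[],[[388720452861952]]]],[[[],[],
[]],[[]],[[]],[[]],[[]]],[[[]],[[[86446704128]],[],[[43984761147776]]],[[[761284263936]],[],
[[6597340364800]]],[[],[]],[[[388720578691072]],[[61991478910976]],[]]],[[[]],[[]],[],[[],[]],[[],
[]]],[[[]],[[],[[967459229952]],[[5549234127872]]],[[],[]],[[[5523466551296]],[],
[[57523672993792]]],[[[48659933691904]],[],[[422788403855360]]]],[[[]],[[]],[[],[]],[[],[]],[[],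
[]]]],[[[[],[],[]],[],[[]],[],[[]]],[[],[],[],[],[]],[[[],[],[]],[],[],[[]],[]],[],[[[]],[],[],
[[],[]],[]],[[],[],[],[],[]],[[[]],[],[],[],[[],[]]]],[[[[[13959430144]],[],[[77720453120]]],[[]],
[[[1753415680]],[[759236677632]],[]],[[]],[[[898756247552]],[],[[5515285364736]]]],[[[],[]],[[]],
[[]],[[]],[[]]],[[[[5506424997376]],[],[[44054653968512]]],[[[12970123264]],[],[[6597877205504]]],
[[]],[[],[[112476553728]],[[831127830528]]],[[]]],[[[]],[[]],[],[[],[]],[[],[]]],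
[[[[899796713472]],[[6597877205504]],[]],[[]],[[[111805628416]],[],[[687262941184]]],
[[[826781466624]],[],[[6073633406976]]],[[],[]]],[[[]],[],[[],[]]],[[[[112476553728]],[],
[[57521473605632]]],[[]],[[[57521524707328]],[[6073633406976]],[]],[[],[]],[[[7181994819584]],[],
[[44256518488064]]]]],[[[[[7190056304640]],[],[[53054708137984]]],[[]],[[[762357743616]],
[[4973840564224]],[]],[[]],[[[1346568192]],[],[[48723199524864]]]],[[[]],[[]],[[]],[[]],[[]]],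
[[[[48450519961600]],[],[[387595437737472]]],[[[77588430848]],[],[[15066746880]]],[[],[],[]],[[],
[[962157346816]],[[5515014897664]]],[[],[],[]]],[[[]],[],[],[[],[],[]],[]],[[[[6597883559936]],
[[61987200450560]],[]],[[],[],[]],[[[12969058304]],[],[[29556736]]],[[[112476618752]],[],
[[168820736]]],[[],[],[]]],[[[]],[[],[]],[[],[],[]],[],[[],[],[]]],[[[[830104408064]],[],
[[422805988474880]]],[[],[],[]],[[[1883341312]],[[151257088]],[]],[[],[],[]],[[[623945732096]],[],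
[[1489108992]]]]],[[[[],[],[]],[[]],[],[[]],[]],[[[]],[[]],[],[]],[[[],[],[]],[[],[],[]],[],[[],
[],[]],[]],[[[],[]],[[],[],[]],[],[[],[],[]],[]],[[[]],[[],[],[]],[],[[],[],[]],[]],[[[]],[[],[],
[]],[[],[],[]],[],[]],[[[]],[[],[],[]],[],[],[[],[],[]]]],[[[[]],[[[202395648]],[],
[[5515283301376]]],[[[86304096256]],[],[[830019207168]]],[[],[]],[[[48723184320512]],
[[7722630217728]],[]]],[[[]],[[]],[],[[],[]],[[],[]]],[[[]],[],[],[[],[],[]],[]],
[[[[112485040128]],[],[[57524712902656]]],[[[962123280384]],[],[[103482065920]]],[[],[],[]],[[],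
[[94499897344]],[[619549298688]]],[[],[],[]]],[[[[826815807488]],[],[[6073889161216]]],
[[[112474491904]],[],[[3428352]]],[[],[],[]],[[],[[15082721280]],[[]]],[[],[],[]]],[[[],[]]],
[[[[422805848031232]],[[39719874351104]],[]],[[[9698279488]],[[25198592]],[]],[[],[],[]],[[],[],
[]],[[],[[103884718592]],[[185335808]]]]],[[[[]],[],[],[[],[]],[]],[[],[],[],[]],[[[]],[],[[],[],
[]],[[],[],[]],[]],[[[]],[[],[],[]],[],[[],[],[]],[]],[[[],[]],[[],[],[]],[],[[],[],[]],[]],[[[],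
[]],[[],[],[]],[],[[],[],[]],[]],[[[],[]],[[],[],[]],[],[],[[],[],[]]]],[[[[]],[[],
[[103622378496]],[[968532951040]]],[[],[]],[[[967509803008]],[],[[7199183110144]]],
[[[5549510885376]],[],[[53193237594112]]]],[[[]],[],[[],[]],[],[]],[[[]],[[],[]],[[],[],[]],[],
[[],[],[]]],[[[],[[623945998336]],[[7164542320640]]],[[],[[6614262319616]],[[61710174519296]]],
[[],[[622855462912]],[[7181728645120]]],[[],[],[]],[[],[],[]]],[[[],[]]],[[[[7181728546816]],[],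
[[44259689385984]]],[[[619549053056]],[],[[18939904]]],[[],[],[]],[[],[[103628736000]],[[]]],[[],
[],[]]],[[[[52988152381440]],[],[[388153649299456]]],[[[7173409276928]],[],[[218386432]]],[[],[],
[]],[[],[[967526604800]],[[1212186624]]],[[],[],[]]]],[[[[]],[],[[],[]],[],[[],[]]],[[[]],[],[[],
[]],[],[]],[[[]],[],[[],[],[]],[],[[],[],[]]],[[[]],[[],[],[]],[],[],[[],[],[]]],[[[],[]],[[],[],
[]],[],[],[[],[],[]]],[[[],[]],[[],[],[]],[],[],[[],[],[]]],[[[],[]],[[],[],[]],[],[[],[],[]],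
[]]]],[[[[[],[],[]],[[]],[[]],[[]],[[]]],[[[],[],[]],[[]],[[]],[[]],[[]]],[[[],[],[]],[],[[],[]],
[],[[],[],[]]],[[[]],[[],[],[]],[[],[],[]],[],[[],[],[]]],[[[]],[[],[]],[],[],[[],[],[]]],[[[]],
[[],[],[]],[],[[],[],[]],[[],[],[]]],[[[]],[[],[],[]],[],[[],[],[]],[]]],[[[],[],[],[]],[[[],[],
[]],[[]],[[]],[[]],[[]]],[[[],[]],[[],[]],[[],[]],[[]],[[],[],[]]],[[[]],[[],[]],[],[],[[],[],
[]]],[[[]],[[],[]],[],[],[[],[],[]]],[[],[[]],[],[],[[],[]]],[[[]],[[],[],[]],[[],[],[]],[[],[],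
[]],[[],[]]]],[[[[],[],[]],[[]],[[]],[[]],[[]]],[[[],[],[]],[[]],[[]],[[]],[[]]],[[[]],[[],[],[]],
[[],[]],[[],[],[]],[[],[],[]]],[[]],[[[]],[[],[]],[[],[],[]],[[],[],[]],[[],[],[]]],[[]],[[[]],
[[],[],[]],[[],[],[]],[[],[],[]],[[],[],[]]]],[[[[],[],[]],[[]],[[]],[[]],[[]]],[[],[],[],[]],
[[[],[],[]],[[],[],[]],[],[[],[],[]],[]],[[[]]],[[[]],[],[],[[],[],[]],[]],[[]],[[[]],[],[[],[],
[]],[],[[],[],[]]]],[[[[],[],[]],[[],[]],[[],[]],[[]]],[[]],[[[],[],[]],[],[],[[],[]]],[[[],[]],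
[],[],[[]]],[[[],[]],[],[],[[]]],[[[]],[],[[]]],[[[],[],[]]]],[[[[]],[[],[],[]],[[],[],[]],[],[[],
[],[]]],[[]],[[[]],[[],[],[]],[[],[],[]],[[],[],[]],[[],[],[]]],[[[],[],[]],[[],[],[]],[],[[]]],
[[[],[],[]],[[],[],[]],[],[[]]],[[]],[[[],[],[]],[[],[],[]],[],[],[[]]]],[[[[]]],[],[[[]]],[[[],
[]]],[[]],[[]],[[[],[],[]]]],[[[[]],[[],[],[]],[],[[],[],[]],[[],[],[]]],[[]],[[[]],[[],[],[]],
[[],[],[]],[[],[],[]],[[],[],[]]],[[[],[],[]],[[],[],[]],[[]],[[]],[[]]],[[]],[[[],[],[]],[[],[],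
[]],[[]],[[]],[[]]],[[[],[],[]],[[],[],[]],[[]],[[]],[[]]]],[[[[]],[[],[],[]],[[],[],[]],[[],[],
[]],[[],[]]],[[]],[[[]],[],[],[],[[],[],[]]],[[[],[],[]],[],[],[],[[]]],[[[],[],[]],[],[],[],
[[]]],[[[],[],[]],[],[],[],[[]]],[[[],[]],[],[],[[]]]]],[[[[[[9698816064]],[],[[7189922120216]]],
[[[23166976]],[],[[762374258688]]],[[]],[[],[[152322048]],[[1744896000]]],[[]]],[[[],[],[]],[[]],
[[]],[[]],[[]]],[[[[460713093040128]],[],[[3677110515290432]]],[],[[[168300544]],[[103483967488]],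
[]],[],[[[6056180744704]],[],[[898740281344]]]],[[[[761333547008]],[],[[388712265482240]]],[],
[[[77986859008]],[[10770993152]],[]],[],[[[968565469248]],[],[[120930205696]]]],[[[]],[],[],[],
[[],[],[]]],[[[],[[5506953510912]],[[48450520219648]]],[],[],[[[762374258880]],[[120535973888]],
[]],[[[4973846923776]],[[692564021248]],[]]],[[[]],[],[],[[],[],[]],[]]],[[[[]],[[]],[],[]],[[[],
[],[]],[[]],[[]],[[]],[[]]],[[[]],[],[[],[]],[],[[],[],[]]],[[[]],[],[[],[]],[],[[],[],[]]],[[[]],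
[[],[]],[[],[]],[[],[]],[[],[],[]]],[[],[],[],[[],[]],[[],[]]],[[[]],[[],[],[]],[[],[],[]],[[],[],
[]],[[],[]]]],[[[[[457955721873408]],[],[[3676839915815232]]],[[[758096068608]],[],
[[388703675547648]]],[[]],[[],[[5549638942720]],[[48726471868416]]],[[]]],[[[[48519222661120]],[],
[[387595437737472]]],[[[120804540416]],[],[[61987200450560]]],[[]],[[],[[830104408064]],
[[7723035066368]]],[[]]],[[[]],[[],[],[]],[[],[]],[[],[],[]],[[],[],[]]],[[[]],[[],[],[]],[[],[]],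
[[],[],[]],[[],[],[]]],[[],[[[1891794944]],[[14027337728]],[]],[[[185348096]],[[29556736]],[]],
[[[1883341312]],[[151257088]],[]],[[],[],[]]],[[],[[],[],[]],[[],[],[]],[[],[]],[[],[]]],[[],
[[[893405102080]],[],[[77580009472]]],[[[95164694528]],[],[[201588736]]],[[],[],[]],
[[[12969074688]],[[1489108992]],[]]]],[[[[],[],[]],[[]],[[]],[[]],[[]]],[[[]],[[]],[],[]],[[[],[],
[]],[[],[],[]],[],[[],[],[]],[]],[[[],[]],[[],[],[]],[],[[],[],[]],[]],[[[]],[[],[],[]],[],[[],[],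
[]],[]],[[[]],[[],[],[]],[[],[],[]],[],[]],[[[]],[[],[],[]],[],[],[[],[],[]]]],
[[[[[39862665764864]],[],[[460721146234880]]],[[],[],[]],[[[7164813017088]],[[39724186075136]],
[]],[[],[],[]],[[[896675885056]],[],[[388171366039552]]]],[[[],[],[]],[[],[],[]],[[],[]],[[],[],
[]],[[],[],[]]],[[[[352394147891712]],[],[[2836814088650816]]],[[[761334358016]],[],
[[85903641088]]],[[],[],[]],[[],[[6606337147392]],[[61852965421056]]],[[],[],[]]],[[[],[],[]],[[],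
[],[]],[],[[]],[]],[[[[10754211840]],[[85903641088]],[]],[[],[],[]],[[[86583083008]],[],
[[12919508992]]],[[[761317556224]],[],[[120538071040]]],[[]]],[[[],[],[]],[[],[],[]],[[]],[[]],
[[]]],[[[[6606337147392]],[],[[968616071168]]],[[],[],[]],[[[830020534272]],[[120538071040]],[]],
[[]],[[[5532052291584]],[],[[830053027840]]]]],[[[[[86570631168]],[],[[48518165438464]]],[[],[],
[]],[[[39723113930752]],[[5532595388416]],[]],[[],[],[]],[[[6065043375616]],[],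
[[61847631036416]]]],[[[],[]],[[],[],[]],[[],[]],[[],[],[]],[[],[],[]]],[[[[826799050752]],[],
[[422814175889920]]],[[[5532320628736]],[],[[962174935040]]],[[],[],[]],[[],[[620624367616]],
[[7156088897536]]],[[],[],[]]],[[[],[],[]],[[],[],[]],[],[[]],[]],[[[[103079412224]],
[[9665011712]],[]],[[],[],[]],[[[758112862208]],[],[[1747058688]]],[[[120808570880]],[],
[[152305664]]],[[]]],[[[],[],[]],[[],[],[]],[],[],[]],[[[[624919056768]],[],[[94902452224]]],[[],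
[],[]],[[[103494551040]],[[152571904]],[]],[[]],[[[826865352704]],[],[[1220742144]]]]],[[[[]],[[],
[]],[[],[]],[[],[]],[[],[],[]]],[[],[],[],[]],[[[]],[[],[],[]],[],[[],[],[]],[]],[[[],[]],[],[[]],
[[]]],[[[],[]],[],[[]],[[]]],[[[],[]],[],[[]],[[]]],[[[],[],[]],[],[[]],[],[[]]]],[[[[],
[[968516698112]],[[5532457041920]]],[[],[],[]],[[],[],[]],[[[389253288787968]],[[61642496278528]],
[]],[[[2533691470905344]],[[351853122486272]],[]]],[[[]],[[],[],[]],[[],[],[]],[[],[]],[[],[]]],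
[[[],[[7198642080256]],[[53191124197376]]],[[],[[61646739357696]],[[351844134027264]]],[[],
[[7164018032640]],[[52783034408960]]],[[],[],[]],[[],[],[]]],[[[],[],[]],[[],[],[]],[[]],[[]],
[[]]],[[[],[],[]],[[],[],[]],[],[],[]],[[[[894461018432]],[[95030378496]],[]],[[],[],[]],
[[[5506687110144]],[],[[9732374528]]],[[[826781728768]],[],[[1482688512]]],[[]]],
[[[[6614788770304]],[[618492616704]],[]],[[],[],[]],[[[48450554322944]],[],[[29360128]]],
[[[7714302427136]],[],[[14010310656]]],[[]]]],[[[[]],[[],[],[]],[[],[],[]],[[],[],[]],[[],[]]],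
[[],[],[],[],[]],[[[]],[[],[],[]],[],[],[[],[],[]]],[[[],[],[]],[],[[]],[],[[]]],[[[],[],[]],[],
[[]],[],[[]]],[[[],[],[]],[],[[]],[],[[]]],[[[],[]],[],[[]],[[]]]]],[[[[[]],[[],[]],[[],[]],[[],
[]],[[],[]]],[[],[[],[]],[[],[]],[[],[]],[[],[]]],[[[]],[[],[],[]],[[],[],[]],[],[[],[],[]]],[[],
[],[],[],[]],[[],[],[],[],[]],[[[],[]],[],[[],[],[]],[[],[],[]],[[],[],[]]],[[],[],[],[],[]]],
[[[],[],[],[]],[[],[],[],[],[]],[[],[],[],[],[]],[[[]],[],[[],[]],[],[[],[],[]]],[[],[],[],[],[]],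
[[],[],[],[],[]],[[[],[]],[],[[],[],[]],[[],[],[]],[]]],[[[[]],[[]],[],[[],[]],[[],[]]],[[[]],
[[]],[],[[],[]],[[],[]]],[[]],[[[]],[[],[],[]],[],[[],[],[]],[]],[[],[[],[],[]],[],[[],[],[]],[]],
[[]],[[[],[]],[[],[],[]],[],[],[[],[],[]]]],[[[],[],[],[],[]],[[],[],[],[]],[[]],[[[]],[[],[],[]],
[],[[],[],[]]],[[]],[[]],[[[],[]],[[],[],[]],[],[],[[],[],[]]]],[[[[]],[[],[],[]],[[],[],[]],[],
[[],[],[]]],[],[[[]],[[],[],[]],[[],[],[]],[[],[],[]],[[],[],[]]],[[[],[],[]],[[],[],[]],[]],[[[],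
[],[]]],[[]],[[[],[],[]],[[],[],[]],[],[]]],[[[]],[],[[]],[[]],[[]],[[]],[[]]],[[[]],[],[[]],[[]],
[[]],[[]],[[]]],[[[[],[]],[],[[],[],[]],[[],[],[]],[[],[],[]]],[],[[[],[]],[[],[],[]],[[],[],[]],
[[],[],[]],[[],[],[]]],[[]],[[[],[],[]],[[],[],[]],[],[]],[[[],[],[]]],[[[],[],[]],[[],[],[]],[],
[],[]]],[[],[],[[]],[[]],[[]],[[]],[[]]]],[[[[[[86440610816]],[[759186088000]],[]],[[]],
[[[184565760]],[],[[112080355328]]],[[[1484849664]],[],[[830002700288]]],[[],[]]],[[[]],[[]],[],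
[[],[]],[[],[]]],[[[[44189862871040]],[[388703266669056]],[]],[[[95162630144]],[[625001652480]],
[]],[],[],[[],[[897682259968]],[[6622850154496]]]],[[[]],[],[],[],[[],[],[]]],[[[[5541321506816]],
[],[[57519309848576]]],[],[[[10754482240]],[[1212189696]],[]],[],[[[95162565120]],[],
[[185614336]]]],[[[[48385055547392]],[],[[422797121847296]]],[],[[[95166694944]],[[14009516032]],
[]],[],[[[623929204736]],[],[[1476591616]]]],[[[],[]],[],[[],[],[]],[],[]]],[[[],[],[],[]],[[[]],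
[[]],[],[[],[]],[[],[]]],[[],[[],[]],[],[],[[],[],[]]],[[[]],[[],[]],[[],[]],[[],[]],[[],[],[]]],
[[],[],[[],[]],[],[[],[],[]]],[[],[],[[],[]],[],[[],[],[]]],[[[],[]],[[],[],[]],[[],[],[]],[[],[],
[]],[[],[],[]]]],[[[[[44187799539712]],[[388695089939968]],[]],[[]],[[[5524141637632]],[],
[[57522515083264]]],[[[48653441445888]],[],[[422805179105280]]],[[],[]]],[[[[6649158959104]],
[[61988224385024]],[]],[[]],[[[831092961280]],[],[[6073889161216]]],[[[7705980832256]],[],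
[[39719874351104]]],[[],[]]],[[[]],[[],[]],[[],[],[]],[[],[],[]],[[],[],[]]],[[],[[[13959430144]],
[[103482065920]],[]],[[[1478525952]],[[3428352]],[]],[[[9698279488]],[[25198592]],[]],[[],[],[]]],
[[],[[],[],[]],[[],[]],[[],[],[]],[[],[],[]]],[[],[[],[],[]],[[],[]],[[],[],[]],[[],[],[]]],[[],
[[],[[120265408512]],[[689342783488]]],[[],[],[]],[[[14059315200]],[],[[327680]]],
[[[103884718592]],[],[[150994944]]]]],[[[[]],[[]],[],[[],[]],[[],[]]],[[],[],[],[]],[[[]],[],[[],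
[],[]],[[],[],[]],[]],[[[]],[[],[],[]],[],[[],[],[]],[]],[[[],[]],[[],[],[]],[],[[],[],[]],[]],
[[[],[]],[[],[],[]],[],[[],[],[]],[]],[[[],[]],[[],[],[]],[],[],[[],[],[]]]],[[[[[5506964062208]],
[[48452668248064]],[]],[[[757072928768]],[[5523734824448]],[]],[[],[],[]],[[],[],[]],[[],
[[111809789952]],[[826816069632]]]],[[[]],[[],[]],[[],[],[]],[[],[],[]],[[],[],[]]],
[[[[57524745936896]],[[422814175889920]],[]],[[],[],[]],[[[112218606080]],[],[[10738225152]]],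
[[[624919056768]],[],[[94902452224]]],[[],[],[]]],[[[[103352041472]],[[962174935040]],[]],[[],[],
[]],[[[13975945216]],[],[[1747058688]]],[[[103085539328]],[],[[152571904]]],[[]]],[[[],[],[]],[[],
[],[]],[],[[]],[]],[[[],[],[]],[[],[],[]],[[]],[[]],[[]]],[[[],[[691491057664]],
[[6064900833280]]],[[],[],[]],[[]],[[[103349846016]],[[168558592]],[]],[[[964254236672]],
[[1220742144]],[]]]],[[[[]],[[],[]],[[],[]],[[],[]],[[],[],[]]],[[],[],[],[]],[[[]],[[],[],[]],[],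
[[],[],[]],[]],[[[],[]],[],[[]],[[]]],[[[],[]],[],[[]],[[]]],[[[],[]],[],[[]],[[]]],[[[],[],[]],
[],[[]],[],[[]]]],[[[[[962157871104]],[],[[7181327925248]]],[[],[],[]],[[[6631710526464]],
[[619616948224]],[]],[[],[],[]],[[[11862544384]],[],[[1220640768]]]],[[[],[]],[[],[],[]],[[],[]],
[[],[],[]],[[],[],[]]],[[[[7164412329984]],[],[[44259639562240]]],[[[619549319168]],[],
[[1617002496]]],[[],[],[]],[[],[[103616120832]],[[152584192]]],[[],[],[]]],[[[],[],[]],[[],[],[]],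
[],[[]],[]],[[[[12969836544]],[[1617002496]],[]],[[],[],[]],[[[111948169216]],[],[[234897408]]],
[[[11862556672]],[],[[394240]]],[[]]],[[[],[],[]],[[],[],[]],[],[],[]],[[[[103616120832]],[],
[[152584192]]],[[],[],[]],[[[9748103168]],[[394240]],[]],[[]],[[[1889697792]],[],[[3408000]]]]],
[[[[[5506563342336]],[],[[52982784983040]]],[[],[],[]],[[[61716601241664]],[[7181319536640]],[]],
[[],[],[]],[[[77590429696]],[],[[13958643712]]]],[[[],[]],[[],[],[]],[[],[]],[[],[],[]],[[],[],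
[]]],[[[[52783084744704]],[],[[388145459920896]]],[[[7181328025088]],[],[[15033171968]]],[[],[],
[]],[[],[[964236947456]],[[1744961536]]],[[],[],[]]],[[[],[],[]],[[],[],[]],[[]],[[]],[[]]],
[[[[120540234752]],[[15049424896]],[]],[[],[],[]],[[[824634781696]],[],[[18907136]]],
[[[77584203776]],[],[[185597952]]],[[]]],[[[],[],[]],[[],[],[]],[],[],[]],[[[[967442714624]],[],
[[1489141760]]],[[],[],[]],[[[111941812224]],[[185085952]],[]],[[]],[[[10838867968]],[],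
[[21070336]]]]],[[[[],[]],[[],[],[]],[[],[],[]],[[],[],[]],[[],[],[]]],[[]],[[[],[]],[[],[],[]],
[],[],[[],[],[]]],[[[],[],[]],[],[],[[]],[[]]],[[[],[],[]],[],[[]],[],[[]]],[[[],[],[]],[],[[]],
[],[[]]],[[[],[],[]],[],[[]],[],[[]]]]],[[[[[]],[[]],[[],[]],[[],[]],[[],[]]],[[[]],[[]],[[],[]],
[[],[]],[[],[]]],[[[]],[[],[],[]],[],[[],[],[]],[[],[],[]]],[[[]],[],[],[],[]],[[[],[]],[],[[],[],
[]],[[],[],[]],[[],[],[]]],[[[],[]],[],[],[],[]],[[[],[]],[],[],[],[]]],[[[],[],[]],[[[]],[[]],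
[[],[]],[[],[]],[[],[]]],[[],[],[],[],[]],[[],[],[],[[],[]],[[],[]]],[[],[],[],[],[]],[[],[],[],
[],[]],[[],[],[[],[]],[],[[],[],[]]]],[[[[]],[[]],[[],[]],[[],[]],[[],[]]],[[[]],[[]],[[],[]],[[],
[]],[[],[]]],[[]],[[],[[],[],[]],[[],[],[]],[],[]],[[]],[[],[[],[],[]],[],[[],[],[]],[]],[[],[[],
[],[]],[],[[],[],[]],[]]],[[[[]],[[]],[[],[]],[[],[]],[[],[]]],[[],[],[]],[[]],[[[]],[[],[],[]],
[[],[],[]],[]],[[]],[[]],[[[],[]],[[],[],[]],[],[[],[],[]],[]]],[[[[]],[[],[],[]],[],[[],[],[]],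
[[],[],[]]],[],[[[]],[[],[],[]],[[],[],[]],[[],[],[]],[[],[],[]]],[[[],[],[]],[[],[],[]],[],[]],
[[]],[[[],[],[]]],[[[],[],[]],[[],[],[]],[],[],[]]],[[[[]]],[],[[[]]],[[]],[[]],[[]],[[]]],[[[[],
[]],[],[[],[],[]],[[],[],[]],[[],[],[]]],[],[[[],[]],[[],[],[]],[[],[],[]],[[],[],[]],[[],[],[]]],
[[]],[[[],[],[]],[[],[],[]],[],[]],[[[],[],[]]],[[[],[],[]],[[],[],[]],[],[],[]]],[[[[],[]]],[],
[[[],[]]],[[]],[[]],[[]],[[]]],[[[[],[]]],[],[[[],[]]],[[]],[[]],[[]],[[]]]],[[[[[[15117586496]],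
[],[[5532725412864]]],[[]],[[[5549771000320]],[[830053556224]],[]],[[],[]],[[[10755768320]],[],
[[7198778425344]]]],[[[]],[[]],[[],[]],[[],[]],[[],[]]],[[[[5532199062016]],[],
[[2832484812455936]]],[[[39719942238400]],[],[[6048121424384]]],[],[[],[[6606473592832]],
[[61851857592320]]],[]],[[[]],[],[],[[],[],[]],[]],[[[[2832686625079296]],[[422805988540416]],[]],
[],[[[6631840549384]],[],[[11846287360]]],[[[619566342144]],[],[[1220739072]]],[]],[[[],[]],[],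
[[],[],[]],[],[]],[[[[352978408177664]],[],[[3663785445294080]]],[],[[[690467377536]],
[[77712198656]],[]],[],[[[6098992169472]],[],[[10805067776]]]]],[[[[]],[],[[],[]],[],[]],[[[]],
[[]],[[],[]],[[],[]],[[],[]]],[[[]],[[],[],[]],[],[[],[],[]],[]],[[[]],[[],[],[]],[[],[],[]],[[],
[],[]],[[],[]]],[[[],[]],[],[[],[],[]],[[],[],[]],[]],[[[],[]],[[],[],[]],[[],[],[]],[[],[],[]],
[[],[],[]]],[[],[],[[],[]],[],[[],[],[]]]],[[[[[5549106266112]],[],[[2832754321154048]]],[[]],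
[[[2832481623752704]],[[422814033248256]],[]],[[],[]],[[[351887343812608]],[],
[[3663989357150208]]]],[[[[831128088576]],[],[[422780073967616]]],[[]],[[[422814169531904]],
[[39722089472000]],[]],[[],[]],[[[52776574926848]],[],[[388153649299456]]]],[[[]],[[],[],[]],[[],
[],[]],[[],[],[]],[[],[],[]]],[[],[[[6614262319616]],[],[[893353222144]]],[[[619549053056]],[],
[[18939904]]],[[],[],[]],[[[94770334208]],[[218386432]],[]]],[[[],[]],[[],[],[]],[[],[],[]],[[],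
[],[]],[[],[],[]]],[[],[[],[[688319643648]],[[6056050786304]]],[[],[],[]],[[[103628736000]],[],
[[2883584]]],[[[967526604800]],[],[[1746993152]]]],[[],[[],[],[]],[[],[]],[[],[],[]],[[],[],[]]]],
[[[[]],[[]],[[],[]],[[],[]],[[],[]]],[[[]],[],[[],[]],[],[]],[[[]],[],[[],[],[]],[],[[],[],[]]],
[[[]],[[],[],[]],[],[],[[],[],[]]],[[[],[]],[[],[],[]],[],[],[[],[],[]]],[[[],[]],[[],[],[]],[],
[],[[],[],[]]],[[[],[]],[[],[],[]],[],[[],[],[]],[]]],[[[[[755998670848]],[],[[354610216697856]]],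
[[[4982566945280]],[],[[61647881523200]]],[[],[],[]],[[],[[824718917632]],[[7748802641920]]],[[],
[],[]]],[[[]],[[],[],[]],[[],[],[]],[[],[],[]],[[],[],[]]],[[[[7198642080256]],[],
[[3663714478993408]]],[[],[],[]],[[[894461018432]],[[95030378496]],[]],[[],[],[]],
[[[6047586649088]],[],[[687229390848]]]],[[[[61646739357696]],[],[[6632245395456]]],[[],[],[]],
[[[7198906318848]],[[12919250944]],[]],[[]],[[[893421092864]],[],[[29360128]]]],[[[],[],[]],[[],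
[],[]],[],[],[[]]],[[[],[[6081684176896]],[[39587854958592]]],[[],[],[]],[[]],[[[962123530240]],
[[1482688512]],[]],[[[5515555897344]],[[14010310656]],[]]],[[[],[],[]],[[],[],[]],[[]],[[]],
[[]]]],[[[[]],[[],[],[]],[[],[],[]],[[],[],[]],[[],[]]],[[],[],[],[],[]],[[[]],[[],[],[]],[],[],
[[],[],[]]],[[[],[],[]],[],[[]],[],[[]]],[[[],[],[]],[],[[]],[],[[]]],[[[],[],[]],[],[[]],[],
[[]]],[[[],[]],[],[[]],[[]]]],[[[[[354644442284032]],[[52982817751040]],[]],[[],[],[]],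
[[[690484167040]],[],[[6099524845568]]],[[[77456408576]],[],[[10738991104]]],[[],[],[]]],[[[],[]],
[[],[],[]],[[],[],[]],[[],[],[]],[[],[],[]]],[[[[3663714478743552]],[[388145459920896]],[]],
[[[120540234752]],[[15049424896]],[]],[[],[],[]],[[],[],[]],[[],[[896575221760]],[[1751187456]]]],
[[[],[],[]],[[],[],[]],[],[],[[]]],[[[[6056174619648]],[],[[13960216576]]],[[],[],[]],
[[[963215101952]],[[18907136]],[]],[[]],[[[86446702592]],[],[[235954176]]]],[[[[964236947456]],[],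
[[1751154688]]],[[],[],[]],[[[112340336640]],[[185597952]],[]],[[]],[[[10755506176]],[],
[[21070336]]]],[[[],[],[]],[[],[],[]],[],[],[]]],[[[[],[]],[[],[],[]],[[],[],[]],[[],[],[]],[[],
[],[]]],[[]],[[[],[]],[[],[],[]],[],[],[[],[],[]]],[[[],[],[]],[],[],[[]],[[]]],[[[],[],[]],[],
[[]],[],[[]]],[[[],[],[]],[],[[]],[],[[]]],[[[],[],[]],[],[[]],[],[[]]]],[[[[[61716583677952]],[],
[[457432012685312]]],[[],[],[]],[[[423913416983040]],[[39994836647936]],[]],[[],[],[]],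
[[[762424602624]],[],[[121068617728]]]],[[[],[]],[[],[],[]],[[],[]],[[],[],[]],[[],[],[]]],
[[[[460180110278656]],[],[[2819356220997632]]],[[[39994735996928]],[],[[103083409408]]],[[],[],
[]],[[],[[6623512823808]],[[12970385408]]],[[],[],[]]],[[[],[],[]],[[],[],[]],[[]],[[]],[[]]],
[[[[827889291264]],[[103083409408]],[]],[[],[],[]],[[[7190188490752]],[],[[9714016256]]],
[[[758146686976]],[],[[1612909056]]],[[]]],[[[],[],[]],[[],[],[]],[],[],[]],[[[[6623512823808]],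
[],[[10788298752]]],[[],[],[]],[[[620623585280]],[[1612909056]],[]],[[]],[[[120533909504]],[],
[[2380032]]]]]]] : List (List (List (List (List (List (List (ℕ))))))))

end Pool.Agent.Helper26.WD
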