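import Pool.Agent.Helper26.WD.AlgP

/-!
# Intermediate states of the computation for the Whitehead double
-/

namespace Pool.Agent.Helper26.WD

/-- State number 8. -/
def wst8 : L ℕ 7 := (
[[[[[[[5549641105408]],[],[[39792939380736]]],[],[[[10804527104]],[[112084484096]]],[],
[[[7181722320896]],[],[[623878340608]]]],[[[],[]],[[],[]],[[]],[[]]],[[[[3399901498335232]],[],
[[31668684198150656]]],[[[111679635456]],[],[[52982783950848]]],[[],[],[]],[[],[[620706660352]],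
[[7182001143808]]],[[],[]]],[[[],[],[]],[[],[],[]],[[]],[[]]],[[[[7748664262656]],
[[44397128065024]],[]],[[],[],[]],[[[622854406144]],[],[[5540516200448]]],[[[7173279121408]],[],
[[48379653783552]]],[[]]],[[[],[],[]],[[],[],[]],[[]]],[[[[3681307838402560]],[],
[[493165874249728]]],[[],[]],[[[459638944301056]],[[48380659892224]]],[[]],[[[39726400929792]],[],
[[352978275926016]]]]],[[[[],[]],[],[[],[]],[],[[],[],[]]],[[[],[],[]],[[],[]],[[]],[[]]],[[[],[],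
[]],[[],[],[]],[[],[],[]],[[],[],[]],[]],[[[],[],[]],[[],[],[]],[[]],[[]],[[]]],[[[],[],[]],[[],
[],[]],[[]],[[]]],[[[],[],[]],[[],[],[]],[[]],[[]],[[]]],[[[],[],[]],[[],[]],[[]],[[]],[[]]]],
[[[[[61849711673344]],[],[[351878628147200]]],[],[[[7156099383296]],[[759152795648]],[]],[],
[[[831109992448]],[],[[5514738073600]]]],[[[[7723169284096]],[],[[61779951230976]]],[[],[]],
[[[53120205848576]],[[4991020630016]],[]],[[]],[[[6065177657344]],[],[[48447265701888]]]],[[[],[],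
[]]],[[],[[[61784246468608]],[],[[6597751406592]]],[[[352411197636608]],[],[[828997369856]]],[[],
[],[]],[[[48586819125248]],[[7740336373760]],[]]],[[],[[],[],[]],[[]],[],[[]]],[[],[[],
[[6064898575360]],[[39790759387136]]],[[],[],[]],[[[39863840169984]],[],[[103624638464]]],
[[[460704377339904]],[],[[967526580224]]]],[[],[[],[]],[[]],[[]]]],[[[[],[],[]],[[],[]],[[]],
[[]]],[[[],[],[]],[],[[],[]],[],[[],[],[]]],[[[],[],[]],[[]],[[],[]],[[]],[[],[],[]]],[[[],[],[]],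
[[],[],[]],[[]],[],[[]]],[[[],[]],[[],[]],[],[],[[]]],[[[],[],[]],[[],[],[]],[],[[]],[[]]],[[[],
[],[]],[[],[],[]],[],[[]],[]]],[[[[[389828692707328]],[],[[3659454995259712]]],
[[[52917286207488]],[],[[7714172469248]]],[[],[],[]],[[],[[103486193664]],[[758163439616]]],[[],
[]]],[[[],[],[]],[[],[],[]],[[]],[],[[]]],[[[[48450453135360]],[],[[492624830040064]]],[[],[]],
[[[460730268745728]],[[623929208832]],[]],[[]],[[[44121177198592]],[],[[4982980050944]]]],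
[[[[352410792886272]],[],[[48378596048896]]],[[]],[[[827888517120]],[[120661737472]],[]],[[]],
[[[390369590247936]],[],[[831094521856]]]],[[[],[],[]],[[]],[[]],[[]],[[]]],[[[],
[[39863840432128]],[[460738737078272]]],[[]],[[]],[[[457440193676288]],[[48517025103872]],[]],
[[[3395642013515776]],[[318858382606336]],[]]],[[[],[]],[[]],[[]],[[]],[[]]]],[[[[],[],[]],[[],[],
[]],[[]],[[]],[[]]],[[],[[],[],[]],[[]],[],[[]]],[[[],[],[]],[[],[],[]],[[]],[],[[]]],[[[],[],[]],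
[[]],[[]],[[]],[[]]],[[[]],[],[[]],[],[[]]],[[[]],[],[[]],[[]],[[]]],[[[]],[],[[]],[[]]]],
[[[[[61854056202240]],[[6090532194816]],[]],[[],[],[]],[[[86704848896]],[],[[758112321536]]],
[[[53054741942272]],[],[[4982575398912]]],[[]]],[[],[[],[],[]],[[]],[],[[]]],[[[[5549374767104]],
[[968617365504]],[]],[[[692664930304]],[[6606465172480]],[]],[[]],[[]],[[],[[4948081377280]],
[[57520384114688]]]],[[[],[],[]],[[]],[[]],[[]],[[]]],[[[[39657597837312]],[],[[21037056]]],[],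
[[[388685958745088]],[[830019207168]],[]],[[]],[[[687295963136]],[],[[77588463616]]]],
[[[[5506292810752]],[],[[185335808]]],[],[[[44190935306624]],[[7722753851392]],[]],[[]],
[[[4965122768896]],[],[[688285286400]]]],[[[]],[],[[]],[[]]]],[[[[],[],[]],[[],[],[]],[[]],[[]],
[[]]],[[],[[],[],[]],[],[[]],[[]]],[[[],[],[]],[[],[],[]],[],[[]],[[]]],[[[],[],[]],[[]],[[]],
[[]],[[]]],[[[]],[],[[]],[[]],[[]]],[[[]],[],[[]],[],[[]]],[[[]],[],[[]],[],[[]]]],
[[[[[6099132516864]],[],[[44398234570752]]],[[],[]],[[[53121264128000]],[[4973716832256]]],[[]],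
[[[459055506259968]],[],[[48724274315264]]]],[[],[[],[]],[[]],[[]]],[[[[44396020764672]],[],
[[6623384961024]]],[[[389261482265600]],[],[[57246614028288]]],[[]],[[],[[57314224635904]],
[[422221732446208]]],[[]]],[[[],[]],[[]],[[]],[[]],[[]]],[[[[6640432743936]],[[3145728]]],[],
[[[48791987687552]],[],[[7155818168320]]],[[[6073629147136]],[],[[619649957888]]],[[]]],[[[]],[],
[[]],[[]]],[[[[61778810126336]],[],[[1885536256]]],[],[[[495373217073664]],[[52916144570368]],[]],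
[[]],[[[48382873964544]],[],[[4982168387584]]]]]],[[[[[],[],[]],[],[[],[]],[],[[],[],[]]],[[[]],
[[],[]],[],[[]]],[[[],[],[]],[[],[],[]],[[],[],[]],[[],[],[]],[]],[[[],[],[]],[[],[],[]],[[]],
[[]]],[[[],[]],[],[[]],[[]]],[[],[],[[]]],[[[],[],[]],[],[[]],[[]],[[]]]],[[[[]],[],[],[],[]],
[[[],[],[]],[[],[]],[[]],[[]]],[[[],[],[]],[[],[],[]],[]],[[[],[],[]],[[],[],[]],[[]],[[]],[[]]],
[[[],[]],[],[[]]],[[[],[],[]],[[],[],[]],[[]],[[]],[[]]],[[[],[],[]],[],[[]]]],[[[]],[[[],[],[]],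
[[],[]]],[],[[],[[],[],[]],[[]],[],[[]]],[],[[],[[],[],[]],[],[[]],[[]]]],[[[[],[],[]],[[],[]],
[[]],[[]]],[[[],[],[]],[[],[]],[[]],[],[]],[[[],[],[]],[[],[]],[[]],[[]],[[]]],[[[],[],[]],[[],[],
[]],[[]],[],[[]]],[[[],[]],[[],[]],[[]],[],[]],[[[],[],[]],[[],[],[]],[],[[]],[[]]],[[[],[],[]],
[[],[],[]],[[]],[[]],[]]],[[[[],[],[]],[[],[],[]],[]],[],[[[],[],[]],[[],[]],[[]],[[]],[[]]],[[[],
[],[]],[],[[]],[[]],[[]]],[],[[[],[],[]],[[]],[[]],[[]],[[]]],[]],[[[[],[],[]],[[],[],[]],[[]],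
[[]],[[]]],[[],[[],[],[]],[[]],[],[[]]],[[[],[],[]],[[],[],[]],[[]],[],[[]]],[[[],[],[]],[[]],
[[]],[[]],[[]]],[[[]],[],[[]],[],[[]]],[[[]],[],[[]],[[]],[[]]],[[[]],[],[[]],[[]]]],[[[],[],
[[]]],[],[[[],[]],[[],[]],[[]],[]],[],[[[]],[],[[]],[],[[]]],[[[]],[],[[]],[],[[]]]],[[[[],[],[]],
[[],[],[]],[[]],[[]],[[]]],[[],[[],[],[]],[],[[]],[[]]],[[[],[],[]],[[],[],[]],[],[[]],[[]]],[[[],
[],[]],[[]],[[]],[[]],[[]]],[[[]],[],[[]],[[]],[[]]],[[[]],[],[[]],[],[[]]],[[[]],[],[[]],[],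
[[]]]],[[[]],[],[[[],[],[]],[[],[],[]],[[]]],[],[[[]],[],[[]],[[]]],[],[[[]],[],[[]],[],[[]]]]],
[[[[[[3958659614003328]],[],[[22626309303863344]]],[],[[[7198644174848]],[[53188943413248]]],[],
[[[3672506360684544]],[],[[458531515990016]]]],[[[],[],[]],[[],[]],[[]],[[]]],
[[[[20444869780735024]],[],[[217589091670691908]]],[[[39994803109888]],[],[[27199169160741376]]],
[[],[],[]],[[],[[460163473540608]],[[3382375951388672]]],[[],[]]],[[[],[],[]],[[],[],[]],[[]],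
[[]]],[[[[3672370985574400]],[[27199169160741376]],[]],[[],[],[]],[[[388171227463680]],[],
[[2841419366793216]]],[[[3382379154780160]],[],[[24948503491051520]]],[[]]],[[[],[],[]],[[],[],
[]],[[]]],[[[[460163473540608]],[],[[235898162483580928]]],[[],[]],[[[235876374132817920]],
[[24948503491051520]]],[[]],[[[29311915381555200]],[],[[180988828869722112]]]]],
[[[[[7199042633728]],[],[[53053667950592]]],[[],[]],[[[826848849920]],[[7181323864064]],[]],[[],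
[],[]],[[[103483967488]],[],[[39997974777856]]]],[[[],[],[]],[[],[]],[[]],[[]]],
[[[[3391035595046976]],[],[[27127743596529176]]],[[[7730949554176]],[],[[963181547520]]],[[],[],
[]],[[],[[39653285842944]],[[459081139781632]]],[[],[]]],[[[],[],[]],[[],[],[]],[[]],[[]],[[]]],
[[[[5515283302912]],[[61646841581632]],[]],[[],[],[]],[[[965344509952]],[],[[120930205696]]],
[[[6090811148800]],[],[[693672103936]]],[[]]],[[[],[],[]],[[],[],[]],[[]],[[]],[[]]],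
[[[[39582485725376]],[],[[422221598294528]]],[[],[]],[[[4973710737920]],[[692564021248]]],[[]],
[[[44188839464960]],[],[[7696856219648]]]]],[[[[]],[],[[],[]],[],[[],[],[]]],[[[]],[],[[],[]],[],
[[],[],[]]],[[[],[],[]],[[],[],[]],[[]],[],[[]]],[[],[[],[],[]],[[]],[],[[]]],[[[],[]],[[],[],[]],
[[]],[],[[]]],[[],[[],[],[]],[],[[]],[[]]],[[[],[],[]],[[],[]],[[]],[[]]]],[[[[],[],[]],[[],[]],
[[]],[[]]],[[[[39653285564736]],[],[[457990213731336]]],[[],[]],[[[7155963035648]],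
[[39657665740800]],[]],[[],[],[]],[[[44326277627904]],[],[[390378972872704]]]],
[[[[459054828750848]],[],[[3386776162410816]]],[[],[]],[[[52847492747264]],[[460738728724992]],
[]],[[],[],[]],[[[389227661593600]],[],[[2555270459056128]]]],[[[],[],[]],[[],[],[]],[[]],[],
[[]]],[[[[968549744640]],[[6099124128256]],[]],[[[6090672767488]],[[39584566632640]],[]],[[]],
[[]],[[],[[57318504419328]],[[422221866598400]]]],[[[],[],[]],[[],[],[]],[],[[]],[[]]],
[[[[389227665850880]],[],[[44393889812480]]],[[[2533555122495616]],[],[[388712527660544]]],[[]],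
[[],[[422247235911680]],[[3967041191567360]]],[[]]]],[[[[],[],[]],[[],[],[]],[[],[],[]],[[],[],
[]],[]],[[[],[],[]],[[],[],[]],[[]],[],[[]]],[[[],[],[]],[],[[],[]],[],[[],[],[]]],[[[],[],[]],[],
[[]],[[]],[[]]],[[[],[],[]],[[],[]],[[]],[[]],[[]]],[[[],[],[]],[],[[]],[[]],[[]]],[[[],[]],[[],
[],[]],[[]],[[]]]],[[[[],[],[]],[[],[],[]],[[]],[[]],[[]]],[[[],[]],[[[6081818396160]],[],
[[44399326396544]]],[[[39999082074112]],[],[[6622850154496]]],[[],[],[]],[[[389244975745536]],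
[[61574883057664]],[]]],[[[],[],[]],[[],[],[]],[[]],[],[[]]],[[[[39999098327040]],[],
[[389236379355648]]],[[],[]],[[[389820362851328]],[[61921684889600]],[]],[[]],
[[[2841281995489408]],[],[[425004743360512]]]],[[[[5549244580864]],[],[[201588736]]],[[]],
[[[61984985080192]],[[77582044160]],[]],[[]],[[[6073217974784]],[],[[619633721344]]]],[[[]],[],
[[]],[[]],[[]]],[[[[61783206535488]],[[1753219072]]],[[]],[[[317260921079816]],[],
[[760227303424]]],[[[39998041890816]],[],[[7198373773312]]],[[]]]],[[[[],[],[]],[[],[],[]],[[]],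
[[]]],[[[],[]],[[],[],[]],[],[],[[]]],[[[],[]],[[],[]],[],[],[[]]],[[[],[],[]],[[],[]],[[]],[[]],
[[]]],[[[]],[],[[]],[],[[]]],[[[]],[],[[]],[],[[]]],[[[]],[[]],[[]]]],[[[[],[],[]],[[],[],[]],
[[]],[[]],[[]]],[[[],[],[]],[[],[[689394180416]],[[6090536321024]]],[[],[],[]],[[[6047850954752]],
[],[[57244464988160]]],[[[39789669126144]],[],[[423364195942400]]]],[[[],[],[]],[[],[],[]],[],
[[]],[[]]],[[[],[[6047985238016]],[[39789751701504]]],[[],[],[]],[[]],[[[2823964620230784]],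
[[423896371232768]],[]],[[[24982055242762752]],[[3940721715585024]],[]]],[[[]],[],[[]],[[]],[[]]],
[[[[963198345408]],[],[[1747025920]]],[[]],[[[7696994634768]],[[758096068608]],[]],[[]],
[[[44189945446400]],[],[[6056048754688]]]],[[[[5531917977088]],[],[[9765650432]]],[[]],
[[[39998008332416]],[[4948207176704]],[]],[[]],[[[388136200929792]],[],[[39657598894080]]]]],
[[[[],[],[]],[[],[]],[[]],[[]],[[]]],[[[],[],[]],[[],[]],[],[[]]],[[[],[],[]],[[],[],[]],[],[[]],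
[]],[[[],[]],[[],[],[]],[[]],[[]]],[[[]],[],[[]],[[]]],[[[]],[[]],[[]]],[[[]],[],[[]],[],[[]]]]],
[[[[[],[],[]],[],[[],[]],[],[[],[],[]]],[[[],[],[]],[[],[]],[[]],[[]]],[[[],[],[]],[[],[],[]],[[],
[],[]],[[],[],[]],[]],[[[],[],[]],[[],[],[]],[[]],[[]],[[]]],[[[],[],[]],[[],[],[]],[[]],[[]]],
[[[],[],[]],[[],[],[]],[[]],[[]],[[]]],[[[],[],[]],[[],[]],[[]],[[]],[[]]]],[[[[],[]],[[],[]],[[],
[]],[[]],[[],[],[]]],[[]],[[[],[],[]],[[],[],[]],[[],[],[]],[[],[],[]],[]],[[[],[],[]],[[],[],[]],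
[[]],[[]]],[[[],[],[]],[[],[],[]],[[]],[[]]],[[[],[],[]],[[],[],[]],[[]]],[[[],[],[]],[[],[]],
[[]],[[]],[[]]]],[[[[],[],[]],[[],[]],[[],[]],[[]]],[[]],[[[],[],[]],[],[],[[],[]]],[[[],[]],[],
[],[[]]],[[[],[]],[],[],[[]]],[[[]],[],[[]]],[[[],[],[]]]],[[[[],[],[]],[[],[]],[[]],[[]]],[[[]],
[[],[],[]],[[],[]],[[],[],[]],[[],[],[]]],[[[],[],[]],[[],[],[]],[[],[]],[[],[],[]],[[],[],[]]],
[[],[]],[[[],[]],[[],[]],[[]],[[]],[[]]],[[],[]],[[[],[],[]],[[],[],[]],[[]],[[]],[[]]]],[[[[],[],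
[]],[[],[],[]],[],[[],[]]],[[[],[],[]],[[],[],[]],[],[[],[],[]],[]],[[],[],[],[]],[[],[[],[]],
[[]],[[]]],[[],[[],[]],[[]],[[]],[]],[[],[[]],[[]]],[[],[[],[],[]],[[]],[[]],[[]]]],[[[[],[],[]],
[[],[],[]],[[]],[[]],[[]]],[[[],[],[]],[[],[],[]],[],[[]]],[[],[]],[[[],[],[]],[[],[],[]],[[]],
[[]],[[]]],[[],[[]],[[]],[[]]],[[],[]],[[],[[]],[[]],[[]],[[]]]],[[[[],[]],[],[[]]],[[[],[]]],[],
[[],[[],[]]],[[],[]],[[],[]],[[],[[]]]],[[[[],[],[]],[[],[],[]],[[]],[[]],[[]]],[[[],[],[]],[[],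
[],[]],[[]],[[]],[[]]],[[],[]],[[[],[],[]],[[],[],[]],[[]],[[]],[[]]],[[],[]],[[[]],[[]],[[]],
[[]],[[]]],[[[]],[[]],[[]],[[]],[[]]]],[[[[],[],[]],[[],[]],[[]],[[]],[[]]],[[[],[],[]],[],[],[],
[[]]],[[],[]],[[],[[],[],[]],[[]],[[]],[[]]],[[],[[]],[],[],[[]]],[[],[[]],[],[],[[]]],[[],[[]],
[],[[]]]]],[[[[[[460713093040128]],[],[[3677110515290432]]],[],[[[168300544]],[[103483967488]],
[]],[],[[[6056180744704]],[],[[898740281344]]]],[[[[3386500143407168]],[],[[27127743596529176]]],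
[[],[]],[[[1489010688]],[[963181547520]],[]],[[]],[[[39653285842944]],[],[[6631836483584]]]],[[[],
[],[]],[[],[],[]],[[]],[],[[]]],[[],[[[7155688276480]],[],[[57315350028416]]],[[[52846452035584]],
[],[[120930205696]]],[[],[],[]],[[[7739667547648]],[[693672103936]],[]]],[[],[[],[],[]],[[]],[],
[[]]],[[],[[],[[43980481892736]],[[388712129168896]]],[[],[],[]],[[[388136731476992]],[],
[[827856007168]]],[[[2550871356870656]],[],[[7696856219648]]]],[[],[[],[]],[[]],[[]]]],[[[[]],[],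
[[],[]],[],[[],[],[]]],[[[]],[],[[],[]],[],[[],[],[]]],[[[],[],[]],[[],[],[]],[[]],[],[[]]],[[],
[[],[],[]],[[]],[],[[]]],[[[],[]],[[],[],[]],[[]],[],[[]]],[[],[[],[],[]],[],[[]],[[]]],[[[],[],
[]],[[],[]],[[]],[[]]]],[[[[[39862665764864]],[],[[460721146234880]]],[[],[],[]],
[[[7164813017088]],[[39724186075136]],[]],[[],[],[]],[[[896675885056]],[],[[388171366039552]]]],
[[[],[],[]],[[],[],[]],[[],[]],[[],[],[]],[[],[],[]]],[[[[352394147891712]],[],
[[2836814088650816]]],[[[761334358016]],[],[[85903641088]]],[[],[],[]],[[],[[6606337147392]],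
[[61852965421056]]],[[],[],[]]],[[[],[],[]],[[],[],[]],[],[[]],[]],[[[[10754211840]],
[[85903641088]],[]],[[],[],[]],[[[86583083008]],[],[[12919508992]]],[[[761317556224]],[],
[[120538071040]]],[[]]],[[[],[],[]],[[],[],[]],[[]],[[]],[[]]],[[[[6606337147392]],[],
[[968616071168]]],[[],[],[]],[[[830020534272]],[[120538071040]],[]],[[]],[[[5532052291584]],[],
[[830053027840]]]]],[[[[[457955721873408]],[],[[3404228745232704]]],[[],[],[]],
[[[53193169960960]],[[459613713530880]],[]],[[],[],[]],[[[387063268605952]],[],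
[[2559807034753024]]]],[[[],[],[]],[[],[],[]],[[],[]],[[],[],[]],[[],[],[]]],
[[[[3100760280420352]],[],[[24773148436169216]]],[[[4974249541632]],[],[[61712255684608]]],[[],[],
[]],[[],[[61712237879296]],[[354593041186816]]],[[],[],[]]],[[[],[],[]],[[],[],[]],[[]],[[]],
[[]]],[[[[94629953536]],[[762441637888]],[]],[[],[],[]],[[[13977006080]],[],[[120672354304]]],
[[[94489346560]],[],[[690500927488]]],[[]]],[[[],[],[]],[[],[],[]],[[]],[[]],[[]]],
[[[[61851926286336]],[],[[5549504757760]]],[[],[],[]],[[[6605659832320]],[[690516656128]],[]],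
[[]],[[[688269844480]],[],[[7731486457856]]]]],[[[[],[],[]],[[],[],[]],[[]],[],[[]]],[[[],[],[]],
[[],[],[]],[],[[],[],[]],[]],[[[],[],[]],[[],[],[]],[],[[],[],[]],[]],[[[],[],[]],[[],[],[]],[],
[[]],[]],[[[],[],[]],[[],[],[]],[],[[]],[]],[[[],[],[]],[[],[],[]],[[]],[],[]],[[[],[],[]],[[],[],
[]],[],[],[[]]]],[[[[],[],[]],[[[39928181313536]],[],[[387045277174784]]],[[[459639225417728]],[],
[[61847631036416]]],[[],[],[]],[[[2546814674812928]],[[352427836571648]],[]]],[[[],[],[]],[[],[],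
[]],[],[[]],[]],[[[],[],[]],[[],[],[]],[[]],[[]],[[]]],[[[[6606465204224]],[],[[893438414848]]],
[[[61714403446784]],[],[[425012790102528]]],[[]],[[],[[6064900833280]],[[39860568870912]]],[[]]],
[[[[758112862208]],[],[[1747058688]]],[[[77577847296]],[],[[14043602944]]],[[]],[[],
[[10770972672]],[[85911961600]]],[[]]],[[],[[]],[[]],[],[]],[[[[103494551040]],[[152571904]],[]],
[[[39719908684160]],[[112073965568]],[]],[[]],[[]],[[],[[95036738048]],[[894461034496]]]]],[[[[],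
[]],[[],[],[]],[[]],[],[[]]],[[[],[]],[],[[]],[[]]],[[[],[]],[],[[]],[[]]],[[[],[],[]],[[],[],[]],
[],[[]],[]],[[[]],[[]],[],[[]]],[[[]],[[]],[],[[]]],[[[]],[[]],[],[],[[]]]],[[[[],[],[]],[[],
[[6073218170880]],[[39861693186048]]],[[],[],[]],[[[39586713829376]],[],[[422230328737792]]],
[[[457973168275456]],[],[[3967318284828672]]]],[[[],[],[]],[[],[],[]],[[]],[[]],[[]]],[[[],[],[]],
[[],[],[]],[[]],[[]],[[]]],[[[],[[57315264827392]],[[422213276663808]]],[[],[[422762497706496]],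
[[3958658472878080]]],[[],[[39587854958592]],[[460197965529088]]],[[]],[[]]],[[],[[]],[[]],[],[]],
[[[[5506687110144]],[],[[9732374528]]],[[[963196772672]],[],[[77720453120]]],[[]],[[],
[[120536105472]],[[967543115776]]],[[]]],[[[[48450554322944]],[],[[29360128]]],[[[5497832901120]],
[],[[618526171136]]],[[]],[[],[[760227057664]],[[77579943936]]],[[]]]],[[[[],[],[]],[[],[]],[[]],
[[]]],[[[],[],[]],[],[[]],[],[[]]],[[[],[],[]],[],[[]],[],[[]]],[[[],[],[]],[[],[],[]],[],[],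
[[]]],[[[]],[[]],[],[],[[]]],[[[]],[[]],[],[],[[]]],[[[]],[[]],[],[[]]]]],[[[[[],[],[]],[[],[]],
[[]],[[]]],[[[],[],[]],[],[[],[]],[],[[],[],[]]],[[[],[],[]],[[]],[[],[]],[[]],[[],[],[]]],[[[],
[],[]],[[],[],[]],[[]],[],[[]]],[[[],[]],[[],[]],[],[],[[]]],[[[],[],[]],[[],[],[]],[],[[]],[[]]],
[[[],[],[]],[[],[],[]],[],[[]],[]]],[[[]],[[[],[]],[[],[]],[[],[]],[[]],[[],[],[]]],[[[],[],[]],
[[],[]],[[],[]],[[]],[[],[],[]]],[[[],[]],[[],[]],[],[],[[]]],[[[],[]],[[],[]],[],[],[[]]],[[[]],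
[[]],[],[],[[]]],[[[],[],[]],[[],[],[]],[[]],[[]],[[]]]],[[[[],[],[]],[[],[]],[[]],[[]]],[[[]],
[[],[],[]],[[],[]],[[],[],[]],[[],[],[]]],[[[],[],[]],[[],[],[]],[[],[]],[[],[],[]],[[],[],[]]],
[[],[]],[[[],[]],[[],[]],[[]],[[]],[[]]],[[],[]],[[[],[],[]],[[],[],[]],[[]],[[]],[[]]]],[[[[],[],
[]],[[],[]],[[],[]],[[]]],[[]],[[[],[],[]],[],[],[[],[]]],[[[],[]],[],[],[[]]],[[[],[]],[],[],
[[]]],[[[]],[],[[]]],[[[],[],[]]]],[[[[],[],[]],[[],[]],[[],[]],[[]],[[]]],[[],[],[],[]],[[[],[],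
[]],[[],[],[]],[],[[],[],[]],[]],[[[],[]],[],[],[[]]],[[[],[]],[],[],[[],[],[]],[]],[[[]],[],
[[]]],[[[],[],[]],[],[[],[],[]],[],[[],[],[]]]],[[[[],[],[]],[[],[],[]],[[]],[],[[]]],[[],[]],
[[[],[],[]],[[],[],[]],[],[[]],[]],[[[],[],[]],[[],[],[]],[[],[],[]],[[],[],[]],[[],[],[]]],[[[]],
[],[[],[],[]],[[],[]]],[[]],[[[]],[],[[],[],[]],[],[[],[]]]],[[[],[[]]],[],[[[],[]]],[[[],[]]],
[[]],[[]],[[[]]]],[[[[],[],[]],[[],[],[]],[],[[]],[[]]],[[],[]],[[[],[],[]],[[],[],[]],[[]],[[]],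
[[]]],[[[],[],[]],[[],[],[]],[[],[],[]],[[],[],[]],[[],[],[]]],[[]],[[[]],[[]],[[],[],[]],[[],[]],
[[],[]]],[[[]],[[]],[[],[],[]],[[],[]],[[],[]]]],[[[[],[],[]],[[],[],[]],[[]],[[]],[[]]],[[],[]],
[[[],[],[]],[],[],[],[[]]],[[[],[],[]],[],[],[],[[],[],[]]],[[[]],[],[],[],[[],[]]],[[[]],[],[],
[],[[],[]]],[[[]],[],[],[[],[]]]]],[[[[[[3685705885966656]],[],[[457990213731336]]],
[[[6090538385408]],[],[[39657665740800]]],[[],[],[]],[[],[[44326277627904]],[[387046090735616]]],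
[[],[]]],[[[],[],[]],[[],[],[]],[[]],[],[[]]],[[[[29415810774761472]],[],[[234196389135405056]]],
[[],[]],[[[44049186185216]],[[389227661593600]],[]],[[]],[[[389803455645184]],[],
[[2815026860666880]]]],[[[[52846402752512]],[],[[7748934731264]]],[[]],[[[389227927930368]],
[[61644659777536]],[]],[[]],[[[43984761147776]],[],[[422221866598400]]]],[[[],[],[]],[[]],[[]],
[[]],[[]]],[[[],[[388154184041472]],[[2551073134874624]]],[[]],[[]],[[[2814821759471872]],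
[[422247235911680]],[]],[[[24876485613618176]],[[3967041191567360]],[]]],[[[],[]],[[]],[[]],
[[]]]],[[[[],[],[]],[[],[],[]],[[],[],[]],[[],[],[]],[]],[[[],[],[]],[[],[],[]],[[]],[],[[]]],
[[[],[],[]],[],[[],[]],[],[[],[],[]]],[[[],[],[]],[],[[]],[[]],[[]]],[[[],[],[]],[[],[]],[[]],
[[]],[[]]],[[[],[],[]],[],[[]],[[]],[[]]],[[[],[]],[[],[],[]],[[]],[[]]]],
[[[[[29451003745042432]],[],[[234187390088138752]]],[[[53190032883712]],[],[[6606202863616]]],[[],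
[],[]],[[],[[387612611182592]],[[2559803764244480]]],[[],[]]],[[[[3100691577720832]],[],
[[24773148436169216]]],[[[4991163203584]],[],[[762441637888]]],[[],[],[]],[[],[[61851926286336]],
[[352445150560256]]],[[],[],[]]],[[[],[],[]],[[],[],[]],[[],[]],[[],[],[]],[[],[],[]]],[[[],[],
[]],[[],[],[]],[[]],[[]],[]],[[[],[],[]],[[[4999478378496]],[[57453811867648]],[]],
[[[825707479040]],[[120672354304]],[]],[[[6605659832320]],[[690516656128]],[]],[[]]],[[[],[],[]],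
[[],[],[]],[[]],[[]],[[]]],[[[],[],[]],[[[57453778063360]],[],[[319958154313728]]],
[[[120259216384]],[],[[831126765568]]],[[]],[[[57586989674496]],[[7731486457856]],[]]]],[[[[],[],
[]],[[],[],[]],[[]],[],[[]]],[[[],[],[]],[[],[],[]],[],[[],[],[]],[]],[[[],[],[]],[[],[],[]],[],
[[],[],[]],[]],[[[],[],[]],[[],[],[]],[],[[]],[]],[[[],[],[]],[[],[],[]],[],[[]],[]],[[[],[],[]],
[[],[],[]],[[]],[],[]],[[[],[],[]],[[],[],[]],[],[],[[]]]],[[[[[2551144003424256]],[],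
[[29346009100485120]]],[[],[],[]],[[[460713227386880]],[[2537950969876480]],[]],[[],[],[]],
[[[2814957033357312]],[],[[24982021019271168]]]],[[[],[],[]],[[],[],[]],[[],[]],[[],[],[]],[[],[],
[]]],[[[[22696145069278720]],[],[[180716008267317376]]],[[[48726421561344]],[],
[[423887645084160]]],[[],[],[]],[[],[[423896104960512]],[[3940859054931968]]],[[],[],[]]],[[[],[],
[]],[[],[],[]],[[]],[[],[],[]],[[],[]]],[[[[57181047111680]],[[423887645084160]],[]],[[],[],[]],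
[[[103752597504]],[],[[964255301632]]],[[[15084302336]],[],[[5541049073664]]],[[],[],[]]],[[[],[],
[]],[[],[],[]],[[],[],[]],[[]],[[],[],[]]],[[[[423896104960512]],[],[[3659383104884736]]],[[],[],
[]],[[[48447315787776]],[[5541049073664]],[]],[[],[],[]],[[[77714325504]],[],
[[61711180906496]]]]],[[[[[459638944432128]],[],[[2546538774798336]]],[[],[],[]],
[[[2537810327785472]],[[354618810925056]],[]],[[]],[[[24946853963465728]],[],
[[3940928880377856]]]],[[[],[],[]],[[],[],[]],[[]],[[]],[]],[[[[61849727676416]],[],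
[[6631437992960]]],[[[354635730747392]],[],[[3953848159846400]]],[[]],[[],[[39859495636992]],
[[459630364983296]]],[[]]],[[[],[],[]],[[],[],[]],[[]],[[],[],[]],[[],[]]],[[[[6090544843264]],
[[12969857024]],[]],[[]],[[[623877554176]],[],[[6081686306816]]],[[[94891933696]],[],
[[968616054784]]],[[],[]]],[[[]],[[]],[[],[]],[],[]],[[[[687262929024]],[],[[1487044608]]],[[]],
[[[78121172992]],[[39790758612992]],[]],[[],[]],[[[624918806528]],[],[[6606473495040]]]]],[[[[],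
[],[]],[[],[]],[[]],[[]],[[]]],[[],[[],[]],[[]],[[]],[]],[[[],[],[]],[[],[],[]],[],[[]],[]],[[[],
[]],[],[[],[],[]],[[],[],[]],[]],[[[]],[],[[],[],[]],[[],[]],[]],[[[]],[],[[],[],[]],[[],[]],[]],
[[[]],[],[[],[],[]],[],[[],[]]]],[[[[],[[39585706934272]],[[457990222118912]]],[[],[],[]],[[]],
[[[24808307176834048]],[[3958380473614336]],[]],[[[163845037393182720]],[[22553234860277760]],
[]]],[[[],[],[]],[[],[],[]],[[]],[[]],[[]]],[[[],[[422238247488000]],[[3967177640640512]]],[[],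
[[3958244074602496]],[[22555382341795840]]],[[],[[460154621526016]],[[3382444637294592]]],[[]],
[[]]],[[[],[],[]],[[],[],[]],[[],[],[]],[[]],[[],[],[]]],[[[]],[[]],[[],[]],[],[]],
[[[[44123290083584]],[[112480780288]],[]],[[]],[[[7173406982144]],[],[[43986975477760]]],
[[[690517200896]],[],[[6649022612992]]],[[],[]]],[[[[389279205427200]],[[2379776]],[]],[[]],
[[[53121296367616]],[],[[389803323523072]]],[[[5000149499904]],[],[[61641422036992]]],[[],[]]]],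
[[[[],[]],[[],[],[]],[[]],[[]],[[]]],[[],[[],[],[]],[[]],[[]],[[]]],[[[],[],[]],[[],[],[]],[],[],
[[]]],[[[],[],[]],[],[[],[],[]],[],[[],[],[]]],[[[]],[],[[],[],[]],[],[[],[]]],[[[]],[],[[],[],
[]],[],[[],[]]],[[[]],[],[[],[],[]],[[],[]],[]]]],[[[[[],[],[]],[[],[],[]],[[]],[[]],[[]]],[[],
[[],[],[]],[[]],[],[[]]],[[[],[],[]],[[],[],[]],[[]],[],[[]]],[[[],[],[]],[],[[]],[[]],[[]]],
[[[]],[],[[]],[],[[]]],[[[]],[],[[]],[[]],[[]]],[[[]],[],[[]],[[]]]],[[[]],[[],[[],[],[]],[[]],[],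
[[]]],[[],[],[],[],[]],[[[],[],[]],[],[[]],[[]],[[]]],[[],[],[[]]],[[],[],[[]]],[[[]],[],[[]],
[[]]]],[[[[],[],[]],[[],[],[]],[[]],[[]],[[]]],[[[],[],[]],[[],[],[]],[]],[],[[[],[],[]],[[],[],
[]],[[]],[[]],[[]]],[[],[[]],[[]],[[]]],[[],[]],[[],[[]],[[]],[[]],[[]]]],[[[],[[],[],[]],[[]],[],
[[]]],[[]],[[]],[[],[]],[[],[[]]],[[],[]],[[],[[]]]],[[[[],[],[]],[[],[],[]],[[]],[],[[]]],[[],
[]],[[[],[],[]],[[],[],[]],[[]],[[]],[[]]],[[[],[],[]],[[],[],[]],[[],[],[]],[[],[],[]],[[],[],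
[]]],[[[]],[[]],[[]],[[],[]],[[],[]]],[[],[],[]],[[[]],[[]],[[],[],[]],[[],[]],[[],[]]]],[[[[],[],
[]],[],[[]],[[]],[[]]],[[],[],[[]],[[]]],[[[],[],[]],[[],[],[]],[],[[]]],[[],[],[],[]],[[[]],[],
[[]]],[[[]],[],[]],[[[]],[],[[],[],[]],[],[[],[]]]],[[[[]],[],[[]],[],[[]]],[[],[]],[[],[[]]],
[[]],[[],[],[[]]],[[],[],[]],[[],[],[[],[]]]],[[[[]],[],[[]],[[]],[[]]],[[],[]],[[],[[]],[[]],[]],
[[]],[[[]],[[]],[[],[],[]],[[],[]],[[],[]]],[[[]],[],[[],[]]],[[[]],[],[[],[]],[[],[]],[]]],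
[[[[]],[],[[]],[[]]],[[],[]],[[],[[]]],[[]],[[],[],[[]]],[[],[],[[],[]]],[[],[],[]]]],
[[[[[[6047448203264]],[[39791850160192]],[]],[[],[],[]],[[[44328426160128]],[],[[6622850154496]]],
[[[390326898428928]],[],[[61574883057664]]],[[]]],[[],[[],[],[]],[[]],[],[[]]],[[[[688369451008]],
[[6082219150336]],[]],[[[390369581829120]],[[2546540905504832]],[]],[[]],[[]],[[],
[[57384002142208]],[[425004743360512]]]],[[[],[],[]],[[]],[[]],[[]],[[]]],[[[[7181328123392]],[],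
[[185614336]]],[],[[[53053584068736]],[[6073217974784]],[]],[[]],[[[86444608000]],[],
[[152305664]]]],[[[[897698500928]],[],[[1476591616]]],[],[[[317260921079816]],[[39998041890816]],
[]],[[]],[[[760227303424]],[],[[7146829840384]]]],[[[]],[],[[]],[[]]]],[[[[],[],[]],[[],[],[]],
[[]],[[]]],[[[],[]],[[],[],[]],[[]],[],[[]]],[[[],[]],[[],[]],[],[],[[]]],[[[],[],[]],[[],[]],
[[]],[[]],[[]]],[[[]],[],[[]],[],[[]]],[[[]],[],[[]],[],[[]]],[[[]],[[]],[[]],[[]]]],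
[[[[[61987116040192]],[[423312794749952]],[]],[[],[],[]],[[[6631435960320]],[],[[826816069632]]],
[[[44186674135040]],[],[[7713765523456]]],[[]]],[[[[103352041472]],[[962174935040]],[]],[[],[],
[]],[[[13975945216]],[],[[1747058688]]],[[[103085539328]],[],[[152571904]]],[[]]],[[[],[]],[[],
[]],[[]],[[]],[[]]],[[[],[],[]],[[[57386215677952]],[[425012790102528]],[]],[[[7172736092672]],
[[14043602944]],[]],[[[39719908684160]],[[112073965568]],[]],[[]]],[[],[[]],[[]],[[]],[]],[[[]],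
[[]],[[]],[[]],[[]]],[[[]],[[],[[7731754926080]],[[44055729287168]]],[[]],[[[12952010752]],[],
[[103219822592]]],[[[95036738048]],[],[[967543635968]]]]],[[[[],[]],[[],[],[]],[[]],[],[[]]],[[[],
[]],[],[[]],[[]]],[[[],[]],[],[[]],[[]]],[[[],[],[]],[[],[],[]],[],[[]],[]],[[[]],[[]],[],[[]]],
[[[]],[[]],[],[[]]],[[[]],[[]],[],[],[[]]]],[[[[[6648613765120]],[[44394963554304]],[]],
[[[44187799539712]],[[388695089939968]],[]],[[]],[[]],[[],[[316677338267648]],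
[[3681512907341824]]]],[[[],[]],[[],[]],[[]],[[]],[[]]],[[[[897748828160]],[[6631437992960]],[]],
[[],[],[]],[[[121064458240]],[],[[9714282496]]],[[[687262929024]],[],[[1487044608]]],[[]]],
[[[[424961378353152]],[[3953848159846400]],[]],[[],[],[]],[[[755965386752]],[],[[6081686306816]]],
[[[95170954752]],[],[[39790758612992]]],[[],[],[]]],[[[]],[[]],[[],[],[]],[[],[]],[[],[]]],[[[]],
[[]],[[],[],[]],[[],[]],[[],[]]],[[[],[[44053581012992]],[[387586713485312]]],[[]],[[],[],[]],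
[[[1883308032]],[[898806325248]],[]],[[[11896111104]],[[6606473495040]],[]]]],[[[[],[],[]],[[],
[]],[[]],[[]],[[]]],[[],[[],[]],[[]],[[]],[]],[[[],[],[]],[[],[],[]],[],[[]],[]],[[[],[]],[],[[],
[],[]],[[],[],[]],[]],[[[]],[],[[],[],[]],[[],[]],[]],[[[]],[],[[],[],[]],[[],[]],[]],[[[]],[],
[[],[],[]],[],[[],[]]]],[[[[[61713328390144]],[],[[1220640768]]],[[]],[[[425528595089920]],
[[761317822464]],[]],[[]],[[[44396037812224]],[],[[6056575107072]]]],[[],[[]],[[]],[[]],[]],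
[[[[111948169216]],[],[[234897408]]],[[[692664139776]],[],[[1885405184]]],[[]],[[],
[[95294720000]],[[623895130112]]],[[]]],[[[]],[[]],[[],[],[]],[[],[]],[[],[]]],
[[[[44393941192704]],[[1885405184]],[]],[[]],[[[120269733888]],[],[[44261852581888]]],
[[[620640874496]],[],[[6640562604032]]],[[],[]]],[[[]],[],[[],[]],[[],[]],[]],[[[[95294720000]],
[],[[9747574784]]],[[]],[[[152055808]],[[6640562604032]],[]],[[],[]],[[[103481969664]],[],
[[202907904]]]]],[[[[[5549636781568]],[],[[13958643712]]],[[]],[[[39725311213696]],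
[[4991561498624]],[]],[[]],[[[387037098147840]],[],[[39719909195776]]]],[[[]],[[]],[[]],[[]],
[[]]],[[[[824634781696]],[],[[18907136]]],[[[6099528844288]],[],[[15134621696]]],[[]],[[],
[[15032385536]],[[94764072960]]],[[]]],[[[]],[[]],[[],[],[]],[[],[]],[[],[]]],
[[[[387054007520256]],[[15116533760]],[]],[[]],[[[690450350080]],[],[[388153645105152]]],
[[[86570565632]],[],[[61574865760256]]],[[],[]]],[[[]],[],[[],[]],[[],[]],[]],[[[[622855479296]],
[],[[112208216064]]],[[]],[[[1755316224]],[[61783171944448]],[]],[[],[]],[[[9749147648]],[],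
[[6597751407616]]]]],[[[[]],[[]],[[]],[[]],[[]]],[[],[[]],[[]],[[]],[[]]],[[[]],[[]],[],[],[[]]],
[[[]],[],[],[[],[]],[[],[]]],[[[]],[],[[],[],[]],[],[[],[]]],[[[]],[],[[],[]],[],[[],[]]],[[[]],
[],[[],[]],[],[[],[]]]]],[[[[[],[],[]],[[],[],[]],[[]],[[]],[[]]],[[],[[],[],[]],[[]],[[]],[[]]],
[[[],[],[]],[[],[],[]],[],[[]],[[]]],[[[],[],[]],[[]],[[]],[[]],[[]]],[[[]],[],[[]],[[]],[[]]],
[[[]],[],[[]],[[]],[[]]],[[[]],[],[[]],[[]],[[]]]],[[[]],[[],[[],[],[]],[],[[]],[[]]],[[],[],[],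
[],[]],[[[],[],[]],[[]],[[]],[[]],[[]]],[[],[],[[]]],[[],[],[[]]],[[[]],[],[[]],[],[[]]]],[[[[],
[],[]],[[],[],[]],[[]],[[]],[[]]],[[[],[],[]],[[],[],[]],[],[]],[],[[[],[],[]],[[],[],[]],[[]],
[[]],[[]]],[[],[]],[[],[[]],[[]],[[]]],[[],[[]],[[]],[[]],[]]],[[[],[[],[],[]],[[]],[[]],[[]]],
[[]],[[]],[[],[[]]],[[],[]],[[],[[]]],[[],[[]]]],[[[[],[],[]],[[],[],[]],[],[[]],[[]]],[[],[]],
[[[],[],[]],[[],[],[]],[[]],[[]],[[]]],[[[],[],[]],[[],[],[]],[[],[],[]],[[],[],[]],[[],[],[]]],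
[[],[],[]],[[[]],[[]],[[]],[[],[]],[[],[]]],[[[]],[[]],[[],[],[]],[[],[]],[[],[]]]],[[[[],[],[]],
[[]],[[]],[[]],[[]]],[[],[],[[]]],[[[],[],[]],[[],[],[]],[[]],[]],[[],[],[]],[[[]],[],[]],[[[]],
[],[[]]],[[[]],[],[[],[],[]],[[],[]],[]]],[[[[]],[],[[]],[[]],[[]]],[[],[]],[[],[[]],[[]],[]],
[[]],[[[]],[[]],[[],[],[]],[[],[]],[[],[]]],[[[]],[],[[],[]]],[[[]],[],[[],[]],[[],[]],[]]],
[[[[]],[],[[]],[[]],[[]]],[[],[]],[[],[[]]],[[]],[[],[],[[],[]]],[[],[],[]],[[],[],[[],[]]]],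
[[[[]],[],[[]],[[]],[[]]],[[],[]],[[],[[]]],[[]],[[],[],[[],[]]],[[],[],[]],[[],[],[[],[]]]]],
[[[[[[619633717632]],[],[[387037096084992]]],[[],[]],[[[387612613279744]],[[61851857592320]]],
[[]],[[[2841277734326272]],[],[[423364195942400]]]],[[],[[],[]],[[]],[[]]],[[[[387630200127488]],
[],[[43986975985664]]],[[[2537882217889856]],[],[[24946870998631424]]],[[]],[[],
[[423896371232768]],[[3940721715585024]]],[[]]],[[[],[]],[[]],[[]],[[]]],[[[[39651173208256]],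
[[1220739072]]],[],[[[7696994634768]],[],[[44189945446400]]],[[[758096068608]],[],
[[5498097172480]]],[[]]],[[[]],[],[[]],[[]]],[[[[4999887259648]],[],[[10805067776]]],[],
[[[3096435265122624]],[[388136200929792]],[]],[[]],[[[5498367838720]],[],[[688285286400]]]]],
[[[[],[],[]],[[],[]],[[]],[[]],[[]]],[[[],[],[]],[[],[]],[[]],[[]]],[[[],[],[]],[[],[],[]],[],
[[]],[]],[[[],[]],[[],[],[]],[[]],[[]]],[[[]],[],[[]],[[]]],[[[]],[[]],[[]],[[]]],[[[]],[],[[]],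
[],[[]]]],[[[[[389820090188800]],[],[[3677117008064512]]],[[],[]],[[[48449395359744]],
[[7748802641920]]],[[]],[[[493182775230464]],[],[[52846453063680]]]],[[[[61646739357696]],[],
[[6632245395456]]],[[],[],[]],[[[7198906318848]],[[12919250944]],[]],[[]],[[[893421092864]],[],
[[29360128]]]],[[[],[],[]],[[],[],[]],[[]],[[]],[[]]],[[[],[],[]],[[[422762497706496]],[],
[[3685564066836480]]],[[[963196772672]],[],[[77720453120]]],[[]],[[[388179421037568]],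
[[618526171136]],[]]],[[],[[]],[[]],[[]],[[]]],[[[]],[[],[[43983704166400]],[[388720989732864]]],
[[]],[[[120536105472]],[],[[964304588800]]],[[[760227057664]],[],[[5523462291456]]]],[[[]],[[]],
[[]],[[]],[[]]]],[[[[],[],[]],[[],[]],[[]],[[]]],[[[],[],[]],[],[[]],[],[[]]],[[[],[],[]],[],[[]],
[],[[]]],[[[],[],[]],[[],[],[]],[],[],[[]]],[[[]],[[]],[],[],[[]]],[[[]],[[]],[],[],[[]]],[[[]],
[[]],[],[[]]]],[[[[[2814754080423936]],[],[[494248063500288]]],[[[24875918271053824]],[],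
[[2832754321154048]]],[[]],[[],[[3681376475021312]],[[27057358205222912]]],[[]]],[[[],[],[]],[[],
[],[]],[[]],[[]],[[]]],[[[[422238247488000]],[],[[57385075367936]]],[[],[],[]],
[[[44123290083584]],[[112480780288]],[]],[[]],[[[7748668524032]],[],[[2633728]]]],
[[[[3958244074602496]],[],[[27235453180706816]]],[[],[],[]],[[[4956933524480]],[[39585674715136]],
[]],[[],[],[]],[[[689359032320]],[],[[389803323523072]]]],[[[]],[[]],[[],[],[]],[[],[]],[[],[]]],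
[[[],[[388695356112896]],[[2542283585757184]]],[[]],[[],[],[]],[[[10771779584]],[[6649022612992]],
[]],[[[77313802240]],[[61641422036992]],[]]],[[[]],[[]],[[],[],[]],[[],[]],[[],[]]]],[[[[],[]],
[[],[],[]],[[]],[[]],[[]]],[[],[[],[],[]],[[]],[[]],[[]]],[[[],[],[]],[[],[],[]],[],[],[[]]],[[[],
[],[]],[],[[],[],[]],[],[[],[],[]]],[[[]],[],[[],[],[]],[],[[],[]]],[[[]],[],[[],[],[]],[],[[],
[]]],[[[]],[],[[],[],[]],[[],[]],[]]],[[[[[424446664017920]],[[10738991104]]],[[]],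
[[[3122824583582016]],[],[[5514880778240]]],[[[389794058403840]],[],[[39653369708544]]],[[]]],[[],
[[]],[[]],[[]],[[]]],[[[[963215101952]],[[18907136]],[]],[[[387054007520256]],[[15116533760]],[]],
[[]],[[]],[[],[[688319647744]],[[6047997755392]]]],[[[]],[[]],[[],[],[]],[[],[]],[[],[]]],
[[[[7739942111232]],[],[[14043840512]]],[[]],[[[39657665732608]],[[388153645105152]],[]],[[],[]],
[[[6091077517312]],[],[[57588012560384]]]],[[[[15032385536]],[],[[111679733760]]],[[]],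
[[[18907136]],[[61574865760256]],[]],[[],[]],[[[968565469184]],[],[[6597751407616]]]],[[[]],[],
[[],[]],[[],[]],[]]],[[[[]],[[]],[[]],[[]],[[]]],[[],[[]],[[]],[[]],[[]]],[[[]],[[]],[],[],[[]]],
[[[]],[],[],[[],[]],[[],[]]],[[[]],[],[[],[],[]],[],[[],[]]],[[[]],[],[[],[]],[],[[],[]]],[[[]],
[],[[],[]],[],[[],[]]]],[[[[[61642461425664]],[],[[121068617728]]],[[]],[[[387028900381696]],
[[48796248584192]],[]],[[]],[[[2823549115957248]],[],[[387621473812480]]]],[[[]],[[]],[[]],[[]],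
[[]]],[[[[7190188490752]],[],[[9714016256]]],[[[44399241465856]],[],[[86037856256]]],[[]],[[],
[[77454149120]],[[618509369344]]],[[]]],[[[]],[[]],[[],[],[]],[[],[]],[[],[]]],
[[[[2823958278201344]],[[86037856256]],[]],[[]],[[[7705712427008]],[],[[2819153250762752]]],
[[[895535284224]],[],[[424428672518144]]],[[],[]]],[[[]],[],[[],[]],[[],[]],[]],[[[[77454149120]],
[],[[618525622272]]],[[]],[[[236453888]],[[424428672518144]],[]],[[],[]],[[[120395401728]],[],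
[[14042792000]]]]]]] : List (List (List (List (List (List (List (ℕ))))))))

/-- State number 9. -/
def wst9 : L ℕ 7 := (
[[[[[[[1]],[[]],[[1]]],[],[[[1]],[[1]],[[]]],[],[[[1]],[[]],[[1]]]],[],[[[[1]],[[]],[[1]]],[[[1]],
[],[[1]]],[[],[],[[]]],[[],[[1]],[[1]]],[[],[[]]]],[],[[]],[],[[]]],[],[[[[[1]],[[]],[[1]]],[[],
[[]],[[]]],[[[1596633288137506816]],[[3391308357959680]],[[]]],[[[]],[[]],[[]]],
[[[15079485596920709120]],[[]],[[1589879528979693568]]]],[[[[1]],[[]],[[1]]],[[],[[]],[[]]],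
[[[253072809004105728]],[[320001378615296]],[[]]],[[[]],[[]],[[]]],[[[1592130779431927808]],[[]],
[[253354213130895360]]]]],[],[[[[[1]],[[]],[[1]]],[[[253072809004105728]],[],
[[1592130779431927808]]],[[],[],[[]]],[[],[[354618406076416]],[[253354213130895360]]],[[],[[]]]],
[],[[[[163260023102504960]],[[]],[[2028871684479614976]]],[[],[[]],[[]]],[[[24947395127148544]],
[[52989193093120]],[[]]],[[[]],[[]],[[]]],[[[235616962451886080]],[[]],[[24841867640307712]]]],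
[[],[],[[[163259956546502656]]],[[]],[[[1738531344973168640]]]],[[],[],[[]],[[]],[[[]]]],[[],[],
[[]],[[[458531526410240]]],[[[162978552421548032]]]],[[],[],[[]],[[[]]]]],[[[[],[[]],[[]]],[],
[[]],[[[]]],[[[]]]],[],[[[],[[]],[[]]],[[],[[]],[[]]]],[],[[],[],[[]]],[[],[],[[[]]]],[[],[],
[[[]]]]],[[[[[1]],[[1]],[[]]],[],[[[1734028836267360256]]],[[[3113891101933568]]],[[[]]]],[],
[[[[1734028836267360256]],[[3113891101933568]],[[]]],[[[163259956546502656]],[[493148553871360]],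
[[]]]],[],[[],[],[[[1596633288137506816]]]],[[],[],[[[3391308357959680]]]],[[],[],[[[]]]]],
[[[[[]],[[]],[[]]],[],[[[]]],[[[]]],[[[]]]],[],[[[[]],[[]],[[]]],[[[]],[[]],[[]]]],[],[[],[],
[[[]]]],[[],[],[[[]]]],[[],[],[[[]]]]],[[[[[1]],[[]],[[1]]],[],[[[11565811398320062464]]],[[[]]],
[[[1740782595439853568]]]],[],[[[[11565811398320062464]],[[]],[[1740782595439853568]]],
[[[1738531344973168640]],[[]],[[162978552421548032]]]],[],[[],[],[[[15079485596920709120]]]],[[],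
[],[[[]]]],[[],[],[[[1589879528979693568]]]]]],[],[],[[[],[]],[],[[],[],[[[],[],[[]]]]],[],[],[[],
[[[],[[]],[[]]]],[],[[],[[],[[]],[[]]],[[]],[[[]]],[[[]]]]],[[],[[[],[[]]]],[],[[],[[],[[]]],[[]],
[[[]]]]],[[],[[[[]],[[]],[[]]]],[],[[],[[[]],[[]],[[]]],[[[]]],[[[]]],[[[]]]]],[[],[[[],[],[[]]]],
[],[[],[[],[],[[]]],[[]],[[]],[[[]]]]]],[[[],[]],[],[[],[],[[[[2028871684479616000]],[],
[[11619300233880539392]]]]],[],[],[[[],[[[1]],[],[[1]]],[[]],[],[[]]],[],[],[[[[354618406076416]],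
[[]],[[11547533049408016384]]],[[[52989193093120]],[[]],[[1733957909454456320]]]],
[[[[3113891101933568]]],[[[493148553871360]]]],[[[[]]],[[[]]]],[[[[102189069757780721664]]],
[[[16195793501861449728]]]]],[[[],[[],[],[]],[],[],[[]]],[],[],[[[],[[]],[]],[[],[[]],[]]],[[[]],
[[]]],[[[[]]],[[[]]]],[[[]],[[]]]],[[[],[[],[[1]],[[1]]],[],[[]],[[]]],[],[],[[[[]],
[[217320745369354240]],[[2031336205026787328]]],[[[]],[[20303049287303680]],
[[235616962451886080]]]],[[[[]]],[[[]]]],[[[[2031266970032340992]]],[[[235599165148909568]]]],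
[[[[11565811398320062464]]],[[[1738531344973168640]]]]],[[[],[[],[]],[],[[]]],[],[],[[[[]],[],
[[]]],[[[]],[],[[]]]],[[[[]]],[[[]]]],[[[]],[[]]],[[[[]]],[[[]]]]]],[],[],[[[],[],[]],[],[[],[[[],
[[]],[[]]]],[],[[],[[],[[]],[[]]],[[]],[[[]]],[[[]]]]],[[[],[[],[],[[]]],[[]],[],[[]]],[],[],[[[],
[],[[]]],[[],[],[[]]]],[[[]],[[]]],[[[]],[[]]],[[[[]]],[[[]]]]],[],[],[[[[],[],[[]]],[],[[[]],
[[]],[]],[],[[]]],[],[[[],[],[[]]],[[],[],[[]]]],[],[[[[]],[[]],[]],[],[[],[],[[]]],[[],[],[[]]],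
[]],[[[]],[],[[],[]]],[[[[]],[],[[]]],[],[[[]],[[]]],[],[[],[],[[]]]]],[[[[[]],[[]],[[]]],[],
[[[]],[[]],[[]]],[[]],[[]]],[],[[[[]],[[]],[[]]],[[[]],[[]],[[]]]],[],[[[[]],[[]],[[]]],[],[[[]],
[[]],[[]]],[[],[],[[]]],[[],[],[[]]]],[[[[]],[],[[]]],[],[[[]],[[]]],[],[[],[],[[]]]],[[[[]],[],
[[]]],[],[[[]],[[]]],[],[[],[],[[]]]]],[[[[[]],[[]]],[],[[[]],[],[[]]],[[]]],[],[[[[]],[[]],[[]]],
[[[]],[[]],[[]]]],[],[[[[]],[],[[]]],[],[[[]],[[]],[[]]],[],[[],[],[[]]]],[[[[]],[],[[]]],[],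
[[[]],[[]]],[],[[],[],[[]]]],[[[[]],[],[[]]],[],[[[]],[[]]],[],[[],[],[[]]]]]],[[[],[],[]],[],[[],
[[[[1592130779431927808]],[[10449503493496791040]],[]]],[],[[],[[[235616962451886080]],
[[1733957909454456320]],[]],[[[1738531344973168640]]],[[[16195793501861449728]]],[[]]]],[[[],[[],
[],[]],[],[],[[]]],[],[],[[[],[[]],[]],[[],[[]],[]]],[[[]],[[]]],[[[[]]],[[[]]]],[[[]],[[]]]],[],
[],[[[[[1]],[],[[1]]],[],[[[1]],[[1]],[]],[],[[]]],[],[[[[1]],[[]],[[11584397337891700736]]],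
[[[1]],[[]],[[1742931539246776320]]]],[],[[[[1]],[[1742931539246776320]],[]],[],
[[[24841867640307712]],[[]],[[181006208404557824]]],[[],[],[[1587730525043458048]]],[]],[[[[]],[],
[[]]],[],[[[]],[[]]],[],[[],[],[[]]]],[[[[1]],[],[[15060899176430174208]]],[],
[[[15060899176430174208]],[[1587730525043458048]]],[],[[],[],[[11584397337891700736]]]]],[[[[[1]],
[],[[1]]],[],[[[1]],[[1]],[]],[],[[]]],[],[[[[1]],[[]],[[101603636973009895424]]],[[[1]],[[]],
[[16177506420072120320]]]],[],[[[[1]],[[16177506420072120320]],[]],[],[[[235616962451886080]],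
[[]],[[1587556827703279616]]],[[],[],[[10467790575166816256]]],[]],[[[[]],[],[[]]],[],[[[]],[[]]],
[],[[],[],[[]]]],[[[[1]],[],[[111558738988901597184]]],[],[[[111558738988901597184]],
[[10467790575166816256]]],[],[[],[],[[101603636973009895424]]]]],[[[[[]]],[],[[[]]]],[],[[[[]],
[[]],[[]]],[[[]],[[]],[[]]]],[],[[[[]]],[],[[[]],[[]],[[]]]],[[[[]],[],[[]]],[],[[[]],[[]]],[],
[[],[],[[]]]],[[[[]],[],[[]]],[],[[[]],[[]]],[],[[],[],[[]]]]]],[[[],[],[]],[],[[],[[[[]],[[]],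
[[]]]],[],[[],[[[]],[[]],[[]]],[[[]]],[[[]]],[[[]]]]],[[[],[[],[[]],[[]]],[],[[]],[[]]],[],[],
[[[],[[]],[[]]],[[],[[]],[[]]]],[[[]],[[]]],[[[[]]],[[[]]]],[[[[]]],[[[]]]]],[],[],[[[[[]],[],
[[]]],[],[[[]],[[]],[]],[[]],[[]]],[],[[[[]],[],[[]]],[[[]],[],[[]]]],[],[[[[]],[[]],[]],[],[[[]],
[],[[]]],[[],[],[[]]],[]],[[[]],[],[[],[]]],[[[[]],[],[[]]],[],[[[]],[[]]],[],[[],[],[[]]]]],
[[[[[]],[],[[]]],[],[[[]],[[]],[]],[],[[]]],[],[[[[]],[],[[]]],[[[]],[],[[]]]],[],[[[[]],[[]],[]],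
[],[[[]],[],[[]]],[[],[],[[]]],[]],[[[]],[],[[],[]]],[[[[]],[],[[]]],[],[[[]],[[]]],[],[[],[],
[[]]]]],[[[[[]],[],[[]]],[],[[[]],[[]],[]],[],[[]]],[],[[[[]],[[]],[[]]],[[[]],[[]],[[]]]],[],
[[[[]],[[]],[]],[],[[[]],[[]],[[]]],[[],[],[[]]],[]],[[[[]],[],[[]]],[],[[[]],[[]]],[],[[],[],
[[]]]],[[[[]],[],[[]]],[],[[[]],[[]]],[],[[],[],[[]]]]]],[[[],[],[]],[],[[],
[[[[180733600403562496]],[],[[101603459977543942144]]]],[],[[],[[[20303049287303680]],[],
[[15061163330927329280]]],[[[235599165148909568]]],[[]],[[[111558669694717132800]]]]],[[[],[[],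
[]],[],[[]]],[],[],[[[[]],[],[[]]],[[[]],[],[[]]]],[[[[]]],[[[]]]],[[[]],[[]]],[[[[]]],[[[]]]]],
[],[],[[[[[1]],[[1]]],[],[[[1]],[],[[1]]],[[]]],[],[[[[1]],[[101603636973009895424]],[[]]],[[[1]],
[[16177506420072120320]],[[]]]],[],[[[[1]],[],[[15061189790005198848]]],[],
[[[15061163330927329280]],[[1587556827703279616]],[[]]],[],[[],[],[[11584107205233737728]]]],
[[[[1]],[],[[111558738988901597184]]],[],[[[111558738988901597184]],[[10467790575166816256]]],[],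
[[],[],[[101603636973009895424]]]],[[[[]],[],[[]]],[],[[[]],[[]]],[],[[],[],[[]]]]],[[[[[]]],[],
[[[]]]],[],[[[[]],[[]],[[]]],[[[]],[[]],[[]]]],[],[[[[]]],[],[[[]],[[]],[[]]]],[[[[]],[],[[]]],[],
[[[]],[[]]],[],[[],[],[[]]]],[[[[]],[],[[]]],[],[[[]],[[]]],[],[[],[],[[]]]]],[[[[[1]],[],[[1]]],
[],[[[1]],[[1]],[]],[],[[]]],[],[[[[1]],[[]],[[743743305756350873600]]],[[[1]],[[]],
[[111124281229022724096]]]],[],[[[[1]],[[111124281229022724096]],[]],[],[[[1306185772566609920]],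
[[]],[[11620989152442982400]]],[[],[],[[102038094733843202048]]],[]],[[[[]],[],[[]]],[],[[[]],
[[]]],[],[[],[],[[]]]],[[[[1]],[],[[961555701946576535552]]],[],[[[961555701946576535552]],
[[102038094733843202048]]],[],[[],[],[[743743305756350873600]]]]]]] : List (List (List (List (List (List (List (ℕ))))))))

end Pool.Agent.Helper26.WD
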