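import Pool.Agent.Helper26.WD.AlgP

/-!
# Intermediate states of the computation for the Whitehead double
-/

namespace Pool.Agent.Helper26.WD

/-- State number 10. -/
def wst10 : L ℕ 7 := (
[[[[[[[1]],[],[[1]]],[],[[[11547801604014997504]],[[1]],[]],[[],[],[[]]],[[[29346017690255360]],
[],[[1]]]],[[],[],[[]],[[]]],[[],[]],[],[[[[1734028836267360256]],[[1]],[]],[[],[[]],[[]]],[[[1]],
[[]],[[1]]],[[[1]],[],[[3113891101933568]]],[[],[],[[]]]],[[[]],[],[],[],[[],[],[[]]]],[[[[1]]],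
[],[],[],[[],[],[[1]]]]],[[],[],[],[],[],[]],[[[[[11547801604014997504]],[],
[[1589879528979693568]]],[[],[],[[]]],[[[83737751183534587904]],[[15079485596920709120]],[]],
[[[]],[],[[]]],[[[15060886320602939392]],[],[[83168186550972317696]]]],[[],[],
[[[16196659776262766592]]],[[[]]],[[[1]]]],[],[[[],[],[[]]],[[[235898365487874048]],[],
[[354618406076416]]],[[[1734028836267360256]],[[]],[[3113891101933568]]],[[],[[]]],
[[[253354213130895360]],[[1592130779431927808]],[]]],[[[]],[],[],[],[]],[[[]],[],[],[[],[],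
[[22695577988890624]]],[[],[],[[1]]]],[]],[[[[]],[[],[],[[]]],[[]],[[],[],[[]]],[[],[],[[]]]],[],
[[],[],[[]]],[[[],[],[[]]],[],[[],[[]],[[]]]],[[[]],[[]],[]],[[[]],[],[],[[],[[]]]],[[],[],[],[[],
[[]]]]],[[[[[1734028836267360256]]],[[[16196659776262766592]],[],[[1]]],[],[[],[],
[[3113891101933568]]],[[],[],[[]]]],[],[[],[],[[[1596633288137506816]]]],
[[[[1734028836267360256]],[],[[3113891101933568]]],[],[[[10467781979930624000]],
[[493148553871360]],[[]]]],[],[[],[],[],[[],[[3391308357959680]]]],[[],[],[],[[],[[]]]]],[[[[],[],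
[[]]],[[]],[[]],[[],[[]]],[[],[[]]]],[],[[[],[],[[]]],[],[[],[[]],[[]]]],[[],[],[[]]],[[],[],
[[]]],[[],[],[],[[[]]]],[[],[],[],[[[]]]]],[[[[[12682158540992544768]],[[1592130779431927808]],
[]],[[],[[]],[[]]],[[[111558702653746708480]],[[]],[[11565811398320062464]]],
[[[253354213130895360]],[],[[1587731100172648448]]],[[],[],[[]]]],[[[]],[],[],[]],
[[[[111558702653746708480]]],[[[10467781979930624000]]],[],[[],[],[[]]],[[],
[[1299325919378309120]],[[1]]]],[[],[[]],[[]],[[],[]],[[],[[]]]],[[[[14988569104331046912]],[[]],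
[[2017790204194160640]]],[[],[[]],[[]]],[[[102038058999987830784]],[[3377838300856320]],[[]]],
[[[]],[[]],[[]]],[[[15042884982015283200]],[[]],[[24841867640307712]]]],[[[],[],
[[198180789458829312]]],[[],[]],[[],[[31526890420305920]]],[[]],[[[1]],[],
[[162978552421548032]]]],[[[],[],[[]]],[[],[]],[[],[[]]],[[]]]],[[[[[]],[],[[]]],[[],[],[[]]],[[],
[[]]],[[],[],[[]]],[[[]],[],[[]]]],[],[[[[]]],[],[],[[],[[]],[[]]]],[[],[],[],[[],[[]]]],[[[],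
[[]]],[],[],[[[]],[[]],[[]]]],[[[],[],[[]]],[],[[],[[]]],[]],[[],[],[],[],[[[]],[],[[]]]]],
[[[[[1]],[],[[11565811398320062464]]],[[],[],[[]]],[[[1]],[[101896369883643379712]],[]],[[],[],
[[]]],[[[1740782595439853568]],[],[[1]]]],[[[]],[],[],[],[]],[[[[1]]],[],[],[[],
[[15079485596920709120]],[[1]]],[]],[[],[],[],[[],[[]]]],[[[[1740782595439853568]],
[[11565811398320062464]],[]],[],[],[[[110827043095002087424]],[[]],[[162978552421548032]]]],[[[],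
[],[[]]],[],[[],[[]]],[]],[[[],[],[[1]]],[],[],[],[[[1]],[],[[1589879528979693568]]]]]],[[],[],[],
[],[],[],[],[[[[[]]],[],[],[],[[],[],[[]]]],[],[[[[]]],[],[],[[],[],[[]]]],[],[],[],[[],[],[],[],
[[[]]]]]],[[[[],[],[[[1589879528979693568]]],[[]],[[[1]]]],[[],[],[[]],[[]]],[],[],[[[]],[],[],
[[],[],[[1]]]],[[[]],[],[],[],[[],[],[[]]]],[[[]],[],[],[],[[],[],[[11584397337891700736]]]]],
[[[],[],[[[15079485596920709120]]],[[]],[[[110973306205085204480]]]],[[],[],[[]],[[]]],[],[],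
[[[[1592130779431927808]]],[],[],[[],[],[[10449503493496791040]]],[]],[],[[[]],[],[],[],[[],[],
[[101614753602781315072]]]]],[],[[],[[],[],[[[1]]],[[[]]],[[[11584397337891700736]]]],[],[],
[[[[253354213130895360]]],[],[],[[],[],[[]]],[[],[],[[1742931539246776320]]]],[[[]],[],[],[]],
[[[[101614753602781315072]]],[],[],[[],[],[[16178346039001743360]]],[]]],[],[],[],[[],[[[[]]],[],
[],[[],[],[[1]]],[[],[],[[27060106852040704]]]],[[[]],[],[],[]],[],[],[[[],[],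
[[2031336205026787328]]],[[],[],[[]]],[],[],[[[15061189790005198848]]]],[[[],[],
[[253617820003205120]]],[],[],[],[[[111558738988901597184]]]]]],[[[],[],[[],[[]]],[[],[[]],[[]],
[[],[[]]],[[],[[]]]],[[],[],[[]]],[[],[],[[],[[]]]],[[],[],[[],[[]]]]],[[]],[[],[],[],[],[[],[],
[[],[],[[]]]]],[[],[[],[[],[],[[]]]],[],[],[[[]],[[]],[[],[[]],[[]]],[[],[[]]],[[],[[]]]],[],
[[[]],[],[],[],[]]],[[],[[],[[],[],[[]]]],[],[],[[],[[]],[[],[[]]],[[],[[]]]]],[[],[[[],[],[[]]],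
[[]],[[]],[[],[[]]],[[],[[]]]],[],[],[[],[[],[[]],[[]]],[[]],[[[]]],[[[]]]]],[[[[]],[],[],[[],[],
[[]]]],[[[]],[],[[],[],[[]]],[[],[],[[]]]],[],[[],[[]],[[],[[]]],[[],[[]]]],[]],[[],[[],[],[[],
[[]]]],[],[],[],[[],[[],[[]]],[[],[[]]],[[[]],[[]],[[]]],[[],[],[[]]]],[[],[]]],[[],[[],[],[[[]],
[[]],[]]],[],[],[],[[],[[],[]],[[],[]],[[],[],[[]]],[[],[],[[]]]]]],[[[[[[29346017690255360]]],[],
[[[15060886320602939392]],[[110973306205085204480]],[]],[[]],[[[1]],[],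
[[966256892540814360576]]]],[],[],[[],[[[354618406076416]]],[[[3113891101933568]]],[[],[[]]],[[],
[[10449503493496791040]]]],[],[[[]],[],[],[[],[],[[1]]],[[],[],[[101614753602781315072]]]],[]],
[[],[],[],[],[],[],[]],[[[[[1]]],[],[[[83168186550972317696]],[[1]],[]],[[]],
[[[966256892540814360576]],[],[[1]]]],[[],[],[[]],[[]]],[[],[[[3113891101933568]]]],[],
[[[[11565811398320062464]]],[],[[[2017790204194161664]],[],[[11619300233880539392]]],[[],[],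
[[102189069757780721664]]]],[],[[[]],[],[[],[[102189069757780721664]]],[],[[],[],
[[741401429625068847104]]]]],[[[[]],[],[[[3113891101933568]],[[1]],[]],[[]],
[[[101614753602781315072]]]],[],[[[[3113891101933568]]],[[[493148553871360]]]],[],
[[[[1587731100172648448]],[[10449503493496791040]],[]],[],[[[3377838300856320]],[[]],
[[1733957909454456320]]],[[],[],[[16178346039001743360]]]],[[[[]],[],[[]]],[],[[],[[]]]],[[[[1]],
[],[[102189069757780721664]]],[],[[],[[16195793501861449728]]],[],[[],[],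
[[111547618511793684480]]]]],[[[],[],[[]],[],[[]]],[],[[[]],[[]]],[[[]],[[]]],[[[]],[],[[],[[]],
[]]],[[[],[],[[]]],[],[[],[[]]]],[[[]],[],[[],[]]]],[[[],[[]],[[[1]],[],[[1]]],[[],[]],[[],[]]],
[],[],[[[[22695577988890624]]],[[[3391308357959680]]]],[[[[198180789458829312]],[[]],
[[102189069757780721664]]],[[[31526890420305920]],[[]],[[16195793501861449728]]]],[[[],[[]]],[[],
[[]]]],[[[],[[668768223583794626560]]],[[],[[92380264395264131072]]]]],[[[[]],[[]],[],[[],[],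
[[]]],[[],[]]],[],[[[]],[],[[]]],[[[]],[],[[],[[]],[]]],[[[]],[[]]],[[[],[],[[]]],[],[],[[],
[[]]]],[[[],[]],[],[],[[],[]]]],[[[[]],[[]],[],[[[1]],[],[[2031266970032340992]]],[[],[],
[[253617820003205120]]]],[],[[[[]],[],[[]]],[],[[],[[]]]],[[[],[],[[2031266970032340992]]],[],[[],
[[235599165148909568]]]],[[[],[[]]],[[],[[]]]],[[[[2031336205026787328]],[[]],
[[741329935116360761344]]],[[],[],[[111558738988901597184]]],[],[[[]],[[1301683805165257216]],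
[[235616962451886080]]]],[[[[11565811398320062464]],[],[[6502632766272633307136]]],[[],[],
[[1035360410884615700480]]],[],[[],[],[[1738531344973168640]]]]],[[[[]],[[]],[],[[],[]]],[],[[[],
[],[[]]],[],[[],[[]]]],[[[]],[],[[],[]]],[[[],[[]]],[[],[[]]]],[[[],[[]]],[],[],[[[]],[],[[]]]],
[[[[]],[],[[]]],[],[],[[],[],[[]]]]]],[[[[],[],[[]],[[]]],[],[],[],[],[[[]]]],[],[[[],[],[[]],
[[]]],[[],[[],[],[[]]],[[]],[[]]],[],[],[[],[[]],[[],[[]],[[]]],[[],[[]]],[[],[[]]]],[],[]],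
[[[[]],[],[[[]],[[]],[]],[],[[]]],[],[[[]],[[]]],[],[[[[]],[[]],[]],[],[[],[],[[]]]],[[[]],[],[[],
[]]],[[[],[],[[]]],[],[[],[[]]]]],[[[[],[],[[]]],[],[[[]],[[]],[]],[],[[]]],[],[[[],[],[[]]],[[],
[],[[]]]],[],[[[[]],[[]],[]],[],[[],[],[[]]],[[],[],[[]]],[]],[[[]],[],[[],[]]],[[[[]],[],[[]]],
[],[[[]],[[]]],[],[[],[],[[]]]]],[],[[[[[]],[[]],[]],[[[]],[[]],[]],[],[],[[],[],[[]]]],[[[]],[],
[],[]],[[[[]],[[]],[]],[],[[],[],[[]]],[[],[],[[]]]],[[[[]],[[]],[]],[],[[],[],[[]]],[[],[],[[]]],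
[]],[],[[[],[]],[],[],[[],[]]],[[[],[[]],[[]]],[],[],[[[]],[[]]],[[[]],[[]],[]]]],[[[[[]],[[]],
[[]]],[[]],[],[[[]],[[]],[[]]],[[],[]]],[],[[[[]],[[]],[[]]],[],[[[]],[[]],[[]]]],[[[[]],[],[[]]],
[],[[[]],[[]]],[],[[],[],[[]]]],[],[[[[]],[[]],[[]]],[],[[],[],[[]]],[[[]],[[]],[[]]],[[[]],[[]],
[]]],[[[[]],[[]],[[]]],[],[[],[],[[]]],[[[]],[],[[]]],[[[]],[[]],[]]]],[[[[[]],[],[[]]],[[]],[],
[[],[[]],[[]]],[]],[[[]],[],[],[],[]],[[[[]],[],[[]]],[],[[[]],[[]],[[]]],[],[[],[],[[]]]],[[[[]],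
[],[[]]],[],[[[]],[[]]],[],[[],[],[[]]]],[],[[[],[[]],[[]]],[],[],[[[]],[[]],[[]]],[[[]],[[]],
[]]],[[[[]],[[]],[[]]],[],[[],[],[[]]],[[[]],[],[[]]],[[[]],[[]],[]]]]],[[[[],[[[1]]],[],[[],
[[11584397337891700736]],[[101614753602781315072]]],[]],[[],[[]],[],[],[]],[],
[[[[253354213130895360]]],[],[],[[],[],[[]]],[[],[],[[1742931539246776320]]]],[],[[[],[[1]],
[[1]]],[],[],[],[[],[[16178346039001743360]]]],[[]]],[[],[],[],[],[],[],[]],[[[],[[[1]]],[],[[],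
[[1]],[[1]]],[]],[[],[[[1592130779431927808]],[],[[10449503493496791040]]],[],[[],[[1]],[[1]]],
[]],[],[],[[],[[[1299325919378309120]]],[[[15042884982015283200]],[[1733957909454456320]],[]],[[],
[[16195793501861449728]]],[[],[]]],[],[[],[],[[],[],[[15060899176430174208]]],[],[[],
[[111547618511793684480]]]]],[[[],[[]],[[]],[],[[]]],[],[[[]],[[]]],[[[]],[[]]],[[[]],[],[[],[[]],
[]]],[[[],[],[[]]],[],[[],[[]]]],[[[]],[],[[],[]],[],[]]],[[[[[1]],[],[[1]]],[],[[[1]],[[1]],[]],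
[],[[]]],[],[[[[1]],[[]],[[11584397337891700736]]],[[[1]],[[]],[[1742931539246776320]]]],[],
[[[[1]],[[1742931539246776320]],[]],[],[[[24841867640307712]],[[]],[[181006208404557824]]],[[],[],
[[1587730525043458048]]],[]],[[[[]],[],[[]]],[],[[[]],[[]]],[],[[],[],[[]]]],[[[[1]],[],
[[15060899176430174208]]],[],[[[15060899176430174208]],[[1587730525043458048]]],[],[[],[],
[[11584397337891700736]]]]],[[[[[1]],[],[[1]]],[],[[[1]],[[1]],[]],[],[[]]],[],[[[[1]],[[]],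
[[101614753602781315072]]],[[[1]],[[]],[[16178346039001743360]]],[],[[],[],[[1]]],[]],[],[[[[1]],
[[16178346039001743360]],[]],[],[[[162978552421548032]],[[]],[[1587730525043458048]]],[[],[],
[[10466950475320131584]]],[]],[[[[]],[],[[]]],[],[[[]],[[]]],[],[[],[],[[]]]],[[[[1]],[],
[[111547618511793684480]]],[],[[[111547618511793684480]],[[10466950475320131584]]],[],[[[1]],[],
[[101614753602781315072]]]]],[],[[[[],[[1]],[[1]]],[],[],[[[1]],[[1]],[]],[[],[]]],[],[[[[]],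
[[27060106852040704]],[[253617820003205120]]],[],[[[]],[[1]],[[3382513356505088]]],[],[]],[[[[]],
[],[[]]],[],[[[]],[[]]],[],[[],[],[[]]]],[[[[]],[],[[]]],[],[[[]],[[]]],[],[[],[],[[]]]],
[[[[15061189790005198848]],[[111558738988901597184]],[]],[],[[],[],[[11584107205233737728]]],
[[[235616962451886080]],[[]],[[102038268447815630848]]],[]],[[[[111558738988901597184]],
[[1035360410884615700480]],[]],[],[[],[],[[101603636973009895424]]],[[[29381167176220672]],[],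
[[671054944234584932352]]],[]]],[[[[],[],[[]]],[],[],[[],[[]]]],[],[[[[]],[],[[]]],[],[[[]],[[]],
[[]]],[],[]],[[[[]],[],[[]]],[],[[[]],[[]]],[],[[],[],[[]]]],[[[[]],[],[[]]],[],[[[]],[[]]],[],
[[],[],[[]]]],[[[],[[]]],[],[],[[[]],[[]],[[]]]],[[[[]],[[]],[]],[],[[],[],[[]]],[[[]],[],[[]]],
[]]]],[[[],[],[]],[],[[],[[[],[],[[]]]],[],[],[[],[[],[[]],[[]]],[[]],[[[]]],[[[]]]]],[[[],[[]],
[[],[],[[]]],[],[[],[]]],[],[],[[[]],[[]]],[[[],[],[[]]],[[],[],[[]]]],[[[],[]],[[],[]]],[[[],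
[[]]],[[],[[]]]]],[],[[[[],[],[[]]],[],[[[]],[[]],[]],[],[[]]],[],[[[],[],[[]]],[[],[],[[]]]],[],
[[[[]],[[]],[]],[],[[],[],[[]]],[[],[],[[]]],[]],[[[]],[],[[],[]]],[[[[]],[],[[]]],[],[[[]],[[]]],
[],[[],[],[[]]]]],[[[[],[],[[]]],[],[[[]],[[]],[]],[],[[]]],[],[[[],[],[[]]],[[],[],[[]]]],[],
[[[[]],[[]],[]],[],[[],[],[[]]],[[],[],[[]]],[]],[[[]],[],[[],[]]],[[[[]],[],[[]]],[],[[[]],[[]]],
[],[[],[],[[]]]]],[[[[[]],[[]],[[]]],[],[[]],[[[]],[[]],[[]]],[[]]],[],[[[[]],[[]],[[]]],[[[]],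
[[]],[[]]]],[],[[[[]],[],[[]]],[],[[[]],[[]]],[],[[],[],[[]]]],[[[[]],[[]],[[]]],[],[[[]],[[]],
[[]]],[[],[],[[]]],[[],[],[[]]]],[[[[]],[[]],[[]]],[],[[[]],[],[[]]],[[],[],[[]]],[[],[],[[]]]]],
[[[[[]],[[]]],[],[[]],[[[]],[],[[]]]],[],[[[[]],[[]],[[]]],[[[]],[[]],[[]]]],[],[[[[]],[],[[]]],
[],[[[]],[[]]],[],[[],[],[[]]]],[[[[]],[],[[]]],[],[[[]],[[]],[[]]],[],[[],[],[[]]]],[[[[]],[[]],
[[]]],[],[[[]],[],[[]]],[[],[],[[]]],[[],[],[[]]]]]],[[[[[]],[],[[[1]]],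
[[[101614753602781315072]],[],[[1]]],[]],[[],[],[[]],[],[]],[],[],[[[[1740782595439853568]]],[],
[],[[],[],[[]]],[[],[],[[15060899176430174208]]]],[[[[1]],[],[[1]]],[],[],[],[[],[],
[[111547618511793684480]]]],[[]]],[[],[],[],[],[],[],[]],[[[[[11565811398320062464]]],[],[[[1]]],
[[[1]],[],[[102189069757780721664]]],[]],[[[[101896369883643379712]]],[],
[[[11565811398320062464]],[],[[102189069757780721664]]],[[[1]],[],[[668768223583794626560]]],[]],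
[],[[],[[[15079485596920709120]]],[[[110827043095002087424]],[[16195793501861449728]],[]],[[],
[[92380264395264131072]]],[[],[]]],[],[],[[],[],[],[[],[],[[83735603802561052672]]],[[],[],
[[963897547291531149312]]]]],[[[[]],[[]],[[]],[[],[],[[]]],[[],[]]],[],[[[]],[],[[]]],[[[]],[],
[[],[[]],[]]],[[[]],[[]]],[[[],[],[[]]],[],[],[[],[[]]]],[[[],[]],[],[],[[],[]],[]]],
[[[[[1740782595439853568]],[[1]],[]],[[[1]],[[1]],[]],[],[[],[],[[]]],[[],[],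
[[15060899176430174208]]]],[[[]],[],[],[]],[[[[1]],[[101614753602781315072]],[]],[],[[[1]],[[]],
[[15060899176430174208]]],[[],[],[[111547618511793684480]]]],[[[[1]],[[16178346039001743360]],[]],
[],[[[162978552421548032]],[[]],[[1587730525043458048]]],[[],[],[[10466950475320131584]]],[]],[],
[[[],[[]],[[]]],[],[],[[[]],[[]]],[[[]],[[]],[]]],[[[],[[1]],[[1]]],[],[],
[[[83735603802561052672]],[[11584397337891700736]]],[[[963897547291531149312]],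
[[101614753602781315072]],[]]]],[],[[[[[1]],[],[[1]]],[],[[[1]],[[1]],[]],[],[[]]],[],[[[[1]],
[[]],[[741401429625068847104]]],[[[1]],[[]],[[111547618511793684480]]],[],[[],[],[[1]]],[]],[],
[[[[1]],[[111547618511793684480]],[]],[],[[[1589879528979693568]],[[]],[[11584397337891700736]]],
[[],[],[[101614753602781315072]]],[]],[[[[]],[],[[]]],[],[[[]],[[]]],[],[[],[],[[]]]],[[[[1]],[],
[[963897547291531149312]]],[],[[[963897547291531149312]],[[101614753602781315072]]],[],[[[1]],[],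
[[741401429625068847104]]]]],[[[[[1]],[],[[11565811398320062464]]],[[],[],[[]]],[[[1]],[[1]],[]],
[],[[[111558738988901597184]],[],[]]],[[],[]],[[[[253617820003205120]],[[]],
[[6502632766272633307136]]],[[],[],[[1035360410884615700480]]],[],[[[]],[[1]],
[[29381167176220672]]],[]],[[[],[[]],[[]]],[],[],[[[]],[[]]],[[[]],[[]],[]]],
[[[[111558738988901597184]],[[1035360410884615700480]],[]],[],[[],[],[[101603636973009895424]]],
[[[1738531344973168640]],[[]],[[671054944234584932352]]],[]],[[[[]],[],[[]]],[],[[[]],[[]]],[],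
[[],[],[[]]]],[[[[1]],[],[[7139759295289702219776]]],[],[[[7139759295289702219776]],
[[669938596810676240384]],[]],[],[[[162714945547403264]],[],[[6530449180660200374272]]]]],[[[[],
[],[[]]],[[],[],[[]]],[[],[[]]],[],[[[]]]],[],[[[],[[]],[[]]],[],[],[[[]],[[]],[[]]],[]],[[[],
[[]],[[]]],[],[],[[[]],[[]]],[[[]],[[]],[]]],[[[],[[]]],[],[],[[[]],[[]],[[]]]],[[[[]],[],[[]]],
[],[[[]],[[]]],[],[[],[],[[]]]],[[[[]],[],[[]]],[],[[[]],[[]],[]],[],[[[]],[],[[]]]]]],[[[[],[[],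
[[]],[[]]],[[],[[]]],[[[]],[],[[]]],[]],[[],[],[[],[]],[],[]],[],[[[],[[]],[[]]],[],[],[],[[],
[[]]]],[[[],[[]]],[],[],[],[[],[[]],[[]]]],[[[[]],[],[[]]],[],[],[],[[],[],[[]]]],[[]]],[[],[],[],
[],[],[],[]],[[[],[[],[[]],[[]]],[[],[[]]],[[[]],[],[[]]],[]],[[],[[],[[]],[[]]],[[],[[]]],[[[]],
[],[[]]],[]],[],[[],[],[]],[],[[],[[],[[]]],[[],[[]]],[[[]],[[]],[[]]],[[],[],[[]]]],[[],[],[[],
[[]]],[[],[[]],[[]]],[[],[],[[]]]]],[[[[]],[[]],[[],[]],[[[]],[],[[]]],[[],[],[[]]]],[],[[[]],[],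
[[],[]]],[[[],[],[[]]],[],[[],[[]]]],[[[],[]],[[],[]]],[[[[]],[],[[]]],[],[],[[],[[]],[[]]]],
[[[[]],[],[[]]],[],[],[[],[],[[]]]]],[[[[[]],[[]],[[]]],[[]],[],[[[]],[[]],[]],[[],[]]],[],[[[[]],
[[]],[[]]],[],[[],[[]],[[]]]],[[[]],[],[[],[]]],[],[[[[]],[[]],[]],[],[[],[],[[]]],[[[]],[],[[]]],
[]],[[[[]],[[]],[[]]],[],[[],[],[[]]],[[[]],[],[[]]],[[[]],[[]],[]]]],[[[[],[[]],[[]]],[],[],
[[[]],[[]],[]],[[],[]]],[],[[[],[[]],[[]]],[],[[],[[]],[[]]]],[[[]],[],[[],[]]],[[[]],[],[[],[]]],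
[[[[]],[[]],[]],[],[[],[],[[]]],[[[]],[],[[]]],[]],[[[[]],[[]],[]],[],[[],[],[[]]],[[[]],[],[[]]],
[]]],[[[[],[[]],[[]]],[],[[]],[[[]],[[]],[]],[[]]],[],[[[],[[]],[[]]],[[],[[]],[[]]],[[],[],[[]]],
[[],[],[[]]],[]],[],[[[]],[],[[],[]]],[[[[]],[[]],[]],[],[[[]],[],[[]]],[[],[],[[]]],[]],[[[[]],
[[]],[[]]],[],[[[]],[],[[]]],[[[]],[],[[]]],[[[]],[],[[]]]]],[[[[[]],[],[[]]],[],[[[]],[[]],[]],
[],[[[]],[],[]]],[[],[]],[[[[]],[],[[]]],[[],[],[[]]],[],[[],[[]],[[]]]],[[[],[]],[],[],[[],[]]],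
[[[[]],[[]],[]],[],[[],[],[[]]],[[[]],[],[[]]],[]],[[[]],[],[[],[]]],[[[[]],[],[[]]],[],[[[]],
[[]],[]],[],[[[]],[],[[]]]]],[[[[[]],[],[[]]],[],[[],[]],[],[[[]],[],[[]]]],[[],[]],[[[[]],[[]],
[[]]],[[],[],[[]]],[],[[[]],[[]],[[]]]],[[[[]],[[]],[[]]],[],[[],[],[[]]],[[[]],[],[[]]],[[[]],
[[]],[]]],[[[[]],[[]],[]],[],[[],[],[[]]],[[[]],[],[[]]],[]],[[[[]],[[]],[[]]],[],[[[]],[],[[]]],
[[],[],[[]]],[[],[],[[]]]],[[[[]],[],[[]]],[],[[[]],[[]],[]],[],[[[]],[[]],[[]]]]]],[[[[[]],[],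
[[],[[1]]],[],[[[741382861134959214592]],[],[[27060106852040704]]]],[[],[],[[],[]],[]],[],[[]],
[[[],[[101603459977543942144]]],[],[[],[],[[15061189790005198848]]],[[],[],
[[111558738988901597184]]],[[],[[]],[[]]]],[[]],[[[[1]],[],[[741382861134959214592]]],[],[[],
[[111558738988901597184]]],[],[[],[],[[963916146560332726272]]]]],[[],[],[],[],[],[]],[[[[]],[],
[[],[[1]]],[],[[[1]],[],[[741382861134959214592]]]],[[[]],[],[[[101603459977543942144]],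
[[669849083166075658240]],[]],[],[[[1]],[],[[6502632766272633307136]]]],[],[[],[],[[],[],
[[111558738988901597184]]],[],[[],[[1035360410884615700480]]]],[],[[],[[],[[199012020183117824]]],
[[],[]],[[[1301683805165257216]],[],[[961555415726717665280]]],[[],[],
[[7111942811668080230400]]]]],[[[[]],[[]],[[],[]],[[],[]]],[],[[[],[],[[]]],[],[[],[[]]]],[[[]],
[],[[],[]],[],[]],[[[],[[]]],[[],[[]]]],[[[],[[]]],[],[],[[[]],[],[[]]],[]],[[[[]],[],[[]]],[],[],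
[[],[],[[]]]]],[[[[[741382861134959214592]],[],[[1]]],[[]],[],[[],[[1]],
[[111558738988901597184]]],[]],[[[]],[],[],[],[]],[[[[27060106852040704]],[],
[[741382861134959214592]]],[],[[[15061189790005198848]],[[111558738988901597184]],[[]]],[],[[],[],
[[963916146560332726272]]]],[[[[1]],[],[[111558738988901597184]]],[],[[[111558738988901597184]],
[[10467790575166816256]]],[],[[],[],[[101603636973009895424]]]],[],[[[],[[1]],
[[2542421024178176]]],[],[],[[[961555415726717665280]],[[102038268447815630848]],[[]]],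
[[[7111942880962264694784]],[[671054944234584932352]],[]]],[[[[]],[[]],[[]]],[],[[],[],[[]]],
[[[]],[],[[]]],[[[]],[[]],[]]]],[[[[],[],[[]]],[],[],[[],[[]]]],[],[[[[]],[],[[]]],[],[[[]],[[]],
[[]]],[],[]],[[[[]],[],[[]]],[],[[[]],[[]]],[],[[],[],[[]]]],[[[[]],[],[[]]],[],[[[]],[[]]],[],
[[],[],[[]]]],[[[],[[]]],[],[],[[[]],[[]],[[]]]],[[[[]],[[]],[]],[],[[],[],[[]]],[[[]],[],[[]]],
[]]],[[[[[1]],[[1]]],[],[[]],[[[1]],[],[[1]]]],[],[[[[741382861134959214592]],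
[[6502632766272633307136]],[[]]],[[[111558738988901597184]],[[1035360410884615700480]],[[]]],[],
[],[[],[[1]],[[1]]]],[],[[[[1]],[],[[963916146560332726272]]],[],[[[963916146560332726272]],
[[101603636973009895424]]],[],[[[1]],[],[[741382861134959214592]]]],[[[[1]],[],
[[7111942880962264694784]]],[],[[[7111942811668080230400]],[[671054944234584932352]],[[]]],[],
[[[1]],[],[[6530449180660200374272]]]],[[[[]],[[]],[[]]],[],[[[]],[],[[]]],[[],[],[[]]],[[],[],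
[[]]]]],[[[[],[],[[]]],[[],[],[[]]],[[],[[]]],[],[[[]]]],[],[[[],[[]],[[]]],[],[],[[[]],[[]],
[[]]],[]],[[[],[[]],[[]]],[],[],[[[]],[[]]],[[[]],[[]],[]]],[[[],[[]]],[],[],[[[]],[[]],[[]]]],
[[[[]],[],[[]]],[],[[[]],[[]]],[],[[],[],[[]]]],[[[[]],[],[[]]],[],[[[]],[[]],[]],[],[[[]],[],
[[]]]]],[[[[[1]],[],[[129429091030602350592]]],[],[[],[]],[],[[[961555701946576535552]],[],
[[1]]]],[[],[]],[[[[129429091030602350592]],[[]],[[47596131104235019304960]]],[[],[],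
[[7111953998657454342144]]],[],[[[]],[[1308332577066614784]],[[15061449069749862400]]],[]],[[[[]],
[[]],[[]]],[],[[],[],[[]]],[[[]],[],[[]]],[[[]],[[]],[]]],[[[[961555701946576535552]],
[[7111953998657454342144]],[]],[],[[],[],[[743743305756350873600]]],[[[15061449069749862400]],[],
[[6494125573238566256640]]],[]],[[[[]],[[]],[[]]],[],[[[]],[],[[]]],[[],[],[[]]],[[],[],[[]]]],
[[[[1308332577066614784]],[],[[61394313980505069191168]]],[],[[[61394313980505069191168]],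
[[6494125573238566256640]],[]],[],[[[83886299061327790080]],[[]],[[47375960269277367902208]]]]]]] : List (List (List (List (List (List (List (ℕ))))))))

/-- State number 11. -/
def wst11 : L ℕ 7 := (
[[[[[[[1]],[],[[1]]],[[[]],[],[]],[[[11565828994901213184]],[[1738531894873554944]],[]],[[],[[]],
[]],[[[1]],[],[[11547801604014997504]]]],[[[],[],[[]]],[[[]],[],[]],[[[]],[[]]],[[],[[]],[]],[[],
[],[]]],[[[[1]],[],[[1]]],[[[1]],[],[]],[[[]],[[]]],[[],[[1]],[]],[]],[[[[]],[],[]],[[[]],[],[]],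
[[[]],[],[[]]],[],[]],[[[[111547585491686653952]],[[10466941746888835072]],[]],[[[]],[[]],[[]]],
[[[1]],[[]],[[29346017690255360]]],[[[1]],[[]],[[1]]],[[],[[]],[]]],[[[],[[]],[]],[[],[[]],[]],[],
[[[]]],[]],[[[[1]],[],[[1734028836267360256]]],[[[]],[[]],[]],[[[1]],[[3113891101933568]],[[]]],
[[],[[]],[]],[[[1]],[[]],[[1]]]]],[[[[],[],[[]]],[],[],[],[]],[[[],[],[[]]],[],[[[]],[[]]],[],[]],
[[[],[],[[]]]],[[[[]],[],[]],[[[]],[],[]],[[[]]],[],[]],[],[[[],[[]],[]],[[],[[]],[]],[],[[[]]],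
[]],[]],[[[[[743724741945624363008]],[],[[1]]],[[[]],[[]],[[]]],[[[6503342155266583953408]],
[[1035414735421003792384]],[]],[[],[[]],[]],[[[217043734909419520]],[],[[83737751183534587904]]]],
[[[[1]],[],[[1]]],[[[]],[[]],[[]]],[[[1035414735421003792384]],[[120487090564823515136]]],[[],
[[]],[]],[[[20480088231378944]],[],[[16196659776262766592]]]],[[],[],[],[],[]],[[[[]],[],[]],
[[[1]],[],[[1]]],[[[111547585491686653952]],[[]],[[15079485596920709120]]],[[],[[]],[[]]],[[[1]],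
[[1]],[[]]]],[[[],[]],[],[],[],[]],[[[],[[]],[]],[[],[[1]],[[235898365487874048]]],[[],[[]],[[]]],
[[[11584410667239079936]],[[]],[[2026655025547378688]]],[[[1734028836267360256]],[[]],
[[3113891101933568]]]],[[[],[],[]],[],[],[],[]]],[[[[],[],[[]]],[[[]],[],[[]]],[[[]],[[]],[]],[[],
[[]],[]],[[[]],[],[]]],[[[],[],[[]]],[],[],[],[[[]]]],[[[],[],[[]]],[],[[],[]],[],[[[]],[],[]]],
[[[[]],[],[]],[[[]],[],[]],[[],[[]],[[]]],[],[[[]],[[]],[[]]]],[[[[]],[[]]],[[[]],[[]]],[],[],[[],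
[[]],[[]]]],[[[],[[]],[]],[[],[[]],[]],[],[[],[[]],[[]]],[[],[[]],[[]]]],[[[],[],[]],[[],[],[]],
[],[],[]]],[[[[[111119636367920857088]],[],[[1]]],[[[1035413596393495855104]],[],
[[20480088231378944]]],[[[]],[],[]],[[],[[101614790411049500672]],[[16196659776262766592]]],
[[[]]]],[[],[],[],[],[[[]]]],[[[[1]],[],[[1592130229545992192]]],[[[]],[],[]],
[[[101614790411049500672]],[[16178355240953184256]]],[[],[[]],[]],[[[3391308357959680]],[],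
[[1596633288137506816]]]],[[[[1738531894873554944]],[],[[1]]],[[[]],[],[]],
[[[671001740721353129984]],[[1]],[[]]],[],[[[31561507447767040]],[[]],[[1]]]],[[[[]],[[]]],[[[]],
[[]]],[],[],[[],[[]],[[]]]],[[[],[[180716078045331456]],[[1734028836267360256]]],[[],[[]],[]],[],
[[[111113022246869925888]],[[3113891101933568]],[[]]],[[[10467781979930624000]],
[[493148553871360]],[[]]]],[[]]],[[[[[]],[[]],[[]]],[[[]],[],[[]]],[[[]],[],[[]]],[[],[[]],[[]]],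
[[[]],[[]],[]]],[[],[],[],[],[[[]]]],[[[[]],[[]],[[]]],[[[]],[],[]],[[],[[]],[[]]],[],[[[]],[[]],
[[]]]],[[[],[],[[]]],[],[[],[[]]],[],[[[]],[],[[]]]],[[[[]],[],[[]]],[],[[[]],[[]]],[],[[[]],[],
[[]]]],[[[],[[]],[[]]],[],[],[[[]],[[]],[[]]],[[[]],[[]],[[]]]],[[[],[[]],[]],[],[[[]],[],[[]]],
[],[]]],[[[[[1]],[[1]],[]],[[[]],[],[[]]],[[[7139045471467945852928]],[[]],
[[15060886320602939392]]],[[[669884271800885444608]],[[]],[[1]]],[[],[[]],[]]],[[[],[]],[],[],[],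
[]],[[[[7139045471467945852928]],[[669884271800885444608]]],[[[669884271800885444608]],
[[92675285337912639488]]],[[],[],[[]]],[],[[],[[1]],[[1]]]],[[[[]],[[]]],[[[]],[[]]],[[],[]],[[]],
[[],[[]],[[]]]],[[[[963896724518588121088]],[[]],[[2031335105254916096]]],[[],[[]],[[]]],
[[[6530149831507213025280]],[[1]],[[]]],[[[]],[[]],[[]]],[[[1]],[[]],[[1]]]],
[[[[101614790411049500672]],[[]],[[181551567277916160]]],[[],[[]],[[]]],
[[[1034171166192007905280]],[[20268414668898304]],[[]]],[[[]],[[]],[[]]],[[[1]],[[]],[[1]]]],[[[],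
[[]],[]],[[],[],[]],[[],[[]],[[]]],[[]],[[]]]],[[[[],[[]],[]],[[],[],[]],[[],[[]],[[]]],[[[]],[],
[[]]],[[]]],[[],[]],[[[],[[]],[]],[[],[[]],[]],[],[[],[[]],[[]]],[[],[[]],[[]]]],[[],[],[],[[]],
[[]]],[[],[],[],[[[]]],[[[]]]],[[[[]]],[],[[[]]],[],[[[]]]],[[],[],[[]]]],[[[[[1]],[],
[[12682158540992544768]]],[[[]],[[]],[]],[[[198180789458829312]],[[110691759218407604224]],[[]]],
[[],[[]],[]],[[[111558702653746708480]],[[]],[[11565811398320062464]]]],[[[],[],[]],[[[]]],[],[],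
[]],[[[[11530345344072417280]],[],[[111558702653746708480]]],[[[31526890420305920]],[],
[[10467781979930624000]]],[[],[[]],[]],[[],[[11565811398320062464]],[[1738531344973168640]]],[]],
[[],[[],[],[]],[[],[],[]],[[],[[]],[[]]],[[]]],[[[[1]],[[15042885188106846208]],[[]]],[[[]],[[]],
[[]]],[[[216181651254804480]],[[]],[[1]]],[[[102335332867863838720]],[[]],[[1]]],[[[]],[[]],
[[]]]],[[[],[[]],[]],[[],[],[]],[[],[[]],[[]]],[[]],[[]]],[[[[14988569104331046912]],[[]],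
[[2017790204194160640]]],[[],[[]],[[]]],[[[102038058999987830784]],[[3377838300856320]],[[]]],
[[[]],[[]],[[]]],[[[15042884982015283200]],[[]],[[24841867640307712]]]]]],[[[],[],[[[],[],[[]]]]],
[[[[],[],[[]]]],[[[],[],[[]]],[],[],[],[]],[[[],[],[[]]]],[[]],[],[]],[[[[],[],[[]]]],[[[],[],
[[]]]]],[[[[],[],[[]]],[[[]],[],[]],[[[]],[[]]],[[],[[]],[]],[]],[[[],[],[[]]]],[[[],[],[[]]]],
[[[[]],[],[]],[[[]],[],[]]],[[[[]],[[]]],[[[]],[[]]],[],[]],[[[],[[]],[]],[[],[[]],[]]],[]],[[[[],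
[],[[]]]],[],[[[],[],[[]]]]],[[[[[]],[[]],[[]]],[],[[[]],[],[[]]],[],[]],[],[[[[]],[[]],[[]]],
[[[]],[],[]],[[],[],[[]]],[],[[],[[]],[]]],[],[[],[],[[[]]],[],[[[]]]],[],[]],[],[[[[],[[]],[]],
[],[],[[[]]],[]],[],[[[],[[]],[]],[[],[[]],[]]],[],[],[[],[],[[[]]]],[]],[]],[[[[[[1]],[],[[1]]],
[[],[]],[[[1]],[[1]]],[],[[[1]],[],[[1589879528979693568]]]],[[[],[],[[]]],[[],[]],[[],[]],[],[[],
[],[]]],[[[],[],[[1]]],[[[1]],[],[]],[],[[],[[1]],[]]],[[[],[]],[],[[[]],[],[[]]],[],[]],[[[],[]],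
[],[[[1]],[],[[11584397337891700736]]],[[[1]]],[]],[[],[],[],[[[]]],[]],[[[],[],[]],[],[[],[[1]],
[]],[],[]]],[[[[[1]],[],[[1]]],[[],[]],[[[1]],[[1]]],[],[[[1]],[],[[15079485596920709120]]]],[[],
[[],[]],[[],[]],[],[[],[],[]]],[[[[1]],[],[[1]]],[[[1]],[],[]],[],[[],[[1]],[]],[]],[[]],[[[[1]],
[[1]]],[],[[[1]],[],[[1587661805973504000]]],[[[1]]],[]],[[]],[[[[1]],[],[[1592130779431927808]]],
[],[[],[[10449503493496791040]],[]],[],[]]],[[],[],[]],[[[],[],[[[]],[[]]],[],[]],[[[[1]],[],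
[[1]]],[[[]],[[]],[[]]],[[[1]],[[1]]],[[],[[]],[]],[[[1]],[],[[1]]]],[[[[1]],[],[[1]]],[[[]],[],
[]],[[[1]],[[1]]],[[],[[]],[]],[]],[[[],[]],[],[],[],[]],[[[[1]],[[1]]],[[[1]],[[1]]],[[],[],
[[]]],[],[[],[[1]],[]]],[[],[],[],[],[]],[[[[1]],[],[[253354213130895360]]],[],[[],[[]],[]],[[],
[[1742931539246776320]],[]],[]]],[[],[]],[[[],[],[[[]]],[],[]],[[[[]],[[]],[[]]],[[[1]],[],[]],
[[[1]],[],[[27060106852040704]]],[],[[],[[1]],[]]],[[[],[]],[],[],[],[]],[[[[1]],[],[]],[[[]],[],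
[]],[[[1]]],[],[]],[[[[1]],[],[[15060886320602939392]]],[[],[],[[]]],[[[1]]],[],[[[1]]]],[],[[[],
[[1592130779431927808]],[]],[[],[[]],[]],[],[[[16177506420072120320]]],[]]],[],[[[],[],[],[[[]]],
[]],[[[],[[]],[]],[[],[[1]],[]],[],[[[1]]],[]],[[],[],[],[],[]],[[[],[[1]],[]],[[],[[]],[]],[],
[[[1]]],[]],[],[[[[1]]],[],[[[1]]]],[]],[]],[[[[[],[],[[]]],[],[],[],[[[]]]],[[[],[],[[]]],[[],[],
[[]]],[],[],[[[]]]],[[[],[],[[]]],[[],[],[[]]],[],[[],[],[]],[]],[[[],[],[[]]],[[],[],[[]]],[[[]],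
[],[[]]],[[],[[]],[[]]],[[]]],[[],[],[[[]],[],[[]]],[[[]],[],[[]]]],[[],[[],[],[]],[[],[[]],[[]]],
[[[]],[],[[]]],[[]]],[[[[]]],[],[[]],[],[[]]]],[[[[],[],[[]]],[],[],[],[[[]]]],[],[[[],[],[[]]]],
[],[],[],[[[[]]]]],[[[[[]],[],[[]]],[],[[[]],[[]]],[],[]],[[],[],[],[]],[[[],[],[[]]],[[[]],[],
[]],[],[[],[[]],[]]],[],[[],[],[[[]],[],[[]]],[[[]],[],[[]]]],[],[[[[]]],[],[[],[[]],[]],[],[[],
[],[[]]]]],[[[[],[],[[]]],[[[]],[],[]],[[[]],[[]]],[[],[[]],[]],[]],[[[],[],[[]]],[[[]],[],[[]]],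
[],[[],[[]],[]]],[[[],[],[[]]],[[[]],[],[]],[],[[],[[]],[]]],[],[[[],[]],[[],[]],[[],[[]],[[]]],
[[],[[]],[[]]],[[],[[]],[[]]]],[],[[[[]],[],[]],[[[]],[],[]],[[[]],[[]],[[]]],[[],[[]],[[]]],[[],
[[]],[[]]]]],[[[[],[],[[]]],[[[]],[],[]],[],[[],[[]],[]]],[[[],[],[[]]],[[[]],[],[[]]],[],[[],
[[]],[]]],[],[],[[],[[],[]],[[],[[]]],[[],[[]]]],[],[[],[[[]],[],[]],[[[]],[],[[]]],[],[[],
[[]]]]],[[[[[]],[],[]],[],[[[]]],[],[]],[[[[]],[],[[]]],[[],[],[[]]],[[[]],[],[[]]],[[],[[]],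
[[]]],[[]]],[],[[],[[[]],[],[]]],[[],[[],[[]],[[]]],[[],[[]]],[[[]],[[]],[[]]],[[[]],[],[[]]]],[],
[[[[]]],[[[]],[[]],[[]]],[[[]],[],[[]]],[[[]],[],[[]]],[[[]],[[]],[[]]]]],[[[[],[]],[],[[[]],[],
[[]]],[[[]]]],[[[],[]],[],[[[]],[],[[]]],[[[]],[],[[]]]],[],[[],[[],[]],[[],[[]]],[[],[[]]]],[],
[],[[],[[],[],[]],[[],[],[]],[[],[],[[]]],[[],[],[[]]]]],[[[[],[[]],[]],[],[],[[[]]],[]],[[[],
[[]],[]],[[],[],[]],[[],[[]],[[]]],[[[]],[],[[]]],[[]]],[],[[],[[],[[]],[]]],[],[[],[[],[[]],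
[[]]],[[]],[[[]]],[[[]]]],[[],[[],[[]],[[]]],[[]],[[[]]],[[[]]]]],[[[[],[],[]],[],[[],[[]],[]],[],
[]],[[[[]],[],[]],[],[[],[[]],[]],[],[[],[],[[]]]],[],[[],[[[]],[],[]],[[[]],[],[[]]],[],[[],
[[]]]],[],[],[]]],[[[[[[111547585491686653952]],[],[[1]]],[[],[],[[]]],[[[1]],[[1]],[]],[],[[[1]],
[],[[15060886320602939392]]]],[[[],[],[[1]]],[[],[],[[]]],[],[],[[[1]]]],[[],[],[],[],[]],[[[],
[]],[[[1]],[],[[1]]],[[[10468080774396772352]],[],[[1587661805973504000]]],[[],[[]],[[]]],[[[1]],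
[[1]],[]]],[],[[],[[],[[1]],[[354618406076416]]],[[],[[]],[[]]],[[[1743000258316730368]],[],
[[11547533049408016384]]],[[[3113891101933568]]]],[[],[]]],[[],[],[],[],[],[],[]],[[[[[1]],[],
[[1]]],[[],[]],[[[129424587971996352512]],[[15060323305100169216]],[]],[],[[[1]],[],
[[83168186550972317696]]]],[[],[[],[]],[[],[]],[],[[],[],[]]],[[[[1]],[],
[[12701580526953701376]]],[[[15060323305100169216]],[],[[1]]],[],[[],[[2022259187062443008]],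
[[3113891101933568]]],[]],[[]],[[[[1]],[[1]]],[],[[[101610355582304256000]],[],
[[16177787898372046848]]],[[[16177215739925102592]],[],[[1308402937357337088]]],[]],[[]],
[[[[2022259187062443008]],[],[[11565811398320062464]]],[],[[[1]],[[1308402937357337088]],[]],[],
[[[2017790204194161664]],[],[[11619300233880539392]]]]],[[[[[1]],[],[[1]]],[[[]],[],[]],
[[[10468080774396772352]],[[1448085951386550272]],[]],[[],[[]],[]],[[[1]],[],
[[3113891101933568]]]],[[[],[],[[]]],[[[]],[],[]],[],[[],[[]],[]]],[[[[10466941746888835072]],[],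
[[1]]],[[[1448085951386550272]],[],[[1]]],[],[[],[[163563762099949568]],[[493148553871360]]],[]],
[[[[]],[[]],[[]]],[[],[],[[]]],[],[[],[[]],[[]]],[]],[[[[1]],[[1]],[]],[],
[[[16177215739925102592]],[[]],[[1]]],[[[1882576112903684096]],[[]],[[1]]],[]],[[]],[[[[1]],[],
[[1587731100172648448]]],[],[[[1]],[[252768995936329728]],[[]]],[],[[[3377838300856320]],[[]],
[[1733957909454456320]]]]],[[[],[[[]],[],[]],[[],[]],[[],[[]],[]],[[],[],[]]],[[[],[],[[]]],[[[]],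
[],[]],[],[[],[[]],[]]],[[[],[]],[[],[],[]],[],[[],[],[]]],[[[[]],[],[[]]],[[],[],[[]]],[],[[],
[[]],[[]]],[]],[[[],[]],[],[[],[[]],[]],[[],[[]],[]]],[[[],[],[]],[[],[],[]]],[[[],[],[]],[],[[],
[],[[]]],[],[[],[[]],[]]]],[[[[[]],[],[]],[[[1]],[],[]],[[[1]],[],[[15061748411773747200]]],[[],
[],[]],[[[1]],[[1592096161464942592]],[]]],[[[[]],[],[]]],[[[[]],[[]],[[]]],[[],[],[[]]],[],[[],
[[]],[[]]],[]],[[[[101463885781754118144]],[],[[11566950425827999744]]],[[[16177215739925102592]],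
[],[[1738565962954833920]]],[],[[],[[2031266970032340992]],[[235599165148909568]]],[]],
[[[[669957169561393430528]],[[]],[[1299395154387435520]]],[[[92677500888739217408]],[[]],[[1]]],
[],[[[]],[[11601567726993154048]],[[1]]]],[[[],[[]],[[]]],[[],[[]],[[]]]],
[[[[102333078851719102464]],[[10430363195147034624]],[[]]],[[[16231826554036183040]],
[[1445761042771673088]],[[]]],[],[],[[[]],[[1301683805165257216]],[[235616962451886080]]]]],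
[[[[[]],[[]]],[[],[]],[[[]],[],[[]]],[[[]]],[[],[],[]]],[[],[],[[[]]],[[[]]]],[[[[]],[[]],[]],[],
[[[]],[],[[]]],[[[]],[],[[]]]],[[[],[]],[],[[],[[]],[]],[[],[[]],[]]],[[[[]],[],[[]]],[[[]],[],
[[]]],[],[[],[[]],[[]]]],[[[[]],[],[[]]],[[[]],[],[[]]]],[[[],[[]],[[]]],[],[],[[[]],[],[[]]],
[[[]],[],[[]]]]],[[[[],[[]],[]],[[],[[1]],[]],[[],[],[]],[[[1]],[],[[1]]],[[[1]],[],[[1]]]],[[[],
[[]],[]]],[[[],[[]],[]]],[[[],[[15060608903229472768]],[[22695577988890624]]],[[],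
[[1587661805973504000]],[[3391308357959680]]]],[[[],[[]],[[]]],[[],[[]],[[]]]],
[[[[111552016532270743552]],[[]],[[1]]],[[[10468080774396772352]],[[]],[[1]]]],
[[[[198180789458829312]],[[]],[[102189069757780721664]]],[[[31526890420305920]],[[]],
[[16195793501861449728]]]]],[[[[],[],[]],[[],[],[]],[[],[[]],[]],[[],[],[]],[]],[],[[[],[],[]],[],
[[]],[],[[]]],[[[],[],[]],[],[[],[],[[]]],[],[[],[[]],[]]],[[[[]],[[]],[]],[[[]]],[],[],[[],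
[[]]]],[[[],[],[]],[],[],[[],[]],[[],[]]],[[[]],[[]]]]],[[[[[],[],[[]]],[[],[]],[[],[]],[],[[],[],
[]]],[],[],[[[],[]]],[],[[]],[]],[[],[],[]],[[[[],[],[[]]],[[[]],[],[]],[[[]],[[]]],[[],[[]],[]],
[[],[],[]]],[[[],[],[[]]],[[[]],[],[]],[[],[]],[[],[[]],[]],[[],[],[]]],[[],[],[],[]],[],[[],[[],
[]],[[],[[]],[[]]],[[],[[]],[[]]],[[],[[]],[[]]]],[],[[[[]]],[[[]],[],[]],[[[]],[[]],[[]]],[[],
[[]],[[]]],[[],[[]],[[]]]]],[[[[[]],[],[[]]],[],[[[]],[[]],[]],[],[[[]],[],[[]]]],[[],[],[],[]],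
[[[[]],[],[[]]],[[[]],[],[]],[],[[],[[]],[]]],[[[],[]],[],[],[[],[],[]]],[[[[]],[[]],[]],[],[[[]],
[],[[]]],[[[]],[],[[]]]],[[]],[[[[]],[],[[]]],[],[[],[[]],[]],[],[[],[],[[]]]]],[[[[[]],[],[[]]],
[],[[[]],[[]],[]],[],[[[]],[],[[]]]],[[],[],[],[]],[[[[]],[],[[]]],[[[]],[],[]],[],[[],[[]],[]]],
[[[],[]],[],[],[[],[],[]]],[[[[]],[[]],[]],[],[[[]],[],[[]]],[[[]],[],[[]]],[]],[[]],[[[[]],[],
[[]]],[],[[],[[]],[]],[],[[],[],[[]]]]],[[[[[]],[[]],[[]]],[[],[]],[[[]],[[]],[[]]],[],[[[]],[[]],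
[[]]]],[],[[[[]],[[]],[[]]],[[],[],[[]]],[],[[[]],[[]],[[]]],[[[]]]],[[[[]],[[]],[[]]],[[],[],
[[]]],[[],[],[[]]],[[[]],[[]],[[]]],[[[]]]],[[[[]],[[]],[[]]],[],[[],[],[[]]],[[[]],[[]],[[]]],
[[[]],[[]],[]]],[],[[[[]],[[]],[[]]],[[[]]],[[[]],[[]],[]],[[[]],[[]],[]],[[[]],[[]],[[]]]]],
[[[[[]],[[]],[]],[[[]],[[]],[]],[[[]]],[[[]]],[[],[[]],[[]]]],[[[],[]],[],[[[]]],[[[]]],[]],
[[[[]],[[]],[]],[],[[[]],[[]],[[]]],[[[]],[[]],[[]]],[]],[[[[]],[[]],[]],[],[[[]],[],[[]]],[[[]],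
[],[[]]],[]],[[[[]],[[]],[[]]],[],[[],[],[[]]],[[[]],[],[[]]],[[[]],[[]],[]]],[[]],[[[],[[]],
[[]]],[],[],[[[]],[[]],[[]]],[[[]],[[]],[[]]]]],[[[],[],[],[],[]],[],[[[],[[]],[]]],[[]],[],[[]],
[]],[[[[[]],[],[[]]],[[[]],[],[[]]],[],[[],[[]],[]],[]],[[[],[],[]],[],[],[],[]],[[[[]],[],[[]]],
[],[[],[[]],[]],[],[[],[],[[]]]],[[[[]],[],[[]]],[],[[],[[]],[]],[],[[],[],[[]]]],[[[],[],[]],[],
[],[],[[],[]]],[[[],[[]],[[]]],[],[],[[[]],[[]],[]],[[[]],[[]]]],[]]],[[[[[],[],[[1]]],[[[1]],[],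
[[1]]],[],[[],[[1]],[[1]]],[]],[[],[[],[],[]],[],[[],[],[]],[]],[[[],[],[[1]]],[[],[],[[]]],[],[],
[[[1]]]],[[[[1]],[],[[1]]],[],[[],[[1]],[]],[[],[[]],[]],[[[1]]]],[[]],[[[],[[1]],
[[253354213130895360]]],[],[[],[[]],[]],[[],[[1742931539246776320]],[]],[]],[[]]],[[],[],[],[],[],
[],[]],[[[[[1]],[],[[1]]],[[[1]],[],[[1]]],[],[[],[[1]],[[1]]],[]],[[[[1]],[],[[1]]],[[[1]],[],
[[1]]],[],[[],[[1]],[[1592130779431927808]]],[]],[[],[],[],[]],[[],[]],[[],[[[1]],[[1]]],[[[1]],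
[[1]],[]],[[[1]],[[252768995936329728]],[]],[[],[],[]]],[[],[]],[[],[[[181010743923318784]],[],
[[1299325919378309120]]],[[[1587661805973504000]],[],[[1]]],[[],[],[]],[[[15042884982015283200]],
[[1733957909454456320]],[]]]],[[[],[[[]],[],[]],[[],[]],[[],[[]],[]],[[],[],[]]],[[[],[],[[]]],
[[[]],[],[]],[],[[],[[]],[]]],[[[],[]],[[],[],[]],[],[[],[],[]]],[[[[]],[],[[]]],[[],[],[[]]],[],
[[],[[]],[[]]],[]],[[[],[]],[],[[],[[]],[]],[[],[[]],[]],[]],[[[],[],[]],[[],[],[]]],[[[],[],[]],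
[],[[],[],[[]]],[],[[],[[]],[]]]],[[[[[1]],[],[[1]]],[[[]],[],[]],[[[1]],[[1]],[]],[[],[[]],[]],
[[[1]],[],[[1]]]],[[[],[],[[]]],[[[]],[],[]],[],[[],[[]],[]]],[[[[1]],[[]],[[1]]],[[[1]],[[]],
[[1]]],[],[[[]],[[1]],[[1]]],[]],[[[[]],[[]],[[]]],[[],[],[[]]],[[],[],[[]]],[[[]],[[]],[[]]],
[[[]]]],[[[[1]],[[1]],[]],[],[[[1]],[[]],[[1]]],[[[1]],[[]],[[1]]],[]],[[]],[[[[1]],[],[[1]]],[],
[[[1]],[[1]],[[]]],[],[[[24841867640307712]],[[]],[[181006208404557824]]]]],[[[[[1]],[],[[1]]],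
[[[]],[],[]],[[[1]],[[1]],[]],[],[[[1]],[],[[1]]]],[[],[[[]],[],[]]],[[[[1]],[[]],[[1]]],[[[1]],
[[]],[[1]]],[],[[[]],[[2542421024178176]],[[1]]],[]],[[[[]],[[]],[[]]],[[],[],[[]]],[[],[],[[]]],
[[[]],[[]],[[]]],[[[]]]],[[[[1]],[[1]],[]],[],[[[1]],[[]],[[1]]],[[[1587731100172648448]],[[]],
[[1]]],[]],[[[[]],[[]],[]],[],[[[]],[[]],[[]]],[[],[],[[]]],[]],[[[[1]],[],[[29381167176220672]]],
[],[[[1738531344973168640]],[[3122686105223168]],[[]]],[],[[[235616962451886080]],[[]],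
[[1592198949291163648]]]]],[[[[[]],[[]],[]],[[[]],[[]]],[[[]]],[[[]]],[[],[[]],[[]]]],[[],[],
[[[]]],[[[]]]],[[[[]],[[]],[]],[],[[[]],[[]],[[]]],[[[]],[[]],[[]]],[]],[[[[]],[[]],[]],[],[[[]],
[],[[]]],[[[]],[],[[]]],[]],[[[[]],[[]],[]],[],[[[]],[],[[]]],[[[]],[],[[]]],[]],[[[[]],[[]],[]],
[],[[[]],[],[[]]],[[],[],[[]]],[]],[[[],[[]],[[]]],[],[],[[[]],[[]],[[]]],[[[]],[[]],[[]]]]],
[[[[],[[1]],[[1]]],[[],[[]],[]],[],[[[1]],[[1]],[]],[[[1]],[[1]],[]]],[[],[[],[[]],[]]],[[[[]],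
[[1]],[[1]]],[[[]],[[1]],[[1]]],[[],[[1]],[]],[],[]],[[]],[[[[]],[[]],[]],[],[[[]],[[]],[[]]],[[],
[],[[]]],[]],[[[[1]],[[1]],[]],[],[[[1]],[[]],[[1]]],[[[1]],[],[[1]]],[]],[[[[1]],
[[16178346039001743360]],[]],[],[[[162978552421548032]],[[]],[[1587730525043458048]]],[[],[],
[[10466950475320131584]]],[]]],[[[]],[],[[],[],[]]]],[[[[[],[],[[]]],[[[]],[],[[]]],[[[]],[],
[[]]],[[],[[]],[[]]],[[[]],[[]],[]]],[[],[[],[],[[]]],[],[[],[],[]],[[[]]]],[[[],[],[[]]],[[],[],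
[[]]],[],[],[[[]]]],[[[[]],[],[[]]],[],[[],[[]]],[],[[[]]]],[[[[]],[],[[]]],[],[],[],[[],[],
[[]]]],[[[],[[]],[[]]],[],[],[[],[[]],[[]]],[]],[[[[]],[[]],[]],[],[[[]]],[[],[],[[]]],[]]],[[],
[[],[[],[],[[]]],[],[],[[[]]]],[],[[],[],[],[],[[[]]]],[],[],[[],[],[[[]]]]],[[[[[]],[],[[]]],
[[[]],[],[[]]],[[[]],[],[[]]],[[],[[]],[[]]],[[[]],[[]],[]]],[[[[]],[],[[]]],[[[]],[],[[]]],[[[]],
[],[[]]],[[],[[]],[[]]],[[[]],[[]],[]]],[],[[[],[],[[]]],[[],[],[[]]],[],[],[[[]]]],[[],[[],[[]],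
[[]]],[[],[[]]],[[[]],[[]],[[]]],[[[]],[],[[]]]],[],[[[[]]],[[[]],[[]],[[]]],[[[]],[],[[]]],[[[]],
[],[[]]],[[[]],[[]],[[]]]]],[[[[],[]],[[[]],[],[]],[[[]],[],[[]]],[[],[],[]],[[[]],[[]],[]]],[[]],
[[[],[]],[],[],[[],[],[]]],[[[[]],[],[[]]],[[[]],[],[[]]],[],[[],[[]],[[]]],[]],[[[[]],[],[[]]],
[[[]],[],[[]]],[],[[],[[]],[[]]]],[[[],[],[]],[[],[],[]]],[[[[]],[[]],[]],[[[]],[[]],[]],[],[],
[[],[[]],[[]]]]],[[[[[]],[[]],[[]]],[[],[]],[[[]],[[]],[]],[],[[[]],[],[[]]]],[],[[[[]],[[]],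
[[]]],[[],[],[[]]],[],[[],[[]],[[]]],[[[]]]],[[[],[],[[]]],[],[],[[],[],[]],[[[]]]],[[[[]],[[]],
[[]]],[],[[],[],[[]]],[[[]],[],[[]]],[[[]],[[]],[]]],[],[[[[]],[],[[]]],[],[[[]],[[]],[]],[],
[[[]],[],[[]]]]],[[[[[]],[],[[]]],[],[[[]],[[]],[]],[],[[[]],[],[[]]]],[[],[]],[[[[]],[],[[]]],
[[[]],[],[[]]],[],[[],[[]],[[]]],[]],[[[],[]],[],[],[[],[],[]]],[[[[]],[[]],[]],[],[[[]],[],[[]]],
[[[]],[],[[]]],[]],[[[]],[],[[],[],[]]],[[[[]],[],[[]]],[],[[[]],[[]],[]],[],[[[]],[],[[]]]]],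
[[[[[]],[],[[]]],[[[]]],[[[]],[[]],[]],[],[[[]],[],[[]]]],[[],[[[]]]],[[[[]],[[]],[[]]],[[[]],
[[]],[[]]],[],[[[]],[[]],[[]]]],[[[[]],[[]],[[]]],[],[[],[],[[]]],[[[]],[],[[]]],[[[]],[[]],[]]],
[[[[]],[[]],[]],[],[[[]],[],[[]]],[[[]],[],[[]]],[]],[[[[]],[[]],[[]]],[],[[[]],[],[[]]],[[],[],
[[]]],[[],[],[[]]]],[[[[]],[],[[]]],[],[[[]],[[]],[[]]],[],[[[]],[[]],[[]]]]],[[[[[]],[[]],[[]]],
[],[[]],[[[]],[[]],[[]]],[[[]],[[]],[[]]]],[],[[[[]],[[]],[[]]],[[[]],[[]],[[]]],[[],[[]],[]],[[],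
[],[[]]],[[],[],[[]]]],[],[[[[]],[[]],[]],[],[[[]],[[]],[[]]],[[],[],[[]]],[]],[[[[]],[[]],[[]]],
[],[[[]],[[]],[[]]],[[[]],[],[[]]],[[[]],[],[[]]]],[[[[]],[[]],[[]]],[],[[[]],[[]],[[]]],[[],[],
[[]]],[[],[],[[]]]]],[[[[[]],[[]],[]],[],[[[]],[],[[]]],[[[]],[],[]],[]],[[],[]],[[[[]],[[]],[]],
[[[]],[[]],[]],[],[],[[],[[]],[[]]]],[[[],[],[]],[],[],[],[[],[]]],[[[[]],[],[[]]],[],[[[]],[[]],
[]],[],[[[]],[],[[]]]],[[[[]],[],[[]]],[],[[[]],[[]],[]],[],[[[]],[],[[]]]],[[[]],[],[[],[]]]]],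
[[[[[],[]],[],[[[253617820003205120]],[],[[27060106852040704]]],[[[1]],[],[[1]]],[]],[[],[],[[],
[],[]],[[],[],[]],[]],[],[[]],[[[[29346017690255360]],[],[[2560011028922368]]],[],[[],[[1]],[]],
[[],[[]],[[]]],[[],[],[[1]]]],[[[[3113891101933568]],[],[[101603459977543942144]]],[],[[],
[[16177506420072120320]],[]],[[],[[]],[[]]],[[],[],[[29381167176220672]]]],[[]]],[[],[],[],[],[],
[],[]],[[[[[15078346569530212352]],[[1592096161464942592]]],[],[[[1]],[],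
[[11566088342173384704]]],[[[1]],[],[[1]]],[]],[[[[111268221629109370880]],
[[10395161235099484160]]],[],[[[15078346569530212352]],[],[[1299395154387435520]]],
[[[1592096161464942592]],[],[[10430363195147034624]]],[]],[[],[],[],[]],[[],
[[[11566950425827999744]],[[1738565962954833920]]],[[[102333078851719102464]],[[1]],[]],
[[[16231826554036183040]],[[1445761042771673088]],[]],[[],[],[]]],[[],[]],[[],[]],[[],[[],
[[1884793321191276544]],[[199012020183117824]]],[[],[],[]],[[[13853662138893352960]],[],[[1]]],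
[[[1301683805165257216]],[],[[15079762599846346752]]]]],[[[[[]],[[]]],[[],[]],[[[]],[],[[]]],
[[[]],[],[]],[[],[],[]]],[[],[],[[[]]],[[[]]]],[[[[]],[[]],[]],[],[[[]],[],[[]]],[[[]],[],[[]]]],
[[[],[]],[],[[],[[]],[]],[[],[[]],[]],[]],[[[[]],[],[[]]],[[[]],[],[[]]],[],[[],[[]],[[]]]],
[[[[]],[],[[]]],[[[]],[],[[]]]],[[[],[[]],[[]]],[],[],[[[]],[],[[]]],[[[]],[],[[]]]]],
[[[[[29346017690255360]],[[3113891101933568]],[]],[[[1]],[[1]],[]],[[[]],[],[[]]],[[[]]],[[],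
[[24981488841785344]],[[1]]]],[[[],[]],[],[[[]]],[[[]]],[]],[[[[253617820003205120]],[[1]],[]],[],
[[[1]],[[]],[[1]]],[[[1]],[[]],[[29381167176220672]]],[]],[[[[29381167176220672]],[[1]],[]],[],
[[[3113891101933568]],[[]],[[1]]],[[[493148553871360]],[[]],[[3122686105223168]]],[]],[[[[]],[[]],
[[]]],[],[[],[],[[]]],[[[]],[[]],[[]]],[[[]],[[]],[]]],[[]],[[[],[[2832553564700672]],[[1]]],[],
[],[[[423913544744960]],[[1]],[[]]],[[[15079762599846346752]],[[1592198949291163648]],[[]]]]],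
[[[[[]],[[]],[]],[[[]],[[]]],[[[]]],[[[]]],[[],[[]],[[]]]],[[],[],[[[]]],[[[]]]],[[[[]],[[]],[]],
[],[[[]],[[]],[[]]],[[[]],[[]],[[]]],[]],[[[[]],[[]],[]],[],[[[]],[],[[]]],[[[]],[],[[]]],[]],
[[[[]],[[]],[]],[],[[[]],[],[[]]],[[[]],[],[[]]],[]],[[[[]],[[]],[]],[],[[[]],[],[[]]],[[],[],
[[]]],[]],[[[],[[]],[[]]],[],[],[[[]],[[]],[[]]],[[[]],[[]],[[]]]]],[[[[[1]],[],
[[1585305578316496896]]],[[[]],[],[[]]],[[[1]],[[1]],[]],[],[[[15061449069749862400]],[],[[1]]]],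
[[],[[[]]]],[[[[129859222152104902656]],[[]],[[739114185953477918720]]],[[[1]],[[]],
[[110826867182268317696]]],[],[[[]],[[1308332577066614784]],[[15042880587156422656]]],[]],[[[[]],
[[]],[[]]],[],[[],[],[[]]],[[[]],[[]],[[]]],[[[]],[[]],[]]],[[[[15061449069749862400]],
[[110826867182268317696]],[]],[],[[[22695577988890624]],[[]],[[11602416408201789440]]],
[[[252210725349490688]],[[]],[[101745393717783658496]]],[]],[[[[]],[[]],[[]]],[],[[[]],[[]],[[]]],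
[[],[],[[]]],[[],[],[[]]]],[[[[1308332577066614784]],[],[[960383912475584888832]]],[],
[[[960383635539365199872]],[[101745393717783658496]],[[]]],[],[[[83456418017651490816]],[[]],
[[741346564195634126848]]]]],[[[[[1]],[],[[1]]],[[[]]],[[[1]],[[1]],[]],[],[[[1]],[],[[1]]]],[[],
[[[]]]],[[[[1]],[[]],[[1450267425126744064]]],[[[1]],[[]],[[216480854816325632]]],[],[[],[[1]],
[[1]]],[]],[[]],[[[[1]],[[216480854816325632]],[]],[],[[[3391308357959680]],[[]],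
[[22660428517605376]]],[[[1]],[],[[199851910734282752]]],[]],[[[[]],[[]],[[]]],[],[[[]],[[]],
[[]]],[[],[],[[]]],[[],[],[[]]]],[[[[1]],[],[[111261643208216543232]]],[],
[[[111261570124931399680]],[[10395456175905701888]],[[]]],[],[[[1]],[],
[[101900732754634473472]]]]],[[[[],[[]],[]],[[],[[]],[]],[[],[[]],[[]]],[[[]]],[]],[],[[[],[[]],
[[]]],[],[],[[[]],[[]],[[]]],[[[]],[[]],[[]]]],[[[],[[]],[[]]],[],[],[[[]],[[]],[]],[[[]],[[]]]],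
[[[],[[]],[[]]],[],[],[[[]],[[]],[[]]],[[[]],[[]],[[]]]],[[[[]],[],[[]]],[],[[[]],[[]],[]],[],
[[[]],[],[[]]]],[[[[]],[],[[]]],[],[[[]],[[]]],[],[[],[],[[]]]]]],[[[],[],[]],[],[[[[],[[]],[]],
[],[],[[[]]],[]],[[[],[[]],[]]],[],[[],[]],[],[[],[[],[[]],[[]]],[[]],[[[]]],[[[]]]],[[],[[],[[]],
[[]]],[[]],[[[]]],[[[]]]]],[[[],[[],[[]],[]],[],[[[]],[],[[]]],[[],[],[[]]]],[[]],[[]],[[[],[[]],
[]],[[],[[]],[]]],[[[],[],[]],[[],[],[]]],[[[[]],[],[[]]],[[[]],[],[[]]]],[[[],[],[[]]],[[],[],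
[[]]]]],[[[],[],[],[],[]],[],[[]],[[]],[],[[]],[]],[[[[],[[]],[]],[],[],[[[]],[[]],[]],[[[]],[[]],
[]]],[[],[]],[[[],[[]],[]],[[],[[]],[]]],[[]],[[[]],[],[[],[],[]]],[[[[]],[[]],[]],[],[[[]],[],
[[]]],[[],[],[[]]],[]],[[[[]],[[]],[]],[],[[],[],[[]]],[[],[],[[]]],[]]],[[[[[]],[[]],[[]]],[],
[[]],[[[]],[[]],[[]]],[[[]],[[]],[[]]]],[],[[[[]],[[]],[[]]],[[[]],[[]],[[]]]],[],[[[[]],[[]],[]],
[],[[[]],[[]],[[]]],[[],[],[[]]],[]],[[[[]],[[]],[[]]],[],[[[]],[[]],[[]]],[[],[],[[]]],[[],[],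
[[]]]],[[[[]],[[]],[[]]],[],[[[]],[[]],[[]]],[[],[],[[]]],[[],[],[[]]]]],[[[[[]],[],[[]]],[[[]]],
[[[]],[[]],[]],[],[[[]],[],[[]]]],[[],[[[]]]],[[[[]],[[]],[[]]],[[[]],[[]],[[]]]],[[]],[[[[]],
[[]],[]],[],[[[]],[],[[]]],[[],[],[[]]],[]],[[[[]],[[]],[[]]],[],[[[]],[],[[]]],[[],[],[[]]],[[],
[],[[]]]],[[[[]],[],[[]]],[],[[[]],[[]],[[]]],[],[[],[],[[]]]]],[[[[],[],[[]]],[],[[[]],[[]],[]],
[],[[]]],[],[[[],[],[[]]],[[],[],[[]]]],[],[[[[]],[[]],[]],[],[[],[],[[]]],[[],[],[[]]],[]],[[[]],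
[],[[],[]]],[[[[]],[],[[]]],[],[[[]],[[]]],[],[[],[],[[]]]]]],[[[[[[1]],[],[]],[],[[[1]],[[1]],
[]],[],[[[1]]]],[[],[],[[]],[],[[]]],[[[[1]]],[[[1]]],[[[]]]],[[]],[[[[1]],[[1]],[]],[],[[[1]]],
[[],[],[[1]]],[[],[],[[]]]],[[]],[[[[1740782595439853568]]],[],[],[[],[],[[]]],[[],[],
[[15060899176430174208]]]]],[[],[],[],[],[],[],[]],[[[[[1]],[],[[11565811398320062464]]],[],
[[[1]],[[102189069757780721664]],[]],[],[[[1]]]],[[[[16177215739925102592]],[],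
[[101896369883643379712]]],[],[[[1]],[[1]],[]],[],[[[11565811398320062464]],[],
[[102189069757780721664]]]],[],[[],[[[1587661805973504000]],[],[[15079485596920709120]]],
[[[10468080774396772352]],[],[[1]]],[[],[],[]],[[[110827043095002087424]],
[[16195793501861449728]],[]]],[],[[],[],[],[[],[],[[1]]],[[],[],[[111547618511793684480]]]],[]],
[[[[],[],[]],[[],[],[]],[[],[[]],[]],[[],[],[]],[[]]],[],[[[],[],[]],[],[[]],[],[[]]],[[[],[],[]],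
[],[[],[],[[]]],[],[[],[[]],[]]],[[[[]],[[]],[]],[[[]]],[],[],[[],[[]]]],[[[],[],[]],[],[],[[],
[]],[[],[]]],[[[]],[[]]]],[[[[[1]],[],[[1740782595439853568]]],[[[1]],[],[[1]]],[[],[[]],[]],[[],
[[15060899176430174208]],[]],[]],[[[],[],[]],[],[],[],[]],[[[[1]],[],[[1]]],[],[[[1]],[[1]],[[]]],
[],[[[1]],[[]],[[15060899176430174208]]]],[[[[1]],[],[[1]]],[],[[[1]],[[1]],[[]]],[],
[[[162978552421548032]],[[]],[[1587730525043458048]]]],[[[[]],[[]],[[]]],[[[]]],[[[]]],[[[]],[[]],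
[]],[[[]],[[]]]],[[[],[[1]],[[1]]],[],[],[[[1]],[[1]],[]],[[[111547618511793684480]],
[[10466950475320131584]]]],[]],[[[]],[],[[],[],[]]],[[[[[1]],[[11565811398320062464]],[]],[[],
[[]],[]],[[[1]],[],[[1]]],[[[111558738988901597184]],[],[]],[]],[[],[]],[[[[1]],
[[1450267425126744064]],[[]]],[[[1]],[[216480854816325632]],[[]]],[],[],[[[]],[[1]],
[[24981488841785344]]]],[[[[]],[[]],[[]]],[[[]]],[[[]]],[[[]],[[]],[]],[[[]],[[]]]],[[[[1]],[],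
[[162714945547403264]]],[],[[[15079485596920709120]],[[22660428517605376]],[[]]],[],
[[[1299325919378309120]],[[]],[[11565538722757738496]]]],[[[[1]],[],[[1880394699278123008]]],[],
[[[1880394699278123008]],[[199851910734282752]],[]],[],[[[162714945547403264]],[],
[[101900732754634473472]]]],[[[[]],[],[[]]],[],[[[]],[[]]],[],[[],[],[[]]]]],[[[[],[[]],[]],[[],
[[]],[]],[[],[[]],[[]]],[[[]]],[]],[],[[[],[[]],[[]]],[],[],[[[]],[[]],[[]]],[[[]],[[]],[[]]]],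
[[[],[[]],[[]]],[],[],[[[]],[[]],[]],[[[]],[[]]]],[[[],[[]],[[]]],[],[],[[[]],[[]],[[]]],[[[]],
[[]],[[]]]],[[[[]],[],[[]]],[],[[[]],[[]],[]],[],[[[]],[],[[]]]],[[[[]],[],[[]]],[],[[[]],[[]]],
[],[[],[],[[]]]]],[[[[[1]],[],[[1]]],[],[[[1]],[[1]],[]],[],[[]]],[],[[[[1]],[[]],
[[741401429625068847104]]],[[[1]],[[]],[[111547618511793684480]]],[],[[],[],[[1]]],[]],[],[[[[1]],
[[111547618511793684480]],[]],[],[[[1589879528979693568]],[[]],[[11584397337891700736]]],[[],[],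
[[101614753602781315072]]],[]],[[[[]],[],[[]]],[],[[[]],[[]]],[],[[],[],[[]]]],[[[[1]],[],
[[963897547291531149312]]],[],[[[963897547291531149312]],[[101614753602781315072]]],[],[[[1]],[],
[[741401429625068847104]]]]]]] : List (List (List (List (List (List (List (ℕ))))))))

end Pool.Agent.Helper26.WD
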