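import Pool.Agent.Helper26.WD.AlgP

/-!
# Intermediate states of the computation for the Whitehead double
-/

namespace Pool.Agent.Helper26.WD

/-- State number 12. -/
def wst12 : L ℕ 7 := (
[[[[[[[130005446736314630144]],[],[[11547801604014997504]]],[[[]]],[[[47524614522834167791616]],
[[1]],[]],[[[]]],[[[7093356349326706606080]],[],[[15079468000455163904]]]],[[[[]],[],[[]]],[[[]]],
[[[]],[[]],[]],[[[]]],[[[]]]],[[[[1]],[[]],[[29346017690255360]]],[[[111547585491686653952]],[[]],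
[[10413738717830447104]]],[[[]],[[]],[[]]],[[[]],[[252492059582136320]],[[1452516991288999936]]],
[[[]]]],[[[[]]],[[[]],[],[[]]],[[[]],[],[[]]],[[],[]],[[],[]]],[[[[7139041040427361763328]],
[[217043734909419520]],[]],[[[]],[[]],[[]]],[[[963896724518588121088]],[[]],
[[102324247591632502784]]],[[[1452516991288999936]],[[]],[[669884271800885444608]]],[[],[[]],
[[]]]],[[[[]]],[[],[],[[]]],[[],[]],[[],[],[[]]],[[],[],[[]]]],[[[[235616958089789440]],[],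
[[22695577988890624]]],[[[]]],[[[1738459876851449856]],[[1]],[[]]],[[],[[]],[[]]],
[[[163840705851031552]],[[]],[[2031336187578286080]]]]],[[[[[]]],[],[[[]]],[[]],[[],[],[[]]]],
[[[[]]],[[[]]],[[[]]],[[[]]],[[[]]]],[[],[[[]]]],[[[[]]],[[[]],[],[[]]],[[[]],[],[[]]],[[],[]],
[[],[]]],[[[]],[],[[[]],[],[[]]]],[[[[]]],[[],[],[[]]],[[],[]],[[],[],[[]]],[[],[],[[]]]],[[],[],
[[],[]]]],[[[[[47594996197194435919872]],[],[[83737751183534587904]]],[[[]],[],[[]]],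
[[[380768900287102411866112]],[[740284827252991983616]],[]],[[[]]],[[[61685967646665920741376]],
[],[[6540098212131476865024]]]],[[[[111547585491686653952]],[[]],[[15079485596920709120]]],[[[]]],
[[[66193872719399140458496]],[[111266006078282792960]],[]],[[[]],[[]],[[]]],
[[[130005517121714388992]],[],[[1]]]],[[],[[]],[],[],[]],[[[[]],[],[[]]],
[[[963896724518588121088]],[[]],[[110968906509436583936]]],[[[7139045471467945852928]],[[]],
[[1036477017998453899264]]],[[[]],[[]],[[]]],[[[16196659776262766592]],[[20480088231378944]],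
[[]]]],[[[]],[],[[]],[],[]],[[[[]],[[]],[[]]],[[[]],[[120349730234754564096]],
[[888993136991140315136]]],[[[]],[[]],[[]]],[[[886597780740968022016]],[[]],
[[6520924065258687954944]]],[[[1738459876851449856]],[[]],[[818648032655996354560]]]],[[],[],[[],
[]],[],[]]],[[[[[]],[],[[]]],[[[]],[],[[]]],[[[]],[[]],[]],[[[]],[[]],[[]]],[[[]],[],[[]]]],[[],
[],[],[],[[],[],[[]]]],[[[[]],[],[[]]],[],[[[]],[[]]],[],[[[]],[],[[]]]],[[[[]],[],[[]]],[[],[[]],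
[[]]],[[[]],[[]],[[]]],[],[[[]],[[]],[[]]]],[[[[]],[[]],[]],[[[]],[[]]],[],[],[[],[[]],[[]]]],
[[[[]],[[]],[[]]],[[[]],[[]],[[]]],[],[[[]],[[]],[[]]],[[[]],[[]],[[]]]],[[[[]],[],[[]]],[],[],
[[],[[]],[[]]],[]]],[[[[[7139045471467945852928]],[[]],[[15060886320602939392]]],
[[[66186954636288505937920]],[[]],[[111547585491686653952]]],[[[]],[[]],[[]]],[[[]],
[[129426841927625474048]],[[812918323288396005376]]],[[[]]]],[[],[[]],[],[],[[]]],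
[[[[963896724518588121088]],[[]],[[2031335105254916096]]],[[],[[]],[[]]],
[[[6530149831507213025280]],[[1]],[[]]],[[[]],[[]],[[]]],[[[1]],[[]],[[1]]]],
[[[[7139045471467945852928]],[[]],[[664156278219050319872]]],[[],[[]],[[]]],
[[[42507062962422993125376]],[[92675285337912639488]],[[]]],[[[]],[[]],[[]]],[[[1]],[[]],[[1]]]],
[[[[]]],[[],[]],[[[]],[[]]],[[],[]],[[[]],[[]],[[]]]],[[[[]],[[12683842999214931968]],
[[110826868281784139776]]],[[[]],[[]],[[]]],[[[]],[[]],[[]]],[[[22518582522937344]],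
[[1034225200525911523328]],[[]]],[[[1]],[[1]],[[]]]],[[[[]]],[[]],[[],[],[]],[[[]],[[]],[[]]],[[],
[]]]],[[[[[]],[],[[]]],[[[]],[],[[]]],[[[]],[],[[]]],[[[]],[[]],[[]]],[[[]],[[]],[]]],[[],[[]],
[[],[],[[]]],[[],[]],[[],[[]]]],[[[[]],[],[[]]],[[],[[]],[[]]],[[[]],[[]],[[]]],[],[[[]],[[]],
[[]]]],[[[[]],[],[[]]],[],[[[]],[[]]],[],[[[]],[],[[]]]],[[[[]],[],[[]]],[],[[[]],[[]]],[],[[[]],
[],[[]]]],[[[[]],[[]],[[]]],[],[[[]],[[]],[[]]],[[[]],[[]],[[]]],[[[]],[[]],[[]]]],[[[[]],[[]],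
[]],[],[[],[],[[]]],[[[]],[],[[]]],[]]],[[[[[61614431625413035819008]],[[111549801042513231872]],
[]],[[[]],[[]],[[]]],[[[453375296114643521503232]],[[]],[[963951898353519820800]]],
[[[740177018009732251648]],[[]],[[6549177435436829638656]]],[[],[[]]]],[[[]],[],[[]],[],[[],
[[]]]],[[[[453356549915322125123584]],[[11565828994901213184]],[]],[[[42508306532133027184640]],
[[1]],[[]]],[[[]],[[]],[[]]],[[[]],[[]],[[]]],[[[]],[[29346017690255360]],[[1]]]],[[[[]]],[[],[]],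
[[[]],[[]]],[[],[]],[[[]],[[]],[[]]]],[[[[61687174043807602704384]],[[]],
[[6493407039632168714240]]],[[[]],[[]],[[]]],[[[417348505624170125590528]],
[[1034171166192007905280]],[[]]],[[[]],[[]],[[]]],[[[216181651254804480]],[[]],
[[1596633288137506816]]]],[[[[83595924035799613440]],[[]],[[42505982960529540382720]]],[[[]],[[]],
[[]]],[[[199011605751529472]],[[5903831803573305409536]],[[]]],[[[]],[[]],[[]]],
[[[24877043292307456]],[[]],[[10466950682601586688]]]],[[[],[[]],[[]]],[[],[],[[]]],[[[]],[[]],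
[[]]],[[],[],[]],[[[]],[],[]]]],[[[[[]],[[]],[[]]],[[],[[]],[[]]],[[[]],[[]],[[]]],[[[]],[],[[]]],
[[[]],[],[[]]]],[[[]],[],[[],[]],[],[]],[[[[]]],[[[]]],[],[[],[[]],[[]]],[[],[[]],[[]]]],[[[],[],
[[]]],[],[],[[],[[]]],[[],[[]]]],[[[],[]],[],[[[]],[],[[]]],[[[]],[[]],[[]]],[[[]],[[]],[[]]]],
[[[],[],[[]]],[],[[],[[]]],[],[[[]],[],[[]]]],[[[],[],[[]]],[],[[],[[]]],[],[[[]],[],[[]]]]],
[[[[[129276006533339217920]],[],[[959303598253200113664]]],[[[]]],[[[962708319636991246336]],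
[[7093075015113396715520]],[[]]],[[],[[]],[[]]],[[[8292106517852977102848]],[[]],
[[816287865041792532480]]]],[[[]],[[]],[[],[]],[[],[[]]],[]],[[[[961626606841117802496]],[],
[[83303260446349328384]]],[[[102335332867863838720]],[[]],[[1]]],[[[]],[[]],[[]]],[[[]],
[[742500334527561859072]],[[1]]],[[[]],[[]],[[]]]],[[[[]]],[[]],[[],[],[]],[[[]],[[]],[[]]],[[],
[]]],[[[[120050417889091518464]],[[11530345344072417280]],[[]]],[[[]],[[]],[[]]],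
[[[744896807734378233856]],[[]],[[83303259346563006464]]],[[[6511851529157419728896]],[[]],
[[963860977196496846848]]],[[[]],[[]],[[]]]],[[[],[[]],[[]]],[[],[],[[]]],[[[]],[[]],[[]]],[[],[],
[]],[[[]],[],[]]],[[[[888921070872649007104]],[[]],[[8319927577144335695872]]],[[[]],[[]],[[]]],
[[[24841867640307712]],[[960491700143092682752]],[[]]],[[[]],[[]],[[]]],[[[15096070561695006720]],
[[]],[[5368146640637702209536]]]]]],[[[[],[],[[]]],[],[[],[[]]],[],[[],[],[[],[],[[]]]],[[],[],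
[[],[]]],[[],[],[[],[]]]],[[[[]],[],[[]],[[]],[[],[],[[]]]],[[],[]],[[],[[[]]]],[[],[[[]]],[[[]],
[],[[]]],[[],[[]]],[[],[[]]]],[[],[],[[[]],[],[[]]]],[[],[],[[],[[]]]],[[],[],[[],[[]]]]],[[[[]],
[],[[]],[[]],[[],[],[[]]]],[],[],[[],[[]],[[],[],[[]]],[[],[]],[[],[]]],[],[]],[[[[[]],[],[[]]],
[[[]],[],[[]]],[[[]],[[]],[]],[[[]]],[[[]]]],[],[[],[],[[[]]],[],[[[]]]],[[[[]],[],[[]]],[[],[],
[[]]],[[[]],[],[[]]],[],[[[]],[[]],[]]],[[[[]]],[[[]]],[],[],[[],[[]],[[]]]],[[[[]]],[],[],[[],[],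
[[]]],[[],[],[[]]]],[[[[]]],[],[],[[],[],[[]]],[]]],[[[],[[[]]]],[],[],[[[[]]]]],[[[[[]],[],[[]]],
[[[]],[],[[]]],[[[]],[],[[]]],[[],[[]]],[[],[[]]]],[[],[],[[],[],[[]]]],[[[[]],[],[[]]],[[],[],
[[]]],[[[]],[],[[]]],[],[[[]],[[]],[]]],[[[[]],[],[[]]],[],[[[]],[[]]],[],[[[]]]],[[[[]],[],[[]]],
[],[[[]],[[]]],[],[[[]]]],[[[],[[]]],[],[],[[],[[]],[]]],[[[],[[]]]]],[[[],[],[[[]],[],[[]]]],[],
[],[],[[[[]],[],[[]]]]],[[[[[]]],[[],[],[[]]],[[],[[]]],[[],[],[[]]],[[],[],[[]]]],[],[[[[]]],[],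
[],[[],[],[[]]],[[],[],[[]]]],[[],[],[],[[],[[]]]],[[[],[[]]],[],[],[[],[[]],[]]],[[[],[],[[]]],
[],[[],[[]]],[],[[[]]]],[[],[],[],[],[[[]]]]],[[[],[],[[],[[]]]],[],[],[],[[[],[[]]]]]],[[[[[[1]],
[],[[1589879528979693568]]],[[]],[[[1306116468429029376]],[[740211929492483997696]],[]],[[]],
[[[963879822892434718720]],[],[[8320353095789720895488]]]],[[[[]],[],[[]]],[[]],[[[]],[[]],[]],
[[]],[]],[[[[1]],[],[[11584397337891700736]]],[[[1]],[],[[101614753602781315072]]],[],[[],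
[[83735603802561052672]],[[963897547291531149312]]],[]],[[[]],[[[]],[],[[]]],[[[]],[],[[]]],[[],
[[]]],[[],[[]]]],[[[[253617820003205120]],[[101614753602781315072]],[]],[],[[[1]],[],
[[741401429625068847104]]],[[[963897547291531149312]],[],[[1]]],[]],[[[]],[[],[],[[]]],[[],[]],
[[],[],[[]]],[[],[],[[]]]],[[[[83735603802561052672]],[],[[1]]],[],[[[1]],[[1]],[]],[],[[[1]],[],
[[1036567366995957252096]]]]],[[[[[1]],[],[[15079485596920709120]]],[[]],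
[[[817459091149406601216]],[[1880394699278123008]],[]],[[]],[[[1452482915823779840]],[],
[[10413756515033808896]]]],[[],[],[[]],[[]]],[[[[1]],[],[[1587661805973504000]]],[[[1]],[],
[[10468080774396772352]]],[],[[],[[15060608903229472768]],[[111552016532270743552]]],[]],[[[]],
[[]],[[]],[[],[]],[[],[]]],[[[[111549801042513231872]],[[10468080774396772352]],[]],[],[[[1]],[],
[[101610355582304256000]]],[[[111552016532270743552]],[],[[10395161235099484160]]],[]],[[[]],[],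
[]],[[[[15043161851646464000]],[],[[102189069757780721664]]],[],[[[101603459977543942144]],
[[669938596810676240384]],[]],[],[[[966256892540814360576]],[],[[6503060607722116513792]]]]],[[[],
[],[[]]],[],[[],[[]],[],[],[]],[],[[],[],[[]],[],[]],[],[[],[],[[],[]],[]]],[[[[[]]],[],[[[]]],
[[]],[[[]]]],[[[[1]],[],[[27060106852040704]]],[[[]],[],[[]]],[[[129859222152104902656]],
[[253617820003205120]],[]],[[[]]],[[[742589817246300766208]],[],[[1]]]],[[[[1]],[],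
[[15060886320602939392]]],[[],[],[[]]],[[[1]]],[],[[[1]]]],[[[]],[],[],[],[]],
[[[[742499476771019161600]],[[111547585491686653952]],[]],[[[1]]],[[[]],[],[[]]],[[],[],[[]]],[[],
[[1]],[[110826867182268317696]]]],[[[]],[],[],[],[]],[[[[6530447034456993890304]],[],
[[11565811398320062464]]],[[[16177506420072120320]]],[[[]],[[]],[]],[[],[[111558738988901597184]],
[[1037630489118199250944]]],[[],[],[[]]]]],[[],[[],[[]],[],[],[]],[],[],[],[],[[]]],[[[],[[[]],[],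
[[]]],[[[]],[],[[]]],[],[]],[[[[]],[],[[]]],[[[1]],[],[[235049337409765376]]],[[[1]],[],
[[1731846838530605056]]],[[],[]],[[[1]],[[1]],[]]],[[[]],[],[],[],[]],[[[[1]],[],
[[83735533975110680576]]],[[],[],[[]]],[[[1]],[[1]]],[],[[[1]],[],[[1]]]],[[[[1]],[],
[[963896724518588121088]]],[[[]],[],[[]]],[[[1]],[[1]]],[[],[[]],[]],[[[1]],[],[[1]]]],[[],[],[],
[],[]],[[[[11548918366446813184]],[[1]],[]],[[[]],[[]],[]],[[[111124176260024041472]],[],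
[[11584397337891700736]]],[[[1034242933243352186880]],[],[[101614753602781315072]]],[]]],[[],[[],
[],[[]],[],[]],[],[],[],[],[[]]],[[[[]],[[],[],[[]]],[],[[],[],[[]]],[]],[[[[]]],[[],
[[216480854816325632]],[[2028942560025640960]]],[[],[]],[[[2028942560025640960]],[],[[1]]],[[[1]],
[],[[5331120510706701565952]]]],[[[]],[],[],[],[]],[[[],[[120487090564823515136]],
[[892380683933493231616]]],[],[],[[],[[1]]],[[],[[1]]]],[[],[],[],[],[]],
[[[[892380683933493231616]],[],[[22695577988890624]]],[[],[],[[]]],[[],[[1]]],[[],[[]],[]],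
[[[162714945547403264]],[],[[1]]]],[[[[83156858840211783680]],[],[[61689372099428548870144]]],[[],
[],[[]]],[[],[[101603636973009895424]]],[],[[[111261643208216543232]],[],
[[741382861134959214592]]]]],[[],[[],[],[[],[]],[]],[],[[]],[],[[]]]],[[[[[]],[],[[[]],[[]],[]],
[[]],[[],[],[[]]]],[[[[]],[],[[]]],[[]],[[[]],[[]],[]],[[[]],[[]],[[]]],[[]]],[[[[]],[],[[]]],
[[[]],[],[[]]],[],[[],[[]],[[]]],[]],[[[]],[[[]],[],[[]]],[[[]],[],[[]]],[[[]],[[]],[[]]],[[],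
[[]]]],[[[[]],[[]],[]],[],[[[]],[],[[]]],[[[]],[],[[]]],[]],[[[[]],[[]],[[]]],[[],[[]],[[]]],
[[[]],[[]],[[]]],[[[]],[],[[]]],[[[]],[],[[]]]],[[[]],[],[[],[[]]],[],[[[]],[],[[]]]]],[[[[]],[],
[[[]],[[]],[]],[[]],[[[]],[],[[]]]],[[],[],[[]],[[]]],[[],[[]],[],[[],[[]],[[]]]],[],[[[]],[],[[],
[],[[]]],[[[]],[],[[]]]],[],[[[]],[],[[],[[]]],[],[[[]],[],[[]]]]],[[[[[]]],[],[[[]]],[[]],[[[]],
[],[[]]]],[[],[],[[]],[[]]],[[[[]],[],[[]]],[[[]],[],[[]]],[],[[],[[]],[[]]],[]],[[],[],[],[]],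
[[[[]],[[]],[]],[],[[[]],[],[[]]],[[[]],[],[[]]],[]],[[[]]],[[[[]],[],[[]]],[],[[[]],[[]],[]],[],
[[[]],[],[[]]]]],[[[[[]]],[[[]]],[[[]]],[[[]]],[[[]]]],[[[[]],[],[[]]],[[[]]],[[[]],[[]],[]],
[[[]],[[]],[[]]],[[]]],[[],[[],[[]],[[]]],[[],[[]]],[[[]],[[]],[[]]],[[[]],[],[[]]]],[],[[[]],[[],
[[]]],[[[]],[[]],[[]]],[[[]],[[]],[[]]],[[],[[]],[[]]]],[],[[[],[],[[]]],[[[]],[],[[]]],[[[]],
[[]],[[]]],[[],[[]],[[]]],[[[]],[[]],[[]]]]],[[[[[]],[],[[]]],[[[]],[],[[]]],[],[[],[[]],[[]]],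
[]],[[[[]],[],[[]]],[[[]],[],[[]]],[],[[],[[]],[[]]],[]],[],[],[[],[[],[[]]],[[],[[]]],[[[]],
[[]]]],[],[[],[[],[],[[]]],[[],[],[[]]],[[],[],[]],[[[]],[[]],[]]]],[[[[[]]],[[[]],[],[[]]],[[[]],
[],[[]]],[[],[]],[[],[]]],[[[[]]],[[[]],[],[[]]],[[[]],[],[[]]],[[[]],[[]],[[]]],[[],[[]]]],[],
[[[]],[[],[[]],[[]]],[[],[[]]],[[[]],[[]],[[]]],[[[]],[],[[]]]],[[[],[],[[]]],[[[]],[[]],[[]]],
[[],[[]]],[[[]],[[]],[[]]],[[[]],[],[[]]]],[],[[[],[[]]],[[[]],[[]],[[]]],[[[]],[],[[]]],[[[]],[],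
[[]]],[[[]],[[]],[[]]]]],[[[[[]],[[]],[]],[],[[[]],[],[[]]],[[[]],[],[[]]],[]],[[[[]],[[]],[]],[],
[[[]],[],[[]]],[[[]],[],[[]]],[]],[[[]],[],[],[]],[[],[[],[[]]],[[],[[]]],[[[]],[[]]]],[],[[],[]],
[[],[[],[[]],[[]]],[[],[],[]],[[[]],[],[[]]],[[[]],[],[[]]]]],[[[[[]]],[[],[],[[]]],[[],[]],[[],
[],[[]]],[[],[],[[]]]],[[[[]],[[]],[[]]],[[],[[]],[[]]],[[[]],[[]],[[]]],[[[]],[],[[]]],[[[]],[],
[[]]]],[],[[],[[[]]],[[[]],[],[[]]],[[],[]],[[],[[]]]],[],[[],[[],[[]]],[[],[]],[[[]],[[]],[[]]],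
[[],[],[[]]]],[[],[[],[[]]],[[],[[]]],[[[]],[[]],[[]]],[[],[],[[]]]]],[[[[[]],[],[[]]],[],[[[]],
[[]],[]],[],[[[]],[],[[]]]],[[[[]],[],[[]]],[],[[[]],[[]],[]],[],[[[]],[],[[]]]],[],[[],[],[[],[],
[[]]],[],[[],[[]]]],[],[[],[[],[[]],[[]]],[],[[[]],[],[[]]],[[[]],[],[[]]]],[]]],
[[[[[[7120875561323249795072]],[],[[15060886320602939392]]],[[]],[[[61840423367625407201280]],
[[1452482915823779840]],[]],[[]],[[[1598815285874262016]],[],[[16160613525570453504]]]],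
[[[[10468080774396772352]],[],[[1587661805973504000]]],[[]],[[[111552016532270743552]],
[[10468080774396772352]],[]],[[[]],[[]],[[]]],[[[15060608903229472768]],[],[[1]]]],[[],[[]],[],[],
[]],[[[]],[[[101610355582304256000]],[],[[11584687611092402176]]],[[[669957169561393430528]],[],
[[101610355582304256000]]],[[[]],[[]],[[]]],[[[1]],[[10395161235099484160]],[]]],[[],[],[[]],[],
[]],[[[[]],[[]],[[]]],[[],[[12790530809351385088]],[[83884224282070515712]]],[[[]],[[]],[[]]],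
[[[83309981210370932736]],[],[[741382861134959214592]]],[[[11565811398320062464]],[],
[[6503060607722116513792]]]],[[],[],[[],[]],[]]],[[],[],[],[],[],[],[]],
[[[[[892452750391254188032]],[],[[83168186550972317696]]],[[]],[[[6530732943206021955584]],
[[741347109349405753344]],[]],[[]],[[[671109528386715004928]],[],[[8291960293259909038080]]]],[[],
[],[[]],[[]]],[[[[101610355582304256000]],[],[[16177787898372046848]]],[[[669957169561393430528]],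
[],[[92668354051109486592]]],[],[[],[[111412372508634022912]],[[1036585667266434052096]]],[]],
[[[]],[[]],[[]],[[],[]],[[],[]]],[[[[1037702274103129681920]],[[92668354051109486592]],[]],[],
[[[6511988996199986266112]],[],[[1038854632386075566080]]],[[[1037703105400458719232]],[],
[[129273753650644257792]]],[]],[[[]],[],[]],[[[[111412372508634022912]],[],
[[12700722770494894080]]],[],[[[15043162124443987968]],[[129273753650644257792]],[]],[],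
[[[101754437733753913344]],[],[[47371312255191905226816]]]]],[[[[[1]],[],
[[15061748411773747200]]],[[[]]],[[[811675879616816611328]],[[111549801042513231872]],[]],[[[]]],
[[[6502630550774288154624]],[],[[11566950425827999744]]]],[[],[[[]]],[[]],[[[]]]],
[[[[669957169561393430528]],[[]],[[1299395154387435520]]],[[[92677500888739217408]],[[]],[[1]]],
[],[[[]],[[11601567726993154048]],[[1]]]],[[[[]],[],[[]]],[],[[],[],[[]]],[[[]],[[]],[[]]],[]],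
[[[[6502909668406390358016]],[[16250135760258727936]],[]],[],[[[1034225200525911523328]],[[]],
[[1738565962954833920]]],[[[101747680684915490816]],[[]],[[1035378425492505382912]]],[]],[[[[]],
[[]],[[]]],[],[[[]],[[]],[[]]]],[[[[10484402200885084160]],[],[[129282761374423908352]]],[],
[[[1738600579982295040]],[[15061453327152734208]],[[]]],[],[[[235616962451886080]],[[]],
[[7084283989198985232896]]]]],[[[[[]],[],[[]]],[[[]],[],[[]]],[[]],[[],[],[[]]],[[]]],[[[[]]],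
[[[]]],[],[[],[],[[]]]],[[[[]],[],[[]]],[[[]],[],[[]]],[],[[],[[]],[[]]]],[[[[]],[],[[]]],[[[]],
[],[[]]],[],[[],[[]],[[]]],[]],[[[]],[[],[[]],[]],[[],[[]],[]],[[[]],[[]],[]]],[[[],[[]],[[]]],[],
[[],[[]],[[]]]],[[[[]]],[[[]],[],[[]]],[[[]],[],[[]]],[],[[[]],[[]],[]]]],[[[[[]]],
[[[11584687611092402176]],[],[[83305474854177865728]]],[[[101610355582304256000]],[],
[[962709159940934074368]]],[[],[],[]],[[[11565811398320062464]],[[1]],[]]],[[[[]]],[[[]]],[[[]],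
[],[[]]],[[],[]],[[],[]]],[[[[]],[],[[]]],[],[[],[],[[]]],[[[]],[[]],[[]]],[]],
[[[[6530870373895173570560]],[[]],[[12736769291719540736]]],[[[1034225200525911523328]],[[]],
[[1]]],[],[[[]],[[129280542567879999488]],[[1]]],[]],[[[[42507136709004314279936]],[[]],
[[111268221629109370880]]],[[[5903831838250462412800]],[[]],[[16250135760258727936]]],[],[[[]],
[[737907485408846942208]],[[1738531344973168640]]],[]],[[[[]],[[]],[[]]],[[[]],[[]],[[]]]],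
[[[[102180028499164725248]],[[742482601601848049664]],[[]]],[[[16232103630998626304]],
[[110824617590067953664]],[[]]],[],[],[[[]],[[31701128651607040]],[[15078069218745253888]]]]],
[[[[[]],[[]],[]],[[]],[[[]],[],[[]]],[[],[],[[]]],[[],[]]],[[[[]]],[],[[[]],[],[[]]],[[],[],
[[]]]],[[[[]],[[]],[]],[],[[[]],[],[[]]],[[[]],[],[[]]],[]],[[[]],[[],[[]],[]],[[],[[]],[]],[[[]],
[[]],[]]],[[[[]],[],[[]]],[[[]],[],[[]]],[],[[],[[]],[[]]],[]],[[[[]],[],[[]]],[],[],[[],[[]],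
[[]]]],[[[],[[]]],[[],[[]],[[]]],[],[[[]],[],[[]]],[[[]],[],[[]]]]],[[[[[]]],[[],
[[120493987294189977600]],[[892398408340105854976]]],[[],[],[]],[[[892398408340105854976]],[],
[[111552016532270743552]]],[[[83161289880795873280]],[],[[61689372099428548870144]]]],[[],[],[[],
[]]],[[[[]],[[]],[[]]],[],[[[]],[[]],[[]]]],[[[[]],[[10395161235099484160]],
[[92819402218205609984]]],[],[[[]],[[10468080774396772352]],[[1]]],[],[]],[[[[]],[[]],[[]]],[[[]],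
[[]],[[]]]],[[[[120631203596825788416]],[[]],[[13872226017249329152]]],[[],[],
[[1880394699278123008]]],[],[[[]],[[102044849592112087040]],[[3391308357959680]]],[]],
[[[[11601295044837113856]],[[]],[[6549179649354362880000]]],[[],[],[[1039989812444843212800]]],[],
[[[]],[[162701748205002752]],[[1878109398327459840]]],[]]],[[[[[]],[],[[]]],[[]],[[[]],[[]],[]],
[[],[]],[]],[[[]],[],[],[],[]],[[[[]],[],[[]]],[],[[],[[]]],[],[[],[],[[]]]],[[[]],[[],[]],[[],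
[]],[],[[],[],[]]],[[[[]],[[]],[]],[[],[[]]],[],[],[[],[],[[]]]],[[[],[]],[[],[],[[]]],[],[[],[],
[[]]],[[[]],[],[[]]]],[[[],[]],[],[],[[],[],[]]]]],[[[[[[]],[],[[]]],[[]],[[[]],[[]],[]],[[[]],
[[]],[[]]],[[[]],[],[[]]]],[[],[],[[[]],[[]],[]],[[]],[[],[],[[]]]],[[[[]],[],[[]]],[],[],[],[[],
[],[[]]]],[[[]],[],[[],[],[[]]],[],[[],[[]]]],[[[[]],[[]],[]],[[],[[]]],[],[],[[],[[]],[[]]]],
[[[[]],[[]],[[]]],[[],[[]],[[]]],[],[[[]],[],[[]]],[]],[[[[]],[],[[]]],[[],[],[[]]],[],[[],[[]],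
[[]]],[]]],[[],[[],[],[[[]],[[]],[]],[],[[],[],[[]]]],[],[],[[],[],[],[],[[],[[]]]],[],[[],[],[],
[[],[[]]]]],[[[[[]],[],[[]]],[[[]]],[[[]],[[]],[]],[[[]],[[]],[[]]],[[[]],[],[[]]]],[[[[]],[],
[[]]],[[[]]],[[[]],[[]],[]],[[[]],[[]],[[]]],[[[]],[],[[]]]],[[],[[],[[]],[[]]],[[],[[]]],[[[]],
[[]],[[]]],[[[]],[],[[]]]],[],[[[[]],[[]],[]],[[],[[]]],[[],[[]],[[]]],[[[]],[[]],[[]]],[[],[[]],
[[]]]],[],[[[],[],[[]]],[[[]],[],[[]]],[[[]],[[]],[[]]],[[],[[]],[[]]],[[[]],[[]],[[]]]]],[[[[[]],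
[],[[]]],[[]],[[[]],[[]],[]],[[]],[[[]],[],[[]]]],[[],[],[[]],[[]]],[[[[]],[],[[]]],[[[]],[],
[[]]],[],[[],[[]],[[]]]],[[[]],[],[],[[],[],[]]],[[[[]],[[]],[]],[],[[[]],[],[[]]],[[[]],[],[[]]],
[]],[[[]],[],[[],[],[]]],[[[[]],[],[[]]],[],[[[]],[[]],[]],[],[[[]],[],[[]]]]],[[[[[]],[],[[]]],
[[[]]],[[[]],[[]],[]],[],[[[]],[],[[]]]],[[],[[[]]]],[[[[]],[[]],[[]]],[[[]],[[]],[[]]],[],[[[]],
[[]],[[]]]],[[[[]],[[]],[[]]],[],[[],[],[[]]],[[[]],[],[[]]],[[[]],[[]],[]]],[[[[]],[[]],[]],[],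
[[[]],[],[[]]],[[[]],[],[[]]],[]],[[[[]],[[]],[[]]],[],[[[]],[],[[]]],[[],[],[[]]],[[],[],[[]]]],
[[[[]],[],[[]]],[],[[[]],[[]],[[]]],[],[[[]],[[]],[[]]]]],[[[[[]],[],[[]]],[[[]],[[]],[]],[[[]],
[[]],[]],[],[[],[[]],[[]]]],[],[[[[]],[],[[]]],[],[[],[],[[]]],[[[]],[[]],[[]]],[[],[[]]]],[[[[]],
[[]],[[]]],[],[[],[],[[]]],[[[]],[],[[]]],[[[]],[[]],[]]],[[[[]],[[]],[[]]],[],[[],[],[[]]],[[[]],
[],[[]]],[[[]],[[]],[]]],[],[[[],[[]],[[]]],[],[],[[[]],[[]],[]],[[[]],[[]],[[]]]]],[[[[[]],[[]],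
[]],[[[]],[[]],[]],[[[]]],[],[[],[[]],[[]]]],[[[]],[],[[[]]],[]],[[[[]],[[]],[]],[],[[[]],[[]],
[[]]],[[[]],[[]],[[]]],[]],[[[[]],[[]],[]],[],[[[]],[],[[]]],[[[]],[],[[]]],[]],[[[[]],[[]],[[]]],
[],[[],[],[[]]],[[[]],[],[[]]],[[[]],[[]],[]]],[[[[]],[[]],[[]]],[],[[],[],[[]]],[[[]],[],[[]]],
[[[]],[[]],[]]],[[[],[[]],[[]]],[],[],[[[]],[[]],[[]]],[[[]],[[]],[[]]]]],[[[[[]],[[]],[[]]],
[[[]],[[]],[[]]],[],[[[]],[[]],[[]]],[[[]],[[]],[[]]]],[],[[[[]],[[]],[[]]],[[],[],[[]]],[[[]],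
[[]],[[]]],[[[]],[],[[]]],[[[]],[],[[]]]],[[[[]],[[]],[[]]],[],[[[]],[[]],[[]]],[[[]],[],[[]]],
[[[]],[],[[]]]],[],[[[[]],[[]],[[]]],[],[[[]],[],[[]]],[[[]],[[]],[[]]],[[[]],[[]],[]]],[[[[]],
[[]],[[]]],[],[[],[],[[]]],[[[]],[[]],[[]]],[[[]],[[]],[]]]],[[[[[]],[],[[]]],[[[]],[],[]],[],[[],
[[]],[[]]],[]],[[[]],[],[],[],[]],[[[[]],[],[[]]],[],[[[]],[[]],[]],[],[[[]],[],[[]]]],[[[[]],[],
[[]]],[],[[[]],[[]],[]],[],[[[]],[],[[]]]],[[[],[],[]],[],[],[],[[],[],[]]],[[[],[[]],[[]]],[],[],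
[[[]],[[]],[]],[[[]],[[]],[]]],[[[],[]],[],[],[[],[],[]]]]],[[[[[[253617820003205120]],[],
[[27060106852040704]]],[[[101608035586865627136]],[],[[253617820003205120]]],[],[[],
[[742589817246300766208]],[[6548893636685377568768]]],[]],[[[],[],[]],[[],[],[]],[],[[]],[]],
[[[[29346017690255360]],[],[[2560011028922368]]],[],[[],[[1]],[]],[[],[[]],[[]]],[[],[],[[1]]]],
[[[[217043734909419520]],[],[[29346017690255360]]],[],[[],[[1]],[]],[[],[[]],[[]]],[[],[],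
[[110826867182268317696]]]],[[]],[[[],[[1585270367912460288]],[[10377164427785928704]]],[[],[[]],
[[]]],[[],[[]],[[]]],[[[15061189790005198848]],[[111558738988901597184]],[]],
[[[29381167176220672]],[[1037630489118199250944]],[]]],[[]]],[[],[],[],[],[],[],[]],[[[[[1]],[],
[[11566088342173384704]]],[[[15078346569530212352]],[],[[102330863300892524544]]],[],[[],
[[83165724769670660096]],[[965067383478991978496]]],[]],[[[[15078346569530212352]],[],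
[[1299395154387435520]]],[[[111268221629109370880]],[],[[16250135760258727936]]],[],[[],
[[10484402200885084160]],[[120631381708840697856]]],[]],[[],[]],[[],[],[],[]],[[],
[[[129854612432289464320]],[[1]],[]],[[[744841911316820000768]],[[1738565962954833920]],[]],
[[[1738600579982295040]],[[15061453327152734208]],[]],[[],[],[]]],[[],[],[]],[[],
[[[13853662138893352960]],[],[[1]]],[[[129708385074053021696]],[],[[963952175295075725312]]],[[],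
[],[]],[[[15079762599846346752]],[[7084283989198985232896]],[]]]],[[[[[]],[],[[]]],[[[]],[],[[]]],
[[]],[[],[],[[]]],[[]]],[[[[]]],[[[]]],[],[[],[],[[]]]],[[[[]],[],[[]]],[[[]],[],[[]]],[],[[],
[[]],[[]]]],[[[[]],[],[[]]],[[[]],[],[[]]],[],[[],[[]],[[]]],[]],[[[]],[[],[[]],[]],[[],[[]],[]],
[[[]],[[]],[]],[]],[[[],[[]],[[]]],[],[[],[[]],[[]]]],[[[[]]],[[[]],[],[[]]],[[[]],[],[[]]],[],
[[[]],[[]],[]]]],[[[[[1]],[],[[1585305578316496896]]],[[[]],[],[[]]],[[[1]],[[1]],[]],[],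
[[[15061449069749862400]],[],[[1]]]],[[],[[[]]]],[[[[129859222152104902656]],[[]],
[[739114185953477918720]]],[[[1]],[[]],[[110826867182268317696]]],[],[[[]],
[[1308332577066614784]],[[15042880587156422656]]],[]],[[[[]],[[]],[[]]],[],[[],[],[[]]],[[[]],
[[]],[[]]],[[[]],[[]],[]]],[[[[15061449069749862400]],[[110826867182268317696]],[]],[],
[[[22695577988890624]],[[]],[[11602416408201789440]]],[[[252210725349490688]],[[]],
[[101745393717783658496]]],[]],[[[[]],[[]],[[]]],[],[[[]],[[]],[[]]],[[],[],[[]]],[[],[],[[]]]],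
[[[[1308332577066614784]],[],[[960383912475584888832]]],[],[[[960383635539365199872]],
[[101745393717783658496]],[[]]],[],[[[83456418017651490816]],[[]],[[741346564195634126848]]]]],
[[[[[29346017690255360]],[],[[10376601542240239616]]],[[[]],[],[[]]],[[[1]],[[1]],[]],[[],[[]]],
[[[111549694407061012480]],[],[[253617820003205120]]]],[[[[]]],[[[]]],[],[[],[[]]],[]],
[[[[253617820003205120]],[[]],[[6539956384503393419264]]],[[[1]],[[]],[[1038873777216839221248]]],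
[],[[[]],[[15061449069749862400]],[[29381167176220672]]],[]],[[[[]],[[]],[[]]],[],[[],[],[[]]],
[[[]],[[]],[[]]],[[[]],[[]],[]]],[[[[111549694407061012480]],[[1038873777216839221248]],[]],[],
[[[198180789458829312]],[[]],[[102335508780597379072]]],[[[1441225032647835648]],[[]],
[[667543257887611551744]]],[]],[[[[]],[[]],[[]]],[],[[[]],[[]],[[]]],[[],[],[[]]],[[],[],[[]]]],
[[[[15061739202290384896]],[],[[7129671090339470901248]]],[],[[[7129666798893922254848]],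
[[667542417795161784320]],[[]]],[],[[[15078069218745253888]],[[]],[[6502628229739742068736]]]]],
[[[[[]]],[[[]]],[[[]],[[]]],[[],[[]]],[[[]],[[]],[[]]]],[[],[[[]]],[[[]]],[[],[[]]]],[[[[]]],
[[[]],[[]],[[]]],[[[]],[[]],[[]]],[[[]],[[]],[[]]],[]],[[[[]],[[]],[]],[],[[[]],[],[[]]],[[[]],[],
[[]]],[]],[[[[]],[[]],[]],[],[[[]],[],[[]]],[[[]],[],[[]]],[]],[[[[]],[[]],[]],[],[[],[],[[]]],
[[[]],[],[[]]],[]],[[[[]],[[]],[[]]],[],[[[]],[[]],[[]]],[[[]],[[]],[[]]],[[[]],[[]],[[]]]]],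
[[[[],[[14989119000753995776]],[[110694012633124700160]]],[],[[],[[]]],[[[1]],[[1]],[]],[[[1]],
[[101608035586865627136]],[]]],[[],[],[[],[[]]]],[[[[]],[[5349988305078199517184]],
[[61834640209078787244032]]],[[],[[1]],[[1]]],[[[]],[[1]],[[666497564877948715008]]],[],[]],
[[[[]],[[]],[[]]],[],[[[]],[[]],[[]]],[[],[],[[]]],[[],[],[[]]]],[[[[]],[[]],[[]]],[],[[[]],[[]],
[[]]],[[],[],[[]]],[[],[],[[]]]],[[[[162714945547403264]],[[1880394699278123008]],[]],[],[[[1]],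
[],[[253617820003205120]]],[[[3391308357959680]],[[]],[[1454663255170482176]]],[]],
[[[[111261643208216543232]],[[1034279806533986942976]],[]],[],[[[1]],[],
[[101900732754634473472]]],[[[6549175110527684182016]],[[]],[[666479277804816957440]]],[]]],
[[[[[]]],[[[]]],[[[]],[],[[]]],[[[]],[[]],[[]]],[]],[],[[[[]]],[[[]],[[]],[[]]],[[[]],[[]],[[]]],
[],[[[]],[[]],[[]]]],[[[[]],[],[[]]],[],[[[]],[[]],[]],[],[[[]],[],[[]]]],[[[[]],[],[[]]],[],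
[[[]],[[]],[]],[],[[[]],[],[[]]]],[[[[]],[[]],[[]]],[],[[[]],[[]],[[]]],[[[]],[[]],[[]]],[[[]],
[[]],[[]]]],[[[[]],[[]],[]],[],[[],[],[[]]],[[[]],[],[[]]],[]]]],[[[[[]],[[[]],[],[[]]],[[[]],[],
[[]]],[[[]],[[]],[[]]],[[[]],[[]],[]]],[[],[[[]]],[[[]],[],[[]]],[[],[],[]],[[],[[]]]],[[[]],[],
[[],[],[[]]],[],[[],[[]]]],[[[[]],[],[[]]],[],[],[],[[],[],[[]]]],[[[[]],[],[[]]],[],[[],[[]]],[],
[[[]],[],[[]]]],[[[[]],[[]],[[]]],[],[[],[[]],[[]]],[[],[[]],[[]]],[[],[[]],[[]]]],[[[[]],[[]],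
[]],[],[[],[],[[]]],[[[]],[],[[]]],[]]],[[],[[],[[]],[[],[],[[]]],[[],[]],[[],[[]]]],[],[[[]],[],
[],[],[[],[],[[]]]],[[[]],[],[],[],[[[]],[],[[]]]],[],[[[],[[]]],[],[[],[],[[]]],[[[]],[],[[]]],
[]]],[[[[[]]],[[[]],[],[[]]],[[[]],[],[[]]],[[[]],[[]],[[]]],[[[]],[[]],[]]],[[[[]]],[[[]],[],
[[]]],[[[]],[],[[]]],[[[]],[[]],[[]]],[[[]],[[]],[]]],[],[[[[]]],[[],[[]],[[]]],[[],[[]]],[[[]],
[[]],[[]]],[[[]],[],[[]]]],[[[[]],[],[[]]],[[],[[]],[[]]],[[],[[]]],[[[]],[[]],[[]]],[[[]],[],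
[[]]]],[],[[[],[[]]],[[[]],[[]],[[]]],[[[]],[],[[]]],[[[]],[],[[]]],[[[]],[[]],[[]]]]],[[[[]],
[[[]],[],[[]]],[[[]],[],[[]]],[[],[],[]],[[[]],[[]],[]]],[[],[],[],[]],[[[]],[],[],[[],[],[]]],
[[[[]],[],[[]]],[[[]],[],[[]]],[],[[],[[]],[[]]],[]],[[[[]],[],[[]]],[[[]],[],[[]]],[],[[],[[]],
[[]]],[]],[[[],[],[]],[[],[],[]]],[[[[]],[[]],[]],[[[]],[[]],[]],[],[],[[],[[]],[[]]]]],[[[[[]],
[],[[]]],[[[]],[[]],[[]]],[[[]],[[]],[[]]],[],[[[]],[[]],[[]]]],[],[[[[]],[],[[]]],[],[[],[],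
[[]]],[[[]],[[]],[[]]],[[],[[]]]],[[[[]],[[]],[[]]],[],[[],[],[[]]],[[[]],[[]],[[]]],[[[]],[[]],
[]]],[[[[]],[[]],[[]]],[[],[],[[]]],[[],[],[[]]],[[[]],[[]],[[]]],[[[]],[[]],[]]],[],[[[[]],[[]],
[[]]],[[],[[]]],[[[]],[[]],[]],[[[]],[[]],[]],[[[]],[[]],[[]]]]],[[[[[]],[],[[]]],[[[]]],[[[]],
[[]],[]],[[],[[]]],[[[]],[],[[]]]],[[[[]]],[[[]]],[],[[],[[]]],[]],[[[[]],[[]],[[]]],[[[]],[[]],
[[]]],[],[[[]],[[]],[[]]],[]],[[[[]],[[]],[[]]],[],[[],[],[[]]],[[[]],[],[[]]],[[[]],[[]],[]]],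
[[[[]],[[]],[]],[],[[[]],[],[[]]],[[[]],[],[[]]],[]],[[[[]],[[]],[[]]],[],[[[]],[],[[]]],[[],[],
[[]]],[[],[],[[]]]],[[[[]],[],[[]]],[],[[[]],[[]],[[]]],[],[[[]],[[]],[[]]]]],[[[[[]],[],[[]]],
[[[]]],[[[]],[[]],[]],[[],[[]]],[[[]],[],[[]]]],[[[[]]],[[[]]],[],[[],[[]]],[]],[[[[]],[[]],[[]]],
[[[]],[[]],[[]]],[],[[[]],[[]],[[]]],[]],[[[[]],[[]],[[]]],[],[[],[],[[]]],[[[]],[],[[]]],[[[]],
[[]],[]]],[[[[]],[[]],[]],[],[[[]],[],[[]]],[[[]],[],[[]]],[]],[[[[]],[[]],[[]]],[],[[[]],[],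
[[]]],[[],[],[[]]],[[],[],[[]]]],[[[[]],[],[[]]],[],[[[]],[[]],[[]]],[],[[[]],[[]],[[]]]]],
[[[[[]],[[]],[[]]],[],[[[]],[[]],[[]]],[[[]],[[]],[[]]],[[[]],[[]],[[]]]],[],[[[[]],[[]],[[]]],
[[[]],[[]],[[]]],[[],[],[[]]],[[],[[]],[[]]],[[],[[]],[[]]]],[],[[[[]],[[]],[[]]],[],[[[]],[[]],
[[]]],[[[]],[],[[]]],[[[]],[],[[]]]],[[[[]],[[]],[[]]],[],[[[]],[[]],[[]]],[[[]],[],[[]]],[[[]],
[],[[]]]],[[[[]],[[]],[[]]],[],[[[]],[[]],[[]]],[[],[],[[]]],[[],[],[[]]]]],[[[[[]],[[]],[]],[],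
[[[]],[],[[]]],[[[]],[],[[]]],[]],[[[],[]],[],[],[],[]],[[[[]],[[]],[]],[[[]],[[]],[]],[],[],[[],
[[]],[[]]]],[[[],[],[]],[],[],[],[[],[],[]]],[[[[]],[],[[]]],[],[[[]],[[]],[]],[],[[[]],[],[[]]]],
[[[[]],[],[[]]],[],[[[]],[[]],[]],[],[[[]],[],[[]]]],[[[]],[],[[],[],[]]]]],
[[[[[[1598815285874262016]],[[253617820003205120]],[]],[],[[[741366267238934380544]],[],
[[1731846838530605056]]],[[[6548893636685377568768]],[],[[1]]],[]],[[[]],[],[[],[],[]],[[],[]],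
[]],[[[[252492059582136320]],[[29346017690255360]],[]],[[],[[1]],[]],[],[[[]],[],[[]]],[[],[[1]],
[[1]]]],[[]],[[[[1878145132176343040]],[],[[163840705851031552]]],[[],[],[[]]],[[],[[1]],[]],[[],
[[]],[[]]],[[[1]],[],[[962744357578011049984]]]],[[[[10485510575227142144]],[],
[[6530444780981880619008]]],[[[]],[],[[]]],[[[111124176260024041472]],[[1034242933243352186880]],
[]],[[],[[]],[[]]],[[[11584397337891700736]],[],[[7129678057368734138368]]]],[[]]],[[],[],[],[],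
[],[],[]],[[[[[959303044373127102464]],[[101891692553394192384]],[]],[],[[[83161289880795873280]],
[],[[742573231799517315072]]],[[[965067383478991978496]],[],[[101894154333756325888]]],[]],
[[[[7083700701587568590848]],[[15078346569530212352]],[]],[],[[[965014180449933590528]],[],
[[111268221629109370880]]],[[[120631170035278217216]],[],[[742482601601848049664]]],[]],[[[]],[],
[],[]],[[],[[[742500334527561859072]],[[1]],[]],[[[6511851563834591412224]],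
[[16250135760258727936]],[]],[[[16232103630998626304]],[[110824617590067953664]],[]],[[],[],[]]],
[[],[],[],[]],[[],[],[],[]],[[],[[],[[120194495693637943296]],[[1]]],[[],[],[]],
[[[885517189653113085952]],[],[[5359511062037078835200]]],[[[31701128651607040]],[],
[[61395484912145396150272]]]]],[[[[[]],[[]],[]],[[]],[[[]],[],[[]]],[[],[],[[]]],[[],[]]],[[[[]]],
[],[[[]],[],[[]]],[[],[],[[]]]],[[[[]],[[]],[]],[],[[[]],[],[[]]],[[[]],[],[[]]],[]],[[[]],[[],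
[[]],[]],[[],[[]],[]],[[[]],[[]],[]],[]],[[[[]],[],[[]]],[[[]],[],[[]]],[],[[],[[]],[[]]],[]],
[[[[]],[],[[]]],[],[],[[],[[]],[[]]]],[[[],[[]]],[[],[[]],[[]]],[],[[[]],[],[[]]],[[[]],[],
[[]]]]],[[[[[83451701147253866496]],[[10377709783305158656]],[]],[[[1]],[[1]],[]],[[[]],[],[[]]],
[[],[],[[]]],[[],[[83733284932263346176]],[[962744357578011049984]]]],[[[]],[],[[[]],[],[]],[[],
[],[[]]]],[[[[961555974210994569216]],[[6539956384503393419264]],[]],[],[[[1]],[[]],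
[[962744357578011049984]]],[[[15061739202290384896]],[[]],[[7129671090339470901248]]],[]],
[[[[111554340376000069632]],[[1038873777216839221248]],[]],[],[[[199289030523748352]],[[]],
[[102335508780597379072]]],[[[1875822955576000512]],[[]],[[667542417795161784320]]],[]],[[[[]],
[[]],[[]]],[[],[],[[]]],[[],[],[[]]],[[[]],[[]],[[]]],[[[]],[[]],[]]],[[[[]],[[]],[[]]],[],[[],[],
[[]]],[[[]],[[]],[[]]],[[[]],[[]],[]]],[[[],[[12701004448358203392]],[[24981488841785344]]],[],[],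
[[[5340478850045759750144]],[[744788703824199286784]],[[]]],[[[61685949073577059037184]],
[[6502628229739742068736]],[[]]]]],[[[[[]]],[[[]]],[[[]],[[]]],[[],[[]]],[[[]],[[]],[[]]]],[[],
[[[]]],[[[]]],[[],[[]]]],[[[[]]],[[[]],[[]],[[]]],[[[]],[[]],[[]]],[[[]],[[]],[[]]],[]],[[[[]],
[[]],[]],[],[[[]],[],[[]]],[[[]],[],[[]]],[]],[[[[]],[[]],[]],[],[[[]],[],[[]]],[[[]],[],[[]]],
[]],[[[[]],[[]],[]],[],[[],[],[[]]],[[[]],[],[[]]],[]],[[[[]],[[]],[[]]],[],[[[]],[[]],[[]]],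
[[[]],[[]],[[]]],[[[]],[[]],[[]]]]],[[[[[163840705851031552]],[],[[101463991841001046016]]],[[[]],
[],[[]]],[[[1]],[[1]],[]],[[],[[]],[]],[[[963951308946584633344]],[],[[1731846838530605056]]]],
[[[[]],[],[[]]],[[[]],[],[]],[],[[],[[]],[]],[]],[[[[1731846838530605056]],[[]],
[[47303307901022586798080]]],[[[1]],[[]],[[7092919499665172332544]]],[],[[[]],
[[83740001883700330496]],[[162714945547403264]]],[]],[[[[]],[[]],[[]]],[[],[],[[]]],[[],[],[[]]],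
[[[]],[[]],[[]]],[[[]],[[]],[]]],[[[[963951308946584633344]],[[7092919499665172332544]],[]],[],
[[[1441189281467990016]],[[]],[[742554650124914524160]]],[[[10431181161971056640]],[[]],
[[6511709843907093200896]]],[]],[[[[]],[[]],[[]]],[],[[[]],[[]],[[]]],[[],[],[[]]],[[],[],[[]]]],
[[[[83740001883700330496]],[],[[61464551829954839445504]]],[],[[[61470406509535870320640]],
[[6511709843907093200896]],[[]]],[],[[[83307622784225673216]],[[]],[[47450899300526441369600]]]]],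
[[[[[110694012633124700160]],[],[[199289030523748352]]],[[],[],[[]]],[[[1]],[[1]],[]],[[],[[]],
[]],[[[1880394699278123008]],[],[[741366267238934380544]]]],[[],[],[],[[],[[]],[]]],
[[[[61834640209078787244032]],[[]],[[92817115208111620096]]],[[[1]],[],[[13854774708244840448]]],
[],[[[]],[[1]],[[6549175216097841905664]]],[]],[[[[]],[[]],[[]]],[],[[],[],[[]]],[[[]],[[]],[[]]],
[[[]],[[]],[]]],[[[[1880394699278123008]],[[13854774708244840448]],[]],[],[[[1]],[],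
[[1450267425126744064]]],[[[31561507447767040]],[[]],[[12718187406696644608]]],[]],[[[[]],[[]],
[[]]],[],[[[]],[[]],[[]]],[[],[],[[]]],[[],[],[[]]]],[[[[15060899176430174208]],[],
[[7083995652144962207744]]],[],[[[7092917388018869862400]],[[666424671795701350400]],[]],[],
[[[47524578190569743319040]],[[]],[[6512434815711593005056]]]]],[[[[],[[]],[[]]],[[],[[]],[[]]],
[[[]],[[]],[[]]],[[[]],[],[[]]],[[[]]]],[[],[[],[],[[]]],[],[],[[[]]]],[[[],[[]],[[]]],[[[]],[[]],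
[[]]],[],[[[]],[[]],[[]]],[[[]],[[]],[[]]]],[[[],[[]],[[]]],[],[],[[[]],[[]],[]],[[[]],[[]],[]]],
[[[[]],[[]],[[]]],[],[[[]],[[]],[[]]],[[[]],[[]],[[]]],[[[]],[[]],[[]]]],[[[[]],[],[[]]],[],[[[]],
[[]],[]],[],[[[]],[],[[]]]],[[[[]],[],[[]]],[],[[[]],[[]],[]],[],[[[]],[],[[]]]]]],[[[[[]],[[],
[[]],[[]]],[[],[[]]],[[[]],[],[[]]],[[[]],[],[[]]]],[[[]],[[],[[]],[[]]],[[],[]],[[[]],[],[[]]],
[[[]],[],[[]]]],[[[]],[],[],[],[]],[[[],[[]],[[]]],[],[],[],[[],[[]]]],[[[],[[]]],[],[[],[],[[]]],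
[[],[],[[]]],[[],[[]],[[]]]],[[[[]],[],[[]]],[],[],[],[[],[],[[]]]],[[[[]],[],[[]]],[],[[],[[]]],
[],[[],[],[[]]]]],[[],[[[]],[],[],[],[[],[],[[]]]],[],[[],[],[],[],[[],[[]]]],[],[[],[],[],[],[[],
[],[[]]]],[[[],[],[[]]],[],[[],[[]]],[],[[],[],[[]]]]],[[[[[]]],[[],[[]],[[]]],[[],[[]]],[[[]],[],
[[]]],[[[]],[],[[]]]],[[[[]]],[[],[[]],[[]]],[[],[[]]],[[[]],[],[[]]],[[[]],[],[[]]]],[],[[[],
[[]],[[]]],[[[]]],[[[]],[],[[]]],[[],[]],[[],[[]]]],[],[[[[]],[],[[]]],[[],[[]]],[[],[]],[[[]],[],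
[[]]],[[],[],[[]]]],[[[[]],[],[[]]],[[],[[]]],[[],[[]]],[[[]],[[]],[[]]],[[],[],[[]]]]],[[[[]],
[[],[[]],[[]]],[[],[]],[[[]],[],[[]]],[[[]],[],[[]]]],[[],[],[]],[[[]],[],[[],[],[]]],[[[],[[]],
[[]]],[],[[],[[]],[[]]]],[[[],[],[]],[[],[],[]]],[[[[]],[],[[]]],[],[],[[],[[]],[[]]]],[[[[]],[],
[[]]],[],[],[[],[[]],[[]]]]],[[[[[]],[[]],[[]]],[[[]],[[]],[[]]],[],[[[]],[[]],[[]]],[[[]],[[]],
[[]]]],[],[[[[]],[[]],[[]]],[],[[[]],[[]],[[]]]],[[[[]],[[]],[[]]],[],[[[]],[[]],[[]]],[[],[],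
[[]]],[[],[],[[]]]],[],[[[[]],[[]],[[]]],[],[[],[],[[]]],[[[]],[[]],[[]]],[[[]],[[]],[]]],[[[[]],
[[]],[[]]],[],[[],[],[[]]],[[[]],[[]],[[]]],[[[]],[[]],[]]]],[[[[],[[]],[[]]],[],[[],[[]]],[[[]],
[[]],[]],[[[]],[[]],[]]],[[],[],[[],[[]]]],[[[[]],[[]],[[]]],[],[[[]],[[]],[[]]]],[[[[]],[[]],
[[]]],[],[[[]],[],[[]]],[[],[],[[]]],[[],[],[[]]]],[[[[]],[[]],[[]]],[],[[[]],[],[[]]],[[],[],
[[]]],[[],[],[[]]]],[[[[]],[[]],[]],[],[[],[],[[]]],[[[]],[],[[]]],[]],[[[[]],[[]],[]],[],[[],[],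
[[]]],[[[]],[[]],[[]]],[]]],[[[[[]],[[]],[[]]],[],[[[]],[[]],[[]]],[[[]],[[]],[[]]],[[[]],[[]],
[[]]]],[],[[[[]],[[]],[[]]],[[[]],[[]],[[]]],[[],[],[[]]],[[],[],[[]]],[[],[[]],[[]]]],[],[[[[]],
[[]],[[]]],[],[[[]],[[]],[[]]],[[],[],[[]]],[[[]],[],[[]]]],[[[[]],[[]],[[]]],[],[[[]],[[]],[[]]],
[[],[],[[]]],[[[]],[],[[]]]],[[[[]],[[]],[[]]],[],[[[]],[[]],[[]]],[[[]],[],[[]]],[[[]],[],
[[]]]]],[[[[[]],[],[[]]],[],[[[]],[[]],[]],[[],[[]]],[[[]],[],[[]]]],[[],[],[],[[],[[]]]],[[[[]],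
[[]],[[]]],[[],[],[[]]],[],[[[]],[[]],[[]]]],[[[[]],[[]],[[]]],[],[[],[],[[]]],[[[]],[],[[]]],
[[[]],[[]],[]]],[[[[]],[[]],[]],[],[[],[],[[]]],[[[]],[],[[]]],[]],[[[[]],[[]],[[]]],[],[[[]],[],
[[]]],[[],[],[[]]],[[],[],[[]]]],[[[[]],[],[[]]],[],[[[]],[[]],[]],[],[[[]],[[]],[[]]]]],[[[[[]],
[],[[]]],[],[[],[[]]],[],[[[]],[],[[]]]],[[],[]],[[[[]],[],[[]]],[[],[],[[]]],[],[[],[[]],[[]]]],
[[[],[]],[],[],[[],[],[]]],[[[[]],[[]],[]],[],[[],[],[[]]],[[[]],[],[[]]],[]],[[[]],[],[[],[],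
[]]],[[[[]],[],[[]]],[],[[[]],[[]],[]],[],[[[]],[],[[]]]]]],[[[[[[181283428140843008]],[],[[1]]],
[],[[[1]],[[1]],[]],[],[[[16231540480205127680]],[],[[5331120510706701565952]]]],[[[]],[],[[],[]],
[],[[],[]]],[[[[27130466863677440]],[],[[1]]],[[],[],[[1]]],[],[[],[[1]],[[1]]],[[[]],[],[[]]]],
[[]],[[[[1]],[[101896369883643379712]],[]],[[],[[]]],[[],[],[[162714945547403264]]],[[[1]],[],
[[1880394699278123008]]],[[],[[]],[[]]]],[[]],[[[[129568562946571763712]],[],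
[[742571525566867963904]]],[[[]],[],[[]]],[[[15060899176430174208]],[[111261643208216543232]],[]],
[[],[[]],[[]]],[[[129420051360576962560]],[],[[965104529446312869888]]]]],[[],[],[],[],[],[],[]],
[[[[[1731670933453701120]],[],[[739042115162113048576]]],[],[[[741382584198739525632]],
[[6502632766272633307136]],[]],[],[[[5350145788670357012480]],[],[[10414037579926077440]]]],
[[[[13908527703638671360]],[],[[1]]],[],[[[101896369883643379712]],[[11547814660733927424]],[]],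
[],[[[741382584198739525632]],[],[[6549179649354362880000]]]],[[[]],[],[],[],[]],[[],[[],[],
[[1]]],[[],[],[[1880394699278123008]]],[],[[[111547618511793684480]],[[1039989812444843212800]],
[]]],[],[[],[[],[[11584687611092402176]],[[1]]],[[],[],[]],[[[102044849592112087040]],[],
[[16141767685818286080]]],[[[162701748205002752]],[],[[7130391702538236723200]]]],[[],[]]],
[[[[[]],[],[[]]],[[]],[[[]],[[]],[]],[[],[]],[[],[]]],[[[]],[],[],[],[]],[[[[]],[],[[]]],[],[[],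
[[]]],[],[[],[],[[]]]],[[[]],[[],[]],[[],[]],[],[[],[],[]]],[[[[]],[[]],[]],[[],[[]]],[],[],[[],
[],[[]]]],[[[],[]],[[],[],[[]]],[],[[],[],[[]]],[[[]],[],[[]]]],[[[],[]],[],[],[[],[],[]]]],
[[[[[742572651330325708800]],[],[[130005517121714388992]]],[[[111558738988901597184]],[],[]],
[[[]],[[]],[]],[[],[[963916146560332726272]],[[1880394699278123008]]],[]],[[[]],[],[],[],[]],
[[[[5349988305078199517184]],[],[[16231540480205127680]]],[],[[[162714945547403264]],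
[[1880394699278123008]],[[]]],[],[[[24981488841785344]],[[]],[[961626897523481247744]]]],[[[[1]],
[],[[1880394699278123008]]],[],[[[1880394699278123008]],[[199851910734282752]],[]],[],
[[[162714945547403264]],[],[[101900732754634473472]]]],[[[[]],[[]],[[]]],[[],[[]]],[[[]],[[]],[]],
[[[]],[[]],[]],[[[]],[],[[]]]],[[[],[[1]],[[742573218607507963904]]],[],[],
[[[16141767685818286080]],[[1454663255170482176]],[[]]],[[[7093209947154579226624]],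
[[666479277804816957440]],[[]]]],[[[[]],[[]],[[]]],[],[[],[],[[]]],[[[]],[],[[]]],[[[]],[[]],
[]]]],[[[[[]]],[[[]]],[[[]],[],[[]]],[[[]],[[]],[[]]],[]],[],[[[[]]],[[[]],[[]],[[]]],[[[]],[[]],
[[]]],[],[[[]],[[]],[[]]]],[[[[]],[],[[]]],[],[[[]],[[]],[]],[],[[[]],[],[[]]]],[[[[]],[],[[]]],
[],[[[]],[[]],[]],[],[[[]],[],[[]]]],[[[[]],[[]],[[]]],[],[[[]],[[]],[[]]],[[[]],[[]],[[]]],[[[]],
[[]],[[]]]],[[[[]],[[]],[]],[],[[],[],[[]]],[[[]],[],[[]]],[]]],[[[[[129568562946571763712]],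
[[1]],[]],[[[]],[[]],[]],[[[961555121266931269632]],[],[[129426768312013946880]]],
[[[7111947280641538654208]],[],[[741401429625068847104]]],[]],[[[],[]],[],[],[],[]],
[[[[16231540480205127680]],[[92817115208111620096]],[[]]],[[[1880394699278123008]],
[[13854774708244840448]],[[]]],[],[],[[[]],[[12701844200347664384]],[[83735603802561052672]]]],
[[[[]],[[]],[[]]],[[],[[]]],[[[]],[[]],[]],[[[]],[[]],[]],[[[]],[],[[]]]],[[[[1]],[],
[[10413756515033808896]]],[],[[[10413756515033808896]],[[1450267425126744064]],[]],[],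
[[[83735603802561052672]],[],[[742553533225179021312]]]],[[[[1]],[],[[120048164973114818560]]],[],
[[[92236113455614001152]],[[12718187406696644608]],[[]]],[],[[[961573971294294114304]],[[]],
[[6512434815711593005056]]]],[[[[]],[[]],[[]]],[],[[[]],[],[[]]],[[],[],[[]]],[[],[],[[]]]]],
[[[[],[[]],[[]]],[[],[[]],[[]]],[[[]],[[]],[[]]],[[[]],[],[[]]],[[[]]]],[[],[[],[],[[]]],[],[],
[[[]]]],[[[],[[]],[[]]],[[[]],[[]],[[]]],[],[[[]],[[]],[[]]],[[[]],[[]],[[]]]],[[[],[[]],[[]]],[],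
[],[[[]],[[]],[]],[[[]],[[]],[]]],[[[[]],[[]],[[]]],[],[[[]],[[]],[[]]],[[[]],[[]],[[]]],[[[]],
[[]],[[]]]],[[[[]],[],[[]]],[],[[[]],[[]],[]],[],[[[]],[],[[]]]],[[[[]],[],[[]]],[],[[[]],[[]],
[]],[],[[[]],[],[[]]]]],[[[[[815170959069147037696]],[],[[111266074832517726208]]],[],[[],
[[741382861134959214592]]],[],[[[963897547291531149312]],[],[[8282883287076925603840]]]],[[],[]],
[[[[8310841563745055932416]],[[]],[[66264181782090967154688]]],[[[1]],[],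
[[7139047584754795806720]]],[],[[[]],[[83305476528409673728]],[[962709164405551005696]]],[]],
[[[[]],[[]],[[]]],[],[[],[],[[]]],[[[]],[],[[]]],[[[]],[[]],[]]],[[[[963897547291531149312]],
[[7139047584754795806720]],[]],[],[[[1]],[],[[741401429625068847104]]],[[[962709164405551005696]],
[],[[6530147438969780961280]]],[]],[[[[]],[[]],[[]]],[],[[[]],[],[[]]],[[],[],[[]]],[[],[],[[]]]],
[[[[83305476528409673728]],[],[[61538339378197621112832]]],[],[[[61538339378197621112832]],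
[[6530147438969780961280]],[]],[],[[[5331987451994301267968]],[[]],
[[47229430302841898270720]]]]]]] : List (List (List (List (List (List (List (ℕ))))))))

/-- State number 13. -/
def wst13 : L ℕ 7 := (
[[[[[[[130005446736314630144]],[[]],[[12701857396599816192]]],[],[[[963896724518588121088]],
[[1452516991288999936]]],[],[[[1738459876851449856]],[],[[163840705851031552]]]],[[[[]],[],[[]]],
[[],[[]]],[[[]]],[[[]]]],[[[[47449746093011271417856]],[[]],[[129859115482150338560]]],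
[[[7139041040427361763328]],[],[[15042885187031531520]]],[[],[],[]],[[],[[163840705851031552]],
[[22695577988890624]]],[[],[]]],[[[[]],[[]],[[]]],[[],[],[]],[[[]],[],[[]]],[[[]],[],[[]]],[[],
[[]]]],[[[[5331976087983005630464]],[[15079485317746524160]],[[]]],[[],[],[]],
[[[1038782847465585377280]],[],[[2031336187578286080]]],[[[1]],[],[[11565811196456075264]]],[[]]],
[[[[]],[[]],[[]]],[[],[],[]],[[[]],[],[]],[[],[],[[]]],[[],[],[[]]]],[[[[742572110366325604352]],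
[[]],[[7083851500673000538112]]],[[],[]],[[[7130400848292867997696]],[[664156260420722622464]]],
[[]],[[[13925411734350200832]],[],[[6521505171472719544320]]]]],[[[[[]],[],[[]]],[],[[[]],[[]]],
[],[[[]],[],[[]]]],[[[[]],[],[[]]],[[],[[]]],[[[]],[[]]],[[[]],[[]]],[[[]],[],[[]]]],[[[[]],[],
[[]]],[[[]],[],[[]]],[[],[],[]],[[],[[]],[[]]],[]],[[[[]],[[]],[[]]],[[[]],[],[[]]],[[[]],[],
[[]]],[[[]],[],[[]]],[[[]],[[]]]],[[[[]],[[]],[]],[[],[],[]],[[[]],[],[[]]],[[[]],[],[[]]],[[]]],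
[[[[]],[[]],[[]]],[[],[[]],[[]]],[[[]],[],[]],[[[]],[],[[]]],[[[]],[],[[]]]],[[[],[],[[]]],[[],
[]],[[[]],[[]]],[[]],[[[]],[],[[]]]]],[[[[[963896724518588121088]],[[]],[[2031335105254916096]]],
[[],[[]],[[]]],[[[6530149831507213025280]],[[1]],[[]]],[[[]],[[]],[[]]],[[[1]],[[]],[[1]]]],
[[[[7139045471467945852928]],[[]],[[961537687480404541440]]],[[],[[]],[[]]],[[[1]],
[[101614790411049500672]],[[]]],[[[]],[[]],[[]]],[[[111547585491686653952]],[[]],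
[[812918323288396005376]]]],[[],[[],[],[]],[],[],[[]]],[[[],[[]],[[]]],[[[741402282703301115904]],
[],[[1]]],[[[1]],[],[[1]]],[[[]],[],[]],[[[664156278219050319872]],[[92675285337912639488]],[]]],
[[[],[]],[[],[],[[]]],[[[]],[],[[]]],[[],[],[[]]],[[[]],[[]],[[]]]],[[[[]],[[]],[[]]],[[],
[[27022706406850560]],[[1]]],[[[]],[],[]],[[[12791912140659752960]],[],[[1]]],
[[[110826868281784139776]],[],[[1034225200525911523328]]]],[[[]],[[],[[]]],[[[]],[[]]],[[[]],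
[[]]],[[],[],[[]]]]],[[[[[]],[],[[]]],[[],[[]]],[[[]],[[]]],[[[]],[[]]],[[[]],[],[[]]]],[[[[]],[],
[[]]],[],[[[]],[[]]],[],[[[]],[],[[]]]],[[[[]],[],[[]]],[],[[[]],[[]]],[[]],[[[]],[],[[]]]],[[[],
[[]],[[]]],[[[]],[[]],[[]]],[[[]],[],[[]]],[],[[[]],[[]],[[]]]],[[[[]],[[]]],[[[]],[[]],[]],[],
[[]],[[],[[]],[[]]]],[[[[]],[[]],[[]]],[[[]],[[]],[[]]],[],[[[]],[],[[]]],[[[]],[],[[]]]],[[[]],
[[[]],[],[[]]],[],[[],[[]],[[]]],[]]],[[[[[5359648418561527906304]],[[]],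
[[815171236012882919424]]],[[[16141486422367404032]],[],[[130005517121714388992]]],[[],[],[[]]],
[[],[[83156858840211783680]],[[1]]],[[],[[]]]],[[],[[],[],[]],[],[],[[]]],
[[[[11565525529591283712]],[[]],[[5322754966148236705792]]],[[[]],[[]],[[]]],
[[[529495632447078506954752]],[[741347109349405753344]],[[]]],[[[]],[[]],[[]]],
[[[61834693381321520054272]],[[]],[[7683361817715030360064]]]],[[[[1]],[],
[[16196659776262766592]]],[[[]],[[]],[[]]],[[[61614468226024787148800]],[[20480088231378944]],[]],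
[[[]],[[]],[[]]],[[[6549173000608084393984]],[],[[965014180449933590528]]]],[[[],[],[[]]],[[],[]],
[[[]],[[]],[]],[[[]],[[]],[]],[[[]]]],[[[],[[886705849408892698624]],[[1738459876851449856]]],
[[[]],[[]],[[]]],[[[]],[[]],[[]]],[[[7710743703431594115072]],[[818648032655996354560]],[]],
[[[57112380678110374264832]],[[5358790448145829462016]],[]]],[[[],[[]]],[[]],[[[]],[],[[]]],
[[[]]],[[[]],[[]],[]]]],[[[[[]],[[]],[[]]],[[[]],[],[[]]],[[[]],[],[[]]],[[[]],[],[[]]],[[[]],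
[[]]]],[[],[[[]],[],[[]]],[[[]],[],[[]]],[[],[],[]],[[[]],[[]],[]]],[[[],[[]],[[]]],[[[]],[[]],
[[]]],[[[]],[],[[]]],[],[[[]],[[]],[[]]]],[[[[]],[],[[]]],[],[[[]],[[]],[]],[[]],[[[]],[],[[]]]],
[[[[]],[],[[]]],[],[[[]],[[]],[]],[[]],[[[]],[],[[]]]],[[[[]]],[],[[[]],[[]],[[]]],[[[]],[],[[]]],
[[[]],[],[[]]]],[[[[]],[[]]],[],[[[]],[],[[]]],[[[]],[],[[]]],[[]]]],
[[[[[47668747984861929668608]],[[1]],[[]]],[[],[],[[]]],[[[120205685990541492224]],[],[[1]]],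
[[[11565828994901213184]],[],[[31561507447767040]]],[[[]]]],[[[],[]],[[],[],[[]]],[[[]],[],[[]]],
[[],[],[[]]],[[[]],[[]],[[]]]],[[[[1738459876851449856]],[[740177018009732251648]],[[]]],
[[[61614431625413035819008]],[[111549801042513231872]],[[]]],[[[]],[],[[]]],[[[]],[],[[]]],[[[]],
[[8310415973580269420544]],[[47373634722676252606464]]]],[[[],[],[[]]],[[],[]],[[[]],[[]],[]],
[[[]],[[]],[]],[[[]]]],[[[[739059857020250226688]],[],[[1596633288137506816]]],[[[]],[],[[]]],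
[[[8310404645870448410624]],[[3391308357959680]],[]],[[[]],[],[[]]],[[[962726897329083777024]],[],
[[101603600139651383296]]]],[[[[83888622853244846080]],[],[[10466950682601586688]]],[[[]],[],
[[]]],[[[11547810055487750144]],[[24877043292307456]],[]],[[[]],[],[[]]],
[[[7093507325484530139136]],[],[[10449771776481689600]]]],[[[[]]],[[],[[]],[[]]],[[[]]],[[[]],[],
[[]]],[[[]],[],[[]]]]],[[[[[]],[[]],[[]]],[[],[],[]],[[[]],[],[]],[[],[],[[]]],[[],[],[[]]]],[[],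
[[],[],[]],[[],[],[]],[[],[],[[]]],[[[]],[],[[]]]],[[[[]]],[[[]],[[]],[[]]],[],[[],[],[[]]],[[],
[],[[]]]],[[[],[],[]],[[]],[[]],[[[]],[[]],[]],[[[]],[[]],[]]],[[[[]]],[],[[[]],[[]],[[]]],[[[]],
[],[[]]],[[[]],[],[[]]]],[[[],[],[[]]],[],[[[]],[[]],[]],[[]],[[[]],[],[[]]]],[[[],[],[[]]],[],
[[[]],[[]],[]],[[]],[[[]],[],[[]]]]],[[[[[22518582522937344]],[[]],[[1]]],[[],[[]]],
[[[16177792153560547328]],[[1]]],[[[]]],[[[83303260446349328384]],[],[[742500334527561859072]]]],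
[[[]],[[],[[]]],[[[]],[[]]],[[[]],[[]]],[[],[],[[]]]],[[[[235898365487874048]],[[]],
[[8292106517852977102848]]],[[[8264585162933793914880]],[[]],[[959303598253200113664]]],[[[]],
[[]],[[]]],[[[]],[[816287865041792532480]],[[5368732320820898037760]]],[[[]],[],[[]]]],[[[],[[]]],
[[]],[[[]],[],[[]]],[[[]]],[[[]],[[]],[]]],[[[[8283313171942724337664]],
[[963860977196496846848]]],[[[]],[[]],[[]]],[[[253908023427203072]],[],[[130001012998769999872]]],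
[[[29276722566266880]],[],[[180716078045331456]]],[[[]],[],[[]]]],[[[[]]],[[],[[]],[[]]],[[[]]],
[[[]],[],[[]]],[[[]],[],[[]]]],[[[[888956826787829776384]],[],[[5368146640637702209536]]],[[[]],
[],[[]]],[[[129573240800939114496]],[[15096070561695006720]],[]],[[[]],[],[[]]],
[[[162429069371113472]],[],[[102047066173470867456]]]]]],[[[[],[],[[]],[],[[]]],[],[[[],[],[]],
[[],[],[]],[]],[[]],[[[],[],[]],[[],[],[]],[[]]],[[[],[]],[[],[]]],[[[],[]],[[],[]],[[],[]],[],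
[[],[],[[]]]]],[[[],[],[[[]]],[],[[[]]]],[[[[]],[],[[]]],[[],[[]]],[[[]]],[[[]]],[[[]]]],[[[[]],
[],[[]]],[[[]],[],[[]]],[]],[[[[]],[],[[]]],[[[]],[],[[]]],[[[]]],[[]],[[[]]]],[[[[]],[[]],[]],
[[],[],[]],[[[]],[],[[]]],[[],[],[[]]],[]],[[[],[],[]],[[],[],[]],[[[]]]],[[[],[],[[]]],[[],[]],
[[[]],[[]]],[],[[],[],[[]]]]],[[],[[[[]],[],[[]]],[],[[[]]]],[],[[],[[[]],[],[[]]],[[[]]],[],
[[[]]]],[],[[],[[],[],[]],[],[[]],[[]]]],[[[[[]],[],[[]]],[[],[[]]],[[[]]],[[[]]],[[[]]]],[[[[]],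
[],[[]]],[],[[[]]],[],[[[]]]],[[[[]],[],[[]]],[],[[[]]],[[]],[[[]],[],[[]]]],[[[],[],[[]]],[[[]],
[],[[]]],[[[]],[],[[]]],[],[[[]]]],[[[[]]],[[[]],[[]],[]],[],[[]],[[],[[]],[[]]]],[[[]],[[[]],[],
[]],[],[[],[],[[]]],[[]]],[[[]],[[[]]],[],[[],[[]],[[]]],[]]],[[],[],[[[[]],[],[[]]],[],[[[]]],
[[]],[[],[],[[]]]],[[[[]],[],[[]]],[],[[[]]],[[]],[[[]],[],[[]]]],[],[[[],[],[]],[],[[]],[[]],
[[]]]],[[[[[]],[[]],[[]]],[[[]],[],[[]]],[[[]]],[[]],[[[]]]],[[],[[[]],[],[[]]],[[[]]],[[],[]],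
[[[]],[[]]]],[[[],[],[[]]],[[[]],[],[[]]],[[[]],[],[[]]],[],[[[]]]],[[[[]],[],[[]]],[],[[[]]],
[[]],[[[]],[],[[]]]],[[[[]]],[],[[[]],[[]],[]],[[]],[[[]],[],[[]]]],[[[]],[],[[[]]],[[[]],[],
[[]]],[[[]]]],[[[[]]],[],[[[]],[],[[]]],[[[]],[],[[]]],[[]]]],[[],[],[[[[]]],[[[]],[[]],[]],[],
[[]],[[],[],[[]]]],[],[[[[]]],[],[[[]],[[]],[]],[[]],[[],[],[[]]]],[[[]],[],[[[]],[[]],[]],[],[[],
[],[[]]]]],[[[[[]],[[]],[[]]],[[],[],[]],[[[]]]],[[],[[],[],[]],[[],[]],[[],[]],[[],[],[[]]]],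
[[[]],[[[]],[],[]],[],[[],[],[[]]],[[]]],[[[],[],[]],[],[[]],[[]],[[[]],[[]],[]]],[[[]],[],[[[]]],
[[[]],[],[[]]],[[[]]]],[[[]],[],[[[]],[[]],[]],[[]],[[[]],[],[[]]]],[[[]],[],[[[]],[[]],[]],[[]],
[[[]],[],[[]]]]],[[],[],[[[]],[[[]]],[],[[],[],[[]]]],[],[[[[]]],[],[[[]],[],[[]]],[[],[],[[]]]],
[],[[[]],[],[[[]],[[]],[]],[],[[],[],[[]]]]]],[[[[[[1]],[],[[8274231872202007904256]]],[],[[[1]],
[[963897547291531149312]]],[],[[[1]],[],[[1]]]],[[[[]],[],[[]]],[[],[]],[[]],[[]]],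
[[[[8310411538751524175872]],[[]],[[66192737513297771233280]]],[[[962725788614381273088]],[],
[[7674570793475257663488]]],[[],[],[]],[[],[[129856899433516498944]],[[1]]],[[],[]]],[[[],[],[]],
[[],[],[]],[[]],[[]]],[[[[1]],[[7674570793475257663488]],[]],[[],[],[]],
[[[5331109145072185114624]],[],[[1036567366995957252096]]],[[[741402282703301115904]],[],
[[5912760401525039169536]]],[[]]],[[[],[[]],[[]]],[[],[],[]],[[]]],[[[[129856899433516498944]],[],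
[[42502559653067816435712]]],[[],[]],[[[42502541928668720005120]],[[5912760401525039169536]]],
[[]],[[[110826904024086740992]],[],[[66483218585353459859456]]]]],[[[[[1]],[],
[[15060886320602939392]]],[[],[],[[]]],[[[1]]],[],[[[1]]]],[[[[]]],[[],[]],[],[[]]],
[[[[962744357578011049984]],[[]],[[7101998829047100997632]]],[[[102335508780597379072]],[],
[[666443798968679792640]]],[[],[],[]],[[],[[253617820003205120]],[[1]]],[[],[]]],[[[[]],[],[[]]],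
[],[[]]],[[[[1]],[[666425230486086352896]],[]],[[],[],[]],[[[742499476771019161600]],[],
[[110826867182268317696]]],[[[111547585491686653952]],[],[[1038873777216839221248]]],[[]]],[[],[],
[[]]],[[[[3962852541464576]],[],[[6511705197938154143744]]],[[],[]],[[[6502630620069426823168]],
[[1037630489118199250944]]],[[]],[[[11565811398320062464]],[],[[7102870203007093440512]]]]],[[],
[[]],[[]],[],[[],[[],[],[]],[],[],[[]]],[],[[],[[],[]],[],[[]]]],[[[[[]]],[[],[]],[],[[]]],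
[[[[1]],[],[[129278150065738940416]]],[[],[],[[]]],[[[1]],[[15060608903229472768]]],[[]],
[[[11584687611092402176]],[],[[83744646195174178816]]]],[[[[1]],[],[[741420314832576446464]]],
[[[]],[],[[]]],[[[961645479264571359232]],[[111552016532270743552]],[]],[[[]]],
[[[6512421447866676936704]],[],[[965067383478991978496]]]],[[[],[]],[[],[]],[[]],[],[]],[[[[1]],
[[111552016532270743552]]],[[[111549801042513231872]],[[10468080774396772352]],[]],[[[]]],[[]],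
[[],[[965085934367151751168]],[[7084270443783203586048]]]],[[],[[]],[],[],[]],
[[[[354618406076416]],[],[[966256892540814360576]]],[[[966238600717515902976]],[],
[[102189069757780721664]]],[[[]]],[[],[[129705994186014228480]],[[744878225986811854848]]],[[]]]],
[[[]],[[]],[[],[],[[]]],[],[[[],[],[]],[],[[]],[[]],[[]]],[],[[[],[]],[],[[]],[[]]]],[[[[[]],[],
[[]]],[],[[]]],[[[],[],[[]]],[[[1]],[],[[1]]],[[[1]],[],[[1]]],[[],[],[]],
[[[83735533975110680576]],[[1]],[]]],[[],[[]],[],[],[]],[[[[1]],[],[[1]]],[[[]],[],[[]]],[[[1]],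
[[1]],[]],[[[]]],[[[818646902012230238208]],[],[[1731846838530605056]]]],[[[[1]],[],[[1]]],[[[]]],
[[[1]],[[1]],[]],[[[]]],[[[1]],[],[[963896724518588121088]]]],[[],[],[[]],[[]],[[]]],
[[[[963862099106411839488]],[[101614753602781315072]]],[[[]]],[[[83453952895534366720]],[],
[[15060899176430174208]]],[[[11602966301404037120]],[],[[1]]],[[[]]]]],[[],[],[[],[]],[[],[]],[],
[],[[],[]]],[[[],[],[[]]],[[],[[],[],[]],[[],[],[]],[[[120487090564823515136]],[],[[1]]],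
[[[892380683933493231616]],[],[[1]]]],[[],[[]],[],[],[]],[[[],[[2028942560025640960]],[[1]]],
[[[]]],[[[]]],[[[56818369368473605242880]],[[5331120510706701565952]],[]],
[[[530704184804097185021952]],[[61612197835532134252544]],[]]],[[],[],[[]],[[]],[[]]],
[[[[892380683933493231616]],[],[[1]]],[[]],[[[5331980519023589720064]],[[742573218607507963904]],
[]],[[]],[[[1]],[],[[8310415973580269420544]]]],[[[[83156858840211783680]],[],
[[741382861134959214592]]],[[]],[[[61614467096002869329920]],[[6549179614711697637376]],[]],[[]],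
[[[24983678868258816]],[],[[816287865041792532480]]]]],[[[]],[[]],[[],[]],[[],[]],[],[[],[]]]],
[[[[[[]],[],[[]]],[],[],[],[[],[],[[]]]],[[[[]],[],[[]]],[[],[[]]],[[],[[]]],[[[]],[[]]],[[],[],
[[]]]],[[[[]],[],[[]]],[[[]],[],[]],[[],[],[]],[[],[[]],[[]]],[[],[]]],[[[],[],[]],[[],[],[]],
[[]]],[[[[]],[[]],[]],[[],[],[]],[[[]],[],[[]]],[[[]],[],[[]]],[[]]],[[[],[[]],[[]]],[[],[[]]],
[[[]]],[[[]]],[[[]]]],[[[],[],[[]]],[[],[]],[[[]],[[]]],[[]],[[[]],[],[[]]]]],[[],[],[[[[]],[],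
[[]]],[[[]],[],[]],[[],[],[]],[[],[[]],[[]]],[[],[]]],[],[[[[]],[[]],[]],[[],[],[]],[[],[],[]],
[[],[],[[]]],[]],[],[[[],[]],[[],[]],[[],[]],[],[[],[],[[]]]]],[[[[[]],[],[[]]],[[[]]],[[[]],[[]],
[]],[],[[[]],[],[[]]]],[[],[[[]]]],[[[[]],[[]],[[]]],[[[]],[[]],[[]]],[],[[[]],[[]],[[]]]],[[[[]],
[[]],[[]]],[],[[],[],[[]]],[[[]],[],[[]]],[[[]],[[]],[]]],[[[[]],[[]],[]],[],[[[]],[],[[]]],[[[]],
[],[[]]],[]],[[[[]],[[]],[[]]],[],[[[]],[],[[]]],[[],[],[[]]],[[],[],[[]]]],[[[[]],[],[[]]],[],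
[[[]],[[]],[[]]],[],[[[]],[[]],[[]]]]],[[[[[]],[],[[]]],[[],[[]]],[[[]],[[]]],[[[]],[[]]],[[],[],
[[]]]],[[],[[],[[]],[[]]],[[],[[]]],[[[]],[[]],[[]]],[[[]],[],[[]]]],[[[[]],[],[[]]],[[[]],[[]],
[[]]],[[[]],[[]],[]],[[[]],[[]],[[]]],[[[]],[],[[]]]],[],[[[],[[]]],[[[]],[[]],[]],[[],[],[[]]],
[[[]],[],[[]]],[[],[[]],[[]]]],[],[[[[]],[],[[]]],[[[]],[],[[]]],[[[]],[[]],[[]]],[[],[[]],[[]]],
[[[]],[],[[]]]]],[[[[[]],[[]],[[]]],[[[]],[],[[]]],[[],[],[]],[[],[[]],[[]]],[[],[]]],[[[[]],[[]],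
[[]]],[[[]],[[]],[[]]],[],[[[]],[[]],[[]]]],[[],[[[]]],[[]],[[]]],[[],[[[]],[[]],[[]]],[[[]],[[]],
[]],[[[]],[[]],[]],[[[]],[],[[]]]],[[],[[[]],[[]],[]],[[[]],[[]],[]],[[[]],[[]],[]],[]],[[],[[[]],
[[]],[[]]],[[[]],[[]],[]],[[[]],[[]],[]],[[[]],[[]],[]]],[[],[[[]],[],[[]]],[[[]],[],[[]]],[[]],
[[[]],[[]],[]]]],[[[[[]],[[]],[[]]],[[[]],[],[]],[[[]],[],[[]]],[[[]],[],[[]]],[[[]],[[]]]],
[[[[]],[[]],[[]]],[],[[],[],[[]]],[[[]],[],[[]]],[[[]],[[]],[]]],[],[[],[[[]],[[]],[[]]],[[[]],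
[[]],[]],[[[]],[[]],[[]]],[[[]],[],[[]]]],[[[],[],[[]]],[[[]],[],[[]]],[[[]],[[]],[]],[[[]],[[]],
[[]]],[[[]],[],[[]]]],[],[[],[[],[[]],[[]]],[[]],[[[]],[],[[]]],[[[]],[[]],[[]]]]],[[[[[]],[[]],
[]],[[],[],[]],[[[]],[],[[]]],[[[]],[],[[]]],[[]]],[[[[]],[[]],[]],[],[[[]],[],[[]]],[[[]],[],
[[]]],[]],[[],[[]],[[[]]],[]],[[],[[[]],[[]],[]],[[[]],[[]],[]],[[[]],[[]],[]],[]],[[[],[],[[]]],
[[[]],[],[[]]],[[[]],[[]],[]],[[[]],[[]],[[]]],[[[]],[],[[]]]],[[[],[],[[]]],[[[]],[],[[]]],[[[]],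
[[]],[]],[[[]],[[]],[[]]],[[[]],[],[[]]]],[[],[[],[[]],[[]]],[[]],[[[]],[],[[]]],[[[]],[],[[]]]]],
[[[[[]],[[]],[[]]],[[],[[]],[[]]],[[[]],[],[]],[[[]],[],[[]]],[[[]],[],[[]]]],[[[[]],[[]],[[]]],
[],[[[]],[[]],[[]]],[[[]],[],[[]]],[[[]],[],[[]]]],[],[[[],[],[[]]],[[[]],[[]],[[]]],[[[]],[[]],
[[]]],[[[]],[[]],[]],[[[]],[[]],[]]],[],[[[[]],[],[[]]],[[[]],[],[[]]],[[[]],[[]],[]],[[[]],[[]],
[[]]],[[[]],[],[[]]]],[[[],[],[[]]],[[[]],[],[[]]],[[[]],[[]],[]],[[[]],[[]],[[]]],[[[]],[],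
[[]]]]],[[[[[]],[],[[]]],[[],[]],[[[]],[[]]],[[]],[[[]],[],[[]]]],[[[[]],[],[[]]],[],[[[]],[[]],
[]],[],[[[]],[],[[]]]],[[],[[]],[],[],[]],[[],[[[]],[],[[]]],[[[]],[],[[]]],[[]],[[[]],[[]],[]]],
[[],[[]],[[]],[[]],[[]]],[[],[[],[[]],[[]]],[[]],[[[]],[],[[]]],[[[]],[],[[]]]],[[],[[]],[[]],
[[]]]]],[[[[[[29346017690255360]],[],[[2560011028922368]]],[],[[],[[1]],[]],[[],[[]],[[]]],[[],[],
[[1]]]],[[[[962725788614381273088]],[[]],[[7101998829047100997632]]],[[],[]],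
[[[101608035586865627136]],[[666443798968679792640]],[]],[[],[[]],[[]]],[[[253617820003205120]],
[],[[6548893636685377568768]]]],[[[],[],[]]],[[],[[[1]],[],[[742554650124914524160]]],
[[[217043734909419520]],[],[[110826867182268317696]]],[[],[],[]],[[[6549467880778752851968]],
[[1038873777216839221248]],[]]],[[],[[],[],[]],[],[],[[]]],[[[],[[]],[[]]],[[],
[[3672786590498816]],[[129850180292992565248]]],[[],[],[]],[[[1594310036983644160]],[],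
[[960383912475584888832]]],[[[743725009887159123968]],[],[[7102870203007093440512]]]],[[],[[],[]],
[],[[]]]],[[],[[]],[],[],[],[],[]],[[[[[1]],[],[[1585305578316496896]]],[[[]],[],[[]]],[[[1]],
[[1]],[]],[],[[[15061449069749862400]],[],[[1]]]],[[],[[[]]]],[[[[129859222152104902656]],[[]],
[[739114185953477918720]]],[[[1]],[[]],[[110826867182268317696]]],[],[[[]],
[[1308332577066614784]],[[15042880587156422656]]],[]],[[[[]],[[]],[[]]],[],[[],[],[[]]],[[[]],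
[[]],[[]]],[[[]],[[]],[]]],[[[[15061449069749862400]],[[110826867182268317696]],[]],[],
[[[22695577988890624]],[[]],[[11602416408201789440]]],[[[252210725349490688]],[[]],
[[101745393717783658496]]],[]],[[[[]],[[]],[[]]],[],[[[]],[[]],[[]]],[[],[],[[]]],[[],[],[[]]]],
[[[[1308332577066614784]],[],[[960383912475584888832]]],[],[[[960383635539365199872]],
[[101745393717783658496]],[[]]],[],[[[83456418017651490816]],[[]],[[741346564195634126848]]]]],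
[[[[[1]],[],[[742572370196899037184]]],[[[]],[],[[]]],[[[15078346569530212352]],
[[111270437118866882560]],[]],[[]],[[[1875749279702810624]],[],[[965067383478991978496]]]],[[],
[[[]]]],[[[[740213042541816446976]],[[]],[[6540102611861615181824]]],[[[111268221629109370880]],
[[]],[[1037701988026112540672]]],[],[[[]],[[16196378436578328576]],[[93107422046743232512]]],[]],
[[[[]],[[]],[[]]],[],[[],[],[[]]],[[[]],[[]],[[]]],[[[]],[[]],[]]],[[[[1878214908355641344]],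
[[1038873777216839221248]],[]],[],[[[11566950425827999744]],[[]],[[101896334123739512832]]],
[[[1738600579982295040]],[[]],[[665308047434415628288]]],[[]]],[[[[]],[[]],[[]]],[],[[[]],[[]],
[[]]],[[],[],[[]]],[[],[],[[]]]],[[[[163836100623212544]],[],[[7129678057368734138368]]],[],
[[[129708385074053021696]],[[15043729268365086720]],[[]]],[[]],[[[15079762599846346752]],[[]],
[[83456275631155806720]]]]],[[[[[]],[],[[]]],[[],[],[]],[[]],[],[[]]],[[[[]],[],[[]]],[[[]],[],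
[[]]],[],[[],[[]],[[]]]],[[[[]],[],[[]]],[[[]],[],[[]]],[],[[],[[]],[[]]]],[[[[]],[],[[]]],[[[]],
[],[[]]],[],[[],[[]],[[]]],[]],[[[],[[]],[]],[[],[[]],[]],[[]],[[[]]],[]],[[],[[],[[]],[[]]],[[],
[[]],[[]]]],[[[[]],[],[[]]],[[[]],[],[[]]],[[[]]],[],[[[]]]]],[[[[[]],[],[[]]],[[[1]],[],
[[1589773425837080576]]],[[[29346017690255360]],[],[[253617820003205120]]],[[],[],[]],
[[[11583552910813822976]],[[1450267425126744064]],[]]],[[[[]],[[]],[[]]],[],[[],[],[[]]],[[[]],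
[[]],[[]]],[[[]],[[]],[]]],[[[[]],[[]],[[]]],[[[]]],[[[]],[],[[]]],[[[]],[[]],[[]]],[[[]],[[]],
[]]],[[[[1]],[[]],[[962744357578011049984]]],[[[253617820003205120]],[[]],
[[129859222152104902656]]],[],[[[]],[[24981488841785344]],[[15078078013831905280]]],[]],
[[[[198180789458829312]],[[]],[[102335508780597379072]]],[[[29381167176220672]],[[]],[[1]]],[],
[[[]],[[3962778437550080]],[[1445867154235719680]]],[]],[[[[]],[[]],[[]]],[[[]],[[]],[[]]],[],[[],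
[[]],[[]]],[[],[[]],[[]]]],[[[[7129666798893922254848]],[[667542417795161784320]],[[]]],
[[[162974291762348032]],[[22660428517605376]],[[]]],[],[],[[[]],[[2031230102431334400]],
[[2533551833612288]]]]],[[[[[]]],[[],[],[[]]],[[[]],[],[[]]],[[],[],[[]]],[[[]],[[]],[[]]]],
[[[[]],[[]],[]],[],[[[]],[],[[]]],[[[]],[],[[]]],[]],[[[[]],[[]],[]],[],[[[]],[],[[]]],[[[]],[],
[[]]],[]],[[[[]],[[]],[[]]],[[[]],[[]],[[]]],[[[]],[[]],[[]]],[[[]],[[]],[[]]],[]],[[[[]],[],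
[[]]],[[[]],[],[[]]],[],[[],[[]],[[]]],[]],[[[],[],[[]]],[[[]],[],[[]]],[],[[],[[]],[[]]],[]],
[[[[]],[[]],[[]]],[[[]],[[]],[[]]],[],[[[]],[],[[]]],[[[]],[],[[]]]]],[[[],[[],[[1]],[[1]]],[[],
[],[]],[[[14989119000753995776]],[],[[129429091030602350592]]],[[[110694012633124700160]],[],
[[741366267238934380544]]]],[[[[]],[[]],[[]]],[],[[[]],[[]],[[]]],[[],[],[[]]],[[],[],[[]]]],
[[[[]],[[]],[[]]],[],[[[]],[[]],[[]]],[[],[],[[]]],[[],[],[[]]]],[[[],[[1]],[[1]]],[[[]],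
[[5349988305078199517184]],[[61834640209078787244032]]],[[[]],[[742573218607507963904]],
[[6549175216097841905664]]],[],[]],[[[[]],[[]],[[]]],[[[]],[[]],[[]]],[],[[],[[]],[[]]],[[],[[]],
[[]]]],[[[[1]],[],[[253617820003205120]]],[[[742573218607507963904]],[],[[1]]],[],[[[]],
[[83312195609743589376]],[[962726897329083777024]]],[]],[[[[1]],[],[[101900732754634473472]]],
[[[6549179614711697637376]],[],[[11583847925608349696]]],[],[[[]],[[962726048375044833280]],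
[[29276722566266880]]],[]]],[[[[[]]],[[],[[]]],[[[]],[[]]],[[[]],[[]]],[[],[],[[]]]],[[[[]],[],
[[]]],[],[[[]],[[]],[]],[],[[[]],[],[[]]]],[[[[]],[],[[]]],[],[[[]],[[]],[]],[],[[[]],[],[[]]]],
[[[[]],[[]],[[]]],[[[]],[[]],[[]]],[[[]],[],[[]]],[],[[[]],[[]],[[]]]],[[[[]],[[]],[]],[[[]],[[]],
[]],[],[],[[],[[]],[[]]]],[[[[]],[[]],[[]]],[[[]],[[]],[[]]],[],[[[]],[],[[]]],[[[]],[],[[]]]],
[[[],[],[[]]],[[[]],[],[[]]],[],[[],[[]],[[]]],[]]]],[[[[[[]],[],[[]]],[[],[[]]],[[],[[]]],[[[]],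
[[]]],[[],[],[[]]]],[[[[]],[],[[]]],[[],[]],[[[]],[[]]],[[]],[[[]],[],[[]]]],[[[[]],[],[[]]],[[],
[]],[[[]],[[]],[]],[[]],[[[]],[],[[]]]],[[[],[[]]],[[[]],[[]],[[]]],[[],[],[[]]],[],[[],[[]],
[[]]]],[[[[]],[[]]],[[[]],[[]],[]],[[]],[[]],[[],[[]],[[]]]],[[[[]],[[]],[[]]],[[[]],[[]],[[]]],
[],[[[]],[],[[]]],[[],[],[[]]]],[[[],[],[[]]],[[[]],[],[[]]],[[]],[[],[[]],[[]]],[]]],[[[],[[],
[]],[],[[]]],[[[],[],[[]]],[[],[]],[[],[[]]],[],[[],[],[[]]]],[[[],[],[[]]],[[],[]],[[[]],[[]],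
[]],[[]],[[[]],[],[[]]]],[[],[]],[[[],[[]]],[[],[[]]],[[]],[[]],[[],[[]],[[]]]],[[],[]],[[[],[],
[[]]],[[[]],[],[[]]],[[]],[[],[[]],[[]]],[]]],[[[[[]],[],[[]]],[[],[[]]],[[[]],[[]]],[[[]],[[]]],
[[],[],[[]]]],[[],[[],[[]],[[]]],[[],[[]]],[[[]],[[]],[[]]],[[[]],[],[[]]]],[[[[]],[],[[]]],[[[]],
[[]],[[]]],[[[]],[[]],[]],[[[]],[[]],[[]]],[[[]],[],[[]]]],[],[[[],[[]]],[[[]],[[]],[]],[[[]],[],
[[]]],[[[]],[],[[]]],[[],[[]],[[]]]],[],[[[[]],[],[[]]],[[[]],[],[[]]],[[[]],[[]],[[]]],[[],[[]],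
[[]]],[[[]],[],[[]]]]],[[[[[]],[],[[]]],[[[]],[]],[[[]],[[]],[]],[[]],[[[]],[],[[]]]],[[],[[[]]]],
[[[[]],[[]],[[]]],[[[]],[[]],[[]]],[],[[[]],[[]],[[]]],[]],[[[[]],[[]],[[]]],[],[[],[],[[]]],
[[[]],[],[[]]],[[[]],[[]],[]]],[[[[]],[[]],[]],[],[[[]],[],[[]]],[[[]],[],[[]]],[]],[[[[]],[[]],
[[]]],[],[[[]],[],[[]]],[[],[],[[]]],[[],[],[[]]]],[[[[]],[],[[]]],[],[[[]],[[]],[[]]],[[]],[[[]],
[[]],[[]]]]],[[[[[]],[],[[]]],[[[]],[]],[[[]],[[]],[]],[[]],[[[]],[],[[]]]],[[],[[[]]],[[]],[[]]],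
[[[[]],[[]],[[]]],[[[]],[[]],[[]]],[],[[[]],[[]],[[]]],[]],[[[[]],[[]],[[]]],[],[[],[],[[]]],
[[[]],[],[[]]],[[[]],[[]],[]]],[[[[]],[[]],[]],[],[[[]],[],[[]]],[[[]],[],[[]]],[]],[[[[]],[[]],
[[]]],[],[[[]],[],[[]]],[[],[],[[]]],[[],[],[[]]]],[[[[]],[],[[]]],[],[[[]],[[]],[[]]],[[]],[[[]],
[[]],[[]]]]],[[[[[]],[[]],[]],[[[]],[[]],[[]]],[[[]],[],[[]]],[],[[],[[]],[[]]]],[],[[[[]],[[]],
[[]]],[[]],[[],[],[[]]],[[[]],[],[[]]],[[[]],[[]],[]]],[[[[]],[[]],[[]]],[[[]],[],[[]]],[[[]],[],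
[[]]],[[[]],[[]],[[]]],[[[]],[[]],[]]],[[[[]],[],[[]]],[[[]],[],[[]]],[[[]],[],[[]]],[[],[[]],
[[]]],[[[]],[[]],[]]],[],[[[[]],[[]],[[]]],[[[]],[[]],[]],[[[]],[[]],[]],[[[]],[[]],[]],[[[]],
[[]],[[]]]]],[[[[[]],[[]],[]],[[[]],[[]],[]],[[[]]],[[]],[[],[[]],[[]]]],[[],[[]],[[[]]],[]],
[[[[]],[[]],[]],[],[[[]],[],[[]]],[[[]],[],[[]]],[]],[[[[]],[[]],[]],[],[[[]],[[]],[[]]],[[[]],
[[]],[[]]],[]],[[[[]],[],[[]]],[[],[],[[]]],[[],[],[[]]],[[],[[]],[[]]],[[[]],[[]],[]]],[[[[]],[],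
[[]]],[[],[],[[]]],[[],[],[[]]],[[],[[]],[[]]],[[[]],[[]],[]]],[[[],[[]],[[]]],[[]],[[]],[[[]],
[[]],[[]]],[[[]],[[]],[[]]]]],[[[[[]],[[]],[[]]],[[[]],[[]],[[]]],[],[[[]],[],[[]]],[[[]],[],
[[]]]],[],[[[[]],[[]],[[]]],[],[[[]],[[]],[[]]],[[[]],[],[[]]],[[[]],[],[[]]]],[[[[]],[[]],[[]]],
[[],[[]],[[]]],[[[]],[[]],[[]]],[[[]],[],[[]]],[[[]],[],[[]]]],[],[[[[]],[],[[]]],[[[]],[],[[]]],
[[[]],[],[[]]],[[[]],[[]],[[]]],[[[]],[[]],[]]],[[[[]],[],[[]]],[[],[],[[]]],[[],[],[[]]],[[[]],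
[[]],[[]]],[[[]],[[]],[]]]],[[[[[]],[],[[]]],[[[]],[],[[]]],[[]],[[],[[]],[[]]],[[]]],[[],[[]],[],
[],[]],[[[[]],[],[[]]],[],[[[]],[[]],[]],[[]],[[[]],[],[[]]]],[[[[]],[],[[]]],[],[[[]],[[]],[]],
[[]],[[[]],[],[[]]]],[[[]],[],[],[],[[],[],[]]],[[[],[[]],[[]]],[[]],[[]],[[[]],[[]],[]],[[[]],
[[]],[]]],[[[]],[],[],[[],[],[]]]]],[[[[[[743653251562114383872]],[],[[129278150065738940416]]],
[[[111552016532270743552]],[],[[15060608903229472768]]],[[],[],[]],[[],[[11584687611092402176]],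
[[1]]],[[],[]]],[[[],[],[]]],[[[[7692724803530366386176]],[[]],[[61833541036167198146560]]],[[],
[]],[[[61840493758226673434624]],[[6512421447866676936704]],[]],[[[]],[[]],[[]]],
[[[83744646195174178816]],[],[[47524615063444838678528]]]],[[[[669957169561393430528]],[],
[[6549472561958232260608]]],[[]],[[[6549173000608084393984]],[[1040043565296287744000]],[]],[[]],
[[[11584687611092402176]],[],[[7084270443783203586048]]]],[[[],[],[]],[],[[]],[[]],[[]]],[[[],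
[[83303258281685843968]],[[744787586854569902080]]],[[[]],[[]],[[]]],[[]],
[[[817475974904201359360]],[[129705994186014228480]],[]],[[[5350280862591489310720]],
[[744878225986811854848]],[]]],[[[],[]],[],[[]],[[]]]],[[],[],[[]],[],[],[],[]],
[[[[[7683800814766260224000]],[[]],[[61545274644343804395520]]],[[[811675879616816611328]],[],
[[6539373099648679084032]]],[[],[],[]],[[],[[83739968863985467392]],[[11566950425827999744]]],[[],
[]]],[[[[814017487673434832896]],[[]],[[6540102611861615181824]]],[[[92677500888739217408]],[[]],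
[[1038873777216839221248]]],[],[[[]],[[163836100623212544]],[[110826867182268317696]]],[]],[[],
[[[]]],[[]],[[[]]]],[[],[[[]],[[]],[[]]],[[[]],[[]],[]],[[[]],[[]],[[]]],[[[]],[],[[]]]],[[],
[[[8292390352355609182208]],[[960402780300202213376]],[]],[[[962726619911710310400]],
[[101896334123739512832]],[]],[[[129708385074053021696]],[[15043729268365086720]],[]],[]],[[],
[[[]],[[]],[[]]],[[[]],[[]],[[]]],[[[]],[[]],[]],[[[]],[[]],[]]],[[],[[[15096932711855034368]],[],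
[[5322187444975363555328]]],[[[1299464449526104064]],[],[[740194183720557367296]]],[[]],
[[[891317535764408172544]],[[83456275631155806720]],[]]]],[[[[[]],[],[[]]],[[],[],[]],[[]],[],
[[]]],[[[[]],[],[[]]],[[[]],[],[[]]],[],[[],[[]],[[]]]],[[[[]],[],[[]]],[[[]],[],[[]]],[],[[],
[[]],[[]]]],[[[[]],[],[[]]],[[[]],[],[[]]],[],[[],[[]],[[]]],[]],[[[],[[]],[]],[[],[[]],[]],[[]],
[[[]]],[]],[[],[[],[[]],[[]]],[[],[[]],[[]]]],[[[[]],[],[[]]],[[[]],[],[[]]],[[[]]],[],[[[]]]]],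
[[[[[892452750391254188032]],[],[[8264152711249237377024]]],[[[]],[],[[]]],
[[[7720117910872002756608]],[[965067383478991978496]],[]],[[[]]],[[[47522272070344046030848]],[],
[[102191215437282312192]]]],[[],[[[]]],[[]],[[[]]]],[[[[5931209326462085627904]],[[]],
[[47301020076672457654272]]],[[[965014180449933590528]],[[]],[[7083693945613000572928]]],[],[[[]],
[[1878039570480792576]],[[959303884262572044288]]],[]],[[[[]],[[]],[[]]],[[]],[[],[],[[]]],[[[]],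
[[]],[[]]],[[[]],[[]],[]]],[[[[47371293669113853915136]],[[7083693945613000572928]],[]],[],
[[[111119708385928314880]],[[]],[[669919452116463132672]]],[[[665327205464653443072]],[[]],
[[83168044696522001408]]],[[]]],[[[[]],[[]],[[]]],[],[[[]],[[]],[[]]],[[],[],[[]]],[[],[],[[]]]],
[[[[1878039570480792576]],[],[[61766670748804314836992]]],[],[[[886598053424096620544]],
[[83168044696522001408]],[[]]],[[]],[[[111261606374453411840]],[[]],[[962780949325000228928]]]]],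
[[[[[101610355582304256000]],[],[[12772793553219223552]]],[[[]],[],[[]]],
[[[12773070978108882944]],[[1450267425126744064]],[]],[[[]]],[[[5331546028862072815616]],[],
[[961644907519683330048]]]],[[],[[[]],[[]],[[]]],[[[]],[[]],[]],[[[]],[[]],[[]]],[[[]],[],[[]]]],
[[[[1034225200525911523328]],[[]],[[7092919499665172332544]]],[[[1450267425126744064]],[[]],
[[740213042541816446976]]],[],[[[]],[[162714945547403264]],[[1301717339730903040]]],[]],[[[[]],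
[[]],[[]]],[[[]]],[[[]],[],[[]]],[[[]],[[]],[[]]],[[[]],[[]],[]]],[[[[7092784567005512597504]],
[[665255411612680454144]],[]],[],[[[11584410667239079936]],[[]],[[83161289880795873280]]],
[[[1742931023307603968]],[[]],[[11584397407651368960]]],[]],[[[[]],[[]],[[]]],[],[[[]],[[]],[[]]],
[[[]],[],[[]]],[[[]],[],[[]]]],[[[[15042313097454833664]],[],[[6521216872360316010496]]],[],
[[[1443615362739535872]],[[253617820003205120]],[[]]],[],[[[2533551833612288]],[[]],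
[[31701128651607040]]]]],[[[[],[],[[]]],[[[]],[[]],[]],[[[]],[[]],[]],[[[]],[[]],[]],[[[]]]],[[],
[[[]],[[]],[]],[[[]],[[]],[]],[[[]],[[]],[]],[]],[[[[]],[[]],[[]]],[[[]],[[]],[[]]],[[[]],[[]],
[[]]],[[[]],[[]],[[]]],[]],[[[[]],[[]],[]],[],[[[]],[],[[]]],[[[]],[],[[]]],[]],[[[[]],[[]],[]],
[],[[[]],[],[[]]],[[[]],[],[[]]],[]],[[[[]],[[]],[]],[],[[[]],[],[[]]],[[[]],[],[[]]],[]],[[[[]]],
[],[[[]],[[]],[[]]],[[],[[]],[[]]],[[],[[]],[[]]]]],[[[[],[[892398408340105854976]],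
[[83161289880795873280]]],[[[]]],[[[]]],[[[529551127981451319967744]],[[61840440555197615046656]],
[]],[[[3046154679625282354151424]],[[454565545810365677305856]],[]]],[[],[[[]],[[]],[[]]],[[[]],
[[]],[[]]],[[[]],[[]],[]],[[[]],[[]],[]]],[[[],[[1]],[[1]]],[[[]],[[61839323363145738616832]],
[[454583404866548749303808]]],[[[]],[[6549175216097841905664]],[[42652368230896582524928]]],[],
[]],[[[[]],[[]],[[]]],[],[[[]],[[]],[[]]],[[],[],[[]]],[[],[],[[]]]],[[[[]],[[]],[[]]],[],[[[]],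
[[]],[[]]],[[[]],[],[[]]],[[[]],[],[[]]]],[[[[1]],[[1]],[]],[],[[[8292676152845158842368]],[[]],
[[15060608903229472768]]],[[[962726897329083777024]],[[]],[[1587661805973504000]]],[]],[[[[1]],
[[1]],[]],[],[[[47518848767070937808896]],[[]],[[92382481019826176000]]],
[[[7092928578289871716352]],[[]],[[162701748205002752]]],[]]],[[[[],[[]]],[[[]],[],[[]]],[[[]],[],
[[]]],[[[]]],[[[]],[[]],[]]],[[],[[[]],[],[[]]],[[[]],[],[[]]],[[]],[[[]],[[]],[]]],[[[[]],[[]],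
[[]]],[[[]],[[]],[[]]],[[[]],[],[[]]],[],[[[]],[[]],[[]]]],[[[[]],[],[[]]],[],[[[]],[[]],[]],[],
[[[]],[],[[]]]],[[[[]],[],[[]]],[],[[[]],[[]],[]],[],[[[]],[],[[]]]],[[[[]]],[],[[[]],[[]],[[]]],
[[],[[]],[[]]],[[],[[]],[[]]]],[[[[]],[[]],[]],[],[[[]],[],[[]]],[[[]],[],[[]]],[]]]],[[[[[],[],
[]],[[],[],[]],[[]]],[[],[[[]],[],[[]]],[[[]],[],[[]]],[[],[],[]],[[[]],[[]],[]]],[[[],[[]]],
[[[]],[[]],[[]]],[[],[],[[]]],[],[[],[[]],[[]]]],[[[[]],[],[[]]],[],[[[]],[[]],[]],[[]],[[[]],[],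
[[]]]],[[[[]],[],[[]]],[],[[[]],[[]],[]],[[]],[[[]],[],[[]]]],[[[[]]],[],[[[]],[[]],[[]]],[[],[],
[[]]],[[],[],[[]]]],[[[[]],[[]]],[],[[[]],[],[[]]],[[[]],[],[[]]],[[]]]],[[[]],[[],[[],[],[[]]],
[[],[],[[]]],[[],[],[]],[[[]],[[]],[]]],[[],[]],[[[],[],[[]]],[],[[[]],[[]],[]],[[]],[[[]],[],
[[]]]],[[[],[],[[]]],[],[[[]],[[]],[]],[[]],[[[]],[],[[]]]],[[],[],[[]],[[]],[[]]],[[[[]],[[]]],
[],[[[]],[],[[]]],[[[]],[],[[]]],[[]]]],[[[[[]],[[]],[[]]],[[[]],[],[[]]],[[[]],[],[[]]],[[[]],[],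
[[]]],[[[]],[[]]]],[[[[]],[[]],[[]]],[],[[],[],[[]]],[[[]],[[]],[[]]],[[[]],[[]],[]]],[],[[],
[[[]],[[]],[[]]],[[[]],[[]],[]],[[[]],[[]],[[]]],[[[]],[],[[]]]],[[[],[],[[]]],[[[]],[],[[]]],
[[[]],[[]],[]],[[[]],[[]],[[]]],[[[]],[],[[]]]],[],[[[[]],[[]],[]],[[[]],[[]],[[]]],[[[]],[],
[[]]],[[[]],[],[[]]],[[[]],[[]],[[]]]]],[[[[[]]],[[[]],[],[[]]],[[[]],[],[[]]],[[],[],[]],[[[]],
[[]],[]]],[[[[]],[[]],[[]]],[],[[],[],[[]]],[[[]],[],[[]]],[[[]],[[]],[]]],[[[[]],[[]],[[]]],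
[[[]]],[[[]],[],[[]]],[[[]],[],[[]]],[[[]],[[]],[]]],[[[[]],[[]],[[]]],[[[]],[[]],[[]]],[],[[[]],
[[]],[[]]],[]],[[[[]],[],[[]]],[[[]],[],[[]]],[],[[],[[]],[[]]],[]],[[[[]],[],[[]]],[[[]],[],
[[]]],[],[[],[[]],[[]]],[[],[[]],[[]]]],[[[[]],[[]],[[]]],[[[]],[[]],[[]]],[],[],[[[]],[[]],
[[]]]]],[[[[[]],[[]],[[]]],[[[]],[[]],[[]]],[[[]],[],[[]]],[],[[[]],[[]],[[]]]],[],[[[[]],[[]],
[[]]],[[[]]],[[[]],[],[[]]],[[[]],[[]],[[]]],[[[]],[[]],[]]],[[[[]],[[]],[[]]],[[[]],[],[[]]],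
[[[]],[],[[]]],[[[]],[[]],[[]]],[[[]],[[]],[]]],[[[[]],[],[[]]],[[[]],[],[[]]],[[[]],[],[[]]],
[[[]],[[]],[[]]],[[[]],[[]],[]]],[],[[[[]],[[]],[[]]],[[[]],[[]],[]],[[[]],[[]],[]],[[[]],[[]],
[]],[[[]],[[]],[[]]]]],[[[[[]],[],[[]]],[[[]]],[[[]],[[]],[]],[[[]]],[[[]],[],[[]]]],[[],[[[]],
[[]],[[]]],[[[]],[[]],[]],[[[]],[[]],[]],[[[]],[],[[]]]],[[[[]],[[]],[[]]],[[[]],[[]],[[]]],[],
[[[]],[[]],[[]]],[]],[[[[]],[[]],[[]]],[[[]]],[[[]],[],[[]]],[[[]],[],[[]]],[[[]],[[]],[]]],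
[[[[]],[[]],[]],[],[[[]],[],[[]]],[[[]],[],[[]]],[]],[[[[]],[[]],[]],[],[[[]],[],[[]]],[[[]],[],
[[]]],[[[]],[],[[]]]],[[[[]],[],[[]]],[],[[[]],[[]],[[]]],[],[[[]],[[]],[[]]]]],[[[[[]],[],[[]]],
[[[]]],[[[]],[[]],[]],[[]],[[[]],[],[[]]]],[[[],[],[[]]],[[[]],[],[[]]],[[[]],[[]],[]],[[[]],[[]],
[[]]],[[[]],[],[[]]]],[[[[]],[],[[]]],[[[]],[],[[]]],[],[[],[[]],[[]]],[]],[[[[]],[],[[]]],[[[]],
[],[[]]],[[[]],[],[[]]],[[],[[]],[[]]],[[[]],[[]],[]]],[[[[]],[[]],[]],[],[[[]],[[]],[[]]],[[[]],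
[[]],[[]]],[]],[[[[]],[[]],[[]]],[[],[[]],[[]]],[[],[[]],[[]]],[[[]],[],[[]]],[[[]],[],[[]]]],
[[[[]],[],[[]]],[],[[[]],[[]],[[]]],[],[[[]],[[]],[[]]]]],[[[[[]]],[],[[[]],[[]],[[]]],[[[]],[],
[[]]],[[[]],[],[[]]]],[],[[[[]],[[]],[[]]],[[[]],[[]],[[]]],[],[[],[[]],[[]]],[[],[[]],[[]]]],[],
[[[[]],[[]],[[]]],[[],[[]],[[]]],[[[]],[[]],[[]]],[[[]],[],[[]]],[[[]],[],[[]]]],[[[[]],[[]],
[[]]],[[],[[]],[[]]],[[[]],[[]],[[]]],[[[]],[],[[]]],[[[]],[],[[]]]],[[[[]],[[]],[[]]],[[],[[]],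
[[]]],[[[]],[[]],[[]]],[[[]],[],[[]]],[[[]],[],[[]]]]],[[[[[]],[[]]],[],[[[]],[],[[]]],[[[]],[],
[[]]],[[]]],[[],[[]],[[]],[[]],[[]]],[[[[]],[[]],[]],[[[]],[[]],[]],[],[],[[],[[]],[[]]]],[[[]],
[],[[],[]],[],[[],[],[]]],[[[[]],[],[[]]],[],[[[]],[[]],[]],[],[[[]],[],[[]]]],[[[[]],[],[[]]],[],
[[[]],[[]],[]],[],[[[]],[],[[]]]],[[[]],[],[[],[],[]],[]]]],[[[[[[1]],[[1]],[]],[[],[],[]],
[[[252492059582136320]],[],[[1]]],[[[29346017690255360]],[],[[1]]],[[]]],[[],[[],[],[]],[],[],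
[[]]],[[[[741366267238934380544]],[[6548893636685377568768]],[]],[[[8310411538751524175872]],
[[962725788614381273088]],[]],[[]],[[[]]],[[],[[1]],[[1731846838530605056]]]],[[[],[],[]],[[]],
[[]],[[]],[[]]],[[[[1878145132176343040]],[],[[962744357578011049984]]],[[]],[[[1]],[[1]],[]],
[[]],[[[1]],[],[[163840705851031552]]]],[[[[16159773427819872256]],[],[[7129678057368734138368]]],
[[[]]],[[[83453952895534366720]],[[11602966301404037120]],[]],[[]],[[[15060899176430174208]],[],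
[[129856899433516498944]]]],[[[]],[],[[]]]],[[],[],[[],[]],[],[],[],[]],
[[[[[741366267238934380544]],[[6549472561958232260608]],[]],[[],[],[]],[[[83451701147253866496]],
[],[[962744357578011049984]]],[[[10377709783305158656]],[],[[7129678057368734138368]]],[[]]],
[[[[111554340376000069632]],[[1038873777216839221248]],[]],[],[[[199289030523748352]],[[]],
[[102335508780597379072]]],[[[1875822955576000512]],[[]],[[667542417795161784320]]],[]],[[],[[]],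
[[[]]],[[]]],[[],[[[818684070244779032576]],[[129859222152104902656]],[]],[[[1]],[[1]],[]],
[[[162974291762348032]],[[22660428517605376]],[]],[]],[[[],[],[[]]],[[[]],[],[[]]],[[[]],[[]],[]],
[[[]],[[]],[[]]],[[[]],[],[[]]]],[[[],[],[[]]],[[[]],[],[[]]],[[[]],[[]],[]],[[[]],[[]],[[]]],
[[[]],[],[[]]]],[[],[[],[[31702227500400640]],[[12736201875033686016]]],[[]],
[[[3672645897027584]],[],[[1301717339728805888]]],[[[2031230102431334400]],[],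
[[12754779154743570432]]]]],[[[[[]]],[[],[],[[]]],[[[]],[],[[]]],[[],[],[[]]],[[[]],[[]],[[]]]],
[[[[]],[[]],[]],[],[[[]],[],[[]]],[[[]],[],[[]]],[]],[[[[]],[[]],[]],[],[[[]],[],[[]]],[[[]],[],
[[]]],[]],[[[[]],[[]],[[]]],[[[]],[[]],[[]]],[[[]],[[]],[[]]],[[[]],[[]],[[]]],[]],[[[[]],[],
[[]]],[[[]],[],[[]]],[],[[],[[]],[[]]],[]],[[[],[],[[]]],[[[]],[],[[]]],[],[[],[[]],[[]]],[]],
[[[[]],[[]],[[]]],[[[]],[[]],[[]]],[],[[[]],[],[[]]],[[[]],[],[[]]]]],[[[[[83161289880795873280]],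
[[965067383478991978496]],[]],[[[959303044373127102464]],[[101891692553394192384]],[]],[[[]]],
[[]],[[],[[5322043292901443633152]],[[61766706764546847539200]]]],[[],[[]],[[[]]],[[]]],
[[[[10485510439885602816]],[[7092919499665172332544]],[]],[],[[[130001086082069823488]],[[]],
[[740213042541816446976]]],[[[15042313097454833664]],[[]],[[6521216872360316010496]]],[[]]],
[[[[5322043292901443633152]],[[740213042541816446976]],[]],[],[[[1]],[[]],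
[[83161289880795873280]]],[[[129854681727428132864]],[[]],[[253617820003205120]]],[[]]],[[[[]],[],
[[]]],[[],[],[[]]],[[],[],[[]]],[[[]],[[]],[[]]],[[[]],[[]],[]]],[[[[]],[],[[]]],[[],[],[[]]],[[],
[],[[]]],[[[]],[[]],[[]]],[[[]],[[]],[]]],[[[],[[181283428140843008]],[[1450266884235657216]]],
[[]],[[]],[[[92967984181394112512]],[[13943452453493547008]],[[]]],[[[811675338794618335232]],
[[31701128651607040]],[[]]]]],[[[[],[],[[]]],[[[]],[[]],[]],[[[]],[[]],[]],[[[]],[[]],[]],[[[]]]],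
[[],[[[]],[[]],[]],[[[]],[[]],[]],[[[]],[[]],[]],[]],[[[[]],[[]],[[]]],[[[]],[[]],[[]]],[[[]],
[[]],[[]]],[[[]],[[]],[[]]],[]],[[[[]],[[]],[]],[],[[[]],[],[[]]],[[[]],[],[[]]],[]],[[[[]],[[]],
[]],[],[[[]],[],[[]]],[[[]],[],[[]]],[]],[[[[]],[[]],[]],[],[[[]],[],[[]]],[[[]],[],[[]]],[]],
[[[[]]],[],[[[]],[[]],[[]]],[[],[[]],[[]]],[[],[[]],[[]]]]],[[[[[163840705851031552]],[],
[[1731846838530605056]]],[[[]]],[[[1731846838530605056]],[[162714945547403264]],[]],[[[]]],[[[1]],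
[],[[101894119175281967104]]]],[[[],[],[[]]],[[[]],[],[[]]],[[[]],[[]],[]],[[[]],[[]],[[]]],[[[]],
[],[[]]]],[[[[1441189281467990016]],[[]],[[742554650124914524160]]],[[[162714945547403264]],[[]],
[[1]]],[],[[[]],[[27060106852040704]],[[10412612679377616896]]],[]],[[[[]],[],[[]]],[[[]],[],
[[]]],[[[]],[],[[]]],[[[]],[[]],[[]]],[[[]],[[]],[]]],[[[[1]],[[1]],[]],[],[[[1]],[[]],
[[886614937458146541568]]],[[[1]],[[]],[[24981488841785344]]],[]],[[[[]],[[]],[[]]],[[],[[]],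
[[]]],[[[]],[[]],[[]]],[[[]],[],[[]]],[[[]],[],[[]]]],[[[[27060106852040704]],[],
[[15042884985169379328]]],[],[[[235049337409765376]],[[24981488841785344]],[[]]],[],
[[[22553208287166464]],[[]],[[217866442405847040]]]]],[[[[[110694012633124700160]],[],
[[741366267238934380544]]],[[]],[[[61614450471320401477632]],[[6549175216097841905664]],[]],[[]],
[[[1]],[],[[47524615063444838678528]]]],[[[],[],[[]]],[[[]],[],[[]]],[[[]],[[]],[]],[[[]],[[]],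
[[]]],[[[]],[],[[]]]],[[[[1]],[],[[1450267425126744064]]],[[[6549175216097841905664]],[],[[1]]],
[],[[[]],[[962725788614381273088]],[[7093214626126445412352]]],[]],[[[[]],[],[[]]],[[],[],[[]]],
[[],[],[[]]],[[[]],[[]],[[]]],[[[]],[[]],[]]],[[[[1]],[[1]],[]],[],[[[818684070244779032576]],
[[]],[[1]]],[[[1]],[[]],[[1]]],[]],[[[[]],[[]],[[]]],[[],[[]],[[]]],[[[]],[[]],[[]]],[[[]],[],
[[]]],[[[]],[],[[]]]],[[[[11584397337891700736]],[],[[1]]],[],[[[129429091030602350592]],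
[[15042330693836734464]],[]],[],[[[11637890981516279808]],[[]],[[2029014053648695296]]]]],
[[[[[]]],[[],[[]],[[]]],[[[]]],[[[]],[],[[]]],[[[]],[],[[]]]],[[],[[],[[]],[[]]],[[]],[[[]],[],
[[]]],[[[]],[],[[]]]],[[[[]],[[]],[[]]],[[[]],[[]],[[]]],[],[[[]],[],[[]]],[[[]],[],[[]]]],[[[],
[[]],[[]]],[[]],[[]],[[[]],[[]],[]],[[[]],[[]],[]]],[[[[]]],[],[[[]],[[]],[[]]],[[],[[]],[[]]],
[[],[[]],[[]]]],[[[[]],[],[[]]],[],[[[]],[[]],[]],[],[[[]],[],[[]]]],[[[[]],[],[[]]],[],[[[]],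
[[]],[]],[],[[[]],[],[[]]]]]],[[[[[],[[]],[[]]],[],[[]]],[[],[[],[[]],[[]]],[[],[],[]],[[[]],[],
[[]]],[[[]],[],[[]]]],[[[]],[[[]],[[]],[[]]],[],[[],[],[[]]],[]],[[[],[[]],[[]]],[[]],[[]],[[[]],
[[]],[]],[[[]],[[]],[]]],[[[[]]],[],[[[]],[[]],[[]]],[[],[],[[]]],[[],[],[[]]]],[[[[]],[],[[]]],
[],[[[]],[[]],[]],[[]],[[[]],[],[[]]]],[[[[]],[],[[]]],[],[[[]],[[]],[]],[[]],[[[]],[],[[]]]]],
[[[]],[[],[[],[],[]],[[],[],[]],[[],[],[[]]],[[],[],[[]]]],[[],[]],[[[],[],[]],[[]],[[]],[[[]],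
[[]],[]],[[[]],[[]],[]]],[[],[],[[]],[[]],[[]]],[[[],[],[[]]],[],[[[]],[[]],[]],[[]],[[[]],[],
[[]]]],[[[],[],[[]]],[],[[[]],[[]],[]],[[]],[[[]],[],[[]]]]],[[[[[]],[[]],[[]]],[[],[[]],[[]]],
[[[]],[],[]],[[[]],[],[[]]],[[[]],[],[[]]]],[[[[]],[[]],[[]]],[],[[[]],[[]],[[]]],[[],[],[[]]],
[[],[],[[]]]],[],[[],[[[]],[[]],[[]]],[[[]],[[]],[[]]],[[[]],[[]],[]],[[[]],[[]],[]]],[],[[[],[],
[[]]],[[[]],[],[[]]],[[[]],[[]],[]],[[[]],[[]],[[]]],[[[]],[],[[]]]],[[[],[],[[]]],[[[]],[],[[]]],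
[[[]],[[]],[]],[[[]],[[]],[[]]],[[[]],[],[[]]]]],[[[],[[],[[]],[[]]],[[],[],[]],[[[]],[],[[]]],
[[[]],[],[[]]]],[[[[]],[[]],[[]]],[],[[[]],[],[[]]],[[],[],[[]]],[[],[],[[]]]],[[[[]],[[]],[[]]],
[],[[[]],[],[[]]],[[],[],[[]]],[[],[],[[]]]],[[],[[[]],[[]],[[]]],[[[]],[[]],[[]]]],[[[[]],[],
[[]]],[[[]],[],[[]]],[],[[],[[]],[[]]],[[],[[]],[[]]]],[[[],[],[[]]],[[[]],[],[[]]],[],[[],[[]],
[[]]],[]],[[[],[],[[]]],[[[]],[],[[]]],[],[[[]],[[]],[[]]],[]]],[[[[[]],[[]],[[]]],[[[]],[[]],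
[[]]],[],[[[]],[],[[]]],[[[]],[],[[]]]],[],[[[[]],[[]],[[]]],[[],[[]],[[]]],[[[]],[[]],[[]]],
[[[]],[],[[]]],[[[]],[],[[]]]],[[[[]],[[]],[[]]],[[],[[]],[[]]],[[[]],[[]],[[]]],[[[]],[],[[]]],
[[[]],[],[[]]]],[],[[[[]],[],[[]]],[[[]],[],[[]]],[[[]],[],[[]]],[[[]],[[]],[[]]],[[[]],[[]],[]]],
[[[[]],[],[[]]],[[[]],[],[[]]],[[[]],[],[[]]],[[[]],[[]],[[]]],[[[]],[[]],[]]]],[[[[],[[]],[[]]],
[[]],[[[]]],[[[]],[[]],[]],[[[]],[[]],[]]],[[],[[[]],[[]],[[]]],[[[]],[[]],[]],[[[]],[[]],[]],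
[[[]],[[]],[]]],[[],[[[]],[[]],[[]]],[[[]],[[]],[[]]]],[[[[]],[[]],[[]]],[],[[[]],[],[[]]],[[],[],
[[]]],[[],[],[[]]]],[[[[]],[[]],[]],[],[[[]],[],[[]]],[[[]],[],[[]]],[[[]],[],[[]]]],[[[[]],[[]],
[]],[],[[[]],[],[[]]],[[[]],[],[[]]],[]],[[[[]],[[]],[]],[],[[[]],[],[[]]],[[[]],[[]],[[]]],[]]],
[[[[[]]],[],[[[]],[[]],[[]]],[[[]],[],[[]]],[[[]],[],[[]]]],[],[[[[]],[[]],[[]]],[[[]],[[]],[[]]],
[],[[],[[]],[[]]],[[],[[]],[[]]]],[],[[[[]],[[]],[[]]],[[],[[]],[[]]],[[[]],[[]],[[]]],[[[]],[],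
[[]]],[[[]],[],[[]]]],[[[[]],[[]],[[]]],[[],[[]],[[]]],[[[]],[[]],[[]]],[[[]],[],[[]]],[[[]],[],
[[]]]],[[[[]],[[]],[[]]],[[],[[]],[[]]],[[[]],[[]],[[]]],[[[]],[],[[]]],[[[]],[],[[]]]]],[[[[[]],
[],[[]]],[],[[[]],[[]],[]],[[]],[[[]],[],[[]]]],[[[],[],[[]]],[[[]],[],[[]]],[[[]],[[]],[]],[[[]],
[[]],[[]]],[[[]],[],[[]]]],[[[],[],[[]]],[[[]],[],[[]]],[],[[],[[]],[[]]],[]],[[[[]],[],[[]]],[[],
[],[[]]],[[],[],[[]]],[[],[[]],[[]]],[[[]],[[]],[]]],[[[[]],[[]],[]],[],[[[]],[[]],[[]]],[[[]],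
[[]],[[]]],[]],[[[[]],[[]],[[]]],[[],[[]],[[]]],[[],[[]],[[]]],[[[]],[],[[]]],[[[]],[],[[]]]],
[[[[]],[],[[]]],[],[[[]],[[]],[]],[],[[[]],[[]],[[]]]]],[[[[[]],[],[[]]],[],[[[]],[[]],[]],[[]],
[[[]],[],[[]]]],[[],[[]],[[]],[[]]],[[[],[],[[]]],[[[]],[],[[]]],[],[[],[[]],[[]]],[]],[[[]],[],
[],[[],[],[]]],[[[[]],[[]],[]],[],[[[]],[],[[]]],[[[]],[],[[]]],[]],[[[]],[],[[],[],[]],[]],
[[[[]],[],[[]]],[],[[[]],[[]],[]],[],[[[]],[],[[]]]]]],[[[[[],[],[[1]]],[[],[]],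
[[[27130466863677440]],[[1]]],[[]],[[[1]],[],[[1]]]],[[],[[],[]],[],[[]]],[[[[1]],[],
[[16231540480205127680]]],[[[47298713666110225383424]],[],[[1]]],[[]],[[],
[[5331120510706701565952]],[[61612197835532134252544]]],[[[]]]],[[[],[]],[[]],[[]],[[]]],
[[[[16231540480205127680]],[[1880394699278123008]]],[[]],[[[5331980519023589720064]],[],[[1]]],
[[[742573218607507963904]],[],[[101614790411049500672]]],[[]]],[[[]],[],[[]]],
[[[[1873641533232644096]],[],[[965104529446312869888]]],[[[]]],[[[813980596656397352960]],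
[[24983678868258816]],[]],[[]],[[[8310404573319470776320]],[],[[11637609369118441472]]]]],[[],[],
[[],[]],[],[],[],[]],[[[[[27057916825567232]],[],[[16231540480205127680]]],[[],[]],
[[[10413193499583184896]],[[1880394699278123008]]],[[]],[[[130005517121714388992]],[],
[[965104529446312869888]]]],[[[[1]],[],[[1880394699278123008]]],[],[[[1880394699278123008]],
[[199851910734282752]],[]],[],[[[162714945547403264]],[],[[101900732754634473472]]]],[[],[[]],[],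
[],[]],[[],[[[5349988305078199517184]],[],[[1]]],[[[742573218607507963904]],[],[[1]]],[[]],
[[[1589773425837080576]],[[11583847925608349696]],[]]],[[[[]],[[]],[]],[[[]],[[]],[[]]],[[[]],[],
[[]]],[[[]],[],[[]]],[[[]],[[]],[[]]]],[[],[[],[[886652105209658998784]],
[[8310411538751524175872]]],[[]],[[[83312195609743589376]],[],[[15060886320602939392]]],
[[[962726048375044833280]],[],[[1731706083728195584]]]],[[[],[],[[]]],[[[]],[],[[]]],[[[]],[[]],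
[]],[[[]],[[]],[[]]],[[[]],[],[[]]]]],[[[[[]]],[[],[[]]],[[[]],[[]]],[[[]],[[]]],[[],[],[[]]]],
[[[[]],[],[[]]],[],[[[]],[[]],[]],[],[[[]],[],[[]]]],[[[[]],[],[[]]],[],[[[]],[[]],[]],[],[[[]],
[],[[]]]],[[[[]],[[]],[[]]],[[[]],[[]],[[]]],[[[]],[],[[]]],[],[[[]],[[]],[[]]]],[[[[]],[[]],[]],
[[[]],[[]],[]],[],[],[[],[[]],[[]]]],[[[[]],[[]],[[]]],[[[]],[[]],[[]]],[],[[[]],[],[[]]],[[[]],
[],[[]]]],[[[],[],[[]]],[[[]],[],[[]]],[],[[],[[]],[[]]],[]]],[[[[[3945188430970880]],[],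
[[5350145788670357012480]]],[[[111405685321593028608]],[],[[739042115162113048576]]],[[[]]],[[],
[[11602420946942558208]],[[102335436221828825088]]],[[]]],[[],[[]],[],[],[]],[[[[1]],[],
[[10413756515033808896]]],[],[[[1]],[[1]],[]],[[]],[[[83735603802561052672]],[],[[1]]]],
[[[[61839323363145738616832]],[],[[1]]],[],[[[101614790411049500672]],[[16177215739925102592]],
[[]]],[[]],[[[3945188430970880]],[[]],[[92382481019826176000]]]],[[[[]],[[]],[[]]],[[[]],[[]],[]],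
[[[]],[[]],[]],[[[]],[[]],[]],[[],[[]],[[]]]],[[[],[[8310411538751524175872]],
[[47525802628503648337920]]],[[]],[[]],[[[15060886320602939392]],[[1587661805973504000]],[[]]],
[[[111547516256677527552]],[[162701748205002752]],[[]]]],[[[[]],[],[[]]],[[],[],[[]]],[[],[],
[[]]],[[],[[]],[[]]],[[[]],[[]],[]]]],[[[[],[[]]],[[[]],[],[[]]],[[[]],[],[[]]],[[[]]],[[[]],[[]],
[]]],[[],[[[]],[],[[]]],[[[]],[],[[]]],[[]],[[[]],[[]],[]]],[[[[]],[[]],[[]]],[[[]],[[]],[[]]],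
[[[]],[],[[]]],[],[[[]],[[]],[[]]]],[[[[]],[],[[]]],[],[[[]],[[]],[]],[],[[[]],[],[[]]]],[[[[]],
[],[[]]],[],[[[]],[[]],[]],[],[[[]],[],[[]]]],[[[[]]],[],[[[]],[[]],[[]]],[[],[[]],[[]]],[[],[[]],
[[]]]],[[[[]],[[]],[]],[],[[[]],[],[[]]],[[[]],[],[[]]],[]]],[[[[[5359220684349214031872]],
[[741401429625068847104]]],[[[]]],[[[813980596656397352960]],[],[[83735603802561052672]]],
[[[129856899433516498944]],[],[[1]]],[[]]],[[[[]],[[]],[]],[[[]],[[]],[[]]],[[[]],[],[[]]],[[[]],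
[],[[]]],[[[]],[[]],[[]]]],[[[[10413756515033808896]],[[1450267425126744064]],[]],[[[1]],[[1]],
[]],[],[],[[],[[13943452313974210560]],[[1]]]],[[[[]],[[]],[[]]],[[[]],[[]],[]],[[[]],[[]],[]],
[[[]],[[]],[]],[[],[[]],[[]]]],[[[[8310411538751524175872]],[],[[1]]],[],[[[1]],[[1]],[[]]],[],
[[[1]],[[]],[[12790808024727158784]]]],[[[[962725788614381273088]],[],[[111547585491686653952]]],
[],[[[1]],[[1]],[[]]],[],[[[181564972912082944]],[[]],[[2029014053648695296]]]],[[[[]],[[]],[[]]],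
[[],[[]],[[]]],[[],[[]],[[]]],[[[]],[],[[]]],[[[]],[],[[]]]]],[[[[[]]],[[],[[]],[[]]],[[[]]],
[[[]],[],[[]]],[[[]],[],[[]]]],[[],[[],[[]],[[]]],[[]],[[[]],[],[[]]],[[[]],[],[[]]]],[[[[]],[[]],
[[]]],[[[]],[[]],[[]]],[],[[[]],[],[[]]],[[[]],[],[[]]]],[[[],[[]],[[]]],[[]],[[]],[[[]],[[]],[]],
[[[]],[[]],[]]],[[[[]]],[],[[[]],[[]],[[]]],[[],[[]],[[]]],[[],[[]],[[]]]],[[[[]],[],[[]]],[],
[[[]],[[]],[]],[],[[[]],[],[[]]]],[[[[]],[],[[]]],[],[[[]],[[]],[]],[],[[[]],[],[[]]]]],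
[[[[[815170959069147037696]],[],[[8282883287076925603840]]],[],[[[8310841563745055932416]],
[[962709164405551005696]],[]],[[]],[[[181274423758684160]],[],[[83307798164387397632]]]],[[[],[],
[[]]],[[[]],[],[[]]],[[[]],[[]],[]],[[[]],[[]],[[]]],[[[]],[],[[]]]],[[[[1]],[],
[[741401429625068847104]]],[[[962709164405551005696]],[],[[1]]],[],[[],[[129856899433516498944]],
[[1]]],[]],[[[[]],[],[[]]],[[],[],[[]]],[[],[],[[]]],[[],[[]],[[]]],[[[]],[[]],[]]],[[[[1]],[[1]],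
[]],[],[[[1]],[[]],[[57118127534910440734720]]],[[[1]],[[]],[[5340490212940630196224]]],[]],
[[[[]],[[]],[[]]],[[],[[]],[[]]],[[],[[]],[[]]],[[[]],[],[[]]],[[[]],[],[[]]]],
[[[[129856899433516498944]],[],[[1]]],[],[[[1]],[[5340490212940630196224]],[]],[],
[[[129285047293052977152]],[[]],[[891281251818480861184]]]]]]] : List (List (List (List (List (List (List (ℕ))))))))

end Pool.Agent.Helper26.WD
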