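import Pool.Agent.Helper26.WD.AlgP

/-!
# Intermediate states of the computation for the Whitehead double
-/

namespace Pool.Agent.Helper26.WD

/-- State number 14. -/
def wst14 : L ℕ 7 := (
[[[[[[[530122974832762078363648]],[[]],[[888956532456891088896]]],[],[[[1038782847465585377280]],
[[1]]],[],[[[7130400848292867997696]],[],[[13925411734350200832]]]],[[[[]],[],[[]]],[[],[[]]],
[[]],[[[]]]],[[[[3938601239265558241738752]],[[]],[[493487452872565168537600]]],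
[[[5331976087983005630464]],[],[[66192719793635972874240]]],[[],[],[[]]],[[],
[[12737046165661417472]],[[7083851500673000538112]]],[[],[[]]]],[[[[]],[[]],[[]]],[[],[],[]],[[]],
[[]]],[[[[453938349614614790012928]],[[52094795930044572106752]],[[]]],[[],[],[]],
[[[42579715027149313277952]],[],[[6521505171472719544320]]],[[[83156856108610486272]],[],
[[42655790412659221856256]]],[[[]]]],[[[[]],[[]],[[]]],[[],[]],[[]]],
[[[[47596113366776016797696]],[[]],[[453357133132006579765248]]],[[],[]],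
[[[455137237178079030280192]],[[42576330022338961604608]]],[[[]]],[[[61397754708563524059136]],[],
[[419138425160042673078272]]]]],[[[[[]],[],[[]]],[],[[[]],[[]]],[[]],[[[]],[],[[]]]],[[[[]],[],
[[]]],[[],[[]]],[[],[[]]],[[[]],[[]]]],[[[[]],[],[[]]],[[[]],[],[[]]],[[],[],[]],[[],[[]],[[]]],
[]],[[[[]],[[]],[[]]],[[[]],[],[[]]],[[[]],[],[[]]],[[[]],[],[[]]],[[[]]]],[[[[]],[[]],[]],[[],[],
[]],[[[]],[],[[]]],[[[]],[],[[]]],[[]]],[[[[]],[[]],[[]]],[[],[[]],[[]]],[[[]]],[[[]]],[[[]]]],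
[[[[]],[],[[]]],[[],[]],[[[]],[[]]],[[]],[[[]],[],[[]]]]],[[[[[11565525529591283712]],[[]],
[[5322754966148236705792]]],[[[]],[[]],[[]]],[[[529495632447078506954752]],
[[741347109349405753344]],[[]]],[[[]],[[]],[[]]],[[[61834693381321520054272]],[[]],
[[7683361817715030360064]]]],[[[[5359648418561527906304]],[[]],[[61543005652427827314688]]],[[[]],
[[]],[[]]],[[[3045928778782095041363968]],[[6539659005631880232960]],[[]]],[[[]],[[]],[[]]],
[[[454564676577137648467968]],[[]],[[57040846622923782356992]]]],[[],[[],[],[]],[],[],[[]]],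
[[[[]],[[]],[[]]],[[[3324994508991807610683392]],[],[[529505006618226425069568]]],
[[[21761882965610741037531136]],[],[[965014180449933590528]]],[[],[],[]],
[[[3046295354050042233094144]],[[7121168399752757248000]],[]]],[[[],[]],[[],[],[[]]],[[]],[[]],
[[[]]]],[[[[]],[[]],[[]]],[[],[[7710896792859616215040]],[[741438311913693904896]]],[[],[],[]],
[[[56896695120107051941888]],[],[[5930635046565319802880]]],[[[6503355664948640350208]],[],
[[52248187381064609300480]]]],[[[]],[[],[[]]],[[]],[[[]]]]],[[[[[]],[],[[]]],[[],[[]]],[[],[[]]],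
[[[]],[[]]]],[[[[]],[],[[]]],[[],[]],[[[]],[[]]],[[]],[[[]],[],[[]]]],[[[[]],[],[[]]],[[],[]],
[[[]],[[]]],[[]],[[[]],[],[[]]]],[[[[]],[[]],[[]]],[[[]],[[]],[[]]],[[[]]],[],[[[]],[[]],[[]]]],
[[[[]],[[]],[]],[[[]],[[]],[]],[[]],[[]],[[],[[]],[[]]]],[[[[]],[[]],[[]]],[[[]],[[]],[[]]],[],
[[[]]],[[[]]]],[[[[]],[],[[]]],[[[]],[],[[]]],[[]],[[],[[]],[[]]],[]]],
[[[[[532502737709644262670336]],[[]],[[47378175195598569865216]]],[[[3045929931149516654772224]],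
[],[[454546234408106316529664]]],[[],[],[[]]],[[],[[8274094302964607877120]],
[[56746834200992522698752]]],[[],[[]]]],[[],[[],[],[]],[],[],[[]]],[[[[42727326433498783285248]],
[[]],[[340047426835648406880256]]],[[[]],[[]],[[]]],[[[33889500587380944595320832]],
[[47447405351572785332224]],[[]]],[[[]],[[]],[[]]],[[[3957569104140825081675776]],[[]],
[[492943992349920010960896]]]],[[[[21761882965610741037531136]],[],[[3046370311681183970230272]]],
[[[]],[[]],[[]]],[[[3929384875660612005265408]],[[7139045436850647859200]],[]],[[[]]],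
[[[417386126407931413921792]],[],[[61689444711247346925568]]]],[[[],[],[[]]],[[],[]],[[[]],[[]],
[]],[[[]],[[]],[]],[[[]]]],[[[],[[57112292004692289388544]],[[6539810018623471222784]]],[[[]],
[[]],[[]]],[[[]]],[[[491163012245967239053312]],[[51947257715981937016832]],[]],
[[[3655561298276069248335872]],[[340601416840235718803456]],[]]],[[[],[[]]],[[]],[[],[],[[]]],
[[[]]]]],[[[[[]],[[]],[[]]],[[[]],[],[[]]],[[[]],[],[[]]],[[[]],[],[[]]],[[[]]]],[[],[[[]],[],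
[[]]],[[[]],[],[[]]],[[],[],[]],[[[]],[[]],[]]],[[[[]],[[]],[[]]],[[[]],[[]],[[]]],[[[]]],[],
[[[]],[[]],[[]]]],[[[[]],[],[[]]],[],[[[]],[[]],[]],[[]],[[[]],[],[[]]]],[[[[]],[],[[]]],[],[[[]],
[[]],[]],[[]],[[[]],[],[[]]]],[[[[]]],[],[[[]],[[]],[[]]],[[[]],[],[[]]],[[[]],[],[[]]]],[[[[]],
[[]]],[],[[[]],[],[[]]],[[[]],[],[[]]],[[]]]],[[[[[3041576410030626060632064]],
[[380178757598022522109952]],[[]]],[[],[],[[]]],[[[341246901978108943925248]],[],
[[47373634722676252606464]]],[[[16249832018995576832]],[],[[419128623112828775038976]]],[[[]]]],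
[[[],[]],[[],[],[[]]],[[]],[[]],[[[]]]],[[[[341228171541326128480256]],[[966166252922167361536]],
[[]]],[[[47668747984861929668608]],[[1]],[[]]],[[[]]],[[[]]],[[[]],[[532502316763317566177280]],
[[3041650303958338913697792]]]],[[[],[],[[]]],[[],[]],[[[]],[[]],[]],[[[]],[[]],[]],[[[]]]],
[[[[3650836643969057844887552]],[],[[101603600139651383296]]],[[[]]],
[[[21876381183144612463640576]],[[61470317550391980457984]],[]],[[[]]],
[[[66114392357479880065024]],[],[[341790930093455622275072]]]],[[[[8283317781130633019392]],[],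
[[10449771776481689600]]],[[[]]],[[[2748865780639129215959040]],[[453983752724051482640384]],[]],
[[[]]],[[[7092924073083255390208]],[],[[3943254484769492617396224]]]],[[[[]]],[[],[[]],[[]]],
[[[]]]]],[[[[[]],[[]],[[]]],[[],[],[]],[[[]]],[[[]]],[[[]]]],[[[]],[[],[[]],[[]]],[[],[],[]],
[[[]],[],[[]]],[[[]],[],[[]]]],[[[[]],[[]],[[]]],[[[]],[[]],[[]]],[],[[]],[[]]],[[[],[[]],[[]]],
[[]],[[]],[[[]],[[]],[]],[[[]],[[]],[]]],[[[[]]],[],[[[]],[[]],[[]]],[[[]],[],[[]]],[[[]],[],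
[[]]]],[[[[]],[],[[]]],[],[[[]],[[]],[]],[[]],[[[]],[],[[]]]],[[[[]],[],[[]]],[],[[[]],[[]],[]],
[[]],[[[]],[],[[]]]]],[[[[[529495643668711619952640]],[[]],[[42578635860676358701056]]],[[],[[]]],
[[[56670812581870621949952]],[[5368732320820898037760]]],[[[]]],[[[101468527919452127232]],[],
[[51951904581694108991488]]]],[[[]],[[],[[]]],[[]],[[[]]]],[[[[56669604768277783379968]],[[]],
[[5321894709882758627328]]],[[[531884920434990463844352]],[[]],[[1]]],[[[]],[[]],[[]]],[[[]],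
[[52394625885243745763328]],[[341808953427670475997184]]],[[[]]]],[[[],[[]]],[[]],[[],[],[[]]],
[[[]]],[[]]],[[[[377826511714872576704512]],[[180716078045331456]]],[[[]],[[]],[[]]],
[[[3329495515663171401023488]],[],[[7692873314008125407232]]],[[[5913055244363453562880]],[],
[[56895579067429535612928]]],[[[]]]],[[[[]]],[[],[[]],[[]]],[[[]]],[[]]],
[[[[56746814493280592986112]],[],[[102047066173470867456]]],[[[]]],[[[377826225769840195403776]],
[[56896731443712773586944]],[]],[[[]]],[[[52392231641706991726592]],[],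
[[492933906537420916031488]]]]]],[[[[[[]],[],[[]]],[],[[]],[],[[],[],[]]],[],[[[[]],[],[[]]],
[[[]],[],[[]]],[[],[],[]],[[],[],[[]]],[[],[]]],[[[],[],[]],[[],[],[]]],[[[[]],[[]],[]],[[],[],
[]],[[[]],[],[[]]],[[],[],[[]]],[[]]],[[[]],[],[[]]],[[[],[],[[]]],[[],[]],[[[]],[[]]],[[]],[[[]],
[],[[]]]]],[[[[[]],[],[[]]],[],[[[]]],[[]],[[[]],[],[[]]]],[[[[]],[],[[]]],[[],[[]]],[[]],[[[]]]],
[[[[]],[],[[]]],[[[]],[],[[]]],[[],[],[]],[[],[],[[]]],[]],[[[[]],[],[[]]],[[[]],[],[[]]],[[[]]],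
[[]],[[[]]]],[[[[]],[[]],[]],[[],[],[]],[[[]],[],[[]]],[[[]],[],[[]]],[[]]],[[[[]],[],[]],[[],[],
[]],[[[]]],[[]],[[]]],[[[[]],[],[[]]],[[],[]],[[[]],[[]]],[],[[],[],[[]]]]],[[[[[]],[],[[]]],[],
[[[]]],[[]],[[],[],[[]]]],[[[[]],[],[[]]],[],[[[]]],[[]],[[],[],[[]]]],[],[[],[[[]],[],[[]]],
[[[]],[],[[]]],[[],[],[]],[[[]],[[]],[]]],[[],[[],[],[]],[],[],[[]]],[[],[[],[],[[]]],[[]],[[]],
[[[]]]],[]],[[[[[]],[],[[]]],[[],[[]]],[[]],[[[]]]],[[[[]],[],[[]]],[],[[[]]],[[]],[[[]],[],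
[[]]]],[[[[]],[],[[]]],[],[[[]]],[[]],[[[]],[],[[]]]],[[[[]],[],[[]]],[[[]],[[]],[[]]],[[[]]],[],
[[[]]]],[[[[]],[[]],[]],[[[]],[[]],[]],[[]],[[]],[[],[[]],[[]]]],[[[[]],[],[]],[[[]],[],[]],[],
[[]],[[]]],[[[[]],[],[]],[[[]],[],[[]]],[[]],[[],[[]],[[]]],[]]],[[[[[]],[],[[]]],[[[]],[],[]],
[[],[],[]],[[],[],[[]]],[]],[],[[[[]],[],[[]]],[],[[[]]],[[]],[[],[],[[]]]],[[[[]],[],[[]]],[],
[[[]],[[]],[]],[[]],[[[]],[],[[]]]],[[[],[],[]],[],[[]],[[]],[[]]],[[[],[],[[]]],[],[[]],[[]],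
[[[]]]],[]],[[[[[]],[[]],[[]]],[[[]],[],[[]]],[[[]]],[[]],[[[]]]],[[],[[[]],[],[[]]],[[[]],[],
[[]]],[[],[],[]],[[[]],[[]],[]]],[[[[]],[],[[]]],[[[]],[[]],[[]]],[[[]]],[],[[[]]]],[[[[]],[],
[[]]],[],[[[]],[[]],[]],[[]],[[[]],[],[[]]]],[[[[]],[],[[]]],[],[[[]],[[]],[]],[[]],[[[]],[],
[[]]]],[[[[]]],[],[[[]],[[]],[[]]],[[[]],[],[[]]],[[[]],[],[[]]]],[[[[]],[[]]],[],[[[]],[],[[]]],
[[[]],[],[[]]],[[]]]],[[[[[]],[[]],[]],[[],[],[]],[[[]],[],[[]]],[[[]],[],[[]]],[[]]],[[],[[],[],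
[]],[],[],[[]]],[[[[]],[[]],[]],[[[]],[[]],[]],[],[[]],[[],[[]],[[]]]],[[[],[],[]],[],[[]],[[]],
[[]]],[[[[]],[],[[]]],[],[[[]],[[]],[]],[[]],[[[]],[],[[]]]],[[[[]],[],[[]]],[],[[[]],[[]],[]],
[[]],[[[]],[],[[]]]],[[[]],[],[[]]]],[[[[[]],[[]],[[]]],[[],[],[]],[[[]]],[[]],[[]]],[[],[[],[],
[[]]],[[],[],[]],[[],[],[[]]],[[[]],[],[[]]]],[[[[]],[],[]],[[[]],[[]],[[]]],[],[[]],[[]]],[[[],
[],[[]]],[],[[]],[[[]],[[]],[]],[[[]],[[]],[]]],[[[[]]],[],[[[]],[[]],[[]]],[[[]],[],[[]]],[[[]],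
[],[[]]]],[[[[]],[],[[]]],[],[[[]],[[]],[]],[[]],[[[]],[],[[]]]],[[[[]],[],[[]]],[],[[[]],[[]],
[]],[[]],[[[]],[],[[]]]]],[[[[[]],[],[[]]],[[],[]],[[[]],[[]]],[],[[],[],[[]]]],[[],[[],[]],[],
[[]]],[[[[]]],[[[]],[],[[]]],[],[[],[[]],[[]]]],[[[],[]],[],[[]],[[]]],[[[[]],[[]]],[],[[[]],[],
[[]]],[[[]],[],[[]]],[[]]],[],[[[[]],[],[[]]],[],[[[]],[[]],[]],[[]],[[[]],[],[[]]]]]],
[[[[[[56745734733418175922176]],[[]],[[492897866448434844663808]]],[],[[[5331109145072185114624]],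
[[741402282703301115904]]],[],[[[42502541928668720005120]],[],[[110826904024086740992]]]],[[[[]],
[],[[]]],[[],[]],[[]],[[]]],[[[[455118504560423887437824]],[[]],[[3957494200830097587437568]]],
[[[47593825819573750857728]],[],[[491735442454716849586176]]],[[],[],[]],[[],
[[5913059819972632510464]],[[52241251283482399735808]]],[[],[]]],[[[],[],[]],[[],[],[]],[[]],
[[]]],[[[[61837036379096429363200]],[[491735442454716849586176]],[]],[[],[],[]],
[[[530132333415634906906624]],[],[[66483218585353459859456]]],[[[52318498141395946045440]],[],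
[[381387012544851068583936]]],[[]]],[[[[]],[[]],[[]]],[[],[]],[[]]],[[[[5913059819972632510464]],
[],[[2725250579237659385790464]]],[[],[]],[[[2739422272938292939849728]],
[[381387012544851068583936]]],[[]],[[[380741518468978692849664]],[],
[[4245857180120555295080448]]]]],[[[[[1]],[],[[741420314832576446464]]],[[[]],[],[[]]],
[[[961645479264571359232]],[[111552016532270743552]],[]],[[[]]],[[[6512421447866676936704]],[],
[[965067383478991978496]]]],[[[[]]],[[],[]],[[]],[[]]],[[[[61615693209388402606080]],[[]],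
[[453375573226783330271232]]],[[[7111510358875554447360]],[],[[42728514249038827356160]]],[[],[],
[]],[[],[[961645756140695584768]],[[7093500605269459075072]]],[[],[]]],[[[[]],[],[[]]],[[]],[[]],
[[]]],[[[[378998163689762455552000]],[[61613297004460243419136]],[]],[[],[],[]],
[[[963951898353519820800]],[],[[7084270443783203586048]]],[[[1]],[],[[66559419486859918835712]]],
[[]]],[[[[]]],[],[[]]],[[[[61685912191696472375296]],[],[[416795548947756603179008]]],[[],[]],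
[[[5349706865870509211648]],[[744878225986811854848]]],[[]],[[[1]],[],
[[8292538795247483912192]]]]],[[[],[],[[]]],[[],[],[[]]],[[]],[],[[],[[],[],[]],[[]],[[]],[[]]],
[],[[],[[],[]],[[]],[[]]]],[[[[[]]],[[],[]],[[]],[[]]],[[[[818684070244779032576]],[[]],
[[129708172885889122304]]],[[[]],[],[[]]],[[[5359067384914731073536]],[[963860401324092817408]],
[]],[[[]]],[[[47303325910884570628096]],[],[[5322606385258922246144]]]],
[[[[5331401843888690823168]],[[]],[[887769288531813335040]]],[[[]],[],[[]]],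
[[[61689370960265799008256]],[[7111803270989000736768]],[]],[[[]]],[[[418520164212657199513600]],
[],[[61613314447174998687744]]]],[[[],[]],[[[]],[],[[]]],[[]],[],[]],[[[[10377709783305158656]],
[[29346017690255360]],[]],[[[1]],[[666425230486086352896]],[]],[[[]]],[[]],[[],
[[61764365187269036867584]],[[453938347360615946780672]]]],[[[]],[[]],[],[],[]],
[[[[7129954920976491741184]],[],[[741382584198739525632]]],[[[66482156848755558055936]],[],
[[6511705197938154143744]]],[[[]]],[[],[[6548607869214873616384]],[[42726118611043197124608]]],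
[[]]]],[[[[]],[[]],[]],[[]],[[],[],[[]]],[],[[[],[],[]],[],[[]],[[]],[[]]],[],[[[],[]],[],[[]],
[[]]]],[[[[[]],[],[[]]],[],[[]]],[[[[]],[],[[]]],[[[7693163834116570873856]],[],
[[52025674665300653506560]]],[[[56892082871004435578880]],[],[[1731846838530605056]]],[[],[],[]],
[[[342999340379768111497216]],[[16231540480205127680]],[]]],[[[]],[[[]],[],[[]]],[],[],[]],
[[[[56892082871004435578880]],[],[[343008280127282622758912]]],[[[]],[],[[]]],
[[[6503342012888688623616]],[[16231540480205127680]],[]],[[[]]],[[[61390783431006316658688]],[],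
[[110838197665958723584]]]],[[[[8283034054328334680064]],[],[[963896724518588121088]]],[[[]]],
[[[2748496882054866040520704]],[[6521365383919328821248]],[]],[[[]]],[[[6521070608202799775744]],
[],[[47373634722676252606464]]]],[[[]],[],[[]],[[]],[[]]],[[[[57044323406437197807616]],[[1]]],
[[[]]],[[[379616267081024257654784]],[],[[818666033854929960960]]],[[[66560555805596138602496]],
[],[[5331690179775556485120]]],[[[]]]]],[[[]],[[],[[],[],[]],[],[],[[]]],[[],[]],[[[],[],[]],[],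
[[]],[[]],[[]]],[[],[],[[]]],[[],[],[[]]],[[[]],[],[[]]]],[[[[[]]],[],[[]]],[[[[]]],[[],
[[42872576229542690029568]],[[493524920673011373178880]]],[[],[],[]],
[[[493515264815772179890176]],[],[[52388772327230023925760]]],[[[3655559101073673653583872]],[],
[[341800450704176656154624]]]],[[[]],[[]],[],[],[]],[[[],[[493496525547171076898816]],
[[3655336478560751596863488]]],[[[]]],[[[]]],[[[3636669598831991863640064]],
[[341191712685228900220928]],[]],[[[33966266715024610614575104]],[[3933957362066544048209920]],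
[]]],[[[]],[],[[]],[[]],[[]]],[[[[52393366280458062528512]],[],[[8310415973580269420544]]],[[]],
[[[120198822289869897728]],[[47230582947270681952256]],[]],[[[]]],[[[56673011169584293609472]],[],
[[532465418664909838745600]]]],[[[[341818744253827843620864]],[],[[816287865041792532480]]],[[]],
[[[2725253947375888218718208]],[[5341199390201146769408]],[]],[[[]]],
[[[530122686778900096221184]],[],[[61470389071282576556032]]]]],[[[]],[[],[[],[]],[],[[]]],[[],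
[]],[[[],[]],[],[[]],[[]]],[[],[],[[]]],[[[]],[],[[]]]]],[[[[[[]],[],[[]]],[[],[]],[[[]],[[]],[]],
[[]],[[[]],[],[[]]]],[[[[]],[],[[]]],[[],[[]]],[[],[[]]],[[[]],[[]]]],[[[[]],[],[[]]],[[[]],[],
[[]]],[[],[],[]],[[],[[]],[[]]],[[],[]]],[[[[]],[[]],[[]]],[[],[],[]],[[[]],[],[[]]],[[[]],[],
[[]]],[[[]]]],[[[[]],[[]],[]],[[],[],[]],[[[]],[],[[]]],[[[]],[],[[]]],[[]]],[[[[]],[[]],[[]]],
[[],[[]],[]],[[[]]],[[[]]],[[[]]]],[[[[]],[],[[]]],[[],[]],[[[]],[[]]],[[]],[[[]],[],[[]]]]],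
[[[[],[],[[]]],[[],[]],[[[]],[[]],[]],[[]],[[[]],[],[[]]]],[[],[[],[]],[[]],[[]]],[[[[]],[],[[]]],
[[[]],[],[[]]],[[],[],[]],[[],[[]],[[]]],[[],[]]],[[[],[]]],[[[[]],[[]],[]],[[],[],[]],[[],[],
[[]]],[[[]],[],[[]]],[]],[[[]]],[[[[]],[],[[]]],[[],[]],[[[]],[[]]],[[]],[[[]],[],[[]]]]],[[[[[]],
[],[[]]],[[[]],[]],[[[]],[[]],[]],[[]],[[[]],[],[[]]]],[[],[[[]]],[[]],[[]]],[[[[]],[[]],[[]]],
[[[]],[[]],[[]]],[],[[[]],[[]],[[]]],[]],[[[[]],[[]],[[]]],[],[[],[],[[]]],[[[]],[],[[]]],[[[]],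
[[]],[]]],[[[[]],[[]],[]],[],[[[]],[],[[]]],[[[]],[],[[]]],[]],[[[[]],[[]],[[]]],[],[[[]],[],
[[]]],[[],[],[[]]],[[],[],[[]]]],[[[[]],[],[[]]],[],[[[]],[[]],[[]]],[[]],[[[]],[[]],[[]]]]],
[[[[[]],[],[[]]],[[],[[]]],[[],[[]]],[[[]],[[]]]],[[[[]],[],[[]]],[[[]],[[]],[[]]],[[[]],[[]],[]],
[[[]],[[]],[[]]],[[[]],[],[[]]]],[[[[]],[],[[]]],[[[]],[[]],[[]]],[[[]],[[]],[]],[[[]],[[]],[[]]],
[[[]],[],[[]]]],[],[[[[]],[[]],[]],[[[]],[[]],[]],[[[]]],[[[]]],[[],[[]],[[]]]],[],[[[[]],[],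
[[]]],[[[]],[],[[]]],[[[]],[[]],[[]]],[[],[[]],[[]]],[[[]]]]],[[[[[]],[[]],[[]]],[[[]],[],[[]]],
[[],[],[]],[[],[[]],[[]]],[[],[]]],[[[[]],[[]],[[]]],[[[]],[[]],[[]]],[],[[[]],[[]],[[]]],[]],[[],
[[[]]],[[]],[[]]],[[],[[[]],[[]],[[]]],[[[]],[[]],[]],[[[]],[[]],[]],[[[]],[],[[]]]],[[],[[[]],
[[]],[]],[[[]],[[]],[]],[[[]],[[]],[]],[]],[[],[[[]],[[]],[[]]],[[[]],[[]],[]],[[[]],[[]],[]],
[[[]],[[]],[]]],[[],[[[]],[],[[]]],[[[]],[],[[]]],[[]],[[[]],[[]],[]]]],[[[[[]],[[]],[[]]],[[[]],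
[],[]],[[[]],[],[[]]],[[[]],[],[[]]],[[[]]]],[[[[]],[[]],[[]]],[[[]],[],[[]]],[[[]],[],[[]]],
[[[]],[[]],[[]]],[[[]],[[]],[]]],[],[[[[]],[],[[]]],[[[]],[[]],[[]]],[[[]],[[]],[]],[[[]],[[]],
[[]]],[[[]],[],[[]]]],[[[[]],[],[[]]],[[[]]],[[[]],[[]],[]],[[[]],[[]],[[]]],[[[]],[],[[]]]],[],
[[[[]],[[]],[]],[[[]],[[]],[[]]],[[[]],[],[[]]],[[[]],[],[[]]],[[[]],[[]],[[]]]]],[[[[[]],[[]],
[]],[[],[],[]],[[[]],[],[[]]],[[[]],[],[[]]],[[]]],[[[[]],[[]],[]],[],[[[]],[[]],[[]]],[[[]],[[]],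
[[]]],[]],[[[]],[[]],[[[]]],[]],[[],[[[]],[[]],[]],[[[]],[[]],[]],[[[]],[[]],[]],[]],[[[],[],
[[]]],[[[]]],[[[]],[[]],[]],[[[]],[[]],[[]]],[[[]],[],[[]]]],[[[],[],[[]]],[[[]]],[[[]],[[]],[]],
[[[]],[[]],[[]]],[[[]],[],[[]]]],[[[]],[[],[[]],[[]]],[[]],[[[]],[],[[]]],[[[]],[],[[]]]]],
[[[[[]],[[]],[[]]],[[],[[]],[[]]],[[[]]],[[[]]],[[[]]]],[[[[]],[[]],[[]]],[[],[[]],[[]]],[[[]],
[[]],[[]]],[[[]],[],[[]]],[[[]],[],[[]]]],[],[[[],[[]],[[]]],[[[]],[[]],[[]]],[[[]],[[]],[[]]],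
[[[]],[[]],[]],[[[]],[[]],[]]],[],[[[[]],[],[[]]],[[[]]],[[[]],[[]],[]],[[[]],[[]],[[]]],[[[]],[],
[[]]]],[[[],[],[[]]],[[[]]],[[[]],[[]],[]],[[[]],[[]],[[]]],[[[]],[],[[]]]]],[[[[[]],[],[[]]],[[],
[]],[[[]],[[]]],[[]],[[[]],[],[[]]]],[[[[]],[],[[]]],[],[[[]],[[]],[]],[[]],[[[]],[],[[]]]],[[[]],
[[]],[],[],[]],[[],[[[]],[],[[]]],[[[]],[],[[]]],[[]],[[[]],[[]],[]]],[[],[[]],[[]],[[]],[[]]],
[[[]],[[],[[]],[[]]],[[]],[[[]],[],[[]]],[[[]],[],[[]]]],[[],[[]],[[]],[[]]]]],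
[[[[[[7692724803530366386176]],[[]],[[61833541036167198146560]]],[[],[]],
[[[61840493758226673434624]],[[6512421447866676936704]],[]],[[[]],[[]],[[]]],
[[[83744646195174178816]],[],[[47524615063444838678528]]]],[[[[56749193515451185364992]],[[]],
[[453375573226783330271232]]],[[],[]],[[[454583553311038098112512]],[[42728514249038827356160]],
[]],[[[]],[[]],[[]]],[[[961645756140695584768]],[],[[419147355867957096873984]]]],[[[],[],[]]],
[[[]],[[[529495918563669458288640]],[],[[52391096734600811249664]]],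
[[[3046004888481375423823872]],[],[[7084270443783203586048]]],[[],[],[]],
[[[342980603188736774111232]],[[66559419486859918835712]],[]]],[[],[[],[],[]],[[]],[[]],[[]]],
[[[[]],[[]],[[]]],[[],[[52019818305803245322240]],[[341782143568375013474304]]],[[],[],[]],
[[[342971382067366130122752]],[],[[891264059506776342528]]],[[[3933880062568411911159808]],[],
[[8292538795247483912192]]]],[[],[[],[]],[[]],[[]]]],[[[]],[[]],[],[],[],[],[]],
[[[[[892452750391254188032]],[],[[8264152711249237377024]]],[[[]],[],[[]]],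
[[[7720117910872002756608]],[[965067383478991978496]],[]],[[[]]],[[[47522272070344046030848]],[],
[[102191215437282312192]]]],[[],[[[]]],[[]],[[[]]]],[[[[5931209326462085627904]],[[]],
[[47301020076672457654272]]],[[[965014180449933590528]],[[]],[[7083693945613000572928]]],[],[[[]],
[[1878039570480792576]],[[959303884262572044288]]],[]],[[[[]],[[]],[[]]],[[]],[[],[],[[]]],[[[]],
[[]],[[]]],[[[]],[[]],[]]],[[[[47371293669113853915136]],[[7083693945613000572928]],[]],[],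
[[[111119708385928314880]],[[]],[[669919452116463132672]]],[[[665327205464653443072]],[[]],
[[83168044696522001408]]],[[]]],[[[[]],[[]],[[]]],[],[[[]],[[]],[[]]],[[],[],[[]]],[[],[],[[]]]],
[[[[1878039570480792576]],[],[[61766670748804314836992]]],[],[[[886598053424096620544]],
[[83168044696522001408]],[[]]],[[]],[[[111261606374453411840]],[[]],[[962780949325000228928]]]]],
[[[[[7683800814766260224000]],[[]],[[1038820015426427944960]]],[[[]],[],[[]]],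
[[[56674253331639114924032]],[[7093498389779701563392]],[]],[[[]]],[[[416804191528606427512832]],
[],[[671073499176304115712]]]],[[],[[[]]],[[]],[[[]]]],[[[[52242440809858358837248]],[[]],
[[416213891077217735147520]]],[[[7139047656188696068096]],[[]],[[66559403156910035697664]]],[],
[[[]],[[13908268284326203392]],[[7120443355431358726144]]],[]],[[[[]],[[]],[[]]],[[]],[[[]],[],
[[]]],[[[]],[[]],[[]]],[[[]],[[]],[]]],[[[[419156586030577907400704]],[[66558231367719307182080]],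
[]],[],[[[61690595948158322999296]],[[]],[[7674140663418500153344]]],[[[6503348874914717401088]],
[[]],[[962780109294829830144]]],[[]]],[[[[]],[[]],[[]]],[],[[[]],[[]],[[]]],[[[]],[],[[]]],[[[]],
[],[[]]]],[[[[12791071972008132608]],[],[[453993113491628684836864]]],[],
[[[6548886915336042971136]],[[1040044409515076227072]],[[]]],[[]],[[[47668766298186943299584]],
[[]],[[7102003330988594236416]]]]],[[[[[]],[],[[]]],[[],[],[]],[[]],[],[[]]],[[[[]],[],[[]]],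
[[[]],[],[[]]],[],[[],[[]],[[]]]],[[[[]],[],[[]]],[[[]],[],[[]]],[],[[],[[]],[[]]]],[[[[]],[],
[[]]],[[[]],[],[[]]],[],[[],[[]],[[]]],[]],[[[],[[]],[]],[[],[[]],[]],[[]],[[[]]],[]],[[[],[[]],
[[]]],[[],[[]],[[]]],[[],[[]],[[]]]],[[[[]],[],[[]]],[[[]],[],[[]]],[[[]]],[],[[[]]]]],[[[[[]],[],
[[]]],[[[66559347701870727004160]],[],[[341809237258883559522304]]],[[[379007384705021908090880]],
[],[[961644907519683330048]]],[[],[],[]],[[[3933812003898096459186176]],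
[[7111800839977645899776]],[]]],[[[[]],[[]],[[]]],[[[]]],[[[]],[],[[]]],[[[]],[[]],[[]]],[[[]],
[[]],[]]],[[[[]],[[]],[[]]],[[[]]],[[[]],[],[[]]],[[[]],[[]],[[]]],[[[]],[[]],[]]],
[[[[1731846838530605056]],[[]],[[890128303919052095488]]],[[[1033036817639931379712]],[[]],
[[6493258456080375087104]]],[],[[[]],[[1450266884235657216]],[[12682998641914019840]]],[]],
[[[[11584410667239079936]],[[]],[[83161289880795873280]]],[[[453947575447341355859968]],[[]],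
[[1039971810898035081216]]],[],[[[]],[[42946326895432389906432]],[[492334952629904980606976]]],
[]],[[[[]],[[]],[[]]],[[[]],[[]],[[]]],[],[[],[[]],[[]]],[[],[[]],[[]]]],
[[[[1443615362739535872]],[[253617820003205120]],[[]]],[[[66562878242300638797824]],
[[7720406036820449689600]],[[]]],[],[],[[[]],[[5313108258494653432832]],
[[61391953799767625576448]]]]],[[[[[]],[[]],[]],[[],[],[[]]],[[]],[[]],[[[]]]],[[[[]],[[]],[]],[],
[[[]],[],[[]]],[[[]],[],[[]]],[]],[[[[]],[[]],[]],[],[[[]],[],[[]]],[[[]],[],[[]]],[[]]],[[[[]],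
[[]],[[]]],[[[]],[[]],[[]]],[[[]],[[]],[[]]],[[[]],[[]],[[]]],[]],[[[[]],[],[[]]],[[[]],[],[[]]],
[],[[],[[]],[[]]],[]],[[[[]],[],[[]]],[[[]],[],[[]]],[],[[],[[]],[[]]],[]],[[[[]],[[]],[[]]],
[[[]],[[]],[[]]],[],[[[]]],[[[]]]]],[[[[[]]],[[],[[491154228153565357015040]],
[[3641244408518913800798208]]],[[],[],[]],[[[3627146503518266842939392]],[],
[[342381525253001693888512]]],[[[33891244390091843419766784]],[],[[3948197094721055831621632]]]],
[[[[]],[[]],[[]]],[],[[[]],[[]],[[]]],[[],[],[[]]],[[],[],[[]]]],[[[[]],[[]],[[]]],[],[[[]],[[]],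
[[]]],[[[]],[],[[]]],[[[]],[],[[]]]],[[[[]],[[52318444097853599252480]],
[[342418267938190545387520]]],[[[]],[[342381527466868354318336]],[[3957645232403778751168512]]],
[[[]],[[47525802628503648337920]],[[416758498008418813476864]]],[],[]],[[[[]],[[]],[[]]],[[[]],
[[]],[[]]],[],[[],[[]],[[]]],[[],[[]],[[]]]],[[[[8292676152845158842368]],[[]],
[[15060608903229472768]]],[[[47228277939756105203712]],[[]],[[111552016532270743552]]],[],[[[]],
[[7130105755872968835072]],[[66265370727923629162496]]],[]],[[[[47518848767070937808896]],[[]],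
[[92382481019826176000]]],[[[417386119513452084133888]],[[]],[[817477092076649971712]]],[],[[[]],
[[960491721723156103168]],[[5368446132212337836032]]],[]]],[[[[[]],[],[[]]],[[],[[]]],[[]],
[[[]]]],[[[[]],[],[[]]],[],[[[]],[[]],[]],[],[[[]],[],[[]]]],[[[[]],[],[[]]],[],[[[]],[[]],[]],
[[]],[[[]],[],[[]]]],[[[[]],[[]],[[]]],[[[]],[[]],[[]]],[[[]]],[],[[[]],[[]],[[]]]],[[[[]],[[]],
[]],[[[]],[[]],[]],[],[],[[],[[]],[[]]]],[[[[]],[[]],[[]]],[[[]],[[]],[[]]],[],[[[]]],[[[]]]],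
[[[[]],[],[[]]],[[[]],[],[[]]],[],[[],[[]],[[]]],[]]]],[[[[[[]],[],[[]]],[[],[[]]],[[],[[]]],
[[[]],[[]]]],[[[[]],[],[[]]],[[],[]],[[[]],[[]],[]],[[]],[[[]],[],[[]]]],[[[[]],[],[[]]],[[],[]],
[[[]],[[]],[]],[[]],[[[]],[],[[]]]],[[[[]],[[]],[[]]],[[[]],[[]],[[]]],[[]],[],[[],[[]],[[]]]],
[[[[]],[[]],[]],[[[]],[[]],[]],[[]],[[]],[[],[[]],[[]]]],[[[[]],[[]],[[]]],[[[]],[[]],[[]]],[],
[[[]]],[[]]],[[[[]],[],[[]]],[[[]],[],[[]]],[[]],[[],[[]],[[]]],[]]],[[[],[[],[]],[[]],[[]]],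
[[[[]],[],[[]]],[[],[]],[[[]],[[]],[]],[[]],[[[]],[],[[]]]],[[[[]],[],[[]]],[[],[]],[[[]],[[]],
[]],[[]],[[[]],[],[[]]]],[[],[]],[[[],[[]]],[[[]],[[]],[]],[[]],[[]],[[],[[]],[[]]]],[[],[]],
[[[[]],[],[[]]],[[[]],[],[[]]],[[]],[[],[[]],[[]]],[]]],[[[[[]],[],[[]]],[[],[[]]],[[],[[]]],
[[[]],[[]]]],[[[[]],[],[[]]],[[[]],[[]],[[]]],[[[]],[[]],[]],[[[]],[[]],[[]]],[[[]],[],[[]]]],
[[[[]],[],[[]]],[[[]],[[]],[[]]],[[[]],[[]],[]],[[[]],[[]],[[]]],[[[]],[],[[]]]],[],[[[[]],[[]],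
[]],[[[]],[[]],[]],[[[]]],[[[]]],[[],[[]],[[]]]],[],[[[[]],[],[[]]],[[[]],[],[[]]],[[[]],[[]],
[[]]],[[],[[]],[[]]],[[[]]]]],[[[[[]],[[]],[[]]],[[[]],[]],[[[]],[[]],[]],[[]],[[[]],[],[[]]]],
[[],[[[]]],[[]],[[]]],[[[[]],[[]],[[]]],[[[]],[[]],[[]]],[],[[[]],[[]],[[]]],[]],[[[[]],[[]],
[[]]],[],[[[]],[],[[]]],[[[]],[],[[]]],[[[]],[[]],[]]],[[[[]],[[]],[]],[],[[[]],[],[[]]],[[[]],[],
[[]]],[[]]],[[[[]],[[]],[[]]],[],[[[]],[],[[]]],[[[]],[],[[]]],[[[]],[],[[]]]],[[[[]],[],[[]]],[],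
[[[]],[[]],[[]]],[[]],[[[]],[[]],[[]]]]],[[[[[]],[[]],[[]]],[[[]],[]],[[[]],[[]],[]],[[]],[[[]],
[],[[]]]],[[],[[[]]],[[]],[[]]],[[[[]],[[]],[[]]],[[[]],[[]],[[]]],[],[[[]],[[]],[[]]],[]],[[[[]],
[[]],[[]]],[],[[[]],[],[[]]],[[[]],[],[[]]],[[[]],[[]],[]]],[[[[]],[[]],[]],[],[[[]],[],[[]]],
[[[]],[],[[]]],[[]]],[[[[]],[[]],[[]]],[],[[[]],[],[[]]],[[[]],[],[[]]],[[[]],[],[[]]]],[[[[]],[],
[[]]],[],[[[]],[[]],[[]]],[[]],[[[]],[[]],[[]]]]],[[[[[]],[[]],[[]]],[[[]],[[]],[[]]],[[[]]],[],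
[[],[[]],[[]]]],[],[[[[]],[[]],[[]]],[[[]],[],[[]]],[[[]],[],[[]]],[[[]],[[]],[[]]],[[[]],[[]],
[]]],[[[[]],[[]],[[]]],[[[]],[],[[]]],[[[]],[],[[]]],[[[]],[[]],[[]]],[[[]],[[]],[]]],[[[[]]],
[[[]],[],[[]]],[[[]],[],[[]]],[[[]],[[]],[[]]],[[[]],[[]],[]]],[],[[[[]],[[]],[[]]],[[[]],[[]],
[]],[[[]],[[]],[]],[[[]],[[]],[]],[[[]],[[]],[[]]]]],[[[[[]],[[]],[]],[[[]],[[]],[]],[[[]]],[[]],
[[],[[]],[[]]]],[[[]],[[]],[[[]]],[]],[[[[]],[[]],[]],[],[[[]],[[]],[[]]],[[[]],[[]],[[]]],[[]]],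
[[[[]],[[]],[]],[],[[[]],[[]],[[]]],[[[]],[[]],[[]]],[[]]],[[[[]]],[[[]],[],[[]]],[[[]],[],[[]]],
[[[]],[[]],[[]]],[[[]],[[]],[]]],[[[[]]],[[[]],[],[[]]],[[[]],[],[[]]],[[[]],[[]],[[]]],[[[]],
[[]],[]]],[[[],[[]],[[]]],[[]],[[]],[[[]],[[]],[[]]],[[[]],[[]],[[]]]]],[[[[[]],[[]],[[]]],[[[]],
[[]],[[]]],[],[[[]]],[[[]]]],[],[[[[]],[[]],[[]]],[[],[[]],[[]]],[[[]],[[]],[[]]],[[[]],[],[[]]],
[[[]],[],[[]]]],[[[[]],[[]],[[]]],[[],[[]],[[]]],[[[]],[[]],[[]]],[[[]],[],[[]]],[[[]],[],[[]]]],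
[],[[[[]]],[[[]],[],[[]]],[[[]],[],[[]]],[[[]],[[]],[[]]],[[[]],[[]],[]]],[[[[]]],[[[]],[],[[]]],
[[[]],[],[[]]],[[[]],[[]],[[]]],[[[]],[[]],[]]]],[[[[[]],[],[[]]],[[[]],[],[[]]],[[]],[[],[[]],
[[]]],[[]]],[[[]],[[]],[],[],[]],[[[[]],[],[[]]],[],[[[]],[[]],[]],[[]],[[[]],[],[[]]]],[[[[]],[],
[[]]],[],[[[]],[[]],[]],[[]],[[[]],[],[[]]]],[[[]],[[]],[[]],[[],[]],[[],[],[]]],[[[],[[]],[[]]],
[[]],[[]],[[[]],[[]],[]],[[[]],[[]],[]]],[[[]],[[]],[[]],[[],[],[]]]]],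
[[[[[[47228313687421727277056]],[[]],[[129708172885889122304]]],[[[454574618378851537911808]],[],
[[963860401324092817408]]],[[],[],[]],[[],[[47303325910884570628096]],
[[416777232982345080897536]]],[[],[]]],[[[],[],[]]],[[[[493542651241432394760192]],[[]],
[[3952695741229202422104064]]],[[],[]],[[[3957791672856639361253376]],
[[418520164212657199513600]],[]],[[[]],[[]],[[]]],[[[5368160330141975707648]],[],
[[3050797475115890081005568]]]],[[[[3045933372471584170704896]],[],[[342980614516446595121152]]],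
[[]],[[[417349230528887636623360]],[[66558249667986511101952]],[]],[[]],
[[[742554650124914524160]],[],[[453938347360615946780672]]]],[[[],[],[]],[],[[]],[[]],[[]]],[[[],
[[342962307173971788824576]],[[3933878873890654935842816]]],[[[]],[[]],[[]]],[[]],
[[[61612179548799497142272]],[[6548607869214873616384]],[]],[[[456336280152581106302976]],
[[42726118611043197124608]],[]]],[[[],[]],[],[[]],[[]]]],[[[]],[],[[]],[],[],[],[]],
[[[[[493515845955487226920960]],[[]],[[3938460565957556332658688]]],[[[56967040519663248736256]],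
[],[[419119978415960780570624]]],[[],[],[]],[[],[[5331985129825334460416]],
[[1035433013700090658816]]],[[],[]]],[[[[52168636364245821554688]],[[]],
[[416213891077217735147520]]],[[[7093075015113396715520]],[[]],[[66558231367719307182080]]],[],
[[[]],[[12791071972008132608]],[[7102723906388352925696]]],[]],[[],[[[]]],[[]],[[[]]]],[[[]],
[[[]],[[]],[[]]],[[[]],[[]],[]],[[[]],[[]],[[]]],[[[]],[],[[]]]],[[],
[[[532447555209005491060736]],[[61766672165115968618496]],[]],[[[66410584789980344745984]],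
[[7674140663418500153344]],[]],[[[6548886915336042971136]],[[1040044409515076227072]],[]],[[]]],
[[],[[[]],[[]],[[]]],[[[]],[[]],[[]]],[[[]],[[]],[]],[[[]],[[]],[]]],[[],
[[[10394611617782575104]],[],[[341191273481418219520000]]],[[[8283322214352653746176]],[],
[[818629442110156439552]]],[[]],[[[47447422517150533824512]],[[7102003330988594236416]],[]]]],
[[[[[]],[],[[]]],[[],[],[]],[[]],[],[[]]],[[[[]],[],[[]]],[[[]],[],[[]]],[],[[],[[]],[[]]]],
[[[[]],[],[[]]],[[[]],[],[[]]],[],[[],[[]],[[]]]],[[[[]],[],[[]]],[[[]],[],[[]]],[],[[],[[]],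
[[]]],[]],[[[],[[]],[]],[[],[[]],[]],[[]],[[[]]],[]],[[[],[[]],[[]]],[[],[[]],[[]]],[[],[[]],
[[]]]],[[[[]],[],[[]]],[[[]],[],[[]]],[[[]]],[],[[[]]]]],[[[[[42723831904069576818688]],[[]],
[[6549040179594592780288]]],[[[]],[],[[]]],[[[491144860594871637901312]],
[[61471523951934879825920]],[]],[[[]]],[[[3050950905133650656886784]],[],
[[7130110333131681693696]]]],[[],[[[]]],[[]],[[[]]]],[[[[380159880828353985380352]],[[]],
[[3045928777660940016418816]]],[[[61539581795142626967552]],[[]],[[453974380839330054668288]]],[],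
[[[]],[[92386913708872302592]],[[61688236343427516596224]]],[]],[[[[]],[[]],[[]]],[[]],[[[]],[],
[[]]],[[[]],[[]],[[]]],[[[]],[[]],[]]],[[[[3041279028621507649601536]],
[[453974380839330054668288]],[]],[],[[[342999349421610440327168]],[[]],
[[42652349086399817842688]]],[[[47447440267729553588224]],[[]],[[7092921715138429452288]]],[[]]],
[[[[]],[[]],[[]]],[],[[[]],[[]],[[]]],[[[]],[],[[]]],[[[]],[],[[]]]],[[[[92386913708872302592]],
[],[[3933952695215759596453888]]],[],[[[47672241383987748536320]],[[7092921715138429452288]],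
[[]]],[[]],[[[531275740962631488405504]],[[]],[[61691677084679038574592]]]]],
[[[[[378979572899795936739328]],[],[[3933810940758243620159488]]],[[[]],[],[[]]],
[[[52247034477012567719936]],[[7111800839977645899776]],[]],[[[]]],[[[455717881773878075719680]],
[],[[61543004817008420192256]]]],[[[[]]],[[[]],[[]],[[]]],[[[]],[[]],[]],[[[]],[[]],[[]]],[[[]],
[],[[]]]],[[[[16212971990212935680]],[[]],[[8310848353804748849152]]],[[[5902965070110182604800]],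
[[]],[[42577481255132304769024]]],[],[[[]],[[10448654810088734720]],[[120493948810741940224]]],
[]],[[[[]],[[]],[[]]],[[[]]],[[[]],[],[[]]],[[[]],[[]],[[]]],[[[]],[[]],[]]],
[[[[8319481788350051909632]],[[965014180449933590528]],[]],[],[[[3943402023541903150546944]],[[]],
[[7084281562594258452480]]],[[[492334671082343045922816]],[[]],[[253327687347077120]]],[]],[[[[]],
[[]],[[]]],[],[[[]],[[]],[[]]],[[[]],[],[[]]],[[[]],[],[[]]]],[[[[818593716849196138496]],[],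
[[1740642407038320640]]],[],[[[453955929591141326061568]],[[42654638054247344111616]],[[]]],[],
[[[61391953799767625576448]],[[]],[[129861509694495916032]]]]],[[[[],[],[[]]],[[[]],[[]],[]],
[[[]],[[]],[]],[[[]],[[]],[]],[[[]]]],[[],[[[]],[[]],[]],[[[]],[[]],[]],[[[]],[[]],[]],[]],[[[[]],
[[]],[[]]],[[[]],[[]],[[]]],[[[]],[[]],[[]]],[[[]],[[]],[[]]],[]],[[[[]],[[]],[]],[],[[[]],[],
[[]]],[[[]],[],[[]]],[[]]],[[[[]],[[]],[]],[],[[[]],[],[[]]],[[[]],[],[[]]],[]],[[[[]],[[]],[]],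
[],[[[]],[],[[]]],[[[]],[],[[]]],[]],[[[[]]],[],[[[]],[[]],[[]]],[[],[[]],[[]]],[[],[[]],[[]]]]],
[[[[],[[3626858237117781589884928]],[[33891271907052057197019136]]],[[[]]],[[[]]],
[[[33887702459962706693718016]],[[3957343221866264277286912]],[]],
[[[194953606636812247614095360]],[[29242120841999768147197952]],[]]],[[],[[[]],[[]],[[]]],[[[]],
[[]],[[]]],[[[]],[[]],[]],[[[]],[[]],[]]],[[[[]],[[343008140482700233408512]],
[[3948119796085216744833024]]],[[[]],[[3948199329372816359292928]],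
[[29241483710934174415192064]]],[[[]],[[416758498008418813476864]],[[2739048689202835117572096]]],
[],[]],[[[[]],[[]],[[]]],[],[[[]],[[]],[[]]],[[[]],[],[[]]],[[[]],[],[[]]]],[[[[]],[[]],[[]]],[],
[[[]],[[]],[[]]],[[[]],[],[[]]],[[[]],[],[[]]]],[[[[56744509217826609823744]],
[[111552016532270743552]],[]],[],[[[532474646576236966445056]],[[]],[[963860401324092817408]]],
[[[66265370727923629162496]],[[]],[[5340481169423268315136]]],[]],[[[[528924069428647400833024]],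
[[811765116321993064448]],[]],[],[[[3041575346609301467693056]],[[]],[[5930630474280711749632]]],
[[[7129966217917712302080]],[[]],[[61470369904459483709440]]],[]]],[[[[],[[]]],[[[]],[],[[]]],
[[[]],[],[[]]],[[[]]],[[[]]]],[[],[[[]],[],[[]]],[[[]],[],[[]]],[[]],[[[]],[[]],[]]],[[[[]],[[]],
[[]]],[[[]],[[]],[[]]],[[[]]],[],[[[]],[[]],[[]]]],[[[[]],[],[[]]],[],[[[]],[[]],[]],[[]],[[[]],
[],[[]]]],[[[[]],[],[[]]],[],[[[]],[[]],[]],[],[[[]],[],[[]]]],[[[[]]],[],[[[]],[[]],[[]]],[[],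
[[]]],[[],[[]],[[]]]],[[[[]],[[]],[]],[],[[[]],[],[[]]],[[[]],[],[[]]],[]]]],[[[[[[]],[[]],[[]]],
[[],[],[]],[[[]],[],[[]]],[[[]],[],[[]]],[[[]]]],[[],[[[]],[],[[]]],[[[]],[],[[]]],[[],[],[]],
[[[]],[[]],[]]],[[[[]],[[]],[[]]],[[[]],[[]],[[]]],[[]],[],[[],[[]],[[]]]],[[[[]],[],[[]]],[],
[[[]],[[]],[]],[[]],[[[]],[],[[]]]],[[[[]],[],[[]]],[],[[[]],[[]],[]],[[]],[[[]],[],[[]]]],
[[[[]]],[],[[[]],[[]],[[]]],[[],[],[[]]],[[],[],[[]]]],[[[[]],[[]]],[],[[[]],[],[[]]],[[[]],[],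
[[]]],[[]]]],[[[]],[[],[[[]],[],[[]]],[[[]],[],[[]]],[[],[],[]],[[[]],[[]],[]]],[[],[]],[[[[]],[],
[[]]],[],[[[]],[[]],[]],[[]],[[[]],[],[[]]]],[[[[]],[],[[]]],[],[[[]],[[]],[]],[[]],[[[]],[],
[[]]]],[[[]],[],[[]],[[]],[[]]],[[[[]],[[]]],[],[[[]],[],[[]]],[[[]],[],[[]]],[[]]]],[[[[[]],[[]],
[[]]],[[[]],[],[[]]],[[[]],[],[[]]],[[[]],[],[[]]],[[[]]]],[[[[]],[[]],[[]]],[[[]],[],[[]]],[[[]],
[],[[]]],[[[]],[[]],[[]]],[[[]],[[]],[]]],[],[[[[]],[],[[]]],[[[]],[[]],[[]]],[[[]],[[]],[]],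
[[[]],[[]],[[]]],[[[]],[],[[]]]],[[[[]],[],[[]]],[[[]]],[[[]],[[]],[]],[[[]],[[]],[[]]],[[[]],[],
[[]]]],[],[[[[]],[[]],[]],[[[]],[[]],[[]]],[[[]],[],[[]]],[[[]],[],[[]]],[[[]],[[]],[[]]]]],
[[[[[]]],[[[]],[],[[]]],[[[]],[],[[]]],[[],[],[]],[[[]],[[]],[]]],[[[[]],[[]],[[]]],[[[]]],[[[]],
[],[[]]],[[[]],[],[[]]],[[[]],[[]],[]]],[[[[]],[[]],[[]]],[[[]]],[[[]],[],[[]]],[[[]],[],[[]]],
[[[]],[[]],[]]],[[[[]],[[]],[[]]],[[[]],[[]],[[]]],[],[[[]],[[]],[[]]],[]],[[[[]],[],[[]]],[[[]],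
[],[[]]],[],[[],[[]],[[]]],[]],[[[[]],[],[[]]],[[[]],[],[[]]],[],[[],[[]],[[]]],[[],[[]],[[]]]],
[[[[]],[[]],[[]]],[[[]],[[]],[[]]],[],[],[[[]],[[]],[[]]]]],[[[[[]],[[]],[[]]],[[[]],[[]],[[]]],
[[[]]],[],[[[]],[[]],[[]]]],[],[[[[]],[[]],[[]]],[[[]],[],[[]]],[[[]],[],[[]]],[[[]],[[]],[[]]],
[[[]],[[]],[]]],[[[[]],[[]],[[]]],[[[]],[],[[]]],[[[]],[],[[]]],[[[]],[[]],[[]]],[[[]],[[]],[]]],
[[[[]]],[[[]],[],[[]]],[[[]],[],[[]]],[[[]],[[]],[[]]],[[[]],[[]],[]]],[],[[[[]],[[]],[[]]],[[[]],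
[[]],[]],[[[]],[[]],[]],[[[]],[[]],[]],[[[]],[[]],[[]]]]],[[[[[]],[],[[]]],[[[]]],[[[]],[[]],[]],
[[[]]],[[[]],[],[[]]]],[[[[]]],[[[]],[[]],[[]]],[[[]],[[]],[]],[[[]],[[]],[]],[[[]],[],[[]]]],
[[[[]],[[]],[[]]],[[[]],[[]],[[]]],[],[[[]],[[]],[[]]],[]],[[[[]],[[]],[[]]],[[[]]],[[[]],[],
[[]]],[[[]],[],[[]]],[[[]],[[]],[]]],[[[[]],[[]],[]],[],[[[]],[],[[]]],[[[]],[],[[]]],[]],[[[[]],
[[]],[]],[],[[[]],[],[[]]],[[[]],[],[[]]],[[[]],[],[[]]]],[[[[]],[],[[]]],[],[[[]],[[]],[[]]],[],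
[[[]],[[]],[[]]]]],[[[[[]],[],[[]]],[[[]]],[[[]],[[]],[]],[[[]]],[[[]],[],[[]]]],[[[[]],[],[[]]],
[[[]]],[[[]],[[]],[]],[[[]],[[]],[[]]],[[[]],[],[[]]]],[[[[]],[[]],[[]]],[[[]],[[]],[[]]],[],
[[[]],[[]],[[]]],[]],[[[[]]],[[[]],[],[[]]],[[[]],[],[[]]],[[[]],[[]],[[]]],[[[]],[[]],[]]],
[[[[]],[[]],[]],[],[[[]],[[]],[[]]],[[[]],[[]],[[]]],[]],[[[[]],[[]],[[]]],[[],[[]],[[]]],[[[]],
[[]],[[]]],[[[]],[],[[]]],[[[]],[],[[]]]],[[[[]],[],[[]]],[],[[[]],[[]],[[]]],[],[[[]],[[]],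
[[]]]]],[[[[[]]],[],[[[]],[[]],[[]]],[[[]],[],[[]]],[[[]],[],[[]]]],[],[[[[]],[[]],[[]]],[[[]],
[[]],[[]]],[[],[[]],[[]]],[[],[[]],[[]]],[[],[[]],[[]]]],[],[[[[]],[[]],[[]]],[[],[[]],[[]]],
[[[]],[[]],[[]]],[[[]],[],[[]]],[[[]],[],[[]]]],[[[[]],[[]],[[]]],[[],[[]],[[]]],[[[]],[[]],[[]]],
[[[]],[],[[]]],[[[]],[],[[]]]],[[[[]],[[]],[[]]],[[],[[]],[[]]],[[[]],[[]],[[]]],[[[]],[],[[]]],
[[[]],[],[[]]]]],[[[[[]],[[]]],[],[[[]],[],[[]]],[[[]],[],[[]]],[[]]],[[[],[]],[[]],[[]],[[]],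
[[]]],[[[[]],[[]],[]],[[[]],[[]],[]],[],[],[[],[[]],[[]]]],[[[]],[[],[]],[[],[]],[[],[]],[[],[],
[]]],[[[[]],[],[[]]],[],[[[]],[[]],[]],[],[[[]],[],[[]]]],[[[[]],[],[[]]],[],[[[]],[[]],[]],[],
[[[]],[],[[]]]],[[[]],[],[[],[],[]],[]]]],[[[[[[529550828632255242436608]],
[[61692938646869323546624]],[]],[[],[],[]],[[[56896677119176485109760]],[],
[[1731846838530605056]]],[[[7092919499665172332544]],[],[[16231540480205127680]]],[[]]],[[[]],[[],
[],[]],[[]],[[]],[[]]],[[[[56745717009011563298816]],[[5331976087983005630464]],[]],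
[[[532456911472974607941632]],[[66113203403053961576448]],[]],[[]],[[[]]],[[],
[[15043157594224984064]],[[110838197665958723584]]]],[[[],[],[]],[[]],[[]],[[]],[[]]],
[[[[380796151603631455469568]],[],[[163840705851031552]]],[[]],[[[3329714606228091059568640]],
[[6521070608202799775744]],[]],[[]],[[[8320348522370301952000]],[],[[47230690457516521816064]]]],
[[[[57112382076271496003584]],[],[[129856899433516498944]]],[[[]]],[[[379616267081024257654784]],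
[[66560555805596138602496]],[]],[[]],[[[818666033854929960960]],[],[[453956796462016554336256]]]],
[[[]],[],[[]]]],[[[]],[],[[],[]],[],[],[],[[[]],[],[[]]]],[[[[[42796519166356740374528]],
[[416776814114027186683904]],[]],[[],[],[]],[[[5322764011263328518144]],[],
[[61766706764546847539200]]],[[[1]],[],[[453992969445709841432576]]],[[]]],
[[[[5322043292901443633152]],[[740213042541816446976]],[]],[],[[[1]],[[]],
[[83161289880795873280]]],[[[129854681727428132864]],[[]],[[253617820003205120]]],[[]]],[[[]],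
[[]],[[[]]],[[]]],[[],[[[52172059108968095023104]],[[6493258456080375087104]],[]],
[[[5912764797879068917760]],[[1039971810898035081216]],[]],[[[66562878242300638797824]],
[[7720406036820449689600]],[]],[[]]],[[[],[],[[]]],[[[]]],[[[]],[[]],[]],[[[]],[[]],[[]]],[[[]],
[],[[]]]],[[[],[],[[]]],[[[]]],[[[]],[[]],[]],[[[]],[[]],[[]]],[[[]],[],[[]]]],[[[]],[[],
[[1731845755808907264]],[[16142594453131493376]]],[[]],[[[47597213093836115161088]],[],
[[1445726424790007808]]],[[[5313108258494653432832]],[],[[811747678066552864768]]]]],[[[[[]],[[]],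
[]],[[],[],[[]]],[[]],[[]],[[[]]]],[[[[]],[[]],[]],[],[[[]],[],[[]]],[[[]],[],[[]]],[]],[[[[]],
[[]],[]],[],[[[]],[],[[]]],[[[]],[],[[]]],[[]]],[[[[]],[[]],[[]]],[[[]],[[]],[[]]],[[[]],[[]],
[[]]],[[[]],[[]],[[]]],[]],[[[[]],[],[[]]],[[[]],[],[[]]],[],[[],[[]],[[]]],[]],[[[[]],[],[[]]],
[[[]],[],[[]]],[],[[],[[]],[[]]],[]],[[[[]],[[]],[[]]],[[[]],[[]],[[]]],[],[[[]]],[[[]]]]],
[[[[[5322029853614559723520]],[[741383991645547003904]],[]],[[[741366267238934380544]],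
[[6549472561958232260608]],[]],[[[]]],[[]],[[],[[341191129295302778945536]],
[[3933959667069803403673600]]]],[[[]],[[]],[[[]]],[[]]],[[[[52391114749132446629888]],
[[8310848353804748849152]],[]],[],[[[7701954860624088399872]],[[]],[[815153234670050607104]]],
[[[818593716849196138496]],[[]],[[1740642407038320640]]],[[]]],[[[[341237394772651258413056]],
[[42577481255132304769024]],[]],[],[[[56893272115974120669184]],[[]],[[7084281562594258452480]]],
[[[5368585744899760979968]],[[]],[[42654638054247344111616]]],[[]]],[[[[]]],[[[]],[],[[]]],[[[]],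
[],[[]]],[[[]],[[]],[[]]],[[[]],[[]],[]]],[[[[]]],[[[]],[],[[]]],[[[]],[],[[]]],[[[]],[[]],[[]]],
[[[]],[[]],[]]],[[[],[[11547806007430742016]],[[101612501802701291520]]],[[]],[[]],
[[[120635742337737162752]],[[234469072213114880]],[[]]],[[[12701017644627918848]],
[[129861509694495916032]],[[]]]]],[[[[],[],[[]]],[[[]],[[]],[]],[[[]],[[]],[]],[[[]],[[]],[]],
[[[]]]],[[],[[[]],[[]],[]],[[[]],[[]],[]],[[[]],[[]],[]],[]],[[[[]],[[]],[[]]],[[[]],[[]],[[]]],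
[[[]],[[]],[[]]],[[[]],[[]],[[]]],[]],[[[[]],[[]],[]],[],[[[]],[],[[]]],[[[]],[],[[]]],[[]]],
[[[[]],[[]],[]],[],[[[]],[],[[]]],[[[]],[],[[]]],[]],[[[[]],[[]],[]],[],[[[]],[],[[]]],[[[]],[],
[[]]],[]],[[[[]]],[],[[[]],[[]],[[]]],[[],[[]],[[]]],[[],[[]],[[]]]]],
[[[[[56673046661680085336064]],[],[[101894119175281967104]]],[[[]]],[[[380796860883172197400576]],
[[47373634722676252606464]],[]],[[[]]],[[[52389997878348552863744]],[],
[[532502305431699324928000]]]],[[[[]],[],[[]]],[[[]]],[[[]],[[]],[]],[[[]],[[]],[[]]],[[[]],[],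
[[]]]],[[[[1]],[[]],[[886614937458146541568]]],[[[56968211450819334111232]],[[]],
[[8310990217734713769984]]],[],[[[]],[[7139189657007598600192]],[[66264236097828997300224]]],[]],
[[[[]]],[[[]],[],[[]]],[[[]],[],[[]]],[[[]],[[]],[[]]],[[[]],[[]],[]]],
[[[[52389997878348552863744]],[[8310990217734713769984]],[]],[],[[[494123723747375003467776]],
[[]],[[56895614836599035002880]]],[[[66265425338464003948544]],[[]],[[1740642407038320640]]],[]],
[[[[]],[[]],[[]]],[[],[[]],[[]]],[[[]],[[]],[[]]],[[[]],[],[[]]],[[[]],[],[[]]]],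
[[[[7139189657007598600192]],[],[[1]]],[],[[[15078051625519284224]],[[1740642407038320640]],[[]]],
[],[[[7711320025095815102464]],[[]],[[3041282522574719682625536]]]]],
[[[[[341818311979155675152384]],[],[[47524615063444838678528]]],[[]],
[[[2724808938802350601011200]],[[417385687201397321236480]],[]],[[[]]],
[[[530095153844432054255616]],[],[[3041207491747377238245376]]]],[[[],[],[[]]],[[[]]],[[[]],[[]],
[]],[[[]],[[]],[[]]],[[[]],[],[[]]]],[[[[818684070244779032576]],[[]],[[1]]],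
[[[5322043292901443633152]],[[]],[[1]]],[],[[[]],[[890145773032874967040]],
[[8320069509252468703232]]],[]],[[[[]]],[[[]],[],[[]]],[[[]],[],[[]]],[[[]],[[]],[[]]],[[[]],[[]],
[]]],[[[[530122975005943485431808]],[[1]],[]],[],[[[61391971813892296802304]],[[]],
[[1450267425126744064]]],[[[6493258560533574975488]],[[]],[[61470371615504693460992]]],[]],[[[[]],
[[]],[[]]],[[],[[]],[[]]],[[[]],[[]],[[]]],[[[]],[],[[]]],[[[]],[],[[]]]],
[[[[1037667098390784901120]],[],[[1733923266514386944]]],[],[[[83305476528409673728]],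
[[16213821022553767936]],[]],[],[[[10449213428567375872]],[[]],[[456907692334492378202112]]]]],
[[[[[]]],[[],[[]],[[]]],[[[]]],[[[]]],[[[]]]],[[[]],[[],[[]],[[]]],[[]],[[[]],[],[[]]],[[[]],[],
[[]]]],[[[[]],[[]],[[]]],[[[]],[[]],[[]]],[],[[[]]],[[[]]]],[[[],[[]],[[]]],[[]],[[]],[[[]],[[]],
[]],[[[]],[[]],[]]],[[[[]]],[],[[[]],[[]],[[]]],[[],[[]]],[[],[[]]]],[[[[]],[],[[]]],[],[[[]],
[[]],[]],[],[[[]],[],[[]]]],[[[[]],[],[[]]],[],[[[]],[[]],[]],[],[[[]],[],[[]]]]]],[[[[[[]],[[]],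
[[]]],[[],[]],[[[]]],[[[]]],[[[]]]],[[[]],[[],[[]],[[]]],[[],[],[]],[[[]],[],[[]]],[[[]],[],
[[]]]],[[[[]],[[]],[[]]],[[[]],[[]],[[]]],[],[[]],[]],[[[],[[]],[[]]],[[]],[[]],[[[]],[[]],[]],
[[[]],[[]],[]]],[[[[]]],[],[[[]],[[]],[[]]],[[],[],[[]]],[[],[],[[]]]],[[[[]],[],[[]]],[],[[[]],
[[]],[]],[[]],[[[]],[],[[]]]],[[[[]],[],[[]]],[],[[[]],[[]],[]],[[]],[[[]],[],[[]]]]],[[[[]]],
[[[]],[[],[[]],[[]]],[[],[],[]],[[[]],[],[[]]],[[[]],[],[[]]]],[[],[]],[[[],[[]],[[]]],[[]],[[]],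
[[[]],[[]],[]],[[[]],[[]],[]]],[[[]],[],[[]],[[]],[[]]],[[[[]],[],[[]]],[],[[[]],[[]],[]],[[]],
[[[]],[],[[]]]],[[[[]],[],[[]]],[],[[[]],[[]],[]],[[]],[[[]],[],[[]]]]],[[[[[]],[[]],[[]]],[[],
[[]],[[]]],[[[]]],[[[]]],[[[]]]],[[[[]],[[]],[[]]],[[],[[]],[[]]],[[[]],[[]],[[]]],[[[]],[],[[]]],
[[[]],[],[[]]]],[],[[[],[[]],[[]]],[[[]],[[]],[[]]],[[[]],[[]],[[]]],[[[]],[[]],[]],[[[]],[[]],
[]]],[],[[[[]],[],[[]]],[[[]]],[[[]],[[]],[]],[[[]],[[]],[[]]],[[[]],[],[[]]]],[[[[]],[],[[]]],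
[[[]]],[[[]],[[]],[]],[[[]],[[]],[[]]],[[[]],[],[[]]]]],[[[[]],[[],[[]],[[]]],[[],[],[]],[[[]],[],
[[]]],[[[]],[],[[]]]],[[[[]],[[]],[[]]],[],[[[]],[],[[]]],[[],[],[[]]],[[],[],[[]]]],[[[[]],[[]],
[[]]],[],[[[]],[],[[]]],[[[]],[],[[]]],[[[]],[],[[]]]],[[[[]],[[]],[[]]],[[[]],[[]],[[]]],[[[]],
[[]],[[]]]],[[[[]],[],[[]]],[[[]],[],[[]]],[],[[],[[]],[[]]],[[],[[]],[[]]]],[[[[]],[],[[]]],
[[[]],[],[[]]],[],[[],[[]],[[]]],[]],[[[[]],[],[[]]],[[[]],[],[[]]],[],[[[]],[[]],[[]]],[]]],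
[[[[[]],[[]],[[]]],[[[]],[[]],[[]]],[],[[[]]],[[[]]]],[],[[[[]],[[]],[[]]],[[],[[]],[[]]],[[[]],
[[]],[[]]],[[[]],[],[[]]],[[[]],[],[[]]]],[[[[]],[[]],[[]]],[[],[[]],[[]]],[[[]],[[]],[[]]],[[[]],
[],[[]]],[[[]],[],[[]]]],[],[[[[]]],[[[]],[],[[]]],[[[]],[],[[]]],[[[]],[[]],[[]]],[[[]],[[]],
[]]],[[[[]]],[[[]],[],[[]]],[[[]],[],[[]]],[[[]],[[]],[[]]],[[[]],[[]],[]]]],[[[[],[[]],[[]]],
[[]],[[[]]],[[[]],[[]],[]],[[[]],[[]],[]]],[[],[[[]],[[]],[[]]],[[[]],[[]],[]],[[[]],[[]],[]],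
[[[]],[[]],[]]],[[[[]],[[]],[[]]],[[[]],[[]],[[]]],[[[]],[[]],[[]]]],[[[[]],[[]],[[]]],[],[[[]],
[],[[]]],[[[]],[],[[]]],[[[]],[],[[]]]],[[[[]],[[]],[]],[],[[[]],[],[[]]],[[[]],[],[[]]],[[[]],[],
[[]]]],[[[[]],[[]],[]],[],[[[]],[],[[]]],[[[]],[],[[]]],[]],[[[[]],[[]],[]],[],[[[]],[],[[]]],
[[[]],[[]],[[]]],[]]],[[[[[]]],[],[[[]],[[]],[[]]],[[[]],[],[[]]],[[[]],[],[[]]]],[],[[[[]],[[]],
[[]]],[[[]],[[]],[[]]],[[],[[]],[[]]],[[],[[]],[[]]],[[],[[]],[[]]]],[],[[[[]],[[]],[[]]],[[],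
[[]],[[]]],[[[]],[[]],[[]]],[[[]],[],[[]]],[[[]],[],[[]]]],[[[[]],[[]],[[]]],[[],[[]],[[]]],[[[]],
[[]],[[]]],[[[]],[],[[]]],[[[]],[],[[]]]],[[[[]],[[]],[[]]],[[],[[]],[[]]],[[[]],[[]],[[]]],[[[]],
[],[[]]],[[[]],[],[[]]]]],[[[[[]],[],[[]]],[],[[[]],[[]],[]],[[[]]],[[[]],[],[[]]]],[[[],[],[[]]],
[[[]]],[[[]],[[]],[]],[[[]],[[]],[[]]],[[[]],[],[[]]]],[[[[]],[[]],[[]]],[[[]],[[]],[[]]],[],
[[[]],[[]],[[]]],[]],[[[[]]],[[[]],[],[[]]],[[[]],[],[[]]],[[[]],[[]],[[]]],[[[]],[[]],[]]],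
[[[[]],[[]],[]],[],[[[]],[[]],[[]]],[[[]],[[]],[[]]],[]],[[[[]],[[]],[[]]],[[],[[]],[[]]],[[[]],
[[]],[[]]],[[[]],[],[[]]],[[[]],[],[[]]]],[[[[]],[],[[]]],[],[[[]],[[]],[]],[],[[[]],[[]],[[]]]]],
[[[[[]],[],[[]]],[],[[[]],[[]],[]],[[]],[[[]],[],[[]]]],[[],[[]],[[]],[[]]],[[[[]],[],[[]]],[[[]],
[],[[]]],[],[[],[[]],[[]]],[]],[[[]],[[]],[[]],[[],[],[]]],[[[[]],[[]],[]],[],[[[]],[],[[]]],
[[[]],[],[[]]],[]],[[[]],[],[[],[],[]],[]],[[[[]],[],[[]]],[],[[[]],[[]],[]],[],[[[]],[],[[]]]]]],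
[[[[[[57112291168718780628992]],[],[[129568737244259287040]]],[[],[]],
[[[530704184804097185021952]],[[61612197835532134252544]]],[[]],[[[16231540480205127680]],[],
[[341800450704176656154624]]]],[[[]],[[],[]],[[]],[[]]],[[[[530704193673814805053440]],[],[[1]]],
[[[3027260620031180687802368]],[],[[92817115208111620096]]],[[]],[[],[[341191712685228900220928]],
[[3933957362066544048209920]]],[[[]]]],[[[],[]],[[]],[[]],[[]]],[[[[3353327627315591050690560]],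
[[101614790411049500672]]],[[]],[[[120198822289869897728]],[],[[56673011169584293609472]]],
[[[47230582947270681952256]],[],[[528961118289900026724352]]],[[]]],[[[]],[],[[]]],
[[[[5322755003514183745536]],[],[[11637609369118441472]]],[[[]]],[[[66485578744373501231104]],
[[530122686778900096221184]],[]],[[]],[[[5959023487366887112704]],[],
[[3655334209036874913153024]]]]],[[[]],[],[[],[]],[],[],[[[]],[],[[]]],[]],
[[[[[7720696551964455993344]],[],[[737977875797561573376]]],[[],[]],[[[960492843634061475840]],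
[[102335436221828825088]]],[[]],[[[1]],[],[[744805887125012611072]]]],
[[[[61839323363145738616832]],[],[[1]]],[],[[[101614790411049500672]],[[16177215739925102592]],
[[]]],[[]],[[[3945188430970880]],[[]],[[92382481019826176000]]]],[[[]],[[]],[],[],[]],[[],
[[[342381527466868354318336]],[],[[10413756515033808896]]],[[[47228277939756105203712]],[],
[[111552016532270743552]]],[[]],[[[7084270443757031292928]],[[817477092076649971712]],[]]],[[[[]],
[[]],[]],[[[]],[[]],[[]]],[[[]],[],[[]]],[[[]],[],[[]]],[[[]],[[]],[[]]]],[[[]],[[],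
[[56747967977870494007296]],[[531285540866889713975296]]],[[]],[[[7130105755872968835072]],[],
[[2560011028922368]]],[[[960491721723156103168]],[],[[110968766887960444928]]]],[[[],[],[[]]],
[[[]]],[[[]],[[]],[]],[[[]],[[]],[[]]],[[[]],[],[[]]]]],[[[[[]],[],[[]]],[[],[[]]],[[]],[[[]]]],
[[[[]],[],[[]]],[],[[[]],[[]],[]],[],[[[]],[],[[]]]],[[[[]],[],[[]]],[],[[[]],[[]],[]],[[]],[[[]],
[],[[]]]],[[[[]],[[]],[[]]],[[[]],[[]],[[]]],[[[]]],[],[[[]],[[]],[[]]]],[[[[]],[[]],[]],[[[]],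
[[]],[]],[],[],[[],[[]],[[]]]],[[[[]],[[]],[[]]],[[[]],[[]],[[]]],[],[[[]]],[[[]]]],[[[[]],[],
[[]]],[[[]],[],[[]]],[],[[],[[]],[[]]],[]]],[[[[[961554839651359916032]],[],
[[8282876390407688683520]]],[[[111547408487230210048]],[],[[16231540480205127680]]],[[[]]],[[],
[[11583834392199430144]],[[129859116049098604544]]],[[]]],[[[]],[[]],[],[],[]],
[[[[343008140482700233408512]],[],[[1]]],[],[[[56744509217826609823744]],
[[111552016532270743552]],[[]]],[[]],[[[2026621498776616960]],[[]],[[1033108321007161573376]]]],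
[[[[3948199329372816359292928]],[],[[120048164973114818560]]],[],[[[531884641320106727571456]],
[[1035395573271874240512]],[[]]],[[]],[[[966203979294239096832]],[[]],
[[5930630474280711749632]]]],[[[[]],[[]],[[]]],[[[]],[[]],[]],[[[]],[[]],[]],[[[]],[[]],[]],[[[]],
[[]],[[]]]],[[[],[[531285540866889713975296]],[[3027189173796324369235968]]],[[]],[[]],
[[[2560011028922368]],[[5340481169423268315136]],[[]]],[[[316685395427328]],
[[61470369904459483709440]],[[]]]],[[[[]]],[[[]],[],[[]]],[[[]],[],[[]]],[[[]],[[]],[[]]],[[[]],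
[[]],[]]]],[[[[],[[]]],[[[]],[],[[]]],[[[]],[],[[]]],[[[]]],[[[]]]],[[],[[[]],[],[[]]],[[[]],[],
[[]]],[[]],[[[]],[[]],[]]],[[[[]],[[]],[[]]],[[[]],[[]],[[]]],[[[]]],[],[[[]],[[]],[[]]]],[[[[]],
[],[[]]],[],[[[]],[[]],[]],[[]],[[[]],[],[[]]]],[[[[]],[],[[]]],[],[[[]],[[]],[]],[],[[[]],[],
[[]]]],[[[[]]],[],[[[]],[[]],[[]]],[[],[[]]],[[],[[]],[[]]]],[[[[]],[[]],[]],[],[[[]],[],[[]]],
[[[]],[],[[]]],[]]],[[[[[5340343776665793462272]],[[1]]],[[[]]],[[[66113221399519959187456]],[],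
[[129854717986068234240]]],[[[8282745787144313241600]],[],[[742500615999333597184]]],[[[]]]],
[[[[]],[[]],[]],[[[]],[[]],[[]]],[[[]],[],[[]]],[[[]],[],[[]]],[[[]],[[]],[[]]]],[[[[1]],[[1]],
[[]]],[[[530122975005943485431808]],[[1]],[[]]],[],[],[[[]],[[960457100715468783616]],
[[7130540424670769840128]]]],[[[[]],[[]],[[]]],[[[]],[[]],[]],[[[]],[[]],[]],[[[]],[[]],[]],[[[]],
[[]],[[]]]],[[[[5921704340334531575808]],[],[[1]]],[],[[[3655484106019764707524608]],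
[[1450267425126744064]],[[]]],[],[[[7130540424670769840128]],[[]],[[15007687418957266944]]]],
[[[[890145773032874967040]],[],[[1]]],[],[[[111547585491686653952]],[[61470371615504693460992]],
[[]]],[],[[[743707554105048956928]],[[]],[[456907692334492378202112]]]],[[[[]],[[]],[[]]],[[],
[[]],[[]]],[[[]],[[]],[[]]],[[[]],[],[[]]],[[[]],[],[[]]]]],[[[[[]]],[[],[[]],[[]]],[[[]]],[[[]]],
[[[]]]],[[[]],[[],[[]],[[]]],[[]],[[[]],[],[[]]],[[[]],[],[[]]]],[[[[]],[[]],[[]]],[[[]],[[]],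
[[]]],[],[[[]]],[[[]]]],[[[],[[]],[[]]],[[]],[[]],[[[]],[[]],[]],[[[]],[[]],[]]],[[[[]]],[],[[[]],
[[]],[[]]],[[],[[]]],[[],[[]]]],[[[[]],[],[[]]],[],[[[]],[[]],[]],[],[[[]],[],[[]]]],[[[[]],[],
[[]]],[],[[[]],[[]],[]],[],[[[]],[],[[]]]]],[[[[[744825036083122143232]],[],
[[83307798164387397632]]],[],[[[83595819582591336448]],[[962781226334284677120]],[]],[[[]]],
[[[52019818872805433278464]],[],[[5368876258970285637632]]]],[[[],[],[[]]],[[[]]],[[[]],[[]],[]],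
[[[]],[[]],[[]]],[[[]],[],[[]]]],[[[[1]],[[]],[[57118127534910440734720]]],[[[1]],[[]],
[[530104672166544186277888]]],[],[[[]],[[380750460297328218603520]],
[[3343805577404396198690816]]],[]],[[[[]]],[[[]],[],[[]]],[[[]],[],[[]]],[[[]],[[]],[[]]],[[[]],
[[]],[]]],[[[[52170887904851786727424]],[[530104672166544186277888]],[]],[],
[[[5331550497818219118592]],[[]],[[3655186688568930938650624]]],[[[3343805577404396198690816]],
[[]],[[341209427597077984051200]]],[]],[[[[]],[[]],[[]]],[[],[[]],[[]]],[[[]],[[]],[[]]],[[[]],[],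
[[]]],[[[]],[],[[]]]],[[[[380750460297328218603520]],[],[[52097136376604579069952]]],[],
[[[52097136376604579069952]],[[341209427597077984051200]],[]],[],[[[494724103117247583617024]],
[[]],[[2729531359046804499857408]]]]]]] : List (List (List (List (List (List (List (ℕ))))))))

/-- State number 15. -/
def wst15 : L ℕ 7 := (
[[[[[[[530113598335597703856128]],[[]],[[66557096192258284191744]]],[[[]],[[]],[[]]],
[[[233341649917003364441260032]],[[342417695875991823450112]],[[]]],[[[]],[[]],[[]]],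
[[[21951966712481397174435840]],[[]],[[66117832518191393275904]]]],[],
[[[[42727326433498783285248]],[[]],[[340047426835648406880256]]],[[[21761882965610741037531136]],
[],[[3046370311681183970230272]]],[],[[],[[57112292004692289388544]],[[6539810018623471222784]]]],
[],[[[[341228171541326128480256]],[[966166252922167361536]],[[]]],[],
[[[3650836643969057844887552]],[],[[101603600139651383296]]],[[[8283317781130633019392]],[],
[[10449771776481689600]]]],[],[[[[56669604768277783379968]],[[]],[[5321894709882758627328]]],[],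
[[[377826511714872576704512]],[[180716078045331456]]],[],[[[56746814493280592986112]],[],
[[102047066173470867456]]]]],[[[[[]],[],[[]]],[],[[[]],[[]]],[[]],[[[]],[],[[]]]],[[],[[[]],[[]],
[[]]],[],[[[]],[[]],[[]]]],[[[[]],[],[[]]],[[[]],[],[[]]],[],[[],[[]],[[]]]],[[[[]],[[]],[[]]],
[[[]],[],[[]]],[],[[[]]]],[[[],[[]]],[],[[[]],[],[[]]],[[[]]]],[[[[]],[[]],[[]]],[[],[[]],[[]]],
[[[]],[],[[]]],[[[]]]],[[],[],[[[]]],[],[[[]]]]],[[[[[3353181115935232459014144]],[[]],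
[[31622146574427219529039872]]],[[[]],[[]],[[]]],[[[1395176544138972029071228928]],
[[174689857046849939365953536]],[[]]],[[[]],[[]],[[]]],[[[213989690730929919229689856]],[[]],
[[31547816270433480597307392]]]],[[[[532502737709644262670336]],[[]],
[[3334219106847926361784320]]],[],[[[193754125531840819006275584]],[[24179752912042888026652672]],
[[]]],[],[[[33852893744308514516566016]],[[]],[[3631650912109115231174656]]]],[[],[],[[],[],[[]]],
[],[[],[[]],[]]],[[],[[[3640951531558111434244096]],[],[[531275750110062104805376]]],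
[[[341246901978108943925248]],[],[[3050729470752653114867712]]],[],[[[66119004017045538340864]],
[[340047868046566427197440]],[]]],[[],[[],[],[[]]],[],[],[[[]],[],[]]],[[],[[],
[[7692726877785098813440]],[[42650098707296956710912]]],[],[[[15079740679322075136]],[],
[[33966811330823931989852160]]],[[[101468527919452127232]],[],[[3339085605407370498539520]]]],[[],
[[],[[]],[]],[],[[[]],[],[]]]],[[[[[]],[],[[]]],[[[]],[[]],[[]]],[[[]],[[]],[]],[[[]],[[]],[[]]],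
[[[]],[],[[]]]],[[],[],[],[],[]],[[[[]],[],[[]]],[],[[[]],[[]]],[],[[[]],[],[[]]]],[[[[]],[[]],
[[]]],[[],[[]]],[[[]]],[],[[[]]]],[[[]],[[[]],[[]]],[],[],[[],[[]]]],[[[[]],[[]],[[]]],[[[]],
[[]]],[],[[[]]],[[[]],[[]]]],[[],[[[]],[],[[]]]]],[[[[[380768907005144225284096]],[[]],
[[960474270685877239808]]],[[[193456840038160993098661888]],[[]],[[33853510847724779592482816]]],
[[],[],[]],[[[]],[[29168878049086170585989120]],[[3343811323144438281404416]]],[[],[]]],[[],[],[],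
[],[]],[[[[3031761587871851453874176]],[[]],[[24370381560619440495656960]]],[],
[[[21876381183144612463640576]],[[2748865780639129215959040]]],[],[[[3329495515663171401023488]],
[],[[377826225769840195403776]]]],[[[[341791231798879750979584]],[],
[[3641242012625903412051968]]],[],[[[251763674290532234544807936]],[[453983752724051482640384]]],
[],[[[21915322696837323565301760]],[],[[56896731443712773586944]]]],[[[],[],[[]]],[],[],[],[[[]],
[],[]]],[[[],[[42651232751975667859456]],[[492952785523713345847296]]],[],[],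
[[[26749854177023171602939904]],[[3933880080578618431897600]]],[[[3324988763538053067177984]],
[[528933148720698537017344]],[]]],[[[],[[]],[]],[],[],[[[]],[],[]]]],[[[[[]],[[]],[[]]],[[],[],
[]],[[],[],[[]]],[[[]],[[]],[[]]],[[[]],[[]],[]]],[[],[],[],[],[]],[[[[]],[[]],[[]]],[[],[[]]],
[[],[[]]],[],[[],[],[[]]]],[[[],[],[]],[],[[[]]],[],[[[]]]],[[[]],[],[[[]]],[],[[[]]]],[[[],[],
[]],[],[[[]]],[[[]]],[[[]]]],[[],[],[[[]]]]],[[[[[4245557402805095874428928]],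
[[6512146586993845862400]],[[]]],[[],[],[]],[[[2181016124127544046564409344]],[[]],
[[56967059079140386013184]]],[[[271418461045412277917319168]],[[]],[[380778558221318528991232]]],
[[]]],[[],[],[],[],[]],[[[[2171457455574469875360333824]],[[270818278878259206433013760]],[[]]],
[[[253298374150121462301720576]],[[31471086173804582580355072]]],[],[],[[],
[[7102719436881905352704]],[[52392231641706991726592]]]],[[[],[],[[]]],[],[],[],[[[]],[],[]]],
[[[[213706197725570653591961600]],[],[[34001048332521433383043072]]],[],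
[[[1400089041366269792262029312]],[[3957421530474038703947776]]],[],[[[47373618392798293131264]],
[],[[492933906537420916031488]]]],[[[[529495783245665328431104]],[],
[[193758776434096633301434368]]],[],[[[174996737133891596178685952]],
[[29240912587051900218638336]]],[],[[[380778425293137541890048]],[],
[[3650542631230469334368256]]]],[[[[]],[],[]],[],[[[]],[],[]]]],[[[[[]],[[]],[[]]],[[],[],[]],
[[[]],[[]],[[]]],[[],[],[[]]],[[],[],[[]]]],[[],[],[],[],[]],[[[[]],[[]],[[]]],[[[]]],[],[[],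
[[]]],[[],[[]]]],[[[],[]],[],[],[[[]]],[[[]]]],[[[],[],[]],[],[[[]]],[[[]]],[[[]]]],[[],[],
[[[]]]],[[],[],[[[]]]]],[[[[[341818316339810616377344]],[[]],[[4245482499200245715435520]]],[[],
[],[]],[[[233648970367164750610038784]],[[456317108363611271626752]],[[]]],[[],[]],
[[[29014238563528558797389824]],[[]],[[4255225802239192749858816]]]],[[],[],[],[]],
[[[[233634506947454627554000896]],[[]],[[31621012376815085125894144]]],
[[[21800823902810264530059264]],[],[[66489020057305656328192]]],[],[[],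
[[61617962179313106419712]],[[343571484359277854883840]]]],[[[],[[]],[]],[],[],[[[]],[],[]]],
[[[[33927869817235141644255232]],[[3353175440832559006613504]],[]],[],
[[[214306011985489317616156672]],[],[[7121170684555108024320]]],[[[343589784773223610580992]],[],
[[3041208645240630057107456]]]],[[[[]],[],[]],[],[[[]],[],[]]],[[[[962726901524159528960]],[],
[[24181486764155920082534400]]],[],[[[380169682915151252029440]],[[42950956037574477479936]],[]],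
[],[[[2734250285364569921290240]],[],[[34003990306583835714781184]]]]]],[[[[[[]],[],[[]]],[[[]],
[]],[[[]],[[]],[]],[[]],[[[]],[],[[]]]],[[],[[[]]],[[]],[[]]],[[[[]],[[]],[[]]],[[[]],[[]],[[]]],
[],[[[]],[[]],[[]]],[]],[[[[]],[[]],[[]]],[],[[],[],[[]]],[[[]],[],[[]]],[[[]],[[]],[]]],[[[[]],
[[]],[]],[],[[[]],[],[[]]],[[[]],[],[[]]],[]],[[[[]],[[]],[[]]],[],[[[]],[],[[]]],[[],[],[[]]],
[[],[],[[]]]],[[[[]],[],[[]]],[],[[[]],[[]],[[]]],[[]],[[[]],[[]],[[]]]]],[[[[[]],[],[[]]],[[],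
[]],[[[]],[[]],[]],[[]],[[[]],[],[[]]]],[[],[[[]],[[]],[[]]],[],[[[]],[[]],[[]]]],[[[[]],[],[[]]],
[[],[],[]],[],[[],[[]],[]]],[[[[]],[[]],[[]]],[[],[],[]],[],[[[]]]],[[[],[[]]],[],[[[]],[],[[]]],
[[[]]]],[[[[]],[[]],[[]]],[[],[[]],[]],[[[]],[],[[]]],[[[]]]],[[],[],[[[]]],[],[[[]]]]],[[[[[]],
[[]],[[]]],[[[]],[[]],[[]]],[[[]],[[]],[]],[[],[[]],[[]]],[[[]],[],[[]]]],[[[[]],[[]],[[]]],[],
[[[]],[[]],[]],[],[[[]],[],[[]]]],[[],[],[[],[],[]],[],[[],[]]],[[],[[[]],[[]],[[]]],[[[]],[],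
[[]]],[],[[[]],[[]],[[]]]],[[],[[],[],[]],[],[],[[]]],[[],[[[]],[[]],[[]]],[],[[[]],[],[[]]],
[[[]],[[]],[[]]]],[[],[[],[]],[],[]]],[[[[[]],[],[[]]],[[[]],[[]],[[]]],[[[]],[[]],[]],[[[]],[[]],
[[]]],[[[]],[],[[]]]],[[[[]],[],[[]]],[],[[[]],[[]],[]],[],[[[]],[],[[]]]],[[[[]],[],[[]]],[],
[[[]],[[]]],[],[[[]],[],[[]]]],[[[[]],[[]],[[]]],[[],[[]]],[[[]]],[],[[[]]]],[[[[]],[[]],[]],
[[[]],[[]]],[],[],[[],[[]]]],[[[[]],[[]],[[]]],[[[]],[[]]],[],[[[]]],[[[]],[[]]]],[[[[]],[],[[]]],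
[[[]],[],[[]]]]],[[[[[]],[[]],[[]]],[[[]],[[]],[[]]],[[],[],[]],[[[]],[[]],[[]]],[[],[]]],[[],[],
[],[],[]],[[[[]],[[]],[[]]],[],[[[]],[[]]],[],[[[]],[],[[]]]],[[[[]],[[]],[[]]],[],[[[]],[[]]],[],
[[[]],[],[[]]]],[[[],[],[]],[],[],[],[[],[],[]]],[[[[]],[[]],[[]]],[],[],[[[]],[[]]],[[[]],[[]],
[]]],[[[],[]],[],[],[[],[],[]]]],[[[[[]],[[]],[[]]],[[[]],[],[[]]],[[[]],[],[[]]],[[[]],[[]],
[[]]],[[[]],[[]],[]]],[[],[[[]],[],[[]]],[[[]],[],[[]]],[],[[[]],[[]],[]]],[[[[]],[[]],[[]]],[[],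
[[]]],[[],[[]]],[],[[],[],[[]]]],[[[[]],[],[[]]],[],[[[]],[[]]],[],[[[]],[],[[]]]],[[[[]],[],
[[]]],[],[[[]],[[]]],[],[[[]],[],[[]]]],[[[[]],[[]],[[]]],[],[[[]],[[]]],[[[]],[[]]],[[[]],[[]],
[[]]]],[[[[]],[[]],[]],[],[[[]],[],[[]]],[[],[],[[]]]]],[[[[[]],[[]],[]],[[],[],[]],[[[]],[[]],
[[]]],[[[]],[[]],[[]]],[[]]],[[],[],[],[],[[]]],[[[[]],[[]],[]],[[[]],[[]]],[],[],[[],[[]],[[]]]],
[[[],[],[]],[],[],[],[[],[],[]]],[[[[]],[[]],[[]]],[],[[[]],[[]]],[],[[[]],[],[[]]]],[[[[]],[[]],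
[[]]],[],[[[]],[[]]],[],[[[]],[],[[]]]],[[[]],[],[[],[],[]]]],[[[[[]],[[]],[[]]],[[],[[]],[[]]],
[[[]],[[]],[[]]],[[[]],[],[[]]],[[[]],[],[[]]]],[[],[[],[[]],[[]]],[],[[[]],[],[[]]],[[],[],
[[]]]],[[[[]],[[]],[[]]],[[[]]],[],[[],[[]]],[[],[[]]]],[[[],[[]],[[]]],[],[],[[[]],[[]]],[[[]],
[[]]]],[[[[]],[[]],[[]]],[],[[[]]],[[[]],[[]]],[[[]],[[]]]],[[[[]],[],[[]]],[],[[[]],[[]]],[],[[],
[],[[]]]],[[[[]],[],[[]]],[],[[[]],[[]]],[],[[],[],[[]]]]],[[[[[]],[],[[]]],[[],[]],[[[]],[[]],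
[]],[[]],[[[]],[],[[]]]],[[],[],[],[[]]],[[[[]],[],[[]]],[[[]],[],[[]]],[],[[],[[]],[[]]]],[[[],
[]],[],[],[[],[],[]]],[[[[]],[[]],[]],[],[[[]],[],[[]]],[[[]],[],[[]]]],[[[]],[],[[],[],[]]],
[[[[]],[],[[]]],[],[[[]],[[]],[]],[],[[[]],[],[[]]]]]],[[[[[[892452750391254188032]],[],
[[8264152711249237377024]]],[[[]],[],[[]]],[[[7720117910872002756608]],[[965067383478991978496]],
[]],[[[]]],[[[47522272070344046030848]],[],[[102191215437282312192]]]],[[],[[[]]],[[]],[[[]]]],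
[[[[5931209326462085627904]],[[]],[[47301020076672457654272]]],[[[965014180449933590528]],[[]],
[[7083693945613000572928]]],[],[[[]],[[1878039570480792576]],[[959303884262572044288]]],[]],
[[[[]],[[]],[[]]],[[]],[[],[],[[]]],[[[]],[[]],[[]]],[[[]],[[]],[]]],
[[[[47371293669113853915136]],[[7083693945613000572928]],[]],[],[[[111119708385928314880]],[[]],
[[669919452116463132672]]],[[[665327205464653443072]],[[]],[[83168044696522001408]]],[[]]],[[[[]],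
[[]],[[]]],[],[[[]],[[]],[[]]],[[],[],[[]]],[[],[],[[]]]],[[[[1878039570480792576]],[],
[[61766670748804314836992]]],[],[[[886598053424096620544]],[[83168044696522001408]],[[]]],[[]],
[[[111261606374453411840]],[[]],[[962780949325000228928]]]]],[[[[[7692724803530366386176]],[[]],
[[56965852677733750407168]]],[[[]],[[]],[[]]],[[[3938534387251944494989312]],
[[417957687068468025950208]],[]],[[[]],[[]],[[]]],[[[380796435223197553557504]],[],
[[3036783749974986499555328]]]],[[],[[[]]],[[]],[[[]],[[]],[[]]]],[[[[743653251562114383872]],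
[[]],[[7710748241125351555072]]],[[[416195442046133533147136]],[[]],[[56896695401511160905728]]],
[],[[[]],[[61690579336875197083648]],[[454528062278641140269056]]],[]],[[[[]],[[]],[[]]],[[]],[[],
[],[[]]],[[[]],[[]],[[]]],[[[]],[[]],[]]],[[[[7729771237077975859200]],[[815206143447712661504]],
[]],[],[[[3045932146084907656151040]],[[]],[[5940428194341766397952]]],
[[[455727544214460318253056]],[[]],[[13836764840976195584]]],[[]]],[[[[]],[[]],[[]]],[],[[[]],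
[[]],[[]]],[[],[],[[]]],[[],[],[[]]]],[[[[966184830205132550144]],[],[[6549175251857607524352]]],
[],[[[342371869497458994216960]],[[66409450463554899550208]],[[]]],[[]],
[[[3933805175873642549477376]],[[]],[[6530435667670885075456]]]]],[[[]]],[[[],[[[]]],[[]],[[[]]]],
[[[[1037739134201838436352]],[[]],[[8310990146807630168064]]],[],[[[529542325836717104463872]],
[[61543059709092391026688]],[]],[],[[[892452737539687596032]],[],[[342390597717059315040256]]]],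
[[[[1]],[[]],[[47447439691382555672576]]],[],[[[61690595948158322999296]],
[[6503348874914717401088]]],[],[[[6548886915336042971136]],[],[[47668766298186943299584]]]],
[[[[]],[],[[]]],[[],[[]]],[[],[[]]],[],[[],[],[[]]]],[[[[3032054484540437742485504]],
[[453347191539715700424704]],[]],[[[455164200370884835278848]],[[42874899255720629264384]]],[[],
[[]]],[],[[],[[965085652960928079872]],[[7102003330988594236416]]]],[[[[]]],[[[]]],[],[[],[[]]],
[[],[[]]]],[[[[416168348599699523174400]],[],[[3957644026305771845713920]]],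
[[[671019469452964528128]],[],[[419110894586294945480704]]],[[],[],[[]]],[[],
[[5940718675443864141824]],[[66190485454065863499776]]],[[],[[]]]]],[[[[[]],[],[[]]],[[[]],[],
[[]]],[],[[],[[]],[[]]]],[[],[],[[],[[]],[]],[],[[[]],[],[[]]]],[[[[]],[],[[]]],[],[[],[[]]],[],
[[[]],[],[[]]]],[[[],[],[]],[],[[]],[],[[[]]]],[[[],[[]],[]],[[],[[]]],[[]],[],[[]]],[[],[],[],
[[[]]],[[[]]]],[[[[]],[],[[]]],[[[]],[],[[]]],[[[]]],[[]],[[[]]]]],[[[[[]],[[]],[[]]],[[[]]],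
[[[]],[],[[]]],[[[]],[[]],[[]]],[[[]],[[]],[]]],[[],[[[7720261991460216242176]],[[]],
[[56745697591708259713024]]],[[[740248508184920326144]],[[]],[[453366214603296884129792]]],[],
[[[5940439523709174251520]],[[47522380438280879210496]],[[]]]],[[[[]],[],[[]]],[[],[[]]],[[],
[[]]],[],[[],[],[[]]]],[[[[52174418432291586441216]],[[]],[[5349992633323447582720]]],[[],[[]]],
[[[341210148135119439986688]],[[42946326895432389906432]]],[],[[[61765553856163399614464]],[],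
[[5313108258494653432832]]]],[[[[380741236785077869871104]],[[]],[[4231315400336302121943040]]],
[[],[[]]],[[[3943328307211493861228544]],[[492334526932528541106176]]],[],
[[[6521795547554404925440]],[],[[61391953799767625576448]]]],[[[],[],[]],[],[[[]]],[[[]]],[[[]]]],
[[[[3947904236052064987512832]],[[417376903002333957324800]],[[]]],[[],[],[[]]],
[[[453384656810769238917120]],[],[[61395413144620547452928]]],[[[42502506731236693639168]],[],
[[378979140448145746493440]]],[[[]]]]],[[[[[]],[[]],[]],[],[[[]],[],[[]]],[[[]],[],[[]]],[]],[[],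
[[[]],[[]],[[]]],[],[],[[[]],[[]],[[]]]],[[[[]],[[]],[]],[[[]],[[]]],[],[],[[],[[]],[[]]]],[[[[]],
[[]],[[]]],[[[]],[[]]],[],[],[[[]]]],[[[]],[],[[[]],[[]]],[],[[[]]]],[[[]],[],[[[]],[[]]],[],
[[[]]]],[[[[]],[[]],[[]]],[[],[[]],[[]]],[[[]],[[]],[[]]],[[[]]],[[[]]]]],[[[[[]],[[]],[[]]],[],
[[[]],[[]],[[]]],[[],[],[[]]],[[],[],[[]]]],[[],[[[]],[[66339176022356074176512]],
[[381359486471858760548352]]],[],[[[8264585090357834907648]],[[]],[[47226060761569607049216]]],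
[[[56892156327448904990720]],[[]],[[7729769158984083736576]]]],[[[[]]],[[[]]],[],[[],[[]]],[[],
[[]]]],[[[[]],[[5331399556320530104320]],[[61760906136954135117824]]],[[[]]],[],
[[[56669551564904004583424]],[[7130105755872968835072]]],[[[532475211708763925020672]],
[[960491721723156103168]]]],[[[],[],[]],[],[[[]]],[[[]]],[[[]]]],[[[[3636592335080773680103424]],
[[]],[[455745558576677194366976]]],[[],[[]]],[[[7139610710089314336768]],
[[42575176546678330359808]]],[[[]]],[[[1036585952937509388288]],[],[[5949946410849121009664]]]],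
[[[[33849950909881605609750528]],[[]],[[3934176309343103142354944]]],[[],[[]]],
[[[42873747178915831480320]],[[419166086234912348700672]]],[[[]]],[[[5949219256530936791040]],[],
[[47673376581020260237312]]]]],[[[[[]],[],[[]]],[],[[[]],[[]],[]],[],[[[]],[],[[]]]],[[],[[[]],
[[]],[[]]],[],[[[]],[[]],[[]]]],[[[[]],[],[[]]],[[[]],[],[[]]],[],[[],[[]],[[]]]],[[[[]],[[]],
[[]]],[[[]],[],[[]]],[],[[[]]]],[[[]],[],[[[]],[],[[]]],[[[]]]],[[[[]],[[]],[[]]],[[],[[]],[[]]],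
[[[]],[],[[]]],[[[]]]],[[],[],[[[]]],[],[[[]]]]]],[[[[[[]],[],[[]]],[[],[]],[[[]],[[]],[]],[[]],
[[[]],[],[[]]]],[[],[[[]],[[]],[[]]],[],[[[]],[[]],[[]]]],[[[[]],[],[[]]],[[[]],[],[[]]],[],[[],
[[]],[]]],[[[[]],[[]],[[]]],[[[]],[],[[]]],[],[[[]]]],[[[],[[]]],[],[[[]],[],[[]]],[[[]]]],[[[[]],
[[]],[[]]],[[],[[]],[]],[[[]],[],[[]]],[[[]]]],[[],[],[[[]]],[],[[[]]]]],[[[[[]],[],[[]]],[[[]],
[]],[[[]],[[]],[]],[[]],[[[]],[],[[]]]],[[],[[[]]],[[]],[[]]],[[[[]],[[]],[[]]],[[[]],[[]],[[]]],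
[],[[[]],[[]],[[]]],[]],[[[[]],[[]],[[]]],[],[[],[],[[]]],[[[]],[],[[]]],[[[]],[[]],[]]],[[[[]],
[[]],[]],[],[[[]],[],[[]]],[[[]],[],[[]]],[]],[[[[]],[[]],[[]]],[],[[[]],[],[[]]],[[],[],[[]]],
[[],[],[[]]]],[[[[]],[],[[]]],[],[[[]],[[]],[[]]],[[]],[[[]],[[]],[[]]]]],[[[[[]],[],[[]]],[[[]],
[]],[[[]],[[]],[]],[[]],[[[]],[],[[]]]],[[],[[[]],[]],[[]],[[]]],[[[[]],[[]],[[]]],[[[]],[[]],
[[]]],[[],[],[]],[[[]],[[]],[[]]],[[],[]]],[[[[]],[[]],[[]]],[[],[],[]],[[],[],[[]]],[[[]],[],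
[[]]],[[[]],[[]],[]]],[[[[]],[[]],[]],[[],[],[]],[[[]],[],[[]]],[[[]],[],[[]]],[[]]],[[[[]],[[]],
[[]]],[],[[[]],[],[[]]],[[],[],[[]]],[[],[],[[]]]],[[[[]],[],[[]]],[[],[]],[[[]],[[]],[[]]],[[]],
[[[]],[[]],[[]]]]],[[[[[]],[],[[]]],[[[]],[[]],[[]]],[[[]],[[]],[]],[[[]],[[]],[[]]],[[[]],[],
[[]]]],[[[[]],[],[[]]],[[[]],[[]],[[]]],[[[]],[[]],[]],[[[]],[[]],[[]]],[[[]],[],[[]]]],[[[[]],[],
[[]]],[[],[[]]],[[[]],[[]]],[[[]],[[]]],[[[]],[],[[]]]],[[]],[[[[]],[[]],[]],[[[]],[[]]],[[[]]],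
[[[]]]],[[]],[[[[]],[],[[]]],[[[]],[],[[]]],[[[]]],[[],[[]]],[[[]],[[]]]]],[[[[[]],[[]],[[]]],
[[[]],[[]],[[]]],[],[[[]],[[]],[[]]],[]],[[[[]],[[]],[[]]],[[[]],[[]],[[]]],[[],[],[]],[[[]],[[]],
[[]]],[[],[]]],[[],[[],[]],[[[]]],[[]]],[[],[[],[[]]],[[[]],[[]]],[[[]],[[]]],[[[]],[],[]]],[[],
[[[]],[[]]],[[[]],[[]]],[[[]],[[]]],[[],[],[]]],[[],[[[]]],[[[]]],[[[]],[[]]],[[[]],[]]],[[],
[[[]],[],[[]]],[[[]],[],[[]]],[[],[],[]],[[[]],[[]],[]]]],[[[[[]],[[]],[[]]],[[[]],[],[[]]],[[[]],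
[],[[]]],[[[]],[[]],[[]]],[[[]],[[]],[]]],[[[[]],[[]],[[]]],[[[]],[],[[]]],[[[]],[],[[]]],[[[]],
[[]],[[]]],[[[]],[[]],[]]],[[]],[[[[]],[],[[]]],[[],[[]]],[[[]],[[]]],[[[]],[[]]],[[[]],[],[[]]]],
[[[[]],[],[[]]],[[],[[]]],[[[]],[[]]],[[[]],[[]]],[[],[],[[]]]],[[]],[[[[]],[[]],[]],[[],[],[[]]],
[[[]],[],[[]]],[[[]],[],[[]]],[[[]],[[]],[[]]]]],[[[[[]],[[]],[]],[],[[[]],[[]],[[]]],[[[]],[[]],
[[]]],[]],[[[[]],[[]],[]],[[],[],[]],[[[]],[[]],[[]]],[[[]],[[]],[[]]],[[],[],[]]],[[[]],[[[]]],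
[[[]]]],[[],[[[]],[[]]],[[[]],[[]]],[[[]],[[]]],[[],[],[]]],[[[],[],[[]]],[[],[[]]],[[[]],[[]]],
[[[]],[[]]],[[],[],[[]]]],[[[],[],[[]]],[[],[[]]],[[[]],[[]]],[[[]],[[]]],[[],[],[[]]]],[[[]],[[],
[[]],[[]]],[[],[],[]],[[[]],[],[[]]],[[[]],[],[[]]]]],[[[[[]],[[]],[[]]],[[],[[]],[[]]],[[[]],
[[]],[[]]],[[[]],[],[[]]],[[[]],[],[[]]]],[[[[]],[[]],[[]]],[[],[[]],[[]]],[[[]],[[]],[[]]],[[[]],
[],[[]]],[[[]],[],[[]]]],[[]],[[[],[[]],[[]]],[[[]]],[[[]]],[[[]],[[]]],[[[]],[[]]]],[[]],[[[[]],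
[],[[]]],[[],[[]]],[[[]],[[]]],[[[]],[[]]],[[],[],[[]]]],[[[],[],[[]]],[[],[[]]],[[[]],[[]]],
[[[]],[[]]],[[],[],[[]]]]],[[[[[]],[],[[]]],[],[[[]],[[]],[]],[[]],[[[]],[],[[]]]],[[[[]],[],
[[]]],[[],[],[]],[[[]],[[]],[]],[[],[],[]],[[[]],[],[[]]]],[[[]]],[[],[[[]],[],[[]]],[[[]],[],
[[]]],[[],[],[]],[[[]],[[]],[]]],[[],[[],[],[]],[[]],[],[[]]],[[[]],[[],[[]],[[]]],[[],[],[]],
[[[]],[],[[]]],[[[]],[],[[]]]],[[],[[],[]],[[]],[[]]]]],[[[[[[453375721774077272129536]],[[]],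
[[66116680164031650070528]]],[[[]],[[]],[[]]],[[[4250429684826551739768832]],
[[380796435223197553557504]],[]],[[[]],[[]],[[]]],[[[529550839750542852521984]],[],
[[56968266624313856622592]]]],[[[[42798788967311462105088]],[[]],[[7710748241125351555072]]],[],
[[[494105993077291053252608]],[[56896695401511160905728]],[]],[],[[[61690579336875197083648]],[],
[[8264875646200674582528]]]],[[],[],[[],[],[]],[],[[],[]]],[[],[[[5902967217448070152192]],[[]],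
[[1039990375258483326976]]],[[[891209471091910377472]],[[]],[[5940428194341766397952]]],[],
[[[92377909267531890688]],[[13836764840976195584]],[[]]]],[[],[[],[],[]],[],[],[[]]],[[],[[[]],
[[817494534661484863488]],[[5921558043191664508928]]],[],[[[6521070573533683318784]],[[]],
[[61466894818726373507072]]],[[[1039990370998966288384]],[[]],[[6530435667670885075456]]]],[[],
[[],[]],[],[[]]]],[[[],[],[[]]],[[],[],[],[],[]],[[],[],[[],[],[]],[],[[],[]]],[[],[],[[]],[],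
[[]]],[[],[[],[],[]],[[]],[],[[]]],[[],[],[],[[]]],[[],[[],[]],[[]],[[]]]],
[[[[[61396620381793458061312]],[[]],[[415577478579323582545920]]],[[[]],[[]],[[]]],
[[[21990336377037420056543232]],[[3046079738307188764966912]],[]],[[[]],[[]],[[]]],
[[[4250352403892648937259008]],[],[[33929041757475093425946624]]]],[[[[]],[],[[]]],[[[]],[]],[[]],
[[[]],[[]],[[]]]],[[[[493515402282230093971456]],[[]],[[3324698208442472188608512]]],
[[[3036850637427450287489024]],[[]],[[531856680507424167165952]]],[[],[],[]],[[[]],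
[[340647531307281804230656]],[[3929009021860672113475584]]],[[],[]]],[[[[]],[[]],[[]]],[[],[],[]],
[[],[],[[]]],[[[]],[[]],[[]]],[[[]],[[]],[]]],[[[[4255228143548459266080768]],
[[531856680507424167165952]],[]],[[],[],[]],[[[33851730878925749016854528]],[[]],
[[52167393107283477528576]]],[[[3934031129911611541946368]],[[]],[[530731429331666601181184]]],
[[]]],[[[[]],[[]],[[]]],[[],[]],[[[]],[[]],[[]]],[[],[],[[]]],[[],[],[[]]]],
[[[[340647531307281804230656]],[],[[3334291667736741853790208]]],[[],[]],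
[[[3650685592674534986088448]],[[530731429331666601181184]],[[]]],[[]],
[[[21950150010070949393596416]],[[]],[[4241134850515375440269312]]]]],
[[[[[6503062757267472384000]],[[]],[[47304459415020190826496]]],[],[[[3046225079340911572287488]],
[[455173698284910658191360]],[]],[],[[[6494127754669222723584]],[],
[[3957714461460316603023360]]]],[[[[]]],[[[]],[]],[[]],[[[]]]],[[[[47598382341027967008768]],[[]],
[[110831371357287088128]]],[[[456945162284500468629504]],[],[[12700722976636010496]]],[[],[],[]],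
[[],[[47593861307406720696320]],[[418566720279349404106752]]],[[],[]]],[[[[]],[[]],[[]]],[[[]],[],
[[]]],[[[]],[],[]],[[[]],[[]],[[]]],[[[]]]],[[[[1594381471009767424]],[[891245781224303099904]],
[]],[[],[],[]],[[[3929381380581841432477696]],[],[[102042774255737864192]]],
[[[416159278245081535086592]],[],[[1036495305074707800064]]],[[]]],[[[[]],[[]],[[]]],[[],[],[]],
[[[]],[[]],[[]]],[]],[[[[47303325910884570628096]],[],[[491744670223159814782976]]],[[],[]],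
[[[5939860706179736928256]],[[51950734499360964608000]]],[[]],[[[3041357353541432456773632]],[],
[[456926289807324790063104]]]]],[[[],[],[[],[[]],[]],[],[[[]],[],[[]]]],[[[[]],[],[[]]],[[[]],[],
[[]]],[],[[],[[]],[[]]]],[[[[]],[],[[]]],[[],[],[[]]],[[],[],[]],[[],[[]],[[]]],[]],[[[],[],[[]]],
[[],[],[[]]],[]],[[[],[[]],[]],[[],[],[]]],[[[],[[]],[[]]],[[],[[]],[[]]]],[[[[]],[],[[]]],[[],
[]]]],[[[],[[[42507153601898815160320]],[[]],[[6549035501722510819328]]],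
[[[5949363299743558533120]],[[]],[[4231317652122995737493504]]],[],[[[891228026449150869504]],
[[419119539317797025742848]],[[]]]],[[[[]],[[]],[[]]],[[[]]],[[[]],[],[[]]],[[[]],[[]],[[]]],
[[[]],[[]],[]]],[[[[]],[[]],[[]]],[[[]],[],[[]]],[[[]],[],[]],[[[]],[[]],[[]]],[[[]]]],
[[[[26599348054567311758229504]],[[]],[[3339162834281394785222656]]],
[[[4240982555932482263842816]],[],[[528933004604410148618240]]],[[],[],[]],[[],
[[417386126338112830341120]],[[61612125219384144179200]]],[[],[]]],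
[[[[174104435788041107218104320]],[[]],[[101468495492174315520]]],[[[24295395111541632764215296]],
[],[[16249282543446654976]]],[[],[],[]],[[],[[2725105311431266016690176]],
[[453937489463352393498624]]],[[],[]]],[[[[]],[[]],[[]]],[[[]],[[]],[[]]],[]],
[[[[21799643308829402992738304]],[[664156542036359512064]],[[]]],[[[3022391795925409207943168]],
[[92533246045506764800]]],[[],[]],[[],[]],[[],[[341246465095435901009920]],
[[4250425090592122546421760]]]]],[[[],[[[]],[[]],[[]]],[],[],[[[]],[[]],[[]]]],[[[[]],[[]],[]],[],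
[[[]],[],[[]]],[[[]],[],[[]]],[]],[[[[]],[[]],[]],[[],[],[]],[[[]],[],[[]]],[[[]],[],[[]]],[]],
[[[[]],[[]],[[]]],[[],[],[[]]]],[[[[]],[],[[]]],[[[]],[],[[]]],[],[[],[[]]]],[[[[]],[],[[]]],
[[[]],[],[[]]],[],[[],[[]]]],[[[[]],[[]],[[]]],[[[]]],[],[[],[[]]],[[],[[]]]]],[[[],[[[]],
[[7674721522749897015296]],[[42796536899486464868352]]],[],[[[61839323943754466066432]],[[]],
[[419119982920162110144512]]],[[[7083698449745616830464]],[[]],[[57040828049766167633920]]]],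
[[[[]],[[]],[[]]],[],[[[]],[[]],[[]]],[[],[],[[]]],[[],[],[[]]]],[[[[]],[[]],[[]]],[[],[],[]],
[[[]],[[]],[[]]],[]],[[[[]],[[3353180052799705592102912]],[[31585575895437420173197312]]],[[],
[[528933013612700853338112]],[[3338715410358164983382016]]],[[],[[42796465699516865052672]],
[[7683215452410772193280]]],[[],[],[]],[[],[],[]]],[[[[]],[[]],[[]]],[[[]],[[]],[[]]],[]],
[[[[21838621567393630433312768]],[[]],[[3348532572175976473034752]]],
[[[3022464483746455475978240]],[],[[531312783068501605613568]]],[[],[],[]],[[],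
[[418557494479006487019520]],[[42870324443060516683776]]],[[],[]]],
[[[[233941539186656895888785408]],[[]],[[21950158942926201830768640]]],
[[[21801405112468136420966400]],[],[[3027264113690006031171584]]],[[],[],[]],[[],
[[42651215881480494383104]],[[417339430730698472816640]]],[[],[]]]],[[[],[[[]],[[]],[[]]],[],
[[[]],[[]],[[]]]],[[[[]],[],[[]]],[],[[[]],[[]],[]],[],[[[]],[],[[]]]],[[[[]],[],[[]]],[[],[]],
[[[]],[[]]],[[]],[[[]],[],[[]]]],[[[[]],[[]],[[]]],[[],[[]]]],[[[[]],[[]]],[[[]],[[]]],[],[[],[]],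
[[],[[]]]],[[[[]],[[]],[[]]],[[[]]],[],[[],[]],[[],[[]]]],[[[[]],[],[[]]],[[[]],[],[[]]],[]]]],
[[[[[[]],[],[[]]],[[[]],[[]],[[]]],[[[]],[[]],[]],[[[]],[[]],[[]]],[[[]],[],[[]]]],[[[[]],[],
[[]]],[],[[[]],[[]],[]],[],[[[]],[],[[]]]],[[[[]],[],[[]]],[],[[[]],[[]]],[],[[[]],[],[[]]]],
[[[[]],[[]],[[]]],[[],[[]]],[[[]]],[],[[[]]]],[[[[]],[[]],[]],[[[]],[[]]],[],[],[[],[[]]]],[[[[]],
[[]],[[]]],[[[]],[[]]],[],[[[]]],[[[]],[[]]]],[[[[]],[],[[]]],[[[]],[],[[]]]]],[[[],[[[]]],[[]],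
[[]]],[[[[]],[[]],[[]]],[],[[[]],[[]],[]],[],[[[]],[],[[]]]],[[[[]],[[]],[[]]],[],[[[]],[[]]],[],
[[[]],[],[[]]]],[[[[]],[]],[[],[[]]],[[],[]],[],[[],[],[[]]]],[[[[]],[[]],[]],[[[]],[[]]],[[],[]],
[],[[],[[]],[[]]]],[[[]],[[[]]],[],[[],[]],[[],[[]]]],[[[[]],[],[[]]],[[[]],[],[[]]],[[],[],[[]]],
[[],[[]],[[]]],[[],[[]]]]],[[[[[]],[],[[]]],[[[]],[[]],[[]]],[[[]],[[]],[]],[[[]],[[]],[[]]],
[[[]],[],[[]]]],[[[[]],[],[[]]],[[[]],[[]],[[]]],[[[]],[[]],[]],[[[]],[[]],[[]]],[[[]],[],[[]]]],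
[[[[]],[],[[]]],[[],[[]]],[[[]],[[]]],[[[]],[[]]],[[[]],[],[[]]]],[[]],[[[[]],[[]],[]],[[[]],
[[]]],[[[]]],[[[]]]],[[]],[[[[]],[],[[]]],[[[]],[],[[]]],[[[]]],[[],[[]]],[[[]],[[]]]]],[[[[[]],
[[]],[[]]],[],[[[]],[[]],[]],[],[[[]],[],[[]]]],[[],[[[]],[]],[[]],[[]]],[[[[]],[[]],[[]]],[[[]],
[],[[]]],[[],[],[]],[[],[[]],[[]]],[[],[]]],[[[[]],[[]],[[]]],[[],[],[]],[[],[],[]],[[[]],[],
[[]]],[]],[[[[]],[[]],[]],[[],[],[]],[[[]],[],[[]]],[[[]],[],[[]]],[[]]],[[[],[[]],[[]]],[[],[],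
[]],[[[]],[],[[]]],[]],[[[[]],[],[[]]],[[],[]],[[[]],[[]]],[[]],[[[]],[],[[]]]]],[[[[[]],[[]],
[[]]],[],[[[]],[[]]],[],[[[]],[],[[]]]],[[],[[],[]],[[[]]],[[]]],[[[[]],[[]],[[]]],[[[]],[],[[]]],
[[],[],[]],[[],[[]],[[]]],[[],[]]],[[[[]],[[]],[[]]],[[],[],[]],[[[]],[],[[]]],[[[]],[],[[]]],[]],
[[[[]],[[]],[]],[[],[],[]],[[[]],[],[[]]],[[[]],[],[[]]],[[]]],[[[[]],[],[]],[[],[],[]],[[[]],[],
[]],[[],[],[[]]],[]],[[[[]],[],[[]]],[[],[]],[[[]],[[]]],[[]],[[[]],[],[[]]]]],[[[[[]],[[]],[[]]],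
[[],[[]]],[[],[[]]],[],[[],[],[[]]]],[],[[[[]],[[]],[[]]],[[[]],[],[[]]],[[[]],[],[[]]],[[[]],
[[]],[[]]],[[[]],[[]]]],[[[[]],[[]],[[]]],[[],[],[]],[[[]],[],[[]]],[[[]],[],[[]]],[[[]],[[]]]],
[[[[]],[[]],[[]]],[[],[],[]],[[[]],[],[[]]],[[[]],[],[[]]],[[[]],[[]]]],[[]],[[[],[],[[]]],[[],
[]],[[[]],[[]]],[[[]],[[]]],[[[]],[[]],[[]]]]],[[[[[]],[[]],[]],[[[]],[[]]],[],[],[[],[[]],[[]]]],
[[[]],[[[]]],[[[]]]],[[[[]],[[]],[]],[[],[],[]],[[[]],[],[[]]],[[[]],[],[[]]],[[]]],[[[[]],[[]],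
[]],[[],[],[]],[[[]],[],[[]]],[[[]],[],[[]]],[[]]],[[[[]],[[]],[[]]],[[],[],[]],[[[]],[],[[]]],
[[[]],[],[[]]],[[],[[]]]],[[[[]],[[]],[[]]],[[],[],[]],[[],[],[[]]],[[[]],[],[[]]],[[],[[]]]],
[[[],[[]],[[]]],[[]],[[]],[[[]],[[]]],[[[]],[[]]]]],[[[[[]],[[]],[[]]],[[[]]],[],[[],[[]]],[[],
[[]]]],[],[[[[]],[[]],[[]]],[[],[[]],[[]]],[[[]],[[]],[[]]],[[[]],[],[[]]],[[[]],[],[[]]]],[[[[]],
[],[]],[[],[],[]],[[[]],[],[]],[[[]],[],[[]]],[[[]],[],[[]]]],[[]],[[[[]],[[]],[[]]],[[],[],[]],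
[[[]],[],[[]]],[[[]],[],[[]]],[[[]],[[]]]],[[[[]],[[]],[[]]],[[],[],[]],[[[]],[],[[]]],[[[]],[],
[[]]],[[[]],[[]]]]],[[[[[]],[],[[]]],[[[]],[],[[]]],[],[[],[[]],[[]]]],[[[]]],[[[[]],[],[[]]],[[],
[]],[[[]],[[]]],[[]],[[[]],[],[[]]]],[[[[]],[],[[]]],[[],[]],[[[]],[[]]],[[]],[[[]],[],[[]]]],
[[[],[],[]],[[],[]],[[]],[[]],[[]]],[[[],[[]],[[]]],[[]],[[]],[[[]],[[]]],[[[]],[[]]]],[[[],[],
[]],[[],[],[]],[[]],[[]]]]],[[[[[[47523443868268505858048]],[[]],[[8310990146807630168064]]],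
[[[491153797986666378428416]],[[]],[[61543059709092391026688]]],[[],[],[]],[[[]],
[[892452737539687596032]],[[110838233924483710976]]],[[],[]]],[[],[],[],[],[]],
[[[[8319490621276713648128]],[[]],[[61692938374188260392960]]],[],[[[66410584789980344745984]],
[[6548886915336042971136]]],[],[[[8283322214352653746176]],[],[[47447422517150533824512]]]],
[[[[47226079043970854813696]],[[]],[[6493699982523887648768]]],[],[[[492335243110448042737664]],
[[1040044409515076227072]]],[],[[[47446287333101655838720]],[],[[7102003330988594236416]]]],[[[],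
[],[]],[],[],[],[[],[],[]]],[[[[]],[[5349988129723272658944]],[[61763175942508764987392]]],[],[],
[[[743670707201585971200]],[[5940718675443864141824]]],[[[5931362483466852696064]],
[[66190485454065863499776]],[]]],[[[],[]],[],[],[[],[],[]]]],[[[[[]],[],[[]]],[[[]],[],[[]]],[],
[[],[[]],[[]]]],[[],[],[[],[[]],[]],[],[[[]],[],[[]]]],[[[[]],[],[[]]],[],[[],[[]]],[],[[[]],[],
[[]]]],[[[],[],[]],[],[[]],[],[[[]]]],[[[],[[]],[]],[[],[[]]],[[]],[],[[]]],[[],[],[],[[[]]],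
[[[]]]],[[[[]],[],[[]]],[[[]],[],[[]]],[[[]]],[[]],[[[]]]]],[[[[[8282741355571018989568]],[[]],
[[42871422195270072401920]]],[[[3036708793729654630383616]],[[]],[[492315931535608167530496]]],[],
[[[]],[[342980326178851546726400]],[[3957418106867647204294656]]],[]],
[[[[47228313687421727277056]],[[]],[[110831371357287088128]]],[[[454574618378851537911808]],[[]],
[[891245781224303099904]]],[[],[],[]],[[[]],[[47303325910884570628096]],
[[416777232982345080897536]]],[[],[],[]]],[[],[[],[[]]],[[[]],[[]]],[[[]],[[]]],[[],[],[[]]]],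
[[[]],[[],[[]]],[[[]],[[]]],[[[]],[[]]],[[[]],[],[[]]]],[[],[[[417939377754560152993792]],
[[16178073427747274752]]],[[[2720385269355627588878336]],[[102042774255737864192]]],
[[[5939860706179736928256]],[[51950734499360964608000]]],[[],[],[]]],[[],[[[]]],[[[]]],[[[]],
[[]]],[[[]],[[]]]],[[],[[[56892155786216520286208]],[],[[7674435614550624632832]]],
[[[530086077017529465733120]],[],[[966185965245804331008]]],[[],[],[]],
[[[66264218365311390842880]],[[456926289807324790063104]],[]]]],[[[],[],[[],[[]],[]],[],[[[]],[],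
[[]]]],[[[[]],[],[[]]],[[[]],[],[[]]],[],[[],[[]],[[]]]],[[[[]],[],[[]]],[[],[],[[]]],[[],[],[]],
[[],[[]],[[]]],[]],[[[],[],[[]]],[[],[],[[]]],[]],[[[],[[]],[]],[[],[],[]]],[[[],[[]],[[]]],[[],
[[]],[[]]]],[[[[]],[],[[]]],[[],[]]]],[[[[[886614937458146541568]],[[]],
[[530713270640406500999168]]],[],[[[342999349421610440327168]],[[47447440267729553588224]]],[],
[[[47672241383987748536320]],[],[[531275740962631488405504]]]],[[],[[],[[]]],[[[]]],[[[]]]],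
[[[[5922125600665737625600]],[[]],[[3948346921326678135799808]]],[[[47302100104890905264128]],[],
[[416158981041040694280192]]],[[],[],[]],[[],[[5350276568422385975296]],
[[61616774636456157118464]]],[[],[]]],[[[[]],[[]],[[]]],[[],[],[]],[[[]],[],[[]]],[[[]],[],[[]]],
[[[]],[[]]]],[[[[47223720574286104100864]],[[416158981041040694280192]],[]],[[],[],[]],
[[[492334671083433837461504]],[],[[61691677084679038574592]]],[[[52168581775833184600064]],[],
[[455164330797153952825344]]],[[]]],[[[[]],[],[]],[[],[],[]],[[[]],[],[]],[[],[],[[]]],[[],[],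
[[]]]],[[[[5350276568422385975296]],[],[[3046222719150969981501440]]],[[],[]],
[[[3046075217845311400050688]],[[455164330797153952825344]]],[[]],[[[380169680522630995640320]],
[],[[3934176308784758484631552]]]]],[[[[[340020042519967657099264]],[[]],
[[891263505557933785088]]],[],[[[3943402023541903150546944]],[[492334671082343045922816]]],[],
[[[453955929591141326061568]],[],[[61391953799767625576448]]]],[[[[]]],[[],[[]]],[[[]],[[]]],
[[[]],[[]]],[[[]],[],[[]]]],[[[[4245483561209593468026880]],[[]],[[531856678364476528918528]]],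
[[[491153789051467550687232]],[],[[61765537240136380841984]]],[[],[],[]],[[],
[[66339103678547546341376]],[[8310704134712689950720]]],[[],[]]],[[[[]],[[]],[[]]],[[],[],[]],
[[[]],[],[[]]],[[[]],[],[[]]],[[[]],[[]]]],[[[[453993401793455637659648]],
[[960439081644068175872]],[]],[[],[],[]],[[[2729976422503907053273088]],[],
[[129861509694495916032]]],[[[380741241356873113796608]],[],[[42798789812009089630208]]],[[]]],
[[[[]],[],[]],[[],[],[]],[[[]],[],[]],[[],[],[[]]],[[],[],[[]]]],[[[[742554650124914524160]],[],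
[[5341066639582294966272]]],[[],[]],[[[340610057031262928896000]],[[742501161148729524224]]],[[]],
[[[47523496495081530064896]],[],[[416804326461755579432960]]]]],[[[[[]],[[]],[[]]],[],[],[],[[[]],
[],[]]],[[],[[[]],[[]]],[[[]],[[]]],[[[]],[[]]],[[],[],[]]],[[[[]],[[]],[[]]],[[],[],[[]]],[[],[],
[]],[[],[],[]],[]],[[[[]],[[]],[]],[[],[],[]],[[[]],[],[[]]],[[[]],[],[[]]],[[]]],[[[[]],[[]],[]],
[[],[],[]],[[[]],[],[[]]],[[[]],[],[[]]],[[]]],[[[[]],[[]],[]],[[],[],[]],[[[]],[],[[]]],[[[]],[],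
[[]]],[[]]],[[[[]],[[]],[[]]],[],[[[]]],[[[]]],[[[]]]]],[[[[[]],[[42727308414496001753088]],
[[493487306502262088531968]]],[],[],[[[532474646576236966445056]],[[66265370727923629162496]]],
[[[3041575346609301467693056]],[[7129966217917712302080]]]],[[],[[[]]],[[[]]],[[[]],[[]]],[[[]],
[[]]]],[[[[]],[[380196765310418841305088]],[[3343663858122525038870528]]],[[],
[[47522309242566584827904]],[[419165379238438656737280]]],[[],[[6493553511081713991680]],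
[[42501388422290482417664]]],[[],[],[]],[[],[],[]]],[[[[]],[],[]],[[],[],[]],[[[]],[],[]],[[],[],
[[]]],[[],[],[[]]]],[[[[]],[],[]],[[],[],[]],[[[]],[],[]],[[],[],[[]]],[[],[],[[]]]],
[[[[56892136923059391037440]],[[530713700910642273189888]],[]],[[],[],[]],
[[[492924966963611657306112]],[],[[52097172115342039449600]]],[[[812809669685672148992]],[],
[[342999049790981937299456]]],[[]]],[[[[531303278294072974901248]],[[3036482819992900845174784]],
[]],[[],[],[]],[[[3641394198541586249285632]],[],[[342408900486124493864960]]],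
[[[7711617438094867857408]],[],[[3938899919118537037185024]]],[[]]]],[[[[[]],[[]],[[]]],[],[],
[[[]],[],[]]],[[],[[[]],[],[[]]],[[[]],[],[[]]],[[],[],[]],[[[]],[[]],[]]],[[[[]],[[]],[[]]],[[],
[[]]],[[],[]],[],[[],[],[]]],[[[[]],[],[[]]],[[],[]],[[[]],[[]]],[[]],[[[]],[],[[]]]],[[[[]],[],
[[]]],[[],[]],[[[]],[[]]],[[]],[[[]],[],[[]]]],[[[[]],[],[[]]],[],[[[]]],[[]],[[[]]]],[[[[]],[[]],
[]],[[],[],[]],[[[]],[],[]],[[],[],[[]]],[]]]],[[[[[[]],[[]],[[]]],[[[]],[],[[]]],[[[]],[],[[]]],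
[[[]],[[]],[[]]],[[[]],[[]],[]]],[[],[[[]],[],[[]]],[[[]],[],[[]]],[],[[[]],[[]],[]]],[[[[]],[[]],
[[]]],[[],[[]]],[[],[[]]],[],[[],[],[[]]]],[[[[]],[],[[]]],[],[[[]],[[]]],[],[[[]],[],[[]]]],
[[[[]],[],[[]]],[],[[[]],[[]]],[],[[[]],[],[[]]]],[[[[]],[[]],[[]]],[],[[[]],[[]]],[[[]],[[]]],
[[[]],[[]],[[]]]],[[[[]],[[]],[]],[],[[[]],[],[[]]],[[],[],[[]]]]],[[[[[]],[[]],[[]]],[[[]]],
[[[]],[],[[]]],[[[]],[],[[]]],[[[]],[[]],[]]],[[],[[[]],[[]],[[]]],[[[]],[],[[]]],[],[[[]],[[]],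
[[]]]],[[[[]]],[[],[[]]],[[],[]],[],[[],[],[[]]]],[[[[]],[[]],[[]]],[[],[[]]],[[[]],[[]]],[],
[[[]],[],[[]]]],[[[[]],[],[[]]],[[],[]],[[[]],[[]]],[],[[[]],[],[[]]]],[[[],[],[]],[],[[[]]],[[]],
[[[]]]],[[[[]],[[]],[[]]],[[],[],[[]]],[[[]],[],[[]]],[[[]],[],[[]]],[[[]]]]],[[[[[]],[[]],[[]]],
[[[]],[],[[]]],[[[]],[],[[]]],[[[]],[[]],[[]]],[[[]],[[]],[]]],[[[[]],[[]],[[]]],[[[]],[],[[]]],
[[[]],[],[[]]],[[[]],[[]],[[]]],[[[]],[[]],[]]],[[]],[[[[]],[],[[]]],[[],[[]]],[[[]],[[]]],[[[]],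
[[]]],[[[]],[],[[]]]],[[[[]],[],[[]]],[[],[[]]],[[[]],[[]]],[[[]],[[]]],[[],[],[[]]]],[[]],[[[[]],
[[]],[]],[[],[],[[]]],[[[]],[],[[]]],[[[]],[],[[]]],[[[]],[[]],[[]]]]],[[[],[[[]],[[]],[[]]],
[[[]],[],[[]]],[],[[[]],[[]],[[]]]],[[[[]],[[]],[[]]],[[[]]],[[[]],[],[[]]],[[[]],[],[[]]],[[[]],
[[]],[]]],[[[[]],[[]],[[]]],[[],[],[]],[[],[],[]],[[[]],[],[[]]],[]],[[[[]],[[]],[[]]],[[[]],[],
[[]]],[[],[],[]],[[],[[]],[[]]],[[],[]]],[[[[]],[],[[]]],[[[]],[],[[]]],[[],[],[]],[[],[[]],[[]]],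
[[],[]]],[[[[]],[],[[]]],[[[]],[],[[]]],[]],[[[[]],[[]],[[]]],[[[]],[[]]],[[],[]],[[],[]],[[],
[[]],[[]]]]],[[[[[]],[[]],[[]]],[[],[[]]],[[],[[]]],[],[[],[],[[]]]],[],[[[[]],[[]],[[]]],[[[]],
[],[[]]],[[[]],[],[[]]],[[[]],[[]],[[]]],[[[]],[[]]]],[[[[]],[[]],[[]]],[[],[],[]],[[[]],[],[[]]],
[[[]],[],[[]]],[[[]],[[]]]],[[[[]],[[]],[[]]],[[],[],[]],[[[]],[],[[]]],[[[]],[],[[]]],[[[]],
[[]]]],[[]],[[[],[],[[]]],[[],[]],[[[]],[[]]],[[[]],[[]]],[[[]],[[]],[[]]]]],[[[[[]],[[]],[[]]],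
[],[[[]],[[]]],[],[[[]],[],[[]]]],[[[[]]],[[],[[]]],[[[]],[[]]],[[[]],[[]]],[[[]],[],[]]],[[[[]],
[[]],[[]]],[[[]],[],[[]]],[[],[],[]],[[],[[]],[[]]],[[],[]]],[[[[]],[[]],[[]]],[[],[],[]],[[[]],
[],[[]]],[[[]],[],[[]]],[]],[[[[]],[[]],[]],[[],[],[]],[[[]],[],[[]]],[[[]],[],[[]]],[[]]],[[[[]],
[],[]],[[],[],[]],[[[]],[],[]],[[],[],[[]]],[]],[[[[]],[],[[]]],[[],[]],[[[]],[[]]],[[]],[[[]],[],
[[]]]]],[[[[[]],[[]],[[]]],[],[[[]],[[]]],[],[[[]],[],[[]]]],[[[[]],[],[[]]],[[],[[]]],[[[]],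
[[]]],[[[]],[[]]],[[],[],[[]]]],[[[[]],[[]],[[]]],[[[]],[],[[]]],[[],[],[]],[[],[[]],[[]]],[[],
[]]],[[[[]],[[]],[[]]],[[],[],[]],[[[]],[],[[]]],[[[]],[],[[]]],[[],[[]]]],[[[[]],[[]],[]],[[],[],
[]],[[[]],[],[[]]],[[[]],[],[[]]],[[]]],[[[[]],[],[]],[[],[],[]],[[[]],[],[]],[[],[],[[]]],[[],[],
[[]]]],[[[[]],[],[[]]],[[],[]],[[[]],[[]]],[[]],[[[]],[],[[]]]]],[[[[[]],[[]],[[]]],[],[[[]]],
[[[]]],[[[]]]],[],[[[[]],[[]],[[]]],[[[]],[[]],[[]]],[[],[[]],[[]]],[[],[[]],[[]]],[[],[[]],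
[[]]]],[[]],[[[[]],[],[]],[[],[],[]],[[[]],[],[]],[[[]],[],[[]]],[[[]],[],[[]]]],[[[[]],[],[]],
[[],[],[]],[[[]],[],[]],[[[]],[],[[]]],[[[]],[],[[]]]],[[[[]],[],[]],[[],[],[]],[[[]],[],[]],
[[[]],[],[[]]],[[[]],[],[[]]]]],[[[[[]],[[]],[]],[],[[[]],[],[[]]],[[[]],[],[[]]]],[[[],[]],[[],
[],[]],[[]],[],[[]]],[[[[]],[[]],[]],[[[]],[[]]],[[],[]],[[],[]],[[],[[]],[[]]]],[[[],[],[]],[[],
[]],[[]],[[]],[[]]],[[[[]],[],[[]]],[[],[]],[[[]],[[]]],[[]],[[[]],[],[[]]]],[[[[]],[],[[]]],[[],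
[]],[[[]],[[]]],[[]],[[[]],[],[[]]]],[[[],[],[]],[[],[],[]],[[]]]]],
[[[[[[341800306620822743842816]],[[47524667435662990639104]],[]],[[],[],[]],
[[[42948633020262290554880]],[[]],[[453366214603296884129792]]],[[[419156295338352131047424]],
[[]],[[47522380438280879210496]]],[[]]],[[],[],[],[],[[]]],[[[[56671875439900775415808]],
[[416177137303995402944512]],[]],[[[5912764797879068917760]],[[66562878242300638797824]]],[],[],
[[],[[47597213093836115161088]],[[5313108258494653432832]]]],[[[],[],[]],[],[],[],[[],[],[]]],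
[[[[5322764011263328518144]],[[]],[[61466858803464877113344]]],[],[[[47668784316912698392576]],
[[6521795547554404925440]]],[],[[[417985075920699656339456]],[],[[811747678066552864768]]]],
[[[[886634099952954900480]],[[]],[[453993548124692091502592]]],[],[[[453384656810769238917120]],
[[42502506731236693639168]]],[],[[[61395413144620547452928]],[],[[5313387552040432992256]]]],
[[[]],[],[[],[],[]]]],[[[[[]],[[]],[]],[],[[[]],[],[[]]],[[[]],[],[[]]],[]],[[],[[[]],[[]],[[]]],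
[],[],[[[]],[[]],[[]]]],[[[[]],[[]],[]],[[[]],[[]]],[],[],[[],[[]],[[]]]],[[[[]],[[]],[[]]],[[[]],
[[]]],[],[],[[[]]]],[[[]],[],[[[]],[[]]],[],[[[]]]],[[[]],[],[[[]],[[]]],[],[[[]]]],[[[[]],[[]],
[[]]],[[],[[]],[[]]],[[[]],[[]],[[]]],[[[]]],[[[]]]]],[[[[[892380683933493231616]],
[[83735533975110680576]],[]],[],[[[380796151603631455469568]],[[]],[[815170959069147037696]]],
[[[56892083429901031440384]],[[]],[[129426768312013946880]]],[[]]],
[[[[34079557832856417981169664]],[[3952845675643731872841728]],[]],[[],[],[]],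
[[[56896677119176485109760]],[[]],[[101468495492174315520]]],[[[7092919499665172332544]],[[]],
[[664156542036359512064]]],[[],[],[]]],[[[]],[[[]],[[]]],[[[]]],[[[]]]],[[],
[[[3324694822601971912933376]],[[528933004604410148618240]]],[[[21762482338390457530187776]],
[[16249282543446654976]]],[[[3022391795925409207943168]],[[92533246045506764800]]],[[],[],[]]],
[[[],[],[[]]],[[],[[]]],[[[]],[[]]],[[[]],[[]]],[[],[],[[]]]],[[[],[],[[]]],[[],[[]]],[[[]],[[]]],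
[[[]],[[]]],[[],[],[[]]]],[[[]],[[],[[532475225358084492820480]],[[52388753195723490877440]]],[[],
[],[]],[[[3031834276246776722227200]],[],[[342409330441375673483264]]],
[[[341246465095435901009920]],[],[[3934178614619043529490432]]]]],[[[],[[[]],[[]],[[]]],[],[],
[[[]],[[]],[[]]]],[[[[]],[[]],[]],[],[[[]],[],[[]]],[[[]],[],[[]]],[]],[[[[]],[[]],[]],[[],[],[]],
[[[]],[],[[]]],[[[]],[],[[]]],[]],[[[[]],[[]],[[]]],[[],[],[[]]]],[[[[]],[],[[]]],[[[]],[],[[]]],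
[],[[],[[]]]],[[[[]],[],[[]]],[[[]],[],[[]]],[],[[],[[]]]],[[[[]],[[]],[[]]],[[[]]],[],[[],[[]]],
[[],[[]]]]],[[[[[377808055856946707693568]],[[56671964667607945052160]],[]],
[[[56893272115974120669184]],[[5368585744899760979968]]],[],[],[[],[[120635742337737162752]],
[[12701017644627918848]]]],[[[]],[[[]],[]],[[[]]],[[]]],[[[[3338939184393670417186816]],
[[531856678364476528918528]],[]],[[],[],[]],[[[5949374453181315022848]],[],
[[814071517746765234176]]],[[[742554650124914524160]],[],[[5341066639582294966272]]],[[]]],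
[[[[528951318386741992226816]],[[61765537240136380841984]],[]],[[],[],[]],[[[1]],[],
[[129861509694495916032]]],[[[1589773425837080576]],[],[[742501161148729524224]]],[[]]],[[[[]],
[[]],[[]]],[[],[],[]],[[[]],[],[[]]],[[[]],[],[[]]],[[],[[]]]],[[[[]],[[]],[[]]],[[],[],[]],[[],
[],[[]]],[[[]],[],[[]]],[[],[[]]]],[[[],[[61834639632724207337472]],[[7702391743339825201152]]],
[[]],[[]],[[[343561966179036797337600]],[[47302136956191274958848]]],
[[[3948273152927801553190912]],[[416804326461755579432960]]]]],[[[[[]],[[]],[[]]],[],[],[],[[[]],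
[],[]]],[[],[[[]],[[]]],[[[]],[[]]],[[[]],[[]]],[[],[],[]]],[[[[]],[[]],[[]]],[[],[],[[]]],[[],[],
[]],[[],[],[]],[]],[[[[]],[[]],[]],[[],[],[]],[[[]],[],[[]]],[[[]],[],[[]]],[[]]],[[[[]],[[]],[]],
[[],[],[]],[[[]],[],[[]]],[[[]],[],[[]]],[[]]],[[[[]],[[]],[]],[[],[],[]],[[[]],[],[[]]],[[[]],[],
[[]]],[[]]],[[[[]],[[]],[[]]],[],[[[]]],[[[]]],[[[]]]]],[[[[[56673046661680085336064]],[[]],
[[417948173426435171549184]]],[],[[[494123723747375003467776]],[[66265425338464003948544]]],[],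
[[[15078051625519284224]],[],[[7711320025095815102464]]]],[[[[]],[],[[]]],[[],[[]]],[[[]],[[]]],
[[[]],[[]]],[[],[],[[]]]],[[[[381340609810500990009344]],[[]],[[193744757972580214725672960]]],
[[[56893272670403949494272]],[],[[29204304149634292815757312]]],[[],[],[]],[[],
[[7102728341818127155200]],[[13908250759785349120]]],[[],[]]],[[[[]],[[]],[[]]],[[],[],[]],[[[]],
[],[[]]],[[[]],[],[[]]],[[],[[]]]],[[[[3636372109340878245199872]],[[29204304149634292815757312]],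
[]],[[],[],[]],[[[494133235243650650210304]],[],[[3041282522574719682625536]]],
[[[11637306041363857408]],[],[[26826049320224044349587456]]],[[]]],[[[[]],[],[]],[[],[],[]],[[[]],
[],[]],[[],[],[[]]],[[],[],[[]]]],[[[[7102728341818127155200]],[],
[[251787364484163996727902208]]],[[],[]],[[[251787359892189747968212992]],
[[26826049320224044349587456]]],[[]],[[[418575655352272913694720]],[],
[[194660668844703255867949056]]]]],[[[[[340057375251448184438784]],[[]],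
[[61393161599757194362880]]],[],[[[61391971813892296802304]],[[6493258560533574975488]]],[],
[[[83305476528409673728]],[],[[10449213428567375872]]]],[[[],[],[[]]],[[],[[]]],[[[]],[[]]],[[[]],
[[]]],[[],[],[[]]]],[[[[2720457795051281222991872]],[[]],[[29165390893917132206112768]]],
[[[380741673632068196663296]],[],[[2720304456764189970808832]]],[[],[],[]],[[],
[[61763248294563597516800]],[[8264143738676141096960]]],[[],[]]],[[[[]],[[]],[[]]],[[],[],[]],[[],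
[],[[]]],[[[]],[],[[]]],[[],[[]]]],[[[[341191559493555295617024]],[[2748712514695019624398848]],
[]],[[],[],[]],[[[61615693486875434811392]],[],[[456907692334492378202112]]],
[[[8310841424665431244800]],[],[[4240908841031442386649088]]],[[]]],[[[[]],[],[]],[[],[],[]],
[[[]],[]],[],[[],[],[[]]]],[[[[741420007109913739264]],[],[[26710332606559450539491328]]],[[],[]],
[[[26825412331161442914041856]],[[4231536724954916702912512]]],[[]],
[[[3046222772934679589814272]],[],[[29017171438210308829609984]]]]],[[[[[]],[[]],[[]]],[],[[[]],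
[],[]]],[[[]],[[],[[]],[[]]],[[],[],[]],[[[]],[],[[]]],[[[]],[],[[]]]],[[[[]],[[]],[[]]],[[[]]],
[],[[],[]],[[],[]]],[[[],[[]],[[]]],[[]],[[]],[[[]],[[]]],[[[]],[[]]]],[[[[]],[],[]],[],[[[]]],
[[]],[[]]],[[[[]],[]],[[],[]],[[[]],[]],[],[[],[],[[]]]],[[[[]],[]],[[],[]],[[[]],[]],[],[[],[],
[[]]]]]],[[[[[[]],[[]],[[]]],[[],[[]],[[]]],[[[]],[[]],[[]]],[[[]],[],[[]]],[[[]],[],[[]]]],[[],
[[],[[]],[[]]],[],[[[]],[],[[]]],[[[]],[],[[]]]],[[[[]],[[]],[[]]],[[[]]],[],[[],[[]]],[[],[[]]]],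
[[[],[[]],[[]]],[],[],[[[]],[[]]],[[[]],[[]]]],[[[[]],[[]],[[]]],[],[[[]]],[[[]],[[]]],[[[]],
[[]]]],[[[[]],[],[[]]],[],[[[]],[[]]],[],[[],[],[[]]]],[[[[]],[],[[]]],[],[[[]],[[]]],[],[[],[],
[[]]]]],[[[[[]],[[]],[[]]],[],[[[]],[],[[]]],[[],[],[[]]],[[],[],[[]]]],[[],[[[]],[[]],[[]]],[],
[[[]],[],[[]]],[[[]],[[]],[[]]]],[[[]],[[[]]],[],[[],[]],[[],[[]]]],[[[[]],[[]],[[]]],[[[]]],[],
[[[]],[[]]],[[[]],[[]]]],[[[],[],[]],[],[[[]]],[[]],[[]]],[[[[]],[],[[]]],[[],[]],[[[]],[[]]],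
[[]],[[[]],[],[[]]]],[[[[]],[[]],[[]]],[[],[[]]],[[[]],[[]]],[[]],[[[]],[],[[]]]]],[[[[[]],[[]],
[[]]],[[],[[]],[[]]],[[[]],[[]],[[]]],[[[]],[],[[]]],[[[]],[],[[]]]],[[[[]],[[]],[[]]],[[],[[]],
[[]]],[[[]],[[]],[[]]],[[[]],[],[[]]],[[[]],[],[[]]]],[[]],[[[],[[]],[[]]],[[[]]],[[[]]],[[[]],
[[]]],[[[]],[[]]]],[[]],[[[[]],[],[[]]],[[],[[]]],[[[]],[[]]],[[[]],[[]]],[[],[],[[]]]],[[[[]],[],
[[]]],[[],[[]]],[[[]],[[]]],[[[]],[[]]],[[],[],[[]]]]],[[[],[[[]],[[]],[[]]],[],[[[]],[],[[]]],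
[[[]],[[]],[[]]]],[[[[]],[[]],[[]]],[],[[[]],[],[[]]],[[],[],[[]]],[[],[],[[]]]],[[[],[[]],[[]]],
[[],[],[]],[[[]],[],[[]]],[]],[[[[]],[[]],[[]]],[[],[[]],[[]]],[[],[[]],[[]]],[[],[],[]],[[],[],
[]]],[[[[]],[],[]],[[[]],[],[]],[]],[[[[]],[],[[]]],[[[]],[],[[]]],[[],[],[]],[[],[[]],[[]]],[[],
[]]],[[[[]],[[]],[[]]],[[[]],[],[[]]],[[],[],[]],[[],[[]],[[]]],[[],[]]]],[[[[[]],[[]],[[]]],
[[[]]],[],[[],[[]]],[[],[[]]]],[],[[[[]],[[]],[[]]],[[],[[]],[[]]],[[[]],[[]],[[]]],[[[]],[],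
[[]]],[[[]],[],[[]]]],[[[[]],[],[]],[[],[],[]],[[[]],[],[]],[[[]],[],[[]]],[[[]],[],[[]]]],[[]],
[[[[]],[[]],[[]]],[[],[],[]],[[[]],[],[[]]],[[[]],[],[[]]],[[[]],[[]]]],[[[[]],[[]],[[]]],[[],[],
[]],[[[]],[],[[]]],[[[]],[],[[]]],[[[]],[[]]]]],[[[[[]],[[]],[[]]],[],[],[[[]],[[]]],[[[]],[[]]]],
[[],[[[]]],[[[]]],[[[]],[[]]],[[[]],[]]],[[[[]],[[]],[[]]],[[],[[]],[[]]],[[],[[]],[[]]],[[],[],
[]],[[],[],[]]],[[[[]],[],[]],[[],[],[]],[[[]],[],[]],[[],[],[[]]],[]],[[[[]],[],[]],[[],[],[]],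
[[[]]]],[[[[]],[[]],[]],[[],[],[]],[[[]],[],[[]]],[[[]],[],[[]]],[[]]],[[[[]],[[]],[]],[[],[],[]],
[[[]],[],[[]]],[[[]],[],[[]]],[[]]]],[[[[[]],[[]],[[]]],[],[[[]]],[[[]]],[[[]]]],[],[[[[]],[[]],
[[]]],[[[]],[[]],[[]]],[[],[[]],[[]]],[[],[[]],[[]]],[[],[[]],[[]]]],[[]],[[[[]],[],[]],[[],[],
[]],[[[]],[],[]],[[[]],[],[[]]],[[[]],[],[[]]]],[[[[]],[],[]],[[],[],[]],[[[]],[],[]],[[[]],[],
[[]]],[[[]],[],[[]]]],[[[[]],[],[]],[[],[],[]],[[[]],[],[]],[[[]],[],[[]]],[[[]],[],[[]]]]],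
[[[[[]],[[]],[[]]],[],[[[]],[[]]],[],[[[]],[],[[]]]],[[[],[],[[]]],[[],[[]]],[[[]],[[]]],[[[]],
[[]]],[[],[],[[]]]],[[[[]],[[]],[[]]],[[[]],[],[[]]],[[],[],[]],[[],[[]],[[]]],[[],[]]],[[[[]],
[[]],[[]]],[[],[],[]],[[],[],[[]]],[[[]],[],[[]]],[[],[[]]]],[[[[]],[[]],[]],[[],[],[]],[[[]],[],
[[]]],[[[]],[],[[]]],[[]]],[[[[]],[],[]],[[],[],[]],[[[]],[]],[],[[],[],[[]]]],[[[[]],[],[[]]],
[[],[]],[[[]],[[]]],[[]],[[[]],[],[[]]]]],[[[[[]],[],[[]]],[],[[[]],[[]]],[],[[[]],[],[[]]]],[[],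
[[],[]],[[]],[[]]],[[[[]],[],[[]]],[[[]],[],[[]]],[[],[],[]],[[],[[]],[[]]],[[],[]]],[[[],[],[]],
[[],[],[]],[[]],[[]]],[[[[]],[[]],[]],[[],[],[]],[[[]],[],[[]]],[[[]],[],[[]]],[[]]],[[[],[],[]],
[[],[],[]],[[]]],[[[[]],[],[[]]],[[],[]],[[[]],[[]]],[[]],[[[]],[],[[]]]]]],
[[[[[[52317308359929128554496]],[],[[5368011711903896338432]]],[[],[]],
[[[341237390233850756628480]],[[42502559362658168483840]],[[]]],[[]],[[[47521136609018539671552]],
[[]],[[7729769158984083736576]]]],[[],[],[],[[]]],[[[[341246762294536984068096]],[],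
[[737977875797561573376]]],[[[47228277939756105203712]],[],[[7084270443757031292928]]],[],[[],
[[7130105755872968835072]],[[960491721723156103168]]]],[[[],[]],[],[],[[],[],[]]],
[[[[13889972478535270400]],[[1878002144131416064]],[[]]],[],[[[7139610710089314336768]],[],
[[1036585952937509388288]]],[[[42575176546678330359808]],[],[[110968766887960444928]]]],[[[]],[],
[[],[],[]]],[[[[27130466863677440]],[[]],[[666388643206972047360]]],[],
[[[61393106993609632382976]],[[5949219256530936791040]],[]],[],[[[531903074483021805518848]],[],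
[[966148225400386355200]]]]],[[[[[]],[],[[]]],[],[[[]],[[]],[]],[],[[[]],[],[[]]]],[[],[[[]],[[]],
[[]]],[],[[[]],[[]],[[]]]],[[[[]],[],[[]]],[[[]],[],[[]]],[],[[],[[]],[[]]]],[[[[]],[[]],[[]]],
[[[]],[],[[]]],[],[[[]]]],[[[]],[],[[[]],[],[[]]],[[[]]]],[[[[]],[[]],[[]]],[[],[[]],[[]]],[[[]],
[],[[]]],[[[]]]],[[],[],[[[]]],[],[[[]]]]],[[[[[110980027537111908352]],[],[[1]]],[],
[[[3352954026432225009991680]],[[22695577988890624]],[[]]],[[]],[[[5322763869443642621952]],[[]],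
[[1038874058693881102336]]]],[[[[3943326002212839700299776]],[],[[341781567142781446520832]]],[[],
[],[]],[[[341837055854694002327552]],[[3957792771198319153119232]],[[]]],[[],[],[]],
[[[16231540480205127680]],[[]],[[21950158942926201830768640]]]],[[[]],[[],[],[[]]],[[]],[],
[[[]]]],[[],[[[528933013612700853338112]],[],[[57042000111571321487360]]],
[[[3022464483746455475978240]],[],[[531312783068501605613568]]],[[],[],[]],
[[[531321718384985192267776]],[[3027264113690006031171584]],[]]],[[[[]],[[]],[]],[[],[],[[]]],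
[[[]],[],[[]]],[[[]],[],[[]]],[[[]],[[]],[[]]]],[[[]],[[],[[47297488700412868427776]],
[[6511993499240995225600]]],[[],[],[]],[[[418557494479006487019520]],[],
[[3655185481889895588823040]]],[[[42651215881480494383104]],[],[[33890708849154640576512000]]]],
[[[],[],[[]]],[[],[[]]],[[[]],[[]]],[[[]],[[]]],[[],[],[[]]]]],[[[],[[[]],[[]],[[]]],[],[[[]],
[[]],[[]]]],[[[[]],[],[[]]],[],[[[]],[[]],[]],[],[[[]],[],[[]]]],[[[[]],[],[[]]],[[],[]],[[[]],
[[]]],[[]],[[[]],[],[[]]]],[[[[]],[[]],[[]]],[[],[[]]]],[[[[]],[[]]],[[[]],[[]]],[],[[],[]],[[],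
[[]]]],[[[[]],[[]],[[]]],[[[]]],[],[[],[]],[[],[[]]]],[[[[]],[],[[]]],[[[]],[],[[]]],[]]],
[[[[[3338792728736768368574464]],[],[[8292532251495172669440]]],[[[531884641320106727571456]],[],
[[966203979294239096832]]],[],[[],[[2560011028922368]],[[316685395427328]]]],[[[]]],
[[[[380196765310418841305088]],[],[[812900603903657639936]]],[[],[]],[[[56892136923059391037440]],
[[530713700910642273189888]]],[[]],[[[1598815285874262016]],[],[[3655114000756543340937216]]]],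
[[[[47522309242566584827904]],[],[[2017827081452257280]]],[[],[]],[[[494695996083287925719040]],
[[61470369904459483709440]]],[[]],[[[11637306041363857408]],[],[[342408900486124493864960]]]],
[[[],[],[[]]],[[],[]],[[[]],[[]]],[[],[[]]],[[[]],[[]],[[]]]],[[[],[[8264724772846796046336]],
[[47223718880826603089920]]],[[]],[[]],[[[3636447065854155975294976]],
[[342999049790981937299456]]],[[[33926680571878496503070720]],[[3938899919118537037185024]]]],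
[[[[]],[[]],[[]]],[[],[],[]],[[],[],[[]]],[[[]],[],[[]]],[[],[[]]]]],[[[[[]],[[]],[[]]],[],[],
[[[]],[],[]]],[[],[[[]],[],[[]]],[[[]],[],[[]]],[[],[],[]],[[[]],[[]],[]]],[[[[]],[[]],[[]]],[[],
[[]]],[[],[]],[],[[],[],[]]],[[[[]],[],[[]]],[[],[]],[[[]],[[]]],[[]],[[[]],[],[[]]]],[[[[]],[],
[[]]],[[],[]],[[[]],[[]]],[[]],[[[]],[],[[]]]],[[[[]],[],[[]]],[],[[[]]],[[]],[[[]]]],[[[[]],[[]],
[]],[[],[],[]],[[[]],[],[]],[[],[],[[]]],[]]],[[[[[5912472101286423035904]],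
[[42871495941707528142848]],[[]]],[],[[[3655484106019764707524608]],[],
[[7130540424670769840128]]],[[[111547585491686653952]],[],[[743707554105048956928]]]],[[[[]],[[]],
[]],[[],[],[[]]],[[[]],[],[[]]],[[[]],[],[[]]],[[[]],[[]],[[]]]],[[[[3636596999407211556110336]],
[[29165390893917132206112768]],[[]]],[[[341191559493555295617024]],[[2748712514695019624398848]]],
[[],[]],[[],[]],[[],[[892416132258165948416]],[[27130466863677440]]]],[[[],[],[[]]],[[],[]],[[[]],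
[[]]],[[],[[]]],[[[]],[[]],[[]]]],[[[[455118797119052933300224]],[],
[[3022757272328315599589376]]],[[],[]],[[[57037423873877600108544]],[[456907692334492378202112]]],
[[]],[[[6549317046510022557696]],[],[[3929085115519798970679296]]]],[[[[61763248294563597516800]],
[],[[26597576595141724941221888]]],[[],[]],[[[26749864260549786696941568]],
[[4240908841031442386649088]]],[[]],[[[66562879377132969000960]],[],
[[29017171438210308829609984]]]],[[[[]],[],[]],[[],[],[]],[[[]],[],[]],[[],[],[[]]],[[],[],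
[[]]]]],[[[[[]],[[]],[[]]],[],[[[]],[],[]]],[[[]],[[],[[]],[[]]],[[],[],[]],[[[]],[],[[]]],[[[]],
[],[[]]]],[[[[]],[[]],[[]]],[[[]]],[],[[],[]],[[],[]]],[[[],[[]],[[]]],[[]],[[]],[[[]],[[]]],
[[[]],[[]]]],[[[[]],[],[]],[],[[[]]],[[]],[[]]],[[[[]],[]],[[],[]],[[[]],[]],[],[[],[],[[]]]],
[[[[]],[]],[[],[]],[[[]],[]],[],[[],[],[[]]]]],[[[[[744860484407794860032]],[[]],
[[31435613521868730637746176]]],[],[[[5331550497818219118592]],[[3343805577404396198690816]]],[],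
[[[52097136376604579069952]],[],[[494724103117247583617024]]]],[[[],[],[[]]],[[],[[]]],[[[]],
[[]]],[[[]],[[]]],[[],[],[[]]]],[[[[531893711355351759060992]],[[]],
[[175299120757540759858585600]]],[[[61614468507505167695872]],[],[[24407588069313263047802880]]],
[[],[],[]],[[],[[491145142034071396810752]],[[52245863523583905234944]]],[[],[]]],[[[[]],[[]],
[[]]],[[],[],[]],[[],[],[[]]],[[[]],[],[[]]],[[],[[]]]],[[[[57118110386722061156352]],
[[24407588069313263047802880]],[]],[[],[],[]],[[[341191422029863353057280]],[],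
[[2729531359046804499857408]]],[[[57114616143578243530752]],[],[[31584396164071808466681856]]],
[[]]],[[[[]],[],[]],[[],[],[]],[[[]],[]],[],[[],[],[[]]]],[[[[491145142034071396810752]],[],
[[271115783301258985855516672]]],[[],[]],[[[271101989857299542596124672]],
[[31584396164071808466681856]]],[[]],[[[24178516392469106922618880]],[],
[[175615518122656849291378688]]]]]]] : List (List (List (List (List (List (List (ℕ))))))))

end Pool.Agent.Helper26.WD
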