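import Pool.Agent.Helper26.WD.AlgP

/-!
# Intermediate states of the computation for the Whitehead double
-/

namespace Pool.Agent.Helper26.WD

/-- State number 16. -/
def wst16 : L ℕ 7 := (
[[[[[[[34077786366710581586558976]],[[]],[[52248098434623001853952]]],[[[]],[[]],[[]]],
[[[14952315657986934435364208640]],[[21761301179351878797885440]],[[]]],[[[]],[[]],[[]]],
[[[1395138811189035007117099008]],[[]],[[3338714329494049313521664]]]],[],
[[[[3929012426845805499908096]],[[]],[[33890081954838611228622848]]],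
[[[1397557843561714269496016896]],[],[[193428353652217723470741504]]],[[],[],[[]]],[[],
[[3641096744797730263531520]],[[530086365177528291688448]]],[[],[[]]]],[[[[]],[[]],[[]]],[[],[],
[]],[[[]]],[[[]]],[[[]]]],[[[[21761882965610741037531136]],[[47449711194651809284096]],[[]]],[[],
[],[]],[[[233341649917003364441260032]],[],[[6502628368226128691200]]],
[[[342417695875991823450112]],[],[[1035396421952061571072]]],[[[]]]],[[[[]],[[]],[[]]],[[],[]],
[[[]]],[[[]]],[[[]]]],[[[[3045933318120524279185408]],[[]],[[6539810018623471222784]]],[[],[]],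
[[[21951966712481397174435840]],[[1036586221282872786944]]],[[[]]],[[[66117832518191393275904]],
[],[[101603600139651383296]]]]],[[[[[]],[],[[]]],[[],[]],[[[]],[[]]],[[]],[[[]],[],[[]]]],[[[[]],
[],[[]]],[[[]],[[]],[[]]],[[[]],[[]]],[[[]],[],[[]]],[[[]],[],[[]]]],[[[[]],[],[[]]],[[[]],[],
[[]]],[[],[],[]],[[],[[]],[[]]],[]],[[[[]],[[]],[[]]],[[[]],[],[[]]],[[[]]],[[[]]],[[[]]]],[[[[]],
[[]],[]],[[],[],[]],[[[]],[],[[]]],[[[]],[],[[]]],[[]]],[[[[]],[[]],[[]]],[[],[[]],[[]]],[[[]],[],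
[[]]],[[[]],[],[[]]],[[[]]]],[[[[]],[],[[]]],[],[[]],[[]],[[]]]],
[[[[[252996141614358221669007360]],[[]],[[29053225887593653495398400]]],[[[]],[[]],[[]]],
[[[89596139378344371343388049408]],[[11219464705216760705501364224]],[[]]],[[[]],[[]],[[]]],
[[[13676884904569762324536623104]],[[]],[[2019098002522372205763887104]]]],
[[[[26597576592783263783714816]],[[]],[[2739341531823900745007104]]],[[[]],[[]],[[]]],
[[[12457985662430135718876020736]],[[1562010705907952663985815552]],[[]]],[[[]],[[]],[[]]],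
[[[2166547392885044277873213440]],[[]],[[213399097393063387041366016]]]],[[],[[],[],[]],[[],[],
[[]]],[[],[],[]],[[],[[]],[]]],[[],[[[233327776793394148219551744]],[],
[[21915341573638852182016000]]],[[[21762491566405689576259584]],[],
[[194948961533222563727015936]]],[[],[],[]],[[[3041653673794220209471488]],
[[29091576526729910631268352]],[]]],[[],[[],[],[[]]],[[],[],[]],[[],[],[]],[[[]],[],[]]],[[],[[],
[[379025973486731103567872]],[[56822890415427404169216]]],[[],[],[]],[[[57112363208720649289728]],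
[],[[2166622379052860902985433088]]],[[[83589202755438247936]],[],
[[252694127952692656648224768]]]],[[],[[],[[]],[]],[[],[]],[[[]],[],[]],[[],[],[]]]],[[[],[[[]],
[[]],[[]]],[[[]],[[]]],[[[]],[],[[]]],[[[]],[],[[]]]],[[[[]],[],[[]]],[[],[]],[[[]],[[]]],[[]],
[[[]],[],[[]]]],[[[[]],[],[[]]],[],[[[]],[[]]],[[]],[[[]],[],[[]]]],[[[[]],[[]],[[]]],[[[]],[[]],
[[]]]],[[[[]],[[]],[]],[[[]],[[]],[]],[],[[]],[[],[[]],[[]]]],[[[[]],[[]],[[]]],[[[]],[[]],[[]]],
[],[[]],[[],[[]],[[]]]],[[[[]],[],[[]]],[[],[],[]],[]]],[[[[[532502737709644262670336]],[[]],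
[[271710805046345575957790720]]],[[[12458282955994297344395313152]],[],
[[2166546774772821756395847680]]],[[],[],[[]]],[[],[[1868999963494381791955910656]],
[[213687453492832460211748864]]],[[],[[]]]],[[],[[],[],[]],[[],[],[[]]],[[],[],[]],[[],[[]],[]]],
[[[[3353181115935232459014144]],[[]],[[31622146574427219529039872]]],[[[]],[[]],[[]]],
[[[1395176544138972029071228928]],[[174689857046849939365953536]],[[]]],[[[]],[[]],[[]]],
[[[213989690730929919229689856]],[[]],[[31547816270433480597307392]]]],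
[[[[21761882672980660785774592]],[],[[3929158794977115211563008]]],[],
[[[16191459901896382444866895872]],[[29242093165093064638726144]],[]],[[]],
[[[1397558397538209166843183104]],[],[[3050729470752653114867712]]]],[[[],[],[[]]],[],[[]],[[]],
[[[]]]],[[[],[[52245792618348885835776]],[[380196765136713196503040]]],[],[[]],
[[[1716675844590833160121483264]],[[252065760405277582167900160]],[]],
[[[232430531809372253380935680]],[[26787070773532777798172672]],[]]],[[[],[[]],[]],[],[[]],[[[]]],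
[[]]]],[[[[[]],[[]],[[]]],[[],[],[]],[[[]],[],[[]]],[[[]],[[]],[[]]],[[[]],[[]]]],[[],[[[]],[],
[[]]],[[]],[[]],[[]]],[[[[]],[[]],[[]]],[[[]],[[]],[[]]],[[],[[]],[[]]],[],[[],[[]],[[]]]],[[],[],
[[]],[[]],[[]]],[[[[]],[],[[]]],[],[[[]],[[]],[]],[[]],[[[]]]],[[[[]],[[]],[[]]],[],[[[]],[[]],
[[]]],[[[]]],[[[]]]],[[[[]],[[]]],[],[[[]],[],[[]]],[[[]]]]],[[[[[253298374150121462301720576]],
[[31471086173804582580355072]],[[]]],[[],[],[]],[[[139277925881941637281712439296]],[],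
[[3929088501382220859322368]]],[[[17408541543539344973162872832]],[],
[[341781997237637325389824]]],[[[]]]],[[],[[],[],[[]]],[[]],[[]],[[[]]]],
[[[[139270823977988349463294377984]],[[17409141209197663499625955328]],[[]]],
[[[16152467324117682815542493184]],[[2018907899732137195111186432]],[[]]],[[],[[]],[[]]],[[],[[]],
[[]]],[[],[[531912304467503881453568]],[[56967059079140386013184]]]],[[],[],[[]],[[]],[[]]],
[[[[13656649782073975971076112384]],[],[[2168853069871310024023769088]]],[],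
[[[89293831830335359420647604224]],[[252665574716151872442597376]],[]],[[]],
[[[52173194011811387015168]],[],[[34001048332521433383043072]]]],[[[[33929069287910346984521728]],
[],[[12380316828253731386120994816]]],[],[[[11181662302195545817464438784]],
[[1864390896181814739496599552]],[]],[[]],[[[29206683779582950518030336]],[],
[[193758776434096633301434368]]]],[[[[]],[],[]],[],[[[]]],[[]],[[]]]],[[[[[]],[[]],[[]]],[[],[],
[]],[[[]],[[]],[[]]],[[[]],[],[[]]],[[[]],[],[[]]]],[[],[[],[[]],[[]]],[[]],[[]],[[]]],[[[[]],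
[[]],[[]]],[[[]],[[]],[[]]],[],[[],[[]],[[]]],[[],[[]],[[]]]],[[],[],[[]],[[]],[[]]],[[[[]],[[]],
[[]]],[],[[[]],[[]],[[]]],[[[]]],[[[]]]],[[[[]],[],[[]]],[],[[[]],[[]],[]],[[]],[[[]]]],[[[[]],[],
[[]]],[],[[[]],[[]],[]],[[]],[[[]]]]],[[[[[21952566670763664804413440]],[[]],
[[66489020057305656328192]]],[[],[]],[[[14952325327558434738795446272]],
[[24369238150755179143823360]]],[[[]]],[[[1557212172967630907312701440]],[],
[[3041505000664592604987392]]]],[[],[[],[[]],[]],[[]],[[[]]],[[]]],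
[[[[14952306217901960385513127936]],[[]],[[1554869915216420424812331008]]],
[[[1397745530679725265294393344]],[[]],[[233639156698741461703720960]]],[[],[[]],[[]]],[[],
[[2739419949063356332400640]],[[456317108363611271626752]]],[[],[[]],[[]]]],[[],[],[[]],[[]]],
[[[[2173875297546514175973392384]],[[252070925493618289512022016]],[]],[],
[[[13734908469286219106692890624]],[],[[33851159171582698914316288]]],
[[[31661115312275765535506432]],[],[[3353175440832559006613504]]],[[]]],[[[[]],[],[]],[],[[[]]],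
[[]],[[]]],[[[[3036927830523636789280768]],[],[[1395177752263346345675325440]]],[],
[[[2014298316221447069270802432]],[[194646796912573005430784000]],[]],[[]],
[[[3938829518550029405257728]],[],[[24181486764155920082534400]]]]]],[[[[[[]],[[]],[[]]],[[[]],
[[]]],[[[]],[[]],[]],[[[]]],[[[]],[],[[]]]],[[],[[[]],[]],[[[]]],[[]]],[[[[]],[[]],[[]]],[[[]],[],
[[]]],[[],[],[]],[[],[[]],[[]]],[[],[]]],[[[[]],[[]],[]],[[],[],[]],[[[]],[],[[]]],[[],[],[[]]],
[]],[[[[]],[[]],[]],[[],[],[]],[[[]],[],[[]]],[[[]],[],[[]]],[[]]],[[[[]],[],[]],[[],[],[]],[[],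
[],[[]]],[[],[],[[]]],[]],[[[[]],[],[[]]],[[],[]],[[[]],[[]]],[[]],[[[]],[],[[]]]]],[[[[[]],[],
[[]]],[[],[]],[[[]],[[]],[]],[[]],[[[]],[],[[]]]],[[[[]],[],[[]]],[[[]],[[]],[[]]],[[[]],[[]]],
[[[]],[],[[]]],[[[]],[],[[]]]],[[[[]],[],[[]]],[[[]],[],[[]]],[[],[],[]],[[],[[]],[[]]],[[],[]]],
[[[[]],[[]],[[]]],[[[]],[],[[]]],[[[]]],[[[]]],[[[]]]],[[[[]],[[]],[]],[[],[],[]],[[[]],[],[[]]],
[[[]],[],[[]]],[[]]],[[[[]],[[]],[[]]],[[],[[]],[[]]],[[[]],[],[[]]],[[[]],[],[[]]],[[[]]]],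
[[[[]],[],[[]]],[],[[[]]],[[]],[[[]]]]],[[[[[]],[[]],[[]]],[[[]],[[]],[[]]],[[[]],[[]],[]],[[[]],
[[]],[[]]],[[[]],[],[[]]]],[[[[]],[[]],[[]]],[[[]],[[]],[[]]],[[[]],[[]],[]],[[[]],[[]],[[]]],
[[[]],[],[[]]]],[[],[[],[],[]],[[],[],[]],[[],[]],[[],[]]],[[],[[[]],[[]],[[]]],[[[]],[],[[]]],
[[[]],[],[[]]],[[[]],[[]],[]]],[[],[[],[],[]],[[]],[[]],[[]]],[[],[[[]],[[]],[[]]],[[[]],[],[[]]],
[[[]],[],[[]]],[[[]],[],[[]]]],[[],[[],[]],[[]],[[]]]],[[[],[[[]],[[]],[[]]],[[[]],[[]]],[[[]],[],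
[[]]],[[[]],[],[[]]]],[[[[]],[],[[]]],[[],[]],[[[]],[[]],[]],[[]],[[[]],[],[[]]]],[[[[]],[],[[]]],
[[],[]],[[[]],[[]],[]],[[]],[[[]],[],[[]]]],[[[[]],[[]],[[]]],[[[]],[[]],[[]]]],[[[[]],[[]],[]],
[[[]],[[]],[]],[],[[]],[[],[[]],[[]]]],[[[[]],[[]],[[]]],[[[]],[[]],[[]]],[],[[]],[[],[[]],[[]]]],
[[[[]],[],[[]]],[[],[],[]],[]]],[[[[[]],[[]],[[]]],[[[]],[],[[]]],[[],[],[]],[[],[[]],[[]]],[[],
[]]],[[],[[],[],[]],[[],[],[]],[[],[]],[[],[]]],[[[[]],[[]],[[]]],[[[]],[[]],[[]]],[[[]],[[]],[]],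
[[],[[]],[[]]],[[[]],[],[[]]]],[[[[]],[[]],[[]]],[],[[[]],[[]],[]],[[[]],[[]],[]],[[[]],[],[[]]]],
[[[],[],[]],[],[[]],[[]],[[]]],[[[[]],[[]],[[]]],[],[[[]],[[]],[]],[[[]],[[]],[]],[[[]],[[]],[]]],
[[[],[]],[],[[]],[[]]]],[[[[[]],[[]],[[]]],[[],[],[]],[[[]],[],[[]]],[[[]],[[]],[[]]],[[[]],
[[]]]],[[],[[[]],[],[[]]],[[[]],[],[[]]],[[],[],[]],[[[]],[[]],[]]],[[[[]],[[]],[[]]],[[[]],[[]],
[[]]],[[],[[]],[[]]],[],[[],[[]],[[]]]],[[[[]],[],[[]]],[],[[[]],[[]],[]],[[]],[[[]],[],[[]]]],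
[[[[]],[],[[]]],[],[[[]],[[]],[]],[[]],[[[]],[],[[]]]],[[[[]],[[]],[[]]],[],[[[]],[[]],[[]]],
[[[]],[],[[]]],[[[]],[],[[]]]],[[[[]],[[]],[]],[],[[[]],[],[[]]],[[[]],[],[[]]],[[]]]],[[[[[]],
[[]],[]],[[],[],[]],[[[]],[],[[]]],[[[]],[],[[]]],[[]]],[[],[[],[],[]],[[]],[[]],[[]]],[[[[]],
[[]],[]],[[[]],[[]],[]],[[],[[]],[[]]],[[],[[]],[[]]],[[],[[]],[[]]]],[[[],[],[]],[],[[]],[[]],
[[]]],[[[[]],[[]],[[]]],[],[[[]],[[]],[]],[[[]],[],[[]]],[[[]],[],[[]]]],[[[[]],[[]],[[]]],[],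
[[[]],[[]],[]],[[[]],[],[[]]],[[[]],[],[[]]]],[[[]],[],[[]]]],[[[[[]],[[]],[[]]],[[],[],[]],[[[]],
[[]],[[]]],[[[]],[],[[]]],[[[]],[],[[]]]],[[],[[],[[]],[[]]],[[],[],[]],[[[]],[],[[]]],[[[]],[],
[[]]]],[[[[]],[[]],[[]]],[[[]],[[]],[[]]],[],[[],[[]],[[]]],[[],[[]],[[]]]],[[[],[[]],[[]]],[],
[[]],[[[]],[[]],[]],[[[]],[[]],[]]],[[[[]],[[]],[[]]],[],[[[]],[[]],[[]]],[[[]],[],[[]]],[[[]],[],
[[]]]],[[[[]],[],[[]]],[],[[[]],[[]],[]],[[]],[[[]],[],[[]]]],[[[[]],[],[[]]],[],[[[]],[[]],[]],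
[[]],[[[]],[],[[]]]]],[[[[[]],[],[[]]],[[],[]],[[[]],[[]]],[[]],[[[]],[],[[]]]],[[],[[],[]],[[]],
[[]]],[[[[]],[],[[]]],[[[]],[],[[]]],[[]],[[],[[]],[[]]],[[]]],[[[],[]],[],[[]],[[]]],[[[[]],[[]],
[]],[],[[[]],[],[[]]],[[[]],[],[[]]],[[]]],[[[]],[],[[]]],[[[[]],[],[[]]],[],[[[]],[[]],[]],[[]],
[[[]],[],[[]]]]]],[[[[[[42872576814345386983424]],[[]],[[5940146578635895111680]]],[[[]],[[]],
[[]]],[[[417930167824018988630016]],[[47522379870797654130688]],[]],[[[]]],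
[[[3045932254430989648134144]],[],[[455146183510036249116672]]]],[[],[[[]],[[]]],[[[]]],[[]]],
[[[[377808060396281142476800]],[[]],[[4236041152655623027957760]]],[[[66335699502585881821184]],
[],[[456944308816610655732224]]],[[],[],[]],[[],[[5359216144998270566400]],
[[42580868515927799889920]]],[[],[]]],[[[[]],[[]],[[]]],[[],[],[]],[[[]],[],[[]]],[[],[[]],[[]]],
[[[]],[[]]]],[[[[3036708846932683688771584]],[[456944308816610655732224]],[]],[[],[],[]],
[[[7720117910872002756608]],[],[[42797671234640374935616]]],[[[965067383478991978496]],[],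
[[5940153404970749856768]]],[[]]],[[[[]],[[]],[[]]],[[],[],[]],[[[]],[[]],[[]]],[[],[],[[]]],[[],
[],[[]]]],[[[[5359216144998270566400]],[],[[3957719037975085089566720]]],[[],[]],
[[[47522272070344046030848]],[[5940153404970749856768]]],[[]],[[[102191215437282312192]],[],
[[669919452116463132672]]]]],[[[[[491135632682934496919552]],[[]],[[4259651832728665121357824]]],
[[[]],[[]],[[]]],[[[252991418040044035904110592]],[[26712066884157730323562496]],[]],[[[]],[[]],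
[[]]],[[[24179126004184732047278080]],[],[[193433008016026270451630080]]]],[[],[[[]],[[]]],[[[]],
[[]]],[[],[],[[]]],[[],[],[[]]]],[[[[814017487673434832896]],[[]],[[456935220588297150660608]]],
[[[26599946709022827562074112]],[],[[3640944559154516898357248]]],[[],[],[]],[[],
[[3929015905049686040379392]],[[29129383561123236149264384]]],[[],[]]],[[[[]],[[]],[[]]],[[],[],
[]],[[[]],[],[[]]],[[[]],[[]],[[]]],[[[]],[[]]]],[[[[455164200370884835278848]],
[[42874899255720629264384]],[]],[[],[],[]],[[[193740103645636434078728192]],[],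
[[380187838964267315366912]]],[[[29128175017772343518822400]],[],[[56668507306142885482496]]],
[[]]],[[[[]],[[]],[[]]],[[],[],[]],[[[]],[[]],[[]]],[[[]],[],[[]]],[[[]],[],[[]]]],
[[[[51947293177150624759808]],[],[[419110894586294945480704]]],[[],[]],
[[[21802032310876138660593664]],[[4259876705893585920217088]]],[[]],
[[[251759173212084889085018112]],[],[[417939103174604475203584]]]]],[[[[[]],[],[[]]],[[],[]],
[[[]],[[]]],[[]],[[[]],[],[[]]]],[[[[]],[],[[]]],[[],[]],[[[]],[[]]],[[]],[[[]],[],[[]]]],[[],[[],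
[],[[]]],[[],[[]],[]],[[],[[]],[[]]],[[],[],[]]],[[],[[],[],[[]]],[[]],[[]],[[]]],[[[],[[]]],[[],
[[]],[]],[[]],[[[]]],[[]]],[[],[[],[[]],[[]]],[],[[]],[[]]],[[[[]],[],[[]]],[[[]],[],[[]]],[[[]]],
[[]],[[[]]]]],[[[],[[[]],[[]]],[[[]],[[]]],[[],[],[[]]],[[],[],[[]]]],
[[[[66186955471847500283904]],[[]],[[417349232849398337306624]]],[[[]],[[]],[[]]],
[[[33853501766322792488239104]],[[3929163424677461330243584]],[]],[[[]],[[]],[[]]],
[[[2720237658244085697740800]],[],[[21990908509796396574015488]]]],[[[[7692724803530366386176]],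
[[]],[[56965852677733750407168]]],[[[]],[[]],[[]]],[[[3938534387251944494989312]],
[[417957687068468025950208]],[]],[[[]],[[]],[[]]],[[[380796435223197553557504]],[],
[[3036783749974986499555328]]]],[[[[]],[[]],[[]]],[[[]],[[]],[[]]],[[],[[]],[[]]],[],[[],[[]],
[[]]]],[[[[193753981433281686042574848]],[[29130554361883213919584256]],[]],
[[[29203114625054454138798080]],[[2743849436070082474147840]],[]],[[],[[]],[[]]],[[],[[]],[[]]],
[[],[[42652331072004547690496]],[[5940428194341766397952]]]],[[[[]],[[]],[[]]],[[[]],[[]],[[]]],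
[],[[],[[]],[[]]],[[],[[]],[[]]]],[[[[21988556268629567394021376]],[],
[[251768398871383071023169536]]],[[[3036704199222199684452352]],[],
[[26824240814292368193748992]]],[[],[[]],[[]]],[[],[[418529828973148041808384]],
[[66409450463554899550208]]],[[],[[]],[[]]]]],[[[]],[],[[]],[],[[],[],[[]],[[]],[[]]],[],[[],[],
[[]],[[]]]],[[[[[]],[[]],[[]]],[[],[],[]],[[[]],[],[[]]],[[[]],[[]],[[]]],[[[]],[[]]]],[[[],[[]]],
[[[530141133346459371962368]],[[]],[[3650393993297791545262080]]],[[[66559347701870727004160]],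
[[]],[[29203732735163714269873152]]],[[[]],[[]],[[]]],[[[341809237258883559522304]],
[[2725030299744499133599744]],[]]],[[[[]],[[]],[[]]],[[[]],[[]],[[]]],[[],[[]],[[]]],[],[[],[[]],
[[]]]],[[[[52321884311681090453504]],[[]],[[342399683906887116488704]]],[],
[[[21988546619526104410488832]],[[2729606227186077020192768]],[]],[[[]],[[]],[[]]],
[[[3943474657042877734453248]],[],[[453366214603296884129792]]]],[[[[29090377783421255114817536]],
[[]],[[272027277279028992231092224]]],[[],[[]],[[]]],[[[252061477373096463897460736]],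
[[31547235053844785906450432]],[]],[[[]],[],[[]]],[[[418556774114739282378752]],[],
[[4231315400336302121943040]]]],[[[[]],[[]],[[]]],[],[[[]],[[]],[[]]],[[]],[[]]],
[[[[252693831742215043341352960]],[[31435613521694449861689344]],[[]]],[[],[[]],[[]]],
[[[29204341912352867943055360]],[],[[4236117282347944950890496]]],[[[2734623831092033457758208]],
[],[[417376903002333957324800]]],[[[]],[],[[]]]]],[[[[[]],[[]],[]],[[],[],[]],[[[]],[],[[]]],
[[[]],[],[[]]],[[]]],[[[[]],[[]]],[[[]],[[]],[[]]],[[[]],[],[[]]],[[[]],[],[[]]],[[[]],[],[]]],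
[[[[]],[[]],[]],[[[]],[[]],[]],[[]],[[]],[[],[[]],[[]]]],[[[[]],[[]],[[]]],[],[[[]],[[]],[]],
[[[]],[[]],[]],[[[]]]],[[[[]],[],[[]]],[],[[[]],[[]],[]],[[]],[[[]]]],[[[[]],[],[[]]],[],[[[]],
[[]],[]],[[]],[[[]]]],[[[[]],[[]],[[]]],[[],[[]],[[]]],[[[]]],[[[]],[],[[]]],[[[]],[],[[]]]]],
[[[[[]],[[]],[[]]],[[],[],[]],[[[]],[[]],[[]]],[[[]],[],[[]]],[[[]],[],[[]]]],[[[[]]],[[[]],
[[4245633495065980040642560]],[[24330813290288822666559488]]],[[[]],[[]],[[]]],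
[[[491154228153565357015040]],[],[[3027036934660086828113920]]],[[[3641244408518913800798208]],[],
[[455727683893626058997760]]]],[[[[]],[[]],[[]]],[[[]],[[]],[[]]],[],[[],[[]],[[]]],[[],[[]],
[[]]]],[[[[]],[[494087397678652292333568]],[[3636375530669088009093120]]],[],[[[]],[[]],[[]]],
[[[3655265104695541172015104]],[[456326338490479832926208]],[]],[[[33963869216973994122706944]],
[[42502559362658168483840]],[]]],[[[[]],[[]],[[]]],[],[[[]],[[]],[[]]],[[]],[[]]],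
[[[[233034914014124355490938880]],[[]],[[29091558368287122981453824]]],[[],[[]],[[]]],
[[[129715105881418530816]],[[2734330899793701522661376]],[]],[[[]],[],[[]]],
[[[1038872932795080769536]],[],[[455745558576677194366976]]]],[[[[2173876514754825369105203200]],
[[]],[[252392046413032715787436032]]],[[],[[]],[[]]],[[[3948125524100717829685248]],
[[26710895369542009803014144]],[]],[[[]],[],[[]]],[[[7102145087715775021056]],[],
[[3934176309343103142354944]]]]],[[[[[]],[],[[]]],[[],[]],[[[]],[[]]],[[]],[[[]],[],[[]]]],[[[[]],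
[],[[]]],[[[]],[[]],[[]]],[[[]],[[]]],[[[]],[],[[]]],[[[]],[],[[]]]],[[[[]],[],[[]]],[[[]],[],
[[]]],[[]],[[],[[]],[[]]],[[]]],[[[[]],[[]],[[]]],[],[[[]],[],[[]]],[[[]]],[[[]],[[]],[]]],[[[[]],
[[]],[]],[],[[[]],[],[[]]],[[[]]],[[]]],[[[[]],[[]],[[]]],[[],[[]],[[]]],[[[]]],[[[]],[],[[]]],
[[[]],[],[[]]]],[[[[]],[],[[]]],[],[[[]],[[]],[]],[],[[]]]]],[[[[[[]],[],[[]]],[[],[]],[[[]],[[]],
[]],[[]],[[[]],[],[[]]]],[[[[]],[],[[]]],[[[]],[[]],[[]]],[[[]],[[]]],[[[]],[],[[]]],[[[]],[],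
[[]]]],[[[[]],[],[[]]],[[[]],[],[[]]],[[],[],[]],[[],[[]],[[]]],[[],[]]],[[[[]],[[]],[[]]],[[[]],
[],[[]]],[[[]]],[[[]]],[[[]]]],[[[[]],[[]],[]],[[],[],[]],[[[]],[],[[]]],[[[]],[],[[]]],[[]]],
[[[[]],[[]],[[]]],[[],[[]],[[]]],[[[]],[],[[]]],[[[]],[],[[]]],[[[]]]],[[[[]],[],[[]]],[],[[[]]],
[[]],[[[]]]]],[[[[[]],[[]],[[]]],[[[]],[[]]],[[[]],[[]],[]],[[[]]],[[[]],[],[[]]]],[[],[[[]],[]],
[[[]]],[[]]],[[[[]],[[]],[[]]],[[[]],[],[[]]],[[],[],[]],[[],[[]],[[]]],[[],[]]],[[[[]],[[]],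
[[]]],[[],[],[]],[[[]],[],[[]]],[[[]],[],[[]]],[[[]]]],[[[[]],[[]],[]],[[],[],[]],[[[]],[],[[]]],
[[[]],[],[[]]],[[]]],[[[[]],[[]],[[]]],[[],[],[]],[[[]],[],[[]]],[[[]],[],[[]]],[[[]]]],[[[[]],[],
[[]]],[[],[]],[[[]],[[]]],[[]],[[[]],[],[[]]]]],[[[[[]],[[]],[[]]],[[[]],[[]]],[[[]],[[]],[]],
[[[]]],[[[]],[],[[]]]],[[],[[[]],[]],[[[]]],[[]]],[[[[]],[[]],[[]]],[[[]],[[]],[[]]],[[],[],[]],
[[[]],[[]],[[]]],[[],[]]],[[[[]],[[]],[[]]],[[],[],[]],[[[]],[],[[]]],[[[]],[],[[]]],[[[]],[[]],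
[]]],[[[[]],[[]],[]],[[],[],[]],[[[]],[],[[]]],[[[]],[],[[]]],[[]]],[[[[]],[[]],[[]]],[[],[],[]],
[[[]],[],[[]]],[[[]],[],[[]]],[[[]],[],[[]]]],[[[[]],[],[[]]],[[],[]],[[[]],[[]],[[]]],[[]],[[[]],
[[]],[[]]]]],[[[[[]],[],[[]]],[[[]],[[]],[[]]],[[[]],[[]]],[[[]],[],[[]]],[[[]],[],[[]]]],[[[[]],
[],[[]]],[[[]],[[]],[[]]],[[[]],[[]],[]],[[[]],[[]],[[]]],[[[]],[],[[]]]],[[[[]],[],[[]]],[[[]],
[[]],[[]]],[[[]],[[]],[]],[[[]],[[]],[[]]],[[[]],[],[[]]]],[[],[]],[[[[]],[[]],[]],[[[]],[[]],[]],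
[[[]]],[[[]]]],[[],[]],[[[[]],[],[[]]],[[[]],[],[[]]],[[[]]],[[],[[]],[[]]],[[[]],[[]],[[]]]]],
[[[[[]],[[]],[[]]],[[[]],[],[[]]],[[],[],[]],[[],[[]],[[]]],[[],[]]],[[[[]],[[]],[[]]],[[[]],[[]],
[[]]],[[],[],[]],[[[]],[[]],[[]]],[[],[]]],[[],[[[]],[]],[[]],[[]]],[[[],[],[]],[[[]],[[]],[[]]],
[[[]],[[]],[]],[[[]],[[]],[]],[[[]],[],[[]]]],[[[],[],[]],[[[]],[[]],[]],[[[]],[[]],[]],[[[]],
[[]],[]],[[]]],[[[],[],[]],[[[]],[[]],[[]]],[[[]],[[]],[]],[[[]],[[]],[]],[[[]],[[]],[]]],[[[],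
[]],[[[]],[],[[]]],[[[]],[],[[]]],[[]],[[[]],[[]],[]]]],[[[[[]],[[]],[[]]],[[],[],[]],[[[]],[],
[[]]],[[[]],[[]],[[]]],[[[]],[[]]]],[[[[]],[[]],[[]]],[[[]],[],[[]]],[[[]],[],[[]]],[[[]],[[]],
[[]]],[[[]],[[]],[]]],[[],[]],[[[[]],[],[[]]],[[[]],[[]],[[]]],[[[]],[[]],[]],[[[]],[[]],[[]]],
[[[]],[],[[]]]],[[[[]],[],[[]]],[[[]],[[]],[[]]],[[[]],[[]],[]],[[[]],[[]],[[]]],[[[]],[],[[]]]],
[[],[],[]],[[[[]],[[]],[]],[[],[[]],[[]]],[[[]],[],[[]]],[[[]],[],[[]]],[[[]],[[]],[[]]]]],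
[[[[[]],[[]],[]],[[],[],[]],[[[]],[],[[]]],[[[]],[],[[]]],[[]]],[[[[]],[[]],[]],[[],[],[]],[[[]],
[[]],[[]]],[[[]],[[]],[[]]],[[],[],[]]],[[[[]]],[[]],[[[]]]],[[[],[],[]],[[[]],[[]],[]],[[[]],
[[]],[]],[[[]],[[]],[]],[[]]],[[[[]],[],[[]]],[[[]],[[]],[[]]],[[[]],[[]],[]],[[[]],[[]],[[]]],
[[[]],[],[[]]]],[[[[]],[],[[]]],[[[]],[[]],[[]]],[[[]],[[]],[]],[[[]],[[]],[[]]],[[[]],[],[[]]]],
[[[]],[[],[[]],[[]]],[[]],[[[]],[],[[]]],[[[]],[],[[]]]]],[[[[[]],[[]],[[]]],[[],[],[]],[[[]],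
[[]],[[]]],[[[]],[],[[]]],[[[]],[],[[]]]],[[[[]],[[]],[[]]],[[],[[]],[[]]],[[[]],[[]],[[]]],[[[]],
[],[[]]],[[[]],[],[[]]]],[[],[]],[[[],[[]],[[]]],[[[]],[[]],[[]]],[[[]],[[]],[[]]],[[[]],[[]],[]],
[[[]],[[]],[]]],[[],[],[]],[[[[]],[],[[]]],[[[]],[[]],[[]]],[[[]],[[]],[]],[[[]],[[]],[[]]],[[[]],
[],[[]]]],[[[[]],[],[[]]],[[[]],[[]],[[]]],[[[]],[[]],[]],[[[]],[[]],[[]]],[[[]],[],[[]]]]],
[[[[[]],[],[[]]],[[],[]],[[[]],[[]]],[[]],[[[]],[],[[]]]],[[[[]],[],[[]]],[[],[],[]],[[[]],[[]],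
[]],[[],[],[]],[[[]],[],[[]]]],[[[]],[[]]],[[[],[],[]],[[[]],[],[[]]],[[[]],[],[[]]],[[]],[[[]],
[[]],[]]],[[[],[]],[[]],[[]],[[]],[[]]],[[[]],[[],[[]],[[]]],[[]],[[[]],[],[[]]],[[[]],[],[[]]]],
[[[],[],[]],[[]],[[]],[[]]]]],[[[[[[24217476645360514663186432]],[[]],
[[3022687032763766285533184]]],[[[]],[[]],[[]]],[[[271413593303296250340179968]],
[[24179126004184732047278080]],[]],[[[]],[[]],[[]]],[[[34077187559239906616180736]],[],
[[3636374395471569141379072]]]],[[[[3631647418441916866887680]],[[]],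
[[456935220588297150660608]]],[[[]],[[]],[[]]],[[[31659372529736284899540992]],
[[3640944559154516898357248]],[]],[[[]],[[]],[[]]],[[[3929015905049686040379392]],[],
[[340647664201429856321536]]]],[[],[[],[],[]],[[],[],[]],[[],[]],[[],[]]],[[],
[[[494668335150856818130944]],[[]],[[47446287333101655838720]]],[[[66115436625314167914496]],[[]],
[[380187838964267315366912]]],[[[]],[[]],[[]]],[[[5359067489926551568384]],
[[56668507306142885482496]],[]]],[[],[[],[],[]],[[]],[[]],[[]]],[[],[[[]],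
[[66115528390554521436160]],[[456345068960780306644992]]],[[[]],[[]],[[]]],
[[[1731707200424017920]],[],[[3952700317466831718985728]]],[[[47377040561445127847936]],[],
[[417939103174604475203584]]]],[[],[[],[]],[[]],[[]]]],[[[[[]],[],[[]]],[[],[]],[[[]],[[]]],[[]],
[[[]],[],[[]]]],[[[[]],[],[[]]],[[],[]],[[[]],[[]]],[[]],[[[]],[],[[]]]],[[],[[],[],[[]]],[[],
[[]],[]],[[],[[]],[[]]],[[],[],[]]],[[],[[],[],[[]]],[[]],[[]],[[]]],[[[],[[]]],[[],[[]],[]],[[]],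
[[[]]],[[]]],[[],[[],[[]],[[]]],[],[[]],[[]]],[[[[]],[],[[]]],[[[]],[],[[]]],[[[]]],[[]],[[[]]]]],
[[[[[3943180662336283155103744]],[[]],[[24256454032512325238390784]]],[[[]],[[]],[[]]],
[[[1395215540711279537858543616]],[[194056284370726002854723584]],[]],[[[]],[[]],[[]]],
[[[271725267221346826179837952]],[],[[2166547402538612883885948928]]]],[[[[]],[],[[]]],[[[]],
[[]]],[[[]],[[]]],[[[]],[[]],[[]]],[[],[],[[]]]],[[[[31661162012352659889061888]],[[]],
[[214310435763325895939981312]]],[[[193447244272187533513195520]],[[]],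
[[33889519752447509596831744]]],[[],[],[]],[[[]],[[21875228547829172646445056]],
[[252386882514486802561105920]]],[[],[],[]]],[[[[]],[[]],[[]]],[[[]],[],[[]]],[[[]],[],[[]]],
[[[]],[[]],[[]]],[[[]],[[]],[]]],[[[[272013112574637972112015360]],[[33889519752447509596831744]],
[]],[[],[],[]],[[[2171308110876173371065761792]],[[]],[[3329270677673692279611392]]],
[[[252968170548276586678321152]],[[]],[[34041824722830502609944576]]],[[]]],[[[[]],[[]],[[]]],[[],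
[],[]],[[[]],[[]],[[]]],[[[]],[],[[]]],[[[]],[],[[]]]],[[[[21875228547829172646445056]],[],
[[213687089187924076439273472]]],[[],[]],[[[232425733386947634148671488]],
[[34041824722830502609944576]],[[]]],[[]],[[[1405002064030580055025385472]],[[]],
[[272036795815842137843957760]]]]],[[[[[417385554308366612824064]],[[]],
[[3645745415216529519149056]]],[[[]],[[]],[[]]],[[[193456912761139883572985856]],
[[29016027751336222377639936]],[]],[[[]],[[]],[[]]],[[[31659363740995680311705600]],[],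
[[252080296492221286259359744]]]],[[[[]],[],[[]]],[[[]],[[]]],[[[]],[[]]],[[[]],[[]],[[]]],[[],[],
[[]]]],[[[[3339159356922280741437440]],[[]],[[33852330686265996456493056]]],
[[[29130554645468102038388736]],[[]],[[3943471252602902382379008]]],[[],[],[]],[[[]],
[[3041500351828137843097600]],[[26710913521301441791131648]]],[[],[],[]]],[[[[]],[[]],[[]]],[[],
[],[]],[[[]],[],[[]]],[[[]],[[]],[[]]],[[[]],[[]],[]]],[[[[31472820455904743878819840]],
[[3943181850433020144123904]],[]],[[],[],[]],[[[253274976797126698138075136]],[[]],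
[[532475074347841546715136]]],[[[26596423385265463554473984]],[[]],[[3938829518000547312435200]]],
[[]]],[[[[]],[[]],[[]]],[[],[]],[[[]],[[]],[[]]],[[[]],[],[[]]],[[[]],[],[[]]]],
[[[[3041282450811453210624000]],[],[[34001066934535257948454912]]],[[],[]],
[[[21953102065585677599375360]],[[3957644097505680241467392]],[[]]],[[]],
[[[193749400894162814937333760]],[[]],[[31472230029491129584484352]]]]],[[[],[[],[],[[]]],[[],
[[]],[]],[[],[[]],[[]]],[[],[],[]]],[[[[]],[],[[]]],[[[]],[],[[]]],[[],[],[]],[[],[[]],[[]]],[]],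
[[[[]],[],[[]]],[[[]],[],[[]]],[],[[],[[]],[[]]]],[[[],[],[[]]],[[],[],[[]]],[]],[[[],[[]],[]],
[[],[[]],[]]],[[[],[[]],[[]]],[[],[[]],[[]]]],[[[[]],[],[[]]],[[[]],[],[[]]]]],[[[],
[[[4255150881499487917834240]],[[]],[[492335103430699008589824]]],[[[415606017682319763046400]],
[[]],[[272022851267697677807136768]]],[[[]],[[]],[[]]],[[[66265389609077694791680]],
[[31623346466331935262244864]],[]]],[[[[]],[[]],[[]]],[[[]],[],[[]]],[[[]],[],[[]]],[[[]],[[]],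
[[]]],[[[]],[[]],[]]],[[[[]],[[]],[[]]],[[[]]],[[[]],[],[[]]],[[[]],[[]],[[]]],[[[]],[[]],[]]],
[[[[1716675845020925859381379072]],[[]],[[213380136465714791524335616]]],
[[[272641106541136397399228416]],[[]],[[34040635189314932808089600]]],[[]],[[],
[[26788841658852825958088704]],[[4255297336879314092163072]]],[[]]],
[[[[11180457884334761525284700160]],[[]],[[5958888484415113003008]]],
[[[1552412467778364345031852032]],[[]],[[886706421080817664000]]],[[]],[[],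
[[175308638178059059479707648]],[[24333183996181078863773696]]],[[]]],[[[[]],[[]],[[]]],[[[]],
[[]],[[]]],[[]],[[],[[]],[[]]],[[],[[]],[[]]]],[[[[1400127382925902342936068096]],
[[52099443622867606437888]],[[]]],[[[194642149448287744205783040]],[[8310260669795960619008]],
[[]]],[[]],[[]],[[],[[29168924010644142372683776]],[[3050803349199651379085312]]]]],[[[],[[[]],
[[]],[[]]],[[[]],[],[[]]],[[[]],[],[[]]],[[[]],[],[]]],[[[[]],[[]],[]],[[],[],[]],[[[]],[],[[]]],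
[[[]],[],[[]]],[[]]],[[[[]],[[]],[]],[],[[[]],[],[[]]],[[[]],[],[[]]],[[]]],[[[[]],[[]],[[]]],
[[[]],[[]],[[]]],[[]],[[]],[]],[[[[]],[],[[]]],[[[]],[],[[]]],[[]],[[],[[]],[[]]],[[]]],[[[[]],[],
[[]]],[[[]],[],[[]]],[[]],[[],[[]],[[]]],[[]]],[[[[]],[[]],[[]]],[[[]],[[]],[[]]],[],[[],[[]],
[[]]],[[],[[]],[[]]]]],[[[],[[[]],[[341782003956752073097216]],[[4259800594514725324193792]]],
[[[]],[[]],[[]]],[[[56892154638740846280704]],[],[[26748673871274971012104192]]],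
[[[7674280133677157449728]],[],[[4250425000524662195617792]]]],[[[[]],[[]],[[]]],[[],[],[]],[[[]],
[[]],[[]]],[[[]],[],[[]]],[[[]],[],[[]]]],[[[[]],[[]],[[]]],[],[[[]],[[]],[[]]],[[[]],[],[[]]],
[[[]],[],[[]]]],[[[[]],[[213691955669331344217079808]],[[2011769461576587704143085568]]],[[[]],
[[33852930351710917298814976]],[[214003636449737734530007040]]],[[],[[2734552331922152983375872]],
[[380151080618777425084416]]],[[]],[[]]],[[[[]],[[]],[[]]],[[[]],[[]],[[]]],[[]],[[],[[]],[[]]],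
[[],[[]],[[]]]],[[[[1397707188403811458738028544]],[[]],[[213984673198228268244533248]]],
[[[194033039113579745717780480]],[[]],[[33929023033727215902654464]]],[[]],[[],
[[26711484944777012781842432]],[[4245709641629481143894016]]],[[]]],
[[[[14953510715278018221439975424]],[[]],[[1392835430811114419171360768]]],
[[[1397558996769161752925437952]],[[]],[[194963049044513133414055936]]],[[]],[[],
[[3627221352222503128530944]],[[378979575046574943797248]]],[[]]]],[[[],[[[]],[[]],[[]]],[[[]],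
[[]]],[[[]],[],[[]]],[[[]],[],[[]]]],[[[[]],[],[[]]],[[],[]],[[[]],[[]],[]],[[]],[[[]],[],[[]]]],
[[[[]],[],[[]]],[],[[[]],[[]],[]],[[]],[[[]],[],[[]]]],[[[[]],[[]],[[]]],[[[]],[[]],[[]]],[[]],[],
[[]]],[[[[]],[[]],[]],[[[]],[[]],[]],[[]],[[]],[[],[[]],[[]]]],[[[[]],[[]],[[]]],[[[]],[[]],[[]]],
[],[[]],[[],[[]],[[]]]],[[[[]],[],[[]]],[[[]],[],[[]]],[[]],[[],[[]],[[]]],[]]]],[[[[],[[[]],[[]],
[[]]],[[[]],[[]]],[[[]],[],[[]]],[[[]],[],[[]]]],[[[[]],[],[[]]],[[],[]],[[[]],[[]],[]],[[]],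
[[[]],[],[[]]]],[[[[]],[],[[]]],[[],[]],[[[]],[[]],[]],[[]],[[[]],[],[[]]]],[[[[]],[[]],[[]]],
[[[]],[[]],[[]]]],[[[[]],[[]],[]],[[[]],[[]],[]],[],[[]],[[],[[]],[[]]]],[[[[]],[[]],[[]]],[[[]],
[[]],[[]]],[],[[]],[[],[[]],[[]]]],[[[[]],[],[[]]],[[],[],[]],[]]],[[[],[[[]],[]],[[[]]],[[]]],
[[[[]],[[]],[[]]],[[[]],[[]]],[[[]],[[]],[]],[[[]]],[[[]],[],[[]]]],[[[[]],[],[[]]],[[[]],[]],
[[[]],[[]],[]],[[]],[[[]],[],[[]]]],[[[[]],[[]],[[]]],[[[]],[[]],[[]]],[[]],[],[[],[[]],[[]]]],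
[[[[]],[[]],[]],[[[]],[[]],[]],[[]],[[]],[[],[[]],[[]]]],[[[[]],[[]],[[]]],[[[]],[[]],[[]]],[],
[[]],[[],[[]],[[]]]],[[[[]],[],[[]]],[[[]],[],[[]]],[[],[[]],[[]]],[[],[[]],[[]]],[[],[[]],
[[]]]]],[[[[[]],[],[[]]],[[[]],[[]],[[]]],[[[]],[[]]],[[[]],[],[[]]],[[[]],[],[[]]]],[[[[]],[],
[[]]],[[[]],[[]],[[]]],[[[]],[[]],[]],[[[]],[[]],[[]]],[[[]],[],[[]]]],[[[[]],[],[[]]],[[[]],[[]],
[[]]],[[[]],[[]],[]],[[[]],[[]],[[]]],[[[]],[],[[]]]],[[],[]],[[[[]],[[]],[]],[[[]],[[]],[]],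
[[[]]],[[[]]]],[[],[]],[[[[]],[],[[]]],[[[]],[],[[]]],[[[]]],[[],[[]],[[]]],[[[]],[[]],[[]]]]],
[[[[[]],[[]],[[]]],[[[]],[[]]],[[[]],[[]],[]],[[[]]],[[[]],[],[[]]]],[[],[[[]],[]],[[[]]],[[]]],
[[[[]],[[]],[[]]],[[[]],[[]],[[]]],[[],[],[]],[[[]],[[]],[[]]],[[],[]]],[[[[]],[[]],[[]]],[[],[],
[]],[[[]],[],[[]]],[[[]],[],[[]]],[[[]],[[]],[]]],[[[[]],[[]],[]],[[],[],[]],[[[]],[],[[]]],[[[]],
[],[[]]],[[]]],[[[[]],[[]],[[]]],[],[[[]],[],[[]]],[[[]],[],[[]]],[[[]],[],[[]]]],[[[[]],[],[[]]],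
[[],[]],[[[]],[[]],[[]]],[[]],[[[]],[[]],[[]]]]],[[[[[]],[],[[]]],[[[]],[]],[[[]],[[]],[]],[[]],
[[[]],[],[[]]]],[[],[[[]],[]],[[]],[[]]],[[[[]],[[]],[[]]],[[[]],[[]],[[]]],[[],[],[]],[[[]],[[]],
[[]]],[[],[]]],[[[[]],[[]],[[]]],[[],[],[]],[[],[],[[]]],[[[]],[],[[]]],[[[]],[[]],[]]],[[[[]],
[[]],[]],[[],[],[]],[[[]],[],[[]]],[[[]],[],[[]]],[[]]],[[[[]],[[]],[[]]],[],[[[]],[],[[]]],[[],
[],[[]]],[[],[],[[]]]],[[[[]],[],[[]]],[[],[]],[[[]],[[]],[[]]],[[]],[[[]],[[]],[[]]]]],[[[[[]],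
[[]],[[]]],[[[]],[[]],[[]]],[[],[[]],[[]]],[],[[],[[]],[[]]]],[[],[]],[[[[]],[[]],[[]]],[[[]],[],
[[]]],[[[]],[],[[]]],[[[]],[[]],[[]]],[[[]],[[]],[]]],[[[[]],[[]],[[]]],[[[]],[],[[]]],[[[]],[],
[[]]],[[[]],[[]],[[]]],[[[]],[[]],[]]],[[[],[[]],[[]]],[[[]],[],[[]]],[[[]],[],[[]]],[[[]],[[]]],
[[[]],[[]],[]]],[[],[],[]],[[[],[[]],[[]]],[[[]],[[]],[]],[[[]],[[]],[]],[[[]],[[]],[]],[[[]],
[[]]]]],[[[[[]],[[]],[]],[[[]],[[]],[]],[[],[[]],[[]]],[[],[[]],[[]]],[[],[[]],[[]]]],[[[[]]],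
[[]],[[[]]]],[[[[]],[[]],[]],[[],[],[]],[[[]],[[]],[[]]],[[[]],[[]],[[]]],[[],[],[]]],[[[[]],[[]],
[]],[[],[],[]],[[[]],[[]],[[]]],[[[]],[[]],[[]]],[[],[],[]]],[[[],[[]],[[]]],[[[]],[],[[]]],[[],
[],[[]]],[[[]],[[]]],[[[]],[[]],[]]],[[[],[[]],[[]]],[[[]],[],[[]]],[[],[],[[]]],[[[]],[[]]],
[[[]],[[]],[]]],[[[],[[]],[[]]],[[]],[[]],[[[]],[[]],[]],[[[]],[[]],[]]]],[[[[[]],[[]],[[]]],
[[[]],[[]],[[]]],[],[[],[[]],[[]]],[[],[[]],[[]]]],[[],[]],[[[[]],[[]],[[]]],[[],[[]],[[]]],[[[]],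
[[]],[[]]],[[[]],[],[[]]],[[[]],[],[[]]]],[[[[]],[[]],[[]]],[[],[[]],[[]]],[[[]],[[]],[[]]],[[[]],
[],[[]]],[[[]],[],[[]]]],[[],[],[]],[[[],[[]],[[]]],[[[]],[],[[]]],[[[]],[],[[]]],[[[]],[[]]],
[[[]],[[]],[]]],[[[],[[]],[[]]],[[[]],[],[[]]],[[],[],[[]]],[[[]],[[]]],[[[]],[[]],[]]]],[[[[[]],
[],[[]]],[[[]],[],[[]]],[[]],[[],[[]],[[]]],[[]]],[[[]],[[]]],[[[[]],[],[[]]],[[],[],[]],[[[]],
[[]],[]],[[],[],[]],[[[]],[],[[]]]],[[[[]],[],[[]]],[[],[],[]],[[[]],[[]],[]],[[],[],[]],[[[]],[],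
[[]]]],[[[]],[[]],[],[[],[]],[[],[]]],[[[],[[]],[[]]],[[]],[[]],[[[]],[[]],[]],[[[]],[[]],[]]],
[[[]],[[]],[],[[],[]]]]],[[[[[[3627149853624712230338560]],[[]],[[417349232849398337306624]]],
[[[31662323716016685562658816]],[],[[3929163424677461330243584]]],[[],[],[]],[[],
[[2720237658244085697740800]],[[340020042628303784312832]]],[[],[]]],[[],[[],[],[]],[[],[],[]],
[[],[]],[[],[]]],[[[[453375721774077272129536]],[[]],[[66116680164031650070528]]],[[[]],[[]],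
[[]]],[[[4250429684826551739768832]],[[380796435223197553557504]],[]],[[[]],[[]],[[]]],
[[[529550839750542852521984]],[],[[56968266624313856622592]]]],[[[[56969329175036920332288]],[[]],
[[7673848000327129825280]]],[],[[[31434488565396740449042432]],[[56747949382794554646528]],[]],
[[[]],[[]],[[]]],[[[3036782597049019470708736]],[],[[5940428194341766397952]]]],[[[],[],[]],[],
[[]],[[]],[[]]],[[[[]],[[5958591070342312099840]],[[56890984001764214964224]]],[],[[[]],[[]],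
[[]]],[[[3655556759215133501435904]],[[418529828973148041808384]],[]],
[[[29240893408473420044206080]],[[66409450463554899550208]],[]]],[[[],[]],[],[[]],[[]]]],[[[[]],
[[]],[]],[[],[[],[],[]],[[],[],[]],[[],[]],[[],[]]],[[],[],[[]]],[[[],[],[]],[],[[]],[],[[]]],
[[[],[],[]],[],[[]],[[]],[[]]],[[[],[]],[],[],[[]]],[[[],[]],[],[[]],[[]]]],
[[[[[6503062757267472384000]],[[]],[[3948273170106572300615680]]],
[[[193432855848406531917742080]],[],[[31471050000820383298813952]]],[[],[],[]],[[],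
[[21760701799746428467150848]],[[252080076213849427178684416]]],[[],[]]],
[[[[3339012918712155349450752]],[[]],[[33852330686265996456493056]]],
[[[29128793118947530634166272]],[[]],[[3943181850433020144123904]]],[[],[],[]],[[[]],
[[3041282450811453210624000]],[[26712703008598447039184896]]],[[],[]]],[[[[]],[],[[]]],[[[]],[]],
[[]],[[[]],[[]],[[]]]],[[[[]],[],[[]]],[[[]],[[]],[[]]],[[[]],[[]],[]],[[[]],[[]],[[]]],[[[]],[],
[[]]]],[[[],[],[]],[[[26826611790717802149642240]],[[3352954044714973127770112]],[]],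
[[[174095205517065627783397376]],[[532475074347841546715136]],[]],[[[21953102065585677599375360]],
[[3957644097505680241467392]],[]],[[]]],[[[],[],[]],[[[]],[[]],[[]]],[[[]],[[]],[[]]],[[[]],[[]],
[]],[[[]],[[]],[]]],[[[],[]],[[[3631575990212865833566208]],[],[[31585595062790394113687552]]],
[[[33849969077329943504879616]],[],[[3343662633130371740598272]]],[[]],
[[[232430601003257469418078208]],[[31472230029491129584484352]],[]]]],[[[],[[],[],[[]]],[[],[[]],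
[]],[[],[[]],[[]]],[[],[],[]]],[[[[]],[],[[]]],[[[]],[],[[]]],[[],[],[]],[[],[[]],[[]]],[]],
[[[[]],[],[[]]],[[[]],[],[[]]],[],[[],[[]],[[]]]],[[[],[],[[]]],[[],[],[[]]],[]],[[[],[[]],[]],
[[],[[]],[]]],[[[],[[]],[[]]],[[],[[]],[[]]]],[[[[]],[],[[]]],[[[]],[],[[]]]]],
[[[[[61396620381793458061312]],[[]],[[415577478579323582545920]]],[[[]],[[]],[[]]],
[[[21990336377037420056543232]],[[3046079738307188764966912]],[]],[[[]],[[]],[[]]],
[[[4250352403892648937259008]],[],[[33929041757475093425946624]]]],[[[[]],[],[[]]],[[[]],[]],[[]],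
[[[]],[[]],[[]]]],[[[[493515402282230093971456]],[[]],[[3324698208442472188608512]]],
[[[3036850637427450287489024]],[[]],[[531856680507424167165952]]],[[],[],[]],[[[]],
[[340647531307281804230656]],[[3929009021860672113475584]]],[[],[]]],[[[[]],[[]],[[]]],[[],[],[]],
[[],[],[[]]],[[[]],[[]],[[]]],[[[]],[[]],[]]],[[[[4255228143548459266080768]],
[[531856680507424167165952]],[]],[[],[],[]],[[[33851730878925749016854528]],[[]],
[[52167393107283477528576]]],[[[3934031129911611541946368]],[[]],[[530731429331666601181184]]],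
[[]]],[[[[]],[[]],[[]]],[[],[]],[[[]],[[]],[[]]],[[],[],[[]]],[[],[],[[]]]],
[[[[340647531307281804230656]],[],[[3334291667736741853790208]]],[[],[]],
[[[3650685592674534986088448]],[[530731429331666601181184]],[[]]],[[]],
[[[21950150010070949393596416]],[[]],[[4241134850515375440269312]]]]],
[[[[[378979863278626269036544]],[[]],[[66265354129968911876096]]],[],
[[[252066050941778149333008384]],[[31545999279653568578060288]],[]],[[[]],[[]],[[]]],
[[[29243273182538940467380224]],[],[[4231317652122995737493504]]]],[[[[]],[],[[]]],[[[]],[[]],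
[[]]],[[[]],[[]],[]],[[[]],[[]],[[]]],[[[]],[],[[]]]],[[[[272636605535890553556959232]],[[]],
[[34041779038385719004561408]]],[[[31435659638764623263629312]],[[]],
[[3952845675643731872841728]]],[[]],[[],[[4250578430841015289262080]],
[[494133377284094774345728]]],[[]]],[[[[]],[[]],[[]]],[[[]]],[[[]],[],[[]]],[[[]],[[]],[[]]],
[[[]],[[]],[]]],[[[[29016009730182305403633664]],[[1039971793576348090368]],[]],[[]],
[[[174104435788041107218104320]],[[]],[[101468495492174315520]]],[[[24406380244533848748097536]],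
[],[[2720452066182562271723520]]],[[],[]]],[[[[]],[[]],[[]]],[],[[[]],[[]],[[]]],[[],[],[[]]],[[],
[],[[]]]],[[[[61692921208540769812480]],[],[[7121321522706897698816]]],[[]],
[[[21799643308829402992738304]],[[664156542036359512064]],[[]]],[[],[]],
[[[2724955360123431913521152]],[],[[26747521530666503165378560]]]]],[[[[[]],[[]],[[]]],[],[[[]],
[[]],[]],[[[]],[[]],[]],[[[]]]],[[[],[],[]],[[[]],[[]],[]],[[[]],[[]],[]],[[[]],[[]],[]],[[]]],
[[[[]],[[]],[[]]],[[[]],[[]],[[]]]],[[[[]],[[]],[]],[],[[[]],[],[[]]],[[[]],[],[[]]],[]],[[[[]],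
[[]],[]],[],[[[]],[],[[]]],[[[]],[],[[]]],[]],[[[[]],[[]],[]],[],[[[]],[],[[]]],[[[]],[],[[]]],
[]],[[[[]]],[],[[[]],[[]],[[]]],[[[]],[],[[]]],[[[]],[],[[]]]]],[[[[[]],
[[42947480656966026526720]],[[380741387726033856233472]]],[],[[[]],[[]],[[]]],
[[[33890663452834086487490560]],[[4240692019432186788995072]],[]],
[[[194363533321159090723880960]],[[492934766760692327415808]],[]]],[[[],[],[]],[[[]],[[]],[[]]],
[[[]],[[]],[[]]],[[[]],[[]],[]],[[[]],[[]],[]]],[[[[]],[[34001666600259489915469824]],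
[[213999204638908858034552832]]],[[[]],[[3943326002212839700299776]],
[[33926707523740277168668672]]],[[],[[381340758322645049540608]],[[56816045507082249568256]]],
[[]],[[]]],[[[[]],[[]],[[]]],[],[[[]],[[]],[[]]],[[],[],[[]]],[[],[],[[]]]],[[[[]],[[]],[[]]],[],
[[[]],[[]],[[]]],[[],[],[[]]],[[],[],[[]]]],[[[[4236116146622941854957568]],
[[33925490045458854900137984]],[]],[[]],[[[21838621567393630433312768]],[[]],
[[3348532572175976473034752]]],[[[4250578394249475599630336]],[],[[21876418945862164983840768]]],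
[[],[]]],[[[[24332039852367517998645248]],[[194953830212078174155571200]],[]],[[]],
[[[233941539186656895888785408]],[[]],[[21950158942926201830768640]]],
[[[491163872575316148879360]],[],[[253284207050949653271412736]]],[[],[]]]],[[[[[]],[[]],[[]]],[],
[[[]],[],[[]]],[[[]]],[[[]],[[]],[]]],[[[],[]],[[[]],[],[[]]],[[[]],[],[[]]],[[]],[[[]],[[]],[]]],
[[[[]],[[]],[[]]],[[[]],[[]],[[]]]],[[[[]],[],[[]]],[],[[[]],[[]],[]],[],[[[]],[],[[]]]],[[[[]],
[],[[]]],[],[[[]],[[]]],[[],[]],[[[]],[],[[]]]],[[[[]]],[],[[[]],[[]],[[]]],[[],[]],[[[]],[],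
[[]]]],[[[[]],[[]],[]],[],[[[]],[],[[]]],[[],[],[[]]],[]]]],[[[[[[]],[[]],[[]]],[[],[],[]],[[[]],
[],[[]]],[[[]],[[]],[[]]],[[[]],[[]]]],[[],[[[]],[],[[]]],[[[]],[],[[]]],[[],[],[]],[[[]],[[]],
[]]],[[[[]],[[]],[[]]],[[[]],[[]],[[]]],[[],[[]],[[]]],[],[[],[[]],[[]]]],[[[[]],[],[[]]],[],
[[[]],[[]],[]],[[]],[[[]],[],[[]]]],[[[[]],[],[[]]],[],[[[]],[[]],[]],[[]],[[[]],[],[[]]]],[[[[]],
[[]],[[]]],[],[[[]],[[]],[[]]],[[[]],[],[[]]],[[[]],[],[[]]]],[[[[]],[[]],[]],[],[[[]],[],[[]]],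
[[[]],[],[[]]],[[]]]],[[[[[]],[[]],[[]]],[[],[],[]],[[[]],[],[[]]],[[[]],[],[[]]],[[[]]]],[[[],
[[]]],[[[]],[[]],[[]]],[[[]],[],[[]]],[[[]],[],[[]]],[[[]],[[]],[]]],[[[[]],[[]],[[]]],[[[]],[[]],
[[]]],[[]],[],[[],[[]],[[]]]],[[[[]],[[]],[[]]],[],[[[]],[[]],[]],[[[]],[[]],[]],[[[]],[],[[]]]],
[[[[]],[],[[]]],[[]],[[[]],[[]],[]],[[]],[[[]],[],[[]]]],[[[[]],[],[[]]],[],[[[]],[[]],[]],[[]],
[[]]],[[[[]],[[]],[[]]],[[],[[]],[[]]],[[[]],[],[[]]],[[[]],[],[[]]],[[[]],[],[[]]]]],[[[[[]],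
[[]],[[]]],[[],[],[]],[[[]],[],[[]]],[[[]],[[]],[[]]],[[[]],[[]]]],[[[[]],[[]],[[]]],[[[]],[],
[[]]],[[[]],[],[[]]],[[[]],[[]],[[]]],[[[]],[[]],[]]],[[],[]],[[[[]],[],[[]]],[[[]],[[]],[[]]],
[[[]],[[]],[]],[[[]],[[]],[[]]],[[[]],[],[[]]]],[[[[]],[],[[]]],[[[]],[[]],[[]]],[[[]],[[]],[]],
[[[]],[[]],[[]]],[[[]],[],[[]]]],[[],[],[]],[[[[]],[[]],[]],[[],[[]],[[]]],[[[]],[],[[]]],[[[]],
[],[[]]],[[[]],[[]],[[]]]]],[[[],[[[]],[[]],[[]]],[[[]],[],[[]]],[[[]],[],[[]]],[[[]],[[]],[]]],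
[[[[]],[[]],[[]]],[[[]],[],[]],[[[]],[],[[]]],[[[]],[],[[]]],[[[]],[[]],[]]],[[[[]],[[]],[[]]],
[[[]]],[[[]],[],[[]]],[[[]],[],[[]]],[[[]],[[]],[]]],[[[[]],[[]],[[]]],[[[]],[[]],[[]]],[[]],[[],
[[]],[[]]],[[]]],[[[[]],[],[[]]],[[[]],[],[[]]],[[]],[[],[[]],[[]]],[[]]],[[[[]],[],[[]]],[[[]],
[],[[]]],[[]],[[],[[]],[[]]],[]],[[[[]],[[]],[[]]],[[[]],[[]],[[]]],[[]],[[]],[[],[[]],[[]]]]],
[[[[[]],[[]],[[]]],[[[]],[[]],[[]]],[[],[[]],[[]]],[],[[],[[]],[[]]]],[[],[]],[[[[]],[[]],[[]]],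
[[[]],[],[[]]],[[[]],[],[[]]],[[[]],[[]],[[]]],[[[]],[[]],[]]],[[[[]],[[]],[[]]],[[[]],[],[[]]],
[[[]],[],[[]]],[[[]],[[]],[[]]],[[[]],[[]],[]]],[[[],[[]],[[]]],[[[]],[],[[]]],[[[]],[],[[]]],
[[[]],[[]]],[[[]],[[]],[]]],[[],[],[]],[[[],[[]],[[]]],[[[]],[[]],[]],[[[]],[[]],[]],[[[]],[[]],
[]],[[[]],[[]]]]],[[[[[]],[[]],[[]]],[],[[[]],[[]],[]],[[[]],[[]],[]],[[[]],[],[[]]]],[[[[]],[],
[]],[[[]],[[]],[[]]],[[[]],[[]],[]],[[[]],[[]],[]],[[[]],[],[[]]]],[[[[]],[[]],[[]]],[[[]],[[]],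
[[]]],[[]],[[],[[]],[[]]],[[]]],[[[[]],[[]],[[]]],[[[]]],[[[]],[],[[]]],[[[]],[],[[]]],[[[]],[[]],
[]]],[[[[]],[[]],[]],[[]],[[[]],[],[[]]],[[[]],[],[[]]],[[],[]]],[[[[]],[[]],[]],[],[[[]],[],
[[]]],[[],[],[[]]],[]],[[[[]],[],[[]]],[[]],[[[]],[[]],[[]]],[[],[]],[[[]],[],[[]]]]],[[[[[]],
[[]],[[]]],[],[[[]],[[]],[]],[[[]],[],[[]]],[[[]],[],[[]]]],[[[[]],[],[[]]],[[[]],[[]],[[]]],
[[[]],[[]],[]],[[[]],[[]],[[]]],[[[]],[],[[]]]],[[[[]],[[]],[[]]],[[[]],[[]],[[]]],[[]],[[],[[]],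
[[]]],[[]]],[[[],[[]],[[]]],[[[]],[],[[]]],[[[]],[],[[]]],[[[]],[[]]],[[[]],[[]],[]]],[[[[]],[[]],
[]],[[]],[[[]],[[]],[[]]],[[[]],[],[[]]],[[],[]]],[[[[]],[],[[]]],[[],[[]],[[]]],[[[]],[[]]],[[],
[]],[[[]],[],[[]]]],[[[[]],[],[[]]],[[]],[[[]],[[]],[]],[[],[]],[[[]],[],[[]]]]],[[[[[]],[[]],
[[]]],[],[[[]],[[]],[[]]],[[[]],[],[[]]],[[[]],[],[[]]]],[[],[]],[[[[]],[[]],[[]]],[[[]],[[]],
[[]]],[[],[[]],[[]]],[[],[[]],[[]]],[[],[[]],[[]]]],[],[[[[]],[[]],[[]]],[[],[[]],[[]]],[[[]],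
[[]],[[]]],[[[]],[],[[]]],[[[]],[],[[]]]],[[[[]],[],[[]]],[[],[[]],[[]]],[[[]],[[]]],[[],[]],
[[[]],[],[[]]]],[[[[]],[],[[]]],[[],[[]],[[]]],[[[]],[[]]],[[],[]],[[[]],[],[[]]]]],[[[[[]],[[]],
[]],[],[[[]],[],[[]]],[[[]],[],[[]]],[[]]],[[[],[]],[[]],[[]],[[]],[[]]],[[[[]],[[]],[]],[[[]],
[[]],[]],[[]],[[]],[[],[[]],[[]]]],[[[]],[[],[]],[[],[]],[[],[]],[[],[]]],[[[[]],[],[[]]],[[]],
[[[]],[[]],[]],[[],[]],[[[]],[],[[]]]],[[[[]],[],[[]]],[[]],[[[]],[[]],[]],[[],[]],[[[]],[],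
[[]]]],[[[]],[[]],[[],[]],[[],[]]]]],[[[[[[21763671727899150422900736]],
[[3050651162989370242244608]],[]],[[],[],[]],[[[3348386150845965942652928]],[],
[[29203732735163714269873152]]],[[[26673116433071008399753216]],[],[[2725030299744499133599744]]],
[[]]],[[],[[],[],[]],[[]],[[]],[[]]],[[[[3334138329172029232906240]],
[[26671963520679145747120128]],[]],[[[530141847167584564183040]],[[4255005558229812191690752]],
[]],[[],[[]],[[]]],[[],[[]],[[]]],[[],[[3041352742691244764299264]],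
[[453366214603296884129792]]]],[[[],[],[]],[],[[]],[[]],[[]]],[[[[530731575699736151195648]],[[]],
[[3948119758648695826153472]]],[],[[[52242369869301613592576]],[[418556774114739282378752]],[]],
[[[]],[],[[]]],[[[26826629946840061912842240]],[],[[61466858803464877113344]]]],
[[[[47597320890301864738816]],[[]],[[29089833176664317368532992]]],[],
[[[29204341912352867943055360]],[[2734623831092033457758208]],[]],[[[]],[],[[]]],
[[[4236117282347944950890496]],[],[[453993548124692091502592]]]],[[[]],[],[[]],[[]],[[]]]],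
[[[[[]],[[]],[]],[[],[],[]],[[[]],[],[[]]],[[[]],[],[[]]],[[]]],[[[[]],[[]]],[[[]],[[]],[[]]],
[[[]],[],[[]]],[[[]],[],[[]]],[[[]],[],[]]],[[[[]],[[]],[]],[[[]],[[]],[]],[[]],[[]],[[],[[]],
[[]]]],[[[[]],[[]],[[]]],[],[[[]],[[]],[]],[[[]],[[]],[]],[[[]]]],[[[[]],[],[[]]],[],[[[]],[[]],
[]],[[]],[[[]]]],[[[[]],[],[[]]],[],[[[]],[[]],[]],[[]],[[[]]]],[[[[]],[[]],[[]]],[[],[[]],[[]]],
[[[]]],[[[]],[],[[]]],[[[]],[],[[]]]]],[[[[[56893272115974120669184]],[[5368585744899760979968]],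
[]],[[],[],[]],[[[24180933213218263105798144]],[],[[52097082628014833139712]]],
[[[3627003522665618666946560]],[],[[8310983390299957493760]]],[[]]],
[[[[2176182219546209696159367168]],[[251777694932353335327981568]],[]],[[],[],[]],
[[[3650392859257104905535488]],[[]],[[5958888484415113003008]]],[[[418575083358810988871680]],
[[]],[[52099443622867606437888]]],[[],[],[]]],[[[[]],[[]]],[[]],[[[]]],[[[]]]],[[[],[],[]],
[[[214593784668687936291078144]],[[34040635189314932808089600]],[]],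
[[[1397632184370425109051080704]],[[886706421080817664000]],[]],[[[194642149448287744205783040]],
[[8310260669795960619008]],[]],[[]]],[[[[]],[],[[]]],[[[]],[[]],[[]]],[[[]],[[]],[]],[[[]],[[]],
[[]]],[[[]],[],[[]]]],[[[[]],[],[[]]],[[[]],[[]],[[]]],[[[]],[[]],[]],[[[]],[[]],[[]]],[[[]],[],
[[]]]],[[[]],[[],[[33966221030545166621048832]],[[3943549649858041503285248]]],[[]],
[[[193759143064537867885215744]],[],[[21800814969813166758821888]]],
[[[29168924010644142372683776]],[],[[251475461100393909814296576]]]]],[[[],[[[]],[[]],[[]]],[[[]],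
[],[[]]],[[[]],[],[[]]],[[[]],[],[]]],[[[[]],[[]],[]],[[],[],[]],[[[]],[],[[]]],[[[]],[],[[]]],
[[]]],[[[[]],[[]],[]],[],[[[]],[],[[]]],[[[]],[],[[]]],[[]]],[[[[]],[[]],[[]]],[[[]],[[]],[[]]],
[[]],[[]],[]],[[[[]],[],[[]]],[[[]],[],[[]]],[[]],[[],[[]],[[]]],[[]]],[[[[]],[],[[]]],[[[]],[],
[[]]],[[]],[[],[[]],[[]]],[[]]],[[[[]],[[]],[[]]],[[[]],[[]],[[]]],[],[[],[[]],[[]]],[[],[[]],
[[]]]]],[[[[[24179724658675441339465728]],[[3627223639488373241937920]],[]],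
[[[3641019499901209112739840]],[[343607801386122935795712]],[]],[[],[[]],[[]]],[[],[[]],[[]]],[[],
[[7701808423276191416320]],[[815170959069147037696]]]],[[[[]],[[]]],[[]],[[[]]],[[[]]]],
[[[[214613113379139583297454080]],[[34041779038385719004561408]],[]],[[],[],[]],
[[[380169392293311135350784]],[[]],[[965068491716836982784]]],[[[61692921208540769812480]],[[]],
[[7121321522706897698816]]],[[],[],[]]],[[[[34079557832856417981169664]],
[[3952845675643731872841728]],[]],[[],[],[]],[[[56896677119176485109760]],[[]],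
[[101468495492174315520]]],[[[7092919499665172332544]],[[]],[[664156542036359512064]]],[[],[],
[]]],[[[],[[]],[[]]],[[[]],[],[[]]],[[],[],[[]]],[[[]],[[]]],[[[]],[[]],[]]],[[[],[[]],[[]]],
[[[]],[],[[]]],[[],[],[[]]],[[[]],[[]]],[[[]],[[]],[]]],[[[],[[3934103765360586812579840]],
[[417386126338112830341120]]],[[]],[[]],[[[21799661325515480648122368]],
[[3022535982330988935249920]],[]],[[[251461366688216254162403328]],[[26747521530666503165378560]],
[]]]],[[[[[]],[[]],[[]]],[],[[[]],[[]],[]],[[[]],[[]],[]],[[[]]]],[[[],[],[]],[[[]],[[]],[]],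
[[[]],[[]],[]],[[[]],[[]],[]],[[]]],[[[[]],[[]],[[]]],[[[]],[[]],[[]]]],[[[[]],[[]],[]],[],[[[]],
[],[[]]],[[[]],[],[[]]],[]],[[[[]],[[]],[]],[],[[[]],[],[[]]],[[[]],[],[[]]],[]],[[[[]],[[]],[]],
[],[[[]],[],[[]]],[[[]],[],[[]]],[]],[[[[]]],[],[[[]],[[]],[[]]],[[[]],[],[[]]],[[[]],[],[[]]]]],
[[[[[66186917740942022672384]],[[]],[[26826030429840205919879168]]],[],
[[[31507676155257611505106944]],[[4259947069857016160190464]],[]],[[[]],[],[[]]],
[[[52167428568660639744000]],[],[[417948173426435171549184]]]],[[[[]],[],[[]]],[[[]],[[]],[[]]],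
[[[]],[[]],[]],[[[]],[[]],[[]]],[[[]],[],[[]]]],[[[[26749273827376864010698752]],[[]],
[[12477030676028269656426954752]]],[[[4235966248808542030528512]],[[]],
[[1871568930138376967307657216]]],[[]],[[],[[454528213288875097882624]],
[[42802247476670887886848]]],[[]]],[[[],[[]],[[]]],[[[]],[],[[]]],[[[]],[],[[]]],[[[]],[[]]],
[[[]],[[]],[]]],[[[[233346738893661484020137984]],[[1871568930138376967307657216]],[]],[[]],
[[[381340609810500990009344]],[[]],[[193744757972580214725672960]]],[[[42796447940063337119744]],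
[],[[1714296390574437693103538176]]],[[],[]]],[[[[]],[],[[]]],[[],[[]],[[]]],[[[]],[[]]],[[],[]],
[[[]],[],[[]]]],[[[[454528213288875097882624]],[],[[16172121889512205580876382208]]],[[]],
[[[16172121886035730408668135424]],[[1714296390574437693103538176]],[]],[[],[]],
[[[26786452807640925972987904]],[],[[12398757448025279308191236096]]]]],
[[[[[21764215895554547905462272]],[[]],[[3938680844879380792475648]]],[],
[[[3938607076476033132134400]],[[416214041947804440494080]],[]],[[[]],[],[[]]],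
[[[7092930793298588598272]],[],[[61393161599757194362880]]]],[[[[]],[],[[]]],[[[]],[[]],[[]]],
[[[]],[[]],[]],[[[]],[[]],[[]]],[[[]],[],[[]]]],[[[[174397072719428516256415744]],[[]],
[[1869002296566261546250993664]]],[[[24180315386903356516597760]],[[]],
[[174718265014431974521044992]]],[[]],[[],[[3957790483347646193074176]],
[[416785746898343017054208]]],[[]]],[[[],[[]],[[]]],[[[]],[],[[]]],[[],[],[[]]],[[[]],[[]]],[[[]],
[[]],[]]],[[[[21874020432316387729375232]],[[174689857082601453280051200]],[]],[[]],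
[[[2720457795051281222991872]],[[]],[[29165390893917132206112768]]],[[[416804621622929180852224]],
[],[[272641257555852569273171968]]],[[],[]]],[[[[]],[],[[]]],[[]],[[[]],[[]]],[[],[]],[[[]],[],
[[]]]],[[[[42578617855413245444096]],[],[[1714335340003069250513305600]]],[[]],
[[[1714484712801504109040500736]],[[272036793546595342351335424]],[]],[[],[]],
[[[193428211933784400373743616]],[],[[1869001678892927198980734976]]]]],[[[[[]],[[]],[[]]],[],
[[[]]],[[[]],[],[[]]],[[[]],[],[[]]]],[[[]],[[],[[]],[[]]],[[]],[[[]],[],[[]]],[[[]],[],[[]]]],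
[[[[]],[[]],[[]]],[[[]],[[]],[[]]],[],[[]],[[]]],[[[],[[]],[[]]],[[]],[[]],[[[]],[[]],[]],[[[]],
[[]],[]]],[[[[]]],[],[[[]],[[]],[[]]],[[],[]],[[],[]]],[[[[]],[],[[]]],[[]],[[[]],[[]]],[[],[]],
[[[]],[],[[]]]],[[[[]],[],[[]]],[[]],[[[]],[[]]],[[],[]],[[[]],[],[[]]]]]],[[[[[[]],[[]],[[]]],
[[],[],[]],[[[]],[[]],[[]]],[[[]],[],[[]]],[[[]],[],[[]]]],[[],[[],[[]],[[]]],[[],[],[]],[[[]],[],
[[]]],[[[]],[],[[]]]],[[[[]],[[]],[[]]],[[[]],[[]],[[]]],[],[[],[[]],[[]]],[[],[[]],[[]]]],[[[],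
[[]],[[]]],[],[[]],[[[]],[[]],[]],[[[]],[[]],[]]],[[[[]],[[]],[[]]],[],[[[]],[[]],[[]]],[[[]],[],
[[]]],[[[]],[],[[]]]],[[[[]],[],[[]]],[],[[[]],[[]],[]],[[]],[[[]],[],[[]]]],[[[[]],[],[[]]],[],
[[[]],[[]],[]],[[]],[[[]],[],[[]]]]],[[[[[]],[[]],[[]]],[[],[],[]],[[[]],[],[[]]],[[[]],[],[[]]],
[[[]]]],[[[[]]],[[[]],[[]],[[]]],[[[]],[],[[]]],[[[]],[],[[]]],[[[]],[],[[]]]],[[[[]],[[]],[[]]],
[[[]],[[]],[[]]],[],[[]],[[],[[]],[[]]]],[[[[]],[[]],[[]]],[],[[[]],[[]],[]],[[[]],[[]],[]],[[[]],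
[[]],[]]],[[[[]],[],[[]]],[],[[[]],[[]],[]],[[]],[[]]],[[[[]],[],[[]]],[[]],[[[]],[[]],[]],[[]],
[[[]],[],[[]]]],[[[[]],[[]],[[]]],[[],[[]],[[]]],[[[]],[[]],[]],[[[]],[],[[]]],[[[]],[],[[]]]]],
[[[[[]],[[]],[[]]],[[],[],[]],[[[]],[[]],[[]]],[[[]],[],[[]]],[[[]],[],[[]]]],[[[[]],[[]],[[]]],
[[],[[]],[[]]],[[[]],[[]],[[]]],[[[]],[],[[]]],[[[]],[],[[]]]],[[],[]],[[[],[[]],[[]]],[[[]],[[]],
[[]]],[[[]],[[]],[[]]],[[[]],[[]],[]],[[[]],[[]],[]]],[[],[],[]],[[[[]],[],[[]]],[[[]],[[]],[[]]],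
[[[]],[[]],[]],[[[]],[[]],[[]]],[[[]],[],[[]]]],[[[[]],[],[[]]],[[[]],[[]],[[]]],[[[]],[[]],[]],
[[[]],[[]],[[]]],[[[]],[],[[]]]]],[[[],[[[]],[[]],[[]]],[[[]],[],[[]]],[[[]],[],[[]]],[[[]],[],
[[]]]],[[[[]],[[]],[[]]],[[],[],[]],[[[]],[],[[]]],[[[]],[],[[]]],[[[]],[],[[]]]],[[[[]],[[]],
[[]]],[],[[[]],[],[[]]],[[[]],[],[[]]],[[[]],[],[[]]]],[[[[]],[[]],[[]]],[[[]],[[]],[[]]],[[],
[[]],[[]]],[[]],[[]]],[[[[]],[],[]],[[[]],[],[]],[[]]],[[[[]],[],[[]]],[[[]],[],[[]]],[[]],[[],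
[[]],[[]]],[[]]],[[[[]],[[]],[[]]],[[[]],[[]],[[]]],[[]],[[],[[]],[[]]],[[]]]],[[[[[]],[[]],[[]]],
[[[]],[[]],[[]]],[],[[],[[]],[[]]],[[],[[]],[[]]]],[[],[]],[[[[]],[[]],[[]]],[[],[[]],[[]]],[[[]],
[[]],[[]]],[[[]],[],[[]]],[[[]],[],[[]]]],[[[[]],[[]],[[]]],[[],[[]],[[]]],[[[]],[[]],[[]]],[[[]],
[],[[]]],[[[]],[],[[]]]],[[],[],[]],[[[],[[]],[[]]],[[[]],[],[[]]],[[[]],[],[[]]],[[[]],[[]]],
[[[]],[[]],[]]],[[[],[[]],[[]]],[[[]],[],[[]]],[[[]],[],[[]]],[[[]],[[]]],[[[]],[[]],[]]]],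
[[[[[]],[[]],[[]]],[],[[[]],[[]],[]],[[[]],[[]],[]],[[[]],[[]],[]]],[[[],[],[]],[[[]],[[]],[[]]],
[[[]],[[]],[]],[[[]],[[]],[]],[[[]],[[]],[]]],[[[[]],[[]],[[]]],[[[]],[[]],[[]]],[[],[[]],[[]]],
[[]],[[]]],[[[[]],[[]],[[]]],[],[[[]],[],[[]]],[[],[],[[]]],[[],[],[[]]]],[[[[]]],[],[[[]],[],
[]]],[[[[]],[[]],[]],[[]],[[[]],[],[[]]],[[[]],[],[[]]],[[],[]]],[[[[]],[[]],[]],[[]],[[[]],[[]],
[[]]],[[[]],[],[[]]],[[],[]]]],[[[[[]],[[]],[[]]],[],[[[]],[[]],[[]]],[[[]],[],[[]]],[[[]],[],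
[[]]]],[[],[]],[[[[]],[[]],[[]]],[[[]],[[]],[[]]],[[],[[]],[[]]],[[],[[]],[[]]],[[],[[]],[[]]]],
[],[[[[]],[[]],[[]]],[[],[[]],[[]]],[[[]],[[]],[[]]],[[[]],[],[[]]],[[[]],[],[[]]]],[[[[]],[],
[[]]],[[],[[]],[[]]],[[[]],[[]]],[[],[]],[[[]],[],[[]]]],[[[[]],[],[[]]],[[],[[]],[[]]],[[[]],
[[]]],[[],[]],[[[]],[],[[]]]]],[[[[[]],[[]],[[]]],[],[[[]],[[]],[]],[[[]],[],[[]]],[[[]],[],
[[]]]],[[[[]],[],[[]]],[[[]],[[]],[[]]],[[[]],[[]],[]],[[[]],[[]],[[]]],[[[]],[],[[]]]],[[[[]],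
[[]],[[]]],[[[]],[[]],[[]]],[[]],[[],[[]],[[]]],[[]]],[[[],[[]],[[]]],[[[]],[],[[]]],[[],[],[[]]],
[[[]],[[]]],[[[]],[[]],[]]],[[[[]],[[]],[]],[[]],[[[]],[[]],[[]]],[[[]],[],[[]]],[[],[]]],[[[[]],
[],[[]]],[[]],[[[]],[[]]],[[],[]],[[[]],[],[[]]]],[[[[]],[],[[]]],[[]],[[[]],[[]],[]],[[],[]],
[[[]],[],[[]]]]],[[[[[]],[],[[]]],[],[[[]],[[]],[]],[[]],[[[]],[],[[]]]],[[[],[],[]],[[]],[[]],
[[]]],[[[[]],[],[[]]],[[[]],[],[[]]],[[]],[[],[[]],[[]]],[[]]],[[[]],[[]],[],[[],[]]],[[[[]],[[]],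
[]],[[]],[[[]],[],[[]]],[[[]],[],[[]]],[[],[]]],[[[]],[[]],[[],[]],[[],[]]],[[[[]],[],[[]]],[[]],
[[[]],[[]],[]],[[],[]],[[[]],[],[[]]]]]],[[[[[[3348529168290496364937216]],[],
[[529551551427010889940992]]],[[],[]],[[[21990898709963633196072960]],
[[2738972632685351707086848]]],[[]],[[[3046076315861879414063104]],[],
[[455727683893626058997760]]]],[[],[[],[]],[[]],[[]]],[[[[21990889353911836268822528]],[],
[[3022614399262715433451520]]],[[[3036562408173068822265856]],[],[[455118648643176114421760]]],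
[[],[[]],[[]]],[[],[[456326338490479832926208]],[[42502559362658168483840]]],[[],[[]],[[]]]],[[[],
[]],[],[[]],[[]],[[]]],[[[[47671107593985497759744]],[[6549026600609351139328]],[[]]],[],
[[[129715105881418530816]],[],[[1038872932795080769536]]],[[[2734330899793701522661376]],[],
[[1878002144131416064]]],[[[]],[],[[]]]],[[[]],[],[[]],[[]],[[]]],[[[[528923499654033887461376]],
[[]],[[52314985909626762952704]]],[],[[[2729531303904025419710464]],[[7102145087715775021056]],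
[]],[[[]],[],[[]]],[[[34078976616443636279738368]],[],[[666388643206972047360]]]]],[[[[[]],[],
[[]]],[[],[]],[[[]],[[]]],[[]],[[[]],[],[[]]]],[[[[]],[],[[]]],[[[]],[[]],[[]]],[[[]],[[]]],[[[]],
[],[[]]],[[[]],[],[[]]]],[[[[]],[],[[]]],[[[]],[],[[]]],[[]],[[],[[]],[[]]],[[]]],[[[[]],[[]],
[[]]],[],[[[]],[],[[]]],[[[]]],[[[]],[[]],[]]],[[[[]],[[]],[]],[],[[[]],[],[[]]],[[[]]],[[]]],
[[[[]],[[]],[[]]],[[],[[]],[[]]],[[[]]],[[[]],[],[[]]],[[[]],[],[[]]]],[[[[]],[],[[]]],[],[[[]],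
[[]],[]],[],[[]]]],[[[[[531884636638927248162816]],[],[[966203979294239096832]]],[[],[]],
[[[213701693262945057876475904]],[[7702247663336528281600]]],[[]],[[[340010681752983290511360]],
[],[[162147317351186432]]]],[[[[252991414563274257878482944]],[],[[21913007628274599668482048]]],
[[],[],[]],[[[31471059230912600338333696]],[[252080221554012268040290304]],[[]]],[[],[],[]],
[[[3650389400774198148726784]],[[]],[[1392835430811114419171360768]]]],[[[],[],[[]]],[[]],[[]],[],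
[[[]]]],[[[],[],[]],[[[33852930351710917298814976]],[],[[3650613067831896164532224]]],
[[[194033039113579745717780480]],[],[[33929023033727215902654464]]],[[]],
[[[34001656654060786880086016]],[[194963049044513133414055936]],[]]],[[[[]],[[]],[]],[[],[[]],
[[]]],[[[]],[],[[]]],[[[]],[],[[]]],[[[]],[[]],[[]]]],[[[]],[[],[[3050728319229654301958144]],
[[453937626855009956167680]]],[[]],[[[26711484944777012781842432]],[],
[[232737559472636027195097088]]],[[[3627221352222503128530944]],[],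
[[2171234360791219368156463104]]]],[[[[]],[],[[]]],[[[]],[[]],[[]]],[[[]],[[]],[]],[[[]],[[]],
[[]]],[[[]],[],[[]]]]],[[[],[[[]],[[]],[[]]],[[[]],[[]]],[[[]],[],[[]]],[[[]],[],[[]]]],[[[[]],[],
[[]]],[[],[]],[[[]],[[]],[]],[[]],[[[]],[],[[]]]],[[[[]],[],[[]]],[],[[[]],[[]],[]],[[]],[[[]],[],
[[]]]],[[[[]],[[]],[[]]],[[[]],[[]],[[]]],[[]],[],[[]]],[[[[]],[[]],[]],[[[]],[[]],[]],[[]],[[]],
[[],[[]],[[]]]],[[[[]],[[]],[[]]],[[[]],[[]],[[]]],[],[[]],[[],[[]],[[]]]],[[[[]],[],[[]]],[[[]],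
[],[[]]],[[]],[[],[[]],[[]]],[]]],[[[[[213682806065680172923748352]],[],
[[341237532135180753436672]]],[[[33852312383533756316647424]],[],[[47372411415116552077312]]],[[],
[[]],[[]]],[[],[[1038891782611941195776]],[[22695577988890624]]],[[],[[]],[[]]]],[[[],[],[[]]],
[[]],[[]],[],[[[]]]],[[[[34001666600259489915469824]],[],[[3636596963937041571381248]]],[[],[],
[]],[[[4236116146622941854957568]],[[33925490045458854900137984]],[[]]],[[],[],[]],
[[[381331528267784840544256]],[[]],[[233049010749873616660201472]]]],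
[[[[3943326002212839700299776]],[],[[341781567142781446520832]]],[[],[],[]],
[[[341837055854694002327552]],[[3957792771198319153119232]],[[]]],[[],[],[]],
[[[16231540480205127680]],[[]],[[21950158942926201830768640]]]],[[[],[[]],[[]]],[[[]],[[]],[]],
[[[]],[[]],[]],[[[]],[[]],[]],[[[]],[[]]]],[[[],[[456317975306522230521856]],
[[42796465699516865052672]]],[[]],[[]],[[[232723241321321354455154688]],
[[21876418945862164983840768]],[]],[[[2171458644957013152819576832]],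
[[253284207050949653271412736]],[]]],[[[],[[]],[[]]],[[[]],[],[[]]],[[],[],[[]]],[[[]],[[]]],
[[[]],[[]],[]]]],[[[[[]],[[]],[[]]],[],[[[]],[],[[]]],[[[]]],[[[]],[[]],[]]],[[[],[]],[[[]],[],
[[]]],[[[]],[],[[]]],[[]],[[[]],[[]],[]]],[[[[]],[[]],[[]]],[[[]],[[]],[[]]]],[[[[]],[],[[]]],[],
[[[]],[[]],[]],[],[[[]],[],[[]]]],[[[[]],[],[[]]],[],[[[]],[[]]],[[],[]],[[[]],[],[[]]]],[[[[]]],
[],[[[]],[[]],[[]]],[[],[]],[[[]],[],[[]]]],[[[[]],[[]],[]],[],[[[]],[],[[]]],[[],[],[[]]],[]]],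
[[[[[8264431897592637423616]],[[2734473896953965735313408]],[[]]],[],
[[[233941686778333540074389504]],[],[[453993255320931276947456]]],[[[7111954033308979953664]],[],
[[42871495941707528142848]]],[[[]],[],[[]]]],[[[[]],[[]],[]],[[],[[]],[[]]],[[[]],[],[[]]],[[[]],
[],[[]]],[[[]],[[]],[[]]]],[[[[232742274830110569448603648]],[[1869002296566261546250993664]],
[[]]],[[[21874020432316387729375232]],[[174689857082601453280051200]],[[]]],[[]],[[]],[[],
[[47378175745487562080256]],[[7121019746897245503488]]]],[[[],[[]],[[]]],[[[]],[[]],[]],[[[]],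
[[]],[]],[[[]],[[]],[]],[[[]],[[]]]],[[[[29017817659722506403053568]],[],
[[194660968550809734846873600]]],[[]],[[[3636596999407211556110336]],
[[29165390893917132206112768]],[[]]],[[],[]],[[[5359650706052385603584]],[],
[[251782713635973505530986496]]]],[[[[3957790483347646193074176]],[],
[[1716677616207846311257440256]]],[[]],[[[1716789781049720199228588032]],
[[272641257555852569273171968]],[]],[[],[]],[[[4245850262314313251291136]],[],
[[1869001678892927198980734976]]]],[[[[]],[],[[]]],[[],[[]],[[]]],[[[]],[[]]],[[],[]],[[[]],[],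
[[]]]]],[[[[[]],[[]],[[]]],[],[[[]]],[[[]],[],[[]]],[[[]],[],[[]]]],[[[]],[[],[[]],[[]]],[[]],
[[[]],[],[[]]],[[[]],[],[[]]]],[[[[]],[[]],[[]]],[[[]],[[]],[[]]],[],[[]],[[]]],[[[],[[]],[[]]],
[[]],[[]],[[[]],[[]],[]],[[[]],[[]],[]]],[[[[]]],[],[[[]],[[]],[[]]],[[],[]],[[],[]]],[[[[]],[],
[[]]],[[]],[[[]],[[]]],[[],[]],[[[]],[],[[]]]],[[[[]],[],[[]]],[[]],[[[]],[[]]],[[],[]],[[[]],[],
[[]]]]],[[[[[3631796216797455674507264]],[[]],[[2019021853779620888429199360]]],[],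
[[[5312675877153346158592]],[[213706344112248321345323008]],[]],[[[]],[],[[]]],
[[[3343805557679366976045056]],[],[[31435613521868730637746176]]]],[[[[]],[],[[]]],[[[]],[[]],
[[]]],[[[]],[[]],[]],[[[]],[[]],[[]]],[[[]],[],[[]]]],[[[[29017227366091362435858432]],[[]],
[[11257824414459648391724400640]]],[[[2720307986473525455880192]],[[]],
[[1554716992563699225016270848]]],[[]],[[],[[31432099270685314879848448]],
[[3343661551985189231525888]]],[[]]],[[[],[[]],[[]]],[[[]],[],[[]]],[[],[],[[]]],[[[]],[[]]],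
[[[]],[[]],[]]],[[[[3324768536390307031810048]],[[1554716992563699225016270848]],[]],[[]],
[[[531893711355351759060992]],[[]],[[175299120757540759858585600]]],
[[[3338792673295199051186176]],[],[[2011690343642055747492216832]]],[[],[]]],[[[[]],[],[[]]],[[]],
[[[]],[[]]],[[],[]],[[[]],[],[[]]]],[[[[31432099270685314879848448]],[],
[[17448728956113833147118125056]]],[[]],[[[17448742757754343431153647616]],
[[2011690343642055747492216832]],[]],[[],[]],[[[1557212744526074270256726016]],[],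
[[11142083707116812756475969536]]]]]]] : List (List (List (List (List (List (List (ℕ))))))))

/-- State number 17. -/
def wst17 : L ℕ 7 := (
[[[[[[[1392798851507514653091561472]],[[]],[[174713471201441505165180928]]],[[[]],[[]],[[]]],
[[[874006238739820358944153403392]],[[109727058227724606875828748288]],[[]]],[[[]],[[]],[[]]],
[[[109262866739046913357941571584]],[[]],[[11180155869629109669759287296]]]],[],
[[[[3353181115935232459014144]],[[]],[[31622146574427219529039872]]],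
[[[21761882672980660785774592]],[],[[3929158794977115211563008]]],[],[[],
[[52245792618348885835776]],[[380196765136713196503040]]]],[],
[[[[139270823977988349463294377984]],[[17409141209197663499625955328]],[[]]],[],
[[[13656649782073975971076112384]],[],[[2168853069871310024023769088]]],
[[[33929069287910346984521728]],[],[[12380316828253731386120994816]]]],[],
[[[[14952306217901960385513127936]],[[]],[[1554869915216420424812331008]]],[],
[[[2173875297546514175973392384]],[[252070925493618289512022016]],[]],[],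
[[[3036927830523636789280768]],[],[[1395177752263346345675325440]]]]],[[[[[]],[],[[]]],[[],[]],
[[[]],[[]]],[[]],[[[]],[],[[]]]],[[],[[[]],[[]],[[]]],[],[[[]],[[]],[[]]]],[[[[]],[],[[]]],[[[]],
[],[[]]],[],[[],[[]],[[]]]],[[[[]],[[]],[[]]],[[[]],[],[[]]],[],[[[]],[],[[]]]],[[[[]],[[]]],[],
[[[]]],[[[]],[],[[]]]],[[[[]],[[]],[[]]],[[],[[]],[[]]],[[[]],[],[[]]],[[[]],[],[[]]]],[[[[]],[],
[[]]],[],[[[]]],[],[[[]]]]],[[[[[14932652026018249056955924480]],[[]],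
[[1871495706222267620816584704]]],[[[]],[[]],[[]]],[[[5705058876003439981305750618112]],
[[720579630616997149587245891584]],[[]]],[[[]],[[]],[[]]],[[[874044012579194681519554166784]],
[[]],[[129684081815026695977436282880]]]],[[[[532502737709644262670336]],[[]],
[[17409462115584182087446691840]]],[],[[[794834900535250794126696775680]],
[[99656704406833807453541466112]],[[]]],[],[[[139423073128310778099142754304]],[[]],
[[13657551462382777537911586816]]]],[[],[],[[],[],[]],[],[[],[],[]]],[[],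
[[[14875530277527805831679311872]],[],[[1859518004422607468107038720]]],
[[[139277925881941637281712439296]],[],[[12476435732790736545495920640]]],[],
[[[17448152464196057488603217920]],[[1864241588235245317660016640]],[]]],[[],[[],[],[[]]],[],[],
[[[]],[],[]]],[[],[[],[[1399937326265897526675636224]],[[272631885564187989723054080]]],[],
[[[16112582289492312810250567680]],[],[[138658959367473163392526614528]]],
[[[1557212172967630907312701440]],[],[[16112582366629980346813775872]]]],[[],[[],[[]],[]],[],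
[[[]],[],[]]]],[[[[[]],[],[[]]],[[[]],[[]]],[[[]],[[]]],[[[]],[[]],[[]]],[[],[],[[]]]],[[],[],[],
[],[]],[[]],[[]],[[]],[[]]],[[[[[1395289336611528541124689920]],[[]],
[[213701625239155786843684864]]],[[[793598447739341775925965488128]],[[]],
[[139435312865677733975419879424]]],[[],[],[]],[[[]],[[119618528833482211040100876288]],
[[13675378393550321524571111424]]],[[],[],[]]],[[],[],[],[],[]],[[[[194047203942369713266360320]],
[[]],[[119625630710051151875525312512]]],[],[[[89293831830335359420647604224]],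
[[11181662302195545817464438784]]],[],[[[13734908469286219106692890624]],[],
[[2014298316221447069270802432]]]],[[[[139428062862485608988697165824]],[],
[[17428805070543394690826764288]]],[],[[[1033758225068353700115322765312]],
[[1864390896181814739496599552]]],[],[[[89610644717303539065266831360]],[],
[[194646796912573005430784000]]]],[[[],[],[[]]],[],[],[],[[[]],[],[]]],[[[],
[[16112572844686462708518748160]],[[1552415456004501005620215808]]],[],[],
[[[109248323593654581709607272448]],[[16093536913949737373231480832]]],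
[[[14893994803183332850053152768]],[[1707116621775214606003732480]],[]]],[[[],[[]],[]],[],[],
[[[]],[],[]]]],[[[[[]],[[]],[[]]],[[[]],[],[[]]],[[[]],[],[[]]],[[[]],[[]],[[]]],[[[]],[[]],[]]],
[[],[],[],[],[]],[[[[]],[[]],[[]]],[[],[]],[[],[]],[],[[],[],[]]],[[[],[],[]],[],[[]],[],[[]]],
[[[[]]],[],[[[]]],[],[[[]]]],[[[[]],[],[]],[],[[[]]],[[[]]],[[[]]]],[[[[]]],[],[[[]]],[[[]]]]],
[[[[[17448445542571674762758062080]],[[2178484926766698700625477632]],[[]]],[[],[],[]],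
[[[8923393604138745665799598374912]],[[]],[[232415991217416936270606336]]],
[[[1114185642072920914374047825920]],[[]],[[1547579144568883413984149504]]],[[]]],[[],[],[],[],
[]],[[[[8923550688918836654780580888576]],[[1114146352127790250405147967488]],[[]]],
[[[1033797217646006267680202686464]],[[128900697256137178641793548288]]],[],[],[[],
[[26785871442399384614076416]],[[3938829518550029405257728]]]],[[[],[],[]],[],[],[],[[],[],[]]],
[[[[957025601844238791215908126720]],[],[[138659109339061093088427540480]]],[],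
[[[5734148160097022409365996535808]],[[16095053236330051942124093440]]],[],
[[[175606072255083274088505344]],[],[[24181486764155920082534400]]]],
[[[[119616185386933822417688068096]],[],[[794874167007926423362290581504]]],[],
[[[718064177110776175104772276224]],[[119473493124644010447461154816]]],[],
[[[29015437885583842554707968]],[],[[213691806869836709230542848]]]],[[[[]],[],[]],[],[[[]],[],
[]]]],[[[[[]],[[]],[[]]],[[],[],[]],[[[]],[[]],[[]]],[[[]],[],[[]]],[[[]],[],[[]]]],[[],[],[],[],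
[]],[[[[]],[[]],[[]]],[[]],[],[[],[]],[[],[]]],[[[],[]],[],[],[[]],[[]]],[[[[]],[],[]],[],[[[]]],
[[[]]],[[[]]]],[[[[]]],[],[[[]]],[],[[[]]]],[[[[]]],[],[[[]]],[],[[[]]]]],
[[[[[1864393829657724823585947648]],[[]],[[233351094631409422601289728]]],[[],[],[]],
[[[957025281021942077565394485248]],[[1550070211038212484885512192]],[[]]],[[],[]],
[[[99656707349238071956145700864]],[[]],[[232723386590006668891258880]]]],[[],[],[],[]],
[[[[956929464200311807591000834048]],[[]],[[99190060202611801764806000640]]],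
[[[89610457648725627283989069824]],[],[[14894901273899004646670729216]]],[],[[],
[[175299414716232094080827392]],[[21800261423518162878464000]]]],[[[],[],[]],[],[],[[],[],[]]],
[[[[119466050140242104524283576320]],[[16094732042775149166533017600]],[]],[],
[[[877816767905641210205129670656]],[],[[2176144403869477920032423936]]],
[[[2021325797202108423413530624]],[],[[251773271100491571379830784]]]],[[[[]],[],[]],[],[[[]],[],
[]]],[[[[17428498122522371805040082944]],[],[[89762820053256493537240809472]]],[],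
[[[129367231066688155501729939456]],[[12400259165196822407010058240]],[]],[],
[[[213073475467522811986444288]],[],[[1402469105133817677083574272]]]]]],[[[[[[]],[[]],[[]]],
[[[]],[[]]],[[[]],[[]],[]],[[[]]],[[[]],[],[[]]]],[[],[[[]],[]],[[[]]],[[]]],[[[[]],[[]],[[]]],
[[[]],[[]],[[]]],[[],[],[]],[[[]],[[]],[[]]],[[],[]]],[[[[]],[[]],[[]]],[[],[],[]],[[[]],[],[[]]],
[[[]],[],[[]]],[[[]],[[]],[]]],[[[[]],[[]],[]],[[],[],[]],[[[]],[],[[]]],[[[]],[],[[]]],[[]]],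
[[[[]],[[]],[[]]],[[],[],[]],[[[]],[],[[]]],[[[]],[],[[]]],[[[]],[],[[]]]],[[[[]],[],[[]]],[[],
[]],[[[]],[[]],[[]]],[[]],[[[]],[[]],[[]]]]],[[[[[]],[],[[]]],[[],[]],[[[]],[[]],[]],[[]],[[[]],
[],[[]]]],[[],[[[]],[[]],[[]]],[],[[[]],[[]],[[]]]],[[[[]],[],[[]]],[[[]],[],[[]]],[],[[],[[]],
[[]]]],[[[[]],[[]],[[]]],[[[]],[],[[]]],[],[[[]],[],[[]]]],[[[[]],[[]]],[],[[[]]],[[[]],[],[[]]]],
[[[[]],[[]],[[]]],[[],[[]],[[]]],[[[]],[],[[]]],[[[]],[],[[]]]],[[[[]],[],[[]]],[],[[[]]],[],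
[[[]]]]],[[[[[]],[[]],[[]]],[[[]],[[]],[[]]],[[[]],[[]],[]],[[[]],[[]],[[]]],[[[]],[],[[]]]],
[[[[]],[[]],[[]]],[],[[[]],[[]],[]],[],[[[]],[],[[]]]],[[],[],[[],[],[]],[],[[],[]]],[[],[[[]],
[[]],[[]]],[[[]],[],[[]]],[],[[[]],[[]],[[]]]],[[],[[],[],[]],[],[],[[]]],[[],[[[]],[[]],[[]]],[],
[[[]],[],[[]]],[[[]],[[]],[[]]]],[[],[[],[]],[],[[]]]],[[[[[]],[],[[]]],[[[]],[[]],[[]]],[[[]],
[[]],[]],[[[]],[[]],[[]]],[[[]],[],[[]]]],[[[[]],[],[[]]],[],[[[]],[[]],[]],[],[[[]],[],[[]]]],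
[[[[]],[],[[]]],[],[[[]],[[]]],[],[[[]],[],[[]]]],[[[[]],[[]],[[]]],[[],[[]]],[[[]]],[],[[[]],[],
[[]]]],[[[[]],[[]],[]],[[[]],[[]]],[],[],[[],[],[[]]]],[[[[]],[[]],[[]]],[[[]],[[]]],[],[[[]]],
[[[]],[[]],[[]]]],[[[[]],[],[[]]],[[[]],[],[[]]]]],[[[[[]],[[]],[[]]],[[[]],[[]],[[]]],[[],[],[]],
[[[]],[[]],[[]]],[[],[]]],[[],[],[[],[],[]],[],[[],[]]],[[[[]],[[]],[[]]],[],[[[]],[[]]],[],[[[]],
[],[[]]]],[[[[]],[[]],[[]]],[],[[[]],[[]]],[],[[[]],[],[[]]]],[[[],[],[]],[],[],[],[[],[],[]]],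
[[[[]],[[]],[[]]],[],[],[[[]],[[]]],[[[]],[[]],[]]],[[[],[]],[],[],[[],[],[]]]],[[[[[]],[[]],
[[]]],[[[]],[],[[]]],[[[]],[],[[]]],[[[]],[[]],[[]]],[[[]],[[]],[]]],[[],[[[]],[],[[]]],[[[]],[],
[[]]],[],[[[]],[[]],[]]],[[[[]],[[]],[[]]],[[],[[]]],[[],[[]]],[],[[],[],[[]]]],[[[[]],[],[[]]],
[],[[[]],[[]]],[],[[],[],[[]]]],[[[[]],[],[[]]],[],[[[]],[[]]],[],[[[]],[],[[]]]],[[[[]],[[]],
[[]]],[],[[[]],[[]]],[[[]],[[]]],[[[]],[[]],[[]]]],[[[[]],[[]],[]],[],[[[]],[],[[]]],[[[]],[],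
[[]]]]],[[[[[]],[[]],[]],[[],[],[]],[[[]],[[]],[[]]],[[[]],[[]],[[]]],[[],[],[]]],[[],[[],[],[]],
[],[],[[]]],[[[[]],[[]],[]],[[[]],[[]]],[],[],[[],[[]],[[]]]],[[[],[],[]],[],[],[],[[],[],[]]],
[[[[]],[[]],[[]]],[],[[[]],[[]]],[],[[[]],[],[[]]]],[[[[]],[[]],[[]]],[],[[[]],[[]]],[],[[[]],[],
[[]]]],[[[],[],[]],[],[[],[],[]]]],[[[[[]],[[]],[[]]],[[],[[]],[[]]],[[[]],[[]],[[]]],[[[]],[],
[[]]],[[[]],[],[[]]]],[[],[[],[[]],[[]]],[],[[[]],[],[[]]],[[[]],[],[[]]]],[[[[]],[[]],[[]]],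
[[[]]],[],[[],[[]]],[[],[[]]]],[[[],[[]],[[]]],[],[],[[[]],[[]]],[[[]],[[]]]],[[[[]],[[]],[[]]],
[],[[[]]],[[[]],[[]]],[[[]],[[]]]],[[[[]],[],[[]]],[],[[[]],[[]]],[],[[[]],[],[[]]]],[[[[]],[],
[[]]],[],[[[]],[[]]],[],[[[]],[],[[]]]]],[[[[[]],[],[[]]],[[],[],[]],[[[]],[[]],[]],[[],[],[]],
[[[]],[],[[]]]],[[],[[],[],[]],[],[[]]],[[[[]],[],[[]]],[[[]],[],[[]]],[],[[],[[]],[[]]]],[[[],[],
[]],[],[],[[],[],[]]],[[[[]],[[]],[]],[],[[[]],[],[[]]],[[[]],[],[[]]]],[[[],[],[]],[],[[],[],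
[]]],[[[[]],[],[[]]],[],[[[]],[[]],[]],[],[[[]],[],[[]]]]]],[[[[[[3943180662336283155103744]],
[[]],[[24256454032512325238390784]]],[[[]],[[]],[[]]],[[[1395215540711279537858543616]],
[[194056284370726002854723584]],[]],[[[]],[[]],[[]]],[[[271725267221346826179837952]],[],
[[2166547402538612883885948928]]]],[[[[]],[],[[]]],[[[]],[[]]],[[[]],[[]]],[[[]],[[]],[[]]],[[],
[],[[]]]],[[[[31661162012352659889061888]],[[]],[[214310435763325895939981312]]],
[[[193447244272187533513195520]],[[]],[[33889519752447509596831744]]],[[],[],[]],[[[]],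
[[21875228547829172646445056]],[[252386882514486802561105920]]],[[],[],[]]],[[[[]],[[]],[[]]],
[[[]],[],[[]]],[[[]],[],[[]]],[[[]],[[]],[[]]],[[[]],[[]],[]]],[[[[272013112574637972112015360]],
[[33889519752447509596831744]],[]],[[],[],[]],[[[2171308110876173371065761792]],[[]],
[[3329270677673692279611392]]],[[[252968170548276586678321152]],[[]],
[[34041824722830502609944576]]],[[]]],[[[[]],[[]],[[]]],[[],[],[]],[[[]],[[]],[[]]],[[[]],[],
[[]]],[[[]],[],[[]]]],[[[[21875228547829172646445056]],[],[[213687089187924076439273472]]],[[],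
[]],[[[232425733386947634148671488]],[[34041824722830502609944576]],[[]]],[[]],
[[[1405002064030580055025385472]],[[]],[[272036795815842137843957760]]]]],
[[[[[24217476645360514663186432]],[[]],[[213096939816338040190664704]]],[[[]],[[]],[[]]],
[[[16209598663672064475985346560]],[[1712029063506766287899492352]],[]],[[[]],[[]],[[]]],
[[[1554870487211644283814772736]],[],[[12456795261754105940864413696]]]],[[[[]],[],[[]]],[[[]],
[[]]],[[[]],[[]]],[[[]],[[]],[[]]],[[],[],[[]]]],[[[[233927448252067661577977856]],[[]],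
[[1402584212819191662163132416]]],[[[1702358838255223451106148352]],[[]],
[[194948887655338304946331648]]],[[],[],[]],[[[]],[[251787435966700256035078144]],
[[1859558153614929081116262400]]],[[],[],[]]],[[[[]],[[]],[[]]],[[[]],[],[[]]],[[[]],[],[[]]],
[[[]],[[]],[[]]],[[[]],[[]],[]]],[[[[1557251168508547032280104960]],
[[194051781058480533442142208]],[]],[[],[],[]],[[[12438335900215540761035800576]],[[]],
[[21763026373155049510636544]]],[[[1866582646229767977110274048]],[[]],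
[[194349437720576697387732992]]],[[]]],[[[[]],[[]],[[]]],[[],[],[]],[[[]],[[]],[[]]],[[[]],[],
[[]]],[[[]],[],[[]]]],[[[[253284423798785144508121088]],[],[[1395252121034942396206448640]]],[[],
[]],[[[2178597700787905266890964992]],[[194641930358000112954249216]],[[]]],[[]],
[[[16171215561831134962086051840]],[[]],[[1562121053759256080253321216]]]]],[[[[[]],[],[[]]],[[],
[]],[[[]],[[]]],[[]],[[[]],[],[[]]]],[[],[],[[],[[]]],[],[[[]],[],[[]]]],[[],[],[[],[[]],[]],[],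
[[[]],[],[[]]]],[[],[[],[],[[]]],[[]],[],[[[]]]],[[[],[[]]],[[],[[]],[]],[[]],[],[[]]],[[],[[],
[[]],[[]]],[],[[[]]],[[[]]]],[[[[]],[],[[]]],[[[]],[],[[]]],[[[]]],[[]],[[[]]]]],[[[[[]],[],[[]]],
[[[]],[[]]],[[[]],[[]]],[[[]],[[]],[[]]],[[],[],[[]]]],[[[[271408643811576171305369600]],[[]],
[[2023932487725926812433252352]]],[],[[[1549957418860497188557946880]],
[[174104362001627343523151872]],[]],[],[[[3929158794405233906155520]],[],
[[2166546794088795150129102848]]]],[[[[1554717001210609960075919360]],[[]],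
[[14932977643350962163251412992]]],[],[[[253274976797126698138075136]],
[[26596423385265463554473984]]],[],[[[21953102065585677599375360]],[],
[[193749400894162814937333760]]]],[[[[]],[[]],[[]]],[[],[[]]],[[],[[]]],[],[[],[],[[]]]],
[[[[13617652552310208563469352960]],[[2021554241102038251266375680]],[]],
[[[1871457355427864413827235840]],[[174397294026019192512708608]]],[[],[[]]],[],[[],
[[3348235100690539325177856]],[[31472230029491129584484352]]]],[[[[]],[[]],[[]]],[[[]]],[],[[],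
[[]]],[[],[[]]]],[[[[24407607383070599142178816]],[],[[12476426215334505699143843840]]],
[[[252084942676947621928763392]],[],[[1704663924943529327544238080]]],[[],[],[[]]],[[],
[[21876399927160380787326976]],[[233025252550189901753090048]]],[[],[[]]]]],[[[[[]],[],[[]]],
[[[]],[],[[]]],[[],[],[]],[[],[[]],[[]]],[]],[[],[],[[],[[]],[]],[],[[[]],[],[[]]]],[[],[],[],[],
[]],[[[],[],[[]]],[],[[]],[],[[[]]]],[[[],[[]],[]],[],[[]],[],[[]]],[[[],[[]],[[]]],[],[],[[[]]],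
[[[]]]],[[[[]],[],[[]]],[],[[[]]],[[]],[[[]]]]],[[[[[]],[[]],[[]]],[[[]],[],[[]]],[[[]],[],[[]]],
[[[]],[[]],[[]]],[[[]],[[]],[]]],[[],[[[1404922936719553708943212544]],[[]],
[[213984598239212294800408576]]],[[[16190850937945528905492332544]],[[]],
[[1856986844081313091506176000]]],[],[[[1395328268757665248102580224]],
[[232128145935334772993687552]],[[]]]],[[],[[],[]],[[],[]],[],[[],[],[]]],
[[[[16172126533480303215259942912]],[[]],[[1407304171565042903927685120]]],[[],[]],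
[[[1866620443748057515068227584]],[[175308638178059059479707648]]],[],
[[[232425657292712502800416768]],[],[[29168924010644142372683776]]]],
[[[[119463858925023419752572256256]],[[]],[[17447245915171232079982112768]]],[[],[]],
[[[17429093211010250788672634880]],[[2021326387351586995517456384]]],[],
[[[7701520333602618867712]],[],[[3050803349199651379085312]]]],[[[[]],[[]],[[]]],[],[[[]]],[[[]]],
[[[]]]],[[[[16190548852858184746297458688]],[[2178713970611226223241723904]],[[]]],[[],[],[]],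
[[[2176106625077366215480967168]],[],[[272310769256450576452419584]]],
[[[57038522488576636354560]],[],[[31659953309368570141999104]]],[[[]]]]],[[[[[]],[[]],[]],[[],[],
[]],[[[]],[],[[]]],[[[]],[],[[]]],[[]]],[[],[[[]],[[]],[[]]],[],[],[[[]],[[]],[[]]]],[[],[[],[]],
[],[],[[],[],[]]],[[[[]],[[]],[[]]],[[],[]],[],[],[[[]],[[]],[[]]]],[[[[]],[],[[]]],[],[[[]]],[],
[[[]],[],[[]]]],[[[[]],[],[[]]],[],[[[]]],[],[[[]],[],[[]]]],[[[[]],[[]],[[]]],[[],[],[]],[[[]],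
[[]],[[]]],[[[]],[],[[]]],[[[]],[],[[]]]]],[[[[[]],[[]],[[]]],[[],[],[]],[[[]],[[]],[[]]],[[[]],
[],[[]]],[[[]],[],[[]]]],[[],[[[]],[[3027191443056317222617088]],
[[1400090184773955937196146688]]],[],[[[24295423499804897022312448]],[[]],
[[214003850839665869191118848]]],[[[16133743141012836390426378240]],[[]],
[[2021476912497213605911986176]]]],[[],[[]],[],[[],[]],[[],[]]],[[[[]],
[[26826601997430956006309888]],[[16114089095604199141628182528]]],[[]],[],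
[[[233323056805682560852557824]],[[26711484944777012781842432]]],
[[[1557173822182024369263345664]],[[3627221352222503128530944]]]],[[[[]],[[]],[[]]],[],[[[]]],
[[[]]],[[[]]]],[[[[213101809719636460238798848]],[[]],[[1397559577692876231759986688]]],[[],[]],
[[[2178485554086459165827465216]],[[174708824982925319670607872]]],[[[]]],
[[[233034916302515979449008128]],[],[[455727679426893883441152]]]],
[[[[119311461066422540551495614464]],[[]],[[14972872567809901049817333760]]],[[],[]],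
[[[13656054467543100148266565632]],[[33929069002071408218603520]]],[[[]]],
[[[2166511384843003834897793024]],[],[[3938454873385841197318144]]]]],[[[[[]],[],[[]]],[[],[]],
[[[]],[[]],[]],[[]],[[[]],[],[[]]]],[[],[[[]],[[]],[[]]],[],[[[]],[[]],[[]]]],[[],[[],[],[]],[],
[[],[],[]]],[[[[]],[[]],[[]]],[[],[],[]],[],[[[]],[],[[]]]],[[[[]],[[]]],[],[[[]]],[[[]],[],
[[]]]],[[[[]],[[]],[[]]],[[],[],[]],[[[]],[],[[]]],[[[]],[],[[]]]],[[[[]],[],[[]]],[],[[[]]],[],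
[[[]]]]]],[[[[[[]],[],[[]]],[[],[]],[[[]],[[]],[]],[[]],[[[]],[],[[]]]],[[],[[[]],[[]],[[]]],[],
[[[]],[[]],[[]]]],[[[[]],[],[[]]],[[[]],[],[[]]],[],[[],[[]],[[]]]],[[[[]],[[]],[[]]],[[[]],[],
[[]]],[],[[[]],[],[[]]]],[[[[]],[[]]],[],[[[]]],[[[]],[],[[]]]],[[[[]],[[]],[[]]],[[],[[]],[[]]],
[[[]],[],[[]]],[[[]],[],[[]]]],[[[[]],[],[[]]],[],[[[]]],[],[[[]]]]],[[[[[]],[[]],[[]]],[[[]],
[[]],[[]]],[[[]],[[]],[]],[[[]],[[]],[[]]],[[[]],[],[[]]]],[[],[[[]],[]],[[[]]],[[]]],[[[[]],[[]],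
[[]]],[[[]],[[]],[[]]],[[],[],[]],[[[]],[[]],[[]]],[[],[]]],[[[[]],[[]],[[]]],[[],[],[]],[[[]],[],
[[]]],[[[]],[],[[]]],[[[]],[[]],[]]],[[[[]],[[]],[]],[[],[],[]],[[[]],[],[[]]],[[[]],[],[[]]],
[[]]],[[[[]],[[]],[[]]],[[],[],[]],[[[]],[],[[]]],[[[]],[],[[]]],[[[]],[],[[]]]],[[[[]],[],[[]]],
[[],[]],[[[]],[[]],[[]]],[[]],[[[]],[[]],[[]]]]],[[[[[]],[[]],[[]]],[[[]],[[]],[[]]],[[[]],[[]],
[]],[[[]],[[]],[[]]],[[[]],[],[[]]]],[[],[[[]],[]],[[[]]],[[]]],[[[[]],[[]],[[]]],[[[]],[[]],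
[[]]],[[],[],[]],[[[]],[[]],[[]]],[[],[]]],[[[[]],[[]],[[]]],[[],[],[]],[[[]],[],[[]]],[[[]],[],
[[]]],[[[]],[[]],[]]],[[[[]],[[]],[]],[[],[],[]],[[[]],[],[[]]],[[[]],[],[[]]],[[]]],[[[[]],[[]],
[[]]],[[],[],[]],[[[]],[],[[]]],[[[]],[],[[]]],[[[]],[],[[]]]],[[[[]],[],[[]]],[[],[]],[[[]],[[]],
[[]]],[[]],[[[]],[[]],[[]]]]],[[[[[]],[],[[]]],[[[]],[[]],[[]]],[[[]],[[]],[]],[[[]],[[]],[[]]],
[[[]],[],[[]]]],[[[[]],[],[[]]],[[[]],[[]],[[]]],[[[]],[[]],[]],[[[]],[[]],[[]]],[[[]],[],[[]]]],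
[[[[]],[],[[]]],[[],[[]]],[[[]],[[]]],[[[]],[[]]],[[[]],[],[[]]]],[[]],[[[[]],[[]],[]],[[[]],
[[]]],[[[]]],[[[]]]],[[]],[[[[]],[],[[]]],[[[]],[],[[]]],[[[]],[],[[]]],[[],[],[[]]],[[[]],[[]],
[[]]]]],[[[[[]],[[]],[[]]],[[[]],[[]],[[]]],[[],[],[]],[[[]],[[]],[[]]],[[],[]]],[[[[]],[[]],
[[]]],[[[]],[[]],[[]]],[[],[],[]],[[[]],[[]],[[]]],[[],[],[]]],[[],[[],[]],[[[]]],[[]]],[[[],[],
[]],[[],[[]]],[[[]],[[]]],[[[]],[[]]],[[[]],[],[]]],[[[],[],[]],[[[]],[[]]],[[[]],[[]]],[[[]],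
[[]]],[[],[],[]]],[[[],[],[]],[[[]]],[[[]]],[[[]],[[]]],[[[]],[]]],[[[],[]],[[[]],[],[[]]],[[[]],
[],[[]]],[[],[],[]],[[[]],[[]],[]]]],[[[[[]],[[]],[[]]],[[[]],[],[[]]],[[[]],[],[[]]],[[[]],[[]],
[[]]],[[[]],[[]],[]]],[[[[]],[[]],[[]]],[[[]],[],[[]]],[[[]],[],[[]]],[[[]],[[]],[[]]],[[[]],[[]],
[]]],[[]],[[[[]],[],[[]]],[[],[[]]],[[[]],[[]]],[[[]],[[]]],[[[]],[],[[]]]],[[[[]],[],[[]]],[[],
[[]]],[[[]],[[]]],[[[]],[[]]],[[[]],[],[[]]]],[[]],[[[[]],[[]],[]],[[],[],[[]]],[[],[],[[]]],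
[[[]],[],[[]]],[[[]],[[]],[[]]]]],[[[[[]],[[]],[]],[[],[],[]],[[[]],[[]],[[]]],[[[]],[[]],[[]]],
[[],[],[]]],[[[[]],[[]],[]],[[],[],[]],[[[]],[[]],[[]]],[[[]],[[]],[[]]],[[],[],[]]],[[[[]]],
[[[]]],[[[]]]],[[[],[],[]],[[[]],[[]]],[[[]],[[]]],[[[]],[[]]],[[],[],[]]],[[[[]],[],[[]]],[[],
[[]]],[[[]],[[]]],[[[]],[[]]],[[[]],[],[[]]]],[[[[]],[],[[]]],[[],[[]]],[[[]],[[]]],[[[]],[[]]],
[[[]],[],[[]]]],[[[]],[[],[[]],[[]]],[[],[],[]],[[[]],[],[[]]],[[[]],[],[[]]]]],[[[[[]],[[]],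
[[]]],[[],[[]],[[]]],[[[]],[[]],[[]]],[[[]],[],[[]]],[[[]],[],[[]]]],[[[[]],[[]],[[]]],[[],[[]],
[[]]],[[[]],[[]],[[]]],[[[]],[],[[]]],[[[]],[],[[]]]],[[]],[[[],[[]],[[]]],[[[]]],[[[]]],[[[]],
[[]]],[[[]],[[]]]],[[]],[[[[]],[],[[]]],[[],[[]]],[[[]],[[]]],[[[]],[[]]],[[[]],[],[[]]]],[[[[]],
[],[[]]],[[],[[]]],[[[]],[[]]],[[[]],[[]]],[[[]],[],[[]]]]],[[[[[]],[],[[]]],[[],[],[]],[[[]],
[[]],[]],[[],[],[]],[[[]],[],[[]]]],[[[[]],[],[[]]],[[],[],[]],[[[]],[[]],[]],[[],[],[]],[[[]],[],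
[[]]]],[[[]]],[[[],[],[]],[[[]],[],[[]]],[[[]],[],[[]]],[[],[],[]],[[[]],[[]],[]]],[[[],[]],[[],
[],[]],[[]],[],[[]]],[[[]],[[],[[]],[[]]],[[],[],[]],[[[]],[],[[]]],[[[]],[],[[]]]],[[[],[],[]],
[[],[]],[[]],[[]]]]],[[[[[[1550032422597034150308347904]],[[]],[[252363489754319509252734976]]],
[[[]],[[]],[[]]],[[[17351131884141522021742542848]],[[1554870487211644283814772736]],[]],[[[]],
[[]],[[]]],[[[2168928673714497903021588480]],[],[[272017908711511965763121152]]]],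
[[[[232746924563361083491876864]],[[]],[[1402584212819191662163132416]]],[],
[[[1562008307687246457900892160]],[[194948887655338304946331648]],[]],[],
[[[251787435966700256035078144]],[],[[1395330648828935367569735680]]]],[[],[],[[],[],[]],[],[[],
[]]],[[],[[[2181091073257829397409464320]],[[]],[[233327484005942316576030720]]],
[[[12477337702376187537828610048]],[[]],[[21763026373155049510636544]]],[],
[[[2181056283268177623964090368]],[[194349437720576697387732992]],[[]]]],[[],[[],[],[]],[],[],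
[[]]],[[],[[[]],[[214310514196899622163578880]],[[1399939696670259189947432960]]],[],
[[[1397748519047800072741847040]],[[]],[[232425735621001601818566656]]],
[[[16132822423718176297408004096]],[[]],[[1562121053759256080253321216]]]],[[],[[],[],[]],[],
[[]]]],[[[[[]],[],[[]]],[[],[]],[[[]],[[]]],[[]],[[[]],[],[[]]]],[[],[],[[],[[]]],[],[[[]],[],
[[]]]],[[],[],[[],[[]],[]],[],[[[]],[],[[]]]],[[],[[],[],[[]]],[[]],[],[[[]]]],[[[],[[]]],[[],
[[]],[]],[[]],[],[[]]],[[],[[],[[]],[[]]],[],[[[]]],[[[]]]],[[[[]],[],[[]]],[[[]],[],[[]]],[[[]]],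
[[]],[[[]]]]],[[[[[272008385542438805573992448]],[[]],[[1547616342712107961054953472]]],[[[]],
[[]],[[]]],[[[89915145915073508195654729728]],[[12380335864229635444648968192]],[]],[[[]],[[]],
[[]]],[[[17351419803229140505643712512]],[],[[139268293426119535318723067904]]]],[[[[]],[],[[]]],
[[[]],[[]]],[[[]],[[]]],[[[]],[[]],[[]]],[[],[],[[]]]],[[[[2021399575103648938860773376]],[[]],
[[13714366401130694655273345024]]],[[[12418393196569656035176087552]],[[]],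
[[2181094052825832625585357312]]],[[],[],[]],[[[]],[[1402508609120011235887218688]],
[[16114376714949136645027004416]]],[[],[],[]]],[[[[]],[[]],[[]]],[[[]],[],[[]]],[[[]],[],[[]]],
[[[]],[[]],[[]]],[[[]],[[]],[]]],[[[[17429395297196209096978857984]],
[[2181094052825832625585357312]],[]],[[],[],[]],[[[138816345253341758494991286272]],[[]],
[[214603375858159337153773632]]],[[[16151862864613458836414529536]],[[]],
[[2171234341479646168688462848]]],[[]]],[[[[]],[[]],[[]]],[[],[],[]],[[[]],[[]],[[]]],[[[]],[],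
[[]]],[[[]],[],[[]]]],[[[[1402508609120011235887218688]],[],[[13676908662733122703131947008]]],
[[],[]],[[[14934191436751706588021796864]],[[2171234341479646168688462848]],[[]]],[[]],
[[[90065165444479427896737300480]],[[]],[[17409462407344822204120965120]]]]],
[[[[[1554869270008079072349913088]],[[]],[[14933884556680115269726109696]]],[],
[[[13617949620982350847092719616]],[[2021400118555267773738680320]],[]],[],
[[[31661696821705096831172608]],[],[[12476114834348571550896619520]]]],[[[[]],[],[[]]],[[[]],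
[[]]],[[[]],[[]]],[[[]],[[]],[[]]],[[],[],[[]]]],[[[[3631575991048153288409088]],[[]],
[[2173724827320100240895410176]]],[[[1871534047478119428576509952]],[],
[[253293795933993309970386944]]],[[],[],[]],[[],[[194046840807271342333493248]],
[[1704777252236524102237552640]]],[[],[]]],[[[[]],[[]],[[]]],[[],[],[]],[[[]],[],[[]]],[[[]],[[]],
[[]]],[[[]],[[]]]],[[[[1714332997268821498099073024]],[[194968065388242421791612928]],[]],[[],[],
[]],[[[16132510747494005766303252480]],[],[[21762454666023088586623488]]],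
[[[1716788637356124763964243968]],[],[[233648533444795343831572480]]],[[]]],[[[[]],[[]],[[]]],[[],
[],[]],[[[]],[[]],[[]]],[[[]],[],[[]]],[[[]],[],[[]]]],[[[[2720237658244085697740800]],[],
[[2171460406472524314429292544]]],[[],[]],[[[1404963657907165709195083776]],
[[252061405893084883038265344]]],[[]],[[[12477640228978415553180336128]],[],
[[2016490084421055242859249664]]]]],[[[],[],[[],[[]],[]],[],[[[]],[],[[]]]],[[[[]],[],[[]]],[[[]],
[],[[]]],[[],[],[]],[[],[[]],[[]]],[]],[[]],[[[],[],[[]]],[[],[],[[]]],[]],[[[],[[]],[]],[[],[],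
[]]],[[[],[[]],[[]]],[[],[[]],[[]]]],[[[[]],[],[[]]],[[],[]]]],[[[],
[[[16172419397500908100242374656]],[[]],[[1407418689677366109638066176]]],
[[[119473493180702638792807284736]],[[]],[[17447217801126017851675914240]]],[],
[[[16153072009505593199424176128]],[[2178522106604968834037219328]],[[]]]],[[[[]],[[]],[[]]],
[[[]],[],[[]]],[[[]],[],[[]]],[[[]],[[]],[[]]],[[[]],[[]],[]]],[[[[]],[[]],[[]]],[[],[],[]],[[],
[],[[]]],[[],[[]],[[]]],[[],[[]]]],[[[[109727022246485562618858700800]],[[]],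
[[13636999942415459756618039296]]],[[[17408546121772625302927966208]],[],
[[2171270331800161708302008320]]],[[],[],[]],[[],[[1704623830229144068058808320]],
[[272325154203743280419569664]]],[[],[]]],[[[[718025189250878395105457733632]],[[]],
[[21951966719448461057491968]]],[[[99204681829395321682703417344]],[],
[[2720530445695568425787392]]],[[],[],[]],[[],[[11258433518923905067476320256]],
[[26788859961305205477212160]]],[[],[]]],[[[[]],[[]],[[]]],[[[]],[[]],[[]]],[[],[],[]],[[],[[]],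
[[]]],[[],[[]],[[]]]],[[[[90069849995269871904210747392]],[[270804554464657294838747136]],[[]]],
[[[12476416986180124064161988608]],[[31621021886129980697640960]]],[[],[]],[[],[]],[[],
[[1868999935533820897405173760]],[[175601272661146400397459456]]]]],[[[],[[[]],[[]],[[]]],[],[],
[[[]],[[]],[[]]]],[[[[]],[[]],[]],[[],[],[]],[[[]],[],[[]]],[[[]],[],[[]]],[[]]],[[[[]],[[]],[]],
[[],[],[]],[[],[],[[]]],[[],[],[[]]],[]],[[[[]],[[]],[[]]],[[],[],[[]]],[[],[],[[]]],[[],[],[[]]],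
[]],[[[[]],[],[[]]],[[[]],[],[[]]],[[],[],[]],[[],[[]],[[]]],[[],[]]],[[[[]],[],[[]]],[[[]],[],
[[]]],[[],[],[]],[[],[[]],[[]]],[[],[]]],[[[[]],[[]],[[]]],[[[]]],[],[[],[[]]],[[],[[]]]]],[[[],
[[[]],[[26710322797682087467941888]],[[16113498727105734065467162624]]],[],
[[[3650760532000448813465600]],[[]],[[1400162782658015384395907072]]],
[[[119163932603064577449030320128]],[[]],[[14933256262883392672838975488]]]],[[[[]],[[]],[[]]],
[[],[],[]],[[[]],[[]],[[]]],[[[]],[],[[]]],[[[]],[],[[]]]],[[[[]],[[]],[[]]],[[],[],[]],[[],[[]],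
[[]]],[[],[],[[]]],[[],[],[[]]]],[[[[]],[[13714668484957048443330101248]],
[[129212561195411222384349315072]]],[[],[[2180904586321742931624624128]],
[[13733723301683744237621346304]]],[[],[[174709120057660133720219648]],
[[24294270157213132044402688]]],[[],[],[]],[[],[],[]]],[[[[]],[[]],[[]]],[[[]],[[]],[[]]],[[],[],
[]],[[],[[]],[[]]],[[],[[]],[[]]]],[[[[89448459772030195289316032512]],[[]],
[[13696553853705163058828025856]]],[[[12457404449336507684623499264]],[],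
[[2168852517200893164013158400]]],[[],[],[]],[[],[[1707154410072312446839851008]],
[[3626929735680460057501696]]],[[],[]]],[[[[957006546949113697330412126208]],[[]],
[[89141432182544280078958886912]]],[[[89596138815428301022159896576]],[],
[[12379716793804936708146331648]]],[[],[],[]],[[],[[271120800924287370390417408]],
[[21876390413377601462697984]]],[[],[]]]],[[[],[[[]],[[]],[[]]],[],[[[]],[[]],[[]]]],[[[[]],[],
[[]]],[[],[]],[[[]],[[]],[]],[[]],[[[]],[],[[]]]],[[[[]],[],[[]]],[[],[]],[[],[[]]],[[]],[[],[],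
[[]]]],[[[[]],[[]],[[]]],[[],[[]]],[[],[]],[],[[],[],[[]]]],[[[[]],[[]]],[[[]],[[]]],[[],[]],[[],
[]],[[],[[]],[[]]]],[[[[]],[[]],[[]]],[[[]]],[],[[],[]],[[],[[]]]],[[[[]],[],[[]]],[[[]],[],[[]]],
[[],[],[]],[[],[[]],[[]]],[[],[]]]]],[[[[[[]],[],[[]]],[[[]],[[]],[[]]],[[[]],[[]],[]],[[[]],[[]],
[[]]],[[[]],[],[[]]]],[[[[]],[],[[]]],[],[[[]],[[]],[]],[],[[[]],[],[[]]]],[[[[]],[],[[]]],[],
[[[]],[[]]],[],[[[]],[],[[]]]],[[[[]],[[]],[[]]],[[],[[]]],[[[]]],[],[[[]],[],[[]]]],[[[[]],[[]],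
[]],[[[]],[[]]],[],[],[[],[],[[]]]],[[[[]],[[]],[[]]],[[[]],[[]]],[],[[[]]],[[[]],[[]],[[]]]],
[[[[]],[],[[]]],[[[]],[],[[]]]]],[[[],[[[]],[]],[[[]]],[[]]],[[[[]],[[]],[[]]],[],[[[]],[[]],[]],
[],[[[]],[],[[]]]],[[[[]],[[]],[[]]],[],[[[]],[[]]],[],[[[]],[],[[]]]],[[[[]],[[]]],[[],[[]]],[[],
[]],[],[[],[],[[]]]],[[[[]],[[]],[]],[[[]],[[]]],[[],[]],[],[[],[[]],[[]]]],[[[[]]],[[[]]],[],[[],
[]],[[],[[]]]],[[[[]],[],[[]]],[[[]],[],[[]]],[[],[],[[]]],[[],[[]],[[]]],[[],[[]]]]],[[[[[]],[],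
[[]]],[[[]],[[]],[[]]],[[[]],[[]],[]],[[[]],[[]],[[]]],[[[]],[],[[]]]],[[[[]],[],[[]]],[[[]],[[]],
[[]]],[[[]],[[]],[]],[[[]],[[]],[[]]],[[[]],[],[[]]]],[[[[]],[],[[]]],[[],[[]]],[[[]],[[]]],[[[]],
[[]]],[[[]],[],[[]]]],[[]],[[[[]],[[]],[]],[[[]],[[]]],[[[]]],[[[]]]],[[]],[[[[]],[],[[]]],[[[]],
[],[[]]],[[[]],[],[[]]],[[],[],[[]]],[[[]],[[]],[[]]]]],[[[[[]],[[]],[[]]],[],[[[]],[[]],[]],[],
[[[]],[],[[]]]],[[],[[[]],[]],[[[]]],[[]]],[[[[]],[[]],[[]]],[[[]],[],[[]]],[[],[],[]],[[],[[]],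
[[]]],[[],[]]],[[[[]],[[]],[[]]],[[],[],[]],[[[]],[],[[]]],[[[]],[],[[]]],[]],[[[[]],[[]],[]],[[],
[],[]],[[[]],[],[[]]],[[[]],[],[[]]],[[]]],[[[[]],[[]],[[]]],[[],[],[]],[[[]],[],[[]]],[[],[],
[[]]],[]],[[[[]],[],[[]]],[[],[]],[[[]],[[]]],[[]],[[[]],[],[[]]]]],[[[[[]],[[]],[[]]],[],[[[]],
[[]]],[],[[[]],[],[[]]]],[[],[[],[]],[[[]]],[[]]],[[[[]],[[]],[[]]],[[[]],[],[[]]],[[],[],[]],[[],
[[]],[[]]],[[],[]]],[[[[]],[[]],[[]]],[[],[],[]],[[[]],[],[[]]],[[[]],[],[[]]],[]],[[[[]],[[]],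
[]],[[],[],[]],[[[]],[],[[]]],[[[]],[],[[]]],[[]]],[[[[]],[],[]],[[],[],[]],[[[]],[],[]],[[],[],
[[]]],[]],[[[[]],[],[[]]],[[],[]],[[[]],[[]]],[[]],[[[]],[],[[]]]]],[[[[[]],[[]],[[]]],[[],[[]]],
[[],[[]]],[],[[],[],[[]]]],[[]],[[[[]],[[]],[[]]],[[[]],[],[[]]],[[[]],[],[[]]],[[[]],[[]],[[]]],
[[[]],[[]]]],[[[[]],[[]],[[]]],[[],[],[]],[[[]],[],[[]]],[[[]],[],[[]]],[[[]],[[]]]],[[[],[[]]],
[[]],[[[]]],[[[]],[]],[[[]],[[]]]],[[]],[[[],[],[[]]],[[]],[[[]]],[[[]],[[]]],[[[]],[[]]]]],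
[[[[[]],[[]],[]],[[[]],[[]]],[],[],[[],[[]],[[]]]],[[[[]]],[[[]]],[[[]]]],[[[[]],[[]],[]],[[],[],
[]],[[[]],[],[[]]],[[[]],[],[[]]],[[]]],[[[[]],[[]],[]],[[],[],[]],[[[]],[],[[]]],[[[]],[],[[]]],
[[]]],[[[],[[]],[]],[[],[],[]],[[]],[[[]],[]],[[[]],[[]]]],[[[],[[]],[]],[[],[],[]],[[]],[[[]],
[]],[[[]],[[]]]],[[[],[[]],[[]]],[[]],[[]],[[[]],[[]]],[[[]],[[]]]]],[[[[[]],[[]],[[]]],[[[]]],[],
[[],[[]]],[[],[[]]]],[[]],[[[[]],[[]],[[]]],[[],[[]],[[]]],[[[]],[[]],[[]]],[[[]],[],[[]]],[[[]],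
[],[[]]]],[[[[]],[],[]],[[],[],[]],[[[]],[],[]],[[[]],[],[[]]],[[[]],[],[[]]]],[[]],[[[],[[]]],
[[]],[[[]]],[[[]],[]],[[[]],[[]]]],[[[],[[]]],[[]],[[[]]],[[[]],[]],[[[]],[[]]]]],[[[[[]],[],
[[]]],[[[]],[],[[]]],[],[[],[[]],[[]]]],[[[]]],[[[[]],[],[[]]],[[],[]],[[[]],[[]]],[[]],[[[]],[],
[[]]]],[[[[]],[],[[]]],[[],[]],[[[]],[[]]],[[]],[[[]],[],[[]]]],[[[],[],[]],[[],[]],[[]],[[]],
[[]]],[[[],[[]],[[]]],[[]],[[]],[[[]],[[]]],[[[]],[[]]]],[[[],[],[]],[[],[],[]],[[]],[[]]]]],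
[[[[[[174387994580866693315166208]],[[]],[[2023932487725926812433252352]]],
[[[1702397788417938441182904320]],[[]],[[174104362001627343523151872]]],[[],[],[]],[[[]],
[[3929158794405233906155520]],[[1557210420376002940180135936]]],[[],[],[]]],[[],[],[[],[],[]],[],
[[],[]]],[[[[24254720759005123014819840]],[[]],[[233634802168837766041042944]]],[],
[[[174095205517065627783397376]],[[21953102065585677599375360]]],[],
[[[33849969077329943504879616]],[],[[232430601003257469418078208]]]],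
[[[[3022613191761521235984384]],[[]],[[33964468452392787576553472]]],[],
[[[2023971493523790529583677440]],[[3957644097505680241467392]]],[],
[[[194051558562081247031459840]],[],[[31472230029491129584484352]]]],[[[],[],[]],[],[],[],[[],[],
[]]],[[[[]],[[492915453110515799162880]],[[3650614219346163378159616]]],[],[],
[[[213994115570199765705293824]],[[21876399927160380787326976]]],
[[[2176182191731944286614192128]],[[233025252550189901753090048]],[]]],[[[],[]],[],[],[[],[],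
[]]]],[[[[[]],[],[[]]],[[[]],[],[[]]],[[],[],[]],[[],[[]],[[]]],[]],[[],[],[[],[[]],[]],[],[[[]],
[],[[]]]],[[],[],[],[],[]],[[[],[],[[]]],[],[[]],[],[[[]]]],[[[],[[]],[]],[],[[]],[],[[]]],[[[],
[[]],[[]]],[],[],[[[]]],[[[]]]],[[[[]],[],[[]]],[],[[[]]],[[]],[[[]]]]],
[[[[[24408150843625740416581632]],[[]],[[232132726456712058708688896]]],
[[[252075281212757607988854784]],[[]],[[21839184039967707447230464]]],[[],[],[]],[[[]],
[[34041806125320844741705728]],[[194056507982878628867997696]]],[[],[]]],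
[[[[3627149853624712230338560]],[[]],[[2173724827320100240895410176]]],
[[[31662323716016685562658816]],[[]],[[194968065388242421791612928]]],[[],[],[]],[[[]],
[[2720237658244085697740800]],[[340020042628303784312832]]],[[],[],[]]],[[[[]],[],[[]]],[[],[[]]],
[[[]],[[]]],[[[]],[[]]],[[],[],[[]]]],[[[[]],[],[[]]],[[],[[]]],[[[]],[[]]],[[[]],[[]]],[[[]],[],
[[]]]],[[[],[],[]],[[[1709650780410549838198996992]],[[214296718284669139755216896]]],
[[[11181066993500785355997077504]],[[21762454666023088586623488]]],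
[[[1404963657907165709195083776]],[[252061405893084883038265344]]],[[],[],[]]],[[[],[],[]],[[[]]],
[[[]]],[[[]],[[]]],[[[]],[[]]]],[[[],[]],[[[233351168507318820974100480]],[],
[[2021326387495597162912350208]]],[[[2178712209388660126470275072]],[],
[[175006185361923464796061696]]],[[],[],[]],[[[14915131965625718869826207744]],
[[2016490084421055242859249664]],[]]]],[[[],[],[[],[[]],[]],[],[[[]],[],[[]]]],[[[[]],[],[[]]],
[[[]],[],[[]]],[[],[],[]],[[],[[]],[[]]],[]],[[]],[[[],[],[[]]],[[],[],[[]]],[]],[[[],[[]],[]],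
[[],[],[]]],[[[],[[]],[[]]],[[],[[]],[[]]]],[[[[]],[],[[]]],[[],[]]]],
[[[[[174699300661247108098031616]],[[]],[[1549883649756806741334425600]]],[],
[[[33851730878925749016854528]],[[3934031129911611541946368]]],[],[[[3650685592674534986088448]],
[],[[21950150010070949393596416]]]],[[[[]],[],[[]]],[[],[[]]],[[[]],[[]]],[[[]],[[]]],[[],[],
[[]]]],[[[[1859556991613988422006341632]],[[]],[[17351122069211523759874244608]]],
[[[272022773967913399764385792]],[],[[33850513823946975444336640]]],[[],[],[]],[[],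
[[31469850244272695512399872]],[[213994038415366306758393856]]],[[],[]]],[[[[]],[[]],[[]]],[[],[],
[]],[[[]],[],[[]]],[[[]],[],[[]]],[[[]],[[]]]],[[[[233030192783397755263123456]],
[[33850513823946975444336640]],[]],[[],[],[]],[[[1869115052724008936215150592]],[],
[[4241134850515375440269312]]],[[[233639526822568632308989952]],[],
[[24257035395468531154944000]]],[[]]],[[[[]],[],[]],[[],[],[]],[[[]],[],[]],[[[]],[],[[]]],[[[]],
[],[[]]]],[[[[31469850244272695512399872]],[],[[232118480994080180967309312]]],[[],[]],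
[[[233025397764564224030539776]],[[24257035395468531154944000]]],[[]],
[[[1559669011368113313631174656]],[],[[271734639283129400054251520]]]]],
[[[[[1714487073845169148389228544]],[[]],[[194944311709882399367626752]]],[],
[[[174104435788041107218104320]],[[24406380244533848748097536]]],[],
[[[21799643308829402992738304]],[],[[2724955360123431913521152]]]],[[[[]],[],[[]]],[[],[[]]],
[[[]],[[]]],[[[]],[[]]],[[[]],[],[[]]]],[[[[13675671331305539426264547328]],[[]],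
[[1402431316841256945201545216]]],[[[1557248180422091271523270656]],[],
[[232439679161500897299398656]]],[[],[],[]],[[],[[3338934501754245640617984]],
[[33889473210034568896184320]]],[[],[]]],[[[],[],[]],[[],[],[]],[[]],[[]]],
[[[[1716789209635389791375884288]],[[252372783365067827661254656]],[]],[[],[],[]],
[[[17408536821136010735369846784]],[],[[26747521530666503165378560]]],
[[[21876400213137264371335168]],[],[[175898709169573187675488256]]],[[]]],[[[[]],[],[]],[[],[],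
[]],[[[]],[],[]],[[[]],[],[[]]],[[[]],[],[[]]]],[[[[213380499706911773879435264]],[],
[[1864239762593227001791807488]]],[[],[]],[[[2014109393894197062669434880]],
[[174085615551438426560790528]]],[[]],[[[233034987783346008137924608]],[],
[[1702168163192405636042194944]]]]],[[[[[]],[[]],[[]]],[],[],[],[[[]],[[]],[[]]]],[[[],[],[]],
[[[]],[[]]],[[[]],[[]]],[[[]],[[]]],[[],[],[]]],[[[[]],[[]],[[]]],[[],[],[[]]],[[],[],[[]]],[[],
[],[[]]],[]],[[[],[],[]],[[],[],[]]],[[[[]],[[]],[]],[[],[],[]],[[[]],[],[[]]],[[[]],[],[[]]],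
[[]]],[[[[]],[[]],[]],[[],[],[]],[[[]],[],[[]]],[[[]],[],[[]]],[[]]],[[[[]],[[]],[[]]],[],[[[]]],
[[[]]],[[[]]]]],[[[[[]],[[3636443608198019568107520]],[[1716829367618387751007682560]]],[],[],
[[[21838621567393630433312768]],[[4250578394249475599630336]]],[[[233941539186656895888785408]],
[[491163872575316148879360]]]],[[[],[],[]],[[[]]],[[[]]],[[[]],[[]]],[[[]],[[]]]],[[[[]],
[[26824812519315449168527360]],[[13656328363716844028620177408]]],[[],
[[233643952834762371787915264]],[[1402468486877513468132458496]]],[[],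
[[31622146851576726085992448]],[[251475607610661155690250240]]],[[],[],[]],[[],[],[]]],[[[],[],
[]],[[],[],[]],[[]]],[[[[]],[],[]],[[],[],[]],[[[]],[],[]],[[[]],[],[[]]],[[[]],[],[[]]]],
[[[[3032061385180626320359424]],[[2166397439448801463660347392]],[]],[[],[],[]],
[[[2014109993402123208345419776]],[],[[214310589137641846472704000]]],
[[[175922539966434275773145088]],[],[[1404774210561674161923555328]]],[[]]],
[[[[1859516824252282738330042368]],[[12438652152240190812747988992]],[]],[[],[],[]],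
[[[13695939872328621206977642496]],[],[[1404960725444563892388757504]]],
[[[1392720951042469752133943296]],[],[[16133738787582343165253779456]]],[[]]]],[[[[[]],[[]],[[]]],
[],[],[[[]],[],[[]]]],[[[],[]],[[[]],[],[[]]],[[[]],[],[[]]],[[],[],[]],[[[]],[[]],[]]],[[[[]],
[[]],[[]]],[[],[[]]],[[],[]],[],[[],[],[[]]]],[[[],[]],[[],[]]],[[[[]],[],[[]]],[[],[]],[[[]],
[[]]],[[]],[[[]],[],[[]]]],[[[[]],[],[[]]],[],[[[]]],[[]],[[[]]]],[[[[]],[[]],[]],[[],[],[]],
[[[]],[],[]],[[[]],[],[[]]],[[]]]]],[[[[[[]],[[]],[[]]],[[[]],[],[[]]],[[[]],[],[[]]],[[[]],[[]],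
[[]]],[[[]],[[]],[]]],[[],[[[]],[],[[]]],[[[]],[],[[]]],[],[[[]],[[]],[]]],[[[[]],[[]],[[]]],[[],
[[]]],[[],[[]]],[],[[],[],[[]]]],[[[[]],[],[[]]],[],[[[]],[[]]],[],[[],[],[[]]]],[[[[]],[],[[]]],
[],[[[]],[[]]],[],[[[]],[],[[]]]],[[[[]],[[]],[[]]],[],[[[]],[[]]],[[[]],[[]]],[[[]],[[]],[[]]]],
[[[[]],[[]],[]],[],[[[]],[],[[]]],[[[]],[],[[]]]]],[[[[[]],[[]],[[]]],[[[]],[],[]],[[[]],[],[[]]],
[[[]],[],[[]]],[[[]],[[]],[]]],[[],[[[]],[[]],[[]]],[[[]],[],[[]]],[],[[[]],[[]],[[]]]],[[],[[],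
[]],[[],[]],[],[[],[],[]]],[[[[]],[[]],[[]]],[[],[]],[[[]],[[]]],[],[[[]],[],[[]]]],[[[[]],[],
[[]]],[[],[]],[[[]],[[]]],[],[[[]],[],[[]]]],[[[[]],[],[[]]],[],[[[]]],[[]],[[[]]]],[[[[]],[[]],
[[]]],[[],[],[]],[[[]],[],[[]]],[[[]],[],[[]]],[[[]]]]],[[[[[]],[[]],[[]]],[[[]],[],[[]]],[[[]],
[],[[]]],[[[]],[[]],[[]]],[[[]],[[]],[]]],[[[[]],[[]],[[]]],[[[]],[],[[]]],[[[]],[],[[]]],[[[]],
[[]],[[]]],[[[]],[[]],[]]],[[]],[[[[]],[],[[]]],[[],[[]]],[[[]],[[]]],[[[]],[[]]],[[[]],[],[[]]]],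
[[[[]],[],[[]]],[[],[[]]],[[[]],[[]]],[[[]],[[]]],[[[]],[],[[]]]],[[]],[[[[]],[[]],[]],[[],[],
[[]]],[[],[],[[]]],[[[]],[],[[]]],[[[]],[[]],[[]]]]],[[[],[[[]],[[]],[[]]],[[[]],[],[[]]],[],
[[[]],[[]],[[]]]],[[[[]],[[]],[[]]],[[[]],[],[]],[[[]],[],[[]]],[[[]],[],[[]]],[[[]],[[]],[]]],
[[[[]],[[]],[[]]],[[],[],[]],[[],[],[[]]],[[],[],[[]]],[]],[[[[]],[[]],[[]]],[[[]],[],[[]]],[[],
[],[]],[[],[[]],[[]]],[[],[]]],[[[[]],[],[[]]],[[[]],[],[[]]],[[],[],[]],[[],[[]],[[]]],[[],[]]],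
[[[[]],[],[[]]],[[[]],[],[[]]],[[],[],[]],[[],[[]],[[]]],[[],[]]],[[[[]],[[]],[[]]],[[[]],[[]]],
[[],[]],[[],[]],[[],[[]],[[]]]]],[[[[[]],[[]],[[]]],[[],[[]]],[[],[[]]],[],[[],[],[[]]]],[[]],
[[[[]],[[]],[[]]],[[[]],[],[]],[[[]],[],[[]]],[[[]],[[]],[[]]],[[[]],[[]]]],[[[[]],[[]],[[]]],[[],
[],[]],[[[]],[],[[]]],[[[]],[],[[]]],[[[]],[[]]]],[[[],[[]]],[[]],[[[]]],[[[]],[]],[[[]],[[]]]],
[[]],[[[],[],[[]]],[[]],[[]],[[[]],[[]]],[[[]],[[]]]]],[[[[[]],[[]],[[]]],[],[[[]],[[]]],[],[[[]],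
[],[[]]]],[[[[]],[],[]],[[],[[]]],[[[]],[[]]],[[[]],[[]]],[[[]],[],[]]],[[[[]],[[]],[[]]],[[[]],
[],[[]]],[[],[],[]],[[],[[]],[[]]],[[],[]]],[[[],[],[]],[[],[],[]],[[]],[[]]],[[[[]],[[]],[]],[[],
[],[]],[[[]],[],[[]]],[[[]],[],[[]]],[[]]],[[[[]],[],[]],[[],[],[]],[[[]],[],[]],[[[]],[],[[]]],
[[]]],[[[[]],[],[[]]],[[],[]],[[[]],[[]]],[[]],[[[]],[],[[]]]]],[[[[[]],[[]],[[]]],[],[[[]],[[]]],
[],[[[]],[],[[]]]],[[[[]],[],[[]]],[[],[[]]],[[[]],[[]]],[[[]],[[]]],[[[]],[],[[]]]],[[[[]],[[]],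
[[]]],[[[]],[],[[]]],[[],[],[]],[[],[[]],[[]]],[[],[]]],[[[],[],[]],[[],[],[]],[[]],[[]]],[[[[]],
[[]],[]],[[],[],[]],[[[]],[],[[]]],[[[]],[],[[]]],[[]]],[[[[]],[],[]],[[],[],[]],[[[]],[]],[[]],
[[[]],[],[[]]]],[[[[]],[],[[]]],[[],[]],[[[]],[[]]],[[]],[[[]],[],[[]]]]],[[[[[]],[[]],[[]]],[],
[[[]]],[[[]]],[[[]]]],[[]],[[[[]],[[]],[[]]],[[[]],[[]],[[]]],[[],[[]],[[]]],[[],[[]],[[]]],[[],
[[]],[[]]]],[[]],[[[[]],[],[]],[[],[],[]],[[[]],[],[]],[[[]],[],[[]]],[[[]],[],[[]]]],[[[[]],[]],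
[[],[]],[[[]],[]],[[[]]],[[[]],[],[[]]]],[[[[]],[]],[[],[]],[[[]],[]],[[[]]],[[[]],[],[[]]]]],
[[[[[]],[[]],[]],[],[[[]],[],[[]]],[[[]],[],[[]]]],[[[],[]],[[],[],[]],[[]],[],[[]]],[[[[]],[[]],
[]],[[[]],[[]]],[[],[]],[[],[]],[[],[[]],[[]]]],[[[],[],[]],[[],[]],[[]],[[]],[[]]],[[[[]],[],
[[]]],[[],[]],[[[]],[[]]],[[]],[[[]],[],[[]]]],[[[[]],[],[[]]],[[],[]],[[[]],[[]]],[[]],[[[]],[],
[[]]]],[[[],[],[]],[[],[],[]],[[]]]]],[[[[[[1866622214635556219606007808]],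
[[252079929792277517646168064]],[]],[[],[],[]],[[[232746778250979342737735680]],[[]],
[[1856986844081313091506176000]]],[[[1704739510195827665369300992]],[[]],
[[232128145935334772993687552]]],[[],[],[]]],[[],[[],[],[]],[],[],[[]]],
[[[[14952608746756283506469371904]],[[1400125593591941597350592512]],[]],
[[[1397632184370425109051080704]],[[194642149448287744205783040]]],[],[],[[],
[[193759143064537867885215744]],[[29168924010644142372683776]]]],[[[],[],[]],[],[],[],[[],[],[]]],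
[[[[342381662575966071816192]],[[]],[[47667630542329791905792]]],[],
[[[13656352127645669691087126528]],[[7701520333602618867712]]],[],
[[[1704586042934200489809707008]],[],[[251475461100393909814296576]]]],
[[[[4235967383697851930378240]],[[]],[[380796583981623092969472]]],[],
[[[2176106625077366215480967168]],[[57038522488576636354560]]],[],
[[[272310769256450576452419584]],[],[[1866696001762688067675619328]]]],[[[],[],[]],[],[[],[],
[]]]],[[[[[]],[[]],[]],[[],[],[]],[[[]],[],[[]]],[[[]],[],[[]]],[[]]],[[],[[[]],[[]],[[]]],[],[],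
[[[]],[[]],[[]]]],[[],[[],[]],[],[],[[],[],[]]],[[[[]],[[]],[[]]],[[],[]],[],[],[[[]],[[]],[[]]]],
[[[[]],[],[[]]],[],[[[]]],[],[[[]],[],[[]]]],[[[[]],[],[[]]],[],[[[]]],[],[[[]],[],[[]]]],[[[[]],
[[]],[[]]],[[],[],[]],[[[]],[[]],[[]]],[[[]],[],[[]]],[[[]],[],[[]]]]],
[[[[[14953505919105973260276465664]],[[1407189709804079313783488512]],[]],[[],[],[]],
[[[31433852294482366434377728]],[[]],[[3943181868179479282843648]]],
[[[3036633889319622758891520]],[[]],[[29168877179894156396396544]]],[[],[],[]]],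
[[[[139435278066187561284700995584]],[[16171824454157579839827353600]],[]],[[],[],[]],
[[[3348386150845965942652928]],[[]],[[21951966719448461057491968]]],
[[[26673116433071008399753216]],[[]],[[270804554464657294838747136]]],[[],[],[]]],[[[[]],[[]]],
[[[]],[[]]],[[[]]],[[[]]]],[[[],[],[]],[[[13734030114866440059451080704]],
[[2171270331800161708302008320]]],[[[89608151925476133189258870784]],
[[2720530445695568425787392]]],[[[12476416986180124064161988608]],[[31621021886129980697640960]]],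
[[],[],[]]],[[[[]],[],[[]]],[[],[[]]],[[[]],[[]]],[[[]],[[]]],[[[]],[],[[]]]],[[[[]],[],[[]]],[[],
[[]]],[[[]],[[]]],[[[]],[[]]],[[[]],[],[[]]]],[[[]],[[],[[2171307556609299694800142336]],
[[252391975004814782822088704]]],[[],[],[]],[[[12477947031767929468073279488]],[],
[[1392910408045827870062280704]]],[[[1868999935533820897405173760]],[],
[[16189934877300276092880814080]]]]],[[[],[[[]],[[]],[[]]],[],[],[[[]],[[]],[[]]]],[[[[]],[[]],
[]],[[],[],[]],[[[]],[],[[]]],[[[]],[],[[]]],[[]]],[[[[]],[[]],[]],[[],[],[]],[[],[],[[]]],[[],[],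
[[]]],[]],[[[[]],[[]],[[]]],[[],[],[[]]],[[],[],[[]]],[[],[],[[]]],[]],[[[[]],[],[[]]],[[[]],[],
[[]]],[[],[],[]],[[],[[]],[[]]],[[],[]]],[[[[]],[],[[]]],[[[]],[],[[]]],[[],[],[]],[[],[[]],[[]]],
[[],[]]],[[[[]],[[]],[[]]],[[[]]],[],[[],[[]]],[[],[[]]]]],[[[[[99202262170551562501911216128]],
[[14895798676850451031076896768]],[]],[[[56896677119176485109760]],[[7092919499665172332544]]],[],
[],[[],[[21799661325515480648122368]],[[251461366688216254162403328]]]],[[[[]],[[]]],[[[]],[[]]],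
[[[]]],[[[]]]],[[[[16172122112008054903000530944]],[[1402431316841256945201545216]],[]],[[],[],
[]],[[[2014298906375219792901570560]],[],[[214603370022624653393027072]]],
[[[213380499706911773879435264]],[],[[1864239762593227001791807488]]],[[]]],
[[[[2166624713144628960359874560]],[[232439679161500897299398656]],[]],[[],[],[]],
[[[14952613246662686292010074112]],[],[[26747521530666503165378560]]],
[[[1400050672284893636039016448]],[],[[174085615551438426560790528]]],[[]]],[[[],[[]],[]],[[],[],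
[]],[[]],[[[]],[]],[[[]],[[]]]],[[[],[[]],[]],[[],[],[]],[[]],[[[]],[]],[[[]],[[]]]],[[[],
[[4260017362308419542319104]],[[31511171815617464830525440]]],[[]],[[]],
[[[1557288338706935349558509568]],[[194939293116046331687731200]]],
[[[16133724327604258575997468672]],[[1702168163192405636042194944]]]]],[[[[[]],[[]],[[]]],[],[],
[],[[[]],[[]],[[]]]],[[[],[],[]],[[[]],[[]]],[[[]],[[]]],[[[]],[[]]],[[],[],[]]],[[[[]],[[]],
[[]]],[[],[],[[]]],[[],[],[[]]],[[],[],[[]]],[]],[[[],[],[]],[[],[],[]]],[[[[]],[[]],[]],[[],[],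
[]],[[[]],[],[[]]],[[[]],[],[[]]],[[]]],[[[[]],[[]],[]],[[],[],[]],[[[]],[],[[]]],[[[]],[],[[]]],
[[]]],[[[[]],[[]],[[]]],[],[[[]]],[[[]]],[[[]]]]],[[[[[174694580601152817044914176]],[[]],
[[138806673247975115628142919680]]],[],[[[381340609810500990009344]],[[42796447940063337119744]]],
[],[[[16172121886035730408668135424]],[],[[26786452807640925972987904]]]],[[[[]],[],[[]]],[[],
[[]]],[[[]],[[]]],[[[]],[[]]],[[[]],[],[[]]]],[[[[1397518247621091619644637184]],[[]],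
[[794836699604603645017143644160]]],[[[14952608669474786641851711488]],[],
[[119775573473036902359766171648]]],[[],[],[]],[[],[[1404813179308530380419629056]],
[[16209301226063092523254939648]]],[[],[]]],[[[],[],[]],[[],[],[]],[[]],[[]]],
[[[[175903875391387376517382144]],[[119775573473036902359766171648]],[]],[[],[],[]],
[[[128903076757573982320605528064]],[],[[12398757448025279308191236096]]],
[[[16171517353967789394122244096]],[],[[109105631378181941271633854464]]],[[]]],[[[[]],[],[]],[[],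
[],[]],[[[]],[]],[[]],[[[]],[],[[]]]],[[[[1404813179308530380419629056]],[],
[[1034938750872132506452599242752]]],[[],[]],[[[1032500347271546605817702907904]],
[[109105631378181941271633854464]]],[[]],[[[89750655256069026506006855680]],[],
[[798549608083287925240394416128]]]]],[[[[[1714372565546154356138573824]],[[]],
[[16151249320158406644633174016]]],[],[[[2720457795051281222991872]],
[[416804621622929180852224]]],[],[[[1714484712801504109040500736]],[],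
[[193428211933784400373743616]]]],[[[[]],[],[[]]],[[],[[]]],[[[]],[[]]],[[[]],[[]]],[[[]],[],
[[]]]],[[[[213385222091136366371667968]],[[]],[[119151807936345468123543109632]]],
[[[1399939696809943363213099008]],[],[[11219134132716652765732143104]]],[[],[],[]],[[],
[[194665395769119493285744640]],[[2178600652125092520843706368]]],[[],[]]],[[[],[],[]],[[],[],[]],
[[]],[[]]],[[[[1857025176557291288586616832]],[[11181383319403086090129113088]],[]],[[],[],[]],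
[[[13638199204501343114561323008]],[],[[1869001678892927198980734976]]],
[[[1709422917292642143844892672]],[],[[17390421675752338741203566592]]],[[]]],[[[[]],[],[]],[[],
[],[]],[[[]],[]],[[]],[[[]],[],[[]]]],[[[[252972747629761584473047040]],[],
[[109727056475290816044838420480]]],[[],[]],[[[109098453371614161490417811456]],
[[17391026139887696757691777024]]],[[]],[[[14875856045858913481396584448]],[],
[[119785284456936792172588433408]]]]],[[[[[]],[[]],[[]]],[],[[[]],[],[]]],[[[]],[[],[[]],[[]]],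
[[],[],[]],[[[]],[],[[]]],[[[]],[],[[]]]],[[[[]],[[]],[[]]],[[[]]],[],[[],[]],[[],[]]],[[[],[],
[]],[[]],[[]],[[]],[[]]],[[[[]],[],[]],[],[[[]]],[[]],[[]]],[[[[]],[]],[[],[]],[[[]],[]],[[]],
[[[]],[],[[]]]],[[[[]],[]],[[],[]],[[[]],[]],[[]],[[[]],[],[[]]]]]],[[[[[[]],[[]],[[]]],[[],[[]],
[[]]],[[[]],[[]],[[]]],[[[]],[],[[]]],[[[]],[],[[]]]],[[],[[],[[]],[[]]],[],[[[]],[],[[]]],[[[]],
[],[[]]]],[[[[]],[[]],[[]]],[[[]]],[],[[],[[]]],[[],[[]]]],[[[],[[]],[[]]],[],[],[[[]],[[]]],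
[[[]],[[]]]],[[[[]],[[]],[[]]],[],[[[]]],[[[]],[[]]],[[[]],[[]]]],[[[[]],[],[[]]],[],[[[]],[[]]],
[],[[[]],[],[[]]]],[[[[]],[],[[]]],[],[[[]],[[]]],[],[[[]],[],[[]]]]],[[[[[]],[[]],[[]]],[[],[],
[]],[[[]],[],[[]]],[[[]],[],[[]]],[[[]],[],[[]]]],[[],[[[]],[[]],[[]]],[],[[[]],[],[[]]],[[[]],
[[]],[[]]]],[[],[[]],[],[[],[]],[[],[]]],[[[[]],[[]],[[]]],[[]],[],[[[]],[[]]],[[[]],[[]]]],
[[[[]],[],[[]]],[],[[[]]],[[]],[[[]]]],[[[[]],[],[[]]],[[],[]],[[[]],[[]]],[[]],[[[]],[],[[]]]],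
[[[[]],[[]],[[]]],[[],[]],[[[]],[[]]],[[[]]],[[[]],[],[[]]]]],[[[[[]],[[]],[[]]],[[],[[]],[[]]],
[[[]],[[]],[[]]],[[[]],[],[[]]],[[[]],[],[[]]]],[[[[]],[[]],[[]]],[[],[[]],[[]]],[[[]],[[]],[[]]],
[[[]],[],[[]]],[[[]],[],[[]]]],[[]],[[[],[[]],[[]]],[[[]]],[[[]]],[[[]],[[]]],[[[]],[[]]]],[[]],
[[[[]],[],[[]]],[[],[[]]],[[[]],[[]]],[[[]],[[]]],[[[]],[],[[]]]],[[[[]],[],[[]]],[[],[[]]],[[[]],
[[]]],[[[]],[[]]],[[[]],[],[[]]]]],[[[],[[[]],[[]],[[]]],[],[[[]],[],[[]]],[[[]],[[]],[[]]]],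
[[[[]],[[]],[[]]],[[],[],[]],[[[]],[],[[]]],[[[]],[],[[]]],[[[]],[],[[]]]],[[[[]],[[]],[[]]],[[],
[],[]],[[],[],[[]]],[[],[],[[]]],[]],[[[[]],[[]],[[]]],[[],[[]],[[]]],[[],[[]],[[]]],[[],[],[]],
[[],[],[]]],[[[[]],[],[[]]],[[[]],[],[[]]],[[],[],[]],[[],[[]],[[]]],[[],[]]],[[[[]],[],[[]]],
[[[]],[],[[]]],[[],[],[]],[[],[[]],[[]]],[[],[]]],[[[[]],[[]],[[]]],[[[]],[],[[]]],[[],[],[]],[[],
[[]],[[]]],[[],[]]]],[[[[[]],[[]],[[]]],[[[]]],[],[[],[[]]],[[],[[]]]],[[]],[[[[]],[[]],[[]]],[[],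
[[]],[[]]],[[[]],[[]],[[]]],[[[]],[],[[]]],[[[]],[],[[]]]],[[[[]],[],[]],[[],[],[]],[[[]],[],[]],
[[[]],[],[[]]],[[[]],[],[[]]]],[[]],[[[],[[]]],[[]],[[[]]],[[[]],[]],[[[]],[[]]]],[[[],[[]]],[[]],
[[[]]],[[[]],[]],[[[]],[[]]]]],[[[[[]],[[]],[[]]],[],[],[[[]],[[]]],[[[]],[[]]]],[[[],[],[]],
[[[]]],[[[]]],[[[]],[[]]],[[[]],[]]],[[[[]],[[]],[[]]],[[],[[]],[[]]],[[],[[]],[[]]],[[],[],[]],
[[],[],[]]],[[[],[],[]],[[],[],[]],[[]]],[[[[]],[],[]],[[],[],[]],[[[]],[],[]],[[[]],[],[[]]],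
[[]]],[[[[]],[[]],[]],[[],[],[]],[[[]],[],[[]]],[[[]],[],[[]]],[[]]],[[[[]],[[]],[]],[[],[],[]],
[[[]],[],[[]]],[[[]],[],[[]]],[[]]]],[[[[[]],[[]],[[]]],[],[[[]]],[[[]]],[[[]]]],[[]],[[[[]],[[]],
[[]]],[[[]],[[]],[[]]],[[],[[]],[[]]],[[],[[]],[[]]],[[],[[]],[[]]]],[[]],[[[[]],[],[]],[[],[],
[]],[[[]],[],[]],[[[]],[],[[]]],[[[]],[],[[]]]],[[[[]],[]],[[],[]],[[[]],[]],[[[]]],[[[]],[],
[[]]]],[[[[]],[]],[[],[]],[[[]],[]],[[[]]],[[[]],[],[[]]]]],[[[[[]],[[]],[[]]],[],[[[]],[[]]],[],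
[[[]],[],[[]]]],[[[[]],[],[[]]],[[],[[]]],[[[]],[[]]],[[[]],[[]]],[[[]],[],[[]]]],[[[[]],[[]],
[[]]],[[[]],[],[[]]],[[],[],[]],[[],[[]],[[]]],[[],[]]],[[[],[],[]],[[],[],[]],[[]],[[]]],[[[[]],
[[]],[]],[[],[],[]],[[[]],[],[[]]],[[[]],[],[[]]],[[]]],[[[[]],[],[]],[[],[],[]],[[[]],[]],[[]],
[[[]],[],[[]]]],[[[[]],[],[[]]],[[],[]],[[[]],[[]]],[[]],[[[]],[],[[]]]]],[[[[[]],[],[[]]],[],
[[[]],[[]]],[],[[[]],[],[[]]]],[[[],[],[]],[[],[]],[[]],[[]]],[[[[]],[],[[]]],[[[]],[],[[]]],[[],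
[],[]],[[],[[]],[[]]],[[],[]]],[[[],[],[]],[[],[],[]],[[]],[[]]],[[[[]],[[]],[]],[[],[],[]],[[[]],
[],[[]]],[[[]],[],[[]]],[[]]],[[[],[],[]],[[],[],[]],[[]]],[[[[]],[],[[]]],[[],[]],[[[]],[[]]],
[[]],[[[]],[],[[]]]]]],[[[[[[2739049823833075879247872]],[],[[2021327558726483289693126656]]],[[],
[],[]],[[[1704699942357630405618696192]],[[252089810310695515069087744]],[[]]],[[],[],[]],
[[[214612888560281880304287744]],[[]],[[2021476912497213605911986176]]]],[[],[[],[],[]],[],[[]]],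
[[[[1395101041766310449220943872]],[],[[214310879690446113804910592]]],
[[[194033039113579745717780480]],[],[[34001656654060786880086016]]],[],[[],
[[26711484944777012781842432]],[[3627221352222503128530944]]]],[[[],[],[]],[],[],[[],[],[]]],
[[[[233946110502971282217238528]],[[1407380366564408397796474880]],[[]]],[],
[[[2178485554086459165827465216]],[],[[233034916302515979449008128]]],
[[[174708824982925319670607872]],[],[[2171234360791219368156463104]]]],[[[],[],[]],[],[[],[],[]]],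
[[[[31507630047441477433294848]],[[]],[[13618861034164984917679669248]]],[],
[[[232723313883867967209865216]],[[2166511384843003834897793024]],[]],[],
[[[31586166765418222828158976]],[],[[14913918099502813585829003264]]]]],[[[[[]],[],[[]]],[[],[]],
[[[]],[[]],[]],[[]],[[[]],[],[[]]]],[[],[[[]],[[]],[[]]],[],[[[]],[[]],[[]]]],[[],[[],[],[]],[],
[[],[],[]]],[[[[]],[[]],[[]]],[[],[],[]],[],[[[]],[],[[]]]],[[[[]],[[]]],[],[[[]]],[[[]],[],
[[]]]],[[[[]],[[]],[[]]],[[],[],[]],[[[]],[],[[]]],[[[]],[],[[]]]],[[[[]],[],[[]]],[],[[[]]],[],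
[[[]]]]],[[[[[1397519465833459265256292352]],[],[[212799654304335888143876096]]],[[],[],[]],
[[[174996814326429306002866176]],[[1407379148795500162101477376]],[[]]],[[],[],[]],
[[[31432090342297980547104768]],[[]],[[13618875570199029125652414464]]]],
[[[[16209584645370989009890443264]],[],[[1404850358291046285281755136]]],[[],[],[]],
[[[2171344754905505857355710464]],[[16132827225528174250444197888]],[[]]],[[],[],[]],
[[[3046076315861879414063104]],[[]],[[89141432182544280078958886912]]]],[[[],[],[[]]],[[],[],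
[[]]],[[]],[],[[[]]]],[[[],[],[]],[[[2180904586321742931624624128]],[],
[[233950908997716899323183104]]],[[[12457404449336507684623499264]],[],
[[2168852517200893164013158400]]],[[],[],[]],[[[2169001852234393854446403584]],
[[12379716793804936708146331648]],[]]],[[[[]],[[]],[]],[[],[],[[]]],[[],[],[[]]],[[[]],[],[[]]],
[[[]],[[]],[[]]]],[[[]],[[],[[194642154059982560891785216]],[[29241530550552829660037120]]],[[],
[],[]],[[[1707154410072312446839851008]],[],[[14971356394101317668353605632]]],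
[[[271120800924287370390417408]],[],[[138811472343552601196832227328]]]],[[[[]],[],[[]]],[[],
[[]]],[[[]],[[]]],[[[]],[[]]],[[[]],[],[[]]]]],[[[],[[[]],[[]],[[]]],[],[[[]],[[]],[[]]]],[[[[]],
[],[[]]],[[],[]],[[[]],[[]],[]],[[]],[[[]],[],[[]]]],[[[[]],[],[[]]],[[],[]],[[],[[]]],[[]],[[],
[],[[]]]],[[[[]],[[]],[[]]],[[],[[]]],[[],[]],[],[[],[],[[]]]],[[[[]],[[]]],[[[]],[[]]],[[],[]],
[[],[]],[[],[[]],[[]]]],[[[[]],[[]],[[]]],[[[]]],[],[[],[]],[[],[[]]]],[[[[]],[],[[]]],[[[]],[],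
[[]]],[[],[],[]],[[],[[]],[[]]],[[],[]]]],[[[[[194958254062539624706736128]],[],
[[2016639419882330329599442944]]],[[[341837055854694002327552]],[],[[16231540480205127680]]],[],
[[],[[232723241321321354455154688]],[[2171458644957013152819576832]]]],[[[],[],[[]]],[[],[],[[]]],
[[]],[],[[[]]]],[[[[26824812519315449168527360]],[],[[17350810760860514805971681280]]],[[],[]],
[[[3032061385180626320359424]],[[2166397439448801463660347392]]],[[]],
[[[24218665730804763919908864]],[],[[14971668361942562811962982400]]]],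
[[[[233643952834762371787915264]],[],[[380150511090987771625472]]],[[],[]],
[[[29055559700314455847993344]],[[253284207050949653271412736]]],[[]],
[[[213087345220755538271272960]],[],[[1404960725444563892388757504]]]],[[[],[],[[]]],[[],[]],[[]],
[[[]],[[]]],[[[]],[[]]]],[[[],[[26712066591423736963989504]],[[212775961822299646042570752]]],
[[]],[[]],[[[14934489098044053059052503040]],[[1404774210561674161923555328]]],
[[[138818686919772554485771010048]],[[16133738787582343165253779456]]]],[[[],[[]],[]],[[],[],[]],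
[[]],[[[]],[]],[[[]],[[]]]]],[[[[[]],[[]],[[]]],[],[],[[[]],[],[[]]]],[[[],[]],[[[]],[],[[]]],
[[[]],[],[[]]],[[],[],[]],[[[]],[[]],[]]],[[[[]],[[]],[[]]],[[],[[]]],[[],[]],[],[[],[],[[]]]],
[[[],[]],[[],[]]],[[[[]],[],[[]]],[[],[]],[[[]],[[]]],[[]],[[[]],[],[[]]]],[[[[]],[],[[]]],[],
[[[]]],[[]],[[[]]]],[[[[]],[[]],[]],[[],[],[]],[[[]],[],[]],[[[]],[],[[]]],[[]]]],
[[[[[1547539612610830868510932992]],[[12458594701357997981405020160]],[[]]],[],
[[[3636596999407211556110336]],[],[[5359650706052385603584]]],[[[1716789781049720199228588032]],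
[],[[4245850262314313251291136]]]],[[[[]],[[]],[]],[[],[],[[]]],[[],[],[[]]],[[[]],[],[[]]],[[[]],
[[]],[[]]]],[[[[17389495944419809812040384512]],[[119151807936345468123543109632]],[[]]],
[[[1857025176557291288586616832]],[[11181383319403086090129113088]]],[[],[]],[[],[]],[[],
[[213687161856881696102678528]],[[1407268781921204649278308352]]]],[[[],[],[]],[[],[]],[[]],[[]],
[[]]],[[[[1561935156691173227177771008]],[],[[12399347742718490011268546560]]],[[],[]],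
[[[16094150816979711841494892544]],[[1869001678892927198980734976]]],[[]],
[[[1395214913663952721895489536]],[],[[16210803013616881802478092288]]]],
[[[[194665395769119493285744640]],[],[[109719768673269892511369789440]]],[[],[]],
[[[109258032788646099266050359296]],[[17390421675752338741203566592]]],[[]],
[[[16132822651924594137883475968]],[],[[119785284456936792172588433408]]]],[[[[]],[],[]],[[],[],
[]],[[[]],[]],[[]],[[[]],[],[[]]]]],[[[[[]],[[]],[[]]],[],[[[]],[],[]]],[[[]],[[],[[]],[[]]],[[],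
[],[]],[[[]],[],[[]]],[[[]],[],[[]]]],[[[[]],[[]],[[]]],[[[]]],[],[[],[]],[[],[]]],[[[],[],[]],
[[]],[[]],[[]],[[]]],[[[[]],[],[]],[],[[[]]],[[]],[[]]],[[[[]],[]],[[],[]],[[[]],[]],[[]],[[[]],
[],[[]]]],[[[[]],[]],[[],[]],[[[]],[]],[[]],[[[]],[],[[]]]]],[[[[[232425507395205757925326848]],
[[]],[[89762743933190377130900324352]]],[],[[[531893711355351759060992]],
[[3338792673295199051186176]]],[],[[[17448742757754343431153647616]],[],
[[1557212744526074270256726016]]]],[[[[]],[],[[]]],[[],[[]]],[[[]],[[]]],[[[]],[[]]],[[[]],[],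
[[]]]],[[[[2181054493796571818267508736]],[[]],[[715550201473601399263274729472]]],
[[[214301065933947679805014016]],[],[[99044914117797495078572261376]]],[[],[],[]],[[],
[[2176068882896988336277192704]],[[12380926017024251932313911296]]],[[],[]]],[[[],[],[]],[[],[],
[]],[[]],[[]]],[[[[193451822540652372823113728]],[[99044914117797495078572261376]],[]],[[],[],[]],
[[[1557288938948906993682743296]],[],[[11142083707116812756475969536]]],
[[[12496387800356740201770647552]],[],[[129526730211855250999421796352]]],[[]]],[[[[]],[],[]],[[],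
[],[]],[[[]],[]],[[]],[[[]],[],[[]]]],[[[[2176068882896988336277192704]],[],
[[1116718946349195629681704435712]]],[[],[]],[[[1116622529565569930884728225792]],
[[129526730211855250999421796352]]],[[]],[[[138651705821922961768541323264]],[],
[[715587376091280846850217746432]]]]]]] : List (List (List (List (List (List (List (ℕ))))))))

end Pool.Agent.Helper26.WD
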