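import Pool.Agent.Helper26.WD.AlgP

/-!
# Intermediate states of the computation for the Whitehead double
-/

namespace Pool.Agent.Helper26.WD

/-- State number 18. -/
def wst18 : L ℕ 7 := (
[[[[[[[1871568875232708566378872832]],[[]],[[232118702319525558566780928]]],[[[]],[[]],[[]]],
[[[11180155869629109669759287296]],[[109262866739046913357941571584]],[[]]],[[[]],[[]],[[]]],
[[[139270713628858341460042317824]],[[]],[[12419323358725053718181445632]]]],[[],[[],[],[[]]]],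
[[[[174392277701430406729957376]],[[]],[[2023817389711961524499644416]]],
[[[380196765136713196503040]],[],[[213096868281161696426328064]]],[],[[],
[[3324845764398259853590528]],[[24216314212431598788280320]]],[]],[[]],
[[[[1554869915216420424812331008]],[[17332676877061066890770644992]],[[]]],[],
[[[3036927830523636789280768]],[],[[1395177752263346345675325440]]],
[[[2173875297546514175973392384]],[],[[16152774279091999713025851392]]],[]],[],
[[[[252670219891227747818930176]],[[]],[[1549956284095465035929747456]]],[],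
[[[2014260518412536267403165696]],[[253284496415384094630477824]],[]],[],
[[[175601647306328389044928512]],[],[[1402430708094235222413967360]]]]],[[[[[]],[],[[]]],[[],[]],
[[[]],[[]],[]],[[],[],[]],[[[]],[],[[]]]],[[[[]],[],[[]]],[[[]],[[]],[[]]],[[],[[]]],[[[]],[[]],
[[]]],[[],[],[[]]]],[[[[]],[],[[]]],[[[]],[],[[]]],[],[[],[[]],[[]]],[]],[[[[]],[[]],[[]]],[[[]],
[],[[]]],[],[[[]],[[]],[[]]],[[[]],[[]],[]]],[[[[]],[[]],[]],[],[[[]]],[[[]]],[]],[[[[]],[[]],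
[[]]],[[],[[]],[[]]],[[[]],[[]],[[]]],[[[]]],[[[]],[],[[]]]],[[[[]],[],[[]]],[],[[[]],[[]],[]],[],
[[[]],[],[[]]]]],[[[[[12400273628651422573280624640]],[[]],[[139428060538042594251914608640]]],
[[[]],[[]],[[]]],[[[129684081815026695977436282880]],[[715607021209636565267157876736]],[[]]],
[[[]],[[]],[[]]],[[[14971668363096320153763184640]],[[]],[[109415266949900537743315828736]]]],
[[[[24405236246698074965016576]],[[]],[[17351415002409670514855116800]]],[],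
[[[13657551462382777537911586816]],[[99035319449842465378511355904]],[[]]],[],
[[[1869038886257236257292877824]],[[]],[[3655262690462680037720064]]]],[[],[],[[],[],[]],[],[[],
[],[]]],[[[],[],[[]]],[[[272631885564187989723054080]],[],[[1395214950413289431708467200]]],
[[[1557212172967630907312701440]],[],[[16112582366629980346813775872]]],[],
[[[11162635592525036663767302144]],[[2016718529467045570674819072]],[]]],[[],[[],[],[[]]],[],[],
[[[]],[],[]]],[[],[[],[[1397633982646319713529987072]],[[252674941069314467586113536]]],[],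
[[[16191771582678741285351718912]],[],[[89765235571243020019541639168]]],
[[[2181018522785344676580818944]],[],[[11258754494666988422909669376]]]],[[],[[[]],[[]],[]],
[[[]]],[[[]],[],[]],[]]],[[[[[]],[],[[]]],[[[]],[[]],[[]]],[[[]],[[]],[]],[[[]],[[]],[[]]],[[[]],
[],[[]]]],[[[],[],[[]]],[],[],[],[[[]]]],[[[],[],[[]]],[],[],[],[[[]]]],[[[],[],[[]]],[[],[],
[[]]],[],[],[]],[],[[]],[[[[]]],[[[]]]]],[[[[[1554831527834738144747454464]],[[]],
[[14914820290572752175990833152]]],[[[13675378393550321524571111424]],[[]],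
[[1554756560404145518225129472]]],[[],[],[]],[[[]],[[119306584660398779219526746112]],
[[17371366929299222118923763712]]],[[],[],[]]],[[],[],[],[],[]],[[[[52026736951722116120576]],
[[]],[[119309118818329192825062686720]]],[],[[[2014298316221447069270802432]],
[[11142367418112156381630955520]],[]],[],[[[253289002015463258862911488]],[],
[[33850531705417278165090304]]]],[[[[1552415456004501005620215808]],[],
[[16131934472381204469609660416]]],[],[[[14893994803183332850053152768]],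
[[1707116621775214606003732480]],[]],[],[[[1864239780602981140343554048]],[],
[[271720397262633359361966080]]]],[[[],[],[[]]],[],[],[],[[[]],[],[]]],[[[],
[[16153076803443866214413107200]],[[1866696582972449352436416512]]],[],[],
[[[109405598448699162429770334208]],[[12400566482171031777949253632]],[]],
[[[195246611187717707635359744]],[[1554793721511807406064009216]],[]]],[[[[]],[[]],[]],[],[[[]]],
[[[]],[],[]],[]]],[[[[[]],[[]],[[]]],[[],[],[[]]],[[[]],[],[[]]],[[[]],[[]],[[]]],[[[]],[[]],[]]],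
[[],[[],[],[[]]],[],[],[[[]]]],[[[[]],[[]],[[]]],[[],[]],[[],[]],[],[[],[],[]]],[[[],[],[[]]],[],
[[]],[],[[[]]]],[[[[]]],[],[[[]]],[],[[[]]]],[[[[]],[],[]],[],[[[]]],[[[]]],[[[]]]],[[[[]]],[],
[[[]]],[[[]]],[]]],[[[[[233351094631409422601289728]],[[1861786520873168479484641280]],[[]]],[[],
[],[]],[[[99656707349238071956145700864]],[[]],[[232723386590006668891258880]]],
[[[1110510502632864397683579158528]],[[]],[[1402506865184339170185838592]]],[[],[],[]]],[[],[],[],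
[],[]],[[[[99190060202611801764806000640]],[[1116680855663881060966482313216]],[[]]],
[[[14894901273899004646670729216]],[[129524429211253679617413742592]],[]],[],[],[[],
[[24257644144778946856091648]],[[232127931473366367038865408]]]],[[[],[],[]],[],[],[],[[],[],[]]],
[[[[17428498122522371805040082944]],[],[[89762820053256493537240809472]]],[],
[[[129367231066688155501729939456]],[[12400259165196822407010058240]],[]],[],
[[[213073475467522811986444288]],[],[[1402469105133817677083574272]]]],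
[[[[119466050140242104524283576320]],[],[[1034995575106939740445687414784]]],[],
[[[715568042870401323967537217536]],[[109108199755259672411437531136]],[]],[],
[[[2171231999317497381143019520]],[],[[16171215195147516809614196736]]]],[[[[]],[],[]],[],[[[]],
[],[]]]],[[[[[]],[[]],[[]]],[[],[[]],[[]]],[[[]],[[]],[[]]],[[[]],[],[[]]],[[[]],[],[[]]]],[[],[],
[],[],[]],[[[[]],[[]],[[]]],[[],[[]],[[]]],[],[[[]],[],[]],[[[]],[],[]]],[[[],[],[]],[],[],[[[]]],
[[[]]]],[[[[]],[],[]],[],[[[]]],[[[]]],[[[]]]],[[[[]]],[],[[[]]],[],[[[]]]],[[[[]]],[],[[[]]],[],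
[[[]]]]],[[[[[2011767137151795113048047616]],[[]],[[11257522102229606575553904640]]],[[],[],[]],
[[[13618870776333966058419912704]],[[1400011666644583879903739904]],[[]]],[[],[],[]],
[[[139582576369076180302335836160]],[[]],[[12419309410715585083503554560]]]],[[],[],[],[],[]],
[[[[16152481787536548510463950848]],[[]],[[2021400755258422133235122176]]],
[[[1866583264914052096272105472]],[],[[251470813672392260631920640]]],[],[[],
[[213092507985511590914686976]],[[2171344745533373230432190464]]],[]],[[[],[],[]],[],[],[[],[],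
[]],[]],[[[[109417610388097143776231817216]],[[11201028284455987457941307392]],[]],[],
[[[16112865558738866519201808384]],[],[[1866808148452838300993978368]]],
[[[1397518866172272777898262528]],[],[[16133134247425695530296016896]]],[]],[[[[]],[],[]],[],
[[[]],[],[]]],[[[[14932954183613551409811685376]],[],[[109262756307336544700915023872]]],[],
[[[1407419915667627882303291392]],[[17429097861823248181412757504]],[]],[],
[[[14953505771623213816108048384]],[],[[89138937029821722398197547008]]]]]],[[[[[[]],[[]],[[]]],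
[[],[[]],[[]]],[[[]],[[]],[]],[[[]],[[]],[[]]],[[[]],[],[[]]]],[[],[[],[],[[]]],[],[[],[],[[]]],
[[],[],[[]]]],[[[[]],[[]],[[]]],[[[]],[[]],[[]]],[[],[],[]],[[[]],[[]],[[]]],[[],[],[]]],[[[[]],
[[]],[[]]],[[],[],[]],[[[]],[],[[]]],[[[]],[[]],[[]]],[[[]],[[]],[]]],[[[[]],[[]],[]],[[],[],[]],
[[[]],[[]],[[]]],[[[]],[[]],[[]]],[[]]],[[[[]],[[]],[[]]],[[],[[]],[[]]],[[[]],[[]],[[]]],[[[]],
[],[[]]],[[[]],[],[[]]]],[[[[]],[],[[]]],[[],[],[]],[[[]],[[]],[[]]],[[]],[[[]],[[]],[[]]]]],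
[[[[[]],[],[[]]],[[],[]],[[[]],[[]],[]],[[],[],[]],[[[]],[],[[]]]],[[[[]],[],[[]]],[[[]],[[]],
[[]]],[[],[[]]],[[[]],[[]],[[]]],[[],[],[[]]]],[[[[]],[],[[]]],[[[]],[],[[]]],[],[[],[[]],[[]]],
[]],[[[[]],[[]],[[]]],[[[]],[],[[]]],[],[[[]],[[]],[[]]],[[[]],[[]],[]]],[[[[]],[[]],[]],[],
[[[]]],[[[]]],[]],[[[[]],[[]],[[]]],[[],[[]],[[]]],[[[]],[[]],[[]]],[[[]]],[[[]],[],[[]]]],[[[[]],
[],[[]]],[],[[[]],[[]],[]],[],[[[]],[],[[]]]]],[[[[[]],[[]],[[]]],[[[]],[[]],[[]]],[[[]],[[]],[]],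
[[[]],[[]],[[]]],[[[]],[],[[]]]],[[[[]],[[]],[[]]],[],[[[]],[[]],[]],[],[[[]],[],[[]]]],[[],[],
[[],[],[]],[],[[],[],[]]],[[[],[],[[]]],[[[]],[[]],[[]]],[[[]],[[]],[[]]],[],[[[]],[[]],[[]]]],
[[],[[],[],[]],[],[],[[]]],[[],[[[]],[[]],[[]]],[],[[[]],[[]],[[]]],[[[]],[[]],[[]]]],[[],[[],[],
[]],[],[[]],[]]],[[[[[]],[],[[]]],[[[]],[[]],[[]]],[[[]],[[]],[]],[[[]],[[]],[[]]],[[[]],[],
[[]]]],[[[[]],[],[[]]],[],[[[]],[[]],[]],[],[[[]],[],[[]]]],[[[[]],[],[[]]],[],[[[]],[[]],[]],[],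
[[[]],[],[[]]]],[[[[]],[[]],[[]]],[[],[[]],[[]]],[[[]],[[]],[[]]],[],[[[]],[[]],[[]]]],[[[[]],
[[]],[]],[[[]],[[]],[]]],[[[[]],[[]],[[]]],[[[]],[[]],[[]]],[],[[[]],[[]],[[]]],[[[]],[[]],[[]]]],
[[[[]],[],[[]]],[[[]],[],[[]]],[],[[],[[]],[[]]],[]]],[[[[[]],[[]],[[]]],[[[]],[[]],[[]]],[[],[],
[]],[[[]],[[]],[[]]],[[],[],[]]],[[],[],[[],[],[]],[],[[],[],[]]],[[[[]],[[]],[[]]],[],[[[]],[[]],
[]],[],[[[]],[],[[]]]],[[[[]],[[]],[[]]],[],[[[]],[[]],[]],[],[[[]],[],[[]]]],[[[],[],[]],[],[],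
[],[[],[],[]]],[[[[]],[[]],[[]]],[],[],[[[]],[[]],[]],[[[]],[[]],[]]],[[[],[],[]],[],[],[[],[],
[]],[]]],[[[[[]],[[]],[[]]],[[[]],[],[[]]],[[[]],[],[[]]],[[[]],[[]],[[]]],[[[]],[[]],[]]],[[],
[[[]],[],[[]]],[[[]],[],[[]]],[],[[[]],[[]],[]]],[[[[]],[[]],[[]]],[[],[[]]],[[],[[]]],[],[[],[],
[[]]]],[[[[]],[],[[]]],[],[[[]],[[]]],[],[[[]],[],[[]]]],[[[[]],[],[[]]],[],[[[]],[[]]],[],[[[]],
[],[[]]]],[[[[]],[[]],[[]]],[],[[[]]],[[[]],[[]]],[[[]],[[]]]],[[[[]],[[]],[]],[],[[[]],[],[[]]],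
[[[]],[],[[]]],[]]],[[[[[]],[[]],[]],[[],[],[]],[[[]],[],[[]]],[[[]],[],[[]]],[[],[],[]]],[[],[[],
[],[]],[],[],[[]]],[[[[]],[[]],[]],[[[]],[[]],[]],[],[],[[],[[]],[[]]]],[[[],[],[]],[],[],[],[[],
[],[]]],[[[[]],[],[[]]],[],[[[]],[[]],[]],[],[[[]],[],[[]]]],[[[[]],[],[[]]],[],[[[]],[[]],[]],[],
[[[]],[],[[]]]],[[[],[],[]],[],[[],[],[]]]],[[[[[]],[[]],[[]]],[[],[[]],[[]]],[[[]],[[]],[[]]],
[[[]],[],[[]]],[[[]],[],[[]]]],[[],[[],[[]],[[]]],[],[[[]],[],[[]]],[[[]],[],[[]]]],[[[[]],[[]],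
[[]]],[[[]],[[]],[[]]],[],[[[]],[[]],[]],[[[]],[[]],[]]],[[[],[[]],[[]]],[],[],[[[]],[[]],[]],
[[[]],[[]],[]]],[[[[]],[[]],[[]]],[],[[[]],[],[[]]],[[[]],[[]],[[]]],[[[]],[[]],[[]]]],[[[[]],[],
[[]]],[],[[[]],[[]],[]],[],[[[]],[],[[]]]],[[[[]],[],[[]]],[],[[[]],[[]],[]],[],[[[]],[],[[]]]]],
[[[[[]],[],[[]]],[[],[],[]],[[[]],[[]],[[]]],[[],[],[]],[[[]],[[]],[[]]]],[[],[[],[],[]],[],[[]],
[]],[[[[]],[],[[]]],[[[]],[],[[]]],[],[[],[[]],[[]]],[]],[[[],[],[]],[],[],[[],[],[]],[]],[[[[]],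
[[]],[[]]],[],[[[]],[],[[]]],[[[]],[],[[]]],[]],[[[],[],[]],[],[[],[],[]]],[[[[]],[[]],[[]]],[],
[[[]],[[]],[]],[],[[[]],[],[[]]]]]],[[[[[[232439675630102230882844672]],[[]],
[[1714485902774193228278136832]]],[[[]],[[]],[[]]],[[[2166547402538612883885948928]],
[[252670662595334994787565568]],[]],[[[]],[[]],[[]]],[[[14913913674626103443376308224]],[],
[[1404773620128327526317555712]]]],[[[[]],[],[[]]],[[[]],[[]],[[]]],[[[]],[[]],[]],[[[]],[[]],
[[]]],[[[]],[],[[]]]],[[[[1554791941691626665120104448]],[[]],[[11259042857592240286088822784]]],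
[[[252386882514486802561105920]],[[]],[[2168812948934783021705330688]]],[[],[],[]],[[[]],
[[24179162028511119685058560]],[[213096940968973874678202368]]],[[],[],[]]],[[[[]],[[]],[[]]],[[],
[],[]],[[[]],[],[[]]],[[[]],[[]],[[]]],[[[]],[[]],[]]],[[[[213687089187924076439273472]],
[[2168812948934783021705330688]],[]],[[],[],[]],[[[1405002064030580055025385472]],[[]],
[[272036795815842137843957760]]],[[[174699376719154999191666688]],[[]],
[[1559514943722336061248110592]]],[[]]],[[[[]],[[]],[[]]],[[],[[]],[[]]],[[[]],[[]],[[]]],[[[]],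
[],[[]]],[[[]],[],[[]]]],[[[[24179162028511119685058560]],[],[[14971351812392371065504399360]]],
[[],[],[]],[[[14914215830023372165386600448]],[[1559514943722336061248110592]],[[]]],[[]],
[[[1707044605677201249450065920]],[[]],[[17429107523377523170546819072]]]]],
[[[[[2181055655790577281610547200]],[[]],[[12399059754419821418698244096]]],[[[]],[[]],[[]]],
[[[12456795261754105940864413696]],[[2011767708559510283147640832]],[]],[[[]],[[]],[[]]],
[[[138806635449742867604164411392]],[],[[11220064292439257963396595712]]]],[[[[]],[],[[]]],[[[]],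
[[]],[[]]],[[[]],[[]],[]],[[[]],[[]],[[]]],[[[]],[],[[]]]],[[[[13734611407549642443464900608]],
[[]],[[129069758622152652779239342080]]],[[[1859558153614929081116262400]],[[]],
[[12477951463687706688300253184]]],[[],[],[]],[[[]],[[213390022767608063585701888]],
[[1395141181877087687684521984]]],[[],[],[]]],[[[[]],[[]],[[]]],[[],[],[]],[[[]],[],[[]]],[[[]],
[[]],[[]]],[[[]],[[]],[]]],[[[[1395252121034942396206448640]],[[12437759626200747507668221952]],
[]],[[],[],[]],[[[16171215561831134962086051840]],[[]],[[1562121053759256080253321216]]],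
[[[2019135753914936196652466176]],[[]],[[13695018787180225161694810112]]],[[]]],[[[[]],[[]],[[]]],
[[],[[]],[[]]],[[[]],[[]],[[]]],[[[]],[],[[]]],[[[]],[],[[]]]],[[[[213375481057339408742895616]],
[],[[139128249259218753772866109440]]],[[],[],[]],[[[138806673838270717079362600960]],
[[13694726294416670162720149504]],[[]]],[[]],[[[11199488871381515538973065216]],[[]],
[[99668869185860404035985607680]]]]],[[[[[]],[],[[]]],[[],[]],[[[]],[[]],[]],[[],[],[]],[[[]],[],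
[[]]]],[[[],[],[[]]],[],[[[]],[[]],[]],[],[[[]],[],[[]]]],[[[],[],[[]]],[],[[[]],[[]],[]],[],
[[[]],[],[[]]]],[[],[[[]],[],[[]]],[[[]]],[],[[[]]]],[[[[]],[[]],[]],[[[]],[[]],[]],[[[]]],[[[]]],
[[]]],[[],[[],[[]],[[]]],[],[[[]]],[[[]]]],[[[[]],[],[[]]],[[[]],[],[[]]],[[[]]],[[]],[[[]]]]],
[[[[[]],[],[[]]],[[[]],[[]],[[]]],[[[]],[[]],[]],[[[]],[[]],[[]]],[[[]],[],[[]]]],
[[[[11259340438108604387003727872]],[[]],[[118849574692402656631146414080]]],[],
[[[2166546794088795150129102848]],[[13638524972829055742837784576]],[]],[],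
[[[13734932301399824323335684096]],[],[[99202224409339321692526215168]]]],
[[[[129062731141162845704686665728]],[[]],[[1109195196435973332167186448384]]],[],
[[[193749400894162814937333760]],[[24369790832466266350026752]],[]],[],
[[[1392758720901831835491762176]],[],[[270827721306815769500450816]]]],[[[[]],[[]],[[]]],[[],
[[]]],[[],[[]]],[],[[],[],[[]]]],[[[[12476426215334505699143843840]],
[[89917561368784447422699929600]],[]],[[[1704663924943529327544238080]],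
[[214598507016597926403637248]],[]],[[],[[]]],[[[]],[[]],[]],[[],[[175908300322417788290596864]],
[[2019132811375353217616510976]]]],[[[[]],[[]],[[]]],[[[]],[[]],[[]]],[],[[[]],[[]],[]],[[[]],
[[]],[]]],[[[[89600749616293459846150258688]],[],[[877816777424234054114378514432]]],
[[[16190865183390159585391673344]],[],[[1562008897541598997414674432]]],[[],[],[[]]],[[],
[[2011803680003079157953101824]],[[14953529529804597330250571776]]],[[[]],[[]],[]]]],[[[[[]],[],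
[[]]],[[[]],[],[[]]],[],[[],[[]],[[]]],[[],[],[]]],[[[],[],[[]]],[],[[[]],[[]],[]],[],[[[]],[],
[[]]]],[[[],[],[[]]],[],[],[],[]],[[[[]],[],[[]]],[],[[[]]],[],[[[]]]],[[[[]],[[]],[]],[],[[[]]],
[[[]]],[[]]],[[[],[[]],[[]]],[],[],[[[]]],[[[]]]],[[[[]],[],[[]]],[],[[[]]],[[]],[[[]]]]],[[[[[]],
[[]],[[]]],[[],[],[]],[[[]],[],[[]]],[[[]],[[]],[[]]],[[[]],[[]],[]]],[[[],[],[[]]],
[[[1400090184773955937196146688]],[[]],[[12439242375416230643564806144]]],
[[[16133743141012836390426378240]],[[]],[[2021476912497213605911986176]]],[],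
[[[109257958392211176039498383360]],[[14932954034977607267455074304]],[[]]]],[[[],[],[[]]],[[],
[]],[[],[]],[],[[],[],[]]],[[[[16114089095604199141628182528]],[[]],
[[109105781940372137198797979648]]],[[],[]],[[[1557173822182024369263345664]],
[[3627221352222503128530944]]],[],[[[12458613594264397755582513152]],[],
[[21874038879132496766763008]]]],[[[[119311461066422540551495614464]],[[]],
[[14972872567809901049817333760]]],[[],[]],[[[13656054467543100148266565632]],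
[[33929069002071408218603520]]],[[[]]],[[[2166511384843003834897793024]],[],
[[3938454873385841197318144]]]],[[[[]],[[]],[[]]],[],[[[]]],[[[]]],[[[]]]],
[[[[716884567662827368571256438784]],[[139589869427691728465354194944]],[[]]],[[],[],[]],
[[[109250742017419990982174375936]],[],[[251763751482216375437242368]]],
[[[12419909080823161110002663424]],[],[[29204350563661658107969536]]],[[[]]]]],[[[[[]],[[]],[]],
[[],[],[]],[[[]],[],[[]]],[[[]],[],[[]]],[[]]],[[],[[[]],[[]],[[]]],[],[],[[[]],[[]],[[]]]],[[],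
[[],[],[]],[],[],[[],[],[]]],[[[[]],[[]],[[]]],[[],[],[]],[],[],[[[]],[[]],[[]]]],[[[[]],[],[[]]],
[],[[[]]],[],[[[]]]],[[[[]],[],[[]]],[],[[[]]],[],[[[]],[],[[]]]],[[[[]],[[]],[[]]],[[],[],[]],
[[[]],[[]],[[]]],[],[[[]],[],[[]]]]],[[[[[]],[[]],[[]]],[[],[[]],[[]]],[[[]],[[]],[[]]],[[[]],[],
[[]]],[[[]],[],[[]]]],[[],[[[]],[[271111063312944654571012096]],[[1716865375948868533379661824]]],
[],[[[1552452045706909520219865088]],[[]],[[11259033336731543415390470144]]],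
[[[11219148228246312610028322816]],[[]],[[128753168811957692882290245632]]]],[[],[[],[],[]],[],
[[],[],[]],[[],[],[]]],[[[[]],[[1559743342370096816089890816]],[[11180779000661661360331948032]]],
[[],[],[]],[],[[[194646724278535877195464704]],[[24331412388351650538979328]],[]],
[[[2171381943097953909827698688]],[[252689554348817738624401408]],[]]],[[[[]],[[]],[[]]],[],
[[[]]],[[[]]],[[[]]]],[[[[13676596908128022512836542464]],[[]],
[[129065147222644051122145230848]]],[[],[],[]],[[[1709574004917598719251054592]],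
[[213999060522313408367820800]],[]],[[[]]],[[[14855894753821726235442282496]],[],
[[29167715041772946895929344]]]],[[[[129686308973016574788200562688]],[[]],
[[950757298004125837296396414976]]],[[],[],[]],[[[12438364232071699755381030912]],
[[1871609652192687803827486720]],[]],[[[]]],[[[139587562570555229923606265856]],[],
[[270818348107887689945055232]]]]],[[[[[]],[],[[]]],[[],[],[]],[[[]],[[]],[]],[[]],[[[]],[],
[[]]]],[[[[]]],[[[]],[[]],[[]]],[[[]]],[[[]],[[]],[[]]],[]],[[[[]]],[[[]],[],[]],[],[[],[],[]],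
[]],[[[[]],[[]],[[]]],[[[]],[],[]],[[[]]],[[[]],[[]],[[]]],[]],[[[[]],[[]],[]],[],[[[]]],[[[]],[],
[[]]],[]],[[[[]],[[]],[[]]],[[],[],[]],[[[]],[[]],[[]]],[[[]],[],[[]]],[[[]],[],[[]]]],[[[[]],[],
[[]]],[],[[[]]],[],[[[]],[],[[]]]]]],[[[[[[]],[],[[]]],[[],[]],[[[]],[[]],[]],[[],[],[]],[[[]],[],
[[]]]],[[[[]],[],[[]]],[[[]],[[]],[[]]],[[],[[]]],[[[]],[[]],[[]]],[[],[],[[]]]],[[[[]],[],[[]]],
[[[]],[],[[]]],[],[[],[[]],[[]]],[]],[[[[]],[[]],[[]]],[[[]],[],[[]]],[],[[[]],[[]],[[]]],[[[]],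
[[]],[]]],[[[[]],[[]],[]],[],[[[]]],[[[]]],[]],[[[[]],[[]],[[]]],[[],[[]],[[]]],[[[]],[[]],[[]]],
[[[]]],[[[]],[],[[]]]],[[[[]],[],[[]]],[],[[[]],[[]],[]],[],[[[]],[],[[]]]]],[[[[[]],[[]],[[]]],
[[[]],[[]],[[]]],[[[]],[[]],[]],[[[]],[[]],[[]]],[[[]],[],[[]]]],[[],[[],[],[[]]],[],[[],[],[[]]],
[[],[],[[]]]],[[[[]],[[]],[[]]],[[[]],[[]],[[]]],[[],[],[]],[[[]],[[]],[[]]],[[],[],[]]],[[[[]],
[[]],[[]]],[[],[],[]],[[[]],[],[[]]],[[[]],[[]],[[]]],[[[]],[[]],[]]],[[[[]],[[]],[]],[[],[],[]],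
[[[]],[[]],[[]]],[[[]],[[]],[[]]],[[]]],[[[[]],[[]],[[]]],[[],[[]],[[]]],[[[]],[[]],[[]]],[[[]],
[],[[]]],[[[]],[],[[]]]],[[[[]],[],[[]]],[[],[],[]],[[[]],[[]],[[]]],[[]],[[[]],[[]],[[]]]]],
[[[[[]],[[]],[[]]],[[[]],[[]],[[]]],[[[]],[[]],[]],[[[]],[[]],[[]]],[[[]],[],[[]]]],[[],[[],[],
[[]]],[],[[],[],[[]]],[[],[],[[]]]],[[[[]],[[]],[[]]],[[[]],[[]],[[]]],[[],[],[]],[[[]],[[]],
[[]]],[[],[],[]]],[[[[]],[[]],[[]]],[[],[],[]],[[[]],[],[[]]],[[[]],[[]],[[]]],[[[]],[[]],[]]],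
[[[[]],[[]],[]],[[],[],[]],[[[]],[[]],[[]]],[[[]],[[]],[[]]],[[]]],[[[[]],[[]],[[]]],[[],[[]],
[[]]],[[[]],[[]],[[]]],[[[]],[],[[]]],[[[]],[],[[]]]],[[[[]],[],[[]]],[[],[],[]],[[[]],[[]],[[]]],
[[]],[[[]],[[]],[[]]]]],[[[[[]],[],[[]]],[[[]],[[]],[[]]],[[[]],[[]],[]],[[[]],[[]],[[]]],[[[]],
[],[[]]]],[[[[]],[],[[]]],[[[]],[[]],[[]]],[[[]],[[]],[]],[[[]],[[]],[[]]],[[[]],[],[[]]]],[[[[]],
[],[[]]],[[],[[]],[[]]],[[[]],[[]],[]],[[[]],[[]],[[]]],[[[]],[],[[]]]],[[]],[[[[]],[[]],[]],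
[[[]],[[]],[]],[[[]],[[]],[[]]],[[[]],[[]],[[]]],[[],[[]],[[]]]],[[]],[[[[]],[],[[]]],[[[]],[],
[[]]],[[[]],[[]],[[]]],[[],[[]],[[]]],[[[]],[[]],[[]]]]],[[[[[]],[[]],[[]]],[[[]],[[]],[[]]],[[],
[],[]],[[[]],[[]],[[]]],[[],[],[]]],[[[[]],[[]],[[]]],[[[]],[[]],[[]]],[[],[],[]],[[[]],[[]],
[[]]],[[],[],[]]],[[],[[],[]],[],[[],[],[]],[[],[],[[]]]],[[[],[],[]],[[],[[]]],[[[]],[]],[[[]]],
[[[]],[],[[]]]],[[[],[],[]],[[[]],[[]],[]],[[[]],[[]],[]],[[[]],[[]],[]],[[],[],[]]],[[[],[[]],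
[[]]],[[[]],[[]],[[]]],[[[]],[],[[]]],[[[]],[],[]],[[[]],[[]],[]]],[[[],[],[]],[[[]],[],[[]]],
[[[]],[],[[]]],[[],[],[]],[[[]],[[]],[]]]],[[[[[]],[[]],[[]]],[[[]],[],[[]]],[[[]],[],[[]]],[[[]],
[[]],[[]]],[[[]],[[]],[]]],[[[[]],[[]],[[]]],[[[]],[],[[]]],[[[]],[],[[]]],[[[]],[[]],[[]]],[[[]],
[[]],[]]],[[]],[[[[]],[],[[]]],[[],[[]]],[[[]],[[]]],[[[]]],[[[]],[],[[]]]],[[[[]],[],[[]]],[[],
[[]]],[[[]],[[]]],[[[]],[[]]],[[[]],[],[[]]]],[[]],[[[[]],[[]],[]],[[],[],[[]]],[[[]],[],[[]]],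
[[[]],[],[[]]],[[[]],[[]]]]],[[[[[]],[[]],[]],[[],[],[]],[[[]],[],[[]]],[[[]],[],[[]]],[[],[],
[]]],[[[[]],[[]],[]],[[],[],[]],[[[]],[],[[]]],[[[]],[],[[]]],[[],[],[]]],[[[],[]]],[[[],[],[]],
[[[]],[[]],[]],[[[]],[[]],[]],[[[]],[[]],[]],[[],[],[]]],[[[],[],[]],[[],[]],[[]],[[]]],[[[],[],
[]],[[],[],[]],[[]],[[]],[]],[[[]],[[],[[]],[[]]],[[],[],[]],[[[]],[],[[]]],[[[]],[],[[]]]]],
[[[[[]],[[]],[[]]],[[],[[]],[[]]],[[[]],[[]],[[]]],[[[]],[],[[]]],[[[]],[],[[]]]],[[[[]],[[]],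
[[]]],[[],[[]],[[]]],[[[]],[[]],[[]]],[[[]],[],[[]]],[[[]],[],[[]]]],[[]],[[[],[[]],[[]]],[[[]],
[[]],[[]]],[[[]],[],[[]]],[[[]],[[]],[]],[[[]],[[]],[]]],[[]],[[[[]],[],[[]]],[[[]],[[]],[]],
[[[]],[[]],[]],[[[]],[[]],[[]]],[[[]],[],[[]]]],[[[[]],[],[[]]],[[[]],[[]],[]],[[[]],[[]],[]],
[[[]],[[]],[[]]],[[[]],[],[[]]]]],[[[[[]],[],[[]]],[[],[],[]],[[[]],[[]],[[]]],[[],[],[]],[[[]],
[[]],[[]]]],[[[[]],[],[[]]],[[],[],[]],[[[]],[[]],[[]]],[[],[],[]],[[[]],[[]],[[]]]],[[[],[],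
[[]]],[[],[],[[]]],[],[],[[[]]]],[[[],[],[]],[[[]],[],[[]]],[[[]],[],[[]]],[[],[],[]],[[[]],[[]],
[]]],[[[[]],[[]],[]],[[],[],[[]]],[[[]],[],[[]]],[[[]],[],[[]]],[[[]],[[]]]],[[[]],[[],[[]],[[]]],
[[],[],[]],[[[]],[],[[]]],[[[]],[],[[]]]],[[[[]],[],[[]]],[[],[[]],[]],[[[]],[[]]],[[[]],[[]]],
[[[]],[],[[]]]]]],[[[[[[99811374886715829687104307200]],[[]],[[797254267826976350737745575936]]],
[[[]],[[]],[[]]],[[[272017908711511965763121152]],[[138806635449742867604164411392]],[]],[[[]],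
[[]],[[]]],[[[1702397778895078153980674048]],[],[[952093161187039393931734286336]]]],
[[[[13637604549511949999401074688]],[[]],[[129069758622152652779239342080]]],[],
[[[1395330648828935367569735680]],[[12477951463687706688300253184]],[]],[],
[[[213390022767608063585701888]],[],[[138968516392800084053593292800]]]],[[],[],[[],[],[]],[],[[],
[],[]]],[[[],[],[[]]],[[[1399939696670259189947432960]],[[]],[[14971965873354550600939339776]]],
[[[16132822423718176297408004096]],[[]],[[1562121053759256080253321216]]],[],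
[[[138966211877819120213242806272]],[[13695018787180225161694810112]],[[]]]],[[],[[],[],[]],[],[],
[[]]],[[],[[[]],[[272008457077905485923364864]],[[1552261398464939863830626304]]],[],
[[[1562008916567090808150491136]],[[]],[[17350532066244625594812739584]]],
[[[13675978059118005384618704896]],[[]],[[99668869185860404035985607680]]]],[[],[[],[],[]],[],
[[]],[]]],[[[[[]],[],[[]]],[[],[]],[[[]],[[]],[]],[[],[],[]],[[[]],[],[[]]]],[[[],[],[[]]],[],
[[[]],[[]],[]],[],[[[]],[],[[]]]],[[[],[],[[]]],[],[[[]],[[]],[]],[],[[[]],[],[[]]]],[[],[[[]],[],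
[[]]],[[[]]],[],[[[]]]],[[[[]],[[]],[]],[[[]],[[]],[]],[[[]]],[[[]]],[[]]],[[],[[],[[]],[[]]],[],
[[[]]],[[[]]]],[[[[]],[],[[]]],[[[]],[],[[]]],[[[]]],[[]],[[[]]]]],
[[[[[214287121346950541813481472]],[[]],[[99654173762429146454890119168]]],[[[]],[[]],[[]]],
[[[139268293426119535318723067904]],[[11141772473631075614400970752]],[]],[[[]],[[]],[[]]],
[[[950836506257195654545334874112]],[],[[109717460598639172310416785408]]]],[[[[]],[],[[]]],[[[]],
[[]],[[]]],[[[]],[[]],[]],[[[]],[[]],[[]]],[[[]],[],[[]]]],[[[[99506875505225216913741709312]],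
[[]],[[716788457988667459563887804416]]],[[[16114376714949136645027004416]],[[]],
[[138958958304587578088597159936]]],[[],[],[]],[[[]],[[1562124614255473057719190528]],
[[13676601857620877421064499200]]],[[],[],[]]],[[[[]],[[]],[[]]],[[],[],[]],[[[]],[],[[]]],[[[]],
[[]],[[]]],[[[]],[[]],[]]],[[[[13676908662733122703131947008]],[[138958958304587578088597159936]],
[]],[[],[],[]],[[[90065165444479427896737300480]],[[]],[[17409462407344822204120965120]]],
[[[13656049824762827121827524608]],[[]],[[99816323326980247688268942336]]],[[]]],[[[[]],[[]],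
[[]]],[[],[[]],[[]]],[[[]],[[]],[[]]],[[[]],[],[[]]],[[[]],[],[[]]]],
[[[[1562124614255473057719190528]],[],[[953252530267962537303370379264]]],[[],[],[]],
[[[958205796937293573290797838336]],[[99816323326980247688268942336]],[[]]],[[]],
[[[99354588004558882962346770432]],[[]],[[1115462565170204866507208675392]]]]],
[[[[[129062579979464901770979835904]],[[]],[[1109233867892686764806651510784]]],[],
[[[12476114834348571550896619520]],[[89291487747660280447448907776]],[]],[],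
[[[89610493620018363994191626240]],[],[[871588689330822718335783272448]]]],[[[[]],[],[[]]],[[[]],
[[]],[[]]],[[[]],[[]],[]],[[[]],[[]],[[]]],[[[]],[],[[]]]],[[[[11257526682839943013897076736]],
[[]],[[139427833236694664424001208320]]],[[[1704777252236524102237552640]],[],
[[16133426966143560966611402752]]],[[],[],[]],[[],[[233044215821978426634153984]],
[[2173686430570999447191322624]]],[[],[],[]]],[[[[]],[[]],[[]]],[[],[],[]],[[[]],[],[[]]],[[[]],
[[]],[[]]],[[[]],[[]],[]]],[[[[2171460406472524314429292544]],[[13695316296340694608725409792]],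
[]],[[],[],[]],[[[12477640228978415553180336128]],[],[[2016490084421055242859249664]]],
[[[2166625312657162059628183552]],[],[[14875232624360775657288392704]]],[[]]],[[[[]],[[]],[[]]],
[[],[[]],[[]]],[[[]],[[]],[[]]],[[[]],[],[[]]],[[[]],[],[[]]]],[[[[213404111503578941730869248]],
[],[[99047521436667966716574269440]]],[[],[],[]],[[[89131835733906281773500923904]],
[[14856820260352870760865603584]],[]],[[]],[[[14971639953974708096882966528]],[],
[[128903076766369583319687891456]]]]],[[[[],[],[[]]],[],[[[]],[[]],[]],[],[[[]],[],[[]]]],[[[[]],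
[],[[]]],[[[]],[],[[]]],[],[[],[[]],[[]]],[[],[],[]]],[[[],[],[[]]]],[[[[]],[],[[]]],[[[]],[],
[[]]]],[[[[]],[[]],[]],[[],[],[]],[],[]],[[[],[[]],[[]]],[[],[[]],[[]]],[],[],[]],[[[[]],[],[[]]],
[[],[],[]],[],[],[]]],[[[[],[],[[]]],[[[16113498727105734065467162624]],[[]],
[[109108203334207281656487903232]]],[[[119163932603064577449030320128]],[[]],
[[14933256262883392672838975488]]],[],[[[715607644713008156943067906048]],
[[139116046055480139290765197312]],[[]]]],[[[[]],[[]],[[]]],[[],[],[]],[[[]],[],[[]]],[[[]],[[]],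
[[]]],[[[]],[[]],[]]],[[[[]],[[]],[[]]],[[],[],[]],[[],[],[[]]],[[],[[]],[[]]],[[[]],[[]],[]]],
[[[[129212561195411222384349315072]],[[]],[[1033718627875406648146310463488]]],
[[[13733723301683744237621346304]],[],[[109867407531163151101476372480]]],[[],[],[]],[[],
[[29241530550552829660037120]],[[3636444795754069684150272]]],[[],[],[]]],
[[[[957006546949113697330412126208]],[[]],[[89141432182544280078958886912]]],
[[[89596138815428301022159896576]],[],[[12379716793804936708146331648]]],[[],[],[]],[[],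
[[271120800924287370390417408]],[[21876390413377601462697984]]],[[],[]]],[[[[]],[[]],[[]]],[[[]],
[[]],[[]]],[[],[],[]],[[],[[]],[[]]],[[],[[]],[[]]]],[[[[7655733144171918970825170026496]],
[[1036176978825985047329546178560]],[[]]],[[[716844980137180916719655600128]],
[[109407978539709263204464033792]],[]],[[],[],[]],[[],[]],[[],[[31510581373406592528025600]],
[[214608244683395339025670144]]]]],[[[],[[[]],[[]],[[]]],[],[],[[[]],[[]],[[]]]],[[[[]],[[]],[]],
[[],[],[]],[[[]],[],[[]]],[[[]],[],[[]]],[[]]],[[[[]],[[]],[]],[[],[],[]],[[],[],[[]]],[[],[],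
[[]]],[[]]],[[[[]],[[]],[[]]],[[],[],[[]]],[[],[],[[]]],[[],[],[[]]],[]],[[[[]],[],[[]]],[[[]],[],
[[]]],[[],[],[]],[[],[[]],[[]]],[[],[]]],[[[[]],[],[[]]],[[[]],[],[[]]],[[],[],[]],[[],[[]],[[]]],
[[],[]]],[[[[]],[[]],[[]]],[[[]]],[],[[],[[]]],[[],[[]]]]],[[[],[[[]],
[[1559703792992227607389077504]],[[11181383388614950389189181440]]],[],
[[[13734927801473735809587216384]],[[]],[[129214904688216223491186294784]]],
[[[129676675336305475452758130688]],[[]],[[956987195056669566903915655168]]]],[[[[]],[[]],[[]]],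
[[],[[]],[[]]],[[[]],[[]],[[]]],[[[]],[],[[]]],[[[]],[],[[]]]],[[[[]],[[]],[[]]],[[],[[]],[[]]],
[[],[[]],[[]]],[[],[],[[]]],[[],[],[[]]]],[[[[]],[[12419621235540546990281330688]],
[[2026238792631109937659019264]]],[[],[[1866810509915335907193421824]],
[[252066057913055563834195968]]],[[],[[251461519973274336249249792]],
[[340029565486958479867904]]],[[],[],[]],[[],[],[]]],[[[[]],[[]],[[]]],[[[]],[[]],[[]]],[[],[],
[]],[[],[[]],[[]]],[[],[[]],[[]]]],[[[[109108124225358794968822611968]],[[]],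
[[871569629489682098003068334080]]],[[[17429409829699998683605762048]],[],
[[138663980441643574733784055808]]],[[],[],[]],[[],[[1395292887609691236045225984]],
[[232142314151122077458104320]]],[[],[]]],[[[[16172414672792825899170660352]],[[]],
[[5714343314187979714616392582144]]],[[[1871609623795237588163559424]],[],
[[794758416787843729736485314560]]],[[],[],[]],[[],[[4250357032757298508095488]],
[[2171232571166459204481384448]]],[[],[]]]],[[[[[]]],[[[]],[[]],[[]]],[[[]]],[[[]],[[]],[[]]],[]],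
[[[[]],[],[[]]],[[],[],[]],[[[]],[[]],[]],[[]],[[[]],[],[[]]]],[[[[]],[],[[]]],[[],[],[]],[[[]],
[[]],[]],[[]],[[],[],[[]]]],[[[[]],[[]],[[]]],[[[]],[[]],[]],[[[]],[[]],[]],[],[[],[],[[]]]],
[[[[]],[[]],[]],[[[]],[[]],[]],[[],[],[]],[[],[]],[[],[[]],[[]]]],[[[[]],[[]],[[]]],[[[]]],[],[[],
[[]]],[[],[[]]]],[[[[]],[],[[]]],[[[]],[],[[]]],[[],[],[]],[[],[[]],[[]]],[[],[]]]]],[[[[[[]],[],
[[]]],[[[]],[[]],[[]]],[[[]],[[]],[]],[[[]],[[]],[[]]],[[[]],[],[[]]]],[[[[]],[],[[]]],[],[[[]],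
[[]],[]],[],[[[]],[],[[]]]],[[[[]],[],[[]]],[],[[[]],[[]],[]],[],[[[]],[],[[]]]],[[[[]],[[]],
[[]]],[[],[[]],[[]]],[[[]],[[]],[[]]],[],[[[]],[[]],[[]]]],[[[[]],[[]],[]],[[[]],[[]],[]],[],[]],
[[[[]],[[]],[[]]],[[[]],[[]],[[]]],[],[[[]],[[]],[[]]],[[[]],[[]],[[]]]],[[[[]],[],[[]]],[[[]],[],
[[]]],[],[[],[[]],[[]]],[]]],[[[[],[],[[]]],[[],[],[[]]],[],[[],[],[[]]],[[],[],[[]]]],[[[[]],
[[]],[[]]],[],[[[]],[[]],[]],[],[[[]],[],[[]]]],[[[[]],[[]],[[]]],[],[[[]],[[]],[]],[],[[[]],[],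
[[]]]],[[[],[[]],[[]]],[[],[[]]],[[],[[]]],[],[[],[],[[]]]],[[[[]],[[]],[]],[[[]],[[]],[]],[[],
[[]]],[[[]],[[]],[]],[[],[[]],[[]]]],[[[[]],[[]],[[]]],[[[]],[[]],[[]]],[],[[[]],[[]],[]],[[[]],
[[]],[]]],[[[[]],[],[[]]],[[[]],[],[[]]],[[],[],[[]]],[[],[[]],[[]]],[[[]],[[]],[]]]],[[[[[]],[],
[[]]],[[[]],[[]],[[]]],[[[]],[[]],[]],[[[]],[[]],[[]]],[[[]],[],[[]]]],[[[[]],[],[[]]],[[[]],[[]],
[[]]],[[[]],[[]],[]],[[[]],[[]],[[]]],[[[]],[],[[]]]],[[[[]],[],[[]]],[[],[[]],[[]]],[[[]],[[]],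
[]],[[[]],[[]],[[]]],[[[]],[],[[]]]],[[]],[[[[]],[[]],[]],[[[]],[[]],[]],[[[]],[[]],[[]]],[[[]],
[[]],[[]]],[[],[[]],[[]]]],[[]],[[[[]],[],[[]]],[[[]],[],[[]]],[[[]],[[]],[[]]],[[],[[]],[[]]],
[[[]],[[]],[[]]]]],[[[[[]],[[]],[[]]],[],[[[]],[[]],[]],[],[[[]],[],[[]]]],[[],[[],[]],[],[[],[],
[[]]],[[],[],[[]]]],[[[[]],[[]],[[]]],[[[]],[],[[]]],[[],[],[]],[[],[[]],[[]]],[[],[],[]]],[[[[]],
[[]],[[]]],[[],[],[]],[],[[[]],[[]],[[]]],[[[]],[[]],[]]],[[[[]],[[]],[]],[[],[],[]],[[[]],[],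
[[]]],[[[]],[],[[]]],[[]]],[[[[]],[[]],[[]]],[[],[[]],[[]]],[[[]],[[]],[[]]],[[[]]],[[[]],[],
[[]]]],[[[[]],[],[[]]],[[],[],[]],[[[]],[[]],[]],[[]],[[[]],[],[[]]]]],[[[[[]],[[]],[[]]],[],
[[[]],[[]],[]],[],[[[]],[],[[]]]],[[],[[],[]],[],[[],[],[]],[[],[],[[]]]],[[[[]],[[]],[[]]],[[[]],
[],[[]]],[[],[],[]],[[],[[]],[[]]],[[],[],[]]],[[[],[[]],[]],[[],[],[]],[],[[[]],[],[]],[[[]],
[[]],[]]],[[[[]],[[]],[]],[[],[],[]],[[[]],[],[[]]],[[[]],[],[[]]],[[]]],[[[[]],[[]],[[]]],[[],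
[[]],[[]]],[[[]],[[]],[[]]],[[[]]],[[[]],[],[[]]]],[[[[]],[],[[]]],[[],[],[]],[[[]],[[]],[]],[[]],
[[[]],[],[[]]]]],[[[[[]],[[]],[[]]],[[],[[]]],[[],[[]]],[],[[],[],[[]]]],[[]],[[[[]],[[]],[[]]],
[[[]],[],[[]]],[[[]],[],[[]]],[[[]],[[]],[[]]],[[[]],[[]],[]]],[[[],[[]],[]],[[],[],[]],[[[]],[],
[[]]],[[[]],[],[]],[[[]],[[]],[]]],[[[],[[]]],[[]],[[[]]],[[[]],[]],[[[]],[[]]]],[[]],[[[],[],
[[]]],[[]],[[[]]],[[[]],[[]]],[[[]],[]]]],[[[[[]],[[]],[]],[[[]],[[]],[]],[],[],[[],[[]],[[]]]],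
[[[],[]]],[[[[]],[[]],[]],[[],[],[]],[[[]],[],[[]]],[[[]],[],[[]]],[[]]],[[[[]],[[]],[]],[[],[],
[]],[[[]],[],[[]]],[[[]],[],[[]]],[[]]],[[[],[],[]],[[],[],[]],[[]],[[]]],[[[],[],[]],[[],[],[]],
[[]],[[]],[[]]],[[[],[[]],[[]]],[[]],[[]],[[[]],[[]]],[[[]],[[]]]]],[[[[[]],[[]],[[]]],[[[]],[[]],
[[]]],[],[[[]],[[]],[]],[[[]],[[]],[]]],[[]],[[[[]],[[]],[[]]],[[],[[]],[[]]],[[[]],[[]],[[]]],
[[[]],[],[[]]],[[[]],[],[[]]]],[[[[]],[[]],[[]]],[[],[[]],[[]]],[[[]],[[]],[[]]],[[[]],[],[[]]],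
[[[]],[],[[]]]],[[]],[[[[]],[[]],[]],[[[]]],[[[]]],[[[]],[[]]],[[[]],[[]]]],[[[[]],[[]],[]],
[[[]]],[[[]]],[[[]],[[]]],[[[]],[[]]]]],[[[[[]],[],[[]]],[[[]],[],[[]]],[],[[],[[]],[[]]],[]],
[[[],[],[[]]],[[],[],[[]]],[],[],[[[]]]],[[[[]],[],[[]]],[[],[],[]],[[[]],[[]],[]],[[]],[[[]],[],
[[]]]],[[[[]],[],[[]]],[[],[],[]],[[[]],[[]],[]],[[]],[[[]],[],[[]]]],[[[],[],[[]]],[[],[],[]],
[[]],[[[]],[[]]],[[[]],[]]],[[[],[[]],[[]]],[[]],[[]],[[[]],[[]]],[[[]],[[]]]],[[[],[[]],[]],[[],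
[],[]],[[]],[[[]],[]],[[[]],[[]]]]]],[[[[[[16191153024095467287113367552]],[[]],
[[118849574692402656631146414080]]],[[[1557210420376002940180135936]],[[]],
[[13638524972829055742837784576]]],[[],[],[]],[[[]],[[13734932301399824323335684096]],
[[89907928359406797025016020992]]],[[],[],[]]],[[],[],[[],[],[]],[],[[],[],[]]],
[[[[2016527844894842035218939904]],[[]],[[17390426323143440368914661376]]],[],
[[[232430601003257469418078208]],[[1392758720901831835491762176]],[]],[],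
[[[29128183957381345458552832]],[],[[13694721204268794952793980928]]]],
[[[[3650614219346163378159616]],[[]],[[1559554475813383927029039104]]],[],
[[[2176182191731944286614192128]],[[233025252550189901753090048]],[]],[],
[[[272338880867746696469413888]],[],[[2019132811375353217616510976]]]],[[[],[],[]],[],[],[],[[],
[],[]]],[[[[]],[[29090986523618858323968000]],[[271422809865885927694925824]]],[],[],
[[[13677196504556141082588741632]],[[2011803680003079157953101824]],[]],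
[[[89146228354026813437608230912]],[[14953529529804597330250571776]],[]]],[[[],[],[]],[],[],[[],
[],[]],[]]],[[[[[]],[],[[]]],[[[]],[],[[]]],[],[[],[[]],[[]]],[[],[],[]]],[[[],[],[[]]],[],[[[]],
[[]],[]],[],[[[]],[],[[]]]],[[[],[],[[]]],[],[],[],[]],[[[[]],[],[[]]],[],[[[]]],[],[[[]]]],
[[[[]],[[]],[]],[],[[[]]],[[[]]],[[]]],[[[],[[]],[[]]],[],[],[[[]]],[[[]]]],[[[[]],[],[[]]],[],
[[[]]],[[]],[[[]]]]],[[[[[2016563843720549514923212800]],[[]],[[17389793454624833452785795072]]],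
[[[194056507982878628867997696]],[[]],[[1392835440466864980231225344]]],[[],[],[]],[[[]],
[[31662296624651059733856256]],[[232425803713752383947276288]]],[[],[],[]]],
[[[[214612817152068005062246400]],[[]],[[139427833236694664424001208320]]],
[[[340020042628303784312832]],[[]],[[13695316296340694608725409792]]],[[],[],[]],[[[]],
[[213404111503578941730869248]],[[1407231011787121924184834048]]],[[],[],[]]],[[[[]],[],[[]]],[[],
[[]],[[]]],[[[]],[[]],[]],[[[]],[[]],[[]]],[[[]],[],[[]]]],[[[],[],[]],[[],[[]]],[[[]],[[]]],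
[[[]]],[[[]],[],[[]]]],[[[],[],[]],[[[2021326387495597162912350208]],
[[13695637714625509611985960960]],[]],[[[14915131965625718869826207744]],
[[2016490084421055242859249664]],[]],[[[89131835733906281773500923904]],
[[14856820260352870760865603584]],[]],[[],[],[]]],[[[],[[]],[[]]],[[[]],[[]],[[]]],[[[]],[],[[]]],
[[[]],[[]],[]],[[[]],[[]],[]]],[[[],[],[]],[[[175913170172513323211841536]],[],
[[99514168019806140148673085440]]],[[[2011844466051466437307990016]],[],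
[[11181364651370396177805627392]]],[[],[],[]],[[[876520209352673243437723574272]],
[[128903076766369583319687891456]],[]]]],[[[[],[],[[]]],[],[[[]],[[]],[]],[],[[[]],[],[[]]]],
[[[[]],[],[[]]],[[[]],[],[[]]],[],[[],[[]],[[]]],[[],[],[]]],[[[],[],[[]]]],[[[[]],[],[[]]],[[[]],
[],[[]]]],[[[[]],[[]],[]],[[],[],[]],[],[]],[[[],[[]],[[]]],[[],[[]],[[]]],[],[],[]],[[[[]],[],
[[]]],[[],[],[]],[],[],[]]],[[[[[17332067245568125426953355264]],[[]],
[[109093466589796792138438017024]]],[],[[[21950150010070949393596416]],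
[[3348605170197573838307328]],[]],[],[[[232416066158154970905444352]],[],
[[24332583898320773987696640]]]],[[[[]],[],[[]]],[[],[[]],[[]]],[[[]],[[]],[]],[[[]],[[]],[[]]],
[[[]],[],[[]]]],[[[[139428061699759560228312449024]],[[]],[[793617516803926503754647732224]]],
[[[213994038415366306758393856]],[],[[2014222159268633648824320000]]],[[],[],[]],[[],
[[2023895299821603599893430272]],[[14855592447409473334359097344]]],[[],[],[]]],[[[],[[]],[]],[[],
[],[]],[[[]],[],[[]]],[[[]],[],[]],[[[]],[[]],[]]],[[[[232118480994080180967309312]],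
[[2014222159268633648824320000]],[]],[[],[],[]],[[[1559669011368113313631174656]],[],
[[271734639283129400054251520]]],[[[14932675705818439567178727424]],[],
[[1554833308075933956567072768]]],[[]]],[[[[]],[[]],[[]]],[[],[[]],[[]]],[[[]],[[]],[[]]],[[[]],
[],[[]]],[[[]],[],[[]]]],[[[[2023895299821603599893430272]],[],[[11219138710915039130875592704]]],
[[],[],[]],[[[11220664330490655540140048384]],[[1554833308075933956567072768]],[]],[[]],
[[[128760499105472696238773108736]],[],[[17351410282385332340762611712]]]]],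
[[[[[1716829367618387751007682560]],[[]],[[17410350359727187280847175680]]],[],
[[[233941539186656895888785408]],[[491163872575316148879360]]],[],
[[[1866698363234161020429664256]],[],[[56965925034053467635712]]]],[[[],[],[]],[[],[[]]],[[[]],
[[]]],[[[]]],[[[]],[],[[]]]],[[[[13656328363716844028620177408]],[[]],
[[129210105574354021241065570304]]],[[[1402468486877513468132458496]],[],
[[12379716867609359987962806272]]],[[],[],[]],[[],[[212775961822299646042570752]],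
[[1404885729922804883149324288]]],[[],[],[]]],[[[],[],[]],[[],[],[]],[],[[]]],
[[[[1859516824252282738330042368]],[[12438652152240190812747988992]],[]],[[],[],[]],
[[[13695939872328621206977642496]],[],[[1404960725444563892388757504]]],
[[[1392720951042469752133943296]],[],[[16133738787582343165253779456]]],[[]]],[[[[]],[],[]],[[],
[],[]],[[[]],[],[]],[[[]],[],[[]]],[[[]],[],[[]]]],[[[[16113181957364722298572767232]],[],
[[138816195281454371885111476224]]],[[],[],[]],[[[139120881813950207942765740032]],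
[[16132827149434492996888821760]],[]],[[]],[[[13637292505470634578009939968]],[],
[[89136710378122009581010812928]]]]],[[[[[]],[[]],[[]]],[],[],[],[[[]],[[]],[[]]]],[[[],[],[]],
[[[]],[[]],[]],[[[]],[[]],[]],[[[]],[[]],[]],[[],[],[]]],[[[[]],[[]],[[]]],[[],[],[[]]],[[],[],
[[]]],[[],[],[[]]],[]],[[[],[],[]],[[],[],[]]],[[[[]],[[]],[]],[[],[],[]],[[[]],[],[]],[[[]],[],
[[]]],[[]]],[[[[]],[[]],[]],[[],[],[]],[[[]],[],[[]]],[[[]],[],[[]]],[[]]],[[[[]],[[]],[[]]],[],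
[[[]]],[[[]]],[[[]]]]],[[[[[]],[[233029973745481578647388160]],[[1559706209515593467980414976]]],
[],[],[[[26825403528980441855950848]],[[3027043851080600589697024]],[]],
[[[3938607076207754442964992]],[[417929445135916361351168]],[]]],[[[],[[]],[[]]],[[[]],[[]],[[]]],
[[[]],[],[[]]],[[[]],[[]],[]],[[[]],[[]],[]]],[[[[]],[[2173839917137447170477326336]],
[[16189934727421065711202861056]]],[[],[[14934181921671379975453278208]],
[[138661449225250411233784365056]]],[[],[[1407417508804307274396860416]],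
[[16210505575938385532630597632]]],[[],[],[]],[[],[],[]]],[[[],[],[]],[[],[],[]],[[]],[],[[]]],
[[[[]],[],[]],[[],[],[]],[[[]],[],[]],[[[]],[],[[]]],[[[]],[],[[]]]],
[[[[14953510567704329792619544576]],[[139580310177482895315278266368]],[]],[[],[],[]],
[[[129531755953781605005172670464]],[],[[13675671330134040576365428736]]],
[[[13696553630037251999062556672]],[],[[89451029357799756438089760768]]],[[]]],
[[[[138663945042636824880435331072]],[[797292027944241792843439419392]],[]],[[],[],[]],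
[[[950854635350589032665587122176]],[],[[89453486178041727361571028992]]],
[[[89762821224759956361697132544]],[],[[1031282340338807781732127342592]]],[[]]]],[[[[[]],[[]],
[[]]],[[[]]],[[[]]],[[[]],[[]],[[]]],[]],[[[],[],[]],[[[]],[],[[]]],[[[]],[],[[]]],[[],[],[]],
[[[]],[[]],[]]],[[[[]],[[]],[[]]],[[[]],[[]],[]],[[[]],[[]],[]],[],[[],[],[[]]]],[[[[]],[],[]],
[[],[],[]],[[[]]]],[[[[]],[],[[]]],[[],[],[]],[[[]],[[]],[]],[[]],[[[]],[],[[]]]],[[[[]],[[]],
[[]]],[],[[[]]],[[[]]],[[[]]]],[[[[]],[[]],[]],[[],[],[]],[[[]],[],[[]]],[[[]],[],[[]]],[[]]]]],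
[[[[[[]],[[]],[[]]],[[[]],[],[[]]],[[[]],[],[[]]],[[[]],[[]],[[]]],[[[]],[[]],[]]],[[],[[[]],[],
[[]]],[[[]],[],[[]]],[],[[[]],[[]],[]]],[[[[]],[[]],[[]]],[[],[[]]],[[],[[]]],[],[[],[],[[]]]],
[[[[]],[],[[]]],[],[[[]],[[]]],[],[[[]],[],[[]]]],[[[[]],[],[[]]],[],[[[]],[[]]],[],[[[]],[],
[[]]]],[[[[]],[[]],[[]]],[],[[[]]],[[[]],[[]]],[[[]],[[]]]],[[[[]],[[]],[]],[],[[[]],[],[[]]],
[[[]],[],[[]]],[]]],[[[[[]],[[]],[[]]],[[],[],[]],[[[]],[],[[]]],[[[]],[[]],[[]]],[[[]],[[]],[]]],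
[[[],[],[[]]],[[[]],[[]],[[]]],[[[]],[[]],[[]]],[],[[[]],[[]],[[]]]],[[[],[],[[]]],[[],[]],[[],
[]],[],[[],[],[]]],[[[[]],[[]],[[]]],[[],[]],[[[]],[[]]],[],[[[]],[],[[]]]],[[[[]],[[]],[[]]],[[],
[]],[[[]],[[]]],[[[]]],[[[]],[],[[]]]],[[[[]],[[]],[[]]],[],[[[]]],[[[]]],[[[]]]],[[[[]],[[]],
[[]]],[[],[],[]],[[[]],[],[[]]],[[[]],[],[[]]],[[[]]]]],[[[[[]],[[]],[[]]],[[[]],[],[[]]],[[[]],
[],[[]]],[[[]],[[]],[[]]],[[[]],[[]],[]]],[[[[]],[[]],[[]]],[[[]],[],[[]]],[[[]],[],[[]]],[[[]],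
[[]],[[]]],[[[]],[[]],[]]],[[]],[[[[]],[],[[]]],[[],[[]]],[[[]],[[]]],[[[]]],[[[]],[],[[]]]],
[[[[]],[],[[]]],[[],[[]]],[[[]],[[]]],[[[]],[[]]],[[[]],[],[[]]]],[[]],[[[[]],[[]],[]],[[],[],
[[]]],[[[]],[],[[]]],[[[]],[],[[]]],[[[]],[[]]]]],[[[[],[],[[]]],[[[]],[[]],[[]]],[[[]],[[]],
[[]]],[],[[[]],[[]],[[]]]],[[[[]],[[]],[[]]],[[],[],[]],[[[]],[],[[]]],[[[]],[[]],[[]]],[[[]],
[[]],[]]],[[[[]],[[]],[[]]],[[],[],[]],[],[[],[[]],[[]]],[[[]],[[]],[]]],[[[[]],[[]],[[]]],[[[]],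
[],[[]]],[[],[],[]],[[],[[]],[[]]],[[],[],[]]],[[[[]],[[]],[[]]],[[[]],[],[[]]],[[],[],[]],[[],
[[]],[[]]],[[],[]]],[[[[]],[[]],[[]]],[[[]],[[]],[[]]],[[],[],[]],[[],[]],[[],[[]],[[]]]],[[[[]],
[[]],[[]]],[[[]],[[]],[]],[[],[],[]],[[],[]],[[],[[]],[[]]]]],[[[[[]],[[]],[[]]],[[],[[]]],[[],
[[]]],[],[[],[],[[]]]],[[]],[[[[]],[[]],[[]]],[[[]],[],[[]]],[[[]],[],[[]]],[[[]],[[]],[[]]],
[[[]],[[]],[]]],[[[],[[]],[]],[[],[],[]],[[[]],[],[[]]],[[[]],[],[]],[[[]],[[]],[]]],[[[],[[]]],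
[[]],[[[]]],[[[]],[]],[[[]],[[]]]],[[]],[[[],[],[[]]],[[]],[[[]]],[[[]],[[]]],[[[]],[]]]],[[[[[]],
[[]],[[]]],[],[[[]],[[]]],[],[[[]],[],[[]]]],[[[],[],[]],[[],[[]]],[[[]],[]],[[[]]],[[[]],[],
[[]]]],[[[[]],[[]],[[]]],[[[]],[],[[]]],[[],[],[]],[[],[[]],[[]]],[[],[],[]]],[[[],[],[]],[[],[],
[]],[],[[]]],[[[[]],[[]],[]],[[],[],[]],[[[]],[],[[]]],[[[]],[],[[]]],[[]]],[[[[]],[],[]],[[],[],
[]],[[[]],[],[]],[[]],[[[]],[],[[]]]],[[[[]],[],[[]]],[[],[],[]],[[[]],[[]],[]],[[]],[[[]],[],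
[[]]]]],[[[[[]],[],[[]]],[],[[[]],[[]]],[],[[[]],[],[[]]]],[[[],[],[]],[[],[]],[[]],[[]]],[[[[]],
[],[[]]],[[[]],[],[[]]],[[],[],[]],[[],[[]],[[]]],[[],[]]],[[[],[],[]],[[],[],[]],[[]],[[]]],
[[[[]],[[]],[]],[[],[],[]],[[[]],[],[[]]],[[[]],[],[[]]],[[]]],[[[],[],[]],[[],[],[]],[[]]],
[[[[]],[],[[]]],[[],[]],[[[]],[[]]],[[]],[[[]],[],[[]]]]],[[[[[]],[[]],[[]]],[],[[[]]],[[[]]],
[[[]]]],[[]],[[[[]],[[]],[[]]],[[[]],[[]],[[]]],[[],[[]],[[]]],[[],[[]],[[]]],[[],[[]],[[]]]],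
[[]],[[[[]],[],[]],[[],[],[]],[[[]],[],[]],[[[]],[],[[]]],[[[]],[],[[]]]],[[[[]],[]],[[],[]],
[[[]],[]],[[[]]],[[[]],[],[[]]]],[[[[]],[]],[[],[]],[[[]],[]],[[[]]],[[[]],[],[[]]]]],[[[[[]],
[[]],[[]]],[],[[[]],[],[[]]],[[[]],[],[[]]],[]],[[[[]],[[]],[]],[[],[],[[]]],[[[]],[],[[]]],[[[]],
[],[[]]],[[[]],[[]]]],[[[[]],[[]],[[]]],[[[]],[[]],[]],[[],[],[]],[[],[]],[[],[[]],[[]]]],[[[],[],
[]],[[],[],[]],[[]],[],[[]]],[[[[]],[],[[]]],[[],[],[]],[[[]],[[]],[]],[[]],[[[]],[],[[]]]],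
[[[[]],[],[[]]],[[],[]],[[[]],[[]]],[[]],[[[]],[],[[]]]],[[[[]],[],[]],[[],[],[]],[[[]],[]],[[]],
[[[]],[],[[]]]]]],[[[[[[2021327558726483289693126656]],[[11239081190748071052084248576]],[]],[[],
[],[]],[[[214612888560281880304287744]],[[]],[[2021476912497213605911986176]]],
[[[129065112357858758608155574272]],[[]],[[14932954034977607267455074304]]],[[],[],[]]],[[],[[],
[],[]],[],[],[[]]],[[[[214310879690446113804910592]],[[119620944314570678635761500160]],[]],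
[[[34001656654060786880086016]],[[11181067212592172566523150336]],[]],[],[],[[],
[[2720454372025296657055744]],[[21874038879132496766763008]]]],[[[],[],[]],[],[],[],[[],[],[]]],
[[[[31507630047441477433294848]],[[]],[[13618861034164984917679669248]]],[],
[[[232723313883867967209865216]],[[2166511384843003834897793024]],[]],[],
[[[31586166765418222828158976]],[],[[14913918099502813585829003264]]]],
[[[[2743844916118246551191552]],[[]],[[89293718484888428774185500672]]],[],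
[[[109250742017419990982174375936]],[[12419909080823161110002663424]],[]],[],
[[[251763751482216375437242368]],[],[[138661566150809204162639691776]]]],[[[],[],[]],[],[[],[],
[]]]],[[[[[]],[[]],[]],[[],[],[]],[[[]],[],[[]]],[[[]],[],[[]]],[[]]],[[],[[[]],[[]],[[]]],[],[],
[[[]],[[]],[[]]]],[[],[[],[],[]],[],[],[[],[],[]]],[[[[]],[[]],[[]]],[[],[],[]],[],[],[[[]],[[]],
[[]]]],[[[[]],[],[[]]],[],[[[]]],[],[[[]]]],[[[[]],[],[[]]],[],[[[]]],[],[[[]],[],[[]]]],[[[[]],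
[[]],[[]]],[[],[],[]],[[[]],[[]],[[]]],[],[[[]],[],[[]]]]],[[[[[212799654304335888143876096]],
[[119773195208549450718579261440]],[]],[[],[],[]],[[[31432090342297980547104768]],[[]],
[[13618875570199029125652414464]]],[[[14953529748912605174113763328]],[[]],
[[89293757407239198933877194752]]],[[],[],[]]],[[[[1404850358291046285281755136]],
[[1115403322936219912256764772352]],[]],[[],[],[]],[[[3046076315861879414063104]],[[]],
[[89141432182544280078958886912]]],[[[1404923518228912629216247808]],[[]],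
[[1036176978825985047329546178560]]],[[],[],[]]],[[[[]],[[]],[]],[[[]],[[]],[]],[[[]]],[[[]]],[]],
[[[],[],[]],[[[233950908997716899323183104]],[[109867407531163151101476372480]],[]],
[[[2169001852234393854446403584]],[[12379716793804936708146331648]],[]],
[[[716844980137180916719655600128]],[[109407978539709263204464033792]],[]],[[],[],[]]],[[[[]],[],
[[]]],[[],[[]]],[[[]],[[]]],[[[]],[[]]],[[[]],[],[[]]]],[[[[]],[],[[]]],[[[]],[[]],[]],[[[]],[[]],
[]],[[[]],[[]],[[]]],[[[]],[],[[]]]],[[[]],[[],[[21950768401449062431326208]],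
[[2739417641821703953731584]]],[[],[],[]],[[[252065831940718011575459840]],[],
[[129069871322677436729928974336]]],[[[31510581373406592528025600]],[],
[[950757618827574632906812293120]]]]],[[[],[[[]],[[]],[[]]],[],[],[[[]],[[]],[[]]]],[[[[]],[[]],
[]],[[],[],[]],[[[]],[],[[]]],[[[]],[],[[]]],[[]]],[[[[]],[[]],[]],[[],[],[]],[[],[],[[]]],[[],[],
[[]]],[[]]],[[[[]],[[]],[[]]],[[],[],[[]]],[[],[],[[]]],[[],[],[[]]],[]],[[[[]],[],[[]]],[[[]],[],
[[]]],[[],[],[]],[[],[[]],[[]]],[[],[]]],[[[[]],[],[[]]],[[[]],[],[[]]],[[],[],[]],[[],[[]],[[]]],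
[[],[]]],[[[[]],[[]],[[]]],[[[]]],[],[[],[[]]],[[],[[]]]]],[[[[[2016639419882330329599442944]],
[[793617805018144004093425745920]],[]],[[[16231540480205127680]],[[33852893609094448989339648]],
[]],[],[],[[],[[2021515263715134931245989888]],[[14915122523253197746557943808]]]],[[[[]],[[]],
[]],[[[]],[[]],[]],[[[]]],[[[]]],[]],[[[[17350810760860514805971681280]],
[[129210105574354021241065570304]],[]],[[],[],[]],[[[24218665730804763919908864]],[],
[[14971668361942562811962982400]]],[[[16113181957364722298572767232]],[],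
[[138816195281454371885111476224]]],[[]]],[[[[380150511090987771625472]],
[[12379716867609359987962806272]],[]],[[],[],[]],[[[213087345220755538271272960]],[],
[[1404960725444563892388757504]]],[[[119623363955553088602512556032]],[],
[[16132827149434492996888821760]]],[[]]],[[[],[[]],[]],[[],[],[]],[[]],[[[]],[]],[[[]],[[]]]],
[[[[]],[[]],[]],[[[]],[],[]],[[[]]],[[[]],[[]]],[[[]],[[]]]],[[[],[[270808902223121880346525696]],
[[1554906459085624621884571648]]],[[]],[[]],[[[129067379711301830474115055616]],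
[[13696227792623472129626603520]]],[[[950758502209973766817608368128]],
[[89136710378122009581010812928]]]]],[[[[[]],[[]],[[]]],[],[],[],[[[]],[[]],[[]]]],[[[],[],[]],
[[[]],[[]],[]],[[[]],[[]],[]],[[[]],[[]],[]],[[],[],[]]],[[[[]],[[]],[[]]],[[],[],[[]]],[[],[],
[[]]],[[],[],[[]]],[]],[[[],[],[]],[[],[],[]]],[[[[]],[[]],[]],[[],[],[]],[[[]],[],[]],[[[]],[],
[[]]],[[]]],[[[[]],[[]],[]],[[],[],[]],[[[]],[],[[]]],[[[]],[],[[]]],[[]]],[[[[]],[[]],[[]]],[],
[[[]]],[[[]]],[[[]]]]],[[[[[232425507395205757925326848]],[[]],[[89762743933190377130900324352]]],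
[],[[[531893711355351759060992]],[[3338792673295199051186176]]],[],
[[[17448742757754343431153647616]],[],[[1557212744526074270256726016]]]],[[[[]],[],[[]]],[[],
[[]]],[[[]],[[]]],[[[]],[[]]],[[[]],[],[[]]]],[[[[2181054493796571818267508736]],[[]],
[[715550201473601399263274729472]]],[[[214301065933947679805014016]],[],
[[99044914117797495078572261376]]],[[],[],[]],[[],[[2176068882896988336277192704]],
[[12380926017024251932313911296]]],[[],[]]],[[[],[],[]],[[],[],[]],[[]],[[]]],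
[[[[193451822540652372823113728]],[[99044914117797495078572261376]],[]],[[],[],[]],
[[[1557288938948906993682743296]],[],[[11142083707116812756475969536]]],
[[[12496387800356740201770647552]],[],[[129526730211855250999421796352]]],[[]]],[[[[]],[],[]],[[],
[],[]],[[[]],[]],[[]],[[[]],[],[[]]]],[[[[2176068882896988336277192704]],[],
[[1116718946349195629681704435712]]],[[],[]],[[[1116622529565569930884728225792]],
[[129526730211855250999421796352]]],[[]],[[[138651705821922961768541323264]],[],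
[[715587376091280846850217746432]]]]],[[[[[1547539612610830868510932992]],[[]],
[[1031225223462671417494508929024]]],[],[[[232430379659203756139216896]],
[[21799652097535356329525248]],[]],[],[[[99816322109794735426271084544]],[],
[[13733397760480714935370776576]]]],[[[[]],[],[[]]],[[[]],[[]],[]],[[[]],[[]],[]],[[[]],[[]],
[[]]],[[[]],[],[[]]]],[[[[16113181954987384438058647552]],[[]],
[[8239738575307013067071322980352]]],[[[119623326176038011151470034944]],[],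
[[872767675270860291366552338432]]],[[],[],[]],[[],[[12458282882153260061002301440]],
[[109557770252830209952838582272]]],[[],[]]],[[[],[],[]],[[],[],[]],[[]],[[]],[[]]],
[[[[99356891347892305142478864384]],[[872807574252485180680144420864]],[]],[[],[],[]],
[[[1031321347306181761487740862464]],[],[[129367381038154562189962248192]]],
[[[109879344529352609046963683328]],[],[[954530978985974186978864529408]]],[[]]],[[[[]],[],[]],
[[],[],[]],[[[]],[]],[[]],[[[]],[],[[]]]],[[[[12399976038859072608319836160]],[],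
[[6388082619557332664127489835008]]],[[],[]],[[[6388080090093655009452896714752]],
[[954530374521966930855589052416]]],[[]],[[[798472251366885210464133840896]],[],
[[8239743412153838679826532237312]]]]],[[[[[]],[[]],[[]]],[],[[[]],[],[]]],[[[]],[[],[[]],[[]]],
[[],[],[]],[[[]],[],[[]]],[[[]],[],[[]]]],[[[[]],[[]],[[]]],[[[]]],[],[[],[]],[[],[]]],[[[],[],
[]],[[]],[[]],[[]],[[]]],[[[[]],[],[]],[],[[[]]],[[]],[[]]],[[[[]],[]],[[],[]],[[[]],[]],[[]],
[[[]],[],[[]]]],[[[[]],[]],[[],[]],[[[]],[]],[[]],[[[]],[],[[]]]]]],[[[[[[]],[[]],[[]]],[[],[[]],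
[[]]],[[[]],[[]],[[]]],[[[]],[],[[]]],[[[]],[],[[]]]],[[],[[],[[]],[[]]],[],[[[]],[],[[]]],[[[]],
[],[[]]]],[[[[]],[[]],[[]]],[[[]],[[]],[[]]],[],[[[]],[[]],[]],[[[]],[[]],[]]],[[[],[[]],[[]]],[],
[],[[[]],[[]],[]],[[[]],[[]],[]]],[[[[]],[[]],[[]]],[],[[[]],[],[[]]],[[[]],[[]],[[]]],[[[]],[[]],
[[]]]],[[[[]],[],[[]]],[],[[[]],[[]],[]],[],[[[]],[],[[]]]],[[[[]],[],[[]]],[],[[[]],[[]],[]],[],
[[[]],[],[[]]]]],[[[[[]],[[]],[[]]],[[],[[]],[[]]],[[[]],[[]],[[]]],[[[]],[],[[]]],[[[]],[],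
[[]]]],[[],[[[]],[[]],[[]]],[],[[[]],[[]],[[]]],[[[]],[[]],[[]]]],[[],[[],[],[]],[],[[],[],[]],
[[],[],[]]],[[[[]],[[]],[[]]],[[],[],[]],[],[[[]],[[]],[]],[[[]],[[]],[]]],[[[[]],[[]],[[]]],[],
[[[]]],[[[]]],[[[]]]],[[[[]],[[]],[[]]],[[],[],[]],[[[]],[[]],[]],[[[]]],[[[]],[],[[]]]],[[[[]],
[[]],[[]]],[[],[],[]],[[[]],[[]],[]],[[[]]],[[[]],[],[[]]]]],[[[[[]],[[]],[[]]],[[],[[]],[[]]],
[[[]],[[]],[[]]],[[[]],[],[[]]],[[[]],[],[[]]]],[[[[]],[[]],[[]]],[[],[[]],[[]]],[[[]],[[]],[[]]],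
[[[]],[],[[]]],[[[]],[],[[]]]],[[]],[[[],[[]],[[]]],[[[]],[[]],[[]]],[[[]],[],[[]]],[[[]],[[]],
[]],[[[]],[[]],[]]],[[]],[[[[]],[],[[]]],[[[]],[[]],[]],[[[]],[[]],[]],[[[]],[[]],[[]]],[[[]],[],
[[]]]],[[[[]],[],[[]]],[[[]],[[]],[]],[[[]],[[]],[]],[[[]],[[]],[[]]],[[[]],[],[[]]]]],[[[],[[[]],
[[]],[[]]],[],[[[]],[[]],[[]]],[[[]],[[]],[[]]]],[[[[]],[[]],[[]]],[[],[[]],[[]]],[[[]],[[]],
[[]]],[[[]],[],[[]]],[[[]],[],[[]]]],[[[[]],[[]],[[]]],[[],[[]],[[]]],[[],[[]],[[]]],[],[[],[],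
[[]]]],[[[[]],[[]],[[]]],[[],[[]],[[]]],[[],[[]],[[]]],[[],[],[]],[[],[],[]]],[[[[]],[[]],[[]]],
[[[]],[[]],[[]]],[[],[],[]],[[],[]],[[],[[]],[[]]]],[[[[]],[[]],[[]]],[[[]],[],[[]]],[[],[],[]],
[[],[[]],[[]]],[[],[]]],[[[[]],[[]],[[]]],[[[]],[],[[]]],[[],[],[]],[[],[[]],[[]]],[[],[]]]],
[[[[[]],[[]],[[]]],[[[]],[[]],[[]]],[],[[[]],[[]],[]],[[[]],[[]],[]]],[[]],[[[[]],[[]],[[]]],[[],
[[]],[[]]],[[[]],[[]],[[]]],[[[]],[],[[]]],[[[]],[],[[]]]],[[[[]],[[]],[[]]],[[],[[]],[[]]],[[[]],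
[[]],[[]]],[[[]],[],[[]]],[[[]],[],[[]]]],[[]],[[[[]],[[]],[]],[[[]]],[[[]]],[[[]],[[]]],[[[]],
[[]]]],[[[[]],[[]],[]],[[[]]],[[[]]],[[[]],[[]]],[[[]],[[]]]]],[[[[[]],[[]],[[]]],[],[],[[[]],
[[]],[]],[[[]],[[]],[]]],[[[],[[]],[[]]],[[[]],[[]],[[]]],[[[]],[],[[]]],[[[]],[],[]],[[[]],[[]],
[]]],[[[[]],[[]],[[]]],[[],[[]],[[]]],[[],[[]],[[]]],[[],[],[]],[[],[],[]]],[[[],[],[]],[[],[],
[]],[[]],[],[[]]],[[[[]],[],[]],[[],[],[]],[[[]],[],[]],[[]],[[[]],[],[[]]]],[[[[]],[[]],[]],[[],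
[],[]],[[[]],[],[[]]],[[[]],[],[[]]],[[]]],[[[[]],[[]],[]],[[],[],[]],[[[]],[],[[]]],[[[]],[],
[[]]],[[]]]],[[[[[]],[[]],[[]]],[],[[[]]],[[[]]],[[[]]]],[[]],[[[[]],[[]],[[]]],[[[]],[[]],[[]]],
[[],[[]],[[]]],[[],[[]],[[]]],[[],[[]],[[]]]],[[]],[[[[]],[],[]],[[],[],[]],[[[]],[],[]],[[[]],[],
[[]]],[[[]],[],[[]]]],[[[[]],[]],[[],[]],[[[]],[]],[[[]]],[[[]],[],[[]]]],[[[[]],[]],[[],[]],
[[[]],[]],[[[]]],[[[]],[],[[]]]]],[[[[[]],[],[[]]],[],[[[]],[[]],[]],[],[[[]],[],[[]]]],[[[],[],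
[]],[[],[],[]],[[]],[[]],[]],[[[[]],[],[[]]],[[[]],[],[[]]],[[],[],[]],[[],[[]],[[]]],[[],[]]],
[[[],[],[]],[[],[],[]],[[]],[[]],[[]]],[[[[]],[[]],[]],[[],[],[]],[[[]],[],[[]]],[[[]],[],[[]]],
[[]]],[[[],[],[]],[[],[],[]],[[]]],[[[[]],[],[[]]],[[],[]],[[[]],[[]]],[[]],[[[]],[],[[]]]]],
[[[[[]],[[]],[[]]],[],[[[]],[[]],[]],[],[[[]],[],[[]]]],[[[[]],[],[[]]],[[],[[]],[]],[[[]],[[]]],
[[[]],[[]]],[[[]],[],[[]]]],[[[[]],[[]],[[]]],[[[]],[],[[]]],[[],[],[]],[[],[[]],[[]]],[[],[]]],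
[[[],[],[]],[[],[],[]],[[]],[[]],[[]]],[[[[]],[[]],[]],[[],[],[]],[[[]],[],[[]]],[[[]],[],[[]]],
[[]]],[[[[]],[],[]],[[],[],[]],[[[]],[]],[[]],[[[]],[],[[]]]],[[[[]],[],[[]]],[[],[]],[[[]],[[]]],
[[]],[[[]],[],[[]]]]]],[[[[[[213984598239212294800408576]],[],[[109879495018604793983102091264]]],
[[],[],[]],[[[99666376938205297913360285696]],[[14915141563734654709561032704]],[[]]],[[],[],[]],
[[[714388423989175042494450106368]],[[]],[[128753168811957692882290245632]]]],[[],[[],[],[]],[],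
[[]],[]],[[[[1714449258458813480130576384]],[],[[1031320431170579436367708684288]]],
[[[174694876884246507594711040]],[],[[109872053767921937713343758336]]],[],[[],
[[24331412388351650538979328]],[[252689554348817738624401408]]],[]],[[[],[],[]],[],[],[[],[],[]],
[]],[[[[17370157929766104893369614336]],[[89141546136736124125665296384]],[[]]],[],
[[[1709574004917598719251054592]],[],[[14855894753821726235442282496]]],
[[[213999060522313408367820800]],[],[[139423035912141972494482407424]]],[]],[[[],[],[]],[],[[],[],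
[]]],[[[[492943409097475524395008]],[[]],[[875262921772072306212713267200]]],[],
[[[799769112375046052756507590656]],[[139587562570555229923606265856]],[]],[],
[[[1404888119068792491071242240]],[],[[957005928535817655272969338880]]]]],[[[[[]],[],[[]]],[[],
[],[]],[[[]],[[]],[]],[[]],[[[]],[],[[]]]],[[[[]]],[[[]],[[]],[[]]],[[[]]],[[[]],[[]],[[]]],[]],
[[[[]]],[[[]],[],[]],[],[[],[],[]],[]],[[[[]],[[]],[[]]],[[[]],[],[]],[[[]]],[[[]],[[]],[[]]],[]],
[[[[]],[[]],[]],[],[[[]]],[[[]],[],[[]]],[]],[[[[]],[[]],[[]]],[[],[],[]],[[[]],[[]],[[]]],[[[]],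
[],[[]]],[[[]],[],[[]]]],[[[[]],[],[[]]],[],[[[]]],[],[[[]],[],[[]]]]],
[[[[[1714483486250720671572295680]],[],[[1035015800633670415831272259584]]],[[],[],[]],
[[[13695344486424707489754251264]],[[89134140230733272941867368448]],[[]]],[[],[],[]],
[[[128912712782989891873261223936]],[[]],[[875224217186104524822071476224]]]],
[[[[11162645113349713471246450688]],[],[[7616742908215201900718368948224]]],[[],[],[]],
[[[99978392555251595406433517568]],[[1030063733447785065974902050816]],[[]]],[[],[],[]],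
[[[13675369024855837085084680192]],[[]],[[5714343314187979714616392582144]]]],[[[[]],[],[[]]],
[[[]],[],[[]]],[[[]]],[],[[[]]]],[[[],[],[]],[[[1866810509915335907193421824]],[],
[[797330732610949540870288048128]]],[[[17429409829699998683605762048]],[],
[[138663980441643574733784055808]]],[[],[],[]],[[[6992204690201982067047565295616]],
[[794758416787843729736485314560]],[]]],[[[[]],[[]],[]],[[],[],[[]]],[[[]],[],[[]]],[[[]],[],
[[]]],[[[]],[[]]]],[[[]],[[],[[212780835166616324814143488]],[[377826651254992765353984]]],[[],[],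
[]],[[[1395292887609691236045225984]],[],[[951976197318844072649913008128]]],
[[[4250357032757298508095488]],[],[[8914108827151635184344985763840]]]],[[[[]],[],[[]]],[[[]],
[[]],[]],[[[]],[[]],[]],[[[]],[[]],[[]]],[[[]],[],[[]]]]],[[[[[]]],[[[]],[[]],[[]]],[[[]]],[[[]],
[[]],[[]]],[]],[[[[]],[],[[]]],[[],[],[]],[[[]],[[]],[]],[[]],[[[]],[],[[]]]],[[[[]],[],[[]]],[[],
[],[]],[[[]],[[]],[]],[[]],[[],[],[[]]]],[[[[]],[[]],[[]]],[[[]],[[]],[]],[[[]],[[]],[]],[],[[],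
[],[[]]]],[[[[]],[[]],[]],[[[]],[[]],[]],[[],[],[]],[[],[]],[[],[[]],[[]]]],[[[[]],[[]],[[]]],
[[[]]],[],[[],[[]]],[[],[[]]]],[[[[]],[],[[]]],[[[]],[],[[]]],[[],[],[]],[[],[[]],[[]]],[[],[]]]],
[[[[[876578842179913441984094404608]],[],[[8903426987072432236761286967296]]],
[[[29129346383801650595758080]],[],[[232128296860801391296249856]]],[],[[],
[[14933860656690512865707687936]],[[139437579638622540806477578240]]],[]],[[[[]],[],[[]]],[[[]],
[],[[]]],[[[]]],[],[[[]]]],[[[[2173839917137447170477326336]],[],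
[[716807791429592315016173060096]]],[[],[],[]],[[[14953510567704329792619544576]],
[[139580310177482895315278266368]],[]],[[]],[[[89610570957839735475950059520]],[],
[[952093174982862388461694115840]]]],[[[[14934181921671379975453278208]],[],
[[139282839503834754408784068608]]],[[],[],[]],[[[138968557750841719927376707584]],
[[16191143877988597482211508224]],[]],[[]],[[[1031243357208174583338711908352]],[],
[[89453486178041727361571028992]]]],[[[],[],[[]]],[[],[],[]],[[]],[[[]],[[]]],[[[]],[]]],[[[],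
[[1559705563301015941655035904]],[[13714361677538687121935040512]]],[[]],[[]],
[[[952093170187896190889636921344]],[[89451029357799756438089760768]]],
[[[8913485174352211009755366359040]],[[1031282340338807781732127342592]]]],[[[[]],[[]],[]],[[[]],
[],[]],[[[]]],[[[]],[[]]],[[[]],[[]]]]],[[[[[]],[[]],[[]]],[[[]]],[[[]]],[[[]],[[]],[[]]],[]],
[[[],[],[]],[[[]],[],[[]]],[[[]],[],[[]]],[[],[],[]],[[[]],[[]],[]]],[[[[]],[[]],[[]]],[[[]],[[]],
[]],[[[]],[[]],[]],[],[[],[],[[]]]],[[[[]],[],[]],[[],[],[]],[[[]]]],[[[[]],[],[[]]],[[],[],[]],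
[[[]],[[]],[]],[[]],[[[]],[],[[]]]],[[[[]],[[]],[[]]],[],[[[]]],[[[]]],[[[]]]],[[[[]],[[]],[]],
[[],[],[]],[[[]],[],[[]]],[[[]],[],[[]]],[[]]]],[[[[[99968682825586117608321581056]],
[[1034917877564962992093869637632]],[[]]],[],[[[194948813904390875846803456]],[],
[[24216350957121738243047424]]],[[[99813752589023478696095252480]],[],
[[13637004445763158435120021504]]],[]],[[[[]],[[]],[]],[[],[],[[]]],[[[]],[],[[]]],[[[]],[],[[]]],
[[[]],[[]]]],[[[[1110492057512086447159542808576]],[[8239738575307013067071322980352]],[[]]],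
[[[99356891347892305142478864384]],[[872807574252485180680144420864]],[]],[[],[],[]],[[],[]],[[],
[[14894282570048460883241738240]],[[139432706756516940589245235200]]]],[[[],[],[]],[[],[],[]],
[[]],[],[[]]],[[[[89610645906821400897165197312]],[],[[1111710049911097047920768188416]]],[[],[],
[]],[[[1114146942427078245644346589184]],[[129367381038154562189962248192]],[]],[[]],
[[[139115968173180079255542988800]],[],[[720500762444785317687165714432]]]],
[[[[12458282882153260061002301440]],[],[[6388089911425836086997762965504]]],[[],[]],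
[[[6387937435702677043342403960832]],[[954530978985974186978864529408]]],[[]],
[[[797350651404119468395108499456]],[],[[8239743412153838679826532237312]]]],[[[[]],[],[]],[[],[],
[]],[[[]],[]],[[]],[[[]],[],[[]]]]],[[[[[]],[[]],[[]]],[],[[[]],[],[]]],[[[]],[[],[[]],[[]]],[[],
[],[]],[[[]],[],[[]]],[[[]],[],[[]]]],[[[[]],[[]],[[]]],[[[]]],[],[[],[]],[[],[]]],[[[],[],[]],
[[]],[[]],[[]],[[]]],[[[[]],[],[]],[],[[[]]],[[]],[[]]],[[[[]],[]],[[],[]],[[[]],[]],[[]],[[[]],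
[],[[]]]],[[[[]],[]],[[],[]],[[[]],[]],[[]],[[[]],[],[[]]]]],[[[[[11181983426538831003292532736]],
[[]],[[5735078846997189414659611951104]]],[],[[[2026311979223390497454161920]],
[[214310662923206306137374720]],[]],[],[[[1110432239004266293615622619136]],[],
[[99506874307056116635606712320]]]],[[[[]],[],[[]]],[[[]],[[]],[]],[[[]],[[]],[]],[[[]],[[]],
[[]]],[[[]],[],[[]]]],[[[[90060176283311333046629695488]],[[]],
[[45636699764297538317575860523008]]],[[[1031243947646912600182532866048]],[],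
[[6367973274248789528189897572352]]],[[],[],[]],[[],[[139432858452731360606614028288]],
[[792281951433283123285896462336]]],[[],[]]],[[[],[],[]],[[],[],[]],[[]],[[]],[[]]],
[[[[1114185656386442242616252432384]],[[6367973274248789528189897572352]],[]],[[],[],[]],
[[[5734293156799510983800738807808]],[],[[719341114303786238817478377472]]],
[[[797234013821951319768146640896]],[],[[8259690838094599348071182630912]]],[[]]],[[[[]],[],[]],
[[],[],[]],[[[]],[]],[[]],[[[]],[],[[]]]],[[[[139432858452731360606614028288]],[],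
[[71072633487751645359388621799424]]],[[],[]],[[[71072654063251137814987718262784]],
[[8259690838094599348071182630912]]],[[]],[[[8873554430042242259696465477632]],[],
[[45637994835526442256784433872896]]]]]]] : List (List (List (List (List (List (List (ℕ))))))))

/-- State number 19. -/
def wst19 : L ℕ 7 := (
[[[[[[[99659124573829828704921976832]],[[]],[[1111671081234603883955161661440]]],[[[]],[[]],[[]]],
[[[14857117917123616267028922368]],[[99818626651439192733290332160]],[]],[[[]],[],[[]]],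
[[[109262866739046913357941571584]],[],[[232118702319525558566780928]]]],[[[]],[[]],[[]],[[[]],[],
[[]]]],[[[[11181661861851038831465201664]],[[]],[[89765351260849555213341687808]]],
[[[1557251150645020784823631872]],[[]],[[12438038097078361517042171904]]],[],[[],
[[193744530846177805355712512]],[[2171458045440082514257379328]]],[]],[[[]],[[]],[],[[[]],[[]]]],
[[[[380196765136713196503040]],[[13734932301291197044497580032]],[]],[],
[[[174392277701430406729957376]],[[]],[[2023817389711961524499644416]]],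
[[[21799062089991107901390848]],[],[[14932953956525174232427528192]]],[]],[[[[]],[],[[]]],[],
[[[]],[[]]],[],[[],[],[[]]]],[[[[253284496415384094630477824]],[],
[[119308928152642907419004895232]]],[],[[[118844888306285026278945849344]],
[[11199517134027771906733637632]],[]],[],[[[13675982779141780748259295232]],[],
[[109103327499467244685710458880]]]]],[[[[[]],[],[[]]],[[]],[[[]],[[]],[]],[[]],[[[]],[],[[]]]],
[[[[]],[],[[]]],[[[]],[[]],[[]]],[[[]],[[]],[]],[[[]],[[]],[[]]],[[[]],[],[[]]]],[[[[]],[],[[]]],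
[[[]],[],[[]]],[],[[],[[]],[[]]],[]],[[[[]],[[]],[[]]],[[[]],[],[[]]],[[[]],[],[[]]],[[[]],[[]]],
[[[]],[[]],[]]],[[[[]],[[]],[]],[],[[[]],[],[[]]],[[[]],[],[[]]],[]],[[[[]],[[]],[[]]],[[],[[]],
[[]]],[[[]],[[]]],[[[]],[],[[]]],[[[]],[],[[]]]],[[[[]],[],[[]]],[],[[[]],[[]],[]],[],[[[]],[],
[[]]]]],[[[[[799787869466026572928534446080]],[[]],[[5754888340941679186607721152512]]],[[[]],
[[]],[[]]],[[[119154147250967196059465580544]],[[715568354546643786246778257408]],[]],[[[]],[],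
[[]]],[[[12457688005805198583213850624]],[],[[139428060538042594251914608640]]]],
[[[[2166472997314884155377451008]],[[]],[[11259042932533554258742083584]]],[[]],
[[[213687453492832460211748864]],[[129681472706966091302300549120]],[]],[[[]],[],[[]]],
[[[2016718529467045570674819072]],[],[[871567835430852368485134106624]]]],[[[]],[[]],[[],[[]],
[[]]],[[],[[]],[[]]],[[],[[]],[[]]]],[[],[[[214612963589697317681233920]],[[]],
[[1869113253729646069785034752]]],[[[24405236246698074965016576]],[[]],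
[[17351415002409670514855116800]]],[[[]],[[]]],[[[878977653458843594967597711360]],
[[139432743898745436947076972544]],[]]],[[[]],[[]],[],[],[[],[]]],[[[[]],[],[[]]],[[],
[[1554830956406722141299572736]],[[194967698705710382816165888]]],[[[]],[[]]],
[[[12419006959035235652265574400]],[],[[118849537512978683561418850304]]],
[[[99352018464906178090097639424]],[],[[957005045531700619052673683456]]]],[[[[]],[],[[]]],[[[]],
[[]],[[]]],[[[]],[[]]],[[[]],[[]],[[]]],[[[]],[],[[]]]]],[[[[[]],[],[[]]],[[[]],[[]],[[]]],[[[]],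
[[]],[]],[[[]],[[]],[[]]],[[[]],[],[[]]]],[[[[]],[],[[]]],[],[[[]],[[]],[]],[[]],[[[]],[],[[]]]],
[[[[]],[],[[]]],[],[[[]]],[],[[[]],[],[[]]]],[[[[]],[[]],[[]]],[[],[],[[]]],[[],[],[[]]],[],[[],
[],[]]],[[[[]],[[]],[]],[[]],[],[],[[],[[]],[[]]]],[[[[]],[],[[]]],[[[]]],[],[[],[[]],[[]]],[[],
[[]],[[]]]],[[[[]],[],[[]]],[[[]],[],[[]]],[],[[],[[]],[[]]],[]]],
[[[[[34003418599557969215488000]],[[]],[[958184956834227063609786630144]]],
[[[213677939584312491877335040]],[[]],[[89608039788585712390458310656]]],[[]],[[[]],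
[[89291374392415871091729367040]],[[232727742345465610597564416]]],[[]]],[[[]],[[]],[],[],[]],
[[[[11162616703059122706454675456]],[[]],[[139273091359261522455007592448]]],[],
[[[31547816270433480597307392]],[[17447529181014753805781172224]],[]],[],
[[[233039488771752150580854784]],[],[[129674372638468447404187189248]]]],
[[[[1557247590137400789445902336]],[[]],[[16190255924434996878035124224]]],[],
[[[232430531809372253380935680]],[[2014184969909682409654190080]],[]],[],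
[[[1716750231669456211787382784]],[],[[13695646716652921140680851456]]]],[[[],[[]],[[]]],[],[],[],
[[[]],[[]],[]]],[[[],[[13636994923766455010049130496]],[[1702395435881678659116859392]]],[],[],
[[[118997063015627289854344167424]],[[11220371469927130919045169152]],[]],
[[[958186746833567007831819288576]],[[89143962780827506907912765440]],[]]],[[[[]],[[]],[[]]],
[[[]]],[],[[[]],[[]],[]],[[[]],[[]]]]],[[[[[]],[[]],[[]]],[[[]],[],[[]]],[[[]],[],[[]]],[[[]],
[[]]],[[[]],[[]],[]]],[[],[[[]],[],[[]]],[[],[],[[]]],[[],[]],[[[]],[[]]]],[[[]],[[],[],[[]]],[[],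
[],[[]]],[],[]],[[[[]],[],[[]]],[],[],[],[[[]],[],[[]]]],[[[],[],[[]]],[],[],[],[[[]]]],[[[[]],
[[]]],[],[],[],[]],[[[[]],[[]]],[],[[[]],[],[[]]],[[[]]],[]]],[[[[[174713766350736470454829056]],
[[89301009828116689429198798848]],[]],[[]],[[[1554831527834738144747454464]],[[]],
[[14914820290572752175990833152]]],[[[719283067047668310288734617600]],[[]],
[[139590020580465859573995110400]]],[[],[]]],[[[]],[],[],[],[]],
[[[[1552415456004501005620215808]],[[718084115012450499903046549504]],[]],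
[[[233639156698741461703720960]],[[99501963663433897306985857024]],[]],[],[],[[],
[[24406988833963729567612928]],[[194958399313466036293206016]]]],[[[],[[]],[[]]],[],[],[],[[[]],
[[]],[]]],[[[[52026736951722116120576]],[[]],[[119309118818329192825062686720]]],[],
[[[2014298316221447069270802432]],[[11142367418112156381630955520]],[]],[],
[[[253289002015463258862911488]],[],[[33850531705417278165090304]]]],
[[[[109407864640576034539135041536]],[],[[1109253824543188348176794386432]]],[],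
[[[1110491476661026224167851917312]],[[129529264895936916542361632768]],[]],[],
[[[2178563473286477975346216960]],[],[[195246611187717707635359744]]]],[[[[]],[[]],[[]]],[[],[[]],
[[]]],[[[]],[[]],[]],[],[]]],[[[[[]],[[]],[[]]],[[],[[]],[[]]],[[[]],[[]]],[[[]],[],[[]]],[[[]],
[],[[]]]],[[[]],[[],[[]],[[]]],[[],[]],[[],[],[[]]],[[[]],[],[[]]]],[[[[]],[],[[]]],[[[]],[[]],
[[]]],[],[[[]],[[]],[[]]],[[[]],[[]],[[]]]],[[[],[[]],[[]]],[],[],[[[]],[[]]],[[[]],[[]]]],[[[[]],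
[[]]],[],[[],[[]],[[]]],[[],[[]],[[]]],[[],[[]],[[]]]],[[[],[]],[],[[[]],[[]]],[],[[[]],[],[[]]]],
[[[[]],[],[[]]],[],[[[]],[[]]],[],[[[]],[],[[]]]]],[[[[[1549881869495062663520256000]],[],
[[796092777956079654000554934272]]],[[]],[[[793598145734940095922454134784]],
[[118849538112497721886321606656]],[]],[[],[]],[[[6358681656914110087238787465216]],[[]],
[[1032462242419132839328143134720]]]],[[[]],[],[[],[]],[],[]],[[[[11201028284455987457941307392]],
[],[[6358534055808054787140415913984]]],[[[2181054484703839853203193856]],[],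
[[954451784900021014912180420608]]],[],[[],[[213097163483664292881629184]],
[[1702169970694205061864620032]]],[]],[[[],[[]],[[]]],[],[],[[[]],[[]],[]],[[[]],[[]]]],
[[[[6398452710851201133416231731200]],[[956928580821442396076751716352]],[]],[],
[[[12476426433272426456408653824]],[],[[99349752300845754531151151104]]],
[[[1866583264914052096272105472]],[],[[251470813672392260631920640]]],[]],[[[],[]],[],[[],[],[]],
[],[]],[[[[1116700207699248341403550089216]],[],[[8299774020984942271696061267968]]],[],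
[[[8239738689234538992162536849408]],[[878977639288287070899853864960]],[]],[],
[[[14914541745908733759558778880]],[],[[1407419915667627882303291392]]]]]],[[[[[[]],[[]],[[]]],
[[],[[]],[[]]],[[[]],[[]],[]],[[[]],[],[[]]],[[[]],[],[[]]]],[[[[]],[],[[]]],[[[]],[[]],[[]]],
[[[]]],[[[]],[[]],[[]]],[[[]],[],[[]]]],[[[[]],[[]],[[]]],[[[]],[[]],[[]]],[[]],[[[]],[[]],[[]]],
[[]]],[[[]],[[]],[],[[[]],[[]]],[[[]],[[]],[]]],[[[[]],[[]],[]],[[]],[[[]],[[]],[[]]],[[[]],[[]],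
[[]]],[[],[]]],[[[[]],[[]],[[]]],[[],[[]],[[]]],[[[]],[[]]],[[[]],[],[[]]],[[[]],[],[[]]]],[[[[]],
[],[[]]],[[]],[[[]],[[]],[]],[[],[]],[[[]],[[]],[[]]]]],[[[[[]],[],[[]]],[[]],[[[]],[[]],[]],[[]],
[[[]],[],[[]]]],[[[[]],[],[[]]],[[[]],[[]],[[]]],[[[]],[[]],[]],[[[]],[[]],[[]]],[[[]],[],[[]]]],
[[[[]],[],[[]]],[[[]],[],[[]]],[],[[],[[]],[[]]],[]],[[[[]],[[]],[[]]],[[[]],[],[[]]],[[[]],[],
[[]]],[[[]],[[]]],[[[]],[[]],[]]],[[[[]],[[]],[]],[],[[[]],[],[[]]],[[[]],[],[[]]],[]],[[[[]],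
[[]],[[]]],[[],[[]],[[]]],[[[]],[[]]],[[[]],[],[[]]],[[[]],[],[[]]]],[[[[]],[],[[]]],[],[[[]],
[[]],[]],[],[[[]],[],[[]]]]],[[[[[]],[[]],[[]]],[[[]],[[]],[[]]],[[[]],[[]],[]],[[[]],[],[[]]],
[[[]],[],[[]]]],[[[[]],[[]],[[]]],[[]],[[[]],[[]],[]],[[[]],[],[[]]],[[[]],[],[[]]]],[[[]],[[]],
[[]],[],[[]]],[[],[[[]],[[]],[[]]],[[[]],[[]],[[]]],[[[]],[[]]],[[[]],[[]],[]]],[[[]],[[]],[],[],
[[],[]]],[[[[]],[],[[]]],[[[]],[[]],[[]]],[[[]],[[]]],[[[]],[[]],[[]]],[[[]],[[]],[[]]]],[[[]],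
[[]],[[],[]],[[],[]],[]]],[[[[[]],[],[[]]],[[[]],[[]],[[]]],[[[]],[[]],[]],[[[]],[[]],[[]]],[[[]],
[],[[]]]],[[[[]],[],[[]]],[],[[[]],[[]],[]],[[]],[[[]],[],[[]]]],[[[[]],[],[[]]],[],[[[]],[[]],
[]],[],[[[]],[],[[]]]],[[[[]],[[]],[[]]],[[[]],[[]],[[]]],[[],[[]],[[]]],[],[[[]],[[]],[[]]]],
[[[[]],[[]],[]],[[[]],[[]],[]],[],[],[[],[[]],[[]]]],[[[[]],[[]],[[]]],[[[]],[[]],[[]]],[],[[[]],
[[]],[[]]],[[[]],[[]],[[]]]],[[[[]],[],[[]]],[[[]],[],[[]]],[],[[],[[]],[[]]],[]]],[[[[[]],[[]],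
[[]]],[[[]],[[]],[[]]],[[]],[[[]],[[]],[[]]],[[]]],[[[]],[[]],[[]],[],[[]]],[[[[]],[[]],[[]]],[],
[[[]],[[]],[]],[],[[[]],[],[[]]]],[[[[]],[[]],[[]]],[],[[[]],[[]],[]],[],[[[]],[],[[]]]],[[[]],[],
[],[],[[],[],[]]],[[[[]],[[]],[[]]],[],[],[[[]],[[]],[]],[[[]],[[]],[]]],[[[]],[],[],[[],[],[]],
[]]],[[[[[]],[[]],[[]]],[[[]],[],[[]]],[[[]],[],[[]]],[[[]],[[]]],[[[]],[[]],[]]],[[],[[[]],[],
[[]]],[[[]],[],[[]]],[[],[]],[[[]],[[]],[]]],[[[[]],[[]],[[]]],[[[]],[[]],[[]]],[[],[[]],[[]]],[],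
[[[]],[[]],[[]]]],[[[[]],[],[[]]],[],[[[]],[[]],[]],[],[[[]],[],[[]]]],[[[[]],[],[[]]],[],[[[]],
[[]],[]],[],[[[]],[],[[]]]],[[[[]],[[]]],[],[[[]],[[]],[[]]],[[[]],[[]],[[]]],[[[]],[[]],[[]]]],
[[[[]],[[]],[]],[],[[[]],[],[[]]],[[[]],[],[[]]],[]]],[[[[[]],[[]],[]],[[]],[[[]],[[]],[[]]],
[[[]],[[]],[[]]],[[],[]]],[[[]],[[]],[],[],[[],[]]],[[[[]],[[]],[]],[[[]],[[]],[]],[],[],[[],[[]],
[[]]]],[[[]],[],[],[],[[],[],[]]],[[[[]],[[]],[[]]],[],[[[]],[[]],[]],[],[[[]],[],[[]]]],[[[[]],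
[[]],[[]]],[],[[[]],[[]],[]],[],[[[]],[],[[]]]],[[[],[]],[],[[],[],[]],[],[]]],[[[[[]],[[]],[[]]],
[[],[[]],[[]]],[[[]],[[]]],[[[]],[],[[]]],[[[]],[],[[]]]],[[[]],[[],[[]],[[]]],[[],[]],[[[]],[],
[[]]],[[[]],[],[[]]]],[[[[]],[[]],[[]]],[[[]],[[]],[[]]],[],[[[]],[[]],[[]]],[[[]],[[]],[[]]]],
[[[],[[]],[[]]],[],[],[[[]],[[]],[]],[[[]],[[]],[]]],[[[[]],[[]]],[],[[[]],[[]],[[]]],[[[]],[[]],
[[]]],[[[]],[[]],[[]]]],[[[[]],[],[[]]],[],[[[]],[[]],[]],[],[[[]],[],[[]]]],[[[[]],[],[[]]],[],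
[[[]],[[]],[]],[],[[[]],[],[[]]]]],[[[[[]],[],[[]]],[[]],[[[]],[[]],[]],[[],[]],[[[]],[[]],[[]]]],
[[[]],[[]],[[],[]],[[],[]],[]],[[[[]],[],[[]]],[[[]],[],[[]]],[],[[],[[]],[[]]],[]],[[[]],[],[],
[[],[],[]],[]],[[[[]],[[]],[]],[],[[[]],[],[[]]],[[[]],[],[[]]],[]],[[[],[]],[],[[],[],[]],[],[]],
[[[[]],[[]],[[]]],[],[[[]],[[]],[]],[],[[[]],[],[[]]]]]],[[[[[[233341796372669343868649472]],[[]],
[[26596967557565190632374272]]],[[[]],[[]],[[]]],[[[1743000842298064896]],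
[[4259875498374589132570624]],[]],[[[]],[],[[]]],[[[3626855875824068904353792]],[],
[[1714485902774193228278136832]]]],[[[[]],[],[[]]],[[[]],[[]],[[]]],[[[]],[[]],[]],[[[]],[[]],
[[]]],[[[]],[],[[]]]],[[[[2166585144302093825780744192]],[[]],[[719339891285754147146505388032]]],
[[[251759251665920898802909184]],[[]],[[99664071888978039848579366912]]],[[]],[[[]],
[[417957405628633006080000]],[[252079926332378579464617984]]],[[]]],[[[[]],[[]],[[]]],[[[]],[],
[[]]],[[[]],[],[[]]],[[[]],[[]]],[[[]],[[]],[]]],[[[[3948046027109914700152832]],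
[[99664071888978039848579366912]],[]],[[]],[[[1554791941691626665120104448]],[[]],
[[11259042857592240286088822784]]],[[[2720088950505956207755264]],[[]],
[[129065147793770395769686261760]]],[[],[]]],[[[[]],[[]],[[]]],[[],[[]],[[]]],[[[]],[[]]],[[[]],
[],[[]]],[[[]],[],[[]]]],[[[[417957405628633006080000]],[],[[1115482521813733456944497164288]]],
[[]],[[[1115404225055810687821779304448]],[[129065147793770395769686261760]],[]],[[],[]],
[[[1402467887941580725340471296]],[[]],[[720558502677980038499347206144]]]]],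
[[[[[529541609798453036253184]],[[]],[[251456940657999731306790912]]],[[[]],[[]],[[]]],
[[[12457678416975349233651830784]],[[24292462808676323953901568]],[]],[[[]],[],[[]]],
[[[89600936740351251797931819008]],[],[[12399059754419821418698244096]]]],[[[[]],[],[[]]],[[[]],
[[]],[[]]],[[[]],[[]],[]],[[[]],[[]],[[]]],[[[]],[],[[]]]],[[[[12419314282962720967012646912]],
[[]],[[8280131355852501563884718653440]]],[[[1861935284636321029621415936]],[[]],
[[878957073014452488182716956672]]],[[]],[[[]],[[2729975269037045736280064]],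
[[1857100761523786928462233600]]],[[]]],[[[[]],[[]],[[]]],[[[]],[],[[]]],[[[]],[],[[]]],[[[]],
[[]]],[[[]],[[]],[]]],[[[[34040007723042816072482816]],[[878997298425013661514732929024]],[]],
[[]],[[[13734611407549642443464900608]],[[]],[[129069758622152652779239342080]]],
[[[31433861234199078383910912]],[[]],[[954511324126548673866249297920]]],[[],[]]],[[[[]],[[]],
[[]]],[[],[[]],[[]]],[[[]],[[]]],[[[]],[],[[]]],[[[]],[],[[]]]],[[[[233941757123983298399326208]],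
[],[[6378184049435898805835402313728]]],[[]],[[[6378488699895356475121749458944]],
[[954491665213559483305217515520]],[]],[[],[]],[[[16172433566816417930258960384]],[[]],
[[8260164659723893255725681673728]]]]],[[[[[]],[],[[]]],[[]],[[[]],[[]],[]],[[]],[[[]],[],[[]]]],
[[[[]],[],[[]]],[],[[[]],[[]],[]],[[]],[[[]],[],[[]]]],[[[[]],[],[[]]],[[[]],[],[[]]],[[[]]],[[],
[[]],[[]]],[[[]]]],[[],[[[]],[],[[]]],[[],[],[[]]],[[],[]],[[[]],[[]],[]]],[[[[]],[[]],[]],[[[]]],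
[[],[],[[]]],[],[[],[[]]]],[[[]],[[],[[]],[[]]],[[],[]],[[[]],[],[[]]],[[[]],[],[[]]]],[[[[]],[],
[[]]],[[[]]],[[[]],[[]],[]],[[],[[]]],[[[]],[],[[]]]]],[[[[[]],[],[[]]],[[[]],[[]],[[]]],[[[]],
[[]],[]],[[[]],[[]],[[]]],[[[]],[],[[]]]],[[[[13696232585317340083861323776]],[[]],
[[7626329727734010934968994234368]]],[[]],[[[1869078425997541935356739584]],
[[714368802404253920467575111680]],[]],[[[]],[],[[]]],[[[14932954034977607267455074304]],[],
[[7002267596823556608632287133696]]]],[[[[90064974207218793051360067584]],[[]],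
[[71232385190741539267127469408256]]],[[],[[]]],[[[174718119800352190363598848]],
[[21915359727579139569483776]],[]],[[[]],[[]],[]],[[[129067567435034177341742907392]],[],
[[272325004287351472135864320]]]],[[[[]],[[]],[[]]],[[],[[]]],[[],[[]]],[],[[],[],[[]]]],
[[[[17410369026716708876804685824]],[[8289877639680386701264626384896]],[]],
[[[2021400745893183967522193408]],[[233629643978872796668231680]],[]],[[],[]],[],[[],
[[17408546043373131827524927488]],[[99973559222514752256087195648]]]],[[[[]],[[]],[[]]],[[[]],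
[[]],[[]]],[],[[[]],[[]],[[]]],[[[]],[[]],[[]]]],[[[[139589869427691728465354194944]],[],
[[45717145314816952378676174913536]]],[[[950739159174309754706805653504]],[],
[[2171347650893417493343371264]]],[[],[],[[]]],[[],[[99204531913420157964955877376]],
[[877718859001891206103700623360]]],[[[]],[[]],[[]]]]],[[[[[]],[],[[]]],[[[]],[],[[]]],[[]],[[],
[[]],[[]]],[[]]],[[[[]],[],[[]]],[[[]],[],[[]]],[[[]],[[]],[[]]],[[],[[]],[[]]],[[[]],[[]],[[]]]],
[[[[]],[],[[]]],[],[[[]],[],[]],[],[[[]],[],[[]]]],[[[[]],[],[[]]],[],[[],[],[]],[],[[],[],[[]]]],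
[[[[]],[[]],[[]]],[[[]],[],[]],[[],[],[]],[[[]],[[]]],[[[]],[[]],[[]]]],[[[],[[]],[[]]],[],[],
[[[]],[[]]],[[[]],[[]],[]]],[[[[]],[[]],[[]]],[[[]],[],[[]]],[[],[],[[]]],[[[]],[[]],[[]]],[[[]],
[[]],[]]]],[[[[[]],[[]],[[]]],[[[]],[],[[]]],[[[]],[],[[]]],[[[]],[[]]],[[[]],[[]],[]]],[[],
[[[2023970856813849957896355840]],[[]],[[799711093088730897725348904960]]],
[[[11259340438108604387003727872]],[[]],[[118849574692402656631146414080]]],[[[]],[[]]],
[[[6992194942011280821987808641024]],[[1109234184219815139756164513792]],[]]],[[[[]],[[]],[[]]],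
[[],[[]]],[[],[[]]],[],[[],[],[[]]]],[[[[14933266076587264629996781568]],[[]],
[[6992352064607210391939103850496]]],[[],[[]]],[[[34079013928764908366725120]],
[[3631575918159324080242688]],[]],[[[]],[[]],[]],[[[14874651623439351663791702016]],[],
[[24332039996485488817012736]]]],[[[[129062731141162845704686665728]],[[]],
[[1109195196435973332167186448384]]],[],[[[193749400894162814937333760]],
[[24369790832466266350026752]],[]],[],[[[1392758720901831835491762176]],[],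
[[270827721306815769500450816]]]],[[[[]],[[]]],[],[[[]],[[]],[[]]],[[[]],[[]],[[]]],[[[]],[[]],
[[]]]],[[[[45878077524578359033440370163712]],[[6339036422879593461847500652544]],[]],[[],[],
[[]]],[[[139280458250963502702021083136]],[],[[252991789299367990107054080]]],
[[[16190865183390159585391673344]],[],[[1562008897541598997414674432]]],[[[]],[[]],[[]]]]],
[[[[[]],[[]],[]],[],[[[]],[],[[]]],[[[]],[],[[]]],[[],[]]],[[[[]],[[]],[]],[[[]]],[[],[],[[]]],[],
[[],[[]]]],[[[[]],[[]],[]],[[[]]],[],[],[[],[[]],[[]]]],[[[[]]],[[[]]],[],[[[]],[[]]],[[],[]]],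
[[[],[],[[]]],[],[],[],[]],[[[[]],[],[[]]],[],[[[]],[[]]],[],[[[]],[],[[]]]],[[[],[[]]],[[],[[]],
[[]]],[[],[]],[],[[[]],[],[[]]]]],[[[[[]],[[]],[[]]],[[],[[]],[[]]],[[[]],[[]]],[[[]],[],[[]]],
[[[]],[],[[]]]],[[[[]],[],[[]]],[[[]],[[272013476916432629097562112]],
[[29092167110841529349963776]]],[[[]],[[]]],[[[1395177762065500753641865216]],[[]],
[[1030063747981460050681928089600]]],[[[12399352612623165227121770496]],[[]],
[[7606073002700089878919625441280]]]],[[[[]],[[]],[[]]],[[[]],[],[]],[],[[],[[]],[[]]],[[],[[]],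
[[]]]],[[[[]],[[1561969956908463444998520832]],[[271427684380584706769420288]]],[[[]],[],[]],[[],
[],[]],[[[193428353707668360436645888]],[[29053207164017334009462784]],[]],
[[[1711990095617881489721524224]],[[175001461789333099671453696]],[]]],[[[[]],[[]]],[],[[],[],[]],
[[],[],[]],[[],[],[]]],[[[[16189934804594744110107066368]],[[]],
[[7606060952401423936492545441792]]],[[],[],[]],[[[1864202601336807762276909056]],
[[174694876884246507594711040]],[]],[[],[],[]],[[[13714965988281156238480769024]],[],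
[[2171381943097953909827698688]]]],[[[[109717348451514458247211974656]],[[]],
[[70993444629493545584932515237888]]],[[],[[]],[[]]],[[[17332090861976492008261287936]],
[[1399975649232560276969095168]],[]],[[],[],[]],[[[89908042295719315951627272192]],[],
[[12438364232071699755381030912]]]]],[[[[[]],[],[[]]],[[]],[[[]],[[]],[]],[[],[]],[[[]],[],[[]]]],
[[[[]],[],[[]]],[[[]],[[]],[[]]],[[[]],[[]]],[[[]],[[]],[[]]],[[[]],[],[[]]]],[[[[]],[],[[]]],
[[[]],[],[[]]],[],[[],[[]],[[]]],[]],[[[[]],[[]],[[]]],[[[]],[],[[]]],[[[]],[],[[]]],[[[]],[[]],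
[[]]],[[[]],[[]],[]]],[[[[]],[[]]],[],[[[]],[],[[]]],[[[]],[],[]],[]],[[[[]],[[]],[[]]],[[],[[]],
[[]]],[[[]],[[]],[[]]],[[[]],[],[]],[]],[[[[]],[],[[]]],[],[[[]],[[]],[]],[],[[[]],[],[[]]]]]],
[[[[[[]],[],[[]]],[[]],[[[]],[[]],[]],[[]],[[[]],[],[[]]]],[[[[]],[],[[]]],[[[]],[[]],[[]]],[[[]],
[[]],[]],[[[]],[[]],[[]]],[[[]],[],[[]]]],[[[[]],[],[[]]],[[[]],[],[[]]],[],[[],[[]],[[]]],[]],
[[[[]],[[]],[[]]],[[[]],[],[[]]],[[[]],[],[[]]],[[[]],[[]]],[[[]],[[]],[]]],[[[[]],[[]],[]],[],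
[[[]],[],[[]]],[[[]],[],[[]]],[]],[[[[]],[[]],[[]]],[[],[[]],[[]]],[[[]],[[]]],[[[]],[],[[]]],
[[[]],[],[[]]]],[[[[]],[],[[]]],[],[[[]],[[]],[]],[],[[[]],[],[[]]]]],[[[[[]],[[]],[[]]],[[[]],
[[]],[[]]],[[[]],[[]],[]],[[[]],[],[[]]],[[[]],[],[[]]]],[[[[]],[],[[]]],[[[]],[[]],[[]]],[[[]]],
[[[]],[[]],[[]]],[[[]],[],[[]]]],[[[[]],[[]],[[]]],[[[]],[[]],[[]]],[[]],[[[]],[[]],[[]]],[[]]],
[[[]],[[]],[],[[[]],[[]]],[[[]],[[]],[]]],[[[[]],[[]],[]],[[]],[[[]],[[]],[[]]],[[[]],[[]],[[]]],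
[[],[]]],[[[[]],[[]],[[]]],[[],[[]],[[]]],[[[]],[[]]],[[[]],[],[[]]],[[[]],[],[[]]]],[[[[]],[],
[[]]],[[]],[[[]],[[]],[]],[[],[]],[[[]],[[]],[[]]]]],[[[[[]],[[]],[[]]],[[[]],[[]],[[]]],[[[]],
[[]],[]],[[[]],[],[[]]],[[[]],[],[[]]]],[[[[]],[],[[]]],[[[]],[[]],[[]]],[[[]]],[[[]],[[]],[[]]],
[[[]],[],[[]]]],[[[[]],[[]],[[]]],[[[]],[[]],[[]]],[[]],[[[]],[[]],[[]]],[[]]],[[[]],[[]],[],
[[[]],[[]]],[[[]],[[]],[]]],[[[[]],[[]],[]],[[]],[[[]],[[]],[[]]],[[[]],[[]],[[]]],[[],[]]],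
[[[[]],[[]],[[]]],[[],[[]],[[]]],[[[]],[[]]],[[[]],[],[[]]],[[[]],[],[[]]]],[[[[]],[],[[]]],[[]],
[[[]],[[]],[]],[[],[]],[[[]],[[]],[[]]]]],[[[[[]],[],[[]]],[[[]],[[]],[[]]],[[[]],[[]],[]],[[[]],
[[]],[[]]],[[[]],[],[[]]]],[[[[]],[],[[]]],[[[]],[[]],[[]]],[[[]],[[]],[]],[[[]],[[]],[[]]],[[[]],
[],[[]]]],[[[[]],[],[[]]],[[[]],[[]],[[]]],[[[]],[[]],[]],[[[]],[[]],[[]]],[[[]],[],[[]]]],[[]],
[[[[]],[[]],[]],[[[]],[[]],[]],[[],[[]],[[]]],[[[]],[[]],[[]]],[[],[[]],[[]]]],[[]],[[[[]],[],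
[[]]],[[[]],[],[[]]],[[[]],[[]],[[]]],[[],[[]],[[]]],[[[]],[[]],[[]]]]],[[[[[]],[[]],[[]]],[[[]],
[[]],[[]]],[[]],[[[]],[[]],[[]]],[[]]],[[[[]],[[]],[[]]],[[[]],[[]],[[]]],[[]],[[[]],[[]],[[]]],
[[]]],[[[],[],[]],[[],[[]]],[[[]],[]],[[[]],[],[]],[[[]],[],[[]]]],[[[]],[[],[]],[],[[],[],[]],
[[],[],[[]]]],[[[]],[[[]],[[]],[]],[[[]],[[]],[]],[[[]],[[]],[]],[[],[],[]]],[[[],[[]],[[]]],
[[[]],[[]],[[]]],[[[]],[[]],[[]]],[[[]],[[]],[]],[[[]],[[]],[]]],[[[]],[[[]],[],[[]]],[[[]],[],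
[[]]],[[],[],[]],[[[]],[[]],[]]]],[[[[[]],[[]],[[]]],[[[]],[],[[]]],[[[]],[],[[]]],[[[]],[[]]],
[[[]],[[]],[]]],[[[[]],[[]],[[]]],[[[]],[],[[]]],[[[]],[],[[]]],[[[]],[[]]],[[[]],[[]],[]]],[[]],
[[[[]],[],[[]]],[[[]],[[]],[[]]],[[[]],[[]],[]],[[[]],[[]],[[]]],[[[]],[],[[]]]],[[[[]],[],[[]]],
[[],[[]],[[]]],[[[]],[[]],[]],[[[]],[[]],[[]]],[[[]],[],[[]]]],[[]],[[[[]],[[]],[]],[[[]],[[]],
[[]]],[[[]],[],[[]]],[[[]],[],[[]]],[[[]],[[]],[[]]]]],[[[[[]],[[]],[]],[[]],[[[]],[[]],[[]]],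
[[[]],[[]],[[]]],[[],[]]],[[[[]],[[]],[]],[[]],[[[]],[[]],[[]]],[[[]],[[]],[[]]],[[],[]]],[[[]],
[[[]],[]],[[],[[]]],[[],[[]],[[]]],[[],[[]],[[]]]],[[[]],[[[]],[[]],[]],[[[]],[[]],[]],[[[]],[[]],
[]],[[],[],[]]],[[],[[],[]],[],[[],[],[]],[[],[],[[]]]],[[[[]],[],[[]]],[[[]],[[]],[[]]],[[[]],
[[]],[]],[[[]],[[]],[[]]],[[[]],[],[[]]]],[[[],[]],[[],[[]],[[]]],[[],[],[]],[[[]],[],[[]]],[[[]],
[],[[]]]]],[[[[[]],[[]],[[]]],[[],[[]],[[]]],[[[]],[[]]],[[[]],[],[[]]],[[[]],[],[[]]]],[[[[]],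
[[]],[[]]],[[],[[]],[[]]],[[[]],[[]]],[[[]],[],[[]]],[[[]],[],[[]]]],[[]],[[[],[[]],[[]]],[[[]],
[[]],[[]]],[[[]],[[]],[[]]],[[[]],[[]],[]],[[[]],[[]],[]]],[[]],[[[[]],[],[[]]],[[[]],[[]],[[]]],
[[[]],[[]],[]],[[[]],[[]],[[]]],[[[]],[],[[]]]],[[[[]],[],[[]]],[[[]],[[]],[[]]],[[[]],[[]],[]],
[[[]],[[]],[[]]],[[[]],[],[[]]]]],[[[[[]],[],[[]]],[[]],[[[]],[[]],[]],[[],[]],[[[]],[[]],[[]]]],
[[[[]],[],[[]]],[[]],[[[]],[[]],[]],[[],[]],[[[]],[[]],[[]]]],[[[[]],[],[[]]],[[[]],[],[[]]],[[],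
[],[[]]],[[],[[]],[[]]],[[[]],[[]],[[]]]],[[[]],[[[]],[],[[]]],[[[]],[],[[]]],[[],[],[]],[[[]],
[[]],[]]],[[[[]],[[]],[]],[],[[],[],[[]]],[[],[],[[]]],[[],[[]],[[]]]],[[[],[]],[[],[[]],[[]]],
[[],[],[]],[[[]],[],[[]]],[[[]],[],[[]]]],[[[[]],[],[[]]],[[[]],[[]],[[]]],[[[]],[[]],[]],[[[]],
[],[]],[[[]],[],[[]]]]]],[[[[[[119006659481860885972001161216]],[[]],
[[954529765042587843356344975360]]],[[[]],[[]],[[]]],[[[11143283562902365703399297024]],
[[89600936740351251797931819008]],[]],[[[]],[],[[]]],[[[29242111478945816640585728]],[],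
[[797254267826976350737745575936]]]],[[[[12456776443805886162160582656]],[[]],
[[8280131355852501563884718653440]]],[[]],[[[29130517324173173850177536]],
[[878957073014452488182716956672]],[]],[[[]],[],[[]]],[[[2729975269037045736280064]],[],
[[6377872033818571072964680220672]]]],[[[]],[[]],[[]],[],[[]]],[[],
[[[1404849759055694569551200256]],[[]],[[1115501567267656420596747075584]]],
[[[13637604549511949999401074688]],[[]],[[129069758622152652779239342080]]],[[[]],[[]]],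
[[[6377874338333552036865145569280]],[[954511324126548673866249297920]],[]]],[[[]],[[]],[],[],[[],
[]]],[[[[]],[],[[]]],[[[]],[[175625180847295929945960448]],[[381349695611101404889088]]],[[[]],
[[]]],[[[26599375720039093807251456]],[[]],[[720558776576334641771748020224]]],
[[[13636702282346944566050181120]],[[]],[[8260164659723893255725681673728]]]],[[[]],[[]],[[],[]],
[[],[]],[]]],[[[[[]],[],[[]]],[[]],[[[]],[[]],[]],[[]],[[[]],[],[[]]]],[[[[]],[],[[]]],[],[[[]],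
[[]],[]],[[]],[[[]],[],[[]]]],[[[[]],[],[[]]],[[[]],[],[[]]],[[[]]],[[],[[]],[[]]],[[[]]]],[[],
[[[]],[],[[]]],[[],[],[[]]],[[],[]],[[[]],[[]],[]]],[[[[]],[[]],[]],[[[]]],[[],[],[[]]],[],[[],
[[]]]],[[[]],[[],[[]],[[]]],[[],[]],[[[]],[],[[]]],[[[]],[],[[]]]],[[[[]],[],[[]]],[[[]]],[[[]],
[[]],[]],[[],[[]]],[[[]],[],[[]]]]],[[[[[14856810666892177640752939008]],[[]],
[[138963680689953935384178065408]]],[[[]],[[]],[[]]],[[[138806448298868357612118835200]],
[[16114405127456909992148357120]],[]],[[[]],[],[[]]],[[[876579125593382430410183278592]],[],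
[[99654173762429146454890119168]]]],[[[[]],[],[[]]],[[[]],[[]],[[]]],[[[]],[[]],[]],[[[]],[[]],
[[]]],[[[]],[],[[]]]],[[[[139587638736296713073517920256]],[[]],
[[45796413352922389260149579849728]]],[[[16210798065187430496818450432]],[[]],
[[6388401891081096743820415991808]]],[[]],[[[]],[[2021363548475044973680692224]],
[[3339161663622568632123392]]],[[]]],[[[[]],[[]],[[]]],[[[]],[],[[]]],[[[]],[],[[]]],[[[]],[[]]],
[[[]],[[]],[]]],[[[[232118484398502705883774976]],[[6388401891081096743820415991808]],[]],[[]],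
[[[99506875505225216913741709312]],[[]],[[716788457988667459563887804416]]],
[[[174099711097986627643899904]],[[]],[[8250420718179994945103692071424]]],[[],[]]],[[[[]],[[]],
[[]]],[[],[[]],[[]]],[[[]],[[]]],[[[]],[],[[]]],[[[]],[],[[]]]],
[[[[2021363548475044973680692224]],[],[[71073950017190200926601212067840]]],[[]],
[[[71068996750520995991403352817664]],[[8250420718179994945103692071424]],[]],[[],[]],
[[[99506760969386863520861160448]],[[]],[[45873203117074761999580606521600]]]]],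
[[[[[89760365022639286660886429696]],[[]],[[71232424778413642761546081239040]]],[[]],
[[[17410057576537478984047788032]],[[8289406198188215285037429620736]],[]],[[[]],[],[[]]],
[[[139116046055480139290765197312]],[],[[45719698259274843289897163292672]]]],[[[[]],[],[[]]],
[[[]],[[]],[[]]],[[[]],[[]],[]],[[[]],[[]],[[]]],[[[]],[],[[]]]],
[[[[16132510825910959212552519680]],[[]],[[6368130393874786759045906857984]]],
[[[2019135790533493136593977344]],[],[[956966666785453036552635547648]]],[[],[],[]],[[],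
[[212789988282494459222962176]],[[2016604011937972061068263424]]],[[],[],[]]],[[[[]],[[]],[[]]],
[[[]],[],[[]]],[[],[],[]],[[[]],[[]],[[]]],[[[]],[[]],[]]],[[[[24405209160009797496602624]],
[[952072618745282990581159821312]],[]],[[],[],[]],[[[11199507835750471526231048192]],[],
[[99049711434128866462652334080]]],[[[1395327660298837626573553664]],[],
[[871549097011363531305551933440]]],[[],[],[]]],[[[[]],[[]],[[]]],[[],[[]],[[]]],[[[]],[[]],[[]]],
[[[]],[],[[]]],[[[]],[],[[]]]],[[[[52169789022283092201472]],[],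
[[8249639789916786022332407906304]]],[[],[],[]],[[[8299314476240480102597156470784]],
[[875301602458067351781963743232]],[]],[[],[],[]],[[[11143297434925135564983775232]],[],
[[6358846071453347836345672958976]]]]],[[[[[]],[],[[]]],[[[]],[],[[]]],[[[]],[[]],[[]]],[[],[[]],
[[]]],[[[]],[[]],[[]]]],[[[[]],[],[[]]],[[[]],[],[[]]],[[]],[[],[[]],[[]]],[[]]],[[[[]],[],[[]]],
[[[]],[],[[]]],[[],[],[]],[[],[[]],[[]]],[[],[]]],[[[[]],[],[[]]],[[],[],[[]]],[[],[],[]],[[],[],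
[[]]],[[],[]]],[[[[]],[[]],[[]]],[[],[],[[]]],[[],[],[[]]],[[],[],[[]]],[]],[[[],[[]],[[]]],[[],
[[]],[[]]],[[],[[]],[[]]],[[],[],[]],[[],[],[]]],[[[[]],[[]],[[]]],[[],[[]],[[]]],[[],[[]],[[]]],
[],[[[]],[[]],[[]]]]],[[[],[[[14855280477262934861147275264]],[[]],
[[6992354597594491056351929696256]]],[[[129062579979464901770979835904]],[[]],
[[1109233867892686764806651510784]]],[[[]],[[]]],[[[45875679303884711500436151992320]],
[[6338876846469806536824677564416]],[]]],[[[[]],[[]],[[]]],[[[]],[],[[]]],[[[]],[],[[]]],[[[]],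
[[]]],[[[]],[[]],[]]],[[[[]],[[]],[[]]],[[[]],[],[[]]],[[],[],[]],[[[]],[[]],[[]]],[[[]],[[]],
[]]],[[[[1869188811892687687896989696]],[[]],[[877739401670719402010569605120]]],
[[[194646945602292331906072576]],[],[[139580195687770409391553052672]]],[[],[],[]],[[],
[[31586738037919868321267712]],[[270823290592591405526573056]]],[[],[],[]]],
[[[[11257526682839943013897076736]],[[]],[[139427833236694664424001208320]]],
[[[1704777252236524102237552640]],[],[[16133426966143560966611402752]]],[[],[],[]],[[],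
[[233044215821978426634153984]],[[2173686430570999447191322624]]],[[],[],[]]],[[[[]],[[]]],[[[]],
[[]],[[]]],[[],[[]],[[]]],[[],[[]],[[]]],[[],[[]],[[]]]],[[[[5754719055899537841775150563328]],
[[799768521784053145111293091840]],[]],[[[797235222381070963891411623936]],
[[118842322290111416811542118400]],[]],[[],[],[]],[[],[],[]],[[],[[1866771559621980793390238208]],
[[14971639953974708096882966528]]]]],[[[[[]],[[]],[]],[[[]]],[[],[],[[]]],[],[[],[[]]]],[[[[]],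
[[]],[]],[],[[[]],[],[[]]],[[[]],[],[[]]],[[],[]]],[[[[]],[[]],[]],[],[[[]],[],[[]]],[[],[],[[]]],
[]],[[[[]]],[[],[],[]],[[],[],[]],[]],[[[],[],[[]]]],[[[[]],[],[[]]],[[[]],[],[[]]],[],[[],[[]],
[[]]],[]],[[[],[[]]],[[],[],[]],[],[[],[],[]],[]]],[[[[[]],[],[[]]],[[[]],
[[1562124051776217814940057600]],[[193759144126248424477556736]]],[[[]],[[]]],
[[[16189939450868953446774734848]],[[]],[[7605906248865404201906571673600]]],
[[[109100759085939909228727828480]],[[]],[[70989729590780335761018927730688]]]],[[[[]],[[]],[[]]],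
[[],[[]],[[]]],[[[]],[[]]],[[[]],[],[[]]],[[[]],[],[[]]]],[[[[]],[[]],[[]]],[[],[[]],[[]]],[[[]],
[[]],[[]]],[[[]],[],[[]]],[[[]],[],[[]]]],[[[[]],[[14972555944346346413475770368]],
[[2016491264863985721350815744]]],[[],[[1716864167261433831696171008]],
[[13656328661080775314557894656]]],[[],[[271734487097469008916250624]],
[[2173687602220653259297816576]]],[[],[],[]],[[],[],[]]],[[[[]],[[]]],[[[]],[],[[]]],[[],[[]],
[[]]],[[],[[]],[[]]],[[],[[]],[]]],[[[[119156755768153171171423027200]],[[]],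
[[952092254049897955300058873856]]],[[[11259038207806336359129939968]],[],
[[90062556918344764599933534208]]],[[],[],[]],[[],[[1866810509915335907193421824]],
[[252066057913055563834195968]]],[[],[],[]]],[[[[952093458252179843221242265600]],[[]],
[[8913482793081183778759715783168]]],[[[89905623825974585468660088832]],[],
[[1029966731391558171664234852352]]],[[],[],[]],[[],[[14913337542420145086529544192]],
[[1871609623795237588163559424]]],[[],[],[]]]],[[[[[]],[],[[]]],[[[]],[[]],[[]]],[[[]],[[]]],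
[[[]],[[]],[[]]],[[[]],[],[[]]]],[[[[]],[],[[]]],[[]],[[[]],[[]],[]],[[],[]],[[[]],[],[[]]]],
[[[[]],[],[[]]],[[],[],[]],[[[]],[[]],[]],[[],[],[]],[[[]],[],[[]]]],[[[[]],[[]],[[]]],[[[]],[[]],
[[]]],[[[]],[[]],[[]]],[],[[[]],[[]],[[]]]],[[[[]],[[]],[]],[[[]],[[]],[]],[[],[],[]],[[],[],[]],
[[],[[]],[]]],[[[[]],[[]],[[]]],[[[]],[[]],[]],[],[[[]],[[]],[]],[[],[[]],[]]],[[[[]],[],[[]]],
[[[]],[],[[]]],[[],[],[]],[[],[[]],[[]]],[[],[],[]]]]],[[[[[[]],[],[[]]],[[[]],[[]],[[]]],[[[]],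
[[]],[]],[[[]],[[]],[[]]],[[[]],[],[[]]]],[[[[]],[],[[]]],[],[[[]],[[]],[]],[[]],[[[]],[],[[]]]],
[[[[]],[],[[]]],[],[[[]],[[]],[]],[],[[[]],[],[[]]]],[[[[]],[[]],[[]]],[[[]],[[]],[[]]],[[],[[]],
[[]]],[],[[[]],[[]],[[]]]],[[[[]],[[]],[]],[[[]],[[]],[]],[],[],[[],[[]],[[]]]],[[[[]],[[]],[[]]],
[[[]],[[]],[[]]],[],[[[]],[[]],[[]]],[[[]],[[]],[[]]]],[[[[]],[],[[]]],[[[]],[],[[]]],[],[[],[[]],
[[]]],[]]],[[[[[]],[],[[]]],[[[]],[[]],[[]]],[[[]],[[]],[]],[[[]],[[]],[[]]],[[[]],[],[[]]]],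
[[[[]],[[]],[[]]],[[]],[[[]],[[]],[]],[[[]],[],[[]]],[[[]],[],[[]]]],[[[[]],[[]],[[]]],[[],[[]]],
[[[]],[[]],[]],[[[]],[[]],[]],[[[]],[],[[]]]],[[[],[[]],[[]]],[[],[[]]],[[],[[]]],[],[[],[],
[[]]]],[[[[]],[[]],[]],[[[]],[[]],[]],[[],[]],[],[[],[[]],[[]]]],[[[[]],[[]],[[]]],[[[]],[[]],
[[]]],[],[[[]],[[]],[[]]],[[[]],[[]],[[]]]],[[[[]],[],[[]]],[[[]],[],[[]]],[[],[],[[]]],[[],[[]],
[[]]],[[[]],[[]],[[]]]]],[[[[[]],[],[[]]],[[[]],[[]],[[]]],[[[]],[[]],[]],[[[]],[[]],[[]]],[[[]],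
[],[[]]]],[[[[]],[],[[]]],[[[]],[[]],[[]]],[[[]],[[]],[]],[[[]],[[]],[[]]],[[[]],[],[[]]]],[[[[]],
[],[[]]],[[[]],[[]],[[]]],[[[]],[[]],[]],[[[]],[[]],[[]]],[[[]],[],[[]]]],[[]],[[[[]],[[]],[]],
[[[]],[[]],[]],[[],[[]],[[]]],[[[]],[[]],[[]]],[[],[[]],[[]]]],[[]],[[[[]],[],[[]]],[[[]],[],
[[]]],[[[]],[[]],[[]]],[[],[[]],[[]]],[[[]],[[]],[[]]]]],[[[[[]],[[]],[[]]],[[]],[[[]],[[]],[]],
[[[]],[],[[]]],[[[]],[],[[]]]],[[[[]],[],[[]]],[[[]],[[]],[[]]],[[[]]],[[[]],[[]],[[]]],[[[]],[],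
[[]]]],[[[[]],[[]],[[]]],[[[]],[],[[]]],[[],[],[]],[[],[[]],[[]]],[[],[],[]]],[[[[]],[[]],[[]]],
[[],[],[]],[[],[],[]],[[[]],[[]],[[]]],[[[]],[[]],[]]],[[[[]],[[]],[]],[[],[],[]],[[[]],[],[[]]],
[[[]],[],[[]]],[[],[],[]]],[[[[]],[[]],[[]]],[[],[[]],[[]]],[[[]],[[]],[[]]],[[[]],[],[[]]],[[[]],
[],[[]]]],[[[[]],[],[[]]],[[],[],[]],[[[]],[[]],[]],[[],[],[]],[[[]],[],[[]]]]],[[[[[]],[[]],
[[]]],[],[[[]],[[]],[]],[],[[[]],[],[[]]]],[[[],[],[]],[[],[[]]],[[[]],[]],[[[]],[],[]],[[[]],[],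
[[]]]],[[[[]],[[]],[[]]],[[[]],[],[[]]],[[],[],[]],[[],[[]],[[]]],[[],[],[]]],[[[],[[]],[]],[[],
[],[]],[[]],[[[]],[],[]],[[[]],[[]],[]]],[[[[]],[[]],[]],[[],[],[]],[[[]],[],[[]]],[[[]],[],[[]]],
[[]]],[[[[]],[[]],[[]]],[[],[[]],[[]]],[[[]],[[]],[[]]],[[[]]],[[[]],[],[[]]]],[[[[]],[],[[]]],
[[],[],[]],[[[]],[[]],[]],[[]],[[[]],[],[[]]]]],[[[[[]],[[]],[[]]],[[],[[]]],[[],[[]]],[],[[],[],
[[]]]],[[]],[[[[]],[[]],[[]]],[[[]],[],[[]]],[[[]],[],[[]]],[[[]],[[]],[[]]],[[[]],[[]],[]]],[[[],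
[[]],[]],[[],[],[]],[[[]],[],[[]]],[[[]],[],[]],[[[]],[[]],[]]],[[[],[[]],[]],[[],[],[]],[[[]],[],
[[]]],[[[]],[],[]],[[[]],[[]],[]]],[[]],[[[],[],[[]]],[[],[]],[[[]],[[]]],[[[]]],[[[]],[],[]]]],
[[[[[]],[[]],[]],[[[]],[[]],[]],[],[],[[],[[]],[[]]]],[[[]],[[[]],[]],[[],[[]]],[[],[[]],[[]]],
[[],[[]],[[]]]],[[[[]],[[]],[]],[[],[],[]],[[[]],[],[[]]],[[[]],[],[[]]],[[],[],[]]],[[[[]],[[]],
[]],[[],[],[]],[[[]],[],[[]]],[[[]],[],[[]]],[[]]],[[[],[[]],[]],[[],[],[]],[],[[[]],[],[]],[[[]],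
[[]],[]]],[[[[]],[[]],[[]]],[[[]],[],[[]]],[[[]]],[[[]],[[]],[[]]],[[[]],[[]],[]]],[[[],[[]],
[[]]],[[],[],[]],[[]],[[[]],[[]],[]],[[[]],[[]],[]]]],[[[[[]],[[]],[[]]],[[[]],[[]],[[]]],[],
[[[]],[[]],[[]]],[[[]],[[]],[[]]]],[[]],[[[[]],[[]],[[]]],[[],[[]],[[]]],[[[]],[[]],[[]]],[[[]],
[],[[]]],[[[]],[],[[]]]],[[[[]],[[]],[[]]],[[],[[]],[[]]],[[[]],[[]],[[]]],[[[]],[],[[]]],[[[]],
[],[[]]]],[[]],[[[[]],[[]],[[]]],[[[]],[],[[]]],[[[]],[],[[]]],[[[]],[[]],[[]]],[[[]],[[]],[]]],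
[[[[]],[[]],[[]]],[[[]],[],[[]]],[[[]],[],[[]]],[[[]],[[]],[[]]],[[[]]]]],[[[[[]],[],[[]]],[[[]],
[],[[]]],[],[[],[[]],[[]]],[]],[[[[]],[],[[]]],[[[]],[],[[]]],[[],[],[[]]],[[],[[]],[[]]],[[[]],
[[]],[[]]]],[[[[]],[],[[]]],[[],[],[]],[[[]],[[]],[]],[[],[],[]],[[[]],[],[[]]]],[[[[]],[],[[]]],
[[],[],[]],[[[]],[[]],[]],[[]],[[[]],[],[[]]]],[[[],[],[[]]],[[],[],[]],[[[]],[[]]],[[]],[[[]],[],
[]]],[[[],[[]],[[]]],[[],[],[]],[[]],[[[]],[[]],[]],[[[]],[[]],[]]],[[[],[[]],[[]]],[[],[],[]],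
[[[]],[],[[]]],[[[]],[],[]],[[[]]]]]],[[[[[[1116681153175365374904188796928]],[[]],
[[7626329727734010934968994234368]]],[[[129217245746356972435666042880]],[[]],
[[714368802404253920467575111680]]],[[]],[[[]],[[14932954034977607267455074304]],
[[118842283920881456511220449280]]],[[]]],[[[]],[[]],[[]],[],[[]]],
[[[[109403030090219115238530220032]],[[]],[[720559409589094564085542944768]]],[],
[[[214310884266674942781161472]],[[129067567435034177341742907392]],[]],[],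
[[[24219256175200366627946496]],[],[[720539433684857611038013784064]]]],
[[[[17447227022139589070749171712]],[[]],[[99661504655463294257013456896]]],[],
[[[1395217275284076907747868672]],[[13656049965365194089109651456]],[]],[],
[[[175001462995457976949538816]],[],[[99973559222514752256087195648]]]],[[[]],[],[],[],[[],[],
[]]],[[[[]],[[7692873314008125407232]],[[175605999674513127461355520]]],[],[],
[[[713053765014344018631277412352]],[[99204531913420157964955877376]],[]],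
[[[8240202802803732935747991240704]],[[877718859001891206103700623360]],[]]],[[[]],[],[],[[],[],
[]],[]]],[[[[[]],[],[[]]],[[[]],[],[[]]],[[]],[[],[[]],[[]]],[[]]],[[[[]],[],[[]]],[[[]],[],[[]]],
[[[]],[[]],[[]]],[[],[[]],[[]]],[[[]],[[]],[[]]]],[[[[]],[],[[]]],[],[[[]],[],[]],[],[[[]],[],
[[]]]],[[[[]],[],[[]]],[],[[],[],[]],[],[[],[],[[]]]],[[[[]],[[]],[[]]],[[[]],[],[]],[[],[],[]],
[[[]],[[]]],[[[]],[[]],[[]]]],[[[],[[]],[[]]],[],[],[[[]],[[]]],[[[]],[[]],[]]],[[[[]],[[]],[[]]],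
[[[]],[],[[]]],[[],[],[[]]],[[[]],[[]],[[]]],[[[]],[[]],[]]]],
[[[[[109417647594596723755619188736]],[[]],[[720597471645025162575825862656]]],
[[[17408555786696142228723073024]],[[]],[[99821083454092388813506609152]]],[[]],[[[]],
[[1407343721683893907028639744]],[[14875544223285170977010352128]]],[[]]],
[[[[17429093061057843165832151040]],[[]],[[6368130393874786759045906857984]]],
[[[2019020083031977322885611520]],[[]],[[952072618745282990581159821312]]],[[]],[[[]],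
[[52169789022283092201472]],[[24256463552983364540727296]]],[[]]],[[[[]],[],[[]]],[[[]],[[]],
[[]]],[[[]],[[]],[]],[[[]],[[]],[[]]],[[[]],[],[[]]]],[[[[]],[],[[]]],[[[]],[[]],[[]]],[[[]],[[]],
[]],[[[]],[[]],[[]]],[[[]],[],[[]]]],[[[]],[[[1549845880766780733447471104]],
[[716845282517307516650537353216]],[]],[[[13715896225285526846679547904]],
[[99049711434128866462652334080]],[]],[[[8299314476240480102597156470784]],
[[875301602458067351781963743232]],[]],[[],[],[]]],[[[],[[]],[[]]],[[[]],[[]],[[]]],[[[]],[[]],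
[[]]],[[[]],[[]],[]],[[[]],[[]],[]]],[[[]],[[[270804406892384967234707456]],[],
[[6992666347569329991816046510080]]],[[[1552450827780447900501278720]],[],
[[1109272860327467696690448588800]]],[[],[],[]],[[[45956127263334423281402620674048]],
[[6358846071453347836345672958976]],[]]]],[[[[[]],[],[[]]],[[[]],[],[[]]],[[[]],[[]],[[]]],[[],
[[]],[[]]],[[[]],[[]],[[]]]],[[[[]],[],[[]]],[[[]],[],[[]]],[[]],[[],[[]],[[]]],[[]]],[[[[]],[],
[[]]],[[[]],[],[[]]],[[],[],[]],[[],[[]],[[]]],[[],[]]],[[[[]],[],[[]]],[[],[],[[]]],[[],[],[]],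
[[],[],[[]]],[[],[]]],[[[[]],[[]],[[]]],[[],[],[[]]],[[],[],[[]]],[[],[],[[]]],[]],[[[],[[]],
[[]]],[[],[[]],[[]]],[[],[[]],[[]]],[[],[],[]],[[],[],[]]],[[[[]],[[]],[[]]],[[],[[]],[[]]],[[],
[[]],[[]]],[],[[[]],[[]],[[]]]]],[[[[[1031204969235061863439946219520]],[[]],
[[7626484471457278056218358710272]]],[],[[[1704776108677969027371368448]],
[[270804179838338597418434560]],[]],[],[[[11201307275266275088871456768]],[],
[[31661143854015434624860160]]]],[[[[]],[],[[]]],[[[]],[[]],[[]]],[[[]],[[]],[]],[[[]],[[]],[[]]],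
[[[]],[],[[]]]],[[[[6973019034456892818981780455424]],[[]],[[50709834571651448273611537776640]]],
[[[271130318200386946950758400]],[],[[99963848256912953044593803264]]],[[],[],[]],[[],
[[119775764737961004088541872128]],[[1111728198186832196894228480000]]],[[],[],[]]],[[[],[[]],[]],
[[],[],[]],[[[]],[],[[]]],[[[]],[],[]],[[[]],[[]],[]]],[[[[17447519888448844655338979328]],
[[99963848256912953044593803264]],[]],[[],[],[]],[[[455118790538450605965312]],[],
[[11162616636170508550665666560]]],[[[1111747554942226080561500520448]],[],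
[[129212639114305031612707995648]]],[[]]],[[[[]],[[]],[[]]],[[],[[]],[[]]],[[[]],[[]],[[]]],[[[]],
[],[[]]],[[[]],[],[[]]]],[[[[119775764737961004088541872128]],[],
[[1113025389462023013308855484416]]],[[],[],[]],[[[1115385812623887647387876851712]],
[[129212639114305031612707995648]],[]],[[]],[[[7666110679713780092362970726400]],[],
[[716788146604151556389186314240]]]]],[[[[[109867179104975809931697455104]],[[]],
[[716865531585596723393749581824]]],[],[[[194344273749683054378483712]],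
[[31547207385979908756865024]],[]],[],[[[29243264391584477385588736]],[],
[[213384932600016129812332544]]]],[[[[]],[],[[]]],[[[]],[[]],[[]]],[[[]],[[]],[]],[[[]],[[]],
[[]]],[[[]],[],[[]]]],[[[[1114243967940538535782243368960]],[[]],
[[7606834513210435541209949667328]]],[[[2171345345189948906511794176]],[],
[[16191469644012419759955509248]]],[[],[],[]],[[],[[11219757191007322769374576640]],
[[129676678287647167491883597824]]],[[],[],[]]],[[[],[[]],[]],[[],[],[]],[[[]],[],[[]]],[[[]],[],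
[]],[[[]],[[]],[]]],[[[[1392836040276320652999262208]],[[16132534359255488145603952640]],[]],[[],
[],[]],[[[14971946757971472590403796992]],[],[[2176183409944382833806016512]]],
[[[129681473316575516653569179648]],[],[[12399957225394481131875467264]]],[[]]],[[[[]],[[]],[[]]],
[[],[[]],[[]]],[[[]],[[]],[[]]],[[[]],[],[[]]],[[[]],[],[[]]]],
[[[[13733709288031513814108733440]],[],[[89141505351264273456999464960]]],[[],[],[]],
[[[89451028739536592444678209536]],[[12398752726849171635317243904]],[]],[[]],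
[[[718045722247848643020235735040]],[],[[138961378573191493570195947520]]]]],[[[[[]],[[]],[[]]],
[],[],[],[[[]],[[]],[[]]]],[[[]],[[[]],[[]],[]],[[[]],[[]],[]],[[[]],[[]],[]],[[],[],[]]],[[[[]],
[[]],[[]]],[[],[],[[]]],[[],[],[[]]],[[],[],[[]]],[]],[[[[]],[[]],[]],[[],[],[]],[[[]],[],[]],
[[[]],[],[[]]],[[]]],[[[],[],[]],[[],[],[]]],[[[[]],[[]],[]],[[],[],[]],[[[]],[],[[]]],[[[]],[],
[[]]],[[]]],[[[[]],[[]],[[]]],[],[[[]]],[[[]]],[[[]]]]],[[[[[]],[[16190241607364264650567319552]],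
[[1716677062506176526730395648]]],[],[],[[[2026198642720500426502832128]],
[[214603449682580736369229824]],[]],[[[14894887185144755897411567616]],
[[1562046685998541107512934400]],[]]],[[[],[[]],[[]]],[[[]],[[]],[[]]],[[[]],[[]],[[]]],[[[]],
[[]],[]],[[[]],[[]],[]]],[[[[]],[[109250742017138551232638615552]],
[[13618870557369229459863371776]]],[[],[[1111729100300622323081266069504]],
[[6368906524232532499734600876032]]],[[],[[129688878549263239898183237632]],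
[[953310875256873380072011333632]]],[[],[],[]],[[],[],[]]],[[[[]],[],[]],[[],[],[]],[[[]],[],[]],
[[[]],[],[[]]],[[[]],[],[[]]]],[[[],[],[]],[[],[],[]],[[]],[[]],[[]]],
[[[[14857122496510081977731514368]],[[109715045679739516803879075840]],[]],[[],[],[]],
[[[7665494165361599658238177968128]],[],[[16112573070622767275142807552]]],
[[[718043922658400394905157107712]],[],[[119313953295191832947721240576]]],[[]]],
[[[[138816194128674731766166061056]],[[719283676157895208911910223872]],[]],[[],[],[]],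
[[[71153119235345135240810976247808]],[],[[119163972135166639122801590272]]],
[[[8299628948078958465910485221376]],[],[[1109194908145537444377324421120]]],[[]]]],[[[[[]],[[]],
[[]]],[[[]]],[[[]]],[[[]],[[]],[[]]],[[[]],[[]]]],[[[]],[[[]],[],[[]]],[[[]],[],[[]]],[[],[],[]],
[[[]],[[]],[]]],[[[[]],[[]],[[]]],[[[]],[[]],[[]]],[[[]],[[]],[[]]],[],[[],[],[[]]]],[[[[]],[],
[[]]],[[],[],[]],[[[]],[[]],[]],[[]],[[[]],[],[[]]]],[[[[]],[],[]],[[],[],[]],[[[]]],[[]],[[]]],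
[[[[]],[[]],[[]]],[],[[[]]],[[[]]],[[[]]]],[[[[]],[[]],[]],[[],[],[]],[[[]],[],[[]]],[[[]],[],
[[]]],[[]]]]],[[[[[[]],[[]],[[]]],[[[]],[],[[]]],[[[]],[],[[]]],[[[]],[[]]],[[[]],[[]],[]]],[[],
[[[]],[],[[]]],[[[]],[],[[]]],[[],[]],[[[]],[[]],[]]],[[[[]],[[]],[[]]],[[[]],[[]],[[]]],[[],[[]],
[[]]],[],[[[]],[[]],[[]]]],[[[[]],[],[[]]],[],[[[]],[[]],[]],[],[[[]],[],[[]]]],[[[[]],[],[[]]],
[],[[[]],[[]],[]],[],[[[]],[],[[]]]],[[[[]],[[]]],[],[[[]],[[]],[[]]],[[[]],[[]],[[]]],[[[]],[[]],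
[[]]]],[[[[]],[[]],[]],[],[[[]],[],[[]]],[[[]],[],[[]]],[]]],[[[[]],[[],[],[[]]],[[],[],[[]]],[[],
[]],[[[]],[[]],[]]],[[],[[[]],[[]],[[]]],[[[]],[[]],[[]]],[[[]],[[]]],[[[]],[[]],[]]],[[[],[[]],
[[]]],[[],[[]]],[[],[[]]],[],[[],[],[[]]]],[[[[]],[[]],[[]]],[[],[[]]],[[[]],[[]],[]],[[[]],[[]],
[]],[[[]],[],[[]]]],[[[[]],[[]],[[]]],[],[[[]],[[]],[]],[],[[[]],[],[[]]]],[[[[]],[[]]],[],[[[]],
[[]],[[]]],[[[]],[[]],[[]]],[[[]],[[]],[[]]]],[[[[]],[[]],[]],[[],[],[[]]],[[[]],[],[[]]],[[[]],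
[],[[]]],[[[]],[[]],[[]]]]],[[[[[]],[[]],[[]]],[[[]],[],[[]]],[[[]],[],[[]]],[[[]],[[]]],[[[]],
[[]],[]]],[[[[]],[[]],[[]]],[[[]],[],[[]]],[[[]],[],[[]]],[[[]],[[]]],[[[]],[[]],[]]],[[]],[[[[]],
[],[[]]],[[[]],[[]],[[]]],[[[]],[[]],[]],[[[]],[[]],[[]]],[[[]],[],[[]]]],[[[[]],[],[[]]],[[],
[[]],[[]]],[[[]],[[]],[]],[[[]],[[]],[[]]],[[[]],[],[[]]]],[[]],[[[[]],[[]],[]],[[[]],[[]],[[]]],
[[[]],[],[[]]],[[[]],[],[[]]],[[[]],[[]],[[]]]]],[[[],[[[]],[[]],[[]]],[[[]],[[]],[[]]],[[[]],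
[[]]],[[[]],[[]],[]]],[[[]],[[]],[],[[],[]],[[[]],[[]],[]]],[[[[]],[[]],[[]]],[[],[],[]],[[],[],
[]],[[[]],[[]],[[]]],[[[]],[[]],[]]],[[[[]],[[]],[[]]],[[[]],[],[[]]],[[],[],[]],[[],[[]],[[]]],
[[],[],[]]],[[[[]],[[]],[[]]],[[[]],[],[[]]],[[],[],[]],[[],[[]],[[]]],[[],[],[]]],[[[[]],[[]]],
[[[]],[[]],[[]]],[[],[[]],[[]]],[[],[[]],[[]]],[[],[[]],[[]]]],[[[[]],[[]],[]],[[[]],[[]],[]],[[],
[],[]],[[],[],[]],[[],[[]],[[]]]]],[[[[[]],[[]],[[]]],[[],[[]]],[[],[[]]],[],[[],[],[[]]]],[[]],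
[[[[]],[[]],[[]]],[[[]],[],[[]]],[[[]],[],[[]]],[[[]],[[]],[[]]],[[[]],[[]],[]]],[[[],[[]],[]],
[[],[],[]],[[[]],[],[[]]],[[[]],[],[]],[[[]],[[]],[]]],[[[],[[]],[]],[[],[],[]],[[[]],[],[[]]],
[[[]],[],[]],[[[]],[[]],[]]],[[]],[[[],[],[[]]],[[],[]],[[[]],[[]]],[[[]]],[[[]],[],[]]]],[[[[[]],
[[]],[[]]],[],[[[]],[[]],[]],[],[[[]],[],[[]]]],[[[]],[[],[]],[],[[],[],[]],[[],[],[[]]]],[[[[]],
[[]],[[]]],[[[]],[],[[]]],[[],[],[]],[[],[[]],[[]]],[[],[],[]]],[[[],[[]],[]],[[],[],[]],[[]],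
[[[]],[],[]],[[[]],[[]],[]]],[[[[]],[[]],[]],[[],[],[]],[[[]],[],[[]]],[[[]],[],[[]]],[[]]],
[[[[]],[[]],[[]]],[[],[[]],[[]]],[[[]],[[]],[[]]],[[[]]],[[[]],[],[[]]]],[[[[]],[],[[]]],[[],[],
[]],[[[]],[[]],[]],[[]],[[[]],[],[[]]]]],[[[[[]],[[]],[[]]],[],[[[]],[[]],[]],[],[[[]],[],[[]]]],
[[],[[],[]],[],[[],[],[]],[[],[],[[]]]],[[[[]],[[]],[[]]],[[[]],[],[[]]],[[],[],[]],[[],[[]],
[[]]],[[],[],[]]],[[[],[[]],[]],[[],[],[]],[],[[[]],[],[]],[[[]],[[]],[]]],[[[[]],[[]],[]],[[],[],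
[]],[[[]],[],[[]]],[[[]],[],[[]]],[[]]],[[[[]],[[]],[[]]],[[],[[]],[[]]],[[[]],[[]],[[]]],[[[]]],
[[[]],[],[[]]]],[[[[]],[],[[]]],[[],[],[]],[[[]],[[]],[]],[[]],[[[]],[],[[]]]]],[[[[[]],[[]]],[],
[[[]],[[]],[[]]],[[[]],[[]],[[]]],[[[]],[[]],[[]]]],[[]],[[[[]],[[]]],[[[]],[[]],[[]]],[[],[[]],
[[]]],[[],[[]],[[]]],[[],[[]],[[]]]],[[]],[[[[]],[[]],[[]]],[[],[[]],[[]]],[[[]],[[]],[[]]],[[[]],
[],[[]]],[[[]],[],[[]]]],[[[[]],[[]],[[]]],[[],[[]],[[]]],[[[]],[[]],[[]]],[[[]],[],[[]]],[[[]],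
[],[[]]]],[[[[]],[[]],[[]]],[[],[[]],[[]]],[[[]],[[]],[[]]],[[[]],[],[[]]],[[[]]]]],[[[[[]],[[]],
[]],[],[[[]],[],[[]]],[[[]],[],[[]]],[]],[[[[]],[[]],[]],[],[[],[],[[]]],[[],[],[[]]],[[],[[]],
[[]]]],[[[[]],[[]],[]],[[[]],[[]],[]],[[],[],[]],[[],[],[]],[[],[[]],[[]]]],[[[],[],[[]]],[[],[],
[]],[[[]],[[]]],[[]],[[[]],[],[]]],[[[[]],[],[[]]],[[],[],[]],[[[]],[[]],[]],[[]],[[[]],[],[[]]]],
[[[[]],[],[[]]],[[],[],[]],[[[]],[[]],[]],[[]],[[[]],[],[[]]]],[[[[]],[],[]],[[],[],[]],[[[]],[],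
[]],[[[]],[],[[]]],[[]]]]],[[[[[[24255891415861560239751168]],[[716768213129769525078328344576]],
[]],[[]],[[[16191153024095467287113367552]],[[]],[[118849574692402656631146414080]]],
[[[1712066861463945657519702016]],[[]],[[1109234184219815139756164513792]]],[[],[]]],[[[]],[[]],
[],[],[[],[]]],[[[[1040007554164571242496]],[[128915243944189296809684762624]],[]],
[[[33926717611943097771491328]],[[12456785814823651722537205760]],[]],[],[],[[],
[[2729680012763788755337216]],[[24332039996485488817012736]]]],[[[]],[],[],[],[[],[],[]]],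
[[[[2016527844894842035218939904]],[[]],[[17390426323143440368914661376]]],[],
[[[232430601003257469418078208]],[[1392758720901831835491762176]],[]],[],
[[[29128183957381345458552832]],[],[[13694721204268794952793980928]]]],
[[[[4235966284555796410793984]],[[]],[[99204643423846255334506233856]]],[],
[[[139280458250963502702021083136]],[[16190865183390159585391673344]],[]],[],
[[[252991789299367990107054080]],[],[[89146228354026813437608230912]]]],[[[],[]],[],[[],[],[]],[],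
[]]],[[[[[]],[[]],[]],[],[[[]],[],[[]]],[[[]],[],[[]]],[[],[]]],[[[[]],[[]],[]],[[[]]],[[],[],
[[]]],[],[[],[[]]]],[[[[]],[[]],[]],[[[]]],[],[],[[],[[]],[[]]]],[[[[]]],[[[]]],[],[[[]],[[]]],
[[],[]]],[[[],[],[[]]],[],[],[],[]],[[[[]],[],[[]]],[],[[[]],[[]]],[],[[[]],[],[[]]]],[[[],[[]]],
[[],[[]],[[]]],[[],[]],[],[[[]],[],[[]]]]],[[[[[4245704994468818517229568]],
[[128755588425549176414358503424]],[]],[[]],[[[2016563843720549514923212800]],[[]],
[[17389793454624833452785795072]]],[[[4231244999200511886622720]],[[]],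
[[99197202210207790742877831168]]],[[],[]]],[[[[1407265267248898393474400256]],
[[1037413710088158546979410149376]],[]],[[]],[[[214612817152068005062246400]],[[]],
[[139427833236694664424001208320]]],[[[26824277563560848701718528]],[[]],
[[799768521784053145111293091840]]],[[],[]]],[[[[]],[[]],[]],[[[]],[[]],[]],[[],[[]],[[]]],[[[]],
[[]],[[]]],[[],[[]],[[]]]],[[[]],[[[233941388171096295863746560]],
[[139580195687770409391553052672]],[]],[[[2171231980577844543384223744]],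
[[16133426966143560966611402752]],[]],[[[797235222381070963891411623936]],
[[118842322290111416811542118400]],[]],[[],[],[]]],[[[[]],[],[[]]],[[],[[]],[[]]],[[[]],[[]],[]],
[[[]],[[]],[[]]],[[[]],[],[[]]]],[[[[]],[],[[]]],[[[]],[[]],[[]]],[[[]],[[]],[]],[[[]],[[]],[[]]],
[[[]],[],[[]]]],[[[],[]],[[],[[26637116893687590185598976]],[[251470811403426871414116352]]],[[],
[],[]],[[[175913170172513323211841536]],[],[[99514168019806140148673085440]]],
[[[1866771559621980793390238208]],[],[[876520209352673243437723574272]]]]],[[[[[]],[[]],[]],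
[[[]]],[[],[],[[]]],[],[[],[[]]]],[[[[]],[[]],[]],[],[[[]],[],[[]]],[[[]],[],[[]]],[[],[]]],
[[[[]],[[]],[]],[],[[[]],[],[[]]],[[],[],[[]]],[]],[[[[]]],[[],[],[]],[[],[],[]],[]],[[[],[],
[[]]]],[[[[]],[],[[]]],[[[]],[],[[]]],[],[[],[[]],[[]]],[]],[[[],[[]]],[[],[],[]],[],[[],[],[]],
[]]],[[[[[1716829367618387751007682560]],[[1110511414051990367638962307072]],[]],
[[[271427680959242893703249920]],[[33890700346390403352625152]],[]],[],[],[[],
[[1714484685135821830658981888]],[[11219436074699589959318765568]]]],[[[[]],[[]],[]],[[[]],[[]],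
[]],[[],[[]],[[]]],[[[]],[[]],[[]]],[[],[[]],[[]]]],[[[[17332095585513070409519464448]],
[[7606834513210435541209949667328]],[]],[[],[],[]],[[[26749854606941057378680832]],[],
[[13695935072662921747733938176]]],[[[13733709288031513814108733440]],[],
[[89141505351264273456999464960]]],[[],[],[]]],[[[[2014070452670951429054136320]],
[[16191469644012419759955509248]],[]],[[],[],[]],[[[3938529757850865354407936]],[],
[[2176183409944382833806016512]]],[[[89441321370628765864666628096]],[],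
[[12398752726849171635317243904]]],[[]]],[[[],[[]],[]],[[],[],[]],[[[]],[],[[]]],[[[]],[],[]],
[[[]],[[]],[]]],[[[[]],[[]],[[]]],[[[]],[],[[]]],[[[]],[],[[]]],[[[]],[[]],[[]]],[[[]],[[]],[]]],
[[[],[[12400561319369384776954544128]],[[109717350194587555237265047552]]],[[],[],[]],[[]],
[[[99194822699684696116489715712]],[[14894277999812729132272844800]],[]],
[[[872825113267933803161194881024]],[[138961378573191493570195947520]],[]]]],[[[[[]],[[]],[[]]],
[],[],[],[[[]],[[]],[[]]]],[[[]],[[[]],[[]],[]],[[[]],[[]],[]],[[[]],[[]],[]],[[],[],[]]],[[[[]],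
[[]],[[]]],[[],[],[[]]],[[],[],[[]]],[[],[],[[]]],[]],[[[[]],[[]],[]],[[],[],[]],[[[]],[],[]],
[[[]],[],[[]]],[[]]],[[[],[],[]],[[],[],[]]],[[[[]],[[]],[]],[[],[],[]],[[[]],[],[[]]],[[[]],[],
[[]]],[[]]],[[[[]],[[]],[[]]],[],[[[]]],[[[]]],[[[]]]]],[[[[[17332067245568125426953355264]],[[]],
[[109093466589796792138438017024]]],[],[[[21950150010070949393596416]],
[[3348605170197573838307328]],[]],[],[[[232416066158154970905444352]],[],
[[24332583898320773987696640]]]],[[[[]],[],[[]]],[[],[[]],[[]]],[[[]],[[]],[]],[[[]],[[]],[[]]],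
[[[]],[],[[]]]],[[[[139428061699759560228312449024]],[[]],[[793617516803926503754647732224]]],
[[[213994038415366306758393856]],[],[[2014222159268633648824320000]]],[[],[],[]],[[],
[[2023895299821603599893430272]],[[14855592447409473334359097344]]],[[],[],[]]],[[[],[[]],[]],[[],
[],[]],[[[]],[],[[]]],[[[]],[],[]],[[[]],[[]],[]]],[[[[232118480994080180967309312]],
[[2014222159268633648824320000]],[]],[[],[],[]],[[[1559669011368113313631174656]],[],
[[271734639283129400054251520]]],[[[14932675705818439567178727424]],[],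
[[1554833308075933956567072768]]],[[]]],[[[[]],[[]],[[]]],[[],[[]],[[]]],[[[]],[[]],[[]]],[[[]],
[],[[]]],[[[]],[],[[]]]],[[[[2023895299821603599893430272]],[],[[11219138710915039130875592704]]],
[[],[],[]],[[[11220664330490655540140048384]],[[1554833308075933956567072768]],[]],[[]],
[[[128760499105472696238773108736]],[],[[17351410282385332340762611712]]]]],
[[[[[1711914564856855490283438080]],[[]],[[719283388168517369104776560640]]],[],
[[[270808830687962717575970816]],[[31546589570996070372081664]],[]],[],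
[[[2178598854137143527592722432]],[],[[3938607076207754442964992]]]],[[[[]],[],[[]]],[[[]],[[]],
[[]]],[[[]],[[]],[]],[[[]],[[]],[[]]],[[[]],[],[[]]]],[[[[13695623329676809462285598720]],[[]],
[[7012623257764768588523808849920]]],[[[89446007139629362001404231680]],[],
[[12457688084168096124051914752]]],[[],[],[]],[[],[[14934181921671379975453278208]],
[[138661449225250411233784365056]]],[[],[],[]]],[[[],[[]],[[]]],[[],[],[]],[[[]],[],[[]]],[[[]],
[],[]],[[[]],[[]],[]]],[[[[1557323129399078820652285952]],[[12497289629303183899440185344]],[]],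
[[],[],[]],[[[878938046898572872760204460032]],[],[[1407379139858073725494624256]]],
[[[139592473840481722819537797120]],[],[[16191143877988597482211508224]]],[[]]],[[[],[],[]],[[],
[],[]],[[]],[],[[]]],[[[[14933558495562422412855226368]],[],[[138663945042636824880435331072]]],
[[],[],[]],[[[139113550312459447399935475712]],[[16093537354328869846585966592]],[]],[[]],
[[[950854635350589032665587122176]],[],[[89453486178041727361571028992]]]]],[[[[[]],[[]],[[]]],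
[[],[[]],[[]]],[[[]],[[]],[[]]],[[[]]],[]],[[[],[]],[[],[[]],[[]]],[[],[],[]],[[[]],[],[[]]],
[[[]],[],[[]]]],[[[[]],[[]],[[]]],[[[]],[[]],[]],[],[[[]],[[]],[]],[[],[[]],[]]],[[[],[[]],[[]]],
[[],[],[]],[[]],[[[]],[[]],[]],[[[]],[[]],[]]],[[[[]],[[]],[[]]],[],[[[]]],[[[]]],[[[]]]],[[[[]],
[],[]],[[],[],[]],[[[]]]],[[[[]],[],[[]]],[[],[],[]],[[[]],[[]],[]],[[]],[[[]],[],[[]]]]]],
[[[[[[]],[[]],[[]]],[[],[[]],[[]]],[[[]],[[]]],[[[]],[],[[]]],[[[]],[],[[]]]],[[[]],[[],[[]],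
[[]]],[[],[]],[[[]],[],[[]]],[[[]],[],[[]]]],[[[[]],[[]],[[]]],[[[]],[[]],[[]]],[],[[[]],[[]],
[[]]],[[[]],[[]],[[]]]],[[[],[[]],[[]]],[],[],[[[]],[[]],[]],[[[]],[[]],[]]],[[[[]],[[]]],[],
[[[]],[[]],[[]]],[[[]],[[]],[[]]],[[[]],[[]],[[]]]],[[[[]],[],[[]]],[],[[[]],[[]],[]],[],[[[]],[],
[[]]]],[[[[]],[],[[]]],[],[[[]],[[]],[]],[],[[[]],[],[[]]]]],[[[[[]],[[]],[[]]],[[],[[]],[[]]],
[[[]],[[]]],[[[]],[],[[]]],[[[]],[],[[]]]],[[[[]],[],[[]]],[[[]],[[]],[[]]],[[[]],[[]]],[[[]],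
[[]],[[]]],[[[]],[[]],[[]]]],[[[[]],[[]],[[]]],[[[]],[],[]],[],[[],[[]],[[]]],[[],[[]],[[]]]],
[[[[]],[[]],[[]]],[[[]],[],[]],[[],[],[]],[[[]],[[]],[]],[[[]],[[]],[]]],[[[[]],[[]]],[],[[],[],
[]],[[],[],[]],[[],[],[]]],[[[[]],[[]],[[]]],[[],[],[]],[[[]],[[]],[]],[[],[],[]],[[[]],[],[[]]]],
[[[[]],[[]],[[]]],[[],[[]],[[]]],[[[]],[[]],[]],[[],[],[]],[[[]],[],[[]]]]],[[[[[]],[[]],[[]]],
[[],[[]],[[]]],[[[]],[[]]],[[[]],[],[[]]],[[[]],[],[[]]]],[[[[]],[[]],[[]]],[[],[[]],[[]]],[[[]],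
[[]]],[[[]],[],[[]]],[[[]],[],[[]]]],[[]],[[[],[[]],[[]]],[[[]],[[]],[[]]],[[[]],[[]],[[]]],[[[]],
[[]],[]],[[[]],[[]],[]]],[[]],[[[[]],[],[[]]],[[[]],[[]],[[]]],[[[]],[[]],[]],[[[]],[[]],[[]]],
[[[]],[],[[]]]],[[[[]],[],[[]]],[[[]],[[]],[[]]],[[[]],[[]],[]],[[[]],[[]],[[]]],[[[]],[],[[]]]]],
[[[[[]],[],[[]]],[[[]],[[]],[[]]],[[[]],[[]]],[[[]],[[]],[[]]],[[[]],[[]],[[]]]],[[[[]],[[]],
[[]]],[[],[[]],[[]]],[[[]],[[]]],[[[]],[],[[]]],[[[]],[],[[]]]],[[[[]],[[]],[[]]],[[],[[]],[[]]],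
[[[]],[[]],[[]]],[[[]],[],[[]]],[[[]],[],[[]]]],[[[[]],[[]],[[]]],[[],[[]],[[]]],[[],[[]],[[]]],
[[],[],[]],[[],[],[]]],[[[[]],[[]]],[[[]],[],[[]]],[[],[[]],[[]]],[[],[[]],[[]]],[[],[[]],[]]],
[[[[]],[[]],[[]]],[[[]],[],[[]]],[[],[],[]],[[],[[]],[[]]],[[],[],[]]],[[[[]],[[]],[[]]],[[[]],[],
[[]]],[[],[],[]],[[],[[]],[[]]],[[],[],[]]]],[[[[[]],[[]],[[]]],[[[]],[[]],[[]]],[],[[[]],[[]],
[[]]],[[[]],[[]],[[]]]],[[]],[[[[]],[[]],[[]]],[[],[[]],[[]]],[[[]],[[]],[[]]],[[[]],[],[[]]],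
[[[]],[],[[]]]],[[[[]],[[]],[[]]],[[],[[]],[[]]],[[[]],[[]],[[]]],[[[]],[],[[]]],[[[]],[],[[]]]],
[[]],[[[[]],[[]],[[]]],[[[]],[],[[]]],[[[]],[],[[]]],[[[]],[[]],[[]]],[[[]],[[]],[]]],[[[[]],[[]],
[[]]],[[[]],[],[[]]],[[[]],[],[[]]],[[[]],[[]],[[]]],[[[]]]]],[[[[[]],[[]],[[]]],[],[],[[[]],[[]],
[]],[[[]],[[]],[]]],[[[],[[]],[[]]],[[[]],[[]],[[]]],[[[]],[[]],[[]]],[[[]],[[]],[]],[[[]],[[]],
[]]],[[[[]],[[]],[[]]],[[],[[]],[[]]],[[],[[]],[[]]],[[],[],[]],[[],[],[]]],[[[[]],[],[]],[[],[],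
[]],[[[]],[],[]],[[]],[[[]],[],[[]]]],[[[],[],[]],[[],[],[]],[[]],[[]],[[]]],[[[[]],[[]],[]],[[],
[],[]],[[[]],[],[[]]],[[[]],[],[[]]],[[]]],[[[[]],[[]],[]],[[],[],[]],[[[]],[],[[]]],[[[]],[],
[[]]],[[]]]],[[[[[]],[[]]],[],[[[]],[[]],[[]]],[[[]],[[]],[[]]],[[[]],[[]],[[]]]],[[]],[[[[]],
[[]]],[[[]],[[]],[[]]],[[],[[]],[[]]],[[],[[]],[[]]],[[],[[]],[[]]]],[[]],[[[[]],[[]],[[]]],[[],
[[]],[[]]],[[[]],[[]],[[]]],[[[]],[],[[]]],[[[]],[],[[]]]],[[[[]],[[]],[[]]],[[],[[]],[[]]],[[[]],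
[[]],[[]]],[[[]],[],[[]]],[[[]],[],[[]]]],[[[[]],[[]],[[]]],[[],[[]],[[]]],[[[]],[[]],[[]]],[[[]],
[],[[]]],[[[]]]]],[[[[[]],[[]],[[]]],[],[[[]],[[]],[]],[],[[[]],[],[[]]]],[[[[]],[],[[]]],[[[]],
[[]],[[]]],[[[]],[[]],[]],[[[]],[[]],[[]]],[[[]],[],[[]]]],[[[[]],[[]],[[]]],[[[]],[],[[]]],[[],
[],[]],[[],[[]],[[]]],[[],[],[]]],[[[],[[]],[[]]],[[],[],[]],[[]],[[[]],[],[]],[[[]],[[]],[]]],
[[[[]],[[]],[]],[[],[],[]],[[[]],[],[[]]],[[[]],[],[[]]],[[]]],[[[],[],[]],[[],[],[]],[[]],[],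
[[]]],[[[[]],[],[[]]],[[],[],[]],[[[]],[[]],[]],[[]],[[[]],[],[[]]]]],[[[[[]],[[]],[[]]],[],[[[]],
[[]],[]],[],[[[]],[],[[]]]],[[[[]],[],[[]]],[[[]],[[]],[[]]],[[[]],[[]],[]],[[[]],[],[]],[[[]],[],
[[]]]],[[[[]],[[]],[[]]],[[[]],[],[[]]],[[],[],[]],[[],[[]],[[]]],[[],[],[]]],[[[],[[]],[[]]],[[],
[],[]],[[[]],[],[[]]],[[[]],[],[]],[[[]]]],[[[[]],[[]],[]],[[],[],[]],[[[]],[],[[]]],[[[]],[],
[[]]],[[]]],[[[],[],[]],[[],[],[]],[[]],[[]],[[]]],[[[[]],[],[[]]],[[],[],[]],[[[]],[[]],[]],[[]],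
[[[]],[],[[]]]]]],[[[[[[213394519197228028424880128]],[],[[6991895091799738957528490311680]]],
[[]],[[[7002108209880138453598217437184]],[[1109311867290304281959808368640]],[]],[[],[]],
[[[715646632275489620318241685504]],[[]],[[7606073002700089878919625441280]]]],[[[]],[[]],[[],[]],
[[],[]],[]],[[[[1407305408219723573802041344]],[],[[714408673639598112248434786304]]],
[[[174085691662848546935144448]],[],[[138811280515282265013129052160]]],[],[[],
[[29053207164017334009462784]],[[175001461789333099671453696]]],[]],[[[]],[],[],[[],[],[]],[]],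
[[[[1112967347147271743780149002240]],[[99656820667586881527010557952]],[]],[],
[[[1864202601336807762276909056]],[],[[13714965988281156238480769024]]],
[[[174694876884246507594711040]],[],[[109872053767921937713343758336]]],[]],[[[],[]],[],[[],[],
[]],[],[]],[[[[1714448686600845566702256128]],[[]],[[1115443826818883375368994553856]]],[],
[[[950796309478323990702016167936]],[[89908042295719315951627272192]],[]],[],
[[[1562011259163977680328589312]],[],[[799769112375046052756507590656]]]]],[[[[[]],[],[[]]],[[]],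
[[[]],[[]],[]],[[],[]],[[[]],[],[[]]]],[[[[]],[],[[]]],[[[]],[[]],[[]]],[[[]],[[]]],[[[]],[[]],
[[]]],[[[]],[],[[]]]],[[[[]],[],[[]]],[[[]],[],[[]]],[],[[],[[]],[[]]],[]],[[[[]],[[]],[[]]],
[[[]],[],[[]]],[[[]],[],[[]]],[[[]],[[]],[[]]],[[[]],[[]],[]]],[[[[]],[[]]],[],[[[]],[],[[]]],
[[[]],[],[]],[]],[[[[]],[[]],[[]]],[[],[[]],[[]]],[[[]],[[]],[[]]],[[[]],[],[]],[]],[[[[]],[],
[[]]],[],[[[]],[[]],[]],[],[[[]],[],[[]]]]],[[[[[2166434637592128212961394688]],[],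
[[713092474399996059511412490240]]],[[]],[[[1110491150747410109303656284160]],
[[99197391058610704150746431488]],[]],[[],[]],[[[119473529722970778730160455680]],[[]],
[[1112966747484081969734950846464]]]],[[[[12438038387633162292391596032]],[],
[[5744663208580307107051642814464]]],[[]],[[[8270070675191038431451364196352]],
[[797292641557943062465999282176]],[]],[[],[]],[[[174109079809645093010554880]],[[]],
[[8913482793081183778759715783168]]]],[[[[]],[],[[]]],[[[]],[],[[]]],[[[]],[[]],[[]]],[[],[[]],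
[[]]],[[[]],[[]],[[]]]],[[[]],[[[1716864167261433831696171008]],[],
[[955689719926476322767259828224]]],[[[11259038207806336359129939968]],[],
[[90062556918344764599933534208]]],[[],[],[]],[[[8924010008142205879448594743296]],
[[1029966731391558171664234852352]],[]]],[[[[]],[[]],[]],[[[]],[[]]],[[[]],[],[[]]],[[[]],[],
[[]]],[[],[[]],[[]]]],[[[],[]],[[],[[253293720922046920870330368]],
[[2026237629772412186613874688]]],[[],[],[]],[[[1866810509915335907193421824]],[],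
[[797330732610949540870288048128]]],[[[14913337542420145086529544192]],[],
[[6992204690201982067047565295616]]]],[[[[]],[],[[]]],[[[]],[[]],[[]]],[[[]],[[]],[]],[[[]],[[]],
[[]]],[[[]],[],[[]]]]],[[[[[]],[],[[]]],[[[]],[[]],[[]]],[[[]],[[]]],[[[]],[[]],[[]]],[[[]],[],
[[]]]],[[[[]],[],[[]]],[[]],[[[]],[[]],[]],[[],[]],[[[]],[],[[]]]],[[[[]],[],[[]]],[[],[],[]],
[[[]],[[]],[]],[[],[],[]],[[[]],[],[[]]]],[[[[]],[[]],[[]]],[[[]],[[]],[[]]],[[[]],[[]],[[]]],[],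
[[[]],[[]],[[]]]],[[[[]],[[]],[]],[[[]],[[]],[]],[[],[],[]],[[],[],[]],[[],[[]],[]]],[[[[]],[[]],
[[]]],[[[]],[[]],[]],[],[[[]],[[]],[]],[[],[[]],[]]],[[[[]],[],[[]]],[[[]],[],[[]]],[[],[],[]],
[[],[[]],[[]]],[[],[],[]]]],[[[[[1034917877564962992093869637632]],[],
[[7606377500918723910570266853376]]],[[[108943562739355296716218695680]],[],
[[11200093703190734217846718464]]],[],[[],[[233020600475907680249577472]],
[[2171383668744544180584316928]]],[]],[[[[]],[],[[]]],[[[]],[],[[]]],[[[]],[[]],[[]]],[[],[[]],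
[[]]],[[[]],[[]],[[]]]],[[[[109250742017138551232638615552]],[],
[[66002012957599922960028539551744]]],[[],[],[]],[[[14857122496510081977731514368]],
[[109715045679739516803879075840]],[]],[[],[],[]],[[[99663844605932631763514982400]],[],
[[796074356306493729542485577728]]]],[[[[1111729100300622323081266069504]],[],
[[109100911954098829763425599488]]],[[],[],[]],[[[109405560107580672137767157760]],
[[17408536675850155173616549888]],[]],[[]],[[[879014799593651868867626270720]],[],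
[[119163972135166639122801590272]]]],[[[],[],[[]]],[[],[],[]],[[[]],[[]]],[[]],[[[]],[],[]]],[[[],
[[109724565435908493559356981248]],[[718063879526838191978501898240]]],[[],[],[]],[[]],
[[[798510327438865963943432290304]],[[119313953295191832947721240576]],[]],
[[[6972238069539429249088921731072]],[[1109194908145537444377324421120]],[]]],[[[[]],[[]],[[]]],
[[[]],[],[[]]],[[[]],[],[[]]],[[[]],[[]],[[]]],[[[]]]]],[[[[[]],[[]],[[]]],[[[]]],[[[]]],[[[]],
[[]],[[]]],[[[]],[[]]]],[[[]],[[[]],[],[[]]],[[[]],[],[[]]],[[],[],[]],[[[]],[[]],[]]],[[[[]],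
[[]],[[]]],[[[]],[[]],[[]]],[[[]],[[]],[[]]],[],[[],[],[[]]]],[[[[]],[],[[]]],[[],[],[]],[[[]],
[[]],[]],[[]],[[[]],[],[[]]]],[[[[]],[],[]],[[],[],[]],[[[]]],[[]],[[]]],[[[[]],[[]],[[]]],[],
[[[]]],[[[]]],[[[]]]],[[[[]],[[]],[]],[[],[],[]],[[[]],[],[[]]],[[[]],[],[[]]],[[]]]],
[[[[[6982767663502504326430734680064]],[[716787853525759050481289920512]],[]],[],
[[[14971965499827409276590620672]],[],[[2181018467014912562134253568]]],
[[[29129346383801650595758080]],[],[[232128296860801391296249856]]],[]],[[[[]],[[]],[]],[[[]],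
[[]]],[[[]],[],[[]]],[[[]],[],[[]]],[[],[[]],[[]]]],[[[[66163061228809077999832379686912]],
[[7012623257764768588523808849920]],[]],[[[1557323129399078820652285952]],
[[12497289629303183899440185344]],[]],[[],[],[]],[[],[],[]],[[],[[11162616709921200963934511104]],
[[89610570957839735475950059520]]]],[[[],[],[[]]],[[],[],[]],[[[]],[[]]],[[]],[[[]],[],[]]],
[[[[99663847567351056973061685248]],[],[[14876455637675056171721424896]]],[[],[],[]],
[[[12399376224438114659854974976]],[[1407379139858073725494624256]],[]],[[]],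
[[[129531720563694160006321602560]],[],[[13617973602868201498301431808]]]],
[[[[14934181921671379975453278208]],[],[[139282839503834754408784068608]]],[[],[],[]],
[[[138968557750841719927376707584]],[[16191143877988597482211508224]],[]],[[]],
[[[1031243357208174583338711908352]],[],[[89453486178041727361571028992]]]],[[[[]],[[]],[[]]],[[],
[[]],[[]]],[[[]],[[]],[[]]],[[[]],[],[[]]],[[[]]]]],[[[[[]],[[]],[[]]],[[],[[]],[[]]],[[[]],[[]],
[[]]],[[[]]],[]],[[[],[]],[[],[[]],[[]]],[[],[],[]],[[[]],[],[[]]],[[[]],[],[[]]]],[[[[]],[[]],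
[[]]],[[[]],[[]],[]],[],[[[]],[[]],[]],[[],[[]],[]]],[[[],[[]],[[]]],[[],[],[]],[[]],[[[]],[[]],
[]],[[[]],[[]],[]]],[[[[]],[[]],[[]]],[],[[[]]],[[[]]],[[[]]]],[[[[]],[],[]],[[],[],[]],[[[]]]],
[[[[]],[],[[]]],[[],[],[]],[[[]],[[]],[]],[[]],[[[]],[],[[]]]]],
[[[[[799748579307659741736879521792]],[[]],[[7032440122113799505471567036416]]],[],
[[[1859555193628400028808642560]],[[13734922785094268058712145920]],[]],[],
[[[174090191533504086787751936]],[],[[2026311979223390497454161920]]]],[[[[]],[],[[]]],[[[]],[[]],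
[[]]],[[[]],[[]],[]],[[[]],[[]],[[]]],[[[]],[],[[]]]],[[[[7645991583909557252001183629312]],[[]],
[[50951195993275299443036549038080]]],[[[871550296564022251887629172736]],[],
[[99514091244896263370373758976]]],[[],[],[]],[[],[[129064958300159281214005477376]],
[[1031243947646912600182532866048]]],[[],[],[]]],[[[],[[]],[[]]],[[],[],[]],[[[]],[],[[]]],[[[]],
[],[]],[[[]]]],[[[[12495769099966064999258652672]],[[99514091244896263370373758976]],[]],[[],[],
[]],[[[6378805361749161697139824263168]],[],[[11181680971417726856834056192]]],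
[[[955788261470555425888738738176]],[],[[129367228133367757069113884672]]],[[]]],[[[],[],[]],[[],
[],[]],[[]],[[]],[[]]],[[[[129064958300159281214005477376]],[],
[[1114185656386442242616252432384]]],[[],[],[]],[[[1113006027977383125176797102080]],
[[129367228133367757069113884672]],[]],[[]],[[[5734293156799510983800738807808]],[],
[[719341114303786238817478377472]]]]]]] : List (List (List (List (List (List (List (ℕ))))))))

end Pool.Agent.Helper26.WD
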