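import Pool.Agent.Helper26.WD.Cmp.Lit0
import Pool.Agent.Helper26.WD.Cmp.Lit1
import Pool.Agent.Helper26.WD.Prog
import Pool.Agent.Helper26.WD.SoundRun

/-!
# Stages of the computation for the Whitehead double
-/

namespace Pool.Agent.Helper26.WD

open Piece

theorem stage0 : runT algP ((knot.take 7).flatMap Piece.double) (St.init algP) =
    (stP 6 [true, false, true, false, true, false, true, false, true, false, true, false] wst0) :=
  eqP_sound _ _ (by decide +kernel)

theorem stage1 : runT algP (((knot.drop 7).take 1).flatMap Piece.double)
    (stP 6 [true, false, true, false, true, false, true, false, true, false, true, false] wst0) =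
    (stP 6 [true, false, true, false, true, false, true, false, true, false, true, false] wst1) :=
  eqP_sound _ _ (by decide +kernel)

theorem stage2 : runT algP (((knot.drop 8).take 1).flatMap Piece.double)
    (stP 6 [true, false, true, false, true, false, true, false, true, false, true, false] wst1) =
    (stP 6 [true, false, true, false, true, false, true, false, true, false, true, false] wst2) :=
  eqP_sound _ _ (by decide +kernel)

theorem stage3 : runT algP (((knot.drop 9).take 1).flatMap Piece.double)
    (stP 6 [true, false, true, false, true, false, true, false, true, false, true, false] wst2) =
    (stP 6 [true, false, true, false, true, false, true, false, true, false, true, false] wst3) :=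
  eqP_sound _ _ (by decide +kernel)

end Pool.Agent.Helper26.WD
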