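import Pool.Agent.Helper26.WD.Cmp.Stage0
import Pool.Agent.Helper26.WD.Cmp.Stage1
import Pool.Agent.Helper26.WD.Cmp.Stage2
import Pool.Agent.Helper26.WD.Cmp.Stage3
import Pool.Agent.Helper26.WD.Cmp.Stage4
import Pool.Agent.Helper26.WD.Cmp.Stage5
import Pool.Agent.Helper26.WD.Cmp.Stage6
import Pool.Agent.Helper26.WD.Cmp.Stage7
import Pool.Agent.Helper26.WD.Cmp.Stage8

/-!
# The value of the Whitehead double
-/

namespace Pool.Agent.Helper26.WD

open Piece

/-- The Whitehead double. -/
def wdouble : List (Piece Bool) :=
  knot₁.flatMap Piece.double ++ fullTwists 0 0 true ++ clasp 0 true ++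
    [(cap 0 : Piece Bool)].flatMap Piece.double

set_option maxRecDepth 100000 in
theorem wdouble_eq : wdouble =
    (knot.take 7).flatMap Piece.double ++
    (((knot.drop 7).take 1).flatMap Piece.double ++
    (((knot.drop 8).take 1).flatMap Piece.double ++
    (((knot.drop 9).take 1).flatMap Piece.double ++
    (((knot.drop 10).take 1).flatMap Piece.double ++
    (((knot.drop 11).take 1).flatMap Piece.double ++
    (((knot.drop 12).take 1).flatMap Piece.double ++
    (((knot.drop 13).take 1).flatMap Piece.double ++
    (((knot.drop 14).take 1).flatMap Piece.double ++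
    (((knot.drop 15).take 3).flatMap Piece.double ++
    (((knot.drop 18).take 1).flatMap Piece.double ++
    (((knot.drop 19).take 1).flatMap Piece.double ++
    (((knot.drop 20).take 1).flatMap Piece.double ++
    (((knot.drop 21).take 1).flatMap Piece.double ++
    (((knot.drop 22).take 1).flatMap Piece.double ++
    (((knot.drop 23).take 1).flatMap Piece.double ++
    (((knot.drop 24).take 1).flatMap Piece.double ++
    (((knot.drop 25).take 1).flatMap Piece.double ++
    (((knot.drop 26).take 1).flatMap Piece.double ++
    (((knot.drop 27).take 1).flatMap Piece.double ++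
    (((knot.drop 28).take 2).flatMap Piece.double ++ clasp 0 true ++
      [(cap 0 : Piece Bool)].flatMap Piece.double)))))))))))))))))))) := rfl

theorem run_wdouble : runT algP wdouble (St.init algP) =
    stP 0 [] ([17406556684031605677045071481686458368] : List ℕ) := by
  rw [wdouble_eq, runT_append, stage0]
  rw [runT_append, stage1]
  rw [runT_append, stage2]
  rw [runT_append, stage3]
  rw [runT_append, stage4]
  rw [runT_append, stage5]
  rw [runT_append, stage6]
  rw [runT_append, stage7]
  rw [runT_append, stage8]
  rw [runT_append, stage9]
  rw [runT_append, stage10]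
  rw [runT_append, stage11]
  rw [runT_append, stage12]
  rw [runT_append, stage13]
  rw [runT_append, stage14]
  rw [runT_append, stage15]
  rw [runT_append, stage16]
  rw [runT_append, stage17]
  rw [runT_append, stage18]
  rw [runT_append, stage19]
  exact stage20

end Pool.Agent.Helper26.WD
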